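import Pool.Agent.H68.CW.Dec

/-!
Bipartite graphs (definitions). `side : V → Bool` gives the two sides.

`bcG G side` is the bipartite complement. The bipartite tournament of `G` has the arc `u → v` (`side u ≠ side v`) iff
`(G.Adj u v ↔ side u = true)`; `Str G side M` says that it is strongly connected on `M` (every nonempty
proper part `A` of `M` has an arc from `M \ A` to `A`). A set is prime (`LP`) if the graph and its bipartite complement
are connected and the tournament is strongly connected.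
-/

set_option autoImplicit false

namespace Pool.Agent.H68.CW

variable {V : Type}

def Bip (G : SimpleGraph V) (side : V → Bool) (M : Set V) : Prop :=
  ∀ u ∈ M, ∀ v ∈ M, G.Adj u v → side u ≠ side v

/-- the bipartite complement -/
def bcG (G : SimpleGraph V) (side : V → Bool) : SimpleGraph V where
  Adj u v := side u ≠ side v ∧ ¬ G.Adj u v
  symm := ⟨fun _ _ h => ⟨h.1.symm, fun h' => h.2 h'.symm⟩⟩
  loopless := ⟨fun _ h => h.1 rfl⟩

/-- arcs of the bipartite tournament -/
def Arc (G : SimpleGraph V) (side : V → Bool) (u v : V) : Prop :=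
  side u ≠ side v ∧ (G.Adj u v ↔ side u = true)

/-- the bipartite tournament is strongly connected on `M` -/
def Str (G : SimpleGraph V) (side : V → Bool) (M : Set V) : Prop :=
  ∀ A ⊆ M, A.Nonempty → A ≠ M → ∃ u ∈ M, u ∉ A ∧ ∃ v ∈ A, Arc G side u v

structure LP (G : SimpleGraph V) (side : V → Bool) (M : Set V) : Prop where
  conn : Conn G M
  bconn : Conn (bcG G side) M
  str : Str G side M

/-- blow-up of a path with `k` vertices; `c` is the class -/
def PathBl (G : SimpleGraph V) (M : Set V) (k : ℕ) (c : V → ℕ) : Prop :=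
  (∀ u ∈ M, 1 ≤ c u ∧ c u ≤ k) ∧ (∀ i, 1 ≤ i → i ≤ k → ∃ u ∈ M, c u = i) ∧
    ∀ u ∈ M, ∀ v ∈ M, (G.Adj u v ↔ (c u + 1 = c v ∨ c v + 1 = c u))

/-- blow-up of a cycle with `k` vertices -/
def CycBl (G : SimpleGraph V) (M : Set V) (k : ℕ) (c : V → ℕ) : Prop :=
  (∀ u ∈ M, c u < k) ∧ (∀ i, i < k → ∃ u ∈ M, c u = i) ∧
    ∀ u ∈ M, ∀ v ∈ M, (G.Adj u v ↔ ((c u + 1) % k = c v ∨ (c v + 1) % k = c u))

/-- blow-up of a path or a cycle with at least seven vertices -/
def PC (G : SimpleGraph V) (M : Set V) : Prop :=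
  ∃ k c, 7 ≤ k ∧ (PathBl G M k c ∨ CycBl G M k c)

end Pool.Agent.H68.CW
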