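import Pool.Agent.H68.CW.BipDef

/-!
BS. A vertex whose removal leaves a strongly connected tournament.

Write `u → v` for `Arc G side u v`. For vertices `u, v` on different sides exactly one of `u → v`, `v → u` holds. Call `X` strong if
`Str G side X`, i.e. there is no partition of `X` in nonempty parts `A, B` with `A → B` (all arcs between `A` and `B` go from
`A` to `B`; take `A` in the definition of `Str` to be `B`).

(1) `M` contains a directed 4-cycle, which is strong. (2) take a strong proper subset `S` of `M` that meets both sides, with a maximal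
number of elements; then `S = M \ {v}`.
-/

set_option autoImplicit false

namespace Pool.Agent.H68.CW

variable {V : Type}

theorem Arc.total {G : SimpleGraph V} {side : V → Bool} {u v : V} (h : side u ≠ side v) :
    Arc G side u v ∨ Arc G side v u := by
  unfold Arc
  have h' : G.Adj v u ↔ G.Adj u v := G.adj_comm v u
  rw [h']
  by_cases ha : G.Adj u v
  · cases hu : side u <;> cases hv : side v <;> simp_all
  · cases hu : side u <;> cases hv : side v <;> simp_all

theorem Arc.asymm {G : SimpleGraph V} {side : V → Bool} {u v : V} (h : Arc G side u v) :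
    ¬ Arc G side v u := by
  unfold Arc at h ⊢
  have h' : G.Adj v u ↔ G.Adj u v := G.adj_comm v u
  rw [h']
  by_cases ha : G.Adj u v
  · cases hu : side u <;> cases hv : side v <;> simp_all
  · cases hu : side u <;> cases hv : side v <;> simp_all

theorem Arc.adj_of_true {G : SimpleGraph V} {side : V → Bool} {u v : V} (h : Arc G side u v)
    (hu : side u = true) : G.Adj u v := h.2.mpr hu

theorem Arc.not_adj_of_false {G : SimpleGraph V} {side : V → Bool} {u v : V}
    (h : Arc G side u v) (hu : side u = false) : ¬ G.Adj u v := by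
  intro ha
  have := h.2.mp ha
  rw [hu] at this
  exact Bool.noConfusion this

theorem Str.in_arc {G : SimpleGraph V} {side : V → Bool} {S : Set V} (h : Str G side S)
    {x : V} (hx : x ∈ S) (hne : ∃ y ∈ S, y ≠ x) : ∃ y ∈ S, Arc G side y x := by
  obtain ⟨z, hz, hzx⟩ := hne
  obtain ⟨u, hu, -, v, hv, huv⟩ := h {x} (by simpa using hx) ⟨x, rfl⟩ (by
    intro h1
    rw [← h1] at hz
    exact hzx hz)
  rw [Set.mem_singleton_iff] at hv
  subst hv
  exact ⟨u, hu, huv⟩

theorem Str.out_arc {G : SimpleGraph V} {side : V → Bool} {S : Set V} (h : Str G side S)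
    {x : V} (hx : x ∈ S) (hne : ∃ y ∈ S, y ≠ x) : ∃ y ∈ S, Arc G side x y := by
  obtain ⟨z, hz, hzx⟩ := hne
  obtain ⟨u, hu, huA, v, hv, huv⟩ := h (S \ {x}) Set.sdiff_subset ⟨z, hz, hzx⟩ (by
    intro h1
    rw [← h1] at hx
    exact hx.2 rfl)
  have hux : u = x := by
    by_contra hne
    exact huA ⟨hu, hne⟩
  subst hux
  exact ⟨v, hv.1, huv⟩

/-- a strong set meeting both sides has no isolated vertex, also in the bipartite complement -/
theorem Str.no_isolated {G : SimpleGraph V} {side : V → Bool} {S : Set V} (h : Str G side S)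
    (h1 : ∃ x ∈ S, side x = true) (h2 : ∃ x ∈ S, side x = false) :
    (∀ x ∈ S, ∃ y ∈ S, side y ≠ side x ∧ G.Adj x y) ∧
      ∀ x ∈ S, ∃ y ∈ S, side y ≠ side x ∧ ¬ G.Adj x y := by
  have hne : ∀ x ∈ S, ∃ y ∈ S, y ≠ x := by
    intro x _
    obtain ⟨a, ha, hat⟩ := h1
    obtain ⟨b, hb, hbf⟩ := h2
    by_cases hax : a = x
    · refine ⟨b, hb, ?_⟩
      intro hbx
      rw [hax, ← hbx, hbf] at hat
      exact Bool.noConfusion hat
    · exact ⟨a, ha, hax⟩
  constructor
  · intro x hx
    obtain ⟨y, hy, hyx⟩ := h.in_arc hx (hne x hx)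
    obtain ⟨z, hz, hxz⟩ := h.out_arc hx (hne x hx)
    cases hsx : side x with
    | true => exact ⟨z, hz, hsx ▸ hxz.1.symm, hxz.adj_of_true hsx⟩
    | false =>
      have hsy : side y = true := by
        have := hyx.1
        rw [hsx] at this
        simpa using this
      exact ⟨y, hy, hsx ▸ hyx.1, (hyx.adj_of_true hsy).symm⟩
  · intro x hx
    obtain ⟨y, hy, hyx⟩ := h.in_arc hx (hne x hx)
    obtain ⟨z, hz, hxz⟩ := h.out_arc hx (hne x hx)
    cases hsx : side x with
    | true =>
      have hsy : side y = false := by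
        have := hyx.1
        rw [hsx] at this
        simpa using this
      exact ⟨y, hy, hsx ▸ hyx.1, fun ha => hyx.not_adj_of_false hsy ha.symm⟩
    | false => exact ⟨z, hz, hsx ▸ hxz.1.symm, hxz.not_adj_of_false hsx⟩

theorem Str.insert_one {G : SimpleGraph V} {side : V → Bool} {S : Set V} (h : Str G side S)
    {v : V} (hin : ∃ x ∈ S, Arc G side x v) (hout : ∃ x ∈ S, Arc G side v x) :
    Str G side (insert v S) := by
  intro A hA hne hAM
  by_cases hAS : (A ∩ S).Nonempty
  · by_cases hSA : A ∩ S = S
    · have hS : S ⊆ A := Set.inter_eq_right.mp hSA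
      have hv : v ∉ A := by
        intro hv
        apply hAM
        exact Set.Subset.antisymm hA (Set.insert_subset hv hS)
      obtain ⟨x, hx, hvx⟩ := hout
      exact ⟨v, Set.mem_insert _ _, hv, x, hS hx, hvx⟩
    · obtain ⟨u, hu, huA, w, hw, huw⟩ := h (A ∩ S) Set.inter_subset_right hAS hSA
      exact ⟨u, Set.mem_insert_of_mem _ hu, fun h' => huA ⟨h', hu⟩, w, hw.1, huw⟩
  · obtain ⟨a, ha⟩ := hne
    have hav : a = v := by
      rcases hA ha with h' | h'
      · exact h'
      · exact absurd ⟨a, ha, h'⟩ hAS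
    subst hav
    obtain ⟨x, hx, hxv⟩ := hin
    exact ⟨x, Set.mem_insert_of_mem _ hx, fun h' => hAS ⟨x, h', hx⟩, a, ha, hxv⟩

theorem Str.insert_two {G : SimpleGraph V} {side : V → Bool} {S : Set V} (h : Str G side S)
    {u u' : V} (hin : ∃ x ∈ S, Arc G side x u) (huu : Arc G side u u')
    (hout : ∃ x ∈ S, Arc G side u' x) :
    Str G side (insert u (insert u' S)) := by
  intro A hA hne hAM
  by_cases hAS : (A ∩ S).Nonempty
  · by_cases hSA : A ∩ S = S
    · have hS : S ⊆ A := Set.inter_eq_right.mp hSA
      by_cases hu' : u' ∈ A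
      · have hu : u ∉ A := by
          intro hu
          apply hAM
          exact Set.Subset.antisymm hA (Set.insert_subset hu (Set.insert_subset hu' hS))
        exact ⟨u, Set.mem_insert _ _, hu, u', hu', huu⟩
      · obtain ⟨x, hx, hvx⟩ := hout
        exact ⟨u', Set.mem_insert_of_mem _ (Set.mem_insert _ _), hu', x, hS hx, hvx⟩
    · obtain ⟨y, hy, hyA, w, hw, hyw⟩ := h (A ∩ S) Set.inter_subset_right hAS hSA
      exact ⟨y, Set.mem_insert_of_mem _ (Set.mem_insert_of_mem _ hy), fun h' => hyA ⟨h', hy⟩,
        w, hw.1, hyw⟩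
  · by_cases hu : u ∈ A
    · obtain ⟨x, hx, hxu⟩ := hin
      exact ⟨x, Set.mem_insert_of_mem _ (Set.mem_insert_of_mem _ hx),
        fun h' => hAS ⟨x, h', hx⟩, u, hu, hxu⟩
    · obtain ⟨a, ha⟩ := hne
      have hau : a = u' := by
        rcases hA ha with h' | h' | h'
        · exact absurd (h' ▸ ha) hu
        · exact h'
        · exact absurd ⟨a, ha, h'⟩ hAS
      subst hau
      exact ⟨u, Set.mem_insert _ _, hu, a, ha, huu⟩

/-- a strong set contains a directed 4-cycle -/
theorem Str.exists_cycle {G : SimpleGraph V} {side : V → Bool} {M : Set V} (h : Str G side M)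
    (h2 : M.Nontrivial) : ∃ s ∈ M, ∃ w ∈ M, ∃ b ∈ M, ∃ w' ∈ M,
      Arc G side s w ∧ Arc G side w b ∧ Arc G side b w' ∧ Arc G side w' s := by
  obtain ⟨s, hs, t, ht, hst⟩ := h2
  by_contra hno
  push Not at hno
  obtain ⟨w, hw, hsw⟩ := h.out_arc hs ⟨t, ht, hst.symm⟩
  set A : Set V := {x | x ∈ M ∧ (x = s ∨ Arc G side x s ∨
    (side x = side s ∧ ∀ y ∈ M, Arc G side s y → Arc G side x y))} with hA
  have hwA : w ∉ A := by
    rintro ⟨-, h1 | h1 | h1⟩
    · rw [h1] at hsw
      exact hsw.1 rfl
    · exact hsw.asymm h1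
    · exact hsw.1 h1.1.symm
  obtain ⟨u, hu, huA, v, hv, huv⟩ := h A (fun x hx => hx.1) ⟨s, hs, Or.inl rfl⟩ (by
    intro h1
    apply hwA
    rw [h1]
    exact hw)
  have hus : u ≠ s := fun h1 => huA ⟨hu, Or.inl h1⟩
  have hus2 : ¬ Arc G side u s := fun h1 => huA ⟨hu, Or.inr (Or.inl h1)⟩
  by_cases hsd : side u = side s
  · -- `u` is on the side of `s`
    have h3 : ∃ y ∈ M, Arc G side s y ∧ ¬ Arc G side u y := by
      by_contra h4
      push Not at h4
      exact huA ⟨hu, Or.inr (Or.inr ⟨hsd, h4⟩)⟩
    obtain ⟨y, hy, hsy, huy⟩ := h3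
    have hyu : Arc G side y u := by
      rcases Arc.total (G := G) (side := side) (u := y) (v := u)
        (by rw [hsd]; exact hsy.1.symm) with h5 | h5
      · exact h5
      · exact absurd h5 huy
    rcases hv with ⟨hvM, h1 | h1 | h1⟩
    · rw [h1] at huv
      exact huv.1 hsd
    · exact hno s hs y hy u hu v hvM hsy hyu huv h1
    · exact huv.1 (hsd.trans h1.1.symm)
  · have hsu : Arc G side s u := by
      rcases Arc.total (G := G) (side := side) hsd with h5 | h5
      · exact absurd h5 hus2
      · exact h5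
    rcases hv with ⟨hvM, h1 | h1 | h1⟩
    · rw [h1] at huv
      exact hus2 huv
    · apply huv.1
      have h6 := h1.1
      cases hh : side u <;> cases hh2 : side v <;> cases hh3 : side s <;> simp_all
    · exact huv.asymm (h1.2 u hu hsu)

theorem str_cycle {G : SimpleGraph V} {side : V → Bool} {s w b w' : V}
    (h1 : Arc G side s w) (h2 : Arc G side w b) (h3 : Arc G side b w') (h4 : Arc G side w' s) :
    Str G side {s, w, b, w'} := by
  intro A hA hne hAM
  by_contra hno
  push Not at hno
  have e1 : w ∈ A → s ∈ A := by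
    intro h
    by_contra h'
    exact hno s (by simp) h' w h h1
  have e2 : b ∈ A → w ∈ A := by
    intro h
    by_contra h'
    exact hno w (by simp) h' b h h2
  have e3 : w' ∈ A → b ∈ A := by
    intro h
    by_contra h'
    exact hno b (by simp) h' w' h h3
  have e4 : s ∈ A → w' ∈ A := by
    intro h
    by_contra h'
    exact hno w' (by simp) h' s h h4
  have hs : s ∈ A := by
    obtain ⟨a, ha⟩ := hne
    have := hA ha
    simp only [Set.mem_insert_iff, Set.mem_singleton_iff] at this
    rcases this with rfl | rfl | rfl | rfl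
    · exact ha
    · exact e1 ha
    · exact e1 (e2 ha)
    · exact e1 (e2 (e3 ha))
  apply hAM
  apply Set.Subset.antisymm hA
  intro x hx
  simp only [Set.mem_insert_iff, Set.mem_singleton_iff] at hx
  rcases hx with rfl | rfl | rfl | rfl
  · exact hs
  · exact e2 (e3 (e4 hs))
  · exact e3 (e4 hs)
  · exact e4 hs

theorem not_bconn_cycle {G : SimpleGraph V} {side : V → Bool} {s w b w' : V}
    (h1 : Arc G side s w) (h2 : Arc G side w b) (h3 : Arc G side b w') (h4 : Arc G side w' s) :
    ¬ Conn (bcG G side) {s, w, b, w'} := by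
  intro hc
  have hsb : side s = side b := by
    have e1 := h1.1
    have e2 := h2.1
    cases hh : side s <;> cases hh2 : side w <;> cases hh3 : side b <;> simp_all
  have hww : side w = side w' := by
    have e1 := h2.1
    have e2 := h3.1
    cases hh : side w <;> cases hh2 : side b <;> cases hh3 : side w' <;> simp_all
  cases hs : side s with
  | true =>
    have hw : side w = false := by
      have e1 := h1.1
      rw [hs] at e1
      simpa using e1.symm
    have hb : side b = true := hsb ▸ hs
    have hw' : side w' = false := hww ▸ hw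
    obtain ⟨x, hx, y, hy, hyA, hxy⟩ := hc {w, b} (by
      intro x hx
      simp only [Set.mem_insert_iff, Set.mem_singleton_iff] at hx ⊢
      tauto) ⟨w, by simp⟩ (by
      intro h
      have hsm : s ∈ ({w, b} : Set V) := by rw [h]; simp
      simp only [Set.mem_insert_iff, Set.mem_singleton_iff] at hsm
      rcases hsm with h' | h'
      · rw [h', hw] at hs
        exact Bool.noConfusion hs
      · subst h'
        exact h1.asymm h2)
    simp only [Set.mem_insert_iff, Set.mem_singleton_iff] at hx hy hyA
    have hy' : y = s ∨ y = w' := by tauto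
    rcases hx with rfl | rfl
    · rcases hy' with rfl | rfl
      · exact hxy.2 (h1.adj_of_true hs).symm
      · exact hxy.1 hww
    · rcases hy' with rfl | rfl
      · exact hxy.1 hsb.symm
      · exact hxy.2 (h3.adj_of_true hb)
  | false =>
    have hw : side w = true := by
      have e1 := h1.1
      rw [hs] at e1
      simpa using e1.symm
    have hb : side b = false := hsb ▸ hs
    have hw' : side w' = true := hww ▸ hw
    obtain ⟨x, hx, y, hy, hyA, hxy⟩ := hc {s, w} (by
      intro x hx
      simp only [Set.mem_insert_iff, Set.mem_singleton_iff] at hx ⊢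
      tauto) ⟨w, by simp⟩ (by
      intro h
      have hsm : b ∈ ({s, w} : Set V) := by rw [h]; simp
      simp only [Set.mem_insert_iff, Set.mem_singleton_iff] at hsm
      rcases hsm with h' | h'
      · subst h'
        exact h1.asymm h2
      · rw [h', hw] at hb
        exact Bool.noConfusion hb)
    simp only [Set.mem_insert_iff, Set.mem_singleton_iff] at hx hy hyA
    have hy' : y = b ∨ y = w' := by tauto
    rcases hx with rfl | rfl
    · rcases hy' with rfl | rfl
      · exact hxy.1 hsb
      · exact hxy.2 (h4.adj_of_true hw').symm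
    · rcases hy' with rfl | rfl
      · exact hxy.2 (h2.adj_of_true hw)
      · exact hxy.1 hww

theorem exists_strong_sub {G : SimpleGraph V} {side : V → Bool} {M : Set V} (hM : M.Finite)
    (h2 : M.Nontrivial) (hb : Bip G side M) (h : LP G side M) :
    ∃ v ∈ M, Str G side (M \ {v}) ∧
      (∃ x ∈ M, x ≠ v ∧ side x ≠ side v ∧ G.Adj v x) ∧
      (∃ x ∈ M, x ≠ v ∧ side x ≠ side v ∧ ¬ G.Adj v x) ∧
      (∃ x ∈ M, x ≠ v ∧ side x = true) ∧ (∃ x ∈ M, x ≠ v ∧ side x = false) := by
  classical
  set F : Set (Set V) := {S | S ⊆ M ∧ S ≠ M ∧ Str G side S ∧ (∃ x ∈ S, side x = true) ∧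
    (∃ x ∈ S, side x = false)} with hF
  have hFfin : F.Finite := hM.finite_subsets.subset fun S hS => hS.1
  have hFne : F.Nonempty := by
    obtain ⟨s, hs, w, hw, b, hb', w', hw', e1, e2, e3, e4⟩ := h.str.exists_cycle h2
    refine ⟨{s, w, b, w'}, ?_, ?_, str_cycle e1 e2 e3 e4, ?_, ?_⟩
    · intro x hx
      simp only [Set.mem_insert_iff, Set.mem_singleton_iff] at hx
      rcases hx with rfl | rfl | rfl | rfl <;> assumption
    · intro h1
      apply not_bconn_cycle e1 e2 e3 e4
      rw [h1]
      exact h.bconn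
    · have h1 := e1.1
      cases hsd : side s with
      | true => exact ⟨s, by simp, hsd⟩
      | false =>
        refine ⟨w, by simp, ?_⟩
        rw [hsd] at h1
        simpa using h1.symm
    · have h1 := e1.1
      cases hsd : side s with
      | false => exact ⟨s, by simp, hsd⟩
      | true =>
        refine ⟨w, by simp, ?_⟩
        rw [hsd] at h1
        simpa using h1.symm
  obtain ⟨S, hSF, hSmax⟩ := Set.exists_max_image F Set.ncard hFfin hFne
  obtain ⟨hSM, hSneM, hSstr, ⟨p, hp, hpt⟩, ⟨q, hq, hqf⟩⟩ := hSF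
  have hSfin : S.Finite := hM.subset hSM
  -- a strong set that is larger than `S` is `M`
  have hbig : ∀ T : Set V, S ⊆ T → T ⊆ M → (∃ x ∈ T, x ∉ S) → Str G side T → T = M := by
    intro T hST hTM ⟨x, hxT, hxS⟩ hT
    by_contra hne
    have h1 := hSmax T ⟨hTM, hne, hT, ⟨p, hST hp, hpt⟩, ⟨q, hST hq, hqf⟩⟩
    have h3 : S.ncard < T.ncard :=
      Set.ncard_lt_ncard ⟨hST, fun h' => hxS (h' hxT)⟩ (hM.subset hTM)
    omega
  by_cases hboth : ∃ v ∈ M, v ∉ S ∧ (∃ x ∈ S, Arc G side x v) ∧ (∃ x ∈ S, Arc G side v x)
  · obtain ⟨v, hv, hvS, hin, hout⟩ := hboth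
    have h1 : insert v S = M := hbig _ (Set.subset_insert _ _) (Set.insert_subset hv hSM)
      ⟨v, Set.mem_insert _ _, hvS⟩ (hSstr.insert_one hin hout)
    have h3 : M \ {v} = S := by
      rw [← h1]
      ext x
      simp only [Set.mem_sdiff, Set.mem_insert_iff, Set.mem_singleton_iff]
      constructor
      · rintro ⟨h4 | h4, h5⟩
        · exact absurd h4 h5
        · exact h4
      · intro h4
        exact ⟨Or.inr h4, fun h5 => hvS (h5 ▸ h4)⟩
    have hneS : ∀ x ∈ S, x ≠ v := fun x hx h5 => hvS (h5 ▸ hx)
    obtain ⟨x, hx, hxv⟩ := hin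
    obtain ⟨y, hy, hvy⟩ := hout
    refine ⟨v, hv, h3 ▸ hSstr, ?_, ?_, ⟨p, hSM hp, hneS p hp, hpt⟩, ⟨q, hSM hq, hneS q hq, hqf⟩⟩
    · cases hsv : side v with
      | true => exact ⟨y, hSM hy, hneS y hy, hsv ▸ hvy.1.symm, hvy.adj_of_true hsv⟩
      | false =>
        have hsx : side x = true := by
          have := hxv.1
          rw [hsv] at this
          simpa using this
        exact ⟨x, hSM hx, hneS x hx, hsv ▸ hxv.1, (hxv.adj_of_true hsx).symm⟩
    · cases hsv : side v with
      | true =>
        have hsx : side x = false := by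
          have := hxv.1
          rw [hsv] at this
          simpa using this
        exact ⟨x, hSM hx, hneS x hx, hsv ▸ hxv.1, fun ha => hxv.not_adj_of_false hsx ha.symm⟩
      | false => exact ⟨y, hSM hy, hneS y hy, hsv ▸ hvy.1.symm, hvy.not_adj_of_false hsv⟩
  · exfalso
    push Not at hboth
    -- `In`
    set I : Set V := {v | v ∈ M ∧ v ∉ S ∧ ∃ x ∈ S, Arc G side v x} with hI
    have hopp : ∀ v : V, ∃ x ∈ S, side x ≠ side v := by
      intro v
      cases hsv : side v with
      | true => exact ⟨q, hq, by rw [hqf]; simp⟩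
      | false => exact ⟨p, hp, by rw [hpt]; simp⟩
    have hout : ∀ v ∈ M, v ∉ S → v ∉ I → ∃ x ∈ S, Arc G side x v := by
      intro v hv hvS hvI
      obtain ⟨x, hx, hsx⟩ := hopp v
      rcases Arc.total (G := G) hsx with h1 | h1
      · exact ⟨x, hx, h1⟩
      · exact absurd ⟨hv, hvS, x, hx, h1⟩ hvI
    have hIn : I.Nonempty := by
      obtain ⟨u, hu, huS, x, hx, hux⟩ := h.str S hSM ⟨p, hp⟩ hSneM
      exact ⟨u, hu, huS, x, hx, hux⟩
    obtain ⟨u, hu, huI, u', hu', huu⟩ := h.str I (fun x hx => hx.1) hIn (by
      intro h1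
      have : p ∈ I := by rw [h1]; exact hSM hp
      exact this.2.1 hp)
    obtain ⟨hu'M, hu'S, x', hx', hu'x⟩ := hu'
    have huS : u ∉ S := by
      intro h1
      exact hboth u' hu'M hu'S ⟨u, h1, huu⟩ x' hx' hu'x
    have huin : ∃ x ∈ S, Arc G side x u := hout u hu huS huI
    have hT := hbig (insert u (insert u' S))
      (fun x hx => Set.mem_insert_of_mem _ (Set.mem_insert_of_mem _ hx))
      (Set.insert_subset hu (Set.insert_subset hu'M hSM)) ⟨u, Set.mem_insert _ _, huS⟩
      (hSstr.insert_two huin huu ⟨x', hx', hu'x⟩)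
    have hin_all : ∀ x ∈ S, side x ≠ side u → Arc G side x u := by
      intro x hx hs
      rcases Arc.total (G := G) hs with h1 | h1
      · exact h1
      · exact absurd ⟨hu, huS, x, hx, h1⟩ huI
    have hout_all : ∀ x ∈ S, side x ≠ side u' → Arc G side u' x := by
      intro x hx hs
      rcases Arc.total (G := G) hs with h1 | h1
      · exact absurd hu'x (hboth u' hu'M hu'S ⟨x, hx, h1⟩ x' hx')
      · exact h1
    have hpair : ({u, u'} : Set V) ⊆ M := by
      intro x hx
      simp only [Set.mem_insert_iff, Set.mem_singleton_iff] at hx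
      rcases hx with rfl | rfl <;> assumption
    have hpairne : ({u, u'} : Set V) ≠ M := by
      intro h1
      have : p ∈ ({u, u'} : Set V) := by rw [h1]; exact hSM hp
      simp only [Set.mem_insert_iff, Set.mem_singleton_iff] at this
      rcases this with h3 | h3
      · exact huS (h3 ▸ hp)
      · exact hu'S (h3 ▸ hp)
    have hrest : ∀ y ∈ M, y ∉ ({u, u'} : Set V) → y ∈ S := by
      intro y hy hyn
      rw [← hT] at hy
      simp only [Set.mem_insert_iff, Set.mem_singleton_iff] at hy hyn
      tauto
    cases hsu : side u with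
    | true =>
      have hsu' : side u' = false := by
        have := huu.1
        rw [hsu] at this
        simpa using this.symm
      obtain ⟨a, ha, y, hy, hyn, hay⟩ := h.conn {u, u'} hpair ⟨u, by simp⟩ hpairne
      have hyS := hrest y hy hyn
      have hsd := hb a (hpair ha) y hy hay
      simp only [Set.mem_insert_iff, Set.mem_singleton_iff] at ha
      rcases ha with rfl | rfl
      · have h5 := hin_all y hyS hsd.symm
        have h6 : side y = false := by
          rw [hsu] at hsd
          simpa using hsd.symm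
        exact h5.not_adj_of_false h6 hay.symm
      · exact (hout_all y hyS hsd.symm).not_adj_of_false hsu' hay
    | false =>
      have hsu' : side u' = true := by
        have := huu.1
        rw [hsu] at this
        simpa using this.symm
      obtain ⟨a, ha, y, hy, hyn, hay⟩ := h.bconn {u, u'} hpair ⟨u, by simp⟩ hpairne
      have hyS := hrest y hy hyn
      obtain ⟨hsd, hna⟩ := hay
      simp only [Set.mem_insert_iff, Set.mem_singleton_iff] at ha
      rcases ha with rfl | rfl
      · have h5 := hin_all y hyS hsd.symm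
        have h6 : side y = true := by
          rw [hsu] at hsd
          simpa using hsd.symm
        exact hna (h5.adj_of_true h6).symm
      · exact hna ((hout_all y hyS hsd.symm).adj_of_true hsu')

end Pool.Agent.H68.CW
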