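import Pool.Agent.H68.CW.Dec

/-!
LV. Levels of refinement.
-/

set_option autoImplicit false

namespace Pool.Agent.H68.CW

/-- labels of level `k` -/
def LT (B : Type) : ℕ → Type
  | 0 => B
  | k + 1 => LT B k × Set (LT B k) × Set (LT B k)

instance LT.finite {B : Type} [Finite B] : ∀ k, Finite (LT B k)
  | 0 => inferInstanceAs (Finite B)
  | k + 1 => by
      have := LT.finite (B := B) k
      exact inferInstanceAs (Finite (LT B k × Set (LT B k) × Set (LT B k)))

variable {V : Type}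

/-- the label of level `k`: the label of level `k - 1`, the labels of the neighbours in `X` and the labels of the
non-neighbours in `X` -/
def lab (G : SimpleGraph V) (X : Set V) {B : Type} (t : V → B) : (k : ℕ) → V → LT B k
  | 0, v => t v
  | k + 1, v => (lab G X t k v, {c | ∃ u ∈ X, lab G X t k u = c ∧ G.Adj v u},
      {c | ∃ u ∈ X, lab G X t k u = c ∧ ¬ G.Adj v u})

/-- a sequence of equivalence relations with the back and forth property on `X` -/
structure Sys (G : SimpleGraph V) (X : Set V) (E : ℕ → V → V → Prop) : Prop where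
  refl : ∀ k u, E k u u
  symm : ∀ k u v, E k u v → E k v u
  trans : ∀ k u v w, E k u v → E k v w → E k u w
  anti : ∀ k u v, E (k + 1) u v → E k u v
  bf : ∀ k v w u, E (k + 1) v w → u ∈ X → ∃ u' ∈ X, E k u' u ∧ (G.Adj w u' ↔ G.Adj v u)

theorem sys_lab (G : SimpleGraph V) (X : Set V) {B : Type} (t : V → B) :
    Sys G X (fun k u v => lab G X t k u = lab G X t k v) where
  refl _ _ := rfl
  symm _ _ _ h := h.symm
  trans _ _ _ _ h h' := h.trans h'
  anti k u v h := (Prod.ext_iff.1 h).1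
  bf k v w u h hu := by
    have h1 := (Prod.ext_iff.1 h).2
    have h2 := (Prod.ext_iff.1 h1).1
    have h3 := (Prod.ext_iff.1 h1).2
    by_cases ha : G.Adj v u
    · have : lab G X t k u ∈ {c | ∃ u ∈ X, lab G X t k u = c ∧ G.Adj v u} := ⟨u, hu, rfl, ha⟩
      have h4 : lab G X t k u ∈ {c | ∃ u ∈ X, lab G X t k u = c ∧ G.Adj w u} := by
        have h5 := Set.ext_iff.1 h2 (lab G X t k u)
        exact h5.1 this
      obtain ⟨u', hu', he, ha'⟩ := h4
      exact ⟨u', hu', he, by simp [ha, ha']⟩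
    · have : lab G X t k u ∈ {c | ∃ u ∈ X, lab G X t k u = c ∧ ¬ G.Adj v u} := ⟨u, hu, rfl, ha⟩
      have h4 : lab G X t k u ∈ {c | ∃ u ∈ X, lab G X t k u = c ∧ ¬ G.Adj w u} := by
        have h5 := Set.ext_iff.1 h3 (lab G X t k u)
        exact h5.1 this
      obtain ⟨u', hu', he, ha'⟩ := h4
      exact ⟨u', hu', he, by simp [ha, ha']⟩

theorem Sys.le {G : SimpleGraph V} {X : Set V} {E : ℕ → V → V → Prop} (h : Sys G X E) {k m : ℕ}
    (hkm : k ≤ m) {u v : V} (he : E m u v) : E k u v := by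
  induction m, hkm using Nat.le_induction with
  | base => exact he
  | succ m _ ih => exact ih (h.anti m u v he)

/-- the classes of `u` and `w` at level `N` are mixed -/
def Mx (G : SimpleGraph V) (X : Set V) (E : ℕ → V → V → Prop) (N : ℕ) (u w : V) : Prop :=
  ∀ b : Prop, ∃ x ∈ X, ∃ y ∈ X, E N x u ∧ E N y w ∧ (G.Adj x y ↔ b)

theorem Mx.symm {G : SimpleGraph V} {X : Set V} {E : ℕ → V → V → Prop} {N : ℕ} {u w : V}
    (h : Mx G X E N u w) : Mx G X E N w u := by
  intro b
  obtain ⟨x, hx, y, hy, h1, h2, h3⟩ := h b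
  exact ⟨y, hy, x, hx, h2, h1, by rw [G.adj_comm]; exact h3⟩

theorem Mx.congr {G : SimpleGraph V} {X : Set V} {E : ℕ → V → V → Prop} (hE : Sys G X E) {N : ℕ}
    {u w u' w' : V} (h : Mx G X E N u w) (hu : E N u u') (hw : E N w w') : Mx G X E N u' w' := by
  intro b
  obtain ⟨x, hx, y, hy, h1, h2, h3⟩ := h b
  exact ⟨x, hx, y, hy, hE.trans _ _ _ _ h1 hu, hE.trans _ _ _ _ h2 hw, h3⟩

/-- classes which are not mixed are joined completely or not at all -/
theorem pure_of_not_mx {G : SimpleGraph V} {X : Set V} {E : ℕ → V → V → Prop} (hE : Sys G X E)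
    {N : ℕ} {u u' v : V} (hu : u ∈ X) (hu' : u' ∈ X) (hv : v ∈ X) (he : E N u u')
    (hn : ¬ Mx G X E N u v) : G.Adj u v ↔ G.Adj u' v := by
  by_contra hne
  apply hn
  intro b
  by_cases h1 : G.Adj u v ↔ b
  · exact ⟨u, hu, v, hv, hE.refl _ _, hE.refl _ _, h1⟩
  · refine ⟨u', hu', v, hv, hE.symm _ _ _ he, hE.refl _ _, ?_⟩
    by_cases h2 : G.Adj u v <;> by_cases h3 : G.Adj u' v <;> by_cases h4 : b <;> simp_all

end Pool.Agent.H68.CW
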