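import Pool.Agent.H68.CW.Tool3

/-!
TOOL4. Gluing many blocks.

Proof of `Dec.glueMany`: for a finset (or list) `s` of blocks show `Dec G ℓ k (X_s) (X_s)` for `X_s = {v ∈ X | g v ∈ s}` by induction:
`X_{insert γ s} = X_s ∪ X_γ` and `Dec.glue` (for `u, u' ∈ X_s` with the same label and `v ∈ X_γ` use `h` since `g u ≠ g v`; for `u ∈ X_s`,
`v, v' ∈ X_γ` with the same label use `h` with the roles exchanged and the symmetry of `G.Adj`). The empty block: `Dec.empty`. `Γ` is finite.
-/

set_option autoImplicit false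

namespace Pool.Agent.H68.CW

variable {V : Type} {L : Type} {G : SimpleGraph V} {ℓ : V → L}

theorem Dec.glueMany [Finite L] {Γ : Type} [Finite Γ] {k : ℕ} (hk : Nat.card L ≤ k) (hpos : 1 ≤ k)
    {X : Set V} (g : V → Γ) (hD : ∀ γ, Dec G ℓ k {v ∈ X | g v = γ} {v ∈ X | g v = γ})
    (h : ∀ u ∈ X, ∀ u' ∈ X, ∀ v ∈ X, ℓ u = ℓ u' → g u ≠ g v → (G.Adj u v ↔ G.Adj u' v)) :
    Dec G ℓ k X X := by
  have key : ∀ s : Set Γ, Dec G ℓ k {v ∈ X | g v ∈ s} {v ∈ X | g v ∈ s} := by
    intro s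
    induction s, s.toFinite using Set.Finite.induction_on with
    | empty =>
      have h1 : {v ∈ X | g v ∈ (∅ : Set Γ)} = ∅ := by
        ext v
        simp
      rw [h1]
      exact Dec.empty
    | @insert a s ha _ ih =>
      have h1 : {v ∈ X | g v ∈ insert a s} = {v ∈ X | g v ∈ s} ∪ {v ∈ X | g v = a} := by
        ext v
        simp only [Set.mem_insert_iff, Set.mem_setOf_eq, Set.mem_union]
        tauto
      rw [h1]
      refine Dec.glue hk hpos ?_ ih (hD a) ?_ ?_
      · rw [Set.disjoint_left]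
        rintro v ⟨_, hv⟩ ⟨_, hv'⟩
        rw [hv'] at hv
        exact ha hv
      · rintro u ⟨hu, hgu⟩ u' ⟨hu', _⟩ v ⟨hv, hgv⟩ hl
        refine h u hu u' hu' v hv hl ?_
        intro he
        rw [he, hgv] at hgu
        exact ha hgu
      · rintro u ⟨hu, hgu⟩ v ⟨hv, hgv⟩ v' ⟨hv', _⟩ hl
        rw [G.adj_comm u v, G.adj_comm u v']
        refine h v hv v' hv' u hu hl ?_
        intro he
        rw [← he, hgv] at hgu
        exact ha hgu
  have h1 := key Set.univ
  have h2 : {v ∈ X | g v ∈ (Set.univ : Set Γ)} = X := by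
    ext v
    simp
  rw [h2] at h1
  exact h1

end Pool.Agent.H68.CW
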