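import Pool.Agent.H68.CW.Tool
import Pool.Agent.H68.CW.Tool4
import Pool.Agent.H68.CW.Lvl

/-!
BN. Classes which are not mixed with anything, and the gluing of groups.

Proofs. `block_N`: `Dec.few` with `c` = the label followed by an injection of the finite type `LT B 12` in `Fin k` (for `u, v` with the same label and `w ∈ Y`: `pure_of_not_mx`).
`glue_groups`: `Dec.glueMany` with `ℓ = lab G X t 12` and `k`; `h`: if `ℓ u = ℓ u'`, `g u ≠ g v` then `¬ Mx u v` (`hg`), so `pure_of_not_mx`.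
-/

set_option autoImplicit false

namespace Pool.Agent.H68.CW

variable {V : Type} {G : SimpleGraph V} {X : Set V} {B : Type} {t : V → B}

theorem block_N [Finite B] {Y : Set V} (hY : Y ⊆ X) (hfin : Y.Finite) {k : ℕ}
    (hk : Nat.card (LT B 12) ≤ k) (hpos : 1 ≤ k)
    (hn : ∀ u ∈ Y, ∀ w ∈ Y, ¬ Mx G X (fun k u v => lab G X t k u = lab G X t k v) 12 u w) :
    Dec G (lab G X t 12) k Y Y := by
  refine Dec.few hfin (fun v => Fin.castLE hk (Finite.equivFin (LT B 12) (lab G X t 12 v))) ?_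
  intro u hu v hv huv
  have h1 : lab G X t 12 u = lab G X t 12 v :=
    (Finite.equivFin (LT B 12)).injective (Fin.castLE_injective hk huv)
  refine ⟨h1, fun w hw => ?_⟩
  exact pure_of_not_mx (sys_lab G X t) (hY hu) (hY hv) (hY hw) h1 (hn u hu w hw)

theorem glue_groups [Finite B] {Γ : Type} [Finite Γ] {k : ℕ} (hk : Nat.card (LT B 12) ≤ k)
    (hpos : 1 ≤ k) (g : V → Γ)
    (hD : ∀ γ, Dec G (lab G X t 12) k {v ∈ X | g v = γ} {v ∈ X | g v = γ})
    (hg : ∀ u ∈ X, ∀ w ∈ X, Mx G X (fun k u v => lab G X t k u = lab G X t k v) 12 u w →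
      g u = g w) : Dec G (lab G X t 12) k X X := by
  refine Dec.glueMany hk hpos g hD ?_
  intro u hu u' hu' v hv huu hg'
  exact pure_of_not_mx (sys_lab G X t) hu hu' hv huu (fun hmx => hg' (hg u hu v hv hmx))

end Pool.Agent.H68.CW
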