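import Pool.Agent.H68.CW.CertDef

/-!
CERT (soundness of the checker).

Proof. For a state `s` and `f : ℕ → V` let `Sat s f` be: `sp.K ≤ s.n ≤ 32`; `s.cl.length = s.lv.length = s.n`; `f i = p i` for `i < K`; `f i ∈ X` and
`E (s.lv.getD i 0) (f i) (rep (s.cl.getD i 0))` for `K ≤ i < n`; for all `i` and `j < 32`: `s.one.testBit (32 * i + j)` implies `i < n ∧ j < n ∧ G.Adj (f i) (f j)`, and
`s.zero.testBit (32 * i + j)` implies `i < n ∧ j < n ∧ ¬ G.Adj (f i) (f j)`.
* `setOne`, `setZero`, `addF` preserve `Sat` if the facts are true and the indices are `< n ≤ 32` (`Nat.testBit_lor`, `Nat.testBit_one_shiftLeft` or `Nat.one_shiftLeft`, `Nat.testBit_two_pow`;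
  `32 * i + j = 32 * a + b` with `j, b < 32` implies `i = a`, `j = b`).
* `isZero sp s i j = true`, `i, j < n` imply `¬ G.Adj (f i) (f j)`: directly; or there is `k < 32` such that both rows have the bit `k` (`Nat.eq_of_testBit_eq` / a nonzero number has a nonzero bit;
  `4294967295 = 2 ^ 32 - 1`), then `TriFree`; or `tt` (the bits `< K` of the zero row are all set; `K ≤ n ≤ 32`).
* `addV`: choose `f' = Function.update f s.n x` (the new vertex `x`); the facts `tyF` are true because `E 0 x (rep c)` (`Sys.le`), `h0` and `cty`.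
* by induction on the tree: `check sp t s = true` implies that there is no `f` with `Sat s f`. `bf`: with `m = min (lv v) (lv w) ≥ 1`, `E m (f v) (f w)`, so `Sys.bf` with `k = m - 1` gives
  `u' ∈ X`, `E (m - 1) u' (f u)`, `(G.Adj (f w) u' ↔ G.Adj (f v) (f u))`. `mx`: `Mx` gives `x, y ∈ X`, `E N x (rep c)`, `E N y (rep j)`, `G.Adj x y ↔ b`; `E m x (f v)` with `m = lv v ≤ N`, and `Sys.bf` with `k = m - 1`
  gives `y' ∈ X`, `E (m - 1) y' y`, `G.Adj (f v) y' ↔ G.Adj x y`.
* the initial state with `f i = p i` for `i < K`, `f (K + j) = rep j` for `j < m` satisfies `Sat`.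
Everything in `check` is made of `&&`, `||`, `Nat.ble`, `Nat.beq` (`Nat.ble_eq`, `Nat.beq_eq`), so `simp only [check, Bool.and_eq_true, ...] at h` and `obtain`.
-/

set_option autoImplicit false

namespace Pool.Agent.H68.CW

variable {V : Type} {G : SimpleGraph V} {M X : Set V} {E : ℕ → V → V → Prop} {sp : Spec}
  {p rep : ℕ → V}

/-- the state `s` describes the vertices `f` -/
private structure Sat (G : SimpleGraph V) (X : Set V) (E : ℕ → V → V → Prop) (K : ℕ)
    (p rep : ℕ → V) (s : St) (f : ℕ → V) : Prop where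
  Kn : K ≤ s.n
  n32 : s.n ≤ 32
  lcl : s.cl.length = s.n
  llv : s.lv.length = s.n
  root : ∀ i < K, f i = p i
  mem : ∀ i, K ≤ i → i < s.n → f i ∈ X
  cls : ∀ i, K ≤ i → i < s.n → E (s.lv.getD i 0) (f i) (rep (s.cl.getD i 0))
  one : ∀ i j, j < 32 → s.one.testBit (32 * i + j) = true → i < s.n ∧ j < s.n ∧ G.Adj (f i) (f j)
  zero : ∀ i j, j < 32 → s.zero.testBit (32 * i + j) = true →
    i < s.n ∧ j < s.n ∧ ¬ G.Adj (f i) (f j)

private theorem tb_one (k l : ℕ) : (1 <<< k).testBit l = true ↔ k = l := by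
  rw [Nat.one_shiftLeft, Nat.testBit_two_pow, decide_eq_true_iff]

private theorem tb_add (m i j i' j' a b : ℕ) (hj : j < 32) (hj' : j' < 32) (hb : b < 32)
    (h : (m ||| (1 <<< (32 * i + j)) ||| (1 <<< (32 * i' + j'))).testBit (32 * a + b) = true) :
    m.testBit (32 * a + b) = true ∨ (i = a ∧ j = b) ∨ (i' = a ∧ j' = b) := by
  rw [Nat.testBit_or, Nat.testBit_or, Bool.or_eq_true, Bool.or_eq_true, tb_one, tb_one] at h
  rcases h with (h | h) | h
  · exact Or.inl h
  · refine Or.inr (Or.inl ?_)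
    omega
  · refine Or.inr (Or.inr ?_)
    omega

private theorem Sat.setOne {K : ℕ} {s : St} {f : ℕ → V} (h : Sat G X E K p rep s f) {i j : ℕ}
    (hi : i < s.n) (hj : j < s.n) (ha : G.Adj (f i) (f j)) :
    Sat G X E K p rep (s.setOne i j) f where
  Kn := h.Kn
  n32 := h.n32
  lcl := h.lcl
  llv := h.llv
  root := h.root
  mem := h.mem
  cls := h.cls
  one a b hb hab := by
    have hn := h.n32
    rcases tb_add _ i j j i a b (by omega) (by omega) hb hab with h1 | ⟨rfl, rfl⟩ | ⟨rfl, rfl⟩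
    · exact h.one a b hb h1
    · exact ⟨hi, hj, ha⟩
    · exact ⟨hj, hi, ha.symm⟩
  zero := h.zero

private theorem Sat.setZero {K : ℕ} {s : St} {f : ℕ → V} (h : Sat G X E K p rep s f) {i j : ℕ}
    (hi : i < s.n) (hj : j < s.n) (ha : ¬ G.Adj (f i) (f j)) :
    Sat G X E K p rep (s.setZero i j) f where
  Kn := h.Kn
  n32 := h.n32
  lcl := h.lcl
  llv := h.llv
  root := h.root
  mem := h.mem
  cls := h.cls
  one := h.one
  zero a b hb hab := by
    have hn := h.n32
    rcases tb_add _ i j j i a b (by omega) (by omega) hb hab with h1 | ⟨rfl, rfl⟩ | ⟨rfl, rfl⟩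
    · exact h.zero a b hb h1
    · exact ⟨hi, hj, ha⟩
    · exact ⟨hj, hi, fun h2 => ha h2.symm⟩

private theorem Sat.addF {K : ℕ} {f : ℕ → V} (l : List (ℕ × ℕ × Bool)) : ∀ {s : St},
    Sat G X E K p rep s f →
    (∀ e ∈ l, e.1 < s.n ∧ e.2.1 < s.n ∧ (G.Adj (f e.1) (f e.2.1) ↔ e.2.2 = true)) →
    Sat G X E K p rep (St.addF s l) f := by
  induction l with
  | nil => exact fun h _ => h
  | cons e l ih =>
    obtain ⟨i, j, b⟩ := e
    intro s h hl
    obtain ⟨h1, h2, h3⟩ := hl (i, j, b) List.mem_cons_self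
    simp only at h1 h2 h3
    cases b with
    | true =>
      change Sat G X E K p rep (St.addF (s.setOne i j) l) f
      exact ih (h.setOne h1 h2 (h3.2 rfl)) fun e he => hl e (List.mem_cons_of_mem _ he)
    | false =>
      change Sat G X E K p rep (St.addF (s.setZero i j) l) f
      refine ih (h.setZero h1 h2 fun h4 => ?_) fun e he => hl e (List.mem_cons_of_mem _ he)
      exact Bool.false_ne_true (h3.1 h4)

/-- membership in `M` -/
private theorem Sat.memM (hc : Ctx G M X E sp p rep) {s : St} {f : ℕ → V}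
    (h : Sat G X E sp.K p rep s f) {i : ℕ} (hi : i < s.n) : f i ∈ M := by
  by_cases hK : i < sp.K
  · rw [h.root i hK]
    exact hc.pM i hK
  · exact hc.sub (h.mem i (by omega) hi)

private theorem row_bit {m i k : ℕ} (h : (St.row m i).testBit k = true) :
    k < 32 ∧ m.testBit (32 * i + k) = true := by
  unfold St.row at h
  have e : (4294967295 : ℕ) = 2 ^ 32 - 1 := by norm_num
  rw [e, Nat.testBit_and, Nat.testBit_shiftRight, Nat.testBit_two_pow_sub_one, Bool.and_eq_true,
    decide_eq_true_iff] at h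
  exact ⟨h.2, h.1⟩

private theorem Sat.isT {K : ℕ} {s : St} {i : ℕ} (hK : sp.K = K)
    (h : St.isT sp s i = true) : ∀ k < K, s.zero.testBit (32 * i + k) = true := by
  intro k hk
  unfold St.isT at h
  rw [Nat.beq_eq, hK] at h
  have h1 : (s.zero >>> (32 * i) &&& 2 ^ K - 1).testBit k = (2 ^ K - 1).testBit k := by rw [h]
  rw [Nat.testBit_and, Nat.testBit_shiftRight, Nat.testBit_two_pow_sub_one, decide_eq_true hk,
    Bool.and_true] at h1
  exact h1

private theorem Sat.isOne {K : ℕ} {s : St} {f : ℕ → V} (h : Sat G X E K p rep s f) {i j : ℕ}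
    (hj : j < 32) (h1 : s.isOne i j = true) : i < s.n ∧ j < s.n ∧ G.Adj (f i) (f j) :=
  h.one i j hj h1

/-- the three cases of `isZero` -/
private theorem isZero_cases {s : St} {i j : ℕ} (h : St.isZero sp s i j = true) :
    s.zero.testBit (32 * i + j) = true ∨
      (∃ k < 32, s.one.testBit (32 * i + k) = true ∧ s.one.testBit (32 * j + k) = true) ∨
      (sp.tt = true ∧ sp.K ≤ i ∧ sp.K ≤ j ∧ St.isT sp s i = true ∧ St.isT sp s j = true) := by
  unfold St.isZero at h
  rw [Bool.or_eq_true, Bool.or_eq_true] at h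
  rcases h with (h | h) | h
  · exact Or.inl h
  · right
    left
    rw [Bool.not_eq_true', ← Bool.not_eq_true, Nat.beq_eq] at h
    obtain ⟨k, hk⟩ := Nat.exists_testBit_of_ne_zero h
    rw [Nat.testBit_and, Bool.and_eq_true] at hk
    obtain ⟨h1, h2⟩ := row_bit hk.1
    exact ⟨k, h1, h2, (row_bit hk.2).2⟩
  · right
    right
    simp only [Bool.and_eq_true, Nat.ble_eq] at h
    obtain ⟨⟨⟨⟨a1, a2⟩, a3⟩, a4⟩, a5⟩ := h
    exact ⟨a1, a2, a3, a4, a5⟩

private theorem Sat.isZero (hc : Ctx G M X E sp p rep) {s : St} {f : ℕ → V}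
    (h : Sat G X E sp.K p rep s f) {i j : ℕ} (hi : i < s.n) (hj : j < s.n)
    (h1 : St.isZero sp s i j = true) : ¬ G.Adj (f i) (f j) := by
  have hn := h.n32
  rcases isZero_cases h1 with h2 | ⟨k, hk, h2, h3⟩ | ⟨h2, h3, h4, h5, h6⟩
  · exact (h.zero i j (by omega) h2).2.2
  · obtain ⟨b1, b2, b3⟩ := h.one i k hk h2
    obtain ⟨-, -, b4⟩ := h.one j k hk h3
    intro hadj
    exact hc.tri (f i) (h.memM hc hi) (f j) (h.memM hc hj) (f k) (h.memM hc b2) hadj b4 b3
  · have hKn := h.Kn
    refine hc.tt h2 (f i) (h.mem i h3 hi) (f j) (h.mem j h4 hj) ?_ ?_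
    · intro k hk
      rw [← h.root k hk]
      exact (h.zero i k (by omega) (Sat.isT rfl h5 k hk)).2.2
    · intro k hk
      rw [← h.root k hk]
      exact (h.zero j k (by omega) (Sat.isT rfl h6 k hk)).2.2

private theorem Sat.isZero_lt {s : St} {f : ℕ → V}
    (h : Sat G X E sp.K p rep s f) (hK : ¬ (sp.K = 0 ∧ sp.tt = true)) {i j : ℕ} (hj : j < 32)
    (h1 : St.isZero sp s i j = true) : i < s.n := by
  have hn := h.n32
  have hKn := h.Kn
  rcases isZero_cases h1 with h2 | ⟨k, hk, h2, h3⟩ | ⟨h2, h3, h4, h5, h6⟩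
  · exact (h.zero i j hj h2).1
  · exact (h.one i k hk h2).1
  · have hpos : 0 < sp.K := by
      rcases Nat.eq_zero_or_pos sp.K with h7 | h7
      · exact absurd ⟨h7, h2⟩ hK
      · exact h7
    exact (h.zero i 0 (by omega) (Sat.isT rfl h5 0 hpos)).1

/-- if the root is empty and `tt` holds there are no adjacent vertices -/
private theorem Sat.noOne (hc : Ctx G M X E sp p rep) {s : St} {f : ℕ → V}
    (h : Sat G X E sp.K p rep s f) (hK : sp.K = 0 ∧ sp.tt = true) {i j : ℕ}
    (h1 : s.isOne i j = true) : False := by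
  obtain ⟨hK0, htt⟩ := hK
  have e : 32 * i + j = 32 * (i + j / 32) + j % 32 := by omega
  unfold St.isOne at h1
  rw [e] at h1
  obtain ⟨b1, b2, b3⟩ := h.one _ _ (Nat.mod_lt _ (by norm_num)) h1
  refine hc.tt htt _ (h.mem _ (by omega) b1) _ (h.mem _ (by omega) b2) ?_ ?_ b3
  · intro k hk
    omega
  · intro k hk
    omega

private theorem Sat.addV (hc : Ctx G M X E sp p rep) {s : St} {f : ℕ → V}
    (h : Sat G X E sp.K p rep s f) (hn : s.n + 1 ≤ 32) {c l w : ℕ} {b : Bool} (hw : w < s.n)
    {x : V} (hx : x ∈ X) (hE : E l x (rep c)) (hb : G.Adj (f w) x ↔ b = true) :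
    Sat G X E sp.K p rep (St.addV sp s c l w b) (Function.update f s.n x) := by
  have hKn := h.Kn
  have hfn : Function.update f s.n x s.n = x := Function.update_self _ _ _
  have hfi : ∀ i, i < s.n → Function.update f s.n x i = f i := fun i hi =>
    Function.update_of_ne (by omega) _ _
  unfold St.addV
  apply Sat.addF
  · refine ⟨?_, hn, ?_, ?_, ?_, ?_, ?_, ?_, ?_⟩
    · change sp.K ≤ s.n + 1
      omega
    · change (s.cl ++ [c]).length = s.n + 1
      rw [List.length_append, h.lcl, List.length_singleton]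
    · change (s.lv ++ [l]).length = s.n + 1
      rw [List.length_append, h.llv, List.length_singleton]
    · intro i hi
      rw [hfi i (by omega)]
      exact h.root i hi
    · intro i hi hi'
      change i < s.n + 1 at hi'
      by_cases hin : i = s.n
      · rw [hin, hfn]
        exact hx
      · rw [hfi i (by omega)]
        exact h.mem i hi (by omega)
    · intro i hi hi'
      change i < s.n + 1 at hi'
      change E ((s.lv ++ [l]).getD i 0) _ (rep ((s.cl ++ [c]).getD i 0))
      by_cases hin : i = s.n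
      · rw [hin, hfn, List.getD_append_right _ _ _ _ (by rw [h.llv]),
          List.getD_append_right _ _ _ _ (by rw [h.lcl]), h.llv, h.lcl, Nat.sub_self]
        exact hE
      · rw [hfi i (by omega), List.getD_append _ _ _ _ (by rw [h.llv]; omega),
          List.getD_append _ _ _ _ (by rw [h.lcl]; omega)]
        exact h.cls i hi (by omega)
    · intro i j hj hij
      obtain ⟨h1, h2, h3⟩ := h.one i j hj hij
      change i < s.n + 1 ∧ j < s.n + 1 ∧ _
      rw [hfi i h1, hfi j h2]
      exact ⟨by omega, by omega, h3⟩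
    · intro i j hj hij
      obtain ⟨h1, h2, h3⟩ := h.zero i j hj hij
      change i < s.n + 1 ∧ j < s.n + 1 ∧ _
      rw [hfi i h1, hfi j h2]
      exact ⟨by omega, by omega, h3⟩
  · intro e he
    rw [List.mem_cons] at he
    rcases he with rfl | he
    · change w < s.n + 1 ∧ s.n < s.n + 1 ∧ _
      refine ⟨by omega, by omega, ?_⟩
      simp only
      rw [hfi w hw, hfn]
      exact hb
    · unfold St.tyF at he
      cases hτ : sp.cty.getD c none with
      | none =>
        rw [hτ] at he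
        cases he
      | some τ =>
        rw [hτ] at he
        simp only [List.mem_map, List.mem_range] at he
        obtain ⟨i, hi, rfl⟩ := he
        change s.n < s.n + 1 ∧ i < s.n + 1 ∧ _
        refine ⟨by omega, by omega, ?_⟩
        simp only
        rw [hfi i (by omega), hfn, h.root i hi]
        have h1 : sp.cty[c]? = some (some τ) := by
          rw [List.getD_eq_getElem?_getD] at hτ
          cases h2 : sp.cty[c]? with
          | none =>
            rw [h2] at hτ
            cases hτ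
          | some o =>
            rw [h2] at hτ
            exact congrArg some hτ
        rw [hc.h0 x (rep c) (hc.sys.le (Nat.zero_le l) hE) i hi]
        exact hc.cty c τ h1 i hi

private theorem check_sound (hc : Ctx G M X E sp p rep) (t : Tree) : ∀ (s : St) (f : ℕ → V),
    Sat G X E sp.K p rep s f → check sp t s = true → False := by
  induction t with
  | cf a b =>
    intro s f h hch
    simp only [check, Bool.and_eq_true] at hch
    obtain ⟨h1, h2⟩ := hch
    have hn := h.n32
    have hKn := h.Kn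
    by_cases hK : sp.K = 0 ∧ sp.tt = true
    · exact h.noOne hc hK h1
    by_cases hb : b < 32
    · obtain ⟨c1, c2, c3⟩ := h.isOne hb h1
      exact h.isZero hc c1 c2 h2 c3
    · have e : 32 * a + b = 32 * (a + b / 32) + b % 32 := by omega
      have hm : b % 32 < 32 := Nat.mod_lt _ (by norm_num)
      rcases isZero_cases h2 with h3 | ⟨k, hk, h3, h4⟩ | ⟨h3, -, -, h5, h6⟩
      · unfold St.isOne at h1
        rw [e] at h1 h3
        exact (h.zero _ _ hm h3).2.2 (h.one _ _ hm h1).2.2
      · have := (h.one b k hk h4).1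
        omega
      · have hpos : 0 < sp.K := by
          rcases Nat.eq_zero_or_pos sp.K with h7 | h7
          · exact absurd ⟨h7, h3⟩ hK
          · exact h7
        have := (h.zero b 0 (by omega) (Sat.isT rfl h6 0 hpos)).1
        omega
  | ps c a b₁ b₂ d₁ d₂ d₃ =>
    intro s f h hch
    simp only [check, Bool.and_eq_true, Nat.ble_eq] at hch
    obtain ⟨⟨⟨⟨⟨⟨⟨hp, hd⟩, ⟨⟨⟨⟨⟨a1, a2⟩, a3⟩, a4⟩, a5⟩, a6⟩⟩, ⟨⟨z1, z2⟩, z3⟩⟩,
      ⟨⟨⟨⟨y1, y2⟩, y3⟩, y4⟩, y5⟩⟩, ⟨⟨x1, x2⟩, x3⟩⟩, ⟨⟨w1, w2⟩, w3⟩⟩, v1⟩ := hch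
    by_cases hK : sp.K = 0 ∧ sp.tt = true
    · exact h.noOne hc hK a1
    have hn := h.n32
    obtain ⟨n6, n7, e6⟩ := h.isOne (show d₃ < 32 by omega) a6
    obtain ⟨n5, -, e5⟩ := h.isOne (show d₂ < 32 by omega) a5
    obtain ⟨n1, -, e4⟩ := h.isOne (show d₁ < 32 by omega) a4
    have n2 := h.isZero_lt hK (show d₂ < 32 by omega) y4
    have n3 := h.isZero_lt hK (show d₂ < 32 by omega) x2
    have n4 := h.isZero_lt hK (show d₂ < 32 by omega) w2
    obtain ⟨-, -, e1⟩ := h.isOne (show a < 32 by omega) a1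
    obtain ⟨-, -, e2⟩ := h.isOne (show b₁ < 32 by omega) a2
    obtain ⟨-, -, e3⟩ := h.isOne (show b₂ < 32 by omega) a3
    refine hc.freeS hp (f c) (h.memM hc n1) (f a) (h.memM hc n2) (f b₁) (h.memM hc n3) (f b₂)
      (h.memM hc n4) (f d₁) (h.memM hc n5) (f d₂) (h.memM hc n6) (f d₃) (h.memM hc n7) ?_
    exact ⟨⟨e1, e2, e3, e4, e5, e6⟩,
      ⟨h.isZero hc n1 n4 z1, h.isZero hc n1 n6 z2, h.isZero hc n1 n7 z3⟩,
      ⟨h.isZero hc n2 n3 y1, h.isZero hc n2 n4 y2, h.isZero hc n2 n5 y3, h.isZero hc n2 n6 y4,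
        h.isZero hc n2 n7 y5⟩,
      ⟨h.isZero hc n3 n5 x1, h.isZero hc n3 n6 x2, h.isZero hc n3 n7 x3⟩,
      ⟨h.isZero hc n4 n5 w1, h.isZero hc n4 n6 w2, h.isZero hc n4 n7 w3⟩,
      h.isZero hc n5 n7 v1⟩
  | pp c a b d₁ d₂ d₃ z w =>
    intro s f h hch
    simp only [check, Bool.and_eq_true, Bool.or_eq_true, Nat.ble_eq] at hch
    obtain ⟨⟨⟨⟨⟨⟨⟨⟨⟨⟨hp, hz⟩, hd⟩, hw⟩, ⟨⟨⟨⟨a1, a2⟩, a3⟩, a4⟩, a5⟩⟩, ⟨z1, z2⟩⟩,
      ⟨⟨⟨y1, y2⟩, y3⟩, y4⟩⟩, ⟨⟨x1, x2⟩, x3⟩⟩, v1⟩,
      ⟨⟨⟨⟨⟨u1, u2⟩, u3⟩, u4⟩, u5⟩, u6⟩⟩, hdist⟩ := hch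
    by_cases hK : sp.K = 0 ∧ sp.tt = true
    · exact h.noOne hc hK a1
    have hn := h.n32
    obtain ⟨n5, n6, e5⟩ := h.isOne (show d₃ < 32 by omega) a5
    obtain ⟨n4, -, e4⟩ := h.isOne (show d₂ < 32 by omega) a4
    obtain ⟨n1, -, e3⟩ := h.isOne (show d₁ < 32 by omega) a3
    have n2 := h.isZero_lt hK (show d₂ < 32 by omega) y3
    have n3 := h.isZero_lt hK (show d₂ < 32 by omega) x2
    have nz : z < s.n := by omega
    obtain ⟨-, -, e1⟩ := h.isOne (show a < 32 by omega) a1
    obtain ⟨-, -, e2⟩ := h.isOne (show b < 32 by omega) a2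
    have hp' : sp.pat = false := by simpa using hp
    refine hc.freeP hp' (f c) (h.memM hc n1) (f a) (h.memM hc n2) (f b) (h.memM hc n3) (f d₁)
      (h.memM hc n4) (f d₂) (h.memM hc n5) (f d₃) (h.memM hc n6) (f z) (h.memM hc nz) ?_ ?_
    · intro hab
      rcases hdist with (⟨h1, h2⟩ | ⟨h1, h2⟩) | ⟨h1, h2⟩
      · have hne : a ≠ b := by
          intro h3
          rw [h3] at h1
          simp at h1
        rcases h2 with h2 | h2
        · have ha : a < sp.K := by omega
          by_cases hb : b < sp.K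
          · rw [h.root a ha, h.root b hb] at hab
            exact hne (hc.pinj a ha b hb hab)
          · have h3 := h.mem b (by omega) n3
            rw [← hab, h.root a ha] at h3
            exact hc.pX a ha h3
        · have hb : b < sp.K := by omega
          by_cases ha : a < sp.K
          · rw [h.root a ha, h.root b hb] at hab
            exact hne (hc.pinj a ha b hb hab)
          · have h3 := h.mem a (by omega) n2
            rw [hab, h.root b hb] at h3
            exact hc.pX b hb h3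
      · obtain ⟨-, m1, m2⟩ := h.isOne (show w < 32 by omega) h1
        have m3 := h.isZero hc n3 m1 h2
        rw [← hab] at m3
        exact m3 m2
      · obtain ⟨-, m1, m2⟩ := h.isOne (show w < 32 by omega) h2
        have m3 := h.isZero hc n2 m1 h1
        rw [hab] at m3
        exact m3 m2
    · exact ⟨⟨e1, e2, e3, e4, e5⟩,
        ⟨h.isZero hc n1 n5 z1, h.isZero hc n1 n6 z2⟩,
        ⟨h.isZero hc n2 n3 y1, h.isZero hc n2 n4 y2, h.isZero hc n2 n5 y3, h.isZero hc n2 n6 y4⟩,
        ⟨h.isZero hc n3 n4 x1, h.isZero hc n3 n5 x2, h.isZero hc n3 n6 x3⟩,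
        h.isZero hc n4 n6 v1,
        ⟨h.isZero hc nz n1 u1, h.isZero hc nz n2 u2, h.isZero hc nz n3 u3, h.isZero hc nz n4 u4,
          h.isZero hc nz n5 u5, h.isZero hc nz n6 u6⟩⟩
  | bt a =>
    intro s f h hch
    simp only [check, Bool.and_eq_true, Nat.ble_eq, List.all_eq_true, List.any_eq_true,
      List.mem_range, Bool.not_eq_true', List.isEmpty_eq_false_iff] at hch
    obtain ⟨⟨⟨h1, h2⟩, h3⟩, h4⟩ := hch
    have hn := h.n32
    have hKn := h.Kn
    obtain ⟨τ, hτ, h5⟩ := hc.aty h3 (f a) (h.mem a h1 (by omega))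
    obtain ⟨i, hi, h6⟩ := h4 τ hτ
    have h7 := h5 i hi
    rw [← h.root i hi] at h7
    by_cases hb : τ.testBit i = true
    · rw [if_pos hb] at h6
      exact h.isZero hc (by omega) (by omega) h6 (h7.2 hb)
    · rw [if_neg hb] at h6
      exact hb (h7.1 (h.isOne (by omega) h6).2.2)
  | sp a b t₁ t₀ ih₁ ih₀ =>
    intro s f h hch
    simp only [check, Bool.and_eq_true, Nat.ble_eq] at hch
    obtain ⟨⟨⟨h1, h2⟩, h3⟩, h4⟩ := hch
    by_cases hab : G.Adj (f a) (f b)
    · exact ih₁ _ f (h.setOne (by omega) (by omega) hab) h3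
    · exact ih₀ _ f (h.setZero (by omega) (by omega) hab) h4
  | bf v u w t ih =>
    intro s f h hch
    simp only [check, Bool.and_eq_true, Bool.or_eq_true, Nat.ble_eq, Nat.beq_eq] at hch
    obtain ⟨⟨⟨⟨⟨⟨⟨⟨⟨⟨⟨v1, v2⟩, u1⟩, u2⟩, w1⟩, w2⟩, hn1⟩, hcl⟩, lv1⟩, lw1⟩, hvu⟩, hch⟩ := hch
    have hv := h.cls v v1 (by omega)
    have hw := h.cls w w1 (by omega)
    have hu := h.cls u u1 (by omega)
    rw [← hcl] at hw
    obtain ⟨k, hk⟩ : ∃ k, min (s.lv.getD v 0) (s.lv.getD w 0) = k + 1 :=
      ⟨min (s.lv.getD v 0) (s.lv.getD w 0) - 1, by omega⟩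
    have hvw : E (k + 1) (f v) (f w) := by
      have e1 : E (k + 1) (f v) (rep (s.cl.getD v 0)) := hc.sys.le (by omega) hv
      have e2 : E (k + 1) (f w) (rep (s.cl.getD v 0)) := hc.sys.le (by omega) hw
      exact hc.sys.trans _ _ _ _ e1 (hc.sys.symm _ _ _ e2)
    obtain ⟨x, hx, hxu, hadj⟩ := hc.sys.bf k (f v) (f w) (f u) hvw (h.mem u u1 (by omega))
    refine ih _ _ (h.addV hc hn1 (by omega) hx ?_ ?_) hch
    · have e1 : E (min (min (s.lv.getD v 0) (s.lv.getD w 0) - 1) (s.lv.getD u 0)) x (f u) :=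
        hc.sys.le (by omega) hxu
      have e2 : E (min (min (s.lv.getD v 0) (s.lv.getD w 0) - 1) (s.lv.getD u 0)) (f u)
          (rep (s.cl.getD u 0)) := hc.sys.le (by omega) hu
      exact hc.sys.trans _ _ _ _ e1 e2
    · rw [hadj]
      have hn := h.n32
      constructor
      · intro h3
        rcases hvu with h4 | h4
        · exact h4
        · exact absurd h3 (h.isZero hc (by omega) (by omega) h4)
      · intro h3
        exact (h.isOne (by omega) h3).2.2
  | mx v j b t ih =>
    intro s f h hch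
    simp only [check, Bool.and_eq_true, Nat.ble_eq, List.contains_iff_mem] at hch
    obtain ⟨⟨⟨⟨⟨⟨v1, v2⟩, hn1⟩, l1⟩, l2⟩, hmix⟩, hch⟩ := hch
    obtain ⟨x, hx, y, hy, hxc, hyj, hxy⟩ := hc.mix _ _ hmix (b = true)
    have hv := h.cls v v1 (by omega)
    obtain ⟨k, hk⟩ : ∃ k, s.lv.getD v 0 = k + 1 := ⟨s.lv.getD v 0 - 1, by omega⟩
    have hxv : E (k + 1) x (f v) := by
      have e1 : E (k + 1) x (rep (s.cl.getD v 0)) := hc.sys.le (by omega) hxc
      rw [hk] at hv
      exact hc.sys.trans _ _ _ _ e1 (hc.sys.symm _ _ _ hv)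
    obtain ⟨y', hy', hyy, hadj⟩ := hc.sys.bf k x (f v) y hxv hy
    refine ih _ _ (h.addV hc hn1 (by omega) hy' ?_ ?_) hch
    · have e1 : E (s.lv.getD v 0 - 1) y' y := hc.sys.le (by omega) hyy
      have e2 : E (s.lv.getD v 0 - 1) y (rep j) := hc.sys.le (by omega) hyj
      exact hc.sys.trans _ _ _ _ e1 e2
    · rw [hadj]
      exact hxy

theorem cert_sound (hc : Ctx G M X E sp p rep) (m : ℕ) (hm : m ≤ sp.cty.length)
    (hK : sp.K + m ≤ 32) (adj : List (ℕ × ℕ × Bool))
    (hadj : ∀ e ∈ adj, e.1 < m ∧ e.2.1 < m ∧ (G.Adj (rep e.1) (rep e.2.1) ↔ e.2.2 = true))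
    (t : Tree) (h : check sp t (St.init sp m adj) = true) : False := by
  obtain ⟨f, hfi, hfj⟩ : ∃ f : ℕ → V, (∀ i, i < sp.K → f i = p i) ∧ ∀ i, f (sp.K + i) = rep i := by
    refine ⟨fun i => if i < sp.K then p i else rep (i - sp.K), fun i hi => if_pos hi, fun i => ?_⟩
    have h1 : ¬ (sp.K + i < sp.K) := by omega
    simp only [h1, if_false, Nat.add_sub_cancel_left]
  refine check_sound hc t _ f ?_ h
  unfold St.init
  apply Sat.addF
  · refine ⟨?_, hK, ?_, ?_, hfi, ?_, ?_, ?_, ?_⟩
    · exact Nat.le_add_right _ _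
    · change (List.replicate sp.K 0 ++ List.range m).length = sp.K + m
      rw [List.length_append, List.length_replicate, List.length_range]
    · change (List.replicate (sp.K + m) sp.N).length = sp.K + m
      rw [List.length_replicate]
    · intro i h1 h2
      change i < sp.K + m at h2
      obtain ⟨j, rfl⟩ := Nat.exists_eq_add_of_le h1
      rw [hfj]
      exact hc.repX j (by omega)
    · intro i h1 h2
      change i < sp.K + m at h2
      obtain ⟨j, rfl⟩ := Nat.exists_eq_add_of_le h1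
      rw [hfj]
      change E _ (rep j) (rep ((List.replicate sp.K 0 ++ List.range m).getD (sp.K + j) 0))
      have e1 : (List.replicate sp.K 0 ++ List.range m).getD (sp.K + j) 0 = j := by
        rw [List.getD_append_right _ _ _ _ (by rw [List.length_replicate]; omega),
          List.length_replicate, Nat.add_sub_cancel_left,
          List.getD_eq_getElem _ _ (by rw [List.length_range]; omega), List.getElem_range]
      rw [e1]
      exact hc.sys.refl _ _
    · intro i j _ h2
      change (0 : ℕ).testBit _ = true at h2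
      rw [Nat.zero_testBit] at h2
      exact absurd h2 Bool.false_ne_true
    · intro i j _ h2
      change (0 : ℕ).testBit _ = true at h2
      rw [Nat.zero_testBit] at h2
      exact absurd h2 Bool.false_ne_true
  · intro e he
    rw [List.mem_append, List.mem_append] at he
    rcases he with (he | he) | he
    · rw [List.mem_flatMap] at he
      obtain ⟨i, hi, he⟩ := he
      rw [List.mem_map] at he
      obtain ⟨j, hj, rfl⟩ := he
      rw [List.mem_range] at hi hj
      refine ⟨?_, ?_, ?_⟩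
      · change i < sp.K + m
        omega
      · change j < sp.K + m
        omega
      · simp only [hfi i hi, hfi j (by omega), Bool.or_eq_true, List.contains_iff_mem]
        exact hc.root i hi j (by omega)
    · rw [List.mem_flatMap] at he
      obtain ⟨c, hcm, he⟩ := he
      rw [List.mem_range] at hcm
      unfold St.tyF at he
      cases hτ : sp.cty.getD c none with
      | none =>
        rw [hτ] at he
        cases he
      | some τ =>
        rw [hτ] at he
        simp only [List.mem_map, List.mem_range] at he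
        obtain ⟨i, hi, rfl⟩ := he
        refine ⟨?_, ?_, ?_⟩
        · change sp.K + c < sp.K + m
          omega
        · change i < sp.K + m
          omega
        · have h1 : sp.cty[c]? = some (some τ) := by
            rw [List.getD_eq_getElem?_getD] at hτ
            cases h2 : sp.cty[c]? with
            | none =>
              rw [h2] at hτ
              cases hτ
            | some o =>
              rw [h2] at hτ
              exact congrArg some hτ
          have h3 := hc.cty c τ h1 i hi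
          rw [← hfi i hi, ← hfj c] at h3
          exact h3
    · rw [List.mem_map] at he
      obtain ⟨e', he', rfl⟩ := he
      obtain ⟨h1, h2, h3⟩ := hadj e' he'
      refine ⟨?_, ?_, ?_⟩
      · change sp.K + e'.1 < sp.K + m
        omega
      · change sp.K + e'.2.1 < sp.K + m
        omega
      · rw [← hfj e'.1, ← hfj e'.2.1] at h3
        exact h3

end Pool.Agent.H68.CW
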