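import Pool.Agent.H68.CW.Lvl

/-!
CERT (definitions). A checker for finite case distinctions about vertices over a root.

A state has `n` vertices, the first `K` of them are the root vertices; the bit `32 * i + j` of `one` says that `i`, `j` are known to be adjacent, of `zero`
that they are known to be not adjacent. Every vertex which is not in the root belongs to a class (`cl`), up to a level (`lv`).
-/

set_option autoImplicit false

namespace Pool.Agent.H68.CW

structure Spec where
  /-- number of root vertices -/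
  K : ℕ
  /-- edges of the root -/
  root : List (ℕ × ℕ)
  /-- `true`: `S_{1,2,3}` is excluded, `false`: `P_1 + S_{1,1,3}` -/
  pat : Bool
  /-- two vertices without neighbours in the root are not adjacent -/
  tt : Bool
  /-- types (sets of neighbours in the root, as bit masks) of the classes -/
  cty : List (Option ℕ)
  /-- possible types of a vertex (no information if empty) -/
  aty : List ℕ
  /-- mixed pairs of classes -/
  mix : List (ℕ × ℕ)
  /-- top level -/
  N : ℕ

structure St where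
  n : ℕ
  one : ℕ
  zero : ℕ
  cl : List ℕ
  lv : List ℕ

namespace St

def setOne (s : St) (i j : ℕ) : St :=
  { s with one := s.one ||| (1 <<< (32 * i + j)) ||| (1 <<< (32 * j + i)) }

def setZero (s : St) (i j : ℕ) : St :=
  { s with zero := s.zero ||| (1 <<< (32 * i + j)) ||| (1 <<< (32 * j + i)) }

def addF (s : St) : List (ℕ × ℕ × Bool) → St
  | [] => s
  | (i, j, b) :: l => addF (if b then s.setOne i j else s.setZero i j) l

def isOne (s : St) (i j : ℕ) : Bool := s.one.testBit (32 * i + j)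

def row (m i : ℕ) : ℕ := (m >>> (32 * i)) &&& 4294967295

def isT (sp : Spec) (s : St) (i : ℕ) : Bool :=
  Nat.beq ((s.zero >>> (32 * i)) &&& (2 ^ sp.K - 1)) (2 ^ sp.K - 1)

/-- known to be not adjacent: directly, by a common neighbour, or both without neighbours in the root -/
def isZero (sp : Spec) (s : St) (i j : ℕ) : Bool :=
  s.zero.testBit (32 * i + j) || !(Nat.beq (row s.one i &&& row s.one j) 0) ||
    (sp.tt && Nat.ble sp.K i && Nat.ble sp.K j && s.isT sp i && s.isT sp j)

/-- the facts on the adjacency of a vertex `v` of class `c` to the root -/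
def tyF (sp : Spec) (v c : ℕ) : List (ℕ × ℕ × Bool) :=
  match sp.cty.getD c none with
  | none => []
  | some τ => (List.range sp.K).map (fun i => (v, i, τ.testBit i))

/-- a new vertex of class `c`, level `l`, whose adjacency to `w` is `b` -/
def addV (sp : Spec) (s : St) (c l w : ℕ) (b : Bool) : St :=
  addF { n := s.n + 1, one := s.one, zero := s.zero, cl := s.cl ++ [c], lv := s.lv ++ [l] }
    ((w, s.n, b) :: tyF sp s.n c)

/-- the initial state with `m` vertices, of the classes `0, ..., m - 1` -/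
def init (sp : Spec) (m : ℕ) (adj : List (ℕ × ℕ × Bool)) : St :=
  addF { n := sp.K + m, one := 0, zero := 0, cl := List.replicate sp.K 0 ++ List.range m,
         lv := List.replicate (sp.K + m) sp.N }
    ((List.range sp.K).flatMap (fun i => (List.range i).map (fun j =>
        (i, j, (sp.root.contains (i, j) || sp.root.contains (j, i))))) ++
      (List.range m).flatMap (fun c => tyF sp (sp.K + c) c) ++
      adj.map (fun e => (sp.K + e.1, sp.K + e.2.1, e.2.2)))

end St

inductive Tree
  /-- contradiction: `a`, `b` are adjacent and not adjacent -/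
  | cf (a b : ℕ)
  /-- an induced `S_{1,2,3}` -/
  | ps (c a b₁ b₂ d₁ d₂ d₃ : ℕ)
  /-- an induced `P_1 + S_{1,1,3}`; `w` distinguishes `a` and `b` -/
  | pp (c a b d₁ d₂ d₃ z w : ℕ)
  /-- no type is possible for `a` -/
  | bt (a : ℕ)
  /-- case distinction: `a`, `b` adjacent or not -/
  | sp (a b : ℕ) (t₁ t₀ : Tree)
  /-- `w` is in the class of `v`: there is a vertex in the class of `u` which is related to `w` as `u` to `v` -/
  | bf (v u w : ℕ) (t : Tree)
  /-- the class of `v` and the class `j` are mixed -/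
  | mx (v j : ℕ) (b : Bool) (t : Tree)

open St in
def check (sp : Spec) : Tree → St → Bool
  | .cf a b, s => s.isOne a b && s.isZero sp a b
  | .ps c a b₁ b₂ d₁ d₂ d₃, s =>
      sp.pat && Nat.ble (d₃ + 1) 32 &&
      (s.isOne c a && s.isOne c b₁ && s.isOne b₁ b₂ && s.isOne c d₁ && s.isOne d₁ d₂ &&
        s.isOne d₂ d₃) &&
      (s.isZero sp c b₂ && s.isZero sp c d₂ && s.isZero sp c d₃) &&
      (s.isZero sp a b₁ && s.isZero sp a b₂ && s.isZero sp a d₁ && s.isZero sp a d₂ &&
        s.isZero sp a d₃) &&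
      (s.isZero sp b₁ d₁ && s.isZero sp b₁ d₂ && s.isZero sp b₁ d₃) &&
      (s.isZero sp b₂ d₁ && s.isZero sp b₂ d₂ && s.isZero sp b₂ d₃) && s.isZero sp d₁ d₃
  | .pp c a b d₁ d₂ d₃ z w, s =>
      !sp.pat && Nat.ble (z + 1) s.n && Nat.ble (d₃ + 1) 32 && Nat.ble (w + 1) 32 &&
      (s.isOne c a && s.isOne c b && s.isOne c d₁ && s.isOne d₁ d₂ && s.isOne d₂ d₃) &&
      (s.isZero sp c d₂ && s.isZero sp c d₃) &&
      (s.isZero sp a b && s.isZero sp a d₁ && s.isZero sp a d₂ && s.isZero sp a d₃) &&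
      (s.isZero sp b d₁ && s.isZero sp b d₂ && s.isZero sp b d₃) && s.isZero sp d₁ d₃ &&
      (s.isZero sp z c && s.isZero sp z a && s.isZero sp z b && s.isZero sp z d₁ &&
        s.isZero sp z d₂ && s.isZero sp z d₃) &&
      ((!(Nat.beq a b) && (Nat.ble (a + 1) sp.K || Nat.ble (b + 1) sp.K)) ||
        (s.isOne a w && s.isZero sp b w) || (s.isZero sp a w && s.isOne b w))
  | .bt a, s =>
      Nat.ble sp.K a && Nat.ble (a + 1) s.n && !sp.aty.isEmpty &&
      sp.aty.all (fun τ => (List.range sp.K).any (fun i =>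
        if τ.testBit i then s.isZero sp a i else s.isOne a i))
  | .sp a b t₁ t₀, s =>
      Nat.ble (a + 1) s.n && Nat.ble (b + 1) s.n && check sp t₁ (s.setOne a b) &&
        check sp t₀ (s.setZero a b)
  | .bf v u w t, s =>
      Nat.ble sp.K v && Nat.ble (v + 1) s.n && Nat.ble sp.K u && Nat.ble (u + 1) s.n &&
      Nat.ble sp.K w && Nat.ble (w + 1) s.n && Nat.ble (s.n + 1) 32 &&
      Nat.beq (s.cl.getD v 0) (s.cl.getD w 0) &&
      Nat.ble 1 (s.lv.getD v 0) && Nat.ble 1 (s.lv.getD w 0) &&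
      (s.isOne v u || s.isZero sp v u) &&
      check sp t (s.addV sp (s.cl.getD u 0)
        (min (min (s.lv.getD v 0) (s.lv.getD w 0) - 1) (s.lv.getD u 0)) w (s.isOne v u))
  | .mx v j b t, s =>
      Nat.ble sp.K v && Nat.ble (v + 1) s.n && Nat.ble (s.n + 1) 32 &&
      Nat.ble 1 (s.lv.getD v 0) && Nat.ble (s.lv.getD v 0) sp.N &&
      sp.mix.contains (s.cl.getD v 0, j) &&
      check sp t (s.addV sp j (s.lv.getD v 0 - 1) v b)

/-- the situation described by `sp`: root `p`, representatives `rep` of the classes -/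
structure Ctx {V : Type} (G : SimpleGraph V) (M X : Set V) (E : ℕ → V → V → Prop) (sp : Spec)
    (p rep : ℕ → V) : Prop where
  sys : Sys G X E
  sub : X ⊆ M
  pM : ∀ i < sp.K, p i ∈ M
  pX : ∀ i < sp.K, p i ∉ X
  pinj : ∀ i < sp.K, ∀ j < sp.K, p i = p j → i = j
  root : ∀ i < sp.K, ∀ j < sp.K, (G.Adj (p i) (p j) ↔ ((i, j) ∈ sp.root ∨ (j, i) ∈ sp.root))
  h0 : ∀ u v, E 0 u v → ∀ i < sp.K, (G.Adj u (p i) ↔ G.Adj v (p i))
  tri : TriFree G M
  freeS : sp.pat = true → FreeS G M
  freeP : sp.pat = false → FreeP G M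
  tt : sp.tt = true → ∀ u ∈ X, ∀ v ∈ X, (∀ i < sp.K, ¬ G.Adj u (p i)) →
    (∀ i < sp.K, ¬ G.Adj v (p i)) → ¬ G.Adj u v
  aty : sp.aty ≠ [] → ∀ u ∈ X, ∃ τ ∈ sp.aty, ∀ i < sp.K, (G.Adj u (p i) ↔ τ.testBit i = true)
  repX : ∀ c < sp.cty.length, rep c ∈ X
  cty : ∀ c τ, sp.cty[c]? = some (some τ) → ∀ i < sp.K, (G.Adj (rep c) (p i) ↔ τ.testBit i = true)
  mix : ∀ c d, (c, d) ∈ sp.mix → Mx G X E sp.N (rep c) (rep d)

end Pool.Agent.H68.CW
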