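import Pool.Agent.H68.CW.ConvA

/-!
CWC. From a decomposition to an expression.

Proof. Call `κ : V → Fin k` canonical for `A` if for `u, v ∈ A`: `κ u = κ v` iff `u, v` have the same neighbours
outside `A`. If `Ext G ℓ k univ A` or `A` has at most one element (and `1 ≤ k`), a canonical `κ` exists: with `c` from
`Ext` and a choice `rep u` of a representative of the class of `u` (under the relation same neighbours outside `A`,
on `A`), `κ u = c (rep u)`.
Claim, by induction on `Dec G ℓ k univ A`: for every canonical `κ` for `A`, `A = ∅` or there are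
`e : Expr (Fin k × Fin 3)` and `f : A ≃ e.Vert` (`A` as a subtype) with `G.Adj u v ↔ e.Adj (f u) (f v)` and
`e.label (f u) = (κ u, 0)`.
Union `A ∪ B`, both nonempty: let `κ` be canonical for `A ∪ B`, `κ₁` for `A`, `κ₂` for `B`, `e₁`, `e₂` the expressions.
Lemma R is `Expr.relabel_part`: for `e` with all labels in `Fin k × {s}`, `φ : Fin k → Fin k` and `t ≠ s` there is
`e'` on the same vertices with the same adjacency and the label `(φ i, t)` where `e` has `(i, s)` (apply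
`relabel (i, s) (φ i, t)` for all `i`). So let `e₁'`, `e₂'` have labels `(κ₁ u, 1)`, `(κ₂ u, 2)`.
Lemma J is `Expr.join_part`: for a set `P` of pairs `(i, j)`, from `e` with labels in
`Fin k × {1, 2}` get the same with all edges between the labels `(i, 1)` and `(j, 2)`, `(i, j) ∈ P`, added.
Use it for `union e₁' e₂'` and `P` the pairs `(i, j)` such that some `a ∈ A`, `b ∈ B` with `κ₁ a = i`, `κ₂ b = j` are adjacent;
then all such `a, b` are adjacent because `κ₁, κ₂` are canonical. Finally relabel `(i, 1)` to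
`(φ₁ i, 0)` and `(j, 2)` to `(φ₂ j, 0)` where `κ u = φ₁ (κ₁ u)` on `A` (well defined: vertices with the same neighbours
outside `A` have the same neighbours outside `A ∪ B`), similarly for `B` (Lemma R for a part of the labels; state it for
expressions whose labels with second component `s` are changed and all others stay).
At the end transport the labels along `Fin k × Fin 3 ≃ Fin (3 * k)` (`Expr.map_equiv`). Everything needed on expressions is in ConvA.
-/

set_option autoImplicit false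

namespace Pool.Agent.H68.CW

variable {V : Type}

/-- same neighbours outside `A` -/
def Sim (G : SimpleGraph V) (A : Set V) (u v : V) : Prop :=
  ∀ w, w ∉ A → (G.Adj u w ↔ G.Adj v w)

theorem Sim.symm {G : SimpleGraph V} {A : Set V} {u v : V} (h : Sim G A u v) : Sim G A v u :=
  fun w hw => (h w hw).symm

theorem Sim.trans {G : SimpleGraph V} {A : Set V} {u v w : V} (h : Sim G A u v)
    (h' : Sim G A v w) : Sim G A u w :=
  fun z hz => (h z hz).trans (h' z hz)

theorem Sim.mono {G : SimpleGraph V} {A B : Set V} {u v : V} (h : Sim G A u v) (hAB : A ⊆ B) :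
    Sim G B u v :=
  fun z hz => h z (fun hA => hz (hAB hA))

/-- the labels are the classes of vertices with the same neighbours outside `A` -/
def Can {k : ℕ} (G : SimpleGraph V) (A : Set V) (κ : V → Fin k) : Prop :=
  ∀ u ∈ A, ∀ v ∈ A, κ u = κ v ↔ Sim G A u v

theorem exists_can_of_ext [Nonempty V] {L : Type} {G : SimpleGraph V} {ℓ : V → L} {k : ℕ}
    {A : Set V} (h : Ext G ℓ k Set.univ A) : ∃ κ : V → Fin k, Can G A κ := by
  classical
  obtain ⟨c, hc⟩ := h
  let rep : V → V := fun u => if h : ∃ v ∈ A, Sim G A u v then h.choose else u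
  -- the choice depends only on the class
  have hex : ∀ u ∈ A, ∃ v ∈ A, Sim G A u v := fun u hu => ⟨u, hu, fun _ _ => Iff.rfl⟩
  have hcongr : ∀ u v, u ∈ A → v ∈ A → Sim G A u v → rep u = rep v := by
    intro u v hu hv huv
    have hpred : (fun z => z ∈ A ∧ Sim G A u z) = (fun z => z ∈ A ∧ Sim G A v z) := by
      funext z
      apply propext
      constructor
      · rintro ⟨h1, h2⟩
        exact ⟨h1, huv.symm.trans h2⟩
      · rintro ⟨h1, h2⟩
        exact ⟨h1, huv.trans h2⟩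
    simp only [rep]
    rw [dif_pos (hex u hu), dif_pos (hex v hv)]
    simp only [hpred]
  have hrep : ∀ u ∈ A, rep u ∈ A ∧ Sim G A u (rep u) := by
    intro u hu
    simp only [rep]
    rw [dif_pos (hex u hu)]
    exact (hex u hu).choose_spec
  refine ⟨fun u => c (rep u), fun u hu v hv => ⟨fun h => ?_, fun h => ?_⟩⟩
  · obtain ⟨h1, h2⟩ := hrep u hu
    obtain ⟨h3, h4⟩ := hrep v hv
    have h5 : Sim G A (rep u) (rep v) := fun w hw => (hc _ h1 _ h3 h).2 w (Set.mem_univ w) hw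
    exact h2.trans (h5.trans h4.symm)
  · show c (rep u) = c (rep v)
    rw [hcongr u v hu hv h]

theorem exists_can [Nonempty V] {L : Type} {G : SimpleGraph V} {ℓ : V → L} {k : ℕ} (hk : 1 ≤ k)
    {A : Set V} (h : Dec G ℓ k Set.univ A) : ∃ κ : V → Fin k, Can G A κ := by
  cases h with
  | empty => exact ⟨fun _ => ⟨0, hk⟩, fun u hu => absurd hu (Set.notMem_empty u)⟩
  | single v =>
    refine ⟨fun _ => ⟨0, hk⟩, fun u hu w hw => ?_⟩
    rw [Set.mem_singleton_iff] at hu hw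
    subst hu
    subst hw
    exact ⟨fun _ _ _ => Iff.rfl, fun _ => rfl⟩
  | union A B _ _ _ hE => exact exists_can_of_ext hE

/-- the subgraph on `A` is given by an expression, with the labels `lab` -/
def Rz {k : ℕ} (G : SimpleGraph V) (A : Set V) (lab : V → Fin k × Fin 3) : Prop :=
  ∃ (e : Expr (Fin k × Fin 3)) (f : A ≃ e.Vert),
    (∀ u v : A, G.Adj u v ↔ e.Adj (f u) (f v)) ∧ ∀ u : A, e.label (f u) = lab u

theorem Rz.congr {k : ℕ} {G : SimpleGraph V} {A : Set V} {lab lab' : V → Fin k × Fin 3}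
    (h : Rz G A lab) (hl : ∀ u ∈ A, lab u = lab' u) : Rz G A lab' := by
  obtain ⟨e, f, h1, h2⟩ := h
  exact ⟨e, f, h1, fun u => (h2 u).trans (hl u u.2)⟩

theorem Rz.relabel {k : ℕ} {G : SimpleGraph V} {A : Set V} {lab : V → Fin k × Fin 3}
    (h : Rz G A lab) (s t : Fin 3) (hst : s ≠ t) (φ : Fin k → Fin k) :
    Rz G A (fun u => if (lab u).2 = s then (φ (lab u).1, t) else lab u) := by
  obtain ⟨e, f, h1, h2⟩ := h
  obtain ⟨e', g, h3, h4⟩ := Expr.relabel_part e s t hst φ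
  refine ⟨e', f.trans g, fun u v => ?_, fun u => ?_⟩
  · rw [h1 u v]
    exact (h3 (f u) (f v)).symm
  · show e'.label (g (f u)) = _
    rw [h4, h2]

theorem Rz.union {k : ℕ} {G : SimpleGraph V} {A B : Set V} {κ₁ κ₂ : V → Fin k}
    (hA : Rz G A (fun u => (κ₁ u, 1))) (hB : Rz G B (fun u => (κ₂ u, 2))) (hd : Disjoint A B)
    (P : Fin k → Fin k → Prop)
    (hP : ∀ a ∈ A, ∀ b ∈ B, (G.Adj a b ↔ P (κ₁ a) (κ₂ b))) (lab : V → Fin k × Fin 3)
    (hlA : ∀ u ∈ A, lab u = (κ₁ u, 1)) (hlB : ∀ u ∈ B, lab u = (κ₂ u, 2)) :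
    Rz G (A ∪ B) lab := by
  classical
  obtain ⟨e₁, f₁, a₁, l₁⟩ := hA
  obtain ⟨e₂, f₂, a₂, l₂⟩ := hB
  obtain ⟨e, g, ha, hl⟩ := Expr.join_part (Expr.union e₁ e₂) P
  let F : (A ∪ B : Set V) ≃ (Expr.union e₁ e₂).Vert :=
    (Equiv.Set.union hd).trans (Equiv.sumCongr f₁ f₂)
  have FA : ∀ u : (A ∪ B : Set V), ∀ hu : (u : V) ∈ A, F u = Sum.inl (f₁ ⟨u, hu⟩) := by
    intro u hu
    show Equiv.sumCongr f₁ f₂ (Equiv.Set.union hd u) = _
    rw [Equiv.Set.union_apply_left hd hu]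
    rfl
  have FB : ∀ u : (A ∪ B : Set V), ∀ hu : (u : V) ∈ B, F u = Sum.inr (f₂ ⟨u, hu⟩) := by
    intro u hu
    show Equiv.sumCongr f₁ f₂ (Equiv.Set.union hd u) = _
    rw [Equiv.Set.union_apply_right hd hu]
    rfl
  have LA : ∀ u : (A ∪ B : Set V), (u : V) ∈ A → (Expr.union e₁ e₂).label (F u) = (κ₁ u, 1) := by
    intro u hu
    rw [FA u hu]
    exact l₁ ⟨u, hu⟩
  have LB : ∀ u : (A ∪ B : Set V), (u : V) ∈ B → (Expr.union e₁ e₂).label (F u) = (κ₂ u, 2) := by
    intro u hu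
    rw [FB u hu]
    exact l₂ ⟨u, hu⟩
  have h12 : (1 : Fin 3) ≠ 2 := by decide
  refine ⟨e, F.trans g, fun u v => ?_, fun u => ?_⟩
  · show G.Adj u v ↔ e.Adj (g (F u)) (g (F v))
    rw [ha]
    rcases u.2 with hu | hu <;> rcases v.2 with hv | hv
    · rw [LA u hu, LA v hv, FA u hu, FA v hv]
      constructor
      · intro h
        exact Or.inl (Or.inl ⟨_, _, rfl, rfl, (a₁ ⟨u, hu⟩ ⟨v, hv⟩).1 h⟩)
      · rintro ((⟨a, b, h1, h2, h3⟩ | ⟨a, b, h1, _, _⟩) | ⟨i, j, _, (⟨_, h2⟩ | ⟨h1, _⟩)⟩)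
        · have k1 : f₁ ⟨u, hu⟩ = a := Sum.inl.inj h1
          have k2 : f₁ ⟨v, hv⟩ = b := Sum.inl.inj h2
          rw [← k1, ← k2] at h3
          exact (a₁ ⟨u, hu⟩ ⟨v, hv⟩).2 h3
        · exact (Sum.inl_ne_inr h1).elim
        · exact absurd (Prod.ext_iff.1 h2).2 h12
        · exact absurd (Prod.ext_iff.1 h1).2 h12
    · rw [LA u hu, LB v hv, FA u hu, FB v hv]
      constructor
      · intro h
        exact Or.inr ⟨κ₁ u, κ₂ v, (hP u hu v hv).1 h, Or.inl ⟨rfl, rfl⟩⟩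
      · rintro ((⟨a, b, _, h2, _⟩ | ⟨a, b, h1, _, _⟩) | ⟨i, j, hp, (⟨h1, h2⟩ | ⟨h1, _⟩)⟩)
        · exact (Sum.inr_ne_inl h2).elim
        · exact (Sum.inl_ne_inr h1).elim
        · have e1 : κ₁ u = i := (Prod.ext_iff.1 h1).1
          have e2 : κ₂ v = j := (Prod.ext_iff.1 h2).1
          rw [hP u hu v hv, e1, e2]
          exact hp
        · exact absurd (Prod.ext_iff.1 h1).2 h12
    · rw [LB u hu, LA v hv, FB u hu, FA v hv]
      constructor
      · intro h
        exact Or.inr ⟨κ₁ v, κ₂ u, (hP v hv u hu).1 h.symm, Or.inr ⟨rfl, rfl⟩⟩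
      · rintro ((⟨a, b, h1, _, _⟩ | ⟨a, b, _, h2, _⟩) | ⟨i, j, hp, (⟨h1, _⟩ | ⟨h1, h2⟩)⟩)
        · exact (Sum.inr_ne_inl h1).elim
        · exact (Sum.inl_ne_inr h2).elim
        · exact absurd (Prod.ext_iff.1 h1).2 h12.symm
        · have e1 : κ₂ u = j := (Prod.ext_iff.1 h1).1
          have e2 : κ₁ v = i := (Prod.ext_iff.1 h2).1
          rw [SimpleGraph.adj_comm, hP v hv u hu, e1, e2]
          exact hp
    · rw [LB u hu, LB v hv, FB u hu, FB v hv]
      constructor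
      · intro h
        exact Or.inl (Or.inr ⟨_, _, rfl, rfl, (a₂ ⟨u, hu⟩ ⟨v, hv⟩).1 h⟩)
      · rintro ((⟨a, b, h1, _, _⟩ | ⟨a, b, h1, h2, h3⟩) | ⟨i, j, _, (⟨h1, _⟩ | ⟨_, h2⟩)⟩)
        · exact (Sum.inr_ne_inl h1).elim
        · have k1 : f₂ ⟨u, hu⟩ = a := Sum.inr.inj h1
          have k2 : f₂ ⟨v, hv⟩ = b := Sum.inr.inj h2
          rw [← k1, ← k2] at h3
          exact (a₂ ⟨u, hu⟩ ⟨v, hv⟩).2 h3
        · exact absurd (Prod.ext_iff.1 h1).2 h12.symm
        · exact absurd (Prod.ext_iff.1 h2).2 h12.symm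
  · show e.label (g (F u)) = _
    rw [hl]
    rcases u.2 with hu | hu
    · rw [LA u hu, hlA u hu]
    · rw [LB u hu, hlB u hu]

theorem factor {k : ℕ} (hk : 1 ≤ k) {G : SimpleGraph V} {A C : Set V} (hAC : A ⊆ C)
    {κ₁ κ : V → Fin k} (h₁ : Can G A κ₁) (h : Can G C κ) :
    ∃ φ : Fin k → Fin k, ∀ u ∈ A, φ (κ₁ u) = κ u := by
  classical
  refine ⟨fun i => if h : ∃ a ∈ A, κ₁ a = i then κ h.choose else ⟨0, hk⟩, fun u hu => ?_⟩
  have hex : ∃ a ∈ A, κ₁ a = κ₁ u := ⟨u, hu, rfl⟩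
  show (if h : ∃ a ∈ A, κ₁ a = κ₁ u then κ h.choose else ⟨0, hk⟩) = κ u
  rw [dif_pos hex]
  obtain ⟨h1, h2⟩ := hex.choose_spec
  exact (h _ (hAC h1) _ (hAC hu)).2 (((h₁ _ h1 _ hu).1 h2).mono hAC)

theorem Rz_of_dec [Nonempty V] {L : Type} {G : SimpleGraph V} {ℓ : V → L} {k : ℕ} (hk : 1 ≤ k)
    {A : Set V} (h : Dec G ℓ k Set.univ A) :
    ∀ κ : V → Fin k, Can G A κ → A = ∅ ∨ Rz G A (fun u => (κ u, 0)) := by
  classical
  induction h with
  | empty => exact fun _ _ => Or.inl rfl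
  | single v =>
    intro κ _
    refine Or.inr ⟨Expr.vertex (κ v, 0), ⟨fun _ => (), fun _ => ⟨v, rfl⟩, fun u => ?_,
      fun _ => rfl⟩, fun u w => ?_, fun u => ?_⟩
    · exact Subtype.ext (Set.mem_singleton_iff.1 u.2).symm
    · have hu : (u : V) = v := u.2
      have hw : (w : V) = v := w.2
      rw [hu, hw]
      exact ⟨fun h => absurd h (G.loopless.irrefl v), fun h => h.elim⟩
    · have hu : (u : V) = v := u.2
      show (κ v, (0 : Fin 3)) = (κ u, 0)
      rw [hu]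
  | union A B dA dB hd hE ihA ihB =>
    intro κ hκ
    obtain ⟨κ₁, c₁⟩ := exists_can hk dA
    obtain ⟨κ₂, c₂⟩ := exists_can hk dB
    rcases ihA κ₁ c₁ with hA | rA
    · subst hA
      rw [Set.empty_union] at hκ ⊢
      exact ihB κ hκ
    rcases ihB κ₂ c₂ with hB | rB
    · subst hB
      rw [Set.union_empty] at hκ ⊢
      exact ihA κ hκ
    right
    have rA' : Rz G A (fun u => (κ₁ u, 1)) :=
      (rA.relabel 0 1 (by decide) id).congr fun u _ => by simp
    have rB' : Rz G B (fun u => (κ₂ u, 2)) :=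
      (rB.relabel 0 2 (by decide) id).congr fun u _ => by simp
    have hBA : ∀ b ∈ B, b ∉ A := fun b hb ha => Set.disjoint_left.1 hd ha hb
    have hAB : ∀ a ∈ A, a ∉ B := fun a ha hb => Set.disjoint_left.1 hd ha hb
    have hU := Rz.union rA' rB' hd
      (fun i j => ∃ a ∈ A, ∃ b ∈ B, κ₁ a = i ∧ κ₂ b = j ∧ G.Adj a b)
      (fun a ha b hb => by
        constructor
        · intro h
          exact ⟨a, ha, b, hb, rfl, rfl, h⟩
        · rintro ⟨a', ha', b', hb', h1, h2, h3⟩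
          have s1 := (c₁ a' ha' a ha).1 h1
          have s2 := (c₂ b' hb' b hb).1 h2
          have h4 : G.Adj a b' := (s1 b' (hBA b' hb')).1 h3
          exact ((s2 a (hAB a ha)).1 h4.symm).symm)
      (fun u => if u ∈ A then (κ₁ u, 1) else (κ₂ u, 2))
      (fun u hu => if_pos hu) (fun u hu => if_neg (hBA u hu))
    obtain ⟨φ₁, p₁⟩ := factor hk (Set.subset_union_left (s := A) (t := B)) c₁ hκ
    obtain ⟨φ₂, p₂⟩ := factor hk (Set.subset_union_right (s := A) (t := B)) c₂ hκ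
    refine (((hU.relabel 1 0 (by decide) φ₁).relabel 2 0 (by decide) φ₂)).congr fun u hu => ?_
    rcases hu with hu | hu
    · simp [hu, p₁ u hu]
    · simp [hBA u hu, p₂ u hu]

theorem cwLE_of_dec [Finite V] [Nonempty V] {L : Type} (G : SimpleGraph V) (ℓ : V → L) (k : ℕ)
    (hk : 1 ≤ k) (h : Dec G ℓ k Set.univ Set.univ) : CwLE G (3 * k) := by
  obtain ⟨κ, hκ⟩ := exists_can hk h
  rcases Rz_of_dec hk h κ hκ with h0 | ⟨e, f, h1, _⟩
  · exact absurd h0 Set.univ_nonempty.ne_empty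
  · obtain ⟨e', g, h2, _⟩ := Expr.map_equiv
      (finProdFinEquiv.trans (finCongr (Nat.mul_comm k 3))) e
    refine ⟨e', (Equiv.Set.univ V).symm.trans (f.trans g), fun v w => ?_⟩
    show G.Adj v w ↔ e'.Adj (g (f ⟨v, trivial⟩)) (g (f ⟨w, trivial⟩))
    rw [h2]
    exact h1 ⟨v, trivial⟩ ⟨w, trivial⟩

end Pool.Agent.H68.CW
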