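import Pool.Agent.H68.CW.Dec

/-!
CWCA. Operations on expressions.

All by induction.
* `Expr.adj_symm`: the adjacency relation of an expression is symmetric.
* `Expr.relabel_part`: by induction on a list of labels `i` (apply `relabel (i, s) (φ i, t)` for all `i : Fin k`; since `s ≠ t` the
  vertices changed before are not changed again). `relabel` does not change `Vert` or `Adj` (definitionally).
* `Expr.join_part`: by induction on a list (or finset) of pairs of labels; `join (i, 1) (j, 2)` for all pairs with `P i j`.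
* `Expr.map_equiv`: transport the labels along an equivalence (or an injection).
-/

set_option autoImplicit false

namespace Pool.Agent.H68.CW

theorem Expr.adj_symm {Λ : Type} [DecidableEq Λ] (e : Expr Λ) (v w : e.Vert) :
    e.Adj v w ↔ e.Adj w v := by
  induction e with
  | vertex i => exact Iff.rfl
  | union s t ihs iht =>
    constructor
    · rintro (⟨a, b, h1, h2, h3⟩ | ⟨a, b, h1, h2, h3⟩)
      · exact Or.inl ⟨b, a, h2, h1, (ihs a b).1 h3⟩
      · exact Or.inr ⟨b, a, h2, h1, (iht a b).1 h3⟩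
    · rintro (⟨a, b, h1, h2, h3⟩ | ⟨a, b, h1, h2, h3⟩)
      · exact Or.inl ⟨b, a, h2, h1, (ihs a b).1 h3⟩
      · exact Or.inr ⟨b, a, h2, h1, (iht a b).1 h3⟩
  | join i j h t ih =>
    constructor
    · rintro (h1 | h1 | h1)
      · exact Or.inl ((ih v w).1 h1)
      · exact Or.inr (Or.inr ⟨h1.2, h1.1⟩)
      · exact Or.inr (Or.inl ⟨h1.2, h1.1⟩)
    · rintro (h1 | h1 | h1)
      · exact Or.inl ((ih v w).2 h1)
      · exact Or.inr (Or.inr ⟨h1.2, h1.1⟩)
      · exact Or.inr (Or.inl ⟨h1.2, h1.1⟩)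
  | relabel i j t ih => exact ih v w

theorem Expr.relabel_list {k : ℕ} (e : Expr (Fin k × Fin 3)) (s t : Fin 3) (hst : s ≠ t)
    (φ : Fin k → Fin k) (L : List (Fin k)) :
    ∃ (e' : Expr (Fin k × Fin 3)) (f : e.Vert ≃ e'.Vert),
      (∀ v w, e'.Adj (f v) (f w) ↔ e.Adj v w) ∧
      ∀ v, e'.label (f v) = if (e.label v).2 = s ∧ (e.label v).1 ∈ L then
        (φ (e.label v).1, t) else e.label v := by
  induction L with
  | nil => exact ⟨e, Equiv.refl _, fun _ _ => Iff.rfl, fun v => by simp⟩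
  | cons i L ih =>
    obtain ⟨e', f, h1, h2⟩ := ih
    refine ⟨.relabel (i, s) (φ i, t) e', f, fun v w => h1 v w, fun v => ?_⟩
    show (if e'.label (f v) = (i, s) then (φ i, t) else e'.label (f v)) = _
    rw [h2 v]
    by_cases ha : (e.label v).2 = s ∧ (e.label v).1 ∈ L
    · have h3 : (e.label v).2 = s ∧ (e.label v).1 ∈ i :: L := ⟨ha.1, List.mem_cons_of_mem _ ha.2⟩
      have h4 : (φ (e.label v).1, t) ≠ (i, s) := fun h => hst (congrArg Prod.snd h).symm
      rw [if_pos ha, if_pos h3, if_neg h4]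
    · rw [if_neg ha]
      by_cases hb : e.label v = (i, s)
      · have h3 : (e.label v).2 = s ∧ (e.label v).1 ∈ i :: L := by
          rw [hb]; exact ⟨rfl, List.mem_cons_self⟩
        rw [if_pos hb, if_pos h3, hb]
      · have h3 : ¬ ((e.label v).2 = s ∧ (e.label v).1 ∈ i :: L) := by
          rintro ⟨h4, h5⟩
          rcases List.mem_cons.1 h5 with h6 | h6
          · exact hb (Prod.ext h6 h4)
          · exact ha ⟨h4, h6⟩
        rw [if_neg hb, if_neg h3]

theorem Expr.relabel_part {k : ℕ} (e : Expr (Fin k × Fin 3)) (s t : Fin 3) (hst : s ≠ t)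
    (φ : Fin k → Fin k) : ∃ (e' : Expr (Fin k × Fin 3)) (f : e.Vert ≃ e'.Vert),
      (∀ v w, e'.Adj (f v) (f w) ↔ e.Adj v w) ∧
      ∀ v, e'.label (f v) = if (e.label v).2 = s then (φ (e.label v).1, t) else e.label v := by
  obtain ⟨e', f, h1, h2⟩ := Expr.relabel_list e s t hst φ (List.finRange k)
  refine ⟨e', f, h1, fun v => ?_⟩
  rw [h2 v]
  simp only [List.mem_finRange, and_true]

theorem Expr.join_list {k : ℕ} (e : Expr (Fin k × Fin 3)) (P : Fin k → Fin k → Prop)
    (L : List (Fin k × Fin k)) :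
    ∃ (e' : Expr (Fin k × Fin 3)) (f : e.Vert ≃ e'.Vert),
      (∀ v w, e'.Adj (f v) (f w) ↔ (e.Adj v w ∨ ∃ i j, (i, j) ∈ L ∧ P i j ∧
        ((e.label v = (i, 1) ∧ e.label w = (j, 2)) ∨ (e.label v = (j, 2) ∧ e.label w = (i, 1))))) ∧
      ∀ v, e'.label (f v) = e.label v := by
  induction L with
  | nil => exact ⟨e, Equiv.refl _, fun _ _ => by simp, fun v => rfl⟩
  | cons p L ih =>
    obtain ⟨e', f, h1, h2⟩ := ih
    obtain ⟨i, j⟩ := p
    by_cases hP : P i j
    · have hne : ((i, 1) : Fin k × Fin 3) ≠ (j, 2) := fun h => by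
        have := congrArg Prod.snd h
        simp at this
      refine ⟨.join (i, 1) (j, 2) hne e', f, fun v w => ?_, fun v => h2 v⟩
      show (e'.Adj (f v) (f w) ∨ (e'.label (f v) = (i, 1) ∧ e'.label (f w) = (j, 2)) ∨
        (e'.label (f v) = (j, 2) ∧ e'.label (f w) = (i, 1))) ↔ _
      rw [h1 v w, h2 v, h2 w]
      constructor
      · rintro ((h3 | ⟨i', j', h3, h4, h5⟩) | h3)
        · exact Or.inl h3
        · exact Or.inr ⟨i', j', List.mem_cons_of_mem _ h3, h4, h5⟩
        · exact Or.inr ⟨i, j, List.mem_cons_self, hP, h3⟩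
      · rintro (h3 | ⟨i', j', h3, h4, h5⟩)
        · exact Or.inl (Or.inl h3)
        · rcases List.mem_cons.1 h3 with h6 | h6
          · obtain ⟨rfl, rfl⟩ := Prod.mk.inj h6
            exact Or.inr h5
          · exact Or.inl (Or.inr ⟨i', j', h6, h4, h5⟩)
    · refine ⟨e', f, fun v w => ?_, h2⟩
      rw [h1 v w]
      constructor
      · rintro (h3 | ⟨i', j', h3, h4, h5⟩)
        · exact Or.inl h3
        · exact Or.inr ⟨i', j', List.mem_cons_of_mem _ h3, h4, h5⟩
      · rintro (h3 | ⟨i', j', h3, h4, h5⟩)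
        · exact Or.inl h3
        · rcases List.mem_cons.1 h3 with h6 | h6
          · obtain ⟨rfl, rfl⟩ := Prod.mk.inj h6
            exact absurd h4 hP
          · exact Or.inr ⟨i', j', h6, h4, h5⟩

theorem Expr.join_part {k : ℕ} (e : Expr (Fin k × Fin 3)) (P : Fin k → Fin k → Prop) :
    ∃ (e' : Expr (Fin k × Fin 3)) (f : e.Vert ≃ e'.Vert),
      (∀ v w, e'.Adj (f v) (f w) ↔ (e.Adj v w ∨ ∃ i j, P i j ∧
        ((e.label v = (i, 1) ∧ e.label w = (j, 2)) ∨ (e.label v = (j, 2) ∧ e.label w = (i, 1))))) ∧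
      ∀ v, e'.label (f v) = e.label v := by
  obtain ⟨e', f, h1, h2⟩ := Expr.join_list e P (Finset.univ : Finset (Fin k × Fin k)).toList
  refine ⟨e', f, fun v w => ?_, h2⟩
  rw [h1 v w]
  simp only [Finset.mem_toList, Finset.mem_univ, true_and]

theorem Expr.map_equiv {Λ Λ' : Type} [DecidableEq Λ] [DecidableEq Λ'] (g : Λ ≃ Λ') (e : Expr Λ) :
    ∃ (e' : Expr Λ') (f : e.Vert ≃ e'.Vert),
      (∀ v w, e'.Adj (f v) (f w) ↔ e.Adj v w) ∧ ∀ v, e'.label (f v) = g (e.label v) := by
  induction e with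
  | vertex i => exact ⟨.vertex (g i), Equiv.refl Unit, fun _ _ => Iff.rfl, fun _ => rfl⟩
  | union s t ihs iht =>
    obtain ⟨s', fs, hs1, hs2⟩ := ihs
    obtain ⟨t', ft, ht1, ht2⟩ := iht
    refine ⟨.union s' t', Equiv.sumCongr fs ft, ?_, ?_⟩
    · intro v w
      rcases v with v | v <;> rcases w with w | w
      · constructor
        · rintro (⟨a, b, h1, h2, h3⟩ | ⟨a, b, h1, h2, h3⟩)
          · have e1 : fs v = a := Sum.inl.inj h1
            have e2 : fs w = b := Sum.inl.inj h2
            subst e1; subst e2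
            exact Or.inl ⟨v, w, rfl, rfl, (hs1 v w).1 h3⟩
          · exact (Sum.inl_ne_inr h1).elim
        · rintro (⟨a, b, h1, h2, h3⟩ | ⟨a, b, h1, h2, h3⟩)
          · have e1 : v = a := Sum.inl.inj h1
            have e2 : w = b := Sum.inl.inj h2
            subst e1; subst e2
            exact Or.inl ⟨fs v, fs w, rfl, rfl, (hs1 v w).2 h3⟩
          · exact (Sum.inl_ne_inr h1).elim
      · constructor
        · rintro (⟨a, b, h1, h2, h3⟩ | ⟨a, b, h1, h2, h3⟩)
          · exact (Sum.inr_ne_inl h2).elim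
          · exact (Sum.inl_ne_inr h1).elim
        · rintro (⟨a, b, h1, h2, h3⟩ | ⟨a, b, h1, h2, h3⟩)
          · exact (Sum.inr_ne_inl h2).elim
          · exact (Sum.inl_ne_inr h1).elim
      · constructor
        · rintro (⟨a, b, h1, h2, h3⟩ | ⟨a, b, h1, h2, h3⟩)
          · exact (Sum.inr_ne_inl h1).elim
          · exact (Sum.inl_ne_inr h2).elim
        · rintro (⟨a, b, h1, h2, h3⟩ | ⟨a, b, h1, h2, h3⟩)
          · exact (Sum.inr_ne_inl h1).elim
          · exact (Sum.inl_ne_inr h2).elim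
      · constructor
        · rintro (⟨a, b, h1, h2, h3⟩ | ⟨a, b, h1, h2, h3⟩)
          · exact (Sum.inr_ne_inl h1).elim
          · have e1 : ft v = a := Sum.inr.inj h1
            have e2 : ft w = b := Sum.inr.inj h2
            subst e1; subst e2
            exact Or.inr ⟨v, w, rfl, rfl, (ht1 v w).1 h3⟩
        · rintro (⟨a, b, h1, h2, h3⟩ | ⟨a, b, h1, h2, h3⟩)
          · exact (Sum.inr_ne_inl h1).elim
          · have e1 : v = a := Sum.inr.inj h1
            have e2 : w = b := Sum.inr.inj h2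
            subst e1; subst e2
            exact Or.inr ⟨ft v, ft w, rfl, rfl, (ht1 v w).2 h3⟩
    · intro v
      rcases v with v | v
      · exact hs2 v
      · exact ht2 v
  | join i j h t ih =>
    obtain ⟨t', f, h1, h2⟩ := ih
    refine ⟨.join (g i) (g j) (fun h' => h (g.injective h')) t', f, fun v w => ?_, fun v => h2 v⟩
    show (t'.Adj (f v) (f w) ∨ (t'.label (f v) = g i ∧ t'.label (f w) = g j) ∨
      (t'.label (f v) = g j ∧ t'.label (f w) = g i)) ↔
      (t.Adj v w ∨ (t.label v = i ∧ t.label w = j) ∨ (t.label v = j ∧ t.label w = i))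
    rw [h1 v w, h2 v, h2 w]
    simp only [g.injective.eq_iff]
  | relabel i j t ih =>
    obtain ⟨t', f, h1, h2⟩ := ih
    refine ⟨.relabel (g i) (g j) t', f, fun v w => h1 v w, fun v => ?_⟩
    show (if t'.label (f v) = g i then g j else t'.label (f v)) =
      g (if t.label v = i then j else t.label v)
    rw [h2 v]
    by_cases hv : t.label v = i
    · rw [if_pos hv, if_pos (by rw [hv])]
    · rw [if_neg hv, if_neg (fun h' => hv (g.injective h'))]

end Pool.Agent.H68.CW
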