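import Pool.Agent.H68.CW.Defs

/-!
Decompositions of bounded width (definitions).

`Dec G ℓ k M A`: the set `A` can be built from single vertices by disjoint unions such that for every
intermediate set `X` there are at most `k` classes of vertices of `X` with the same label `ℓ` and the same
neighbours in `M \ X`.
-/

set_option autoImplicit false

namespace Pool.Agent.H68.CW

variable {V : Type}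

/-- at most `k` classes of vertices of `X`, each of them with a constant label and the same neighbours in
`M \ X` -/
def Ext {L : Type} (G : SimpleGraph V) (ℓ : V → L) (k : ℕ) (M X : Set V) : Prop :=
  ∃ c : V → Fin k, ∀ u ∈ X, ∀ v ∈ X, c u = c v →
    ℓ u = ℓ v ∧ ∀ w ∈ M, w ∉ X → (G.Adj u w ↔ G.Adj v w)

/-- decompositions of width `k` -/
inductive Dec {L : Type} (G : SimpleGraph V) (ℓ : V → L) (k : ℕ) (M : Set V) : Set V → Prop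
  | empty : Dec G ℓ k M ∅
  | single (v : V) : Dec G ℓ k M {v}
  | union (A B : Set V) : Dec G ℓ k M A → Dec G ℓ k M B → Disjoint A B → Ext G ℓ k M (A ∪ B) →
      Dec G ℓ k M (A ∪ B)

/-- there are no three pairwise adjacent vertices in `M` -/
def TriFree (G : SimpleGraph V) (M : Set V) : Prop :=
  ∀ a ∈ M, ∀ b ∈ M, ∀ c ∈ M, G.Adj a b → G.Adj b c → ¬ G.Adj a c

/-- `c; a; b₁, b₂; d₁, d₂, d₃` induce `S_{1,2,3}` with centre `c` -/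
def IsS (G : SimpleGraph V) (c a b₁ b₂ d₁ d₂ d₃ : V) : Prop :=
  (G.Adj c a ∧ G.Adj c b₁ ∧ G.Adj b₁ b₂ ∧ G.Adj c d₁ ∧ G.Adj d₁ d₂ ∧ G.Adj d₂ d₃) ∧
  (¬ G.Adj c b₂ ∧ ¬ G.Adj c d₂ ∧ ¬ G.Adj c d₃) ∧
  (¬ G.Adj a b₁ ∧ ¬ G.Adj a b₂ ∧ ¬ G.Adj a d₁ ∧ ¬ G.Adj a d₂ ∧ ¬ G.Adj a d₃) ∧
  (¬ G.Adj b₁ d₁ ∧ ¬ G.Adj b₁ d₂ ∧ ¬ G.Adj b₁ d₃) ∧
  (¬ G.Adj b₂ d₁ ∧ ¬ G.Adj b₂ d₂ ∧ ¬ G.Adj b₂ d₃) ∧ ¬ G.Adj d₁ d₃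

/-- `c; a; b; d₁, d₂, d₃; z` induce `P_1 + S_{1,1,3}` with centre `c` and isolated vertex `z`
(if `a ≠ b`) -/
def IsP (G : SimpleGraph V) (c a b d₁ d₂ d₃ z : V) : Prop :=
  (G.Adj c a ∧ G.Adj c b ∧ G.Adj c d₁ ∧ G.Adj d₁ d₂ ∧ G.Adj d₂ d₃) ∧
  (¬ G.Adj c d₂ ∧ ¬ G.Adj c d₃) ∧
  (¬ G.Adj a b ∧ ¬ G.Adj a d₁ ∧ ¬ G.Adj a d₂ ∧ ¬ G.Adj a d₃) ∧
  (¬ G.Adj b d₁ ∧ ¬ G.Adj b d₂ ∧ ¬ G.Adj b d₃) ∧ ¬ G.Adj d₁ d₃ ∧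
  (¬ G.Adj z c ∧ ¬ G.Adj z a ∧ ¬ G.Adj z b ∧ ¬ G.Adj z d₁ ∧ ¬ G.Adj z d₂ ∧ ¬ G.Adj z d₃)

/-- no induced `S_{1,2,3}` in `M` -/
def FreeS (G : SimpleGraph V) (M : Set V) : Prop :=
  ∀ c ∈ M, ∀ a ∈ M, ∀ b₁ ∈ M, ∀ b₂ ∈ M, ∀ d₁ ∈ M, ∀ d₂ ∈ M, ∀ d₃ ∈ M, ¬ IsS G c a b₁ b₂ d₁ d₂ d₃

/-- no induced `P_1 + S_{1,1,3}` in `M` -/
def FreeP (G : SimpleGraph V) (M : Set V) : Prop :=
  ∀ c ∈ M, ∀ a ∈ M, ∀ b ∈ M, ∀ d₁ ∈ M, ∀ d₂ ∈ M, ∀ d₃ ∈ M, ∀ z ∈ M, a ≠ b → ¬ IsP G c a b d₁ d₂ d₃ z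

/-- every proper nonempty part of `M` is joined to the rest of `M` -/
def Conn (G : SimpleGraph V) (M : Set V) : Prop :=
  ∀ A ⊆ M, A.Nonempty → A ≠ M → ∃ a ∈ A, ∃ b ∈ M, b ∉ A ∧ G.Adj a b

end Pool.Agent.H68.CW
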