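import Pool.Agent.H68.CW.BipDef
import Pool.Agent.H68.CW.Tool

/-!
DPC. Blow-ups of paths and cycles have bounded width.

`dec_PC`: `Dec.layout` with the key `c`: for a set `Y` (all classes `< i`, some vertices of the class `i`) the vertices of `Y` of the
classes other than `0, 1` (needed for cycles), `i - 1`, `i` have no neighbours in `M \ Y`, and two vertices of the same class have
the same neighbours in `M`; so `c'` with the values: class `0`, class `1`, class `i - 1`, class `i`, other (at most 6 values) times the side works: 12 labels.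
-/

set_option autoImplicit false

namespace Pool.Agent.H68.CW

variable {V : Type} {G : SimpleGraph V} {side : V → Bool} {M : Set V}

theorem decPC_aux (hM : M.Finite) (c : V → ℕ)
    (hA : ∀ u ∈ M, ∀ v ∈ M, c u = c v → ∀ w ∈ M, (G.Adj u w ↔ G.Adj v w))
    (hB : ∀ i : ℕ, ∀ u ∈ M, c u ≠ 0 → c u + 1 < i → ∀ w ∈ M, i ≤ c w → ¬ G.Adj u w) :
    Dec G side 12 M M := by
  refine Dec.layout hM c ?_
  rintro Y hY ⟨i, hi⟩
  have hcard : Nat.card (Bool × Fin 4) ≤ 12 := by
    rw [Nat.card_eq_fintype_card]; decide
  refine Ext.of_labels (C := Bool × Fin 4) hcard (by norm_num)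
    (fun u => (side u, if c u = 0 then 0 else if c u = i then 1 else if c u + 1 = i then 2 else 3))
    ?_
  intro u hu v hv huv
  obtain ⟨h1, h2⟩ := Prod.mk.inj huv
  refine ⟨h1, fun w hw hwY => ?_⟩
  have hcw : i ≤ c w := by
    by_contra hlt
    exact hwY ((hi w hw).1 (by omega))
  have hcu : c u ≤ i := by
    by_contra hlt
    exact (hi u (hY hu)).2 (by omega) hu
  have hcv : c v ≤ i := by
    by_contra hlt
    exact (hi v (hY hv)).2 (by omega) hv
  by_cases huv' : c u = c v
  · exact hA u (hY hu) v (hY hv) huv' w hw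
  · have hu3 : c u ≠ 0 ∧ c u + 1 < i := by
      split_ifs at h2 <;> omega
    have hv3 : c v ≠ 0 ∧ c v + 1 < i := by
      split_ifs at h2 <;> omega
    exact iff_of_false (hB i u (hY hu) hu3.1 hu3.2 w hw hcw)
      (hB i v (hY hv) hv3.1 hv3.2 w hw hcw)

theorem dec_PC (hM : M.Finite) (h : PC G M) : Dec G side 12 M M := by
  obtain ⟨k, c, hk, h | h⟩ := h
  · obtain ⟨-, -, h3⟩ := h
    refine decPC_aux hM c ?_ ?_
    · intro u hu v hv huv w hw
      rw [h3 u hu w hw, h3 v hv w hw, huv]
    · intro i u hu _ hui w hw hwi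
      rw [h3 u hu w hw]
      omega
  · obtain ⟨h1, -, h3⟩ := h
    refine decPC_aux hM c ?_ ?_
    · intro u hu v hv huv w hw
      rw [h3 u hu w hw, h3 v hv w hw, huv]
    · intro i u hu hu0 hui w hw hwi
      rw [h3 u hu w hw]
      have hwk := h1 w hw
      rintro (h4 | h4)
      · rw [Nat.mod_eq_of_lt (by omega)] at h4
        omega
      · rcases Nat.lt_or_ge (c w + 1) k with h5 | h5
        · rw [Nat.mod_eq_of_lt h5] at h4
          omega
        · have h6 : c w + 1 = k := by omega
          rw [h6, Nat.mod_self] at h4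
          omega

end Pool.Agent.H68.CW
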