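import Mathlib

/-!
Clique-width (definition), and the graphs `K_3`, `S_{1,2,3}`, `P_1 + S_{1,1,3}`.
-/

set_option autoImplicit false

namespace Pool.Agent.H68.CW

/-- Expressions over a set `Λ` of labels, built with the four operations: one vertex with a label, disjoint
union, adding all edges between the vertices labelled `i` and the vertices labelled `j` (`i ≠ j`), and
relabelling every vertex of label `i` to label `j`. -/
inductive Expr (Λ : Type) : Type
  | vertex (i : Λ) : Expr Λ
  | union (s t : Expr Λ) : Expr Λ
  | join (i j : Λ) (h : i ≠ j) (t : Expr Λ) : Expr Λ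
  | relabel (i j : Λ) (t : Expr Λ) : Expr Λ

namespace Expr

variable {Λ : Type}

/-- the vertices of the graph of an expression -/
def Vert : Expr Λ → Type
  | vertex _ => Unit
  | union s t => s.Vert ⊕ t.Vert
  | join _ _ _ t => t.Vert
  | relabel _ _ t => t.Vert

/-- the labels of the vertices -/
def label [DecidableEq Λ] : (e : Expr Λ) → e.Vert → Λ
  | vertex i, _ => i
  | union s t, v => Sum.elim (fun a => s.label a) (fun b => t.label b) v
  | join _ _ _ t, v => t.label v
  | relabel i j t, v => if t.label v = i then j else t.label v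

/-- adjacency in the graph of an expression -/
def Adj [DecidableEq Λ] : (e : Expr Λ) → e.Vert → e.Vert → Prop
  | vertex _, _, _ => False
  | union s t, v, w =>
      (∃ a b, v = Sum.inl a ∧ w = Sum.inl b ∧ s.Adj a b) ∨
      (∃ a b, v = Sum.inr a ∧ w = Sum.inr b ∧ t.Adj a b)
  | join i j _ t, v, w =>
      t.Adj v w ∨ (t.label v = i ∧ t.label w = j) ∨ (t.label v = j ∧ t.label w = i)
  | relabel _ _ t, v, w => t.Adj v w

end Expr

/-- the clique-width of `G` is at most `k`: the graph is isomorphic to the graph of an expression with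
labels in a set with `k` elements -/
def CwLE {V : Type} (G : SimpleGraph V) (k : ℕ) : Prop :=
  ∃ (e : Expr (Fin k)) (f : V ≃ e.Vert), ∀ v w, G.Adj v w ↔ e.Adj (f v) (f w)

/-- the graph on `Fin n` with a given list of edges -/
def ofList (n : ℕ) (l : List (ℕ × ℕ)) : SimpleGraph (Fin n) :=
  SimpleGraph.fromRel (fun i j => (i.1, j.1) ∈ l)

/-- `S_{1,2,3}`: the centre is `0`, the legs are `1`, `2 3` and `4 5 6` -/
def S123 : SimpleGraph (Fin 7) := ofList 7 [(0, 1), (0, 2), (2, 3), (0, 4), (4, 5), (5, 6)]

/-- `P_1 + S_{1,1,3}`: the centre is `0`, the legs are `1`, `2` and `3 4 5`; `6` is isolated -/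
def P1S113 : SimpleGraph (Fin 7) := ofList 7 [(0, 1), (0, 2), (0, 3), (3, 4), (4, 5)]

end Pool.Agent.H68.CW
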