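import Pool.Agent.H68.CW.ThmP
import Pool.Agent.H68.CW.Conv

/-!
FI. The final theorems.

Proofs. `triFree_univ`: three pairwise adjacent vertices give an embedding of `⊤ : SimpleGraph (Fin 3)` (adjacent vertices are different). `freeS_univ`: `IsS G c a b₁ b₂ d₁ d₂ d₃` gives the embedding `![c, a, b₁, b₂, d₁, d₂, d₃]` of `S123` (injective because the seven vertices have pairwise different rows of adjacencies; 49 adjacencies:
`S123.Adj i j` is decidable after unfolding `S123, ofList, SimpleGraph.fromRel_adj`). `freeP_univ`: the same with `![c, a, b, d₁, d₂, d₃, z]` and `P1S113` (`a ≠ b` is given). Then `thmS`, `thmP` for `M = Set.univ` (finite, as `V` is finite) and `cwLE_of_dec` (`1 ≤ KS`, `1 ≤ KP`).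
-/

set_option autoImplicit false

namespace Pool.Agent.H68.CW

variable {V : Type} {G : SimpleGraph V}

/-- adjacency in `ofList`, as a Boolean function -/
def fiB (n : ℕ) (l : List (ℕ × ℕ)) (i j : Fin n) : Bool :=
  decide (i ≠ j) && (decide ((i.1, j.1) ∈ l) || decide ((j.1, i.1) ∈ l))

theorem fiB_iff (n : ℕ) (l : List (ℕ × ℕ)) (i j : Fin n) :
    (ofList n l).Adj i j ↔ fiB n l i j = true := by
  simp [ofList, SimpleGraph.fromRel_adj, fiB]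

theorem fi_S {c a b₁ b₂ d₁ d₂ d₃ : V} (h : IsS G c a b₁ b₂ d₁ d₂ d₃) (i j : Fin 7) :
    G.Adj ((![c, a, b₁, b₂, d₁, d₂, d₃] : Fin 7 → V) i)
      ((![c, a, b₁, b₂, d₁, d₂, d₃] : Fin 7 → V) j) ↔
      fiB 7 [(0, 1), (0, 2), (2, 3), (0, 4), (4, 5), (5, 6)] i j = true := by
  obtain ⟨⟨h1, h2, h3, h4, h5, h6⟩, ⟨n1, n2, n3⟩, ⟨n4, n5, n6, n7, n8⟩, ⟨n9, n10, n11⟩,
    ⟨n12, n13, n14⟩, n15⟩ := h
  have n1' : ¬ G.Adj b₂ c := fun e => n1 e.symm
  have n2' : ¬ G.Adj d₂ c := fun e => n2 e.symm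
  have n3' : ¬ G.Adj d₃ c := fun e => n3 e.symm
  have n4' : ¬ G.Adj b₁ a := fun e => n4 e.symm
  have n5' : ¬ G.Adj b₂ a := fun e => n5 e.symm
  have n6' : ¬ G.Adj d₁ a := fun e => n6 e.symm
  have n7' : ¬ G.Adj d₂ a := fun e => n7 e.symm
  have n8' : ¬ G.Adj d₃ a := fun e => n8 e.symm
  have n9' : ¬ G.Adj d₁ b₁ := fun e => n9 e.symm
  have n10' : ¬ G.Adj d₂ b₁ := fun e => n10 e.symm
  have n11' : ¬ G.Adj d₃ b₁ := fun e => n11 e.symm
  have n12' : ¬ G.Adj d₁ b₂ := fun e => n12 e.symm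
  have n13' : ¬ G.Adj d₂ b₂ := fun e => n13 e.symm
  have n14' : ¬ G.Adj d₃ b₂ := fun e => n14 e.symm
  have n15' : ¬ G.Adj d₃ d₁ := fun e => n15 e.symm
  have h1' := h1.symm
  have h2' := h2.symm
  have h3' := h3.symm
  have h4' := h4.symm
  have h5' := h5.symm
  have h6' := h6.symm
  fin_cases i <;> fin_cases j <;> simp [fiB, *]

theorem fi_P {c a b d₁ d₂ d₃ z : V} (h : IsP G c a b d₁ d₂ d₃ z) (i j : Fin 7) :
    G.Adj ((![c, a, b, d₁, d₂, d₃, z] : Fin 7 → V) i)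
      ((![c, a, b, d₁, d₂, d₃, z] : Fin 7 → V) j) ↔
      fiB 7 [(0, 1), (0, 2), (0, 3), (3, 4), (4, 5)] i j = true := by
  obtain ⟨⟨h1, h2, h3, h4, h5⟩, ⟨n1, n2⟩, ⟨n3, n4, n5, n6⟩, ⟨n7, n8, n9⟩, n10,
    ⟨n11, n12, n13, n14, n15, n16⟩⟩ := h
  have n1' : ¬ G.Adj d₂ c := fun e => n1 e.symm
  have n2' : ¬ G.Adj d₃ c := fun e => n2 e.symm
  have n3' : ¬ G.Adj b a := fun e => n3 e.symm
  have n4' : ¬ G.Adj d₁ a := fun e => n4 e.symm
  have n5' : ¬ G.Adj d₂ a := fun e => n5 e.symm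
  have n6' : ¬ G.Adj d₃ a := fun e => n6 e.symm
  have n7' : ¬ G.Adj d₁ b := fun e => n7 e.symm
  have n8' : ¬ G.Adj d₂ b := fun e => n8 e.symm
  have n9' : ¬ G.Adj d₃ b := fun e => n9 e.symm
  have n10' : ¬ G.Adj d₃ d₁ := fun e => n10 e.symm
  have n11' : ¬ G.Adj c z := fun e => n11 e.symm
  have n12' : ¬ G.Adj a z := fun e => n12 e.symm
  have n13' : ¬ G.Adj b z := fun e => n13 e.symm
  have n14' : ¬ G.Adj d₁ z := fun e => n14 e.symm
  have n15' : ¬ G.Adj d₂ z := fun e => n15 e.symm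
  have n16' : ¬ G.Adj d₃ z := fun e => n16 e.symm
  have h1' := h1.symm
  have h2' := h2.symm
  have h3' := h3.symm
  have h4' := h4.symm
  have h5' := h5.symm
  fin_cases i <;> fin_cases j <;> simp [fiB, *]

theorem fi_rowS : ∀ i j : Fin 7,
    (∀ k, fiB 7 [(0, 1), (0, 2), (2, 3), (0, 4), (4, 5), (5, 6)] i k =
      fiB 7 [(0, 1), (0, 2), (2, 3), (0, 4), (4, 5), (5, 6)] j k) → i = j := by
  decide

theorem fi_rowP : ∀ i j : Fin 7,
    (∀ k, fiB 7 [(0, 1), (0, 2), (0, 3), (3, 4), (4, 5)] i k =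
      fiB 7 [(0, 1), (0, 2), (0, 3), (3, 4), (4, 5)] j k) →
      i = j ∨ (i = 1 ∧ j = 2) ∨ (i = 2 ∧ j = 1) := by
  decide

theorem triFree_univ (h : IsEmpty ((⊤ : SimpleGraph (Fin 3)) ↪g G)) : TriFree G Set.univ := by
  intro a _ b _ c _ hab hbc hac
  have hf : ∀ i j : Fin 3, G.Adj ((![a, b, c] : Fin 3 → V) i) ((![a, b, c] : Fin 3 → V) j) ↔
      i ≠ j := by
    intro i j
    have h1 := hab.symm
    have h2 := hbc.symm
    have h3 := hac.symm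
    fin_cases i <;> fin_cases j <;> simp [hab, hbc, hac, h1, h2, h3]
  refine h.false ⟨⟨![a, b, c], ?_⟩, ?_⟩
  · intro i j hij
    by_contra hne
    have h1 := (hf i j).2 hne
    rw [hij] at h1
    exact G.loopless.irrefl _ h1
  · intro i j
    show G.Adj ((![a, b, c] : Fin 3 → V) i) ((![a, b, c] : Fin 3 → V) j) ↔ _
    rw [hf i j, SimpleGraph.top_adj]

theorem freeS_univ (h : IsEmpty (S123 ↪g G)) : FreeS G Set.univ := by
  intro c _ a _ b₁ _ b₂ _ d₁ _ d₂ _ d₃ _ hS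
  have hf := fi_S hS
  refine h.false ⟨⟨![c, a, b₁, b₂, d₁, d₂, d₃], ?_⟩, ?_⟩
  · intro i j hij
    refine fi_rowS i j (fun k => ?_)
    rw [Bool.eq_iff_iff, ← hf i k, ← hf j k, hij]
  · intro i j
    show G.Adj ((![c, a, b₁, b₂, d₁, d₂, d₃] : Fin 7 → V) i)
      ((![c, a, b₁, b₂, d₁, d₂, d₃] : Fin 7 → V) j) ↔ S123.Adj i j
    rw [hf i j]
    exact (fiB_iff 7 _ i j).symm

theorem freeP_univ (h : IsEmpty (P1S113 ↪g G)) : FreeP G Set.univ := by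
  intro c _ a _ b _ d₁ _ d₂ _ d₃ _ z _ hab hP
  have hf := fi_P hP
  refine h.false ⟨⟨![c, a, b, d₁, d₂, d₃, z], ?_⟩, ?_⟩
  · intro i j hij
    rcases fi_rowP i j (fun k => by rw [Bool.eq_iff_iff, ← hf i k, ← hf j k, hij]) with
      e | ⟨e1, e2⟩ | ⟨e1, e2⟩
    · exact e
    · subst e1
      subst e2
      exact absurd hij hab
    · subst e1
      subst e2
      exact absurd hij.symm hab
  · intro i j
    show G.Adj ((![c, a, b, d₁, d₂, d₃, z] : Fin 7 → V) i)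
      ((![c, a, b, d₁, d₂, d₃, z] : Fin 7 → V) j) ↔ P1S113.Adj i j
    rw [hf i j]
    exact (fiB_iff 7 _ i j).symm

theorem fi_KS : 1 ≤ KS :=
  Nat.succ_le_of_lt (Nat.mul_pos (Nat.mul_pos (by norm_num)
    (lt_of_lt_of_le one_pos (le_max_left _ _))) (by positivity))

theorem fi_KP : 1 ≤ KP :=
  Nat.succ_le_of_lt (Nat.mul_pos (Nat.mul_pos (Nat.lt_of_succ_le fi_KS)
    (lt_of_lt_of_le one_pos (le_max_left _ _))) (by positivity))

theorem cw_S : ∃ k : ℕ, ∀ (V : Type) [Finite V] [Nonempty V] (G : SimpleGraph V),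
    IsEmpty ((⊤ : SimpleGraph (Fin 3)) ↪g G) → IsEmpty (S123 ↪g G) → CwLE G k :=
  ⟨3 * KS, fun _ _ _ G h1 h2 => cwLE_of_dec G (fun _ => ()) KS fi_KS
    (thmS (Set.toFinite _) (triFree_univ h1) (freeS_univ h2))⟩

theorem cw_P : ∃ k : ℕ, ∀ (V : Type) [Finite V] [Nonempty V] (G : SimpleGraph V),
    IsEmpty ((⊤ : SimpleGraph (Fin 3)) ↪g G) → IsEmpty (P1S113 ↪g G) → CwLE G k :=
  ⟨3 * KP, fun _ _ _ G h1 h2 => cwLE_of_dec G (fun _ => ()) KP fi_KP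
    (thmP (Set.toFinite _) (triFree_univ h1) (freeP_univ h2))⟩

end Pool.Agent.H68.CW
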