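import Pool.Agent.H68.CW.BipDef

/-!
GR. Growing a blow-up of a path.

Proof of `grow`. Induction on the number of elements of `M \ N`. Let `Y` be the set of `w ∈ M \ N` adjacent to some vertex of class `k`
of `N`. If `Y` is empty take `N' = N`. Otherwise: every `y ∈ Y` is adjacent to no vertex of class `< k` (closedness). It is
adjacent to all vertices of class `k`: let `x, z` be of class `k`, `y` adjacent to `x` and not to `z`. Choose `p` of class `k - 1`, and
`q₁, q₂, q₃` of the classes `k - 2, k - 3, k - 4` (`≥ 1`). Then `IsS G p z x y q₁ q₂ q₃`: contradiction. The vertices of `Y` are pairwise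
not adjacent (they are all on the side opposite to class `k`). So `N ∪ Y` with `c' = k + 1` on `Y` is a blow-up of a path with
`k + 1` vertices, and its classes `≤ k` are closed. Apply the induction hypothesis.
-/

set_option autoImplicit false

namespace Pool.Agent.H68.CW

variable {V : Type}

theorem grow {G : SimpleGraph V} {side : V → Bool} {M : Set V} (hM : M.Finite)
    (hb : Bip G side M) (hS : FreeS G M) {N : Set V} (hN : N ⊆ M) {k : ℕ} {c : V → ℕ}
    (hk : 5 ≤ k) (hP : PathBl G N k c) (hcl : ∀ u ∈ N, c u < k → ∀ w ∈ M, G.Adj u w → w ∈ N) :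
    ∃ (N' : Set V) (k' : ℕ) (c' : V → ℕ), N ⊆ N' ∧ N' ⊆ M ∧ k ≤ k' ∧ PathBl G N' k' c' ∧
      (∀ u ∈ N, c' u = c u) ∧ ∀ u ∈ N', ∀ w ∈ M, G.Adj u w → w ∈ N' := by
  classical
  induction hm : (M \ N).ncard using Nat.strong_induction_on generalizing N k c with
  | _ m ih =>
    obtain ⟨hP1, hP2, hP3⟩ := hP
    by_cases hY : ∃ y ∈ M, y ∉ N ∧ ∃ u ∈ N, c u = k ∧ G.Adj u y
    · -- no vertex outside `N` is adjacent to a small class
      have hsmall : ∀ y ∈ M, y ∉ N → ∀ u ∈ N, c u < k → ¬ G.Adj u y :=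
        fun y hy hyN u hu hcu h => hyN (hcl u hu hcu y hy h)
      -- completeness
      have hcomp : ∀ y ∈ M, y ∉ N → (∃ u ∈ N, c u = k ∧ G.Adj u y) →
          ∀ z ∈ N, c z = k → G.Adj z y := by
        rintro y hy hyN ⟨x, hx, hcx, hxy⟩ z hz hcz
        by_contra hn
        obtain ⟨p, hp, hcp⟩ := hP2 (k - 1) (by omega) (by omega)
        obtain ⟨q1, hq1, hcq1⟩ := hP2 (k - 2) (by omega) (by omega)
        obtain ⟨q2, hq2, hcq2⟩ := hP2 (k - 3) (by omega) (by omega)
        obtain ⟨q3, hq3, hcq3⟩ := hP2 (k - 4) (by omega) (by omega)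
        have hny : ∀ u ∈ N, c u < k → ¬ G.Adj y u := fun u hu hcu h =>
          hsmall y hy hyN u hu hcu h.symm
        refine hS p (hN hp) z (hN hz) x (hN hx) y hy q1 (hN hq1) q2 (hN hq2) q3 (hN hq3) ?_
        refine ⟨⟨?_, ?_, hxy, ?_, ?_, ?_⟩, ⟨?_, ?_, ?_⟩, ⟨?_, hn, ?_, ?_, ?_⟩, ⟨?_, ?_, ?_⟩,
          ⟨hny q1 hq1 (by omega), hny q2 hq2 (by omega), hny q3 hq3 (by omega)⟩, ?_⟩
        · rw [hP3 p hp z hz]; omega
        · rw [hP3 p hp x hx]; omega
        · rw [hP3 p hp q1 hq1]; omega
        · rw [hP3 q1 hq1 q2 hq2]; omega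
        · rw [hP3 q2 hq2 q3 hq3]; omega
        · exact hsmall y hy hyN p hp (by omega)
        · rw [hP3 p hp q2 hq2]; omega
        · rw [hP3 p hp q3 hq3]; omega
        · rw [hP3 z hz x hx]; omega
        · rw [hP3 z hz q1 hq1]; omega
        · rw [hP3 z hz q2 hq2]; omega
        · rw [hP3 z hz q3 hq3]; omega
        · rw [hP3 x hx q1 hq1]; omega
        · rw [hP3 x hx q2 hq2]; omega
        · rw [hP3 x hx q3 hq3]; omega
        · rw [hP3 q1 hq1 q3 hq3]; omega
      let Y : Set V := {y | y ∈ M ∧ y ∉ N ∧ ∃ u ∈ N, c u = k ∧ G.Adj u y}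
      let c1 : V → ℕ := fun u => if u ∈ N then c u else k + 1
      have hc1 : ∀ u ∈ N, c1 u = c u := fun u hu => if_pos hu
      have hc1' : ∀ u ∈ Y, c1 u = k + 1 := fun u hu => if_neg hu.2.1
      have hN1 : N ∪ Y ⊆ M := by
        rintro u (hu | hu)
        · exact hN hu
        · exact hu.1
      obtain ⟨y0, hy0, hy0N, hy0u⟩ := hY
      have hy0Y : y0 ∈ Y := ⟨hy0, hy0N, hy0u⟩
      have hNY : ∀ u ∈ N, ∀ v ∈ Y, (G.Adj u v ↔ c u = k) := by
        intro u hu v hv
        constructor
        · intro h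
          by_contra hne
          have := (hP1 u hu).2
          exact hsmall v hv.1 hv.2.1 u hu (by omega) h
        · intro h
          exact hcomp v hv.1 hv.2.1 hv.2.2 u hu h
      have hYY : ∀ u ∈ Y, ∀ v ∈ Y, ¬ G.Adj u v := by
        intro u hu v hv h
        obtain ⟨x, hx, hcx, hxv⟩ := hv.2.2
        have hxu : G.Adj x u := (hNY x hx u hu).2 hcx
        have h1 := hb x (hN hx) v hv.1 hxv
        have h2 := hb x (hN hx) u hu.1 hxu
        have h3 := hb u hu.1 v hv.1 h
        cases hsx : side x <;> cases hsu : side u <;> cases hsv : side v <;> simp_all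
      have hP' : PathBl G (N ∪ Y) (k + 1) c1 := by
        refine ⟨?_, ?_, ?_⟩
        · rintro u (hu | hu)
          · rw [hc1 u hu]
            have := hP1 u hu
            omega
          · rw [hc1' u hu]; omega
        · intro i hi1 hi2
          rcases Nat.lt_or_ge k i with h | h
          · exact ⟨y0, Or.inr hy0Y, by rw [hc1' y0 hy0Y]; omega⟩
          · obtain ⟨u, hu, hcu⟩ := hP2 i hi1 h
            exact ⟨u, Or.inl hu, by rw [hc1 u hu]; exact hcu⟩
        · rintro u (hu | hu) v (hv | hv)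
          · rw [hc1 u hu, hc1 v hv]; exact hP3 u hu v hv
          · rw [hc1 u hu, hc1' v hv, hNY u hu v hv]
            have := hP1 u hu
            omega
          · rw [hc1' u hu, hc1 v hv, G.adj_comm, hNY v hv u hu]
            have := hP1 v hv
            omega
          · rw [hc1' u hu, hc1' v hv]
            constructor
            · intro h; exact absurd h (hYY u hu v hv)
            · intro h; omega
      have hcl' : ∀ u ∈ N ∪ Y, c1 u < k + 1 → ∀ w ∈ M, G.Adj u w → w ∈ N ∪ Y := by
        rintro u (hu | hu) hcu w hw huw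
        · rw [hc1 u hu] at hcu
          by_cases hwN : w ∈ N
          · exact Or.inl hwN
          · by_cases hck : c u = k
            · exact Or.inr ⟨hw, hwN, u, hu, hck, huw⟩
            · exact Or.inl (hcl u hu (by omega) w hw huw)
        · rw [hc1' u hu] at hcu
          exact absurd hcu (lt_irrefl _)
      have hlt : (M \ (N ∪ Y)).ncard < m := by
        rw [← hm]
        refine Set.ncard_lt_ncard ?_ (hM.subset Set.sdiff_subset)
        refine ⟨fun u hu => ⟨hu.1, fun h => hu.2 (Or.inl h)⟩, fun h => ?_⟩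
        exact (h ⟨hy0, hy0N⟩).2 (Or.inr hy0Y)
      obtain ⟨N', k', c', g1, g2, g3, g4, g5, g6⟩ :=
        ih _ hlt hN1 (by omega : 5 ≤ k + 1) hP' hcl' rfl
      refine ⟨N', k', c', fun u hu => g1 (Or.inl hu), g2, by omega, g4, ?_, g6⟩
      intro u hu
      rw [g5 u (Or.inl hu), hc1 u hu]
    · refine ⟨N, k, c, subset_rfl, hN, le_rfl, ⟨hP1, hP2, hP3⟩, fun _ _ => rfl, ?_⟩
      intro u hu w hw huw
      by_contra hwN
      have h1 := (hP1 u hu).2
      rcases Nat.lt_or_ge (c u) k with h | h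
      · exact hwN (hcl u hu h w hw huw)
      · exact hY ⟨w, hw, hwN, u, hu, by omega, huw⟩

end Pool.Agent.H68.CW
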