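import Pool.Agent.H68.CW.Grow

/-!
L1. A cut vertex.

Proof of `lemma_one`. Let `S = M \ {v}`, `x₀ ∈ S` on the other side of `v` and not adjacent to `v`. Let `H₁` be the set of the
vertices of `S` which can be reached from `x₀` in `S` (the smallest `A ⊆ S` with `x₀ ∈ A`, closed under neighbours in `S`),
`H₂ = S \ H₁`. There are no edges between `H₁` and `H₂`. `H₂` is nonempty (`¬ Conn G S` gives a nonempty proper part `A` of `S` without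
edges to `S \ A`; `H₁` is contained in `A` or in `S \ A`), and `v` has neighbours in `H₁` and in `H₂` (`Conn G M`).
(0) There are `x₁ ∈ H₁` adjacent to `v`, `y₁ ∈ H₁` adjacent to `x₁`, `z₁ ∈ H₁` adjacent to `y₁` and not to `v`, on the side of `x₁`:
otherwise `P = N(v) ∩ H₁` together with its neighbours in `H₁` is closed in `S`, so it contains `x₀`, impossible.
There are `b ∈ H₂` adjacent to `v` and `w ∈ H₂` adjacent to `b` (`hiso`).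
(1) If `b' ∈ H₂` is adjacent to `v` then `w` is adjacent to `b'`: otherwise `IsS G v b' b w x₁ y₁ z₁`. The same holds for all pairs, so all
neighbours of `v` in `H₂` have the same neighbours in `H₂`.
(2) If `x, y, z ∈ H₁`, `v ~ x ~ y ~ z`, `v ≁ z` then `y` is adjacent to all `x' ∈ N(v) ∩ H₁`: otherwise `IsS G v x' b w x y z`.
(3) If `x, y, y', z ∈ H₁`, `v ~ x ~ y`, `x ~ y' ~ z`, `v ≁ z` then `y ~ z`: otherwise `IsS G x y y' z v b w`.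
Let `L₁ = N(v) ∩ H₁`, `L₂` the neighbours of `L₁` in `H₁`, `L₃` the neighbours of `L₂` in `H₁` not adjacent to `v`. By (2) and (3), with
`y₁, z₁`: `L₁` is complete to `L₂` (for `y ∈ L₂`, `y ~ x ∈ L₁`: `x ~ y₁` by (2), `y ~ z₁` by (3), so (2) applies to `y`), and `L₂` is complete to
`L₃` by (3). Let `B₁ = N(v) ∩ H₂`, `B₂` the neighbours of `B₁` in `H₂`; `B₁` is complete to `B₂` by (1).
Apply `grow` to the set `M₁ = H₁ ∪ {v} ∪ B₁ ∪ B₂` and `N = B₂ ∪ B₁ ∪ {v} ∪ L₁ ∪ L₂` with the classes `1, 2, 3, 4, 5`: the classes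
`< 5` are closed in `M₁`. We get `N₁', k₁, c₁`. Apply `grow` to `M₂ = H₂ ∪ {v} ∪ L₁ ∪ L₂ ∪ L₃`, `N = L₃ ∪ L₂ ∪ L₁ ∪ {v} ∪ B₁` with the classes
`1, ..., 5`: `N₂', k₂, c₂`. `N₁' ∪ N₂'` is closed in `M`, so it is `M` (`Conn G M`). With
`c u = c₁ u - 3 + (k₂ - 3)`... that is: `c u = k₂ - 4 + (c₁ u - 3)` for `u ∈ H₁`, `c v = k₂ - 3`, hence for `u ∈ H₁`: `c u = c₁ u + k₂ - 6`,
and `c u = k₂ + 1 - c₂ u` for `u ∈ H₂ ∪ {v}` (check: `c₂ v = 4` gives `k₂ - 3`; `c₁ v = 3` gives `k₂ - 3`; so for `u ∈ H₁`: `c u = c₁ u + k₂ - 6`).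
`k = k₁ + k₂ - 6 ≥ 6`: `k₂ ≥ 6` since `w ∈ B₂` has class `6` in the second, `k₁ ≥ 6` since `z₁` has class `6` in the first.
-/

set_option autoImplicit false

namespace Pool.Agent.H68.CW

variable {V : Type}

open Classical in
/-- five consecutive sets form a blow-up of a path -/
theorem LemOne_five {G : SimpleGraph V} {A₁ A₂ A₃ A₄ A₅ : Set V}
    (n₁ : A₁.Nonempty) (n₂ : A₂.Nonempty) (n₃ : A₃.Nonempty) (n₄ : A₄.Nonempty) (n₅ : A₅.Nonempty)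
    (e12 : ∀ u ∈ A₁, ∀ w ∈ A₂, G.Adj u w) (e23 : ∀ u ∈ A₂, ∀ w ∈ A₃, G.Adj u w)
    (e34 : ∀ u ∈ A₃, ∀ w ∈ A₄, G.Adj u w) (e45 : ∀ u ∈ A₄, ∀ w ∈ A₅, G.Adj u w)
    (f11 : ∀ u ∈ A₁, ∀ w ∈ A₁, ¬ G.Adj u w) (f22 : ∀ u ∈ A₂, ∀ w ∈ A₂, ¬ G.Adj u w)
    (f33 : ∀ u ∈ A₃, ∀ w ∈ A₃, ¬ G.Adj u w) (f44 : ∀ u ∈ A₄, ∀ w ∈ A₄, ¬ G.Adj u w)
    (f55 : ∀ u ∈ A₅, ∀ w ∈ A₅, ¬ G.Adj u w) (f13 : ∀ u ∈ A₁, ∀ w ∈ A₃, ¬ G.Adj u w)
    (f14 : ∀ u ∈ A₁, ∀ w ∈ A₄, ¬ G.Adj u w) (f15 : ∀ u ∈ A₁, ∀ w ∈ A₅, ¬ G.Adj u w)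
    (f24 : ∀ u ∈ A₂, ∀ w ∈ A₄, ¬ G.Adj u w) (f25 : ∀ u ∈ A₂, ∀ w ∈ A₅, ¬ G.Adj u w)
    (f35 : ∀ u ∈ A₃, ∀ w ∈ A₅, ¬ G.Adj u w) :
    ∃ c : V → ℕ, PathBl G (A₁ ∪ A₂ ∪ A₃ ∪ A₄ ∪ A₅) 5 c ∧ (∀ u ∈ A₁, c u = 1) ∧
      (∀ u ∈ A₂, c u = 2) ∧ (∀ u ∈ A₃, c u = 3) ∧ (∀ u ∈ A₄, c u = 4) ∧ (∀ u ∈ A₅, c u = 5) := by
  obtain ⟨a₁, ha₁⟩ := n₁
  obtain ⟨a₂, ha₂⟩ := n₂
  obtain ⟨a₃, ha₃⟩ := n₃
  obtain ⟨a₄, ha₄⟩ := n₄
  obtain ⟨a₅, ha₅⟩ := n₅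
  have d12 : ∀ u ∈ A₂, u ∉ A₁ := fun u h2 h1 => G.loopless.irrefl u (e12 u h1 u h2)
  have d13 : ∀ u ∈ A₃, u ∉ A₁ := fun u h2 h1 => f14 u h1 a₄ ha₄ (e34 u h2 a₄ ha₄)
  have d14 : ∀ u ∈ A₄, u ∉ A₁ := fun u h2 h1 => f15 u h1 a₅ ha₅ (e45 u h2 a₅ ha₅)
  have d15 : ∀ u ∈ A₅, u ∉ A₁ := fun u h2 h1 => f25 a₂ ha₂ u h2 (e12 u h1 a₂ ha₂).symm
  have d23 : ∀ u ∈ A₃, u ∉ A₂ := fun u h2 h1 => G.loopless.irrefl u (e23 u h1 u h2)
  have d24 : ∀ u ∈ A₄, u ∉ A₂ := fun u h2 h1 => f25 u h1 a₅ ha₅ (e45 u h2 a₅ ha₅)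
  have d25 : ∀ u ∈ A₅, u ∉ A₂ := fun u h2 h1 => f15 a₁ ha₁ u h2 (e12 a₁ ha₁ u h1)
  have d34 : ∀ u ∈ A₄, u ∉ A₃ := fun u h2 h1 => G.loopless.irrefl u (e34 u h1 u h2)
  have d35 : ∀ u ∈ A₅, u ∉ A₃ := fun u h2 h1 => f25 a₂ ha₂ u h2 (e23 a₂ ha₂ u h1)
  have d45 : ∀ u ∈ A₅, u ∉ A₄ := fun u h2 h1 => G.loopless.irrefl u (e45 u h1 u h2)
  set c : V → ℕ := fun u => if u ∈ A₁ then 1 else if u ∈ A₂ then 2 else if u ∈ A₃ then 3 else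
    if u ∈ A₄ then 4 else 5 with hc
  have c1 : ∀ u ∈ A₁, c u = 1 := fun u h => by simp [hc, h]
  have c2 : ∀ u ∈ A₂, c u = 2 := fun u h => by simp [hc, h, d12 u h]
  have c3 : ∀ u ∈ A₃, c u = 3 := fun u h => by simp [hc, h, d13 u h, d23 u h]
  have c4 : ∀ u ∈ A₄, c u = 4 := fun u h => by simp [hc, h, d14 u h, d24 u h, d34 u h]
  have c5 : ∀ u ∈ A₅, c u = 5 := fun u h => by simp [hc, d15 u h, d25 u h, d35 u h, d45 u h]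
  clear_value c
  refine ⟨c, ⟨?_, ?_, ?_⟩, c1, c2, c3, c4, c5⟩
  · rintro u ((((hu | hu) | hu) | hu) | hu)
    · rw [c1 u hu]; omega
    · rw [c2 u hu]; omega
    · rw [c3 u hu]; omega
    · rw [c4 u hu]; omega
    · rw [c5 u hu]; omega
  · intro i h1 h5
    interval_cases i
    · exact ⟨a₁, Or.inl (Or.inl (Or.inl (Or.inl ha₁))), c1 _ ha₁⟩
    · exact ⟨a₂, Or.inl (Or.inl (Or.inl (Or.inr ha₂))), c2 _ ha₂⟩
    · exact ⟨a₃, Or.inl (Or.inl (Or.inr ha₃)), c3 _ ha₃⟩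
    · exact ⟨a₄, Or.inl (Or.inr ha₄), c4 _ ha₄⟩
    · exact ⟨a₅, Or.inr ha₅, c5 _ ha₅⟩
  · rintro u ((((hu | hu) | hu) | hu) | hu) w ((((hw | hw) | hw) | hw) | hw)
    · rw [c1 u hu, c1 w hw]; simp [f11 u hu w hw]
    · rw [c1 u hu, c2 w hw]; simp [e12 u hu w hw]
    · rw [c1 u hu, c3 w hw]; simp [f13 u hu w hw]
    · rw [c1 u hu, c4 w hw]; simp [f14 u hu w hw]
    · rw [c1 u hu, c5 w hw]; simp [f15 u hu w hw]
    · rw [c2 u hu, c1 w hw]; simp [(e12 w hw u hu).symm]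
    · rw [c2 u hu, c2 w hw]; simp [f22 u hu w hw]
    · rw [c2 u hu, c3 w hw]; simp [e23 u hu w hw]
    · rw [c2 u hu, c4 w hw]; simp [f24 u hu w hw]
    · rw [c2 u hu, c5 w hw]; simp [f25 u hu w hw]
    · rw [c3 u hu, c1 w hw, G.adj_comm]; simp [f13 w hw u hu]
    · rw [c3 u hu, c2 w hw]; simp [(e23 w hw u hu).symm]
    · rw [c3 u hu, c3 w hw]; simp [f33 u hu w hw]
    · rw [c3 u hu, c4 w hw]; simp [e34 u hu w hw]
    · rw [c3 u hu, c5 w hw]; simp [f35 u hu w hw]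
    · rw [c4 u hu, c1 w hw, G.adj_comm]; simp [f14 w hw u hu]
    · rw [c4 u hu, c2 w hw, G.adj_comm]; simp [f24 w hw u hu]
    · rw [c4 u hu, c3 w hw]; simp [(e34 w hw u hu).symm]
    · rw [c4 u hu, c4 w hw]; simp [f44 u hu w hw]
    · rw [c4 u hu, c5 w hw]; simp [e45 u hu w hw]
    · rw [c5 u hu, c1 w hw, G.adj_comm]; simp [f15 w hw u hu]
    · rw [c5 u hu, c2 w hw, G.adj_comm]; simp [f25 w hw u hu]
    · rw [c5 u hu, c3 w hw, G.adj_comm]; simp [f35 w hw u hu]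
    · rw [c5 u hu, c4 w hw]; simp [(e45 w hw u hu).symm]
    · rw [c5 u hu, c5 w hw]; simp [f55 u hu w hw]

theorem LemOne_side {a b c : Bool} (h1 : a ≠ b) (h2 : b ≠ c) : a = c := by
  revert h1 h2
  cases a <;> cases b <;> cases c <;> simp

theorem LemOne_Bip_mono {G : SimpleGraph V} {side : V → Bool} {M N : Set V} (hb : Bip G side M)
    (h : N ⊆ M) : Bip G side N := fun u hu v hv => hb u (h hu) v (h hv)

theorem LemOne_FreeS_mono {G : SimpleGraph V} {M N : Set V} (hb : FreeS G M)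
    (h : N ⊆ M) : FreeS G N := fun a ha b hb' c hc d hd e he f hf g hg =>
  hb a (h ha) b (h hb') c (h hc) d (h hd) e (h he) f (h hf) g (h hg)

theorem LemOne_core {G : SimpleGraph V} {side : V → Bool} {M : Set V} (hM : M.Finite)
    (hb : Bip G side M) (hS : FreeS G M) {v : V} (hv : v ∈ M) (hc : Conn G M) {H₁ H₂ : Set V}
    (hH₁ : H₁ ⊆ M) (hH₂ : H₂ ⊆ M) (hv₁ : v ∉ H₁) (hv₂ : v ∉ H₂)
    (hdis : ∀ u ∈ H₁, u ∉ H₂)
    (hcov : ∀ u ∈ M, u ∈ H₁ ∨ u = v ∨ u ∈ H₂) (hno : ∀ x ∈ H₁, ∀ y ∈ H₂, ¬ G.Adj x y)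
    {x₁ y₁ z₁ b w : V} (hx₁ : x₁ ∈ H₁) (hy₁ : y₁ ∈ H₁) (hz₁ : z₁ ∈ H₁) (hbm : b ∈ H₂) (hw : w ∈ H₂)
    (avx : G.Adj v x₁) (axy : G.Adj x₁ y₁) (ayz : G.Adj y₁ z₁) (nvz : ¬ G.Adj v z₁)
    (avb : G.Adj v b) (abw : G.Adj b w) : ∃ k c, 6 ≤ k ∧ PathBl G M k c := by
  -- sides
  have same : ∀ x ∈ M, ∀ y ∈ M, side x = side y → ¬ G.Adj x y := fun x hx y hy h ha =>
    hb x hx y hy ha h
  have hno' : ∀ y ∈ H₂, ∀ x ∈ H₁, ¬ G.Adj y x := fun y hy x hx h => hno x hx y hy h.symm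
  -- a neighbour of a neighbour is on the same side
  have two : ∀ x ∈ M, ∀ y ∈ M, ∀ z ∈ M, G.Adj x y → G.Adj y z → side x = side z :=
    fun x hx y hy z hz h1 h2 => LemOne_side (hb x hx y hy h1) (hb y hy z hz h2)
  have hbM := hH₂ hbm
  have hwM := hH₂ hw
  have hsw : side v = side w := two v hv b hbM w hwM avb abw
  have nvw : ¬ G.Adj v w := same v hv w hwM hsw
  -- (1)
  have h1 : ∀ a ∈ H₂, ∀ a' ∈ H₂, ∀ u ∈ H₂, G.Adj v a → G.Adj v a' → G.Adj a u → G.Adj a' u := by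
    intro a ha a' ha' u hu h h' h''
    by_contra hcon
    refine hS v hv a' (hH₂ ha') a (hH₂ ha) u (hH₂ hu) x₁ (hH₁ hx₁) y₁ (hH₁ hy₁) z₁ (hH₁ hz₁)
      ⟨⟨h', h, h'', avx, axy, ayz⟩, ⟨?_, ?_, nvz⟩, ⟨?_, hcon, hno' _ ha' _ hx₁, hno' _ ha' _ hy₁,
        hno' _ ha' _ hz₁⟩, ⟨hno' _ ha _ hx₁, hno' _ ha _ hy₁, hno' _ ha _ hz₁⟩,
        ⟨hno' _ hu _ hx₁, hno' _ hu _ hy₁, hno' _ hu _ hz₁⟩, ?_⟩
    · exact same v hv u (hH₂ hu) (two v hv a (hH₂ ha) u (hH₂ hu) h h'')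
    · exact same v hv y₁ (hH₁ hy₁) (two v hv x₁ (hH₁ hx₁) y₁ (hH₁ hy₁) avx axy)
    · exact same _ (hH₂ ha') _ (hH₂ ha) (two _ (hH₂ ha') v hv _ (hH₂ ha) h'.symm h)
    · exact same _ (hH₁ hx₁) _ (hH₁ hz₁) (two _ (hH₁ hx₁) _ (hH₁ hy₁) _ (hH₁ hz₁) axy ayz)
  -- (2)
  have h2 : ∀ x ∈ H₁, ∀ y ∈ H₁, ∀ z ∈ H₁, G.Adj v x → G.Adj x y → G.Adj y z → ¬ G.Adj v z →
      ∀ x' ∈ H₁, G.Adj v x' → G.Adj x' y := by
    intro x hx y hy z hz a1 a2 a3 a4 x' hx' a5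
    by_contra hcon
    refine hS v hv x' (hH₁ hx') b hbM w hwM x (hH₁ hx) y (hH₁ hy) z (hH₁ hz)
      ⟨⟨a5, avb, abw, a1, a2, a3⟩, ⟨nvw, ?_, a4⟩, ⟨hno _ hx' _ hbm, hno _ hx' _ hw, ?_, hcon, ?_⟩,
        ⟨hno' _ hbm _ hx, hno' _ hbm _ hy, hno' _ hbm _ hz⟩,
        ⟨hno' _ hw _ hx, hno' _ hw _ hy, hno' _ hw _ hz⟩, ?_⟩
    · exact same v hv y (hH₁ hy) (two v hv x (hH₁ hx) y (hH₁ hy) a1 a2)
    · exact same _ (hH₁ hx') _ (hH₁ hx) (two _ (hH₁ hx') v hv _ (hH₁ hx) a5.symm a1)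
    · refine same _ (hH₁ hx') _ (hH₁ hz) ?_
      rw [two _ (hH₁ hx') v hv _ (hH₁ hx) a5.symm a1]
      exact two _ (hH₁ hx) _ (hH₁ hy) _ (hH₁ hz) a2 a3
    · exact same _ (hH₁ hx) _ (hH₁ hz) (two _ (hH₁ hx) _ (hH₁ hy) _ (hH₁ hz) a2 a3)
  -- (3)
  have h3 : ∀ x ∈ H₁, ∀ y ∈ H₁, ∀ y' ∈ H₁, ∀ z ∈ H₁, G.Adj v x → G.Adj x y → G.Adj x y' →
      G.Adj y' z → ¬ G.Adj v z → G.Adj y z := by
    intro x hx y hy y' hy' z hz a1 a2 a3 a4 a5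
    by_contra hcon
    refine hS x (hH₁ hx) y (hH₁ hy) y' (hH₁ hy') z (hH₁ hz) v hv b hbM w hwM
      ⟨⟨a2, a3, a4, a1.symm, avb, abw⟩, ⟨?_, hno _ hx _ hbm, hno _ hx _ hw⟩,
        ⟨?_, hcon, ?_, hno _ hy _ hbm, hno _ hy _ hw⟩, ⟨?_, hno _ hy' _ hbm, hno _ hy' _ hw⟩,
        ⟨fun h => a5 h.symm, hno _ hz _ hbm, hno _ hz _ hw⟩, nvw⟩
    · exact same _ (hH₁ hx) _ (hH₁ hz) (two _ (hH₁ hx) _ (hH₁ hy') _ (hH₁ hz) a3 a4)
    · exact same _ (hH₁ hy) _ (hH₁ hy') (two _ (hH₁ hy) _ (hH₁ hx) _ (hH₁ hy') a2.symm a3)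
    · exact same _ (hH₁ hy) _ hv (two _ (hH₁ hy) _ (hH₁ hx) _ hv a2.symm a1.symm)
    · exact same _ (hH₁ hy') _ hv (two _ (hH₁ hy') _ (hH₁ hx) _ hv a3.symm a1.symm)
  -- the sets
  set L₁ : Set V := {u | u ∈ H₁ ∧ G.Adj v u} with hL₁
  set L₂ : Set V := {u | u ∈ H₁ ∧ ∃ x ∈ L₁, G.Adj x u} with hL₂
  set L₃ : Set V := {u | u ∈ H₁ ∧ ¬ G.Adj v u ∧ ∃ y ∈ L₂, G.Adj y u} with hL₃
  set B₁ : Set V := {u | u ∈ H₂ ∧ G.Adj v u} with hB₁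
  set B₂ : Set V := {u | u ∈ H₂ ∧ ∃ x ∈ B₁, G.Adj x u} with hB₂
  have L₁H : L₁ ⊆ H₁ := fun u hu => hu.1
  have L₂H : L₂ ⊆ H₁ := fun u hu => hu.1
  have L₃H : L₃ ⊆ H₁ := fun u hu => hu.1
  have B₁H : B₁ ⊆ H₂ := fun u hu => hu.1
  have B₂H : B₂ ⊆ H₂ := fun u hu => hu.1
  have mx₁ : x₁ ∈ L₁ := ⟨hx₁, avx⟩
  have my₁ : y₁ ∈ L₂ := ⟨hy₁, x₁, mx₁, axy⟩
  have mz₁ : z₁ ∈ L₃ := ⟨hz₁, nvz, y₁, my₁, ayz⟩
  have mb : b ∈ B₁ := ⟨hbm, avb⟩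
  have mw : w ∈ B₂ := ⟨hw, b, mb, abw⟩
  have sL₁ : ∀ u ∈ L₁, side v ≠ side u := fun u hu => hb v hv u (hH₁ hu.1) hu.2
  have sB₁ : ∀ u ∈ B₁, side v ≠ side u := fun u hu => hb v hv u (hH₂ hu.1) hu.2
  have sL₂ : ∀ u ∈ L₂, side v = side u := by
    rintro u ⟨hu, x, hx, hxu⟩
    exact LemOne_side (sL₁ x hx) (hb x (hH₁ hx.1) u (hH₁ hu) hxu)
  have sB₂ : ∀ u ∈ B₂, side v = side u := by
    rintro u ⟨hu, x, hx, hxu⟩
    exact LemOne_side (sB₁ x hx) (hb x (hH₂ hx.1) u (hH₂ hu) hxu)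
  have sL₃ : ∀ u ∈ L₃, side v ≠ side u := by
    rintro u ⟨hu, -, y, hy, hyu⟩
    rw [sL₂ y hy]
    exact hb y (hH₁ hy.1) u (hH₁ hu) hyu
  have ne2 : ∀ p q : V, side v ≠ side p → side v ≠ side q → side p = side q := fun p q h h' =>
    LemOne_side h.symm h'
  -- completeness
  have hxy : ∀ x ∈ L₁, G.Adj x y₁ := fun x hx => h2 x₁ hx₁ y₁ hy₁ z₁ hz₁ avx axy ayz nvz x hx.1 hx.2
  have cL12 : ∀ x ∈ L₁, ∀ y ∈ L₂, G.Adj x y := by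
    rintro x' hx' y ⟨hy, x, hx, hxy'⟩
    have g1 : G.Adj y z₁ := h3 x hx.1 y hy y₁ hy₁ z₁ hz₁ hx.2 hxy' (hxy x hx) ayz nvz
    exact h2 x hx.1 y hy z₁ hz₁ hx.2 hxy' g1 nvz x' hx'.1 hx'.2
  have cL23 : ∀ y ∈ L₂, ∀ z ∈ L₃, G.Adj y z := by
    rintro y hy z ⟨hz, hvz, y', hy', hyz⟩
    exact h3 x₁ hx₁ y hy.1 y' hy'.1 z hz avx (cL12 _ mx₁ _ hy) (cL12 _ mx₁ _ hy') hyz hvz
  have cB12 : ∀ x ∈ B₁, ∀ y ∈ B₂, G.Adj x y := by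
    rintro x hx y ⟨hy, x', hx', hxy'⟩
    exact h1 x' hx'.1 x hx.1 y hy hx'.2 hx.2 hxy'
  -- first blow-up
  obtain ⟨c₁, hP₁, p1, p2, p3, p4, p5⟩ := LemOne_five (G := G) (A₁ := B₂) (A₂ := B₁) (A₃ := {v})
    (A₄ := L₁) (A₅ := L₂) ⟨w, mw⟩ ⟨b, mb⟩ ⟨v, rfl⟩ ⟨x₁, mx₁⟩ ⟨y₁, my₁⟩
    (fun u hu x hx => (cB12 x hx u hu).symm) (fun u hu x hx => by rw [hx]; exact hu.2.symm)
    (fun u hu x hx => by rw [hu]; exact hx.2) cL12
    (fun u hu x hx => same _ (hH₂ hu.1) _ (hH₂ hx.1) ((sB₂ u hu).symm.trans (sB₂ x hx)))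
    (fun u hu x hx => same _ (hH₂ hu.1) _ (hH₂ hx.1) (ne2 _ _ (sB₁ u hu) (sB₁ x hx)))
    (fun u hu x hx => by rw [hu, hx]; exact G.loopless.irrefl v)
    (fun u hu x hx => same _ (hH₁ hu.1) _ (hH₁ hx.1) (ne2 _ _ (sL₁ u hu) (sL₁ x hx)))
    (fun u hu x hx => same _ (hH₁ hu.1) _ (hH₁ hx.1) ((sL₂ u hu).symm.trans (sL₂ x hx)))
    (fun u hu x hx => by rw [hx]; exact same _ (hH₂ hu.1) _ hv (sB₂ u hu).symm)
    (fun u hu x hx => hno' _ hu.1 _ hx.1) (fun u hu x hx => hno' _ hu.1 _ hx.1)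
    (fun u hu x hx => hno' _ hu.1 _ hx.1) (fun u hu x hx => hno' _ hu.1 _ hx.1)
    (fun u hu x hx => by rw [hu]; exact same _ hv _ (hH₁ hx.1) (sL₂ x hx))
  obtain ⟨c₂, hP₂, q1, q2, q3, q4, q5⟩ := LemOne_five (G := G) (A₁ := L₃) (A₂ := L₂) (A₃ := L₁)
    (A₄ := {v}) (A₅ := B₁) ⟨z₁, mz₁⟩ ⟨y₁, my₁⟩ ⟨x₁, mx₁⟩ ⟨v, rfl⟩ ⟨b, mb⟩
    (fun u hu x hx => (cL23 x hx u hu).symm) (fun u hu x hx => (cL12 x hx u hu).symm)
    (fun u hu x hx => by rw [hx]; exact hu.2.symm)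
    (fun u hu x hx => by rw [hu]; exact hx.2)
    (fun u hu x hx => same _ (hH₁ hu.1) _ (hH₁ hx.1) (ne2 _ _ (sL₃ u hu) (sL₃ x hx)))
    (fun u hu x hx => same _ (hH₁ hu.1) _ (hH₁ hx.1) ((sL₂ u hu).symm.trans (sL₂ x hx)))
    (fun u hu x hx => same _ (hH₁ hu.1) _ (hH₁ hx.1) (ne2 _ _ (sL₁ u hu) (sL₁ x hx)))
    (fun u hu x hx => by rw [hu, hx]; exact G.loopless.irrefl v)
    (fun u hu x hx => same _ (hH₂ hu.1) _ (hH₂ hx.1) (ne2 _ _ (sB₁ u hu) (sB₁ x hx)))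
    (fun u hu x hx => same _ (hH₁ hu.1) _ (hH₁ hx.1) (ne2 _ _ (sL₃ u hu) (sL₁ x hx)))
    (fun u hu x hx => by rw [hx]; exact fun h => hu.2.1 h.symm)
    (fun u hu x hx => hno _ hu.1 _ hx.1)
    (fun u hu x hx => by rw [hx]; exact same _ (hH₁ hu.1) _ hv (sL₂ u hu).symm)
    (fun u hu x hx => hno _ hu.1 _ hx.1) (fun u hu x hx => hno _ hu.1 _ hx.1)
  -- growing
  set M₁ : Set V := H₁ ∪ {v} ∪ B₁ ∪ B₂ with hM₁
  set M₂ : Set V := H₂ ∪ {v} ∪ L₁ ∪ L₂ ∪ L₃ with hM₂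
  have M₁M : M₁ ⊆ M := by
    rintro u (((hu | hu) | hu) | hu)
    · exact hH₁ hu
    · rw [hu]; exact hv
    · exact hH₂ hu.1
    · exact hH₂ hu.1
  have M₂M : M₂ ⊆ M := by
    rintro u ((((hu | hu) | hu) | hu) | hu)
    · exact hH₂ hu
    · rw [hu]; exact hv
    · exact hH₁ hu.1
    · exact hH₁ hu.1
    · exact hH₁ hu.1
  obtain ⟨N₁, k₁, d₁, N₁sub, N₁M, hk₁, hPN₁, hd₁, hcl₁⟩ := grow (hM.subset M₁M)
    (LemOne_Bip_mono hb M₁M) (LemOne_FreeS_mono hS M₁M)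
    (N := B₂ ∪ B₁ ∪ {v} ∪ L₁ ∪ L₂) (by
      rintro u ((((hu | hu) | hu) | hu) | hu)
      · exact Or.inr hu
      · exact Or.inl (Or.inr hu)
      · exact Or.inl (Or.inl (Or.inr hu))
      · exact Or.inl (Or.inl (Or.inl hu.1))
      · exact Or.inl (Or.inl (Or.inl hu.1))) (le_refl 5) hP₁ (by
      rintro u hu hcu x (((hx | hx) | hx) | hx) hux
      · -- x in H₁
        rcases hu with ((((hu | hu) | hu) | hu) | hu)
        · exact absurd hux (hno' _ hu.1 _ hx)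
        · exact absurd hux (hno' _ hu.1 _ hx)
        · rw [hu] at hux
          exact Or.inl (Or.inr ⟨hx, hux⟩)
        · exact Or.inr ⟨hx, u, hu, hux⟩
        · rw [p5 u hu] at hcu; omega
      · exact Or.inl (Or.inl (Or.inr hx))
      · exact Or.inl (Or.inl (Or.inl (Or.inr hx)))
      · exact Or.inl (Or.inl (Or.inl (Or.inl hx))))
  obtain ⟨N₂, k₂, d₂, N₂sub, N₂M, hk₂, hPN₂, hd₂, hcl₂⟩ := grow (hM.subset M₂M)
    (LemOne_Bip_mono hb M₂M) (LemOne_FreeS_mono hS M₂M)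
    (N := L₃ ∪ L₂ ∪ L₁ ∪ {v} ∪ B₁) (by
      rintro u ((((hu | hu) | hu) | hu) | hu)
      · exact Or.inr hu
      · exact Or.inl (Or.inr hu)
      · exact Or.inl (Or.inl (Or.inr hu))
      · exact Or.inl (Or.inl (Or.inl (Or.inr hu)))
      · exact Or.inl (Or.inl (Or.inl (Or.inl hu.1)))) (le_refl 5) hP₂ (by
      rintro u hu hcu x ((((hx | hx) | hx) | hx) | hx) hux
      · -- x in H₂
        rcases hu with ((((hu | hu) | hu) | hu) | hu)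
        · exact absurd hux (hno _ hu.1 _ hx)
        · exact absurd hux (hno _ hu.1 _ hx)
        · exact absurd hux (hno _ hu.1 _ hx)
        · rw [hu] at hux
          exact Or.inr ⟨hx, hux⟩
        · rw [q5 u hu] at hcu; omega
      · exact Or.inl (Or.inr hx)
      · exact Or.inl (Or.inl (Or.inr hx))
      · exact Or.inl (Or.inl (Or.inl (Or.inr hx)))
      · exact Or.inl (Or.inl (Or.inl (Or.inl hx))))
  -- values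
  have vN₁ : v ∈ N₁ := N₁sub (Or.inl (Or.inl (Or.inr rfl)))
  have vN₂ : v ∈ N₂ := N₂sub (Or.inl (Or.inr rfl))
  have L₁N₁ : L₁ ⊆ N₁ := fun u hu => N₁sub (Or.inl (Or.inr hu))
  have L₂N₁ : L₂ ⊆ N₁ := fun u hu => N₁sub (Or.inr hu)
  have B₁N₁ : B₁ ⊆ N₁ := fun u hu => N₁sub (Or.inl (Or.inl (Or.inl (Or.inr hu))))
  have B₂N₁ : B₂ ⊆ N₁ := fun u hu => N₁sub (Or.inl (Or.inl (Or.inl (Or.inl hu))))
  have L₁N₂ : L₁ ⊆ N₂ := fun u hu => N₂sub (Or.inl (Or.inl (Or.inr hu)))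
  have L₂N₂ : L₂ ⊆ N₂ := fun u hu => N₂sub (Or.inl (Or.inl (Or.inl (Or.inr hu))))
  have L₃N₂ : L₃ ⊆ N₂ := fun u hu => N₂sub (Or.inl (Or.inl (Or.inl (Or.inl hu))))
  have B₁N₂ : B₁ ⊆ N₂ := fun u hu => N₂sub (Or.inr hu)
  have L₃N₁ : L₃ ⊆ N₁ := by
    rintro u ⟨hu, -, y, hy, hyu⟩
    exact hcl₁ y (L₂N₁ hy) u (Or.inl (Or.inl (Or.inl hu))) hyu
  have B₂N₂ : B₂ ⊆ N₂ := by
    rintro u ⟨hu, y, hy, hyu⟩
    exact hcl₂ y (B₁N₂ hy) u (Or.inl (Or.inl (Or.inl (Or.inl hu)))) hyu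
  have dv : d₁ v = 3 := by rw [hd₁ v (Or.inl (Or.inl (Or.inr rfl)))]; exact p3 v rfl
  have db : ∀ u ∈ B₁, d₁ u = 2 := fun u hu => by
    rw [hd₁ u (Or.inl (Or.inl (Or.inl (Or.inr hu))))]; exact p2 u hu
  have dw : ∀ u ∈ B₂, d₁ u = 1 := fun u hu => by
    rw [hd₁ u (Or.inl (Or.inl (Or.inl (Or.inl hu))))]; exact p1 u hu
  have dy : d₁ y₁ = 5 := by rw [hd₁ y₁ (Or.inr my₁)]; exact p5 _ my₁
  have ev : d₂ v = 4 := by rw [hd₂ v (Or.inl (Or.inr rfl))]; exact q4 v rfl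
  have eb : d₂ b = 5 := by rw [hd₂ b (Or.inr mb)]; exact q5 _ mb
  have eL₁ : ∀ u ∈ L₁, d₂ u = 3 := fun u hu => by
    rw [hd₂ u (Or.inl (Or.inl (Or.inr hu)))]; exact q3 u hu
  have eL₂ : ∀ u ∈ L₂, d₂ u = 2 := fun u hu => by
    rw [hd₂ u (Or.inl (Or.inl (Or.inl (Or.inr hu))))]; exact q2 u hu
  have eL₃ : ∀ u ∈ L₃, d₂ u = 1 := fun u hu => by
    rw [hd₂ u (Or.inl (Or.inl (Or.inl (Or.inl hu))))]; exact q1 u hu
  have H₂N₁ : ∀ u ∈ H₂, u ∈ N₁ → u ∈ B₁ ∨ u ∈ B₂ := by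
    intro u hu hN
    rcases N₁M hN with (((h | h) | h) | h)
    · exact absurd hu (hdis u h)
    · rw [h] at hu; exact absurd hu hv₂
    · exact Or.inl h
    · exact Or.inr h
  have H₁N₂ : ∀ u ∈ H₁, u ∈ N₂ → u ∈ L₁ ∨ u ∈ L₂ ∨ u ∈ L₃ := by
    intro u hu hN
    rcases N₂M hN with ((((h | h) | h) | h) | h)
    · exact absurd h (hdis u hu)
    · rw [h] at hu; exact absurd hu hv₁
    · exact Or.inl h
    · exact Or.inr (Or.inl h)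
    · exact Or.inr (Or.inr h)
  -- the union is everything
  have hclo : ∀ u ∈ N₁ ∪ N₂, ∀ x ∈ M, G.Adj u x → x ∈ N₁ ∪ N₂ := by
    -- members of N₁ in H₁ or equal to v, members of N₂ in H₂ or equal to v
    have g1 : ∀ u ∈ N₁, u ∈ H₁ → ∀ x ∈ M, G.Adj u x → x ∈ N₁ := by
      intro u hu hu1 x hx hux
      rcases hcov x hx with h | h | h
      · exact hcl₁ u hu x (Or.inl (Or.inl (Or.inl h))) hux
      · rw [h]; exact vN₁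
      · exact absurd hux (hno _ hu1 _ h)
    have g2 : ∀ u ∈ N₂, u ∈ H₂ → ∀ x ∈ M, G.Adj u x → x ∈ N₂ := by
      intro u hu hu1 x hx hux
      rcases hcov x hx with h | h | h
      · exact absurd hux (hno' _ hu1 _ h)
      · rw [h]; exact vN₂
      · exact hcl₂ u hu x (Or.inl (Or.inl (Or.inl (Or.inl h)))) hux
    have g3 : ∀ x ∈ M, G.Adj v x → x ∈ N₁ ∪ N₂ := by
      intro x hx hvx
      rcases hcov x hx with h | h | h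
      · exact Or.inl (L₁N₁ ⟨h, hvx⟩)
      · rw [h]; exact Or.inl vN₁
      · exact Or.inl (B₁N₁ ⟨h, hvx⟩)
    rintro u (hu | hu) x hx hux
    · rcases hcov u (M₁M (N₁M hu)) with h | h | h
      · exact Or.inl (g1 u hu h x hx hux)
      · rw [h] at hux; exact g3 x hx hux
      · have hu2 : u ∈ N₂ := by
          rcases H₂N₁ u h hu with h' | h'
          · exact B₁N₂ h'
          · exact B₂N₂ h'
        exact Or.inr (g2 u hu2 h x hx hux)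
    · rcases hcov u (M₂M (N₂M hu)) with h | h | h
      · have hu1 : u ∈ N₁ := by
          rcases H₁N₂ u h hu with h' | h' | h'
          · exact L₁N₁ h'
          · exact L₂N₁ h'
          · exact L₃N₁ h'
        exact Or.inl (g1 u hu1 h x hx hux)
      · rw [h] at hux; exact g3 x hx hux
      · exact Or.inr (g2 u hu h x hx hux)
  have hall : ∀ u ∈ M, u ∈ N₁ ∪ N₂ := by
    by_contra hcon
    push Not at hcon
    obtain ⟨u, hu, hu'⟩ := hcon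
    obtain ⟨a, ha, x, hx, hx', hax⟩ := hc (N₁ ∪ N₂)
      (Set.union_subset (N₁M.trans M₁M) (N₂M.trans M₂M)) ⟨v, Or.inl vN₁⟩
      (fun h => hu' (by rw [h]; exact hu))
    exact hx' (hclo a ha x hx hax)
  have H₁all : ∀ u ∈ H₁, u ∈ N₁ := by
    intro u hu
    rcases hall u (hH₁ hu) with h | h
    · exact h
    · rcases H₁N₂ u hu h with h' | h' | h'
      · exact L₁N₁ h'
      · exact L₂N₁ h'
      · exact L₃N₁ h'
  have H₂all : ∀ u ∈ H₂, u ∈ N₂ := by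
    intro u hu
    rcases hall u (hH₂ hu) with h | h
    · rcases H₂N₁ u hu h with h' | h'
      · exact B₁N₂ h'
      · exact B₂N₂ h'
    · exact h
  obtain ⟨r1, r2, r3⟩ := hPN₁
  obtain ⟨t1, t2, t3⟩ := hPN₂
  -- lower bounds of the classes
  have low₁ : ∀ u ∈ H₁, 4 ≤ d₁ u := by
    intro u hu
    have hN := H₁all u hu
    have e1 := r1 u hN
    have e2 := r3 u hN b (B₁N₁ mb)
    have e3 := r3 u hN w (B₂N₁ mw)
    rw [db b mb] at e2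
    rw [dw w mw] at e3
    have e4 : ¬ G.Adj u b := hno u hu b hbm
    have e5 : ¬ G.Adj u w := hno u hu w hw
    rw [e2] at e4
    rw [e3] at e5
    omega
  have low₂ : ∀ u ∈ H₂, 5 ≤ d₂ u := by
    intro u hu
    have hN := H₂all u hu
    have e1 := t1 u hN
    have e2 := t3 u hN y₁ (L₂N₂ my₁)
    have e3 := t3 u hN x₁ (L₁N₂ mx₁)
    rw [eL₂ y₁ my₁] at e2
    rw [eL₁ x₁ mx₁] at e3
    have e4 : ¬ G.Adj u y₁ := hno' u hu y₁ hy₁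
    have e5 : ¬ G.Adj u x₁ := hno' u hu x₁ hx₁
    rw [e2] at e4
    rw [e3] at e5
    omega
  have hk₂6 : 6 ≤ k₂ := by
    have e1 := (t3 b (B₁N₂ mb) w (B₂N₂ mw)).1 abw
    have e2 := low₂ w hw
    have e3 := t1 w (B₂N₂ mw)
    rw [eb] at e1
    omega
  have hk₁6 : 6 ≤ k₁ := by
    have e1 := (r3 y₁ (L₂N₁ my₁) z₁ (L₃N₁ mz₁)).1 ayz
    have e2 := low₁ z₁ hz₁
    have e3 := r1 z₁ (L₃N₁ mz₁)
    have e4 := r3 v vN₁ z₁ (L₃N₁ mz₁)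
    have e5 := nvz
    rw [e4, dv] at e5
    rw [dy] at e1
    omega
  classical
  refine ⟨k₁ + k₂ - 6, fun u => if u ∈ H₁ then d₁ u + k₂ - 6 else k₂ + 1 - d₂ u, by omega,
    ?_, ?_, ?_⟩
  · intro u hu
    show 1 ≤ (if u ∈ H₁ then d₁ u + k₂ - 6 else k₂ + 1 - d₂ u) ∧
      (if u ∈ H₁ then d₁ u + k₂ - 6 else k₂ + 1 - d₂ u) ≤ k₁ + k₂ - 6
    rcases hcov u hu with h | h | h
    · rw [if_pos h]
      have e1 := low₁ u h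
      have e2 := r1 u (H₁all u h)
      omega
    · rw [if_neg (by rw [h]; exact hv₁), h, ev]
      omega
    · rw [if_neg fun h' => hdis u h' h]
      have e1 := low₂ u h
      have e2 := t1 u (H₂all u h)
      omega
  · intro i hi1 hi2
    show ∃ u ∈ M, (if u ∈ H₁ then d₁ u + k₂ - 6 else k₂ + 1 - d₂ u) = i
    by_cases hi : i + 3 ≤ k₂
    · obtain ⟨u, hu, hu'⟩ := t2 (k₂ + 1 - i) (by omega) (by omega)
      have huH : u ∉ H₁ := by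
        intro h
        rcases H₁N₂ u h hu with h' | h' | h'
        · rw [eL₁ u h'] at hu'; omega
        · rw [eL₂ u h'] at hu'; omega
        · rw [eL₃ u h'] at hu'; omega
      refine ⟨u, M₂M (N₂M hu), ?_⟩
      rw [if_neg huH, hu']
      omega
    · obtain ⟨u, hu, hu'⟩ := r2 (i + 6 - k₂) (by omega) (by omega)
      have huH : u ∈ H₁ := by
        rcases hcov u (M₁M (N₁M hu)) with h | h | h
        · exact h
        · rw [h, dv] at hu'; omega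
        · rcases H₂N₁ u h hu with h' | h'
          · rw [db u h'] at hu'; omega
          · rw [dw u h'] at hu'; omega
      refine ⟨u, M₁M (N₁M hu), ?_⟩
      rw [if_pos huH, hu']
      omega
  · have key : ∀ u ∈ H₁, ∀ x ∈ M, (x = v ∨ x ∈ H₂) →
        (G.Adj u x ↔ (d₁ u + k₂ - 6 + 1 = k₂ + 1 - d₂ x ∨ k₂ + 1 - d₂ x + 1 = d₁ u + k₂ - 6)) := by
      rintro u hu x hx (h | h)
      · rw [h, r3 u (H₁all u hu) v vN₁, dv, ev]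
        have := low₁ u hu
        omega
      · have e1 := low₁ u hu
        have e2 := low₂ x h
        have e3 := t1 x (H₂all x h)
        constructor
        · intro h'
          exact absurd h' (hno u hu x h)
        · intro h'
          omega
    intro u hu x hx
    show G.Adj u x ↔ ((if u ∈ H₁ then d₁ u + k₂ - 6 else k₂ + 1 - d₂ u) + 1 =
      (if x ∈ H₁ then d₁ x + k₂ - 6 else k₂ + 1 - d₂ x) ∨
      (if x ∈ H₁ then d₁ x + k₂ - 6 else k₂ + 1 - d₂ x) + 1 =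
      (if u ∈ H₁ then d₁ u + k₂ - 6 else k₂ + 1 - d₂ u))
    have hcase : ∀ y ∈ M, y ∉ H₁ → y = v ∨ y ∈ H₂ := fun y hy h => (hcov y hy).resolve_left h
    have hN₂ : ∀ y ∈ M, y ∉ H₁ → y ∈ N₂ := by
      intro y hy h
      rcases hcase y hy h with h' | h'
      · rw [h']; exact vN₂
      · exact H₂all y h'
    by_cases hu1 : u ∈ H₁ <;> by_cases hx1 : x ∈ H₁
    · rw [if_pos hu1, if_pos hx1, r3 u (H₁all u hu1) x (H₁all x hx1)]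
      have := low₁ u hu1
      have := low₁ x hx1
      omega
    · rw [if_pos hu1, if_neg hx1]
      exact key u hu1 x hx (hcase x hx hx1)
    · rw [if_neg hu1, if_pos hx1, G.adj_comm, key x hx1 u hu (hcase u hu hu1)]
      exact or_comm
    · rw [if_neg hu1, if_neg hx1, t3 u (hN₂ u hu hu1) x (hN₂ x hx hx1)]
      have := t1 u (hN₂ u hu hu1)
      have := t1 x (hN₂ x hx hx1)
      omega

theorem lemma_one {G : SimpleGraph V} {side : V → Bool} {M : Set V} (hM : M.Finite)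
    (hb : Bip G side M) (hS : FreeS G M) {v : V} (hv : v ∈ M) (hc : Conn G M)
    (hiso : ∀ x ∈ M \ {v}, ∃ y ∈ M \ {v}, G.Adj x y) (hd : ¬ Conn G (M \ {v}))
    (hn : ∃ x ∈ M, side x ≠ side v ∧ ¬ G.Adj v x) : ∃ k c, 6 ≤ k ∧ PathBl G M k c := by
  obtain ⟨x₀, hx₀, hsx, nvx⟩ := hn
  have hx₀S : x₀ ∈ M \ {v} := ⟨hx₀, fun h => hsx (by rw [h])⟩
  set H₁ : Set V := {u | ∀ A : Set V, A ⊆ M \ {v} → x₀ ∈ A →
    (∀ a ∈ A, ∀ b ∈ M \ {v}, G.Adj a b → b ∈ A) → u ∈ A} with hH₁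
  have hH₁S : H₁ ⊆ M \ {v} := fun u hu => hu _ (le_refl _) hx₀S fun _ _ b hb _ => hb
  have hx₀H : x₀ ∈ H₁ := fun A _ h _ => h
  have hclo : ∀ a ∈ H₁, ∀ b ∈ M \ {v}, G.Adj a b → b ∈ H₁ := by
    intro a ha b hb' hab A hA h1 h2
    exact h2 a (ha A hA h1 h2) b hb' hab
  have hmin : ∀ A : Set V, A ⊆ M \ {v} → x₀ ∈ A →
      (∀ a ∈ A, ∀ b ∈ M \ {v}, G.Adj a b → b ∈ A) → H₁ ⊆ A := fun A h1 h2 h3 u hu => hu A h1 h2 h3
  set H₂ : Set V := (M \ {v}) \ H₁ with hH₂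
  have hno : ∀ x ∈ H₁, ∀ y ∈ H₂, ¬ G.Adj x y := fun x hx y hy h => hy.2 (hclo x hx y hy.1 h)
  have hH₂ne : H₂.Nonempty := by
    by_contra hcon
    rw [Set.not_nonempty_iff_eq_empty] at hcon
    have hall : ∀ u ∈ M \ {v}, u ∈ H₁ := by
      intro u hu
      by_contra h
      have : u ∈ H₂ := ⟨hu, h⟩
      rw [hcon] at this
      exact this
    apply hd
    intro A hA hne hneq
    by_contra hno2
    push Not at hno2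
    by_cases hxA : x₀ ∈ A
    · apply hneq
      refine Set.Subset.antisymm hA ?_
      intro u hu
      refine hmin A hA hxA ?_ (hall u hu)
      intro a ha b hb' hab
      by_contra h
      exact hno2 a ha b hb' h hab
    · obtain ⟨a, ha⟩ := hne
      have h1 : H₁ ⊆ (M \ {v}) \ A := by
        refine hmin _ Set.sdiff_subset ⟨hx₀S, hxA⟩ ?_
        intro p hp q hq hpq
        refine ⟨hq, fun hqA => ?_⟩
        exact hno2 q hqA p hp.1 hp.2 hpq.symm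
      exact (h1 (hall a (hA ha))).2 ha
  have hcov : ∀ u ∈ M, u ∈ H₁ ∨ u = v ∨ u ∈ H₂ := by
    intro u hu
    by_cases h1 : u = v
    · exact Or.inr (Or.inl h1)
    · by_cases h2 : u ∈ H₁
      · exact Or.inl h2
      · exact Or.inr (Or.inr ⟨⟨hu, h1⟩, h2⟩)
  have hH₁M : H₁ ⊆ M := fun u hu => (hH₁S hu).1
  have hH₂M : H₂ ⊆ M := fun u hu => hu.1.1
  have hv₁ : v ∉ H₁ := fun h => (hH₁S h).2 rfl
  have hv₂ : v ∉ H₂ := fun h => h.1.2 rfl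
  -- neighbours of v
  obtain ⟨b, hbH, avb⟩ : ∃ b ∈ H₂, G.Adj v b := by
    obtain ⟨a, ha, x, hx, hx', hax⟩ := hc H₂ hH₂M hH₂ne (fun h => hv₂ (by rw [h]; exact hv))
    rcases hcov x hx with h | h | h
    · exact absurd hax.symm (hno x h a ha)
    · rw [h] at hax
      exact ⟨a, ha, hax.symm⟩
    · exact absurd h hx'
  obtain ⟨p, hpH, avp⟩ : ∃ b ∈ H₁, G.Adj v b := by
    obtain ⟨a, ha, x, hx, hx', hax⟩ := hc H₁ hH₁M ⟨x₀, hx₀H⟩ (fun h => hv₁ (by rw [h]; exact hv))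
    rcases hcov x hx with h | h | h
    · exact absurd h hx'
    · rw [h] at hax
      exact ⟨a, ha, hax.symm⟩
    · exact absurd hax (hno a ha x h)
  obtain ⟨w, hwH, abw⟩ : ∃ w ∈ H₂, G.Adj b w := by
    obtain ⟨y, hy, hby⟩ := hiso b hbH.1
    refine ⟨y, ⟨hy, fun h => hno y h b hbH hby.symm⟩, hby⟩
  -- (0)
  obtain ⟨x₁, hx₁, y₁, hy₁, z₁, hz₁, avx, axy, ayz, nvz⟩ : ∃ x ∈ H₁, ∃ y ∈ H₁, ∃ z ∈ H₁,
      G.Adj v x ∧ G.Adj x y ∧ G.Adj y z ∧ ¬ G.Adj v z := by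
    by_contra hcon
    push Not at hcon
    set Q : Set V := {u | u ∈ H₁ ∧ (G.Adj v u ∨ ∃ x ∈ H₁, G.Adj v x ∧ G.Adj x u)} with hQ
    have hQclo : ∀ a ∈ Q, ∀ b ∈ M \ {v}, G.Adj a b → b ∈ Q := by
      rintro a ⟨ha, h | ⟨x, hx, hvx, hxa⟩⟩ b' hb' hab
      · exact ⟨hclo a ha b' hb' hab, Or.inr ⟨a, ha, h, hab⟩⟩
      · exact ⟨hclo a ha b' hb' hab, Or.inl (hcon x hx a ha b' (hclo a ha b' hb' hab) hvx hxa hab)⟩
    have hx₀Q : x₀ ∈ Q := by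
      by_contra hnot
      have h1 : H₁ ⊆ H₁ \ Q := by
        refine hmin _ (Set.sdiff_subset.trans hH₁S) ⟨hx₀H, hnot⟩ ?_
        intro a ha b' hb' hab
        refine ⟨hclo a ha.1 b' hb' hab, fun hbQ => ?_⟩
        exact ha.2 (hQclo b' hbQ a (hH₁S ha.1) hab.symm)
      exact (h1 hpH).2 ⟨hpH, Or.inl avp⟩
    rcases hx₀Q.2 with h | ⟨x, hx, hvx, hxx⟩
    · exact nvx h
    · exact hsx (LemOne_side (hb x₀ hx₀ x (hH₁M hx) hxx.symm) (hb x (hH₁M hx) v hv hvx.symm))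
  exact LemOne_core hM hb hS hv hc hH₁M hH₂M hv₁ hv₂ (fun u hu h => h.2 hu) hcov hno hx₁ hy₁ hz₁ hbH
    hwH avx axy ayz nvz avb abw

end Pool.Agent.H68.CW
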