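import Pool.Agent.H68.CW.LemTwoU

/-!
L2C. One more vertex, cycles.

Proof of `lemma_two_cyc`. `k` is even (`G` is bipartite), so `k ≥ 8`. `k = 8`: `list8_cyc`; `v` is a twin of a class. `k ≥ 10`: let `v ~ p a`. The vertices
`q i = p ((a + 5 + i) % k)`, `1 ≤ i ≤ k - 1`, form an induced path with `k - 1 ≥ 9` vertices, the missing vertex `p ((a + 5) % k)` is on the side of `v`.
`path_nbrs`: `p a = q (k - 5)`, so `v` has a neighbour `q j` with `3 ≤ j ≤ k - 3`; therefore the first alternative holds, with `i ≠ 1, k - 1`, and `v` is a twin of a class.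
-/

set_option autoImplicit false

namespace Pool.Agent.H68.CW

variable {V : Type} {G : SimpleGraph V} {side : V → Bool} {M : Set V}

private theorem modk (k s x y : ℕ) :
    ((s + x) % k + 1) % k = (s + y) % k ↔ (x + 1) % k = y % k := by
  rw [Nat.mod_add_mod, Nat.add_assoc]
  exact ⟨fun h => Nat.ModEq.add_left_cancel' s h, fun h => Nat.ModEq.add_left s h⟩

private theorem exists_shift {k a j : ℕ} (hk : 7 ≤ k) (ha : a < k) (hj : j < k) :
    ∃ i, i < k ∧ (a + 5 + i) % k = j := by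
  refine ⟨(j + 2 * k - (a + 5)) % k, Nat.mod_lt _ (by omega), ?_⟩
  rw [Nat.add_mod_mod]
  have h1 : a + 5 + (j + 2 * k - (a + 5)) = j + k * 2 := by omega
  rw [h1, Nat.add_mul_mod_self_left]
  exact Nat.mod_eq_of_lt hj

/-- the neighbours of `v` on a long cycle -/
private theorem cyc_nbrs (hS : FreeS G M) {k : ℕ} (hk : 8 ≤ k) (hke : k % 2 = 0) (p : ℕ → V)
    (hp : ∀ i, i < k → p i ∈ M)
    (hadj : ∀ i j, i < k → j < k → (G.Adj (p i) (p j) ↔ ((i + 1) % k = j ∨ (j + 1) % k = i)))
    {v : V} (hv : v ∈ M) (e : ℕ) (he : e < 2) (hpar : ∀ i, i < k → G.Adj v (p i) → i % 2 = e)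
    (hex : ∃ i, i < k ∧ i % 2 = e ∧ G.Adj v (p i)) (hne : ∃ i, i < k ∧ i % 2 = e ∧ ¬ G.Adj v (p i)) :
    ∃ i, i < k ∧ ∀ j, j < k → (G.Adj v (p j) ↔ ((i + 1) % k = j ∨ (j + 1) % k = i)) := by
  by_cases h8 : k = 8
  · subst h8
    exact list8_cyc hS p hp hadj hv e he hpar hex hne
  have hk10 : 10 ≤ k := by omega
  obtain ⟨a, ha, hae, hva⟩ := hex
  have hk0 : 0 < k := by omega
  have hm2 : ∀ x, x % k % 2 = x % 2 := fun x =>
    Nat.mod_mod_of_dvd x (Nat.dvd_of_mod_eq_zero hke)
  have hlt : ∀ x, x % k < k := fun x => Nat.mod_lt x hk0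
  have hka : (a + 5 + (k - 5)) % k = a := by
    have h1 : a + 5 + (k - 5) = a + k := by omega
    rw [h1, Nat.add_mod_right]
    exact Nat.mod_eq_of_lt ha
  -- congruences
  have hsm : ∀ i j, 1 ≤ i → i ≤ k - 1 → 1 ≤ j → j ≤ k - 1 →
      (((a + 5 + i) % k + 1) % k = (a + 5 + j) % k ↔ i + 1 = j) := by
    intro i j hi1 hik hj1 hjk
    rw [modk k (a + 5) i j, Nat.mod_eq_of_lt (show j < k by omega)]
    rcases Nat.lt_or_ge (i + 1) k with h | h
    · rw [Nat.mod_eq_of_lt h]
    · have h2 : i + 1 = k := by omega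
      rw [h2, Nat.mod_self]
      omega
  have hmain := path_nbrs hS (k := k - 1) (by omega) (fun i => p ((a + 5 + i) % k))
    (fun i _ _ => hp _ (hlt _))
    (by
      intro i j hi1 hik hj1 hjk
      rw [hadj _ _ (hlt _) (hlt _), hsm i j hi1 hik hj1 hjk, hsm j i hj1 hjk hi1 hik])
    hv 1
    (by
      intro i _ _ hvi
      have h1 := hpar _ (hlt _) hvi
      rw [hm2] at h1
      omega)
    (by
      obtain ⟨j, hj, hje, hvj⟩ := hne
      obtain ⟨i, hi, hij⟩ := exists_shift (by omega) ha hj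
      have h1 : i % 2 = 1 := by
        have h2 := hm2 (a + 5 + i)
        rw [hij] at h2
        omega
      refine ⟨i, by omega, by omega, by omega, ?_⟩
      rw [hij]
      exact hvj)
  beta_reduce at hmain
  have hadv : G.Adj v (p ((a + 5 + (k - 5)) % k)) := by
    rw [hka]
    exact hva
  have hl1 : 1 ≤ k - 5 := by omega
  have hl2 : k - 5 ≤ k - 1 := by omega
  rcases hmain with h | h | h | h | h
  · obtain ⟨i, hi1, hik, hi⟩ := h
    have hi5 := (hi _ hl1 hl2).1 hadv
    refine ⟨(a + 5 + i) % k, hlt _, ?_⟩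
    intro j hj
    obtain ⟨j', hj', hjj⟩ := exists_shift (by omega) ha hj
    rcases Nat.eq_zero_or_pos j' with h0 | h0
    · subst h0
      constructor
      · intro hvj
        exfalso
        have h1 := hpar _ hj hvj
        have h2 := hm2 (a + 5 + 0)
        rw [hjj] at h2
        omega
      · intro hh
        exfalso
        rcases hh with hh | hh
        · rw [← hjj, modk, Nat.zero_mod, Nat.mod_eq_of_lt (show i + 1 < k by omega)] at hh
          omega
        · rw [← hjj, modk, Nat.mod_eq_of_lt (show i < k by omega),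
            Nat.mod_eq_of_lt (show 0 + 1 < k by omega)] at hh
          omega
    · rw [← hjj, hi j' h0 (by omega), hsm i j' hi1 hik h0 (by omega), hsm j' i h0 (by omega) hi1 hik]
  · exact absurd ((h _ hl1 hl2).1 hadv) (by omega)
  · exact absurd ((h _ hl1 hl2).1 hadv) (by omega)
  · exact absurd ((h _ hl1 hl2).1 hadv) (by omega)
  · exact absurd hadv (h _ hl1 hl2)

theorem lemma_two_cyc (hb : Bip G side M) (hS : FreeS G M) {v : V} (hv : v ∈ M) {k : ℕ}
    {c : V → ℕ} (hk : 7 ≤ k) (hP : CycBl G (M \ {v}) k c)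
    (hn1 : ∃ x ∈ M, x ≠ v ∧ side x ≠ side v ∧ G.Adj v x)
    (hn2 : ∃ x ∈ M, x ≠ v ∧ side x ≠ side v ∧ ¬ G.Adj v x) : PC G M := by
  classical
  obtain ⟨hc1, hc2, hc3⟩ := hP
  have hP' : CycBl G (M \ {v}) k c := ⟨hc1, hc2, hc3⟩
  have hk0 : 0 < k := by omega
  have hlt : ∀ x, x % k < k := fun x => Nat.mod_lt x hk0
  have : Nonempty V := ⟨v⟩
  choose! p hp hcp using hc2
  have hpM : ∀ i, i < k → p i ∈ M := fun i hi => (hp i hi).1
  have hadj : ∀ i j, i < k → j < k →
      (G.Adj (p i) (p j) ↔ ((i + 1) % k = j ∨ (j + 1) % k = i)) := by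
    intro i j hi hj
    rw [hc3 _ (hp i hi) _ (hp j hj), hcp i hi, hcp j hj]
  -- sides alternate
  have hside : ∀ x ∈ M \ {v}, side x ≠ side (p ((c x + 1) % k)) := by
    intro x hx
    refine hb x hx.1 _ (hpM _ (hlt _)) ?_
    rw [hc3 x hx _ (hp _ (hlt _)), hcp _ (hlt _)]
    exact Or.inl rfl
  have hsidep : ∀ i, i < k → side (p i) ≠ side (p ((i + 1) % k)) := by
    intro i hi
    have h1 := hside (p i) (hp i hi)
    rw [hcp i hi] at h1
    exact h1
  have hsx : ∀ x ∈ M \ {v}, side x = side (p (c x)) := by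
    intro x hx
    have h1 := hside x hx
    have h2 := hsidep (c x) (hc1 x hx)
    revert h1 h2
    cases side x <;> cases side (p (c x)) <;> cases side (p ((c x + 1) % k)) <;> simp
  have hsi : ∀ i, i < k → (side (p i) = side (p 0) ↔ i % 2 = 0) := by
    intro i
    induction i with
    | zero => intro _; simp
    | succ n ih =>
      intro hn
      have h1 := ih (by omega)
      have h2 := hsidep n (by omega)
      rw [Nat.mod_eq_of_lt hn] at h2
      have h3 : side (p (n + 1)) = side (p 0) ↔ ¬ (side (p n) = side (p 0)) := by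
        revert h2
        cases side (p n) <;> cases side (p (n + 1)) <;> cases side (p 0) <;> simp
      rw [h3, h1]
      omega
  have hke : k % 2 = 0 := by
    have h1 := hsidep (k - 1) (by omega)
    have h2 : (k - 1 + 1) % k = 0 := by
      rw [Nat.sub_add_cancel (by omega)]
      exact Nat.mod_self k
    rw [h2] at h1
    have h3 := hsi (k - 1) (by omega)
    have h4 : ¬ ((k - 1) % 2 = 0) := fun h => h1 (h3.2 h)
    omega
  have hk8 : 8 ≤ k := by omega
  have hu := class_unif_cyc hb hS hv hk8 hP'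
  have hux : ∀ x ∈ M \ {v}, (G.Adj v x ↔ G.Adj v (p (c x))) := by
    intro x hx
    refine hu x hx _ (hp _ (hc1 x hx)) ?_
    rw [hcp _ (hc1 x hx)]
  -- the parity of the other side
  obtain ⟨e, he, hse⟩ : ∃ e, e < 2 ∧ ∀ i, i < k → (side (p i) ≠ side v ↔ i % 2 = e) := by
    by_cases h0 : side (p 0) = side v
    · refine ⟨1, by omega, fun i hi => ?_⟩
      rw [← h0, Ne, hsi i hi]
      omega
    · refine ⟨0, by omega, fun i hi => ?_⟩
      rw [← hsi i hi]
      revert h0
      cases side (p i) <;> cases side (p 0) <;> cases side v <;> simp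
  have hpar : ∀ i, i < k → G.Adj v (p i) → i % 2 = e := fun i hi hvi =>
    (hse i hi).1 (hb v hv _ (hpM i hi) hvi).symm
  have hex : ∃ i, i < k ∧ i % 2 = e ∧ G.Adj v (p i) := by
    obtain ⟨x, hxM, hxv, _, hvx⟩ := hn1
    have hx : x ∈ M \ {v} := ⟨hxM, hxv⟩
    have h1 := (hux x hx).1 hvx
    exact ⟨c x, hc1 x hx, hpar _ (hc1 x hx) h1, h1⟩
  have hne : ∃ i, i < k ∧ i % 2 = e ∧ ¬ G.Adj v (p i) := by
    obtain ⟨x, hxM, hxv, hsv, hvx⟩ := hn2
    have hx : x ∈ M \ {v} := ⟨hxM, hxv⟩
    refine ⟨c x, hc1 x hx, ?_, fun h => hvx ((hux x hx).2 h)⟩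
    rw [← hse _ (hc1 x hx), ← hsx x hx]
    exact hsv
  obtain ⟨i, hi, hvi⟩ := cyc_nbrs hS hk8 hke p hpM hadj hv e he hpar hex hne
  have hii : (i + 1) % k ≠ i := by
    rcases Nat.lt_or_ge (i + 1) k with h | h
    · rw [Nat.mod_eq_of_lt h]
      omega
    · have h2 : i + 1 = k := by omega
      rw [h2, Nat.mod_self]
      omega
  have hvx : ∀ x ∈ M \ {v}, (G.Adj v x ↔ ((i + 1) % k = c x ∨ (c x + 1) % k = i)) := by
    intro x hx
    rw [hux x hx, hvi _ (hc1 x hx)]
  refine ⟨k, fun u => if u = v then i else c u, hk, Or.inr ⟨?_, ?_, ?_⟩⟩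
  · intro u hu'
    beta_reduce
    by_cases huv : u = v
    · rw [if_pos huv]
      exact hi
    · rw [if_neg huv]
      exact hc1 u ⟨hu', huv⟩
  · intro j hj
    refine ⟨p j, hpM j hj, ?_⟩
    beta_reduce
    have hjv : ¬ (p j = v) := (hp j hj).2
    rw [if_neg hjv]
    exact hcp j hj
  · intro u hu' w hw'
    beta_reduce
    by_cases huv : u = v
    · by_cases hwv : w = v
      · rw [if_pos huv, if_pos hwv, huv, hwv]
        constructor
        · intro h
          exact absurd h G.irrefl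
        · rintro (h | h)
          · exact absurd h hii
          · exact absurd h hii
      · rw [if_pos huv, if_neg hwv, huv]
        exact hvx w ⟨hw', hwv⟩
    · by_cases hwv : w = v
      · rw [if_neg huv, if_pos hwv, hwv, G.adj_comm, hvx u ⟨hu', huv⟩]
        exact Or.comm
      · rw [if_neg huv, if_neg hwv]
        exact hc3 u ⟨hu', huv⟩ w ⟨hw', hwv⟩

end Pool.Agent.H68.CW
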