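import Pool.Agent.H68.CW.PFin

/-!
L2A. Neighbours of a vertex on a long induced path.

Proof of `path_nbrs`. Let `A = {i : v ~ p i}`; all elements of `A` have the parity of `e`. A window is a set of 8 consecutive indices in
`[1, k]`; by `list8_odd`, `list8_even` (applied to `fun i => p (s + i)`; which one depends on the parity of `s`), in a window `A` is one of:
all indices of the right parity; nothing; `{i, i + 2}`; the first index of the right parity only; the last one only.
(1) In no window is `A` everything: consecutive windows share three indices of the right parity, so otherwise all windows would be full and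
`A` would be all indices of the right parity, against `hne`.
(2) So if `i ∈ A` and `3 ≤ i ≤ k - 2` then exactly one of `i - 2`, `i + 2` is in `A`, and `A` has at most two elements in each window.
(3) Let `i < j` be consecutive elements of `A` with `j ≥ i + 4`. Then `j ≥ i + 8` (otherwise there is a window containing both `i, j`,
and not of the allowed form). If `i ≥ 2`: `IsS G (p i) (p (i - 1)) v (p j) (p (i + 1)) (p (i + 2)) (p (i + 3))` (`i + 2 ∉ A`): contradiction, so `i = 1`.
By symmetry (`IsS G (p j) (p (j + 1)) v (p i) (p (j - 1)) (p (j - 2)) (p (j - 3))`), `j = k`. So `A = {1, k}`.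
(4) If there are no such `i, j`, `A` is an interval for the step 2, with at most two elements by (2): `∅`, `{i, i + 2}` (twin of `i + 1`),
`{i}`, and in the last case `i ∈ {1, 2, k - 1, k}` by (2): `{2}` is a twin of `1`, `{k - 1}` a twin of `k`.
-/

set_option autoImplicit false

namespace Pool.Agent.H68.CW

variable {V : Type} {G : SimpleGraph V} {M : Set V}

private theorem comb_nbrs (k e : ℕ) (hk : 8 ≤ k) (a : ℕ → Prop)
    (hpar : ∀ i, 1 ≤ i → i ≤ k → a i → i % 2 = e % 2)
    (hw : ∀ r, 1 ≤ r → r % 2 = e % 2 → r + 6 ≤ k →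
      (¬ a r ∧ ¬ a (r + 2) ∧ a (r + 4) ∧ a (r + 6)) ∨
      (¬ a r ∧ ¬ a (r + 2) ∧ ¬ a (r + 4) ∧ a (r + 6)) ∨
      (¬ a r ∧ a (r + 2) ∧ a (r + 4) ∧ ¬ a (r + 6)) ∨
      (a r ∧ a (r + 2) ∧ ¬ a (r + 4) ∧ ¬ a (r + 6)) ∨
      (a r ∧ ¬ a (r + 2) ∧ ¬ a (r + 4) ∧ ¬ a (r + 6)) ∨
      (¬ a r ∧ ¬ a (r + 2) ∧ ¬ a (r + 4) ∧ ¬ a (r + 6)))
    (h1 : ∀ i j, 2 ≤ i → i + 5 ≤ j → j ≤ k → a i → ¬ a (i + 2) → ¬ a j)
    (h2 : ∀ i j, 1 ≤ i → i + 3 ≤ j → j + 3 ≤ k → a (j + 2) → ¬ a j → ¬ a i) :
    (∃ i, 1 ≤ i ∧ i ≤ k ∧ ∀ j, 1 ≤ j → j ≤ k → (a j ↔ (i + 1 = j ∨ j + 1 = i))) ∨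
      (∀ j, 1 ≤ j → j ≤ k → (a j ↔ j = 1)) ∨
      (∀ j, 1 ≤ j → j ≤ k → (a j ↔ j = k)) ∨
      (∀ j, 1 ≤ j → j ≤ k → (a j ↔ (j = 1 ∨ j = k))) ∨
      (∀ j, 1 ≤ j → j ≤ k → ¬ a j) := by
  classical
  by_cases h0 : ∃ i, 1 ≤ i ∧ i ≤ k ∧ a i
  swap
  · exact Or.inr (Or.inr (Or.inr (Or.inr (fun j hj hj' h => h0 ⟨j, hj, hj', h⟩))))
  have hne : ((Finset.Icc 1 k).filter a).Nonempty := by
    obtain ⟨i, hi, hi', ha⟩ := h0
    exact ⟨i, Finset.mem_filter.2 ⟨Finset.mem_Icc.2 ⟨hi, hi'⟩, ha⟩⟩
  obtain ⟨x, hx1, hxk, hxa, hmin⟩ : ∃ x, 1 ≤ x ∧ x ≤ k ∧ a x ∧ ∀ j, 1 ≤ j → j ≤ k → a j → x ≤ j := by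
    have hm := Finset.min'_mem _ hne
    have hm' := Finset.mem_filter.1 hm
    have hm'' := Finset.mem_Icc.1 hm'.1
    exact ⟨_, hm''.1, hm''.2, hm'.2, fun j hj hj' h =>
      Finset.min'_le _ _ (Finset.mem_filter.2 ⟨Finset.mem_Icc.2 ⟨hj, hj'⟩, h⟩)⟩
  obtain ⟨y, hy1, hyk, hya, hmax⟩ : ∃ y, 1 ≤ y ∧ y ≤ k ∧ a y ∧ ∀ j, 1 ≤ j → j ≤ k → a j → j ≤ y := by
    have hm := Finset.max'_mem _ hne
    have hm' := Finset.mem_filter.1 hm
    have hm'' := Finset.mem_Icc.1 hm'.1
    exact ⟨_, hm''.1, hm''.2, hm'.2, fun j hj hj' h =>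
      Finset.le_max' _ _ (Finset.mem_filter.2 ⟨Finset.mem_Icc.2 ⟨hj, hj'⟩, h⟩)⟩
  have hxy : x ≤ y := hmin y hy1 hyk hya
  have hxe := hpar x hx1 hxk hxa
  have hye := hpar y hy1 hyk hya
  by_cases c1 : x = y
  · -- a single element
    subst c1
    have hu : ∀ j, 1 ≤ j → j ≤ k → a j → j = x := fun j hj hj' h =>
      le_antisymm (hmax j hj hj' h) (hmin j hj hj' h)
    have hiff : ∀ j, 1 ≤ j → j ≤ k → (a j ↔ j = x) := fun j hj hj' =>
      ⟨hu j hj hj', fun h => h ▸ hxa⟩
    have hpos : x = 1 ∨ x = 2 ∨ x = k - 1 ∨ x = k := by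
      by_contra hcon
      have hx3 : 3 ≤ x := by omega
      have hxk2 : x + 2 ≤ k := by omega
      by_cases hc : x + 4 ≤ k
      · obtain ⟨r, rfl⟩ : ∃ r, x = r + 2 := ⟨x - 2, by omega⟩
        rcases hw r (by omega) (by omega) (by omega) with h | h | h | h | h | h
        · exact h.2.1 hxa
        · exact h.2.1 hxa
        · have := hu _ (by omega) (by omega) h.2.2.1
          omega
        · have := hu _ (by omega) (by omega) h.1
          omega
        · exact h.2.1 hxa
        · exact h.2.1 hxa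
      · obtain ⟨r, rfl⟩ : ∃ r, x = r + 4 := ⟨x - 4, by omega⟩
        rcases hw r (by omega) (by omega) (by omega) with h | h | h | h | h | h
        · have := hu _ (by omega) (by omega) h.2.2.2
          omega
        · exact h.2.2.1 hxa
        · have := hu _ (by omega) (by omega) h.2.1
          omega
        · exact h.2.2.1 hxa
        · exact h.2.2.1 hxa
        · exact h.2.2.1 hxa
    rcases hpos with h | h | h | h
    · right; left
      intro j hj hj'
      rw [hiff j hj hj', h]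
    · left
      refine ⟨1, le_refl _, by omega, fun j hj hj' => ?_⟩
      rw [hiff j hj hj', h]
      omega
    · left
      refine ⟨k, by omega, le_refl _, fun j hj hj' => ?_⟩
      rw [hiff j hj hj', h]
      omega
    · right; right; left
      intro j hj hj'
      rw [hiff j hj hj', h]
  by_cases c2 : y = x + 2
  · left
    refine ⟨x + 1, by omega, by omega, fun j hj hj' => ?_⟩
    constructor
    · intro h
      have e1 := hmin j hj hj' h
      have e2 := hmax j hj hj' h
      have e3 := hpar j hj hj' h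
      omega
    · intro h
      rcases h with h | h
      · have : j = y := by omega
        exact this ▸ hya
      · have : j = x := by omega
        exact this ▸ hxa
  have hxy4 : x + 4 ≤ y := by omega
  -- the elements at the distance 4 or 6 are excluded
  have key : ∀ i j, 1 ≤ i → j ≤ k → a i → a j → (j = i + 4 ∨ j = i + 6) → False := by
    intro i j hi hj hai haj hij
    have hie := hpar i hi (by omega) hai
    by_cases hc : i + 6 ≤ k
    · rcases hw i hi hie hc with h | h | h | h | h | h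
      · exact h.1 hai
      · exact h.1 hai
      · exact h.1 hai
      · rcases hij with rfl | rfl
        · exact h.2.2.1 haj
        · exact h.2.2.2 haj
      · rcases hij with rfl | rfl
        · exact h.2.2.1 haj
        · exact h.2.2.2 haj
      · exact h.1 hai
    · have hj4 : j = i + 4 := by omega
      subst hj4
      obtain ⟨r, rfl⟩ : ∃ r, i = r + 2 := ⟨i - 2, by omega⟩
      rcases hw r (by omega) (by omega) (by omega) with h | h | h | h | h | h
      · exact h.2.1 hai
      · exact h.2.1 hai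
      · exact h.2.2.2 haj
      · exact h.2.2.2 haj
      · exact h.2.1 hai
      · exact h.2.1 hai
  have hxy8 : x + 8 ≤ y := by
    rcases Nat.lt_or_ge y (x + 8) with h | h
    · exact absurd (by omega : y = x + 4 ∨ y = x + 6) (fun h => key x y hx1 hyk hxa hya h)
    · exact h
  have hx2 : ¬ a (x + 2) := by
    intro h
    have h4 : ¬ a (x + 2 + 2) := fun h' => key x (x + 2 + 2) hx1 (by omega) hxa h' (Or.inl (by omega))
    exact h1 (x + 2) y (by omega) (by omega) hyk h h4 hya
  have hxone : x = 1 := by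
    by_contra hcon
    exact h1 x y (by omega) (by omega) hyk hxa hx2 hya
  obtain ⟨z, rfl⟩ : ∃ z, y = z + 2 := ⟨y - 2, by omega⟩
  have hy2 : ¬ a z := by
    intro h
    obtain ⟨z', rfl⟩ : ∃ z', z = z' + 2 := ⟨z - 2, by omega⟩
    have h4 : ¬ a z' := fun h' => key z' (z' + 2 + 2) (by omega) (by omega) h' hya (Or.inl (by omega))
    exact h2 x z' hx1 (by omega) (by omega) h h4 hxa
  have hyone : z + 2 = k := by
    by_contra hcon
    exact h2 x z hx1 (by omega) (by omega) hya hy2 hxa
  right; right; right; left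
  intro j hj hj'
  constructor
  · intro hja
    by_contra hcon
    -- the smallest element after x
    have hex : ∃ j, x < j ∧ j < k ∧ a j := ⟨j, by omega, by omega, hja⟩
    obtain ⟨hw1, hw2, hw3⟩ := Nat.find_spec hex
    set w := Nat.find hex with hwdef
    have hwmin : ∀ j, j < w → ¬ (x < j ∧ j < k ∧ a j) := fun j hj => Nat.find_min hex hj
    have hwe := hpar w (by omega) (by omega) hw3
    have hwx : w ≠ x + 2 := fun h => hx2 (h ▸ hw3)
    have hw8 : x + 8 ≤ w := by
      rcases Nat.lt_or_ge w (x + 8) with h | h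
      · exact absurd (by omega : w = x + 4 ∨ w = x + 6)
          (fun h => key x w hx1 (by omega) hxa hw3 h)
      · exact h
    obtain ⟨u, hu⟩ : ∃ u, w = u + 2 := ⟨w - 2, by omega⟩
    have hnu : ¬ a u := fun h => hwmin u (by omega) ⟨by omega, by omega, h⟩
    exact h2 x u hx1 (by omega) (by omega) (hu ▸ hw3) hnu hxa
  · intro h
    rcases h with h | h
    · have : j = x := by omega
      exact this ▸ hxa
    · have : j = z + 2 := by omega
      exact this ▸ hya

theorem path_nbrs (hS : FreeS G M) {k : ℕ} (hk : 8 ≤ k) (p : ℕ → V)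
    (hp : ∀ i, 1 ≤ i → i ≤ k → p i ∈ M)
    (hadj : ∀ i j, 1 ≤ i → i ≤ k → 1 ≤ j → j ≤ k → (G.Adj (p i) (p j) ↔ (i + 1 = j ∨ j + 1 = i)))
    {v : V} (hv : v ∈ M) (e : ℕ) (hpar : ∀ i, 1 ≤ i → i ≤ k → G.Adj v (p i) → i % 2 = e % 2)
    (hne : ∃ i, 1 ≤ i ∧ i ≤ k ∧ i % 2 = e % 2 ∧ ¬ G.Adj v (p i)) :
    (∃ i, 1 ≤ i ∧ i ≤ k ∧ ∀ j, 1 ≤ j → j ≤ k → (G.Adj v (p j) ↔ (i + 1 = j ∨ j + 1 = i))) ∨
      (∀ j, 1 ≤ j → j ≤ k → (G.Adj v (p j) ↔ j = 1)) ∨
      (∀ j, 1 ≤ j → j ≤ k → (G.Adj v (p j) ↔ j = k)) ∨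
      (∀ j, 1 ≤ j → j ≤ k → (G.Adj v (p j) ↔ (j = 1 ∨ j = k))) ∨
      (∀ j, 1 ≤ j → j ≤ k → ¬ G.Adj v (p j)) := by
  -- windows
  have hwin : ∀ r, 1 ≤ r → r % 2 = e % 2 → r + 6 ≤ k →
      (G.Adj v (p r) ∧ G.Adj v (p (r + 2)) ∧ G.Adj v (p (r + 4)) ∧ G.Adj v (p (r + 6))) ∨
      (¬ G.Adj v (p r) ∧ ¬ G.Adj v (p (r + 2)) ∧ G.Adj v (p (r + 4)) ∧ G.Adj v (p (r + 6))) ∨
      (¬ G.Adj v (p r) ∧ ¬ G.Adj v (p (r + 2)) ∧ ¬ G.Adj v (p (r + 4)) ∧ G.Adj v (p (r + 6))) ∨
      (¬ G.Adj v (p r) ∧ G.Adj v (p (r + 2)) ∧ G.Adj v (p (r + 4)) ∧ ¬ G.Adj v (p (r + 6))) ∨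
      (G.Adj v (p r) ∧ G.Adj v (p (r + 2)) ∧ ¬ G.Adj v (p (r + 4)) ∧ ¬ G.Adj v (p (r + 6))) ∨
      (G.Adj v (p r) ∧ ¬ G.Adj v (p (r + 2)) ∧ ¬ G.Adj v (p (r + 4)) ∧ ¬ G.Adj v (p (r + 6))) ∨
      (¬ G.Adj v (p r) ∧ ¬ G.Adj v (p (r + 2)) ∧ ¬ G.Adj v (p (r + 4)) ∧ ¬ G.Adj v (p (r + 6))) := by
    intro r hr hre hrk
    by_cases hr1 : r = 1
    · subst hr1
      have h8 := list8_odd (M := M) (G := G) hS p (fun i hi hi' => hp i hi (by omega))
        (fun i j hi hi' hj hj' => hadj i j hi (by omega) hj (by omega)) hv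
        (fun i hi hi' h => by
          have := hpar i hi (by omega) h
          omega)
      simp only [Set.mem_insert_iff, Set.mem_singleton_iff, Prod.mk.injEq, eq_iff_iff, iff_true,
        iff_false] at h8
      exact h8
    · obtain ⟨s, rfl⟩ : ∃ s, r = s + 2 := ⟨r - 2, by omega⟩
      have h8 := list8_even (M := M) (G := G) hS (fun i => p (s + i))
        (fun i hi hi' => hp (s + i) (by omega) (by omega))
        (fun i j hi hi' hj hj' => by
          have := hadj (s + i) (s + j) (by omega) (by omega) (by omega) (by omega)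
          rw [this]
          omega) hv
        (fun i hi hi' h => by
          have := hpar (s + i) (by omega) (by omega) h
          omega)
      simp only [Set.mem_insert_iff, Set.mem_singleton_iff, Prod.mk.injEq, eq_iff_iff, iff_true,
        iff_false] at h8
      exact h8
  -- no full window
  have up : ∀ d r, 1 ≤ r → r % 2 = e % 2 → r + 2 * d + 6 ≤ k →
      (G.Adj v (p r) ∧ G.Adj v (p (r + 2)) ∧ G.Adj v (p (r + 4)) ∧ G.Adj v (p (r + 6))) →
      (G.Adj v (p (r + 2 * d)) ∧ G.Adj v (p (r + 2 * d + 2)) ∧ G.Adj v (p (r + 2 * d + 4)) ∧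
        G.Adj v (p (r + 2 * d + 6))) := by
    intro d
    induction d with
    | zero => intro r _ _ _ h; exact h
    | succ d ih =>
      intro r hr hre hrk h
      have h' := ih r hr hre (by omega) h
      have e1 : r + 2 * (d + 1) = r + 2 * d + 2 := by ring
      rw [e1]
      have e2 : r + 2 * d + 2 + 2 = r + 2 * d + 4 := by ring
      have e3 : r + 2 * d + 2 + 4 = r + 2 * d + 6 := by ring
      have hh := hwin (r + 2 * d + 2) (by omega) (by omega) (by omega)
      rw [e2, e3] at hh ⊢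
      tauto
  have down : ∀ d r, 1 ≤ r → r % 2 = e % 2 → r + 2 * d + 6 ≤ k →
      (G.Adj v (p (r + 2 * d)) ∧ G.Adj v (p (r + 2 * d + 2)) ∧ G.Adj v (p (r + 2 * d + 4)) ∧
        G.Adj v (p (r + 2 * d + 6))) →
      (G.Adj v (p r) ∧ G.Adj v (p (r + 2)) ∧ G.Adj v (p (r + 4)) ∧ G.Adj v (p (r + 6))) := by
    intro d
    induction d with
    | zero => intro r _ _ _ h; exact h
    | succ d ih =>
      intro r hr hre hrk h
      have e1 : r + 2 * (d + 1) = r + 2 * d + 2 := by ring
      rw [e1] at h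
      have e2 : r + 2 * d + 2 + 2 = r + 2 * d + 4 := by ring
      have e3 : r + 2 * d + 2 + 4 = r + 2 * d + 6 := by ring
      rw [e2, e3] at h
      apply ih r hr hre (by omega)
      have hh := hwin (r + 2 * d) (by omega) (by omega) (by omega)
      tauto
  have nofull : ∀ r, 1 ≤ r → r % 2 = e % 2 → r + 6 ≤ k →
      ¬ (G.Adj v (p r) ∧ G.Adj v (p (r + 2)) ∧ G.Adj v (p (r + 4)) ∧ G.Adj v (p (r + 6))) := by
    intro r hr hre hrk hfull
    obtain ⟨i, hi, hik, hie, hni⟩ := hne
    -- a window containing i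
    obtain ⟨s, hs, hse, hsk, hsi⟩ : ∃ s, 1 ≤ s ∧ s % 2 = e % 2 ∧ s + 6 ≤ k ∧
        (i = s ∨ i = s + 2 ∨ i = s + 4 ∨ i = s + 6) := by
      by_cases hc : i + 6 ≤ k
      · exact ⟨i, hi, hie, hc, Or.inl rfl⟩
      · by_cases hc2 : i + 4 ≤ k
        · exact ⟨i - 2, by omega, by omega, by omega, by omega⟩
        · by_cases hc3 : i + 2 ≤ k
          · exact ⟨i - 4, by omega, by omega, by omega, by omega⟩
          · exact ⟨i - 6, by omega, by omega, by omega, by omega⟩
    have hfs : G.Adj v (p s) ∧ G.Adj v (p (s + 2)) ∧ G.Adj v (p (s + 4)) ∧ G.Adj v (p (s + 6)) := by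
      rcases le_total r s with hrs | hrs
      · obtain ⟨d, hd⟩ : ∃ d, s = r + 2 * d := ⟨(s - r) / 2, by omega⟩
        rw [hd]
        exact up d r hr hre (by omega) hfull
      · obtain ⟨d, hd⟩ : ∃ d, r = s + 2 * d := ⟨(r - s) / 2, by omega⟩
        apply down d s hs hse (by omega)
        rw [← hd]
        exact hfull
    rcases hsi with rfl | rfl | rfl | rfl
    · exact hni hfs.1
    · exact hni hfs.2.1
    · exact hni hfs.2.2.1
    · exact hni hfs.2.2.2
  refine comb_nbrs k e hk (fun i => G.Adj v (p i)) hpar ?_ ?_ ?_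
  · intro r hr hre hrk
    rcases hwin r hr hre hrk with h | h
    · exact absurd h (nofull r hr hre hrk)
    · exact h
  · intro i j hi hij hjk hai hni haj
    have hpi : ∀ l, 1 ≤ l → l ≤ k → l % 2 ≠ i % 2 → ¬ G.Adj v (p l) := by
      intro l hl hl' hne' h
      have e1 := hpar l hl hl' h
      have e2 := hpar i (by omega) (by omega) hai
      omega
    have nadj : ∀ l l', 1 ≤ l → l ≤ k → 1 ≤ l' → l' ≤ k → l + 1 ≠ l' → l' + 1 ≠ l →
        ¬ G.Adj (p l) (p l') := by
      intro l l' h1 h2 h3 h4 h5 h6 h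
      rcases (hadj l l' h1 h2 h3 h4).1 h with h' | h'
      · exact h5 h'
      · exact h6 h'
    refine hS (p i) (hp _ (by omega) (by omega)) (p (i - 1)) (hp _ (by omega) (by omega)) v hv
      (p j) (hp _ (by omega) (by omega)) (p (i + 1)) (hp _ (by omega) (by omega))
      (p (i + 2)) (hp _ (by omega) (by omega)) (p (i + 3)) (hp _ (by omega) (by omega)) ?_
    refine ⟨⟨?_, hai.symm, haj, ?_, ?_, ?_⟩, ⟨?_, ?_, ?_⟩, ⟨?_, ?_, ?_, ?_, ?_⟩, ⟨?_, hni, ?_⟩,
      ⟨?_, ?_, ?_⟩, ?_⟩
    · exact (hadj i (i - 1) (by omega) (by omega) (by omega) (by omega)).2 (by omega)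
    · exact (hadj i (i + 1) (by omega) (by omega) (by omega) (by omega)).2 (by omega)
    · exact (hadj (i + 1) (i + 2) (by omega) (by omega) (by omega) (by omega)).2 (by omega)
    · exact (hadj (i + 2) (i + 3) (by omega) (by omega) (by omega) (by omega)).2 (by omega)
    · exact nadj _ _ (by omega) (by omega) (by omega) (by omega) (by omega) (by omega)
    · exact nadj _ _ (by omega) (by omega) (by omega) (by omega) (by omega) (by omega)
    · exact nadj _ _ (by omega) (by omega) (by omega) (by omega) (by omega) (by omega)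
    · exact fun h => hpi (i - 1) (by omega) (by omega) (by omega) h.symm
    · exact nadj _ _ (by omega) (by omega) (by omega) (by omega) (by omega) (by omega)
    · exact nadj _ _ (by omega) (by omega) (by omega) (by omega) (by omega) (by omega)
    · exact nadj _ _ (by omega) (by omega) (by omega) (by omega) (by omega) (by omega)
    · exact nadj _ _ (by omega) (by omega) (by omega) (by omega) (by omega) (by omega)
    · exact hpi (i + 1) (by omega) (by omega) (by omega)
    · exact hpi (i + 3) (by omega) (by omega) (by omega)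
    · exact nadj _ _ (by omega) (by omega) (by omega) (by omega) (by omega) (by omega)
    · exact nadj _ _ (by omega) (by omega) (by omega) (by omega) (by omega) (by omega)
    · exact nadj _ _ (by omega) (by omega) (by omega) (by omega) (by omega) (by omega)
    · exact nadj _ _ (by omega) (by omega) (by omega) (by omega) (by omega) (by omega)
  · intro i j hi hij hjk haj hnj hai
    have hpi : ∀ l, 1 ≤ l → l ≤ k → l % 2 ≠ j % 2 → ¬ G.Adj v (p l) := by
      intro l hl hl' hne' h
      have e1 := hpar l hl hl' h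
      have e2 := hpar (j + 2) (by omega) (by omega) haj
      omega
    have nadj : ∀ l l', 1 ≤ l → l ≤ k → 1 ≤ l' → l' ≤ k → l + 1 ≠ l' → l' + 1 ≠ l →
        ¬ G.Adj (p l) (p l') := by
      intro l l' h1 h2 h3 h4 h5 h6 h
      rcases (hadj l l' h1 h2 h3 h4).1 h with h' | h'
      · exact h5 h'
      · exact h6 h'
    refine hS (p (j + 2)) (hp _ (by omega) (by omega)) (p (j + 3)) (hp _ (by omega) (by omega)) v hv
      (p i) (hp _ (by omega) (by omega)) (p (j + 1)) (hp _ (by omega) (by omega))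
      (p j) (hp _ (by omega) (by omega)) (p (j - 1)) (hp _ (by omega) (by omega)) ?_
    refine ⟨⟨?_, haj.symm, hai, ?_, ?_, ?_⟩, ⟨?_, ?_, ?_⟩, ⟨?_, ?_, ?_, ?_, ?_⟩, ⟨?_, hnj, ?_⟩,
      ⟨?_, ?_, ?_⟩, ?_⟩
    · exact (hadj (j + 2) (j + 3) (by omega) (by omega) (by omega) (by omega)).2 (by omega)
    · exact (hadj (j + 2) (j + 1) (by omega) (by omega) (by omega) (by omega)).2 (by omega)
    · exact (hadj (j + 1) j (by omega) (by omega) (by omega) (by omega)).2 (by omega)
    · exact (hadj j (j - 1) (by omega) (by omega) (by omega) (by omega)).2 (by omega)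
    · exact nadj _ _ (by omega) (by omega) (by omega) (by omega) (by omega) (by omega)
    · exact nadj _ _ (by omega) (by omega) (by omega) (by omega) (by omega) (by omega)
    · exact nadj _ _ (by omega) (by omega) (by omega) (by omega) (by omega) (by omega)
    · exact fun h => hpi (j + 3) (by omega) (by omega) (by omega) h.symm
    · exact nadj _ _ (by omega) (by omega) (by omega) (by omega) (by omega) (by omega)
    · exact nadj _ _ (by omega) (by omega) (by omega) (by omega) (by omega) (by omega)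
    · exact nadj _ _ (by omega) (by omega) (by omega) (by omega) (by omega) (by omega)
    · exact nadj _ _ (by omega) (by omega) (by omega) (by omega) (by omega) (by omega)
    · exact hpi (j + 1) (by omega) (by omega) (by omega)
    · exact hpi (j - 1) (by omega) (by omega) (by omega)
    · exact nadj _ _ (by omega) (by omega) (by omega) (by omega) (by omega) (by omega)
    · exact nadj _ _ (by omega) (by omega) (by omega) (by omega) (by omega) (by omega)
    · exact nadj _ _ (by omega) (by omega) (by omega) (by omega) (by omega) (by omega)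
    · exact nadj _ _ (by omega) (by omega) (by omega) (by omega) (by omega) (by omega)

end Pool.Agent.H68.CW
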