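import Pool.Agent.H68.CW.LemTwoU

/-!
L2P. One more vertex, paths.

Proof of `lemma_two_path`. Choose `p i` of class `i`. By `class_unif` the neighbours of `v` in `M \ {v}` are the vertices of the classes `i`
with `v ~ p i`. Let `e` be the parity of the classes on the side opposite to `v`.
`k ≥ 8`: use `path_nbrs` (`hn2` gives `hne`). Twin of `i`: `PathBl G M k c'`, `c' v = i`, `c' = c` elsewhere. Only class `1`:
`PathBl G M (k + 1) c'`, `c' v = 1`, `c' = c + 1` elsewhere. Only class `k`: `c' v = k + 1`. Classes `1` and `k`: `CycBl G M (k + 1) c'`, `c' v = 0`, `c' = c`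
elsewhere. Nothing: against `hn1`.
`k = 7`: use `list7_odd`, `list7_even`. The cases are as before, and moreover: classes `1, 3, 7`: in `bcG` the vertex `v` is adjacent to the class `5` only, and
`5, 2, 7, 4, 1, 6, 3` is the blow-up of a path in `bcG`, so `PathBl (bcG G side) M 8 c'` with `c' v = 1` and `c' = 2, 3, 4, 5, 6, 7, 8`
on the classes `5, 2, 7, 4, 1, 6, 3`. Classes `1, 5, 7`: `v` is adjacent in `bcG` to the class `3` only: the reverse order.
-/

set_option autoImplicit false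

namespace Pool.Agent.H68.CW

variable {V : Type} {G : SimpleGraph V} {side : V → Bool} {M : Set V}

/-- extension of the classes of a path by the class of `v` -/
theorem L2P_path (G' : SimpleGraph V) {v : V} {k a : ℕ} {f : ℕ → ℕ} {c : V → ℕ} (hv : v ∈ M)
    (h1v : 1 ≤ a ∧ a ≤ k) (h1 : ∀ u ∈ M \ {v}, 1 ≤ f (c u) ∧ f (c u) ≤ k)
    (h2 : ∀ i, 1 ≤ i → i ≤ k → i ≠ a → ∃ u ∈ M \ {v}, f (c u) = i)
    (h3 : ∀ u ∈ M \ {v}, ∀ w ∈ M \ {v},
      (G'.Adj u w ↔ (f (c u) + 1 = f (c w) ∨ f (c w) + 1 = f (c u))))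
    (h4 : ∀ u ∈ M \ {v}, (G'.Adj v u ↔ (a + 1 = f (c u) ∨ f (c u) + 1 = a))) :
    ∃ d, PathBl G' M k d := by
  classical
  refine ⟨fun u => if u = v then a else f (c u), ?_, ?_, ?_⟩
  · intro u hu
    by_cases h : u = v
    · simp only [if_pos h]
      exact h1v
    · simp only [if_neg h]
      exact h1 u ⟨hu, h⟩
  · intro i hi1 hi2
    by_cases h : i = a
    · exact ⟨v, hv, by simp only; exact h.symm⟩
    · obtain ⟨u, hu, hc⟩ := h2 i hi1 hi2 h
      exact ⟨u, hu.1, by simp only [if_neg (show u ≠ v from hu.2)]; exact hc⟩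
  · intro u hu w hw
    by_cases h : u = v
    · by_cases h' : w = v
      · simp only [if_pos h, if_pos h']
        rw [h, h']
        constructor
        · intro hh
          exact absurd hh (G'.irrefl)
        · intro hh
          omega
      · simp only [if_pos h, if_neg h']
        rw [h]
        exact h4 w ⟨hw, h'⟩
    · by_cases h' : w = v
      · simp only [if_neg h, if_pos h']
        rw [h', G'.adj_comm, h4 u ⟨hu, h⟩]
        exact or_comm
      · simp only [if_neg h, if_neg h']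
        exact h3 u ⟨hu, h⟩ w ⟨hw, h'⟩

/-- the classes and the sides -/
theorem L2P_side (hb : Bip G side M) {v : V} {k : ℕ} {c : V → ℕ} (hk : 7 ≤ k)
    (hP : PathBl G (M \ {v}) k c) {q : V} (hq : q ∈ M \ {v}) (hq1 : c q = 1) :
    ∀ i, 1 ≤ i → i ≤ k → ∀ u ∈ M \ {v}, c u = i → (side u = side q ↔ i % 2 = 1) := by
  intro i hi
  induction i, hi using Nat.le_induction with
  | base =>
    intro _ u hu hcu
    obtain ⟨w, hw, hcw⟩ := hP.2.1 2 (by norm_num) (by omega)
    have h1 : side u ≠ side w := hb u hu.1 w hw.1 ((hP.2.2 u hu w hw).2 (by omega))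
    have h2 : side q ≠ side w := hb q hq.1 w hw.1 ((hP.2.2 q hq w hw).2 (by omega))
    constructor
    · intro _
      rfl
    · intro _
      revert h1 h2
      cases side u <;> cases side q <;> cases side w <;> simp
  | succ i hi ih =>
    intro hik u hu hcu
    obtain ⟨w, hw, hcw⟩ := hP.2.1 i hi (by omega)
    have h1 : side u ≠ side w := hb u hu.1 w hw.1 ((hP.2.2 u hu w hw).2 (by omega))
    have h2 := ih (by omega) w hw hcw
    have h3 : (side u = side q) ↔ ¬ (side w = side q) := by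
      revert h1
      cases side u <;> cases side q <;> cases side w <;> simp
    rw [h3, h2]
    omega

/-- the four harmless cases -/
theorem L2P_fin {v : V} (hv : v ∈ M) {k : ℕ} {c : V → ℕ} (hk : 7 ≤ k)
    (hP : PathBl G (M \ {v}) k c)
    (hA : (∃ i, 1 ≤ i ∧ i ≤ k ∧ ∀ u ∈ M \ {v}, (G.Adj v u ↔ (i + 1 = c u ∨ c u + 1 = i))) ∨
      (∀ u ∈ M \ {v}, (G.Adj v u ↔ c u = 1)) ∨ (∀ u ∈ M \ {v}, (G.Adj v u ↔ c u = k)) ∨
      (∀ u ∈ M \ {v}, (G.Adj v u ↔ (c u = 1 ∨ c u = k)))) : PC G M := by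
  obtain ⟨h1, h2, h3⟩ := hP
  rcases hA with ⟨i, hi1, hi2, hA⟩ | hA | hA | hA
  · obtain ⟨d, hd⟩ := L2P_path (f := fun i => i) (c := c) G hv ⟨hi1, hi2⟩ h1
      (fun j hj1 hj2 _ => h2 j hj1 hj2) h3 hA
    exact ⟨k, d, hk, Or.inl hd⟩
  · obtain ⟨d, hd⟩ := L2P_path (k := k + 1) (a := 1) (f := fun i => i + 1) (c := c) G hv
      ⟨le_rfl, by omega⟩ (fun u hu => by have := h1 u hu; constructor <;> omega)
      (fun j hj1 hj2 hj => by
        obtain ⟨u, hu, hcu⟩ := h2 (j - 1) (by omega) (by omega)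
        exact ⟨u, hu, by simp only [hcu]; omega⟩)
      (fun u hu w hw => by rw [h3 u hu w hw]; simp only [Nat.add_right_cancel_iff])
      (fun u hu => by rw [hA u hu]; have := h1 u hu; constructor <;> intro hh <;> omega)
    exact ⟨k + 1, d, by omega, Or.inl hd⟩
  · obtain ⟨d, hd⟩ := L2P_path (k := k + 1) (a := k + 1) (f := fun i => i) (c := c) G hv
      ⟨by omega, le_rfl⟩ (fun u hu => by have := h1 u hu; constructor <;> omega)
      (fun j hj1 hj2 hj => h2 j hj1 (by omega)) h3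
      (fun u hu => by rw [hA u hu]; have := h1 u hu; constructor <;> intro hh <;> omega)
    exact ⟨k + 1, d, by omega, Or.inl hd⟩
  · classical
    have key : ∀ m, 1 ≤ m → m ≤ k → ∀ l, 1 ≤ l → l ≤ k →
        ((m + 1) % (k + 1) = l ↔ m + 1 = l) := by
      intro m hm1 hm2 l hl1 hl2
      by_cases hmk : m = k
      · rw [hmk, Nat.mod_self]
        omega
      · rw [Nat.mod_eq_of_lt (by omega)]
    have key0 : ∀ m, 1 ≤ m → m ≤ k → ((m + 1) % (k + 1) = 0 ↔ m = k) := by
      intro m hm1 hm2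
      by_cases hmk : m = k
      · rw [hmk, Nat.mod_self]
        simp
      · rw [Nat.mod_eq_of_lt (by omega)]
        omega
    have key1 : (0 + 1) % (k + 1) = 1 := Nat.mod_eq_of_lt (by omega)
    refine ⟨k + 1, fun u => if u = v then 0 else c u, by omega, Or.inr ⟨?_, ?_, ?_⟩⟩
    · intro u hu
      by_cases h : u = v
      · simp only [if_pos h]
        omega
      · simp only [if_neg h]
        have := h1 u ⟨hu, h⟩
        omega
    · intro i hi
      by_cases h : i = 0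
      · exact ⟨v, hv, by simp only; exact h.symm⟩
      · obtain ⟨u, hu, hc⟩ := h2 i (by omega) (by omega)
        exact ⟨u, hu.1, by simp only [if_neg (show u ≠ v from hu.2)]; exact hc⟩
    · intro u hu w hw
      by_cases h : u = v
      · by_cases h' : w = v
        · simp only [if_pos h, if_pos h']
          rw [h, h', key1]
          constructor
          · intro hh
            exact absurd hh (G.irrefl)
          · intro hh
            omega
        · simp only [if_pos h, if_neg h']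
          have hw' := h1 w ⟨hw, h'⟩
          rw [h, hA w ⟨hw, h'⟩, key1, key0 _ hw'.1 hw'.2]
          constructor <;> intro hh <;> omega
      · have hu' := h1 u ⟨hu, h⟩
        by_cases h' : w = v
        · simp only [if_neg h, if_pos h']
          rw [h', G.adj_comm, hA u ⟨hu, h⟩, key1, key0 _ hu'.1 hu'.2]
          constructor <;> intro hh <;> omega
        · simp only [if_neg h, if_neg h']
          have hw' := h1 w ⟨hw, h'⟩
          rw [key _ hu'.1 hu'.2 _ hw'.1 hw'.2, key _ hw'.1 hw'.2 _ hu'.1 hu'.2]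
          exact h3 u ⟨hu, h⟩ w ⟨hw, h'⟩

/-- the two cases of the bipartite complement -/
theorem L2P_bc (f : ℕ → ℕ) {v : V} (hv : v ∈ M) {c : V → ℕ}
    (hP : PathBl G (M \ {v}) 7 c)
    (hs : ∀ u ∈ M \ {v}, ∀ w ∈ M \ {v}, (side u ≠ side w ↔ c u % 2 ≠ c w % 2))
    (hsv : ∀ u ∈ M \ {v}, (side v ≠ side u ↔ c u % 2 = 1))
    (hf1 : ∀ i ∈ Finset.Icc 1 7, 2 ≤ f i ∧ f i ≤ 8)
    (hf2 : ∀ j ∈ Finset.Icc 2 8, ∃ i ∈ Finset.Icc 1 7, f i = j)
    (hf3 : ∀ i ∈ Finset.Icc 1 7, ∀ j ∈ Finset.Icc 1 7,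
      ((i % 2 ≠ j % 2 ∧ ¬ (i + 1 = j ∨ j + 1 = i)) ↔ (f i + 1 = f j ∨ f j + 1 = f i)))
    (hA : ∀ u ∈ M \ {v}, ((c u % 2 = 1 ∧ ¬ G.Adj v u) ↔ f (c u) = 2)) : PC (bcG G side) M := by
  obtain ⟨h1, h2, h3⟩ := hP
  have h1' : ∀ u ∈ M \ {v}, c u ∈ Finset.Icc 1 7 := fun u hu => Finset.mem_Icc.2 (h1 u hu)
  obtain ⟨d, hd⟩ := L2P_path (k := 8) (a := 1) (f := f) (c := c) (bcG G side) hv
    ⟨le_rfl, by norm_num⟩
    (fun u hu => by have := hf1 _ (h1' u hu); constructor <;> omega)
    (fun j hj1 hj2 hj => by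
      obtain ⟨i, hi, hfi⟩ := hf2 j (Finset.mem_Icc.2 ⟨by omega, hj2⟩)
      obtain ⟨u, hu, hcu⟩ := h2 i (Finset.mem_Icc.1 hi).1 (Finset.mem_Icc.1 hi).2
      exact ⟨u, hu, by rw [hcu]; exact hfi⟩)
    (fun u hu w hw => by
      rw [← hf3 _ (h1' u hu) _ (h1' w hw), ← hs u hu w hw, ← h3 u hu w hw]
      exact Iff.rfl)
    (fun u hu => by
      have h8 := hf1 _ (h1' u hu)
      have h9 : (bcG G side).Adj v u ↔ (c u % 2 = 1 ∧ ¬ G.Adj v u) := by
        rw [← hsv u hu]
        exact Iff.rfl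
      rw [h9, hA u hu]
      omega)
  exact ⟨8, d, by norm_num, Or.inl hd⟩

theorem lemma_two_path (hb : Bip G side M) (hS : FreeS G M) {v : V} (hv : v ∈ M) {k : ℕ}
    {c : V → ℕ} (hk : 7 ≤ k) (hP : PathBl G (M \ {v}) k c)
    (hn1 : ∃ x ∈ M, x ≠ v ∧ side x ≠ side v ∧ G.Adj v x)
    (hn2 : ∃ x ∈ M, x ≠ v ∧ side x ≠ side v ∧ ¬ G.Adj v x) : PC G M ∨ PC (bcG G side) M := by
  classical
  have hU := class_unif_path hb hS hv hk hP
  have hP' := hP
  obtain ⟨h1, h2, h3⟩ := hP'
  have hex : ∀ i, ∃ u, 1 ≤ i → i ≤ k → u ∈ M \ {v} ∧ c u = i := by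
    intro i
    by_cases h : 1 ≤ i ∧ i ≤ k
    · obtain ⟨u, hu, hc⟩ := h2 i h.1 h.2
      exact ⟨u, fun _ _ => ⟨hu, hc⟩⟩
    · exact ⟨v, fun ha hb' => absurd ⟨ha, hb'⟩ h⟩
  choose p hp using hex
  have hpM : ∀ i, 1 ≤ i → i ≤ k → p i ∈ M := fun i ha hb' => (hp i ha hb').1.1
  have hadj : ∀ i j, 1 ≤ i → i ≤ k → 1 ≤ j → j ≤ k →
      (G.Adj (p i) (p j) ↔ (i + 1 = j ∨ j + 1 = i)) := by
    intro i j hi1 hi2 hj1 hj2
    rw [h3 _ (hp i hi1 hi2).1 _ (hp j hj1 hj2).1, (hp i hi1 hi2).2, (hp j hj1 hj2).2]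
  have hvp : ∀ u ∈ M \ {v}, (G.Adj v u ↔ G.Adj v (p (c u))) := fun u hu =>
    hU u hu _ (hp (c u) (h1 u hu).1 (h1 u hu).2).1 (hp (c u) (h1 u hu).1 (h1 u hu).2).2.symm
  have hq := hp 1 le_rfl (by omega)
  have hsd : ∀ u ∈ M \ {v}, (side u = side (p 1) ↔ c u % 2 = 1) := fun u hu =>
    L2P_side hb hk hP hq.1 hq.2 (c u) (h1 u hu).1 (h1 u hu).2 u hu rfl
  have hss : ∀ u ∈ M \ {v}, ∀ w ∈ M \ {v}, (side u ≠ side w ↔ c u % 2 ≠ c w % 2) := by
    intro u hu w hw
    have e1 := hsd u hu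
    have e2 := hsd w hw
    have e3 : (side u ≠ side w) ↔ ¬ ((side u = side (p 1)) ↔ (side w = side (p 1))) := by
      cases side u <;> cases side w <;> cases side (p 1) <;> simp
    rw [e3, e1, e2]
    omega
  -- the parity of the classes on the other side
  obtain ⟨e, he, hse⟩ : ∃ e, e < 2 ∧ ∀ u ∈ M \ {v}, (side v ≠ side u ↔ c u % 2 = e) := by
    by_cases h : side v = side (p 1)
    · refine ⟨0, by norm_num, fun u hu => ?_⟩
      have e1 := hsd u hu
      rw [h]
      have e3 : (side (p 1) ≠ side u) ↔ ¬ (side u = side (p 1)) := by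
        rw [ne_comm]
      rw [e3, e1]
      omega
    · refine ⟨1, by norm_num, fun u hu => ?_⟩
      rw [← hsd u hu]
      revert h
      cases side v <;> cases side (p 1) <;> cases side u <;> simp
  have hpar : ∀ i, 1 ≤ i → i ≤ k → G.Adj v (p i) → i % 2 = e := by
    intro i hi1 hi2 ha
    have h5 := hb v hv (p i) (hpM i hi1 hi2) ha
    have h6 := (hse (p i) (hp i hi1 hi2).1).1 h5
    rwa [(hp i hi1 hi2).2] at h6
  have hne : ∃ i, 1 ≤ i ∧ i ≤ k ∧ i % 2 = e ∧ ¬ G.Adj v (p i) := by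
    obtain ⟨x, hx, hxv, hxs, hxa⟩ := hn2
    have hx' : x ∈ M \ {v} := ⟨hx, hxv⟩
    exact ⟨c x, (h1 x hx').1, (h1 x hx').2, (hse x hx').1 hxs.symm, fun h => hxa ((hvp x hx').2 h)⟩
  have hsome : ∃ i, 1 ≤ i ∧ i ≤ k ∧ G.Adj v (p i) := by
    obtain ⟨x, hx, hxv, hxs, hxa⟩ := hn1
    have hx' : x ∈ M \ {v} := ⟨hx, hxv⟩
    exact ⟨c x, (h1 x hx').1, (h1 x hx').2, (hvp x hx').1 hxa⟩
  -- from the vertices `p j` to all vertices
  have hall : ∀ A : ℕ → Prop, (∀ j, 1 ≤ j → j ≤ k → (G.Adj v (p j) ↔ A j)) →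
      ∀ u ∈ M \ {v}, (G.Adj v u ↔ A (c u)) := by
    intro A hA u hu
    rw [hvp u hu]
    exact hA (c u) (h1 u hu).1 (h1 u hu).2
  by_cases hk8 : 8 ≤ k
  · left
    have hpar' : ∀ i, 1 ≤ i → i ≤ k → G.Adj v (p i) → i % 2 = e % 2 := by
      intro i hi1 hi2 ha
      rw [hpar i hi1 hi2 ha, Nat.mod_eq_of_lt he]
    have hne' : ∃ i, 1 ≤ i ∧ i ≤ k ∧ i % 2 = e % 2 ∧ ¬ G.Adj v (p i) := by
      obtain ⟨i, a1, a2, a3, a4⟩ := hne
      exact ⟨i, a1, a2, by rw [a3, Nat.mod_eq_of_lt he], a4⟩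
    rcases path_nbrs hS hk8 p hpM hadj hv e hpar' hne' with ⟨i, hi1, hi2, hA⟩ | hA | hA | hA | hA
    · exact L2P_fin hv hk hP (Or.inl ⟨i, hi1, hi2, hall (fun j => i + 1 = j ∨ j + 1 = i) hA⟩)
    · exact L2P_fin hv hk hP (Or.inr (Or.inl (hall (fun j => j = 1) hA)))
    · exact L2P_fin hv hk hP (Or.inr (Or.inr (Or.inl (hall (fun j => j = k) hA))))
    · exact L2P_fin hv hk hP (Or.inr (Or.inr (Or.inr (hall (fun j => j = 1 ∨ j = k) hA))))
    · obtain ⟨i, hi1, hi2, hi⟩ := hsome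
      exact absurd hi (hA i hi1 hi2)
  · have hk7 : k = 7 := by omega
    subst hk7
    have hno : ∀ i, 1 ≤ i → i ≤ 7 → i % 2 ≠ e → ¬ G.Adj v (p i) := fun i hi1 hi2 hne' ha =>
      hne' (hpar i hi1 hi2 ha)
    -- twin of `i`
    have htw : ∀ i, 1 ≤ i → i ≤ 7 → (∀ j ∈ Finset.Icc 1 7, (G.Adj v (p j) ↔
        (i + 1 = j ∨ j + 1 = i))) → PC G M := by
      intro i hi1 hi2 hA
      exact L2P_fin hv hk hP (Or.inl ⟨i, hi1, hi2, hall (fun j => i + 1 = j ∨ j + 1 = i)
        fun j a b => hA j (Finset.mem_Icc.2 ⟨a, b⟩)⟩)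
    have hic : (Finset.Icc 1 7 : Finset ℕ) = {1, 2, 3, 4, 5, 6, 7} := by decide
    have he01 : e = 0 ∨ e = 1 := by omega
    rcases he01 with he0 | he1
    · left
      subst he0
      have n1 := hno 1 (by norm_num) (by norm_num) (by norm_num)
      have n3 := hno 3 (by norm_num) (by norm_num) (by norm_num)
      have n5 := hno 5 (by norm_num) (by norm_num) (by norm_num)
      have n7 := hno 7 (by norm_num) (by norm_num) (by norm_num)
      have hl := list7_even hS p hpM hadj hv hpar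
      simp only [Set.mem_insert_iff, Set.mem_singleton_iff, Prod.mk.injEq, eq_iff_iff, iff_true,
        iff_false] at hl
      rcases hl with ⟨a2, a4, a6⟩ | ⟨a2, a4, a6⟩ | ⟨a2, a4, a6⟩ | ⟨a2, a4, a6⟩ | ⟨a2, a4, a6⟩ |
        ⟨a2, a4, a6⟩
      · exfalso
        obtain ⟨i, hi1, hi2, hi3, hi4⟩ := hne
        have : i = 2 ∨ i = 4 ∨ i = 6 := by omega
        rcases this with h | h | h
        · rw [h] at hi4
          exact hi4 a2
        · rw [h] at hi4
          exact hi4 a4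
        · rw [h] at hi4
          exact hi4 a6
      · refine htw 5 (by norm_num) (by norm_num) ?_
        rw [hic]
        simp [n1, n3, n5, n7, a2, a4, a6]
      · refine htw 7 (by norm_num) (by norm_num) ?_
        rw [hic]
        simp [n1, n3, n5, n7, a2, a4, a6]
      · refine htw 3 (by norm_num) (by norm_num) ?_
        rw [hic]
        simp [n1, n3, n5, n7, a2, a4, a6]
      · refine htw 1 (by norm_num) (by norm_num) ?_
        rw [hic]
        simp [n1, n3, n5, n7, a2, a4, a6]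
      · exfalso
        obtain ⟨i, hi1, hi2, hi⟩ := hsome
        have h0 := hpar i hi1 hi2 hi
        have : i = 2 ∨ i = 4 ∨ i = 6 := by omega
        rcases this with h | h | h
        · rw [h] at hi
          exact a2 hi
        · rw [h] at hi
          exact a4 hi
        · rw [h] at hi
          exact a6 hi
    · subst he1
      have n2 := hno 2 (by norm_num) (by norm_num) (by norm_num)
      have n4 := hno 4 (by norm_num) (by norm_num) (by norm_num)
      have n6 := hno 6 (by norm_num) (by norm_num) (by norm_num)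
      have hl := list7_odd hS p hpM hadj hv hpar
      simp only [Set.mem_insert_iff, Set.mem_singleton_iff, Prod.mk.injEq, eq_iff_iff, iff_true,
        iff_false] at hl
      have hAll : ∀ A : ℕ → Prop, (∀ j ∈ Finset.Icc 1 7, (G.Adj v (p j) ↔ A j)) →
          ∀ u ∈ M \ {v}, (G.Adj v u ↔ A (c u)) := fun A hA =>
        hall A fun j a b => hA j (Finset.mem_Icc.2 ⟨a, b⟩)
      rcases hl with ⟨a1, a3, a5, a7⟩ | ⟨a1, a3, a5, a7⟩ | ⟨a1, a3, a5, a7⟩ | ⟨a1, a3, a5, a7⟩ |
        ⟨a1, a3, a5, a7⟩ | ⟨a1, a3, a5, a7⟩ | ⟨a1, a3, a5, a7⟩ | ⟨a1, a3, a5, a7⟩ |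
        ⟨a1, a3, a5, a7⟩ | ⟨a1, a3, a5, a7⟩
      · exfalso
        obtain ⟨i, hi1, hi2, hi3, hi4⟩ := hne
        have : i = 1 ∨ i = 3 ∨ i = 5 ∨ i = 7 := by omega
        rcases this with h | h | h | h
        · rw [h] at hi4
          exact hi4 a1
        · rw [h] at hi4
          exact hi4 a3
        · rw [h] at hi4
          exact hi4 a5
        · rw [h] at hi4
          exact hi4 a7
      · -- classes 1, 5, 7
        right
        have hA := hAll (fun j => j = 1 ∨ j = 5 ∨ j = 7) (by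
          rw [hic]
          simp [n2, n4, n6, a1, a3, a5, a7])
        let f : ℕ → ℕ := fun i => if i = 3 then 2 else if i = 6 then 3 else if i = 1 then 4 else
          if i = 4 then 5 else if i = 7 then 6 else if i = 2 then 7 else 8
        refine L2P_bc f hv hP hss hse (by decide) (by decide) (by decide) ?_
        intro u hu
        rw [hA u hu]
        have h9 : ∀ i ∈ Finset.Icc 1 7, ((i % 2 = 1 ∧ ¬ (i = 1 ∨ i = 5 ∨ i = 7)) ↔ f i = 2) := by
          decide
        exact h9 (c u) (Finset.mem_Icc.2 (h1 u hu))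
      · left
        refine htw 6 (by norm_num) (by norm_num) ?_
        rw [hic]
        simp [n2, n4, n6, a1, a3, a5, a7]
      · -- classes 1, 3, 7
        right
        have hA := hAll (fun j => j = 1 ∨ j = 3 ∨ j = 7) (by
          rw [hic]
          simp [n2, n4, n6, a1, a3, a5, a7])
        let f : ℕ → ℕ := fun i => if i = 5 then 2 else if i = 2 then 3 else if i = 7 then 4 else
          if i = 4 then 5 else if i = 1 then 6 else if i = 6 then 7 else 8
        refine L2P_bc f hv hP hss hse (by decide) (by decide) (by decide) ?_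
        intro u hu
        rw [hA u hu]
        have h9 : ∀ i ∈ Finset.Icc 1 7, ((i % 2 = 1 ∧ ¬ (i = 1 ∨ i = 3 ∨ i = 7)) ↔ f i = 2) := by
          decide
        exact h9 (c u) (Finset.mem_Icc.2 (h1 u hu))
      · left
        refine L2P_fin hv hk hP (Or.inr (Or.inr (Or.inr (hAll (fun j => j = 1 ∨ j = 7) ?_))))
        rw [hic]
        simp [n2, n4, n6, a1, a3, a5, a7]
      · left
        refine L2P_fin hv hk hP (Or.inr (Or.inr (Or.inl (hAll (fun j => j = 7) ?_))))
        rw [hic]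
        simp [n2, n4, n6, a1, a3, a5, a7]
      · left
        refine htw 4 (by norm_num) (by norm_num) ?_
        rw [hic]
        simp [n2, n4, n6, a1, a3, a5, a7]
      · left
        refine htw 2 (by norm_num) (by norm_num) ?_
        rw [hic]
        simp [n2, n4, n6, a1, a3, a5, a7]
      · left
        refine L2P_fin hv hk hP (Or.inr (Or.inl (hAll (fun j => j = 1) ?_)))
        rw [hic]
        simp [n2, n4, n6, a1, a3, a5, a7]
      · exfalso
        obtain ⟨i, hi1, hi2, hi⟩ := hsome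
        have h0 := hpar i hi1 hi2 hi
        have : i = 1 ∨ i = 3 ∨ i = 5 ∨ i = 7 := by omega
        rcases this with h | h | h | h
        · rw [h] at hi
          exact a1 hi
        · rw [h] at hi
          exact a3 hi
        · rw [h] at hi
          exact a5 hi
        · rw [h] at hi
          exact a7 hi

end Pool.Agent.H68.CW
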