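import Pool.Agent.H68.CW.LemTwoA

/-!
L2U. Uniformity on the classes.

Proof of `class_unif`: let `x, x'` be of class `j`, `v ~ x`, `v ≁ x'`. Choose `s` with `s ≤ j ≤ s + 6` and the classes
`s, ..., s + 6` (for a cycle: `(s + i) % k`, `k ≥ 8`), one vertex `p i` in each of them (`p` of index `j - s + 1` is `x`), and apply `twin7`. The neighbours
of `v` among the `p i` have the same parity: `G` is bipartite on `M`, and the sides alternate along `p`.
-/

set_option autoImplicit false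

namespace Pool.Agent.H68.CW

variable {V : Type} {G : SimpleGraph V} {side : V → Bool} {M : Set V}

theorem twoU_alt (f : ℕ → Bool) (h : ∀ i, 1 ≤ i → i < 7 → f i ≠ f (i + 1)) (i j : ℕ)
    (hi : 1 ≤ i) (hi7 : i ≤ 7) (hj : 1 ≤ j) (hj7 : j ≤ 7) (hij : f i = f j) :
    i % 2 = j % 2 := by
  have key : ∀ n, n ≤ 6 → f (n + 1) = xor (f 1) (decide (n % 2 = 1)) := by
    intro n
    induction n with
    | zero => intro _; simp
    | succ n ih =>
      intro hn
      have h1 := ih (by omega)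
      have h2 := h (n + 1) (by omega) (by omega)
      have h3 : (decide ((n + 1) % 2 = 1)) = !(decide (n % 2 = 1)) := by
        rcases Nat.mod_two_eq_zero_or_one n with h | h
        · have : (n + 1) % 2 = 1 := by omega
          simp [h, this]
        · have : (n + 1) % 2 = 0 := by omega
          simp [h, this]
      rw [h3]
      rw [h1] at h2
      revert h2
      cases f 1 <;> cases f (n + 1 + 1) <;> cases (decide (n % 2 = 1)) <;> simp
  obtain ⟨a, rfl⟩ : ∃ a, i = a + 1 := ⟨i - 1, by omega⟩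
  obtain ⟨b, rfl⟩ : ∃ b, j = b + 1 := ⟨j - 1, by omega⟩
  rw [key a (by omega), key b (by omega)] at hij
  have h4 : (decide (a % 2 = 1)) = (decide (b % 2 = 1)) := by
    revert hij
    cases f 1 <;> cases (decide (a % 2 = 1)) <;> cases (decide (b % 2 = 1)) <;> simp
  have h5 : a % 2 = 1 ↔ b % 2 = 1 := by
    simpa using h4
  omega

theorem twoU_core (hb : Bip G side M) (hS : FreeS G M) {v : V} (hv : v ∈ M) (p : ℕ → V)
    (hp : ∀ i, 1 ≤ i → i ≤ 7 → p i ∈ M)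
    (hadj : ∀ i j, 1 ≤ i → i ≤ 7 → 1 ≤ j → j ≤ 7 →
      (G.Adj (p i) (p j) ↔ (i + 1 = j ∨ j + 1 = i)))
    {x : V} (hx : x ∈ M) (j : ℕ) (hj1 : 1 ≤ j) (hj7 : j ≤ 7)
    (hxp : ∀ i, 1 ≤ i → i ≤ 7 → (G.Adj x (p i) ↔ (i + 1 = j ∨ j + 1 = i)))
    (hvx : ¬ G.Adj v x) (hvj : G.Adj v (p j)) : False := by
  refine twin7 hS p hp hadj hx hv j hj1 hj7 hxp ?_ hvx hvj
  intro i hi hi7 hvi
  have hne1 := hb v hv (p j) (hp j hj1 hj7) hvj
  have hne2 := hb v hv (p i) (hp i hi hi7) hvi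
  refine twoU_alt (fun i => side (p i)) ?_ i j hi hi7 hj1 hj7 ?_
  · intro n hn hn7
    exact hb _ (hp n hn (by omega)) _ (hp (n + 1) (by omega) (by omega))
      ((hadj n (n + 1) hn (by omega) (by omega) (by omega)).2 (Or.inl rfl))
  · show side (p i) = side (p j)
    revert hne1 hne2
    cases side v <;> cases side (p i) <;> cases side (p j) <;> simp

theorem twoU_mod {k : ℕ} (hk : 8 ≤ k) (j a b : ℕ) (ha : a ≤ 7) (hb : b ≤ 7) :
    (j + a) % k = (j + b) % k ↔ a = b := by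
  constructor
  · intro h
    have h1 : j + a ≡ j + b [MOD k] := h
    have h2 : a ≡ b [MOD k] := Nat.ModEq.add_left_cancel' j h1
    have h3 : a % k = b % k := h2
    rwa [Nat.mod_eq_of_lt (by omega), Nat.mod_eq_of_lt (by omega)] at h3
  · rintro rfl
    rfl

theorem twoU_path (hb : Bip G side M) (hS : FreeS G M) {v : V} (hv : v ∈ M) {k : ℕ}
    {c : V → ℕ} (hk : 7 ≤ k) (hP : PathBl G (M \ {v}) k c) {x x' : V} (hx : x ∈ M \ {v})
    (hx' : x' ∈ M \ {v}) (hc : c x = c x') (h : G.Adj v x) : G.Adj v x' := by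
  classical
  by_contra hn
  obtain ⟨hP1, hP2, hP3⟩ := hP
  have hrep : ∀ i, ∃ u, 1 ≤ i → i ≤ k → u ∈ M \ {v} ∧ c u = i := by
    intro i
    by_cases hi : 1 ≤ i ∧ i ≤ k
    · obtain ⟨u, hu, hcu⟩ := hP2 i hi.1 hi.2
      exact ⟨u, fun _ _ => ⟨hu, hcu⟩⟩
    · exact ⟨v, fun h1 h2 => (hi ⟨h1, h2⟩).elim⟩
  choose rep hrep using hrep
  obtain ⟨hj1, hjk⟩ := hP1 x hx
  obtain ⟨s, hs1, hsj, hjs, hsk⟩ : ∃ s, 1 ≤ s ∧ s ≤ c x ∧ c x ≤ s + 6 ∧ s + 6 ≤ k := by
    by_cases hck : c x ≤ k - 6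
    · exact ⟨c x, hj1, le_rfl, by omega, by omega⟩
    · exact ⟨k - 6, by omega, by omega, by omega, by omega⟩
  have hq : ∀ i, 1 ≤ i → i ≤ 7 →
      (if i = c x - s + 1 then x else rep (s + i - 1)) ∈ M \ {v} ∧
        c (if i = c x - s + 1 then x else rep (s + i - 1)) = s + i - 1 := by
    intro i hi hi7
    by_cases h1 : i = c x - s + 1
    · rw [if_pos h1]
      exact ⟨hx, by omega⟩
    · rw [if_neg h1]
      exact hrep _ (by omega) (by omega)
  refine twoU_core hb hS hv (fun i => if i = c x - s + 1 then x else rep (s + i - 1))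
    (fun i hi hi7 => (hq i hi hi7).1.1) ?_ hx'.1 (c x - s + 1) (by omega) (by omega) ?_ hn ?_
  · intro i j hi hi7 hj hj7
    rw [hP3 _ (hq i hi hi7).1 _ (hq j hj hj7).1, (hq i hi hi7).2, (hq j hj hj7).2]
    omega
  · intro i hi hi7
    rw [hP3 _ hx' _ (hq i hi hi7).1, (hq i hi hi7).2, ← hc]
    omega
  · simpa using h

theorem twoU_cyc (hb : Bip G side M) (hS : FreeS G M) {v : V} (hv : v ∈ M) {k : ℕ}
    {c : V → ℕ} (hk : 8 ≤ k) (hP : CycBl G (M \ {v}) k c) {x x' : V} (hx : x ∈ M \ {v})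
    (hx' : x' ∈ M \ {v}) (hc : c x = c x') (h : G.Adj v x) : G.Adj v x' := by
  classical
  by_contra hn
  obtain ⟨hP1, hP2, hP3⟩ := hP
  have hrep : ∀ i, ∃ u, i < k → u ∈ M \ {v} ∧ c u = i := by
    intro i
    by_cases hi : i < k
    · obtain ⟨u, hu, hcu⟩ := hP2 i hi
      exact ⟨u, fun _ => ⟨hu, hcu⟩⟩
    · exact ⟨v, fun h1 => (hi h1).elim⟩
  choose rep hrep using hrep
  have hjk := hP1 x hx
  have hcx : c x = (c x + 0) % k := (Nat.mod_eq_of_lt hjk).symm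
  have hq : ∀ i, 1 ≤ i → i ≤ 7 →
      (if i = 1 then x else rep ((c x + (i - 1)) % k)) ∈ M \ {v} ∧
        c (if i = 1 then x else rep ((c x + (i - 1)) % k)) = (c x + (i - 1)) % k := by
    intro i hi hi7
    by_cases h1 : i = 1
    · rw [if_pos h1]
      subst h1
      exact ⟨hx, hcx⟩
    · rw [if_neg h1]
      exact hrep _ (Nat.mod_lt _ (by omega))
  have hsucc : ∀ i, 1 ≤ i → ((c x + (i - 1)) % k + 1) % k = (c x + i) % k := by
    intro i hi
    rw [Nat.mod_add_mod]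
    congr 1
    omega
  refine twoU_core hb hS hv (fun i => if i = 1 then x else rep ((c x + (i - 1)) % k))
    (fun i hi hi7 => (hq i hi hi7).1.1) ?_ hx'.1 1 (by omega) (by omega) ?_ hn ?_
  · intro i j hi hi7 hj hj7
    rw [hP3 _ (hq i hi hi7).1 _ (hq j hj hj7).1, (hq i hi hi7).2, (hq j hj hj7).2,
      hsucc i hi, hsucc j hj, twoU_mod hk _ _ _ hi7 (by omega),
      twoU_mod hk _ _ _ hj7 (by omega)]
    omega
  · intro i hi hi7
    have h0 : (c x + 1) % k = (c x + (i - 1)) % k ↔ 1 = i - 1 :=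
      twoU_mod hk _ _ _ (by omega) (by omega)
    have h1 : (c x + i) % k = c x ↔ i = 0 := by
      conv_lhs => rhs; rw [hcx]
      exact twoU_mod hk _ _ _ hi7 (by omega)
    rw [hP3 _ hx' _ (hq i hi hi7).1, (hq i hi hi7).2, ← hc, hsucc i hi, h0, h1]
    omega
  · simpa using h

theorem class_unif_path (hb : Bip G side M) (hS : FreeS G M) {v : V} (hv : v ∈ M) {k : ℕ}
    {c : V → ℕ} (hk : 7 ≤ k) (hP : PathBl G (M \ {v}) k c) :
    ∀ x ∈ M \ {v}, ∀ x' ∈ M \ {v}, c x = c x' → (G.Adj v x ↔ G.Adj v x') :=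
  fun _ hx _ hx' hc => ⟨twoU_path hb hS hv hk hP hx hx' hc,
    twoU_path hb hS hv hk hP hx' hx hc.symm⟩

theorem class_unif_cyc (hb : Bip G side M) (hS : FreeS G M) {v : V} (hv : v ∈ M) {k : ℕ}
    {c : V → ℕ} (hk : 8 ≤ k) (hP : CycBl G (M \ {v}) k c) :
    ∀ x ∈ M \ {v}, ∀ x' ∈ M \ {v}, c x = c x' → (G.Adj v x ↔ G.Adj v x') :=
  fun _ hx _ hx' hc => ⟨twoU_cyc hb hS hv hk hP hx hx' hc,
    twoU_cyc hb hS hv hk hP hx' hx hc.symm⟩

end Pool.Agent.H68.CW
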