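import Pool.Agent.H68.CW.Tool3

/-!
NT. Three classes without a null triple.

Notation: `i → j` for labels means `j = i + 1` in `Fin 3` (`0 → 1 → 2 → 0`). For `u, v` with different labels write `u ⇒ v` (an arc from `u` to `v`)
iff (`ℓ v = ℓ u + 1` and `G.Adj u v`) or (`ℓ u = ℓ v + 1` and not `G.Adj u v`). For `u, v` with different labels exactly one of `u ⇒ v`, `v ⇒ u`
holds (a 3-partite tournament). (*) There are no `x, y, z` with labels `0, 1, 2` (all different) and `x ⇒ y ⇒ z ⇒ x` or `x ⇒ z ⇒ y ⇒ x`: the first one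
means that all three pairs are adjacent, the second one that no pair is adjacent.

Claim (`exists_cut`): if `X` is finite and contains vertices of all three labels then there is `A ⊆ X`, `A ≠ ∅`, `A ≠ X` with `u ⇒ v` for all `u ∈ A`, `v ∈ X \ A` with
different labels.
Proof. Let `X_i` be the set of vertices of `X` with label `i`. Consider the sets `A ⊆ X_0 ∪ X_1`, `A ≠ ∅`, such that `u ⇒ v` for all `u ∈ A`, `v ∈ (X_0 ∪ X_1) \ A` of
different labels (`X_0 ∪ X_1` is one of them); let `A` be one with the smallest number of elements.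
(1) For every `z ∈ X_2`: `A ⇒ z` (all `u ∈ A` satisfy `u ⇒ z`) or `z ⇒ A`. Otherwise let `A' = {u ∈ A : u ⇒ z}`; `∅ ≠ A' ≠ A`. For `u ∈ A'`, `v ∈ A \ A'` with different labels
(in `{0, 1}`): `u ⇒ z ⇒ v`, so by (*) not `v ⇒ u`, so `u ⇒ v`. So `A'` is a smaller set of this kind: contradiction.
Let `Z₀ = {z ∈ X_2 : z ⇒ A}`. If `Z₀ = ∅` then `A` is a cut for `X` (`A ≠ X` since `X_2 ≠ ∅`). So let `Z₀ ≠ ∅`.
(2) If `A` contains vertices of both labels `0, 1`, then every `z ∈ Z₀` satisfies `z ⇒ X_0 ∪ X_1`: for `v ∉ A`, `v ∈ X_0 ∪ X_1` there is `u ∈ A` of the label different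
from `ℓ v`, `u ⇒ v`, `z ⇒ u`, so by (*) not `v ⇒ z`. Then `A = Z₀` is a cut (there is nothing else of label `2` to check: same labels; the others of label `2` are not
concerned).
(3) If `A` has vertices of one label `i ∈ {0, 1}` only, let `j` be the other label in `{0, 1}`. Let `a ∈ A`: `a ⇒ X_j` (`X_j` is disjoint from `A`). For `z ∈ Z₀`, `v ∈ X_j`: `z ⇒ a ⇒ v`, so `z ⇒ v` by (*).
Let `P = {x ∈ X_i : x ⇒ X_j}`, `Q = {z ∈ X_2 : z ⇒ X_j}`: both are nonempty (`a ∈ P`, `Z₀ ⊆ Q`). For `z ∈ Q`, `x ∈ X_i \ P`: `z ⇒ x` (otherwise `x ⇒ z ⇒ v` for all `v ∈ X_j`, so `x ⇒ v`, and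
`x ∈ P`). For `x ∈ P`, `z ∈ X_2 \ Q`: `x ⇒ z` (otherwise `z ⇒ x ⇒ v`, and `z ∈ Q`). So `P ∪ Q` is a cut: `P ⇒ X_j`, `Q ⇒ X_j`, `P ⇒ X_2 \ Q`, `Q ⇒ X_i \ P`, and it is not `X` since `X_j ≠ ∅`.

Proof of `type_two`: strong induction on the number of elements of `M`. If `M` misses a label: `hB`. Otherwise `exists_cut` and `Dec.glue`: between `A` and `M \ A` the adjacency is
determined by the labels (same label: not adjacent).
-/

set_option autoImplicit false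

namespace Pool.Agent.H68.CW

variable {V : Type} {G : SimpleGraph V} {ℓ : V → Fin 3}

/-- a 3-partite tournament without directed triangles has a cut -/
theorem NoTri_cut {R : V → V → Prop} {X : Set V} (hX : X.Finite)
    (hT : ∀ u ∈ X, ∀ v ∈ X, ℓ u ≠ ℓ v → (R u v ∨ R v u))
    (hC : ∀ x ∈ X, ∀ y ∈ X, ∀ z ∈ X, ℓ x ≠ ℓ y → ℓ y ≠ ℓ z → ℓ x ≠ ℓ z → R x y → R y z → R x z)
    (hall : ∀ i, ∃ u ∈ X, ℓ u = i) :
    ∃ A ⊆ X, A.Nonempty ∧ A ≠ X ∧ ∀ u ∈ A, ∀ v ∈ X, v ∉ A → ℓ u ≠ ℓ v → R u v := by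
  classical
  have hex : ∃ n : ℕ, ∃ A : Set V, (A ⊆ X ∧ (∀ u ∈ A, ℓ u ≠ 2) ∧ A.Nonempty ∧
      ∀ u ∈ A, ∀ v ∈ X, ℓ v ≠ 2 → v ∉ A → ℓ u ≠ ℓ v → R u v) ∧ A.ncard = n := by
    refine ⟨_, {u ∈ X | ℓ u ≠ 2}, ⟨fun u hu => hu.1, fun u hu => hu.2, ?_, ?_⟩, rfl⟩
    · obtain ⟨u, hu, h0⟩ := hall 0
      exact ⟨u, hu, by rw [h0]; decide⟩
    · intro u _ v hv h2 hn
      exact absurd ⟨hv, h2⟩ hn
  obtain ⟨A, ⟨hAX, hA2, hAne, hAR⟩, hAn⟩ := Nat.find_spec hex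
  have hmin : ∀ B : Set V, (B ⊆ X ∧ (∀ u ∈ B, ℓ u ≠ 2) ∧ B.Nonempty ∧
      ∀ u ∈ B, ∀ v ∈ X, ℓ v ≠ 2 → v ∉ B → ℓ u ≠ ℓ v → R u v) → A.ncard ≤ B.ncard := by
    intro B hB
    rw [hAn]
    exact Nat.find_min' hex ⟨B, hB, rfl⟩
  have hone : ∀ z ∈ X, ℓ z = 2 → (∀ u ∈ A, R u z) ∨ (∀ u ∈ A, R z u) := by
    intro z hz hz2
    by_contra hcon
    rw [not_or] at hcon
    obtain ⟨hc1, hc2⟩ := hcon
    push Not at hc1 hc2
    obtain ⟨u1, hu1, hn1⟩ := hc1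
    obtain ⟨u2, hu2, hn2⟩ := hc2
    have hz1 : ∀ u ∈ A, ℓ u ≠ ℓ z := by
      intro u hu
      rw [hz2]
      exact hA2 u hu
    have hlt : ({u ∈ A | R u z} : Set V).ncard < A.ncard := by
      refine Set.ncard_lt_ncard ⟨fun u hu => hu.1, fun hsub => ?_⟩ (hX.subset hAX)
      exact hn1 (hsub hu1).2
    refine absurd (hmin {u ∈ A | R u z} ⟨fun u hu => hAX hu.1, fun u hu => hA2 u hu.1, ?_, ?_⟩)
      (not_le.2 hlt)
    · exact ⟨u2, hu2, (hT u2 (hAX hu2) z hz (hz1 u2 hu2)).resolve_right hn2⟩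
    · intro u hu v hv hv2 hvn huv
      by_cases hvA : v ∈ A
      · have h1 : ¬ R v z := fun h => hvn ⟨hvA, h⟩
        have h2 : R z v := (hT v hv z hz (hz1 v hvA)).resolve_left h1
        exact hC u (hAX hu.1) z hz v hv (hz1 u hu.1) (hz1 v hvA).symm huv hu.2 h2
      · exact hAR u hu.1 v hv hv2 hvA huv
  by_cases hZ : ∃ z ∈ X, ℓ z = 2 ∧ ∀ u ∈ A, R z u
  · obtain ⟨z0, hz0, hz02, hz0A⟩ := hZ
    by_cases hlab : ∃ u1 ∈ A, ∃ u2 ∈ A, ℓ u1 ≠ ℓ u2
    · obtain ⟨u1, hu1, u2, hu2, h12⟩ := hlab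
      refine ⟨{z ∈ X | ℓ z = 2 ∧ ∀ u ∈ A, R z u}, fun z hz => hz.1, ⟨z0, hz0, hz02, hz0A⟩, ?_, ?_⟩
      · intro h
        obtain ⟨u, hu, h0⟩ := hall 0
        rw [← h] at hu
        have h2 := hu.2.1
        rw [h0] at h2
        exact absurd h2 (by decide)
      · intro z hz v hv _ hzv
        have hv2 : ℓ v ≠ 2 := by
          rw [← hz.2.1]
          exact hzv.symm
        by_cases hvA : v ∈ A
        · exact hz.2.2 v hvA
        · have key : ∀ u ∈ A, ℓ u ≠ ℓ v → R z v := by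
            intro u hu huv
            have h3 : ℓ z ≠ ℓ u := by
              rw [hz.2.1]
              exact (hA2 u hu).symm
            exact hC z hz.1 u (hAX hu) v hv h3 huv hzv (hz.2.2 u hu) (hAR u hu v hv hv2 hvA huv)
          by_cases h1v : ℓ u1 = ℓ v
          · exact key u2 hu2 (fun h => h12 (h1v.trans h.symm))
          · exact key u1 hu1 h1v
    · push Not at hlab
      obtain ⟨a, ha⟩ := hAne
      have h3 : ∀ i : Fin 3, ∃ j : Fin 3, j ≠ 2 ∧ j ≠ i := by decide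
      obtain ⟨j, hj2, hja⟩ := h3 (ℓ a)
      obtain ⟨w0, hw0, hw0j⟩ := hall j
      have hall3 : ∀ i j k l : Fin 3, i ≠ 2 → j ≠ 2 → j ≠ i → l ≠ 2 → l ≠ i → l = j := by decide
      refine ⟨{x ∈ X | (ℓ x = ℓ a ∨ ℓ x = 2) ∧ ∀ v ∈ X, ℓ v ≠ 2 → ℓ v ≠ ℓ a → R x v},
        fun x hx => hx.1, ⟨a, hAX ha, Or.inl rfl, ?_⟩, ?_, ?_⟩
      · intro v hv hv2 hva
        exact hAR a ha v hv hv2 (fun hvA => hva (hlab v hvA a ha)) hva.symm
      · intro h
        rw [← h] at hw0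
        rcases hw0.2.1 with h4 | h4
        · exact hja (hw0j.symm.trans h4)
        · exact hj2 (hw0j.symm.trans h4)
      · intro u hu v hv hvn huv
        by_cases hvj : ℓ v ≠ 2 ∧ ℓ v ≠ ℓ a
        · exact hu.2.2 v hv hvj.1 hvj.2
        · have hv' : ℓ v = ℓ a ∨ ℓ v = 2 := by
            by_contra h5
            rw [not_or] at h5
            exact hvj ⟨h5.2, h5.1⟩
          have h6 : ∃ w ∈ X, ℓ w ≠ 2 ∧ ℓ w ≠ ℓ a ∧ ¬ R v w := by
            by_contra h7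
            push Not at h7
            exact hvn ⟨hv, hv', h7⟩
          obtain ⟨w, hw, hw2, hwa, hnR⟩ := h6
          refine (hT u hu.1 v hv huv).resolve_right fun hvu => hnR ?_
          refine hC v hv u hu.1 w hw huv.symm ?_ ?_ hvu (hu.2.2 w hw hw2 hwa)
          · rcases hu.2.1 with h8 | h8
            · rw [h8]
              exact hwa.symm
            · rw [h8]
              exact hw2.symm
          · rcases hv' with h8 | h8
            · rw [h8]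
              exact hwa.symm
            · rw [h8]
              exact hw2.symm
  · push Not at hZ
    refine ⟨A, hAX, hAne, ?_, ?_⟩
    · intro h
      obtain ⟨z, hz, hz2⟩ := hall 2
      rw [← h] at hz
      exact hA2 z hz hz2
    · intro u hu v hv hvA huv
      by_cases hv2 : ℓ v = 2
      · rcases hone v hv hv2 with h1 | h1
        · exact h1 u hu
        · obtain ⟨u', hu', hn⟩ := hZ v hv hv2
          exact absurd (h1 u' hu') hn
      · exact hAR u hu v hv hv2 hvA huv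

theorem exists_cut {X : Set V} (hX : X.Finite) (htri : TriFree G X)
    (hnull : ∀ x ∈ X, ∀ y ∈ X, ∀ z ∈ X, ℓ x = 0 → ℓ y = 1 → ℓ z = 2 →
      ¬ (¬ G.Adj x y ∧ ¬ G.Adj y z ∧ ¬ G.Adj x z))
    (hall : ∀ i, ∃ u ∈ X, ℓ u = i) : ∃ A ⊆ X, A.Nonempty ∧ A ≠ X ∧
      ∀ u ∈ A, ∀ v ∈ X, v ∉ A → ℓ u ≠ ℓ v → (G.Adj u v ↔ ℓ v = ℓ u + 1) := by
  have h6 : ∀ i j k : Fin 3, i ≠ j → j ≠ k → i ≠ k →
      (i = 0 ∧ j = 1 ∧ k = 2) ∨ (i = 0 ∧ j = 2 ∧ k = 1) ∨ (i = 1 ∧ j = 0 ∧ k = 2) ∨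
      (i = 1 ∧ j = 2 ∧ k = 0) ∨ (i = 2 ∧ j = 0 ∧ k = 1) ∨ (i = 2 ∧ j = 1 ∧ k = 0) := by decide
  have hnull' : ∀ x ∈ X, ∀ y ∈ X, ∀ z ∈ X, ℓ x ≠ ℓ y → ℓ y ≠ ℓ z → ℓ x ≠ ℓ z →
      ¬ G.Adj x y → ¬ G.Adj y z → ¬ G.Adj x z → False := by
    intro x hx y hy z hz hxy hyz hxz n1 n2 n3
    have m1 : ¬ G.Adj y x := fun h => n1 h.symm
    have m2 : ¬ G.Adj z y := fun h => n2 h.symm
    have m3 : ¬ G.Adj z x := fun h => n3 h.symm
    rcases h6 _ _ _ hxy hyz hxz with ⟨a, b, c⟩ | ⟨a, b, c⟩ | ⟨a, b, c⟩ | ⟨a, b, c⟩ | ⟨a, b, c⟩ |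
      ⟨a, b, c⟩
    · exact hnull x hx y hy z hz a b c ⟨n1, n2, n3⟩
    · exact hnull x hx z hz y hy a c b ⟨n3, m2, n1⟩
    · exact hnull y hy x hx z hz b a c ⟨m1, n3, n2⟩
    · exact hnull z hz x hx y hy c a b ⟨m3, n1, m2⟩
    · exact hnull y hy z hz x hx b c a ⟨n2, m3, m1⟩
    · exact hnull z hz y hy x hx c b a ⟨m2, m1, m3⟩
  have h3 : ∀ i j : Fin 3, i ≠ j → (j = i + 1 ↔ ¬ i = j + 1) := by decide
  have hT : ∀ u ∈ X, ∀ v ∈ X, ℓ u ≠ ℓ v →
      ((G.Adj u v ↔ ℓ v = ℓ u + 1) ∨ (G.Adj v u ↔ ℓ u = ℓ v + 1)) := by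
    intro u _ v _ huv
    have h4 := h3 _ _ huv
    have h5 : G.Adj v u ↔ G.Adj u v := G.adj_comm v u
    tauto
  have h33 : ∀ i j k : Fin 3, i ≠ j → j ≠ k → i ≠ k →
      (j = i + 1 ∧ k = j + 1 ∧ i = k + 1) ∨
      (¬ j = i + 1 ∧ ¬ k = j + 1 ∧ ¬ i = k + 1) := by decide
  refine NoTri_cut (ℓ := ℓ) (R := fun u v => (G.Adj u v ↔ ℓ v = ℓ u + 1)) hX hT ?_ hall
  intro x hx y hy z hz hxy hyz hxz hRxy hRyz
  by_contra hn
  have hRzx : G.Adj z x ↔ ℓ x = ℓ z + 1 := (hT x hx z hz hxz).resolve_left hn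
  have hRxy' : G.Adj x y ↔ ℓ y = ℓ x + 1 := hRxy
  have hRyz' : G.Adj y z ↔ ℓ z = ℓ y + 1 := hRyz
  rcases h33 _ _ _ hxy hyz hxz with ⟨a, b, c⟩ | ⟨a, b, c⟩
  · exact htri x hx y hy z hz (hRxy'.2 a) (hRyz'.2 b) (hRzx.2 c).symm
  · exact hnull' x hx y hy z hz hxy hyz hxz (fun h => a (hRxy'.1 h)) (fun h => b (hRyz'.1 h))
      (fun h => c (hRzx.1 h.symm))

theorem type_two {M : Set V} (hM : M.Finite) {K : ℕ} (hK : 3 ≤ K)
    (hind : ∀ u ∈ M, ∀ v ∈ M, ℓ u = ℓ v → ¬ G.Adj u v) (htri : TriFree G M)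
    (hnull : ∀ x ∈ M, ∀ y ∈ M, ∀ z ∈ M, ℓ x = 0 → ℓ y = 1 → ℓ z = 2 →
      ¬ (¬ G.Adj x y ∧ ¬ G.Adj y z ∧ ¬ G.Adj x z))
    (hB : ∀ Y ⊆ M, (∃ i, ∀ u ∈ Y, ℓ u ≠ i) → Dec G ℓ K Y Y) : Dec G ℓ K M M := by
  have key : ∀ n : ℕ, ∀ N ⊆ M, N.ncard = n → Dec G ℓ K N N := by
    intro n
    induction n using Nat.strong_induction_on with
    | _ n ih =>
      intro N hN hn
      by_cases hmiss : ∃ i, ∀ u ∈ N, ℓ u ≠ i
      · exact hB N hN hmiss
      · push Not at hmiss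
        have hNfin : N.Finite := hM.subset hN
        obtain ⟨A, hAN, hAne, hAN', hcut⟩ := exists_cut hNfin
          (fun a ha b hb c hc => htri a (hN ha) b (hN hb) c (hN hc))
          (fun x hx y hy z hz => hnull x (hN hx) y (hN hy) z (hN hz)) hmiss
        have hAlt : A.ncard < N.ncard :=
          Set.ncard_lt_ncard (lt_of_le_of_ne hAN hAN') hNfin
        have hBlt : (N \ A).ncard < N.ncard := by
          refine Set.ncard_lt_ncard ⟨Set.sdiff_subset, fun hsub => ?_⟩ hNfin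
          obtain ⟨a, ha⟩ := hAne
          exact (hsub (hAN ha)).2 ha
        have hDA : Dec G ℓ K A A := ih _ (hn ▸ hAlt) A (hAN.trans hN) rfl
        have hDB : Dec G ℓ K (N \ A) (N \ A) :=
          ih _ (hn ▸ hBlt) (N \ A) (Set.sdiff_subset.trans hN) rfl
        have hu : A ∪ (N \ A) = N := Set.union_sdiff_cancel hAN
        have hcard : Nat.card (Fin 3) ≤ K := by
          rw [Nat.card_eq_fintype_card, Fintype.card_fin]
          exact hK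
        have hglue := Dec.glue hcard (by omega) Set.disjoint_sdiff_right hDA hDB ?_ ?_
        · rw [hu] at hglue
          exact hglue
        · intro u hu1 u' hu2 v hv huu
          by_cases huv : ℓ u = ℓ v
          · have h1 := hind u (hN (hAN hu1)) v (hN hv.1) huv
            have h2 := hind u' (hN (hAN hu2)) v (hN hv.1) (huu.symm.trans huv)
            exact ⟨fun h => absurd h h1, fun h => absurd h h2⟩
          · have h1 := hcut u hu1 v hv.1 hv.2 huv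
            have h2 := hcut u' hu2 v hv.1 hv.2 (by rw [← huu]; exact huv)
            rw [h1, h2, huu]
        · intro u hu1 v hv v' hv' hvv
          by_cases huv : ℓ u = ℓ v
          · have h1 := hind u (hN (hAN hu1)) v (hN hv.1) huv
            have h2 := hind u (hN (hAN hu1)) v' (hN hv'.1) (huv.trans hvv)
            exact ⟨fun h => absurd h h1, fun h => absurd h h2⟩
          · have h1 := hcut u hu1 v hv.1 hv.2 huv
            have h2 := hcut u hu1 v' hv'.1 hv'.2 (by rw [← hvv]; exact huv)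
            rw [h1, h2, hvv]
  exact key _ M subset_rfl rfl

end Pool.Agent.H68.CW
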