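import Pool.Agent.H68.CW.OddWalk

/-!
ODD. Graphs which are not bipartite and have no triangles, no induced `C₅` and no `S_{1,2,3}`.

Proof of `odd_case`. Let `k` be the smallest odd number such that there is `p` as in `odd_walk`; `k ≥ 3`.
(1) If `p i ~ p j` (`i < j < k`) then `j = i + 1` or `(i, j) = (0, k - 1)`: otherwise the two closed walks `p i, p (i+1), ..., p j` (length `j - i + 1`) and `p j, ..., p (k-1), p 0, ..., p i` (length `k - (j - i) + 1`) are both shorter than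
`k` and the sum of their lengths is `k + 2`, odd: one of them is odd. Contradiction (a closed walk of length `1` is impossible). `k = 3` is a triangle; `k = 5` is an induced `C₅` (`hC`). So `k ≥ 7`.
For later use, call `q` a good cycle if `q i ∈ M` (`i < k`) and `G.Adj (q i) (q j) ↔ ((i + 1) % k = j ∨ (j + 1) % k = i)` for `i, j < k`. So `p` is a good cycle.
(2) Let `q` be a good cycle, `v ∈ M`. If `v ~ q i`, `v ~ q j`, `i < j`, then `j = i + 2` or `i + k = j + 2`: the closed walks through `v` and the two arcs have the lengths `j - i + 2` and `k - (j - i) + 2`, of different parity, and the odd one is at least `k`. So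
(three neighbours would be pairwise at distance `2` on a cycle of length `k ≥ 7`) `v` has no neighbour on `q`, or exactly one, or exactly two `q (i - 1)`, `q (i + 1)` (indices mod `k`).
(3) Exactly one neighbour `q i` is impossible: `IsS G (q i) v (q (i + 1)) (q (i + 2)) (q (i - 1)) (q (i - 2)) (q (i - 3))` (indices mod `k`, `k ≥ 7`).
(4) Say `v` is of type `i` (for the fixed `p`) if its neighbours on `p` are `p (i - 1)` and `p (i + 1)` (mod `k`); `p i` itself is of type `i`. For `v` of type `i`, the sequence `q` with `q i = v` and `q j = p j` for `j ≠ i` is a good cycle. If `w ∈ M` is of type `j`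
then `w ~ v` iff `j = i + 1` or `j = i - 1` (mod `k`): if `j = i + 1` then `w ~ q (i + 2)`, `w` has at most the further neighbour `q i = v` on `q` (it is not adjacent to other `p`'s), so `w ~ v` by (3). If `j ≠ i ± 1`, `w` has the two neighbours `p (j ± 1)` on `q` (both are
different from `p i`), and if `w ~ v = q i` it would have three, against (2).
(5) All vertices of `M` are of some type: the set `A` of the vertices of `M` with some type is nonempty; if `A ≠ M` then by `Conn` there are `v ∈ A` of type `i`, `w ∈ M \ A`, `v ~ w`. `w` has no type, so no neighbour on `p`, by (2), (3). On the good cycle `q` of (4) `w` has exactly one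
neighbour `v`: against (3).
(6) So with `c v` = the type of `v`, `CycBl G M k c`.
-/

set_option autoImplicit false

namespace Pool.Agent.H68.CW

variable {V : Type} {G : SimpleGraph V} {M : Set V}

/-- `x` and `y` are neighbours on the cycle with the vertices `0, ..., k - 1` -/
private def AC (k x y : ℕ) : Prop :=
  x + 1 = y ∨ y + 1 = x ∨ (x + 1 = k ∧ y = 0) ∨ (y + 1 = k ∧ x = 0)

private theorem ac_iff {k x y : ℕ} (hx : x < k) (hy : y < k) :
    ((x + 1) % k = y ∨ (y + 1) % k = x) ↔ AC k x y := by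
  unfold AC
  rcases Nat.lt_or_ge (x + 1) k with h1 | h1
  · rcases Nat.lt_or_ge (y + 1) k with h2 | h2
    · rw [Nat.mod_eq_of_lt h1, Nat.mod_eq_of_lt h2]
      omega
    · have h3 : y + 1 = k := by omega
      rw [Nat.mod_eq_of_lt h1, h3, Nat.mod_self]
      omega
  · have h4 : x + 1 = k := by omega
    rcases Nat.lt_or_ge (y + 1) k with h2 | h2
    · rw [Nat.mod_eq_of_lt h2, h4, Nat.mod_self]
      omega
    · have h3 : y + 1 = k := by omega
      rw [h3, h4, Nat.mod_self]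
      omega

private theorem modk' (k s x y : ℕ) :
    ((s + x) % k + 1) % k = (s + y) % k ↔ (x + 1) % k = y % k := by
  rw [Nat.mod_add_mod, Nat.add_assoc]
  exact ⟨fun h => Nat.ModEq.add_left_cancel' s h, fun h => Nat.ModEq.add_left s h⟩

/-- closed walks of length `L` -/
private def Cl (G : SimpleGraph V) (M : Set V) (L : ℕ) : Prop :=
  ∃ p : ℕ → V, (∀ i, i < L → p i ∈ M) ∧ ∀ i, i < L → G.Adj (p i) (p ((i + 1) % L))

private theorem cl_of {L : ℕ} (s : ℕ → V) (hM : ∀ t, t < L → s t ∈ M)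
    (hadj : ∀ t, t + 1 < L → G.Adj (s t) (s (t + 1))) (hlast : G.Adj (s (L - 1)) (s 0)) :
    Cl G M L := by
  refine ⟨s, hM, fun i hi => ?_⟩
  rcases Nat.lt_or_ge (i + 1) L with h | h
  · rw [Nat.mod_eq_of_lt h]
    exact hadj i h
  · have h1 : i + 1 = L := by omega
    have h2 : L - 1 = i := by omega
    rw [h1, Nat.mod_self]
    rw [h2] at hlast
    exact hlast

private theorem chord {k : ℕ} {P : ℕ → V} (hPM : ∀ n, P n ∈ M)
    (hPs : ∀ n, G.Adj (P n) (P (n + 1))) (hmin : ∀ L, L % 2 = 1 → L < k → ¬ Cl G M L)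
    {a b : ℕ} (hab : a ≤ b) (h : G.Adj (P a) (P b)) (hodd : (b - a + 1) % 2 = 1) :
    k ≤ b - a + 1 := by
  by_contra hlt
  refine hmin (b - a + 1) hodd (by omega) (cl_of (fun t => P (a + t)) (fun t _ => hPM _)
    (fun t _ => hPs (a + t)) ?_)
  have h1 : a + (b - a + 1 - 1) = b := by omega
  rw [h1, Nat.add_zero]
  exact h.symm

private theorem chordv {k : ℕ} {P : ℕ → V} (hPM : ∀ n, P n ∈ M)
    (hPs : ∀ n, G.Adj (P n) (P (n + 1))) (hmin : ∀ L, L % 2 = 1 → L < k → ¬ Cl G M L)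
    {v : V} (hv : v ∈ M) {a b : ℕ} (hab : a ≤ b) (ha : G.Adj v (P a)) (hb : G.Adj v (P b))
    (hodd : (b - a + 2) % 2 = 1) : k ≤ b - a + 2 := by
  by_contra hlt
  refine hmin (b - a + 2) hodd (by omega) (cl_of (fun t => if t = 0 then v else P (a + (t - 1)))
    ?_ ?_ ?_)
  · intro t _
    by_cases h0 : t = 0
    · rw [if_pos h0]
      exact hv
    · rw [if_neg h0]
      exact hPM _
  · intro t _
    by_cases h0 : t = 0
    · subst h0
      rw [if_pos rfl, if_neg (by omega)]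
      exact ha
    · rw [if_neg h0, if_neg (by omega)]
      have h1 : a + (t + 1 - 1) = a + (t - 1) + 1 := by omega
      rw [h1]
      exact hPs _
  · rw [if_neg (by omega), if_pos rfl]
    have h1 : a + (b - a + 2 - 1 - 1) = b := by omega
    rw [h1]
    exact hb.symm

/-- induced cycles of length `k` -/
private structure Good (G : SimpleGraph V) (M : Set V) (k : ℕ) (q : ℕ → V) : Prop where
  mem : ∀ i, i < k → q i ∈ M
  adj : ∀ i j, i < k → j < k → (G.Adj (q i) (q j) ↔ AC k i j)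

private theorem two_nbrs {k : ℕ} (hodd : k % 2 = 1) {q : ℕ → V} (hq : Good G M k q)
    (hmin : ∀ L, L % 2 = 1 → L < k → ¬ Cl G M L) {v : V} (hv : v ∈ M) {i j : ℕ} (hij : i < j)
    (hj : j < k) (hvi : G.Adj v (q i)) (hvj : G.Adj v (q j)) : j = i + 2 ∨ i + k = j + 2 := by
  have hk0 : 0 < k := by omega
  have hlt : ∀ x, x % k < k := fun x => Nat.mod_lt x hk0
  have hPM : ∀ n, q (n % k) ∈ M := fun n => hq.mem _ (hlt n)
  have hPs : ∀ n, G.Adj (q (n % k)) (q ((n + 1) % k)) := by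
    intro n
    rw [hq.adj _ _ (hlt _) (hlt _), ← ac_iff (hlt _) (hlt _)]
    left
    rw [Nat.mod_add_mod]
  have hPi : q (i % k) = q i := by rw [Nat.mod_eq_of_lt (by omega)]
  have hPj : q (j % k) = q j := by rw [Nat.mod_eq_of_lt hj]
  have hPik : q ((i + k) % k) = q i := by
    rw [Nat.add_mod_right, Nat.mod_eq_of_lt (by omega)]
  rcases Nat.mod_two_eq_zero_or_one (j - i + 2) with h | h
  · have h1 := chordv (P := fun n => q (n % k)) hPM hPs hmin hv (a := j) (b := i + k) (by omega)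
      (by rw [hPj]; exact hvj) (by rw [hPik]; exact hvi) (by omega)
    omega
  · have h1 := chordv (P := fun n => q (n % k)) hPM hPs hmin hv (a := i) (b := j) (by omega)
      (by rw [hPi]; exact hvi) (by rw [hPj]; exact hvj) h
    omega

private theorem not_one (hS : FreeS G M) {k : ℕ} (hk : 7 ≤ k) {q : ℕ → V} (hq : Good G M k q)
    {v : V} (hv : v ∈ M) {i : ℕ} (hi : i < k) (hvi : G.Adj v (q i))
    (h : ∀ j, j < k → j ≠ i → ¬ G.Adj v (q j)) : False := by
  have hk0 : 0 < k := by omega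
  have hlt : ∀ x, x % k < k := fun x => Nat.mod_lt x hk0
  obtain ⟨m, hm⟩ : ∃ m, m + 3 = i + k := ⟨i + k - 3, by omega⟩
  have hP : ∀ a b, a ≤ 5 → b ≤ 5 →
      (G.Adj (q ((m + a) % k)) (q ((m + b) % k)) ↔ (a + 1 = b ∨ b + 1 = a)) := by
    intro a b ha hb
    rw [hq.adj _ _ (hlt _) (hlt _), ← ac_iff (hlt _) (hlt _), modk', modk',
      Nat.mod_eq_of_lt (show a < k by omega), Nat.mod_eq_of_lt (show b < k by omega),
      Nat.mod_eq_of_lt (show a + 1 < k by omega), Nat.mod_eq_of_lt (show b + 1 < k by omega)]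
  have h3 : (m + 3) % k = i := by
    rw [hm, Nat.add_mod_right]
    exact Nat.mod_eq_of_lt hi
  have hv3 : G.Adj v (q ((m + 3) % k)) := by
    rw [h3]
    exact hvi
  have hva : ∀ a, a ≤ 5 → a ≠ 3 → ¬ G.Adj v (q ((m + a) % k)) := by
    intro a ha ha3
    refine h _ (hlt _) (fun heq => ha3 ?_)
    rw [← h3] at heq
    have h5 : a % k = 3 % k := Nat.ModEq.add_left_cancel' m heq
    rw [Nat.mod_eq_of_lt (show a < k by omega), Nat.mod_eq_of_lt (show 3 < k by omega)] at h5
    exact h5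
  have hPM : ∀ n, q (n % k) ∈ M := fun n => hq.mem _ (hlt n)
  have hn : ∀ a b, a ≤ 5 → b ≤ 5 → ¬ (a + 1 = b ∨ b + 1 = a) →
      ¬ G.Adj (q ((m + a) % k)) (q ((m + b) % k)) := fun a b ha hb hab hh => hab ((hP a b ha hb).1 hh)
  have hy : ∀ a b, a ≤ 5 → b ≤ 5 → (a + 1 = b ∨ b + 1 = a) →
      G.Adj (q ((m + a) % k)) (q ((m + b) % k)) := fun a b ha hb hab => (hP a b ha hb).2 hab
  refine hS (q ((m + 3) % k)) (hPM _) v hv (q ((m + 4) % k)) (hPM _) (q ((m + 5) % k)) (hPM _)
    (q ((m + 2) % k)) (hPM _) (q ((m + 1) % k)) (hPM _) (q ((m + 0) % k)) (hPM _) ?_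
  refine ⟨⟨hv3.symm, hy 3 4 ?_ ?_ ?_, hy 4 5 ?_ ?_ ?_, hy 3 2 ?_ ?_ ?_, hy 2 1 ?_ ?_ ?_,
      hy 1 0 ?_ ?_ ?_⟩,
    ⟨hn 3 5 ?_ ?_ ?_, hn 3 1 ?_ ?_ ?_, hn 3 0 ?_ ?_ ?_⟩,
    ⟨hva 4 ?_ ?_, hva 5 ?_ ?_, hva 2 ?_ ?_, hva 1 ?_ ?_, hva 0 ?_ ?_⟩,
    ⟨hn 4 2 ?_ ?_ ?_, hn 4 1 ?_ ?_ ?_, hn 4 0 ?_ ?_ ?_⟩,
    ⟨hn 5 2 ?_ ?_ ?_, hn 5 1 ?_ ?_ ?_, hn 5 0 ?_ ?_ ?_⟩, hn 2 0 ?_ ?_ ?_⟩ <;> omega

private theorem type_of (hS : FreeS G M) {k : ℕ} (hk : 7 ≤ k) (hodd : k % 2 = 1) {q : ℕ → V}
    (hq : Good G M k q) (hmin : ∀ L, L % 2 = 1 → L < k → ¬ Cl G M L) {v : V} (hv : v ∈ M)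
    {a : ℕ} (ha : a < k) (hva : G.Adj v (q a)) :
    ∃ i, i < k ∧ ∀ j, j < k → (G.Adj v (q j) ↔ AC k i j) := by
  have h2 : ∃ b, b < k ∧ b ≠ a ∧ G.Adj v (q b) := by
    by_contra hcon
    push Not at hcon
    exact not_one hS hk hq hv ha hva hcon
  obtain ⟨b, hb, hba, hvb⟩ := h2
  -- order them
  obtain ⟨x, y, hxy, hy, hvx, hvy⟩ : ∃ x y, x < y ∧ y < k ∧ G.Adj v (q x) ∧ G.Adj v (q y) := by
    rcases Nat.lt_or_ge a b with h | h
    · exact ⟨a, b, h, hb, hva, hvb⟩
    · exact ⟨b, a, by omega, ha, hvb, hva⟩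
  have hd := two_nbrs hodd hq hmin hv hxy hy hvx hvy
  have hthird : ∀ j, j < k → G.Adj v (q j) → j = x ∨ j = y := by
    intro j hj hvj
    by_contra hcon
    push Not at hcon
    obtain ⟨hjx, hjy⟩ := hcon
    have e1 : (j = x + 2 ∨ x + k = j + 2) ∨ (x = j + 2 ∨ j + k = x + 2) := by
      rcases Nat.lt_or_ge x j with h | h
      · exact Or.inl (two_nbrs hodd hq hmin hv h hj hvx hvj)
      · exact Or.inr (two_nbrs hodd hq hmin hv (by omega) (by omega) hvj hvx)
    have e2 : (j = y + 2 ∨ y + k = j + 2) ∨ (y = j + 2 ∨ j + k = y + 2) := by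
      rcases Nat.lt_or_ge y j with h | h
      · exact Or.inl (two_nbrs hodd hq hmin hv h hj hvy hvj)
      · exact Or.inr (two_nbrs hodd hq hmin hv (by omega) (by omega) hvj hvy)
    omega
  have hiff : ∀ j, j < k → (G.Adj v (q j) ↔ (j = x ∨ j = y)) := by
    intro j hj
    refine ⟨hthird j hj, ?_⟩
    rintro (h | h)
    · rw [h]
      exact hvx
    · rw [h]
      exact hvy
  rcases hd with h | h
  · refine ⟨x + 1, by omega, fun j hj => ?_⟩
    rw [hiff j hj]
    unfold AC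
    omega
  · by_cases hx0 : x = 0
    · refine ⟨k - 1, by omega, fun j hj => ?_⟩
      rw [hiff j hj]
      unfold AC
      omega
    · refine ⟨0, by omega, fun j hj => ?_⟩
      rw [hiff j hj]
      unfold AC
      omega

private theorem good_update {k : ℕ} (hk : 7 ≤ k) {p : ℕ → V} (hp : Good G M k p) {v : V}
    (hv : v ∈ M) {i : ℕ} (hi : i < k) (hvi : ∀ j, j < k → (G.Adj v (p j) ↔ AC k i j)) :
    Good G M k (fun j => if j = i then v else p j) := by
  constructor
  · intro j hj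
    by_cases h : j = i
    · rw [if_pos h]
      exact hv
    · rw [if_neg h]
      exact hp.mem j hj
  · intro a b ha hb
    by_cases h1 : a = i
    · by_cases h2 : b = i
      · rw [if_pos h1, if_pos h2]
        constructor
        · intro h
          exact absurd h G.irrefl
        · intro h
          exfalso
          unfold AC at h
          omega
      · rw [if_pos h1, if_neg h2, hvi b hb, h1]
    · by_cases h2 : b = i
      · rw [if_neg h1, if_pos h2, G.adj_comm, hvi a ha, h2]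
        unfold AC
        omega
      · rw [if_neg h1, if_neg h2]
        exact hp.adj a b ha hb

private theorem exists_succ {k x : ℕ} (hk : 7 ≤ k) (hx : x < k) :
    ∃ y, y < k ∧ (x + 1 = y ∨ (x + 1 = k ∧ y = 0)) := by
  by_cases h : x + 1 = k
  · exact ⟨0, by omega, Or.inr ⟨h, rfl⟩⟩
  · exact ⟨x + 1, by omega, Or.inl rfl⟩

private theorem exists_pred {k x : ℕ} (hk : 7 ≤ k) (hx : x < k) :
    ∃ y, y < k ∧ (y + 1 = x ∨ (y + 1 = k ∧ x = 0)) := by
  by_cases h : x = 0
  · exact ⟨k - 1, by omega, Or.inr ⟨by omega, h⟩⟩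
  · exact ⟨x - 1, by omega, Or.inl (by omega)⟩

private theorem ac_unique {k x y : ℕ} (hk : 7 ≤ k) (hx : x < k) (hy : y < k)
    (h : ∀ l, l < k → (AC k x l ↔ AC k y l)) : x = y := by
  obtain ⟨a, ha, ha'⟩ := exists_succ hk hx
  obtain ⟨b, hb, hb'⟩ := exists_pred hk hx
  have h1 := (h a ha).1 (by unfold AC; omega)
  have h2 := (h b hb).1 (by unfold AC; omega)
  unfold AC at h1 h2
  omega

private theorem comb {k i x y : ℕ} (hk : 7 ≤ k) (hi : i < k) (hx : x < k) (hy : y < k)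
    (h : ∀ l, l < k → l ≠ i → (AC k x l ↔ AC k y l)) (hxi : AC k x i) : AC k y i := by
  by_contra hcon
  obtain ⟨a, ha, ha'⟩ := exists_succ hk hy
  obtain ⟨b, hb, hb'⟩ := exists_pred hk hy
  have hai : a ≠ i := by
    intro h1
    apply hcon
    rw [← h1]
    unfold AC
    omega
  have hbi : b ≠ i := by
    intro h1
    apply hcon
    rw [← h1]
    unfold AC
    omega
  have h1 := (h a ha hai).2 (by unfold AC; omega)
  have h2 := (h b hb hbi).2 (by unfold AC; omega)
  unfold AC at h1 h2 hxi hcon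
  omega

/-- adjacency of typed vertices -/
private theorem type_adj (hS : FreeS G M) {k : ℕ} (hk : 7 ≤ k) (hodd : k % 2 = 1) {p : ℕ → V}
    (hp : Good G M k p) (hmin : ∀ L, L % 2 = 1 → L < k → ¬ Cl G M L) {v w : V} (hv : v ∈ M)
    (hw : w ∈ M) {i j : ℕ} (hi : i < k) (hj : j < k)
    (hvi : ∀ l, l < k → (G.Adj v (p l) ↔ AC k i l))
    (hwj : ∀ l, l < k → (G.Adj w (p l) ↔ AC k j l)) : G.Adj w v ↔ AC k j i := by
  obtain ⟨q, hq, hqi, hql⟩ : ∃ q : ℕ → V, Good G M k q ∧ q i = v ∧ ∀ l, l ≠ i → q l = p l :=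
    ⟨_, good_update hk hp hv hi hvi, if_pos rfl, fun l hl => if_neg hl⟩
  have key : ∀ a, a < k → G.Adj w (q a) → (G.Adj w v ↔ AC k j i) := by
    intro a ha hwa
    obtain ⟨i', hi', hi''⟩ := type_of hS hk hodd hq hmin hw ha hwa
    have h1 : ∀ l, l < k → l ≠ i → (AC k i' l ↔ AC k j l) := by
      intro l hl hli
      rw [← hi'' l hl, hql l hli, hwj l hl]
    have h2 : G.Adj w v ↔ AC k i' i := by
      rw [← hi'' i hi, hqi]
    rw [h2]
    exact ⟨comb hk hi hi' hj h1, comb hk hi hj hi' (fun l hl hli => (h1 l hl hli).symm)⟩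
  constructor
  · intro h
    exact (key i hi (by rw [hqi]; exact h)).1 h
  · intro h
    obtain ⟨a, ha, hai, haj⟩ : ∃ a, a < k ∧ a ≠ i ∧ AC k j a := by
      obtain ⟨a, ha, ha'⟩ := exists_succ hk hj
      obtain ⟨b, hb, hb'⟩ := exists_pred hk hj
      by_cases h1 : a = i
      · exact ⟨b, hb, by omega, by unfold AC; omega⟩
      · exact ⟨a, ha, h1, by unfold AC; omega⟩
    refine (key a ha ?_).2 h
    rw [hql a hai]
    exact (hwj a ha).2 haj

theorem odd_case (hconn : Conn G M) (htri : TriFree G M) (hS : FreeS G M)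
    (hnb : ¬ ∃ side : V → Bool, Bip G side M)
    (hC : ¬ ∃ p : ℕ → V, (∀ i, i < 5 → p i ∈ M) ∧
      ∀ i j, i < 5 → j < 5 → (G.Adj (p i) (p j) ↔ ((i + 1) % 5 = j ∨ (j + 1) % 5 = i))) :
    ∃ k c, 7 ≤ k ∧ CycBl G M k c := by
  classical
  -- the shortest odd closed walk
  have hex : ∃ k, k % 2 = 1 ∧ Cl G M k := by
    obtain ⟨k, p, h1, h2, h3⟩ := odd_walk hnb
    exact ⟨k, h1, p, h2, h3⟩
  obtain ⟨k, ⟨hodd, p, hpM, hps⟩, hmin'⟩ : ∃ k, (k % 2 = 1 ∧ Cl G M k) ∧
      ∀ L, L < k → ¬ (L % 2 = 1 ∧ Cl G M L) :=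
    ⟨Nat.find hex, Nat.find_spec hex, fun L hL => Nat.find_min hex hL⟩
  have hmin : ∀ L, L % 2 = 1 → L < k → ¬ Cl G M L := fun L hL hLk h => hmin' L hLk ⟨hL, h⟩
  have hk0 : 0 < k := by omega
  have hlt : ∀ x, x % k < k := fun x => Nat.mod_lt x hk0
  have hk1 : k ≠ 1 := by
    intro h
    subst h
    exact absurd (hps 0 (by omega)) G.irrefl
  have hPM : ∀ n, p (n % k) ∈ M := fun n => hpM _ (hlt n)
  have hPs : ∀ n, G.Adj (p (n % k)) (p ((n + 1) % k)) := by
    intro n
    have h1 := hps _ (hlt n)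
    rw [Nat.mod_add_mod] at h1
    exact h1
  -- (1)
  have hch : ∀ i j, i < j → j < k → G.Adj (p i) (p j) → j = i + 1 ∨ (i = 0 ∧ j + 1 = k) := by
    intro i j hij hj hadj
    have hPi : p (i % k) = p i := by rw [Nat.mod_eq_of_lt (by omega)]
    have hPj : p (j % k) = p j := by rw [Nat.mod_eq_of_lt hj]
    have hPik : p ((i + k) % k) = p i := by
      rw [Nat.add_mod_right, Nat.mod_eq_of_lt (by omega)]
    rcases Nat.mod_two_eq_zero_or_one (j - i + 1) with h | h
    · have h1 := chord (P := fun n => p (n % k)) hPM hPs hmin (a := j) (b := i + k) (by omega)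
        (by rw [hPj, hPik]; exact hadj.symm) (by omega)
      omega
    · have h1 := chord (P := fun n => p (n % k)) hPM hPs hmin (a := i) (b := j) (by omega)
        (by rw [hPi, hPj]; exact hadj) h
      omega
  have hgood : Good G M k p := by
    refine ⟨hpM, fun i j hi hj => ?_⟩
    constructor
    · intro h
      rcases Nat.lt_trichotomy i j with h1 | h1 | h1
      · have h2 := hch i j h1 hj h
        unfold AC
        omega
      · subst h1
        exact absurd h G.irrefl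
      · have h2 := hch j i h1 hi h.symm
        unfold AC
        omega
    · intro h
      rw [← ac_iff hi hj] at h
      rcases h with h | h
      · rw [← h]
        exact hps i hi
      · rw [← h]
        exact (hps j hj).symm
  have hk3 : k ≠ 3 := by
    intro h
    subst h
    exact htri (p 0) (hpM 0 (by omega)) (p 1) (hpM 1 (by omega)) (p 2) (hpM 2 (by omega))
      (hps 0 (by omega)) (hps 1 (by omega)) ((hgood.adj 0 2 (by omega) (by omega)).2
        (by unfold AC; omega))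
  have hk5 : k ≠ 5 := by
    intro h
    subst h
    refine hC ⟨p, hpM, fun i j hi hj => ?_⟩
    rw [hgood.adj i j hi hj, ac_iff hi hj]
  have hk : 7 ≤ k := by omega
  -- (5)
  have hall : ∀ v ∈ M, ∃ i, i < k ∧ ∀ l, l < k → (G.Adj v (p l) ↔ AC k i l) := by
    by_contra hcon
    push Not at hcon
    obtain ⟨v0, hv0, hv0'⟩ := hcon
    obtain ⟨v, hvA, w, hwM, hwA, hvw⟩ := hconn
      {v | v ∈ M ∧ ∃ i, i < k ∧ ∀ l, l < k → (G.Adj v (p l) ↔ AC k i l)}
      (fun v hv => hv.1) ⟨p 0, hpM 0 hk0, 0, hk0, fun l hl => hgood.adj 0 l hk0 hl⟩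
      (by
        intro heq
        have h1 : v0 ∈ {v | v ∈ M ∧ ∃ i, i < k ∧ ∀ l, l < k → (G.Adj v (p l) ↔ AC k i l)} := by
          rw [heq]
          exact hv0
        obtain ⟨_, i, hi, h2⟩ := h1
        obtain ⟨l, hl, h3⟩ := hv0' i hi
        have h4 := h2 l hl
        rcases h3 with h3 | h3
        · exact h3.2 (h4.1 h3.1)
        · exact h3.1 (h4.2 h3.2))
    obtain ⟨hv, i, hi, hvi⟩ := hvA
    apply hwA
    refine ⟨hwM, ?_⟩
    obtain ⟨q, hq, hqi, hql⟩ : ∃ q : ℕ → V, Good G M k q ∧ q i = v ∧ ∀ l, l ≠ i → q l = p l :=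
      ⟨_, good_update hk hgood hv hi hvi, if_pos rfl, fun l hl => if_neg hl⟩
    obtain ⟨i', hi', hi''⟩ := type_of hS hk hodd hq hmin hwM hi
      (by rw [hqi]; exact hvw.symm)
    obtain ⟨a, ha, hai, haj⟩ : ∃ a, a < k ∧ a ≠ i ∧ AC k i' a := by
      obtain ⟨a, ha, ha'⟩ := exists_succ hk hi'
      obtain ⟨b, hb, hb'⟩ := exists_pred hk hi'
      by_cases h1 : a = i
      · exact ⟨b, hb, by omega, by unfold AC; omega⟩
      · exact ⟨a, ha, h1, by unfold AC; omega⟩
    have h5 := (hi'' a ha).2 haj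
    rw [hql a hai] at h5
    exact type_of hS hk hodd hgood hmin hwM ha h5
  choose! c hc hc' using hall
  refine ⟨k, c, hk, hc, ?_, ?_⟩
  · intro i hi
    refine ⟨p i, hpM i hi, ?_⟩
    refine ac_unique hk (hc _ (hpM i hi)) hi (fun l hl => ?_)
    rw [← hc' _ (hpM i hi) l hl, hgood.adj i l hi hl]
  · intro u hu v hv
    rw [type_adj hS hk hodd hgood hmin hv hu (hc v hv) (hc u hu) (hc' v hv) (hc' u hu),
      ac_iff (hc u hu) (hc v hv)]

end Pool.Agent.H68.CW
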