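import Pool.Agent.H68.CW.BipDef

/-!
OW. A graph which is not bipartite has an odd closed walk.

Proof of `odd_walk`: if `G.induce M` has no odd closed walk then it is 2-colourable (`SimpleGraph.two_colorable_iff_forall_loop_even` or a similar lemma of Mathlib: search for `bipartite` and `Even` in
`Mathlib/Combinatorics/SimpleGraph`), and the colouring gives `side` with `Bip G side M` (any value outside `M`), against `hnb`. An odd closed walk `w` of length `k` gives `p i = w.getVert (i % k)`.
-/

set_option autoImplicit false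

namespace Pool.Agent.H68.CW

variable {V : Type} {G : SimpleGraph V} {M : Set V}

theorem odd_walk (hnb : ¬ ∃ side : V → Bool, Bip G side M) :
    ∃ (k : ℕ) (p : ℕ → V), k % 2 = 1 ∧ (∀ i, i < k → p i ∈ M) ∧
      ∀ i, i < k → G.Adj (p i) (p ((i + 1) % k)) := by
  classical
  by_contra hcon
  apply hnb
  have hcol : (G.induce M).Colorable 2 := by
    rw [SimpleGraph.two_colorable_iff_forall_loop_even]
    intro u w
    by_contra hodd
    apply hcon
    have hk : w.length % 2 = 1 := Nat.odd_iff.1 (Nat.not_even_iff_odd.1 hodd)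
    refine ⟨w.length, fun i => (w.getVert i : V), hk, fun i _ => (w.getVert i).2, fun i hi => ?_⟩
    have hadj : (G.induce M).Adj (w.getVert i) (w.getVert (i + 1)) := w.adj_getVert_succ hi
    have hadj' : G.Adj (w.getVert i : V) (w.getVert (i + 1) : V) := hadj
    show G.Adj (w.getVert i : V) (w.getVert ((i + 1) % w.length) : V)
    rcases Nat.lt_or_ge (i + 1) w.length with h | h
    · rw [Nat.mod_eq_of_lt h]
      exact hadj'
    · have he : i + 1 = w.length := by omega
      rw [he, Nat.mod_self, SimpleGraph.Walk.getVert_zero]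
      rw [he, SimpleGraph.Walk.getVert_length] at hadj'
      exact hadj'
  obtain ⟨C⟩ := hcol
  refine ⟨fun v => if h : v ∈ M then decide (C ⟨v, h⟩ = 0) else true, fun u hu v hv huv h => ?_⟩
  have hne : C ⟨u, hu⟩ ≠ C ⟨v, hv⟩ := C.valid (show (G.induce M).Adj ⟨u, hu⟩ ⟨v, hv⟩ from huv)
  simp only [hu, hv, dif_pos, decide_eq_decide] at h
  generalize C ⟨u, hu⟩ = a at *
  generalize C ⟨v, hv⟩ = b at *
  revert a b
  decide

end Pool.Agent.H68.CW
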