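import Pool.Agent.H68.CW.Dec

/-!
OD. Three classes `T` (label `0`), `A` (label `1`), `B` (label `2`) of type I: definitions, and the closure property.

Proof of `jclose` (use the same two vertices of the given triple in all six cases). In all three forms of `JTrip G t a b` we have `a ≁ b` (in the first one because there are no triangles).
* `t ~ a'`: if `t ~ b`: first form for `t, a', b`. Otherwise `t ≁ b`, `t ~ a`, `a ≁ b`: `f5` gives `a' ≁ b`: second form. `t ~ b'` similarly with `f7`.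
* `t' ~ a`: second form for `t', a, b`. `t' ~ b`: third form for `t', a, b`.
* `a ≁ b'`: if `t ~ a`: second form for `t, a, b'`. Otherwise `t ~ b`, and `f6` (`t ≁ a`, `a ≁ b`, `a ≁ b'`) gives `t ~ b'`: third form. `a' ≁ b` similarly with `f4`.
-/

set_option autoImplicit false

namespace Pool.Agent.H68.CW

variable {V : Type} {G : SimpleGraph V} {ℓ : V → Fin 3}

/-- the facts on three classes of type I -/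
structure OneFacts (G : SimpleGraph V) (ℓ : V → Fin 3) (M : Set V) : Prop where
  ind : ∀ u ∈ M, ∀ v ∈ M, ℓ u = ℓ v → ¬ G.Adj u v
  tri : TriFree G M
  f1 : ∀ t ∈ M, ∀ t' ∈ M, ∀ a ∈ M, ∀ b ∈ M, ℓ t = 0 → ℓ t' = 0 → ℓ a = 1 → ℓ b = 2 →
    G.Adj t b → G.Adj t' a → ¬ G.Adj t a → ¬ G.Adj t' b → G.Adj a b
  f2 : ∀ t ∈ M, ∀ t' ∈ M, ∀ a ∈ M, ∀ b ∈ M, ℓ t = 0 → ℓ t' = 0 → ℓ a = 1 → ℓ b = 2 →
    G.Adj t a → G.Adj t b → G.Adj t' a → ¬ G.Adj t' b → G.Adj a b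
  f3 : ∀ t ∈ M, ∀ t' ∈ M, ∀ a ∈ M, ∀ b ∈ M, ℓ t = 0 → ℓ t' = 0 → ℓ a = 1 → ℓ b = 2 →
    G.Adj t a → G.Adj t b → ¬ G.Adj t' a → G.Adj t' b → G.Adj a b
  f4 : ∀ t ∈ M, ∀ a ∈ M, ∀ a' ∈ M, ∀ b ∈ M, ℓ t = 0 → ℓ a = 1 → ℓ a' = 1 → ℓ b = 2 →
    ¬ G.Adj t b → ¬ G.Adj a b → ¬ G.Adj a' b → (G.Adj t a ↔ G.Adj t a')
  f5 : ∀ t ∈ M, ∀ a ∈ M, ∀ a' ∈ M, ∀ b ∈ M, ℓ t = 0 → ℓ a = 1 → ℓ a' = 1 → ℓ b = 2 →
    ¬ G.Adj t b → G.Adj t a → G.Adj t a' → (G.Adj a b ↔ G.Adj a' b)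
  f6 : ∀ t ∈ M, ∀ a ∈ M, ∀ b ∈ M, ∀ b' ∈ M, ℓ t = 0 → ℓ a = 1 → ℓ b = 2 → ℓ b' = 2 →
    ¬ G.Adj t a → ¬ G.Adj a b → ¬ G.Adj a b' → (G.Adj t b ↔ G.Adj t b')
  f7 : ∀ t ∈ M, ∀ a ∈ M, ∀ b ∈ M, ∀ b' ∈ M, ℓ t = 0 → ℓ a = 1 → ℓ b = 2 → ℓ b' = 2 →
    ¬ G.Adj t a → G.Adj t b → G.Adj t b' → (G.Adj a b ↔ G.Adj a b')

/-- the set of the vertices which lie in a triple of labels `0, 1, 2` with two `GP`-pairs (with respect to the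
index `i` in the application) -/
def JTrip (G : SimpleGraph V) (t a b : V) : Prop :=
  (G.Adj t a ∧ G.Adj t b) ∨ (G.Adj t a ∧ ¬ G.Adj a b) ∨ (G.Adj t b ∧ ¬ G.Adj a b)

/-- if `t` is adjacent to `a` (or `a'`), and lies in such a triple, then `a` lies in such a triple; and so on -/
theorem OneFacts.jclose {M : Set V} (h : OneFacts G ℓ M) {t a b t' a' b' : V}
    (ht : t ∈ M) (ha : a ∈ M) (hb : b ∈ M) (ht' : t' ∈ M) (ha' : a' ∈ M) (hb' : b' ∈ M)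
    (l1 : ℓ t = 0) (l2 : ℓ a = 1) (l3 : ℓ b = 2) (l1' : ℓ t' = 0) (l2' : ℓ a' = 1) (l3' : ℓ b' = 2)
    (hj : JTrip G t a b) :
    (G.Adj t a' → ∃ s ∈ M, ∃ c ∈ M, ℓ s = 0 ∧ ℓ c = 2 ∧ JTrip G s a' c) ∧
    (G.Adj t b' → ∃ s ∈ M, ∃ c ∈ M, ℓ s = 0 ∧ ℓ c = 1 ∧ JTrip G s c b') ∧
    (G.Adj t' a → ∃ s ∈ M, ∃ c ∈ M, ℓ s = 1 ∧ ℓ c = 2 ∧ JTrip G t' s c) ∧
    (G.Adj t' b → ∃ s ∈ M, ∃ c ∈ M, ℓ s = 1 ∧ ℓ c = 2 ∧ JTrip G t' s c) ∧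
    (¬ G.Adj a b' → ∃ s ∈ M, ∃ c ∈ M, ℓ s = 0 ∧ ℓ c = 1 ∧ JTrip G s c b') ∧
    (¬ G.Adj a' b → ∃ s ∈ M, ∃ c ∈ M, ℓ s = 0 ∧ ℓ c = 2 ∧ JTrip G s a' c) := by
  have hab : ¬ G.Adj a b := by
    rcases hj with ⟨h1, h2⟩ | ⟨_, h2⟩ | ⟨_, h2⟩
    · exact h.tri a ha t ht b hb h1.symm h2
    · exact h2
    · exact h2
  have hta : ¬ G.Adj t b → G.Adj t a := by
    intro h0
    rcases hj with ⟨h1, _⟩ | ⟨h1, _⟩ | ⟨h1, _⟩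
    · exact h1
    · exact h1
    · exact absurd h1 h0
  have htb : ¬ G.Adj t a → G.Adj t b := by
    intro h0
    rcases hj with ⟨_, h1⟩ | ⟨h1, _⟩ | ⟨h1, _⟩
    · exact h1
    · exact absurd h1 h0
    · exact h1
  refine ⟨fun hx => ?_, fun hx => ?_, fun hx => ?_, fun hx => ?_, fun hx => ?_, fun hx => ?_⟩
  · refine ⟨t, ht, b, hb, l1, l3, ?_⟩
    by_cases h0 : G.Adj t b
    · exact Or.inl ⟨hx, h0⟩
    · refine Or.inr (Or.inl ⟨hx, fun h1 => hab ?_⟩)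
      exact (h.f5 t ht a ha a' ha' b hb l1 l2 l2' l3 h0 (hta h0) hx).2 h1
  · refine ⟨t, ht, a, ha, l1, l2, ?_⟩
    by_cases h0 : G.Adj t a
    · exact Or.inl ⟨h0, hx⟩
    · refine Or.inr (Or.inr ⟨hx, fun h1 => hab ?_⟩)
      exact (h.f7 t ht a ha b hb b' hb' l1 l2 l3 l3' h0 (htb h0) hx).2 h1
  · exact ⟨a, ha, b, hb, l2, l3, Or.inr (Or.inl ⟨hx, hab⟩)⟩
  · exact ⟨a, ha, b, hb, l2, l3, Or.inr (Or.inr ⟨hx, hab⟩)⟩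
  · refine ⟨t, ht, a, ha, l1, l2, ?_⟩
    by_cases h0 : G.Adj t a
    · exact Or.inr (Or.inl ⟨h0, hx⟩)
    · refine Or.inr (Or.inr ⟨?_, hx⟩)
      exact (h.f6 t ht a ha b hb b' hb' l1 l2 l3 l3' h0 hab hx).1 (htb h0)
  · refine ⟨t, ht, b, hb, l1, l3, ?_⟩
    by_cases h0 : G.Adj t b
    · exact Or.inr (Or.inr ⟨h0, hx⟩)
    · refine Or.inr (Or.inl ⟨?_, hx⟩)
      exact (h.f4 t ht a ha a' ha' b hb l1 l2 l2' l3 h0 hab hx).1 (hta h0)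

end Pool.Agent.H68.CW
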