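import Pool.Agent.H68.CW.Cert

/-!
PD. Vertices over an induced `S_{1,1,3}` (definitions). The root has the centre `0`, the leaves `1`, `2` and the leg
`3, 4, 5`. The type of a vertex is the set of its neighbours in the root, as a bit mask.
-/

set_option autoImplicit false

namespace Pool.Agent.H68.CW

def rootP : List (ℕ × ℕ) := [(0, 1), (0, 2), (0, 3), (3, 4), (4, 5)]

def specP (cty : List ℕ) (mix : List (ℕ × ℕ)) : Spec where
  K := 6
  root := rootP
  pat := false
  tt := false
  cty := cty.map some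
  aty := []
  mix := mix
  N := 12

/-- seven vertices whose types are in `g` -/
def specPl (g : List ℕ) : Spec where
  K := 6
  root := rootP
  pat := false
  tt := false
  cty := [none, none, none, none, none, none, none]
  aty := g
  mix := []
  N := 0

variable {V : Type}

def TypM (G : SimpleGraph V) (p : ℕ → V) (v : V) (τ : ℕ) : Prop :=
  ∀ i < 6, (G.Adj v (p i) ↔ τ.testBit i = true)

structure PSys (G : SimpleGraph V) (M X : Set V) (E : ℕ → V → V → Prop) (p : ℕ → V) : Prop where
  sys : Sys G X E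
  sub : X ⊆ M
  pM : ∀ i < 6, p i ∈ M
  pX : ∀ i < 6, p i ∉ X
  pinj : ∀ i < 6, ∀ j < 6, p i = p j → i = j
  root : ∀ i < 6, ∀ j < 6, (G.Adj (p i) (p j) ↔ ((i, j) ∈ rootP ∨ (j, i) ∈ rootP))
  h0 : ∀ u v, E 0 u v → ∀ i < 6, (G.Adj u (p i) ↔ G.Adj v (p i))
  tri : TriFree G M
  free : FreeP G M

end Pool.Agent.H68.CW
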