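import Pool.Agent.H68.CW.BipDef

/-!
FINB. Finite facts on a vertex `v` and an induced path `p` with 7 vertices.

All these are finite checks: for each pattern of adjacency of `v` (and of the twin `x`) that is to be excluded one gives the
seven vertices of an induced `S_{1,2,3}` (a program finds them: write one that prints `exact hS _ _ ... ⟨...⟩` or the vertices only, and
prove the 21 adjacencies by `simp [hadj, ...]`); the adjacencies of the `p i` are decided by `hadj`, the others are the assumed pattern;
`v` is not adjacent to the `p i` of the wrong parity (`hpar`). Hint: first derive all `G.Adj (p i) (p j)` / `¬` facts for concrete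
`i, j` by `(hadj i j ..).2 (by decide)`, and by_cases on the 3 or 4 adjacencies of `v`.
-/

set_option autoImplicit false

namespace Pool.Agent.H68.CW

variable {V : Type} {G : SimpleGraph V} {M : Set V}

/-- neighbours of `v` on the odd vertices of an induced `P₇` -/
theorem list7_odd (hS : FreeS G M) (p : ℕ → V) (hp : ∀ i, 1 ≤ i → i ≤ 7 → p i ∈ M)
    (hadj : ∀ i j, 1 ≤ i → i ≤ 7 → 1 ≤ j → j ≤ 7 → (G.Adj (p i) (p j) ↔ (i + 1 = j ∨ j + 1 = i)))
    {v : V} (hv : v ∈ M) (hpar : ∀ i, 1 ≤ i → i ≤ 7 → G.Adj v (p i) → i % 2 = 1) :
    (G.Adj v (p 1), G.Adj v (p 3), G.Adj v (p 5), G.Adj v (p 7)) ∈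
      ({(True, True, True, True), (True, False, True, True), (False, False, True, True),
        (True, True, False, True), (True, False, False, True), (False, False, False, True),
        (False, True, True, False), (True, True, False, False), (True, False, False, False),
        (False, False, False, False)} : Set (Prop × Prop × Prop × Prop)) := by
  have hA : ∀ i j, (1 ≤ i ∧ i ≤ 7 ∧ 1 ≤ j ∧ j ≤ 7 ∧ (i + 1 = j ∨ j + 1 = i)) → G.Adj (p i) (p j) :=
    fun i j h => (hadj i j h.1 h.2.1 h.2.2.1 h.2.2.2.1).2 h.2.2.2.2
  have hN : ∀ i j, 1 ≤ i → i ≤ 7 → 1 ≤ j → j ≤ 7 → ¬ (i + 1 = j ∨ j + 1 = i) → ¬ G.Adj (p i) (p j) :=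
    fun i j h1 h2 h3 h4 h5 h => h5 ((hadj i j h1 h2 h3 h4).1 h)
  have h2 : ¬ G.Adj v (p 2) := fun h => absurd (hpar 2 (by decide) (by decide) h) (by decide)
  have h4 : ¬ G.Adj v (p 4) := fun h => absurd (hpar 4 (by decide) (by decide) h) (by decide)
  have h6 : ¬ G.Adj v (p 6) := fun h => absurd (hpar 6 (by decide) (by decide) h) (by decide)
  by_cases h1 : G.Adj v (p 1)
  · by_cases h3 : G.Adj v (p 3)
    · by_cases h5 : G.Adj v (p 5)
      · by_cases h7 : G.Adj v (p 7)
        · simp [h1, h3, h5, h7]
        · exact (hS _ (hp 5 (by decide) (by decide)) _ (hp 4 (by decide) (by decide)) _ (hp 6 (by decide) (by decide)) _ (hp 7 (by decide) (by decide)) _ hv _ (hp 1 (by decide) (by decide)) _ (hp 2 (by decide) (by decide))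
        ⟨⟨hA 5 4 (by decide), hA 5 6 (by decide), hA 6 7 (by decide), h5.symm, h1, hA 1 2 (by decide)⟩,
        ⟨hN 5 7 (by decide) (by decide) (by decide) (by decide) (by decide),
          hN 5 1 (by decide) (by decide) (by decide) (by decide) (by decide),
          hN 5 2 (by decide) (by decide) (by decide) (by decide) (by decide)⟩,
        ⟨hN 4 6 (by decide) (by decide) (by decide) (by decide) (by decide),
          hN 4 7 (by decide) (by decide) (by decide) (by decide) (by decide),
          (fun h => h4 h.symm),
          hN 4 1 (by decide) (by decide) (by decide) (by decide) (by decide),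
          hN 4 2 (by decide) (by decide) (by decide) (by decide) (by decide)⟩,
        ⟨(fun h => h6 h.symm),
          hN 6 1 (by decide) (by decide) (by decide) (by decide) (by decide),
          hN 6 2 (by decide) (by decide) (by decide) (by decide) (by decide)⟩,
        ⟨(fun h => h7 h.symm),
          hN 7 1 (by decide) (by decide) (by decide) (by decide) (by decide),
          hN 7 2 (by decide) (by decide) (by decide) (by decide) (by decide)⟩,
        h2⟩).elim
      · by_cases h7 : G.Adj v (p 7)
        · simp [h1, h3, h5, h7]
        · simp [h1, h3, h5, h7]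
    · by_cases h5 : G.Adj v (p 5)
      · by_cases h7 : G.Adj v (p 7)
        · simp [h1, h3, h5, h7]
        · exact (hS _ (hp 5 (by decide) (by decide)) _ hv _ (hp 6 (by decide) (by decide)) _ (hp 7 (by decide) (by decide)) _ (hp 4 (by decide) (by decide)) _ (hp 3 (by decide) (by decide)) _ (hp 2 (by decide) (by decide))
        ⟨⟨h5.symm, hA 5 6 (by decide), hA 6 7 (by decide), hA 5 4 (by decide), hA 4 3 (by decide), hA 3 2 (by decide)⟩,
        ⟨hN 5 7 (by decide) (by decide) (by decide) (by decide) (by decide),
          hN 5 3 (by decide) (by decide) (by decide) (by decide) (by decide),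
          hN 5 2 (by decide) (by decide) (by decide) (by decide) (by decide)⟩,
        ⟨h6,
          h7,
          h4,
          h3,
          h2⟩,
        ⟨hN 6 4 (by decide) (by decide) (by decide) (by decide) (by decide),
          hN 6 3 (by decide) (by decide) (by decide) (by decide) (by decide),
          hN 6 2 (by decide) (by decide) (by decide) (by decide) (by decide)⟩,
        ⟨hN 7 4 (by decide) (by decide) (by decide) (by decide) (by decide),
          hN 7 3 (by decide) (by decide) (by decide) (by decide) (by decide),
          hN 7 2 (by decide) (by decide) (by decide) (by decide) (by decide)⟩,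
        hN 4 2 (by decide) (by decide) (by decide) (by decide) (by decide)⟩).elim
      · by_cases h7 : G.Adj v (p 7)
        · simp [h1, h3, h5, h7]
        · simp [h1, h3, h5, h7]
  · by_cases h3 : G.Adj v (p 3)
    · by_cases h5 : G.Adj v (p 5)
      · by_cases h7 : G.Adj v (p 7)
        · exact (hS _ (hp 3 (by decide) (by decide)) _ (hp 4 (by decide) (by decide)) _ (hp 2 (by decide) (by decide)) _ (hp 1 (by decide) (by decide)) _ hv _ (hp 7 (by decide) (by decide)) _ (hp 6 (by decide) (by decide))
        ⟨⟨hA 3 4 (by decide), hA 3 2 (by decide), hA 2 1 (by decide), h3.symm, h7, hA 7 6 (by decide)⟩,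
        ⟨hN 3 1 (by decide) (by decide) (by decide) (by decide) (by decide),
          hN 3 7 (by decide) (by decide) (by decide) (by decide) (by decide),
          hN 3 6 (by decide) (by decide) (by decide) (by decide) (by decide)⟩,
        ⟨hN 4 2 (by decide) (by decide) (by decide) (by decide) (by decide),
          hN 4 1 (by decide) (by decide) (by decide) (by decide) (by decide),
          (fun h => h4 h.symm),
          hN 4 7 (by decide) (by decide) (by decide) (by decide) (by decide),
          hN 4 6 (by decide) (by decide) (by decide) (by decide) (by decide)⟩,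
        ⟨(fun h => h2 h.symm),
          hN 2 7 (by decide) (by decide) (by decide) (by decide) (by decide),
          hN 2 6 (by decide) (by decide) (by decide) (by decide) (by decide)⟩,
        ⟨(fun h => h1 h.symm),
          hN 1 7 (by decide) (by decide) (by decide) (by decide) (by decide),
          hN 1 6 (by decide) (by decide) (by decide) (by decide) (by decide)⟩,
        h6⟩).elim
        · simp [h1, h3, h5, h7]
      · by_cases h7 : G.Adj v (p 7)
        · exact (hS _ (hp 3 (by decide) (by decide)) _ hv _ (hp 2 (by decide) (by decide)) _ (hp 1 (by decide) (by decide)) _ (hp 4 (by decide) (by decide)) _ (hp 5 (by decide) (by decide)) _ (hp 6 (by decide) (by decide))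
        ⟨⟨h3.symm, hA 3 2 (by decide), hA 2 1 (by decide), hA 3 4 (by decide), hA 4 5 (by decide), hA 5 6 (by decide)⟩,
        ⟨hN 3 1 (by decide) (by decide) (by decide) (by decide) (by decide),
          hN 3 5 (by decide) (by decide) (by decide) (by decide) (by decide),
          hN 3 6 (by decide) (by decide) (by decide) (by decide) (by decide)⟩,
        ⟨h2,
          h1,
          h4,
          h5,
          h6⟩,
        ⟨hN 2 4 (by decide) (by decide) (by decide) (by decide) (by decide),
          hN 2 5 (by decide) (by decide) (by decide) (by decide) (by decide),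
          hN 2 6 (by decide) (by decide) (by decide) (by decide) (by decide)⟩,
        ⟨hN 1 4 (by decide) (by decide) (by decide) (by decide) (by decide),
          hN 1 5 (by decide) (by decide) (by decide) (by decide) (by decide),
          hN 1 6 (by decide) (by decide) (by decide) (by decide) (by decide)⟩,
        hN 4 6 (by decide) (by decide) (by decide) (by decide) (by decide)⟩).elim
        · exact (hS _ (hp 3 (by decide) (by decide)) _ hv _ (hp 2 (by decide) (by decide)) _ (hp 1 (by decide) (by decide)) _ (hp 4 (by decide) (by decide)) _ (hp 5 (by decide) (by decide)) _ (hp 6 (by decide) (by decide))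
        ⟨⟨h3.symm, hA 3 2 (by decide), hA 2 1 (by decide), hA 3 4 (by decide), hA 4 5 (by decide), hA 5 6 (by decide)⟩,
        ⟨hN 3 1 (by decide) (by decide) (by decide) (by decide) (by decide),
          hN 3 5 (by decide) (by decide) (by decide) (by decide) (by decide),
          hN 3 6 (by decide) (by decide) (by decide) (by decide) (by decide)⟩,
        ⟨h2,
          h1,
          h4,
          h5,
          h6⟩,
        ⟨hN 2 4 (by decide) (by decide) (by decide) (by decide) (by decide),
          hN 2 5 (by decide) (by decide) (by decide) (by decide) (by decide),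
          hN 2 6 (by decide) (by decide) (by decide) (by decide) (by decide)⟩,
        ⟨hN 1 4 (by decide) (by decide) (by decide) (by decide) (by decide),
          hN 1 5 (by decide) (by decide) (by decide) (by decide) (by decide),
          hN 1 6 (by decide) (by decide) (by decide) (by decide) (by decide)⟩,
        hN 4 6 (by decide) (by decide) (by decide) (by decide) (by decide)⟩).elim
    · by_cases h5 : G.Adj v (p 5)
      · by_cases h7 : G.Adj v (p 7)
        · simp [h1, h3, h5, h7]
        · exact (hS _ (hp 5 (by decide) (by decide)) _ hv _ (hp 6 (by decide) (by decide)) _ (hp 7 (by decide) (by decide)) _ (hp 4 (by decide) (by decide)) _ (hp 3 (by decide) (by decide)) _ (hp 2 (by decide) (by decide))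
        ⟨⟨h5.symm, hA 5 6 (by decide), hA 6 7 (by decide), hA 5 4 (by decide), hA 4 3 (by decide), hA 3 2 (by decide)⟩,
        ⟨hN 5 7 (by decide) (by decide) (by decide) (by decide) (by decide),
          hN 5 3 (by decide) (by decide) (by decide) (by decide) (by decide),
          hN 5 2 (by decide) (by decide) (by decide) (by decide) (by decide)⟩,
        ⟨h6,
          h7,
          h4,
          h3,
          h2⟩,
        ⟨hN 6 4 (by decide) (by decide) (by decide) (by decide) (by decide),
          hN 6 3 (by decide) (by decide) (by decide) (by decide) (by decide),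
          hN 6 2 (by decide) (by decide) (by decide) (by decide) (by decide)⟩,
        ⟨hN 7 4 (by decide) (by decide) (by decide) (by decide) (by decide),
          hN 7 3 (by decide) (by decide) (by decide) (by decide) (by decide),
          hN 7 2 (by decide) (by decide) (by decide) (by decide) (by decide)⟩,
        hN 4 2 (by decide) (by decide) (by decide) (by decide) (by decide)⟩).elim
      · by_cases h7 : G.Adj v (p 7)
        · simp [h1, h3, h5, h7]
        · simp [h1, h3, h5, h7]

/-- neighbours of `v` on the even vertices of an induced `P₇` -/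
theorem list7_even (hS : FreeS G M) (p : ℕ → V) (hp : ∀ i, 1 ≤ i → i ≤ 7 → p i ∈ M)
    (hadj : ∀ i j, 1 ≤ i → i ≤ 7 → 1 ≤ j → j ≤ 7 → (G.Adj (p i) (p j) ↔ (i + 1 = j ∨ j + 1 = i)))
    {v : V} (hv : v ∈ M) (hpar : ∀ i, 1 ≤ i → i ≤ 7 → G.Adj v (p i) → i % 2 = 0) :
    (G.Adj v (p 2), G.Adj v (p 4), G.Adj v (p 6)) ∈
      ({(True, True, True), (False, True, True), (False, False, True), (True, True, False),
        (True, False, False), (False, False, False)} : Set (Prop × Prop × Prop)) := by
  have hA : ∀ i j, (1 ≤ i ∧ i ≤ 7 ∧ 1 ≤ j ∧ j ≤ 7 ∧ (i + 1 = j ∨ j + 1 = i)) → G.Adj (p i) (p j) :=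
    fun i j h => (hadj i j h.1 h.2.1 h.2.2.1 h.2.2.2.1).2 h.2.2.2.2
  have hN : ∀ i j, 1 ≤ i → i ≤ 7 → 1 ≤ j → j ≤ 7 → ¬ (i + 1 = j ∨ j + 1 = i) → ¬ G.Adj (p i) (p j) :=
    fun i j h1 h2 h3 h4 h5 h => h5 ((hadj i j h1 h2 h3 h4).1 h)
  have h1 : ¬ G.Adj v (p 1) := fun h => absurd (hpar 1 (by decide) (by decide) h) (by decide)
  have h3 : ¬ G.Adj v (p 3) := fun h => absurd (hpar 3 (by decide) (by decide) h) (by decide)
  have h5 : ¬ G.Adj v (p 5) := fun h => absurd (hpar 5 (by decide) (by decide) h) (by decide)
  have h7 : ¬ G.Adj v (p 7) := fun h => absurd (hpar 7 (by decide) (by decide) h) (by decide)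
  by_cases h2 : G.Adj v (p 2)
  · by_cases h4 : G.Adj v (p 4)
    · by_cases h6 : G.Adj v (p 6)
      · simp [h2, h4, h6]
      · simp [h2, h4, h6]
    · by_cases h6 : G.Adj v (p 6)
      · exact (hS _ (hp 2 (by decide) (by decide)) _ (hp 1 (by decide) (by decide)) _ (hp 3 (by decide) (by decide)) _ (hp 4 (by decide) (by decide)) _ hv _ (hp 6 (by decide) (by decide)) _ (hp 7 (by decide) (by decide))
        ⟨⟨hA 2 1 (by decide), hA 2 3 (by decide), hA 3 4 (by decide), h2.symm, h6, hA 6 7 (by decide)⟩,
        ⟨hN 2 4 (by decide) (by decide) (by decide) (by decide) (by decide),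
          hN 2 6 (by decide) (by decide) (by decide) (by decide) (by decide),
          hN 2 7 (by decide) (by decide) (by decide) (by decide) (by decide)⟩,
        ⟨hN 1 3 (by decide) (by decide) (by decide) (by decide) (by decide),
          hN 1 4 (by decide) (by decide) (by decide) (by decide) (by decide),
          (fun h => h1 h.symm),
          hN 1 6 (by decide) (by decide) (by decide) (by decide) (by decide),
          hN 1 7 (by decide) (by decide) (by decide) (by decide) (by decide)⟩,
        ⟨(fun h => h3 h.symm),
          hN 3 6 (by decide) (by decide) (by decide) (by decide) (by decide),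
          hN 3 7 (by decide) (by decide) (by decide) (by decide) (by decide)⟩,
        ⟨(fun h => h4 h.symm),
          hN 4 6 (by decide) (by decide) (by decide) (by decide) (by decide),
          hN 4 7 (by decide) (by decide) (by decide) (by decide) (by decide)⟩,
        h7⟩).elim
      · simp [h2, h4, h6]
  · by_cases h4 : G.Adj v (p 4)
    · by_cases h6 : G.Adj v (p 6)
      · simp [h2, h4, h6]
      · exact (hS _ (hp 4 (by decide) (by decide)) _ hv _ (hp 3 (by decide) (by decide)) _ (hp 2 (by decide) (by decide)) _ (hp 5 (by decide) (by decide)) _ (hp 6 (by decide) (by decide)) _ (hp 7 (by decide) (by decide))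
        ⟨⟨h4.symm, hA 4 3 (by decide), hA 3 2 (by decide), hA 4 5 (by decide), hA 5 6 (by decide), hA 6 7 (by decide)⟩,
        ⟨hN 4 2 (by decide) (by decide) (by decide) (by decide) (by decide),
          hN 4 6 (by decide) (by decide) (by decide) (by decide) (by decide),
          hN 4 7 (by decide) (by decide) (by decide) (by decide) (by decide)⟩,
        ⟨h3,
          h2,
          h5,
          h6,
          h7⟩,
        ⟨hN 3 5 (by decide) (by decide) (by decide) (by decide) (by decide),
          hN 3 6 (by decide) (by decide) (by decide) (by decide) (by decide),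
          hN 3 7 (by decide) (by decide) (by decide) (by decide) (by decide)⟩,
        ⟨hN 2 5 (by decide) (by decide) (by decide) (by decide) (by decide),
          hN 2 6 (by decide) (by decide) (by decide) (by decide) (by decide),
          hN 2 7 (by decide) (by decide) (by decide) (by decide) (by decide)⟩,
        hN 5 7 (by decide) (by decide) (by decide) (by decide) (by decide)⟩).elim
    · by_cases h6 : G.Adj v (p 6)
      · simp [h2, h4, h6]
      · simp [h2, h4, h6]

end Pool.Agent.H68.CW
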