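import Pool.Agent.H68.CW.BipDef

/-!
FINC. Finite facts on a vertex `v` and an induced path or cycle with 8 vertices.

All these are finite checks: for each pattern of adjacency of `v` (and of the twin `x`) that is to be excluded one gives the
seven vertices of an induced `S_{1,2,3}` (a program finds them: write one that prints `exact hS _ _ ... ⟨...⟩` or the vertices only, and
prove the 21 adjacencies by `simp [hadj, ...]`); the adjacencies of the `p i` are decided by `hadj`, the others are the assumed pattern;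
`v` is not adjacent to the `p i` of the wrong parity (`hpar`). Hint: first derive all `G.Adj (p i) (p j)` / `¬` facts for concrete
`i, j` by `(hadj i j ..).2 (by decide)`, and by_cases on the 3 or 4 adjacencies of `v`.
`list8_odd`, `list8_even` follow from `list7_odd`, `list7_even` (file PFinB, for `p` and `fun i => p (i + 1)`, and `fun i => p (9 - i)`)
and a few more patterns; a direct search over the 16 patterns is fine as well.
-/

set_option autoImplicit false

namespace Pool.Agent.H68.CW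

variable {V : Type} {G : SimpleGraph V} {M : Set V}

/-! auxiliary Boolean checks -/

private theorem pc_b (P : Prop) : ∃ b : Bool, P ↔ b = true := by
  classical
  exact ⟨decide P, by simp⟩

private def pcS (adj : ℕ → ℕ → Bool) (c a b₁ b₂ d₁ d₂ d₃ : ℕ) : Bool :=
  (adj c a && adj c b₁ && adj b₁ b₂ && adj c d₁ && adj d₁ d₂ && adj d₂ d₃) &&
  (!adj c b₂ && !adj c d₂ && !adj c d₃) &&
  (!adj a b₁ && !adj a b₂ && !adj a d₁ && !adj a d₂ && !adj a d₃) &&
  (!adj b₁ d₁ && !adj b₁ d₂ && !adj b₁ d₃) &&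
  (!adj b₂ d₁ && !adj b₂ d₂ && !adj b₂ d₃) && !adj d₁ d₃

private def pcChk (adj : ℕ → ℕ → Bool) : List ℕ → Bool
  | [c, a, b₁, b₂, d₁, d₂, d₃] =>
    (Nat.blt c 9 && Nat.blt a 9 && Nat.blt b₁ 9 && Nat.blt b₂ 9 && Nat.blt d₁ 9 && Nat.blt d₂ 9 &&
      Nat.blt d₃ 9) && pcS adj c a b₁ b₂ d₁ d₂ d₃
  | _ => false

private theorem pc_use (hS : FreeS G M) (q : ℕ → V) (hq : ∀ i < 9, q i ∈ M)
    (adj : ℕ → ℕ → Bool) (h : ∀ i < 9, ∀ j < 9, (G.Adj (q i) (q j) ↔ adj i j = true))
    (L : List ℕ) (hL : pcChk adj L = true) : False := by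
  match L, hL with
  | [c, a, b₁, b₂, d₁, d₂, d₃], hL =>
    unfold pcChk pcS at hL
    simp only [Bool.and_eq_true, Bool.not_eq_true', Nat.blt_eq] at hL
    obtain ⟨⟨⟨⟨⟨⟨⟨l1, l2⟩, l3⟩, l4⟩, l5⟩, l6⟩, l7⟩, ⟨⟨⟨⟨⟨⟨⟨⟨⟨⟨p1, p2⟩, p3⟩, p4⟩, p5⟩, p6⟩,
      ⟨⟨n1, n2⟩, n3⟩⟩, ⟨⟨⟨⟨a1, a2⟩, a3⟩, a4⟩, a5⟩⟩, ⟨⟨e1, e2⟩, e3⟩⟩, ⟨⟨f1, f2⟩, f3⟩⟩, g1⟩⟩ := hL
    have hn : ∀ i < 9, ∀ j < 9, adj i j = false → ¬ G.Adj (q i) (q j) := by
      intro i hi j hj hf hadj
      rw [(h i hi j hj).1 hadj] at hf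
      exact Bool.noConfusion hf
    exact hS (q c) (hq c l1) (q a) (hq a l2) (q b₁) (hq b₁ l3) (q b₂) (hq b₂ l4) (q d₁) (hq d₁ l5)
      (q d₂) (hq d₂ l6) (q d₃) (hq d₃ l7)
      ⟨⟨(h c l1 a l2).2 p1, (h c l1 b₁ l3).2 p2, (h b₁ l3 b₂ l4).2 p3, (h c l1 d₁ l5).2 p4,
        (h d₁ l5 d₂ l6).2 p5, (h d₂ l6 d₃ l7).2 p6⟩,
      ⟨hn c l1 b₂ l4 n1, hn c l1 d₂ l6 n2, hn c l1 d₃ l7 n3⟩,
      ⟨hn a l2 b₁ l3 a1, hn a l2 b₂ l4 a2, hn a l2 d₁ l5 a3, hn a l2 d₂ l6 a4, hn a l2 d₃ l7 a5⟩,
      ⟨hn b₁ l3 d₁ l5 e1, hn b₁ l3 d₂ l6 e2, hn b₁ l3 d₃ l7 e3⟩,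
      ⟨hn b₂ l4 d₁ l5 f1, hn b₂ l4 d₂ l6 f2, hn b₂ l4 d₃ l7 f3⟩, hn d₁ l5 d₃ l7 g1⟩

private def pcP (S : ℕ → Bool) (i j : ℕ) : Bool :=
  if i = 0 then (if j = 0 then false else S j) else
    if j = 0 then S i else (decide (i + 1 = j) || decide (j + 1 = i))

private def pcC (S : ℕ → Bool) (i j : ℕ) : Bool :=
  if i = 8 then (if j = 8 then false else S j) else
    if j = 8 then S i else (decide ((i + 1) % 8 = j) || decide ((j + 1) % 8 = i))

private theorem pc_path (p : ℕ → V)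
    (hadj : ∀ i j, 1 ≤ i → i ≤ 8 → 1 ≤ j → j ≤ 8 → (G.Adj (p i) (p j) ↔ (i + 1 = j ∨ j + 1 = i)))
    {v : V} (S : ℕ → Bool) (hSi : ∀ i, 1 ≤ i → i ≤ 8 → (G.Adj v (p i) ↔ S i = true)) :
    ∀ i < 9, ∀ j < 9, (G.Adj (if i = 0 then v else p i) (if j = 0 then v else p j) ↔
      pcP S i j = true) := by
  intro i hi j hj
  unfold pcP
  by_cases h1 : i = 0
  · by_cases h2 : j = 0
    · rw [if_pos h1, if_pos h2, if_pos h1, if_pos h2]
      exact ⟨fun h => absurd h (G.loopless.irrefl v), fun h => Bool.noConfusion h⟩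
    · rw [if_pos h1, if_neg h2, if_pos h1, if_neg h2]
      exact hSi j (by omega) (by omega)
  · by_cases h2 : j = 0
    · rw [if_neg h1, if_pos h2, if_neg h1, if_pos h2, G.adj_comm]
      exact hSi i (by omega) (by omega)
    · rw [if_neg h1, if_neg h2, if_neg h1, if_neg h2,
        hadj i j (by omega) (by omega) (by omega) (by omega)]
      simp

private theorem pc_cyc (p : ℕ → V)
    (hadj : ∀ i j, i < 8 → j < 8 → (G.Adj (p i) (p j) ↔ ((i + 1) % 8 = j ∨ (j + 1) % 8 = i)))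
    {v : V} (S : ℕ → Bool) (hSi : ∀ i, i < 8 → (G.Adj v (p i) ↔ S i = true)) :
    ∀ i < 9, ∀ j < 9, (G.Adj (if i = 8 then v else p i) (if j = 8 then v else p j) ↔
      pcC S i j = true) := by
  intro i hi j hj
  unfold pcC
  by_cases h1 : i = 8
  · by_cases h2 : j = 8
    · rw [if_pos h1, if_pos h2, if_pos h1, if_pos h2]
      exact ⟨fun h => absurd h (G.loopless.irrefl v), fun h => Bool.noConfusion h⟩
    · rw [if_pos h1, if_neg h2, if_pos h1, if_neg h2]
      exact hSi j (by omega)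
  · by_cases h2 : j = 8
    · rw [if_neg h1, if_pos h2, if_neg h1, if_pos h2, G.adj_comm]
      exact hSi i (by omega)
    · rw [if_neg h1, if_neg h2, if_neg h1, if_neg h2, hadj i j (by omega) (by omega)]
      simp

/-- the neighbours of `v` in the class with offset `r` -/
private def pcN (r : ℕ) (b1 b2 b3 b4 : Bool) (i : ℕ) : Bool :=
  if i = r then b1 else if i = r + 2 then b2 else if i = r + 4 then b3 else
    if i = r + 6 then b4 else false

private theorem pc_N (Q : ℕ → Prop) (r m n : ℕ) {b1 b2 b3 b4 : Bool} (h1 : Q r ↔ b1 = true)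
    (h2 : Q (r + 2) ↔ b2 = true) (h3 : Q (r + 4) ↔ b3 = true) (h4 : Q (r + 6) ↔ b4 = true)
    (hpar : ∀ i, m ≤ i → i < n → Q i → i = r ∨ i = r + 2 ∨ i = r + 4 ∨ i = r + 6) :
    ∀ i, m ≤ i → i < n → (Q i ↔ pcN r b1 b2 b3 b4 i = true) := by
  intro i hm hn
  unfold pcN
  by_cases e1 : i = r
  · rw [if_pos e1, e1]
    exact h1
  · by_cases e2 : i = r + 2
    · rw [if_neg e1, if_pos e2, e2]
      exact h2
    · by_cases e3 : i = r + 4
      · rw [if_neg e1, if_neg e2, if_pos e3, e3]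
        exact h3
      · by_cases e4 : i = r + 6
        · rw [if_neg e1, if_neg e2, if_neg e3, if_pos e4, e4]
          exact h4
        · rw [if_neg e1, if_neg e2, if_neg e3, if_neg e4]
          refine ⟨fun h => ?_, fun h => Bool.noConfusion h⟩
          rcases hpar i hm hn h with h | h | h | h
          · exact absurd h e1
          · exact absurd h e2
          · exact absurd h e3
          · exact absurd h e4

private def pcOk : Bool → Bool → Bool → Bool → Bool
  | true, true, true, true => true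
  | false, false, true, true => true
  | false, false, false, true => true
  | false, true, true, false => true
  | true, true, false, false => true
  | true, false, false, false => true
  | false, false, false, false => true
  | _, _, _, _ => false

private theorem pc_ok {b1 b2 b3 b4 : Bool} (h : pcOk b1 b2 b3 b4 = true) {P1 P2 P3 P4 : Prop}
    (h1 : P1 ↔ b1 = true) (h2 : P2 ↔ b2 = true) (h3 : P3 ↔ b3 = true) (h4 : P4 ↔ b4 = true) :
    (P1, P2, P3, P4) ∈
      ({(True, True, True, True), (False, False, True, True), (False, False, False, True),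
        (False, True, True, False), (True, True, False, False), (True, False, False, False),
        (False, False, False, False)} : Set (Prop × Prop × Prop × Prop)) := by
  rw [propext h1, propext h2, propext h3, propext h4]
  cases b1 <;> cases b2 <;> cases b3 <;> cases b4 <;> first | (exact Bool.noConfusion h) | simp

private def pcWo : Bool → Bool → Bool → Bool → List ℕ
  | false, false, true, false => [5, 0, 4, 3, 6, 7, 8]
  | false, true, false, false => [3, 0, 2, 1, 4, 5, 6]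
  | false, true, false, true => [3, 0, 2, 1, 4, 5, 6]
  | false, true, true, true => [0, 5, 7, 8, 3, 2, 1]
  | true, false, false, true => [7, 8, 0, 1, 6, 5, 4]
  | true, false, true, false => [5, 0, 4, 3, 6, 7, 8]
  | true, false, true, true => [0, 1, 7, 8, 5, 4, 3]
  | true, true, false, true => [0, 1, 7, 8, 3, 4, 5]
  | true, true, true, false => [5, 4, 0, 1, 6, 7, 8]
  | _, _, _, _ => []

private def pcWe : Bool → Bool → Bool → Bool → List ℕ
  | false, false, true, false => [6, 0, 7, 8, 5, 4, 3]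
  | false, true, false, false => [4, 0, 3, 2, 5, 6, 7]
  | false, true, false, true => [4, 0, 3, 2, 5, 6, 7]
  | false, true, true, true => [4, 5, 0, 8, 3, 2, 1]
  | true, false, false, true => [2, 1, 0, 8, 3, 4, 5]
  | true, false, true, false => [2, 1, 3, 4, 0, 6, 7]
  | true, false, true, true => [0, 8, 2, 1, 6, 5, 4]
  | true, true, false, true => [0, 4, 2, 1, 8, 7, 6]
  | true, true, true, false => [0, 4, 2, 1, 6, 7, 8]
  | _, _, _, _ => []

private def pcWc0 : Bool → Bool → Bool → Bool → List ℕ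
  | false, false, false, true => [6, 8, 5, 4, 7, 0, 1]
  | false, false, true, false => [4, 8, 3, 2, 5, 6, 7]
  | false, true, false, false => [2, 8, 1, 0, 3, 4, 5]
  | false, true, false, true => [2, 1, 3, 4, 8, 6, 7]
  | false, true, true, true => [2, 3, 1, 0, 8, 6, 5]
  | true, false, false, false => [0, 8, 1, 2, 7, 6, 5]
  | true, false, true, false => [0, 1, 7, 6, 8, 4, 3]
  | true, false, true, true => [0, 7, 1, 2, 8, 4, 5]
  | true, true, false, true => [2, 1, 3, 4, 8, 6, 7]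
  | true, true, true, false => [0, 1, 7, 6, 8, 4, 3]
  | _, _, _, _ => []

private def pcWc1 : Bool → Bool → Bool → Bool → List ℕ
  | false, false, false, true => [7, 8, 0, 1, 6, 5, 4]
  | false, false, true, false => [5, 8, 4, 3, 6, 7, 0]
  | false, true, false, false => [3, 8, 2, 1, 4, 5, 6]
  | false, true, false, true => [3, 2, 4, 5, 8, 7, 0]
  | false, true, true, true => [3, 4, 2, 1, 8, 7, 6]
  | true, false, false, false => [1, 8, 0, 7, 2, 3, 4]
  | true, false, true, false => [1, 0, 2, 3, 8, 5, 6]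
  | true, false, true, true => [1, 0, 2, 3, 8, 5, 6]
  | true, true, false, true => [3, 2, 4, 5, 8, 7, 0]
  | true, true, true, false => [1, 2, 0, 7, 8, 5, 4]
  | _, _, _, _ => []

private theorem pc_o : ∀ b1 b2 b3 b4 : Bool, pcOk b1 b2 b3 b4 = true ∨
    pcChk (pcP (pcN 1 b1 b2 b3 b4)) (pcWo b1 b2 b3 b4) = true := by decide

private theorem pc_e : ∀ b1 b2 b3 b4 : Bool, pcOk b1 b2 b3 b4 = true ∨
    pcChk (pcP (pcN 2 b1 b2 b3 b4)) (pcWe b1 b2 b3 b4) = true := by decide

private def pcMid (S : ℕ → Bool) : Bool :=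
  (List.range 8).any fun i => (List.range 8).all fun j =>
    (S j == (decide ((i + 1) % 8 = j) || decide ((j + 1) % 8 = i)))

private theorem pc_mid {S : ℕ → Bool} (h : pcMid S = true) :
    ∃ i, i < 8 ∧ ∀ j, j < 8 → (S j = true ↔ ((i + 1) % 8 = j ∨ (j + 1) % 8 = i)) := by
  unfold pcMid at h
  rw [List.any_eq_true] at h
  obtain ⟨i, hi, h⟩ := h
  rw [List.all_eq_true] at h
  refine ⟨i, List.mem_range.1 hi, fun j hj => ?_⟩
  have h1 := h j (List.mem_range.2 hj)
  rw [beq_iff_eq] at h1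
  rw [h1]
  simp

private theorem pc_c0 : ∀ b1 b2 b3 b4 : Bool, (b1 || b2 || b3 || b4) = true →
    (b1 && b2 && b3 && b4) = false → pcMid (pcN 0 b1 b2 b3 b4) = true ∨
    pcChk (pcC (pcN 0 b1 b2 b3 b4)) (pcWc0 b1 b2 b3 b4) = true := by decide

private theorem pc_c1 : ∀ b1 b2 b3 b4 : Bool, (b1 || b2 || b3 || b4) = true →
    (b1 && b2 && b3 && b4) = false → pcMid (pcN 1 b1 b2 b3 b4) = true ∨
    pcChk (pcC (pcN 1 b1 b2 b3 b4)) (pcWc1 b1 b2 b3 b4) = true := by decide

/-- neighbours of `v` on the odd vertices of an induced `P₈` -/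
theorem list8_odd (hS : FreeS G M) (p : ℕ → V) (hp : ∀ i, 1 ≤ i → i ≤ 8 → p i ∈ M)
    (hadj : ∀ i j, 1 ≤ i → i ≤ 8 → 1 ≤ j → j ≤ 8 → (G.Adj (p i) (p j) ↔ (i + 1 = j ∨ j + 1 = i)))
    {v : V} (hv : v ∈ M) (hpar : ∀ i, 1 ≤ i → i ≤ 8 → G.Adj v (p i) → i % 2 = 1) :
    (G.Adj v (p 1), G.Adj v (p 3), G.Adj v (p 5), G.Adj v (p 7)) ∈
      ({(True, True, True, True), (False, False, True, True), (False, False, False, True),
        (False, True, True, False), (True, True, False, False), (True, False, False, False),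
        (False, False, False, False)} : Set (Prop × Prop × Prop × Prop)) := by
  classical
  obtain ⟨b1, h1⟩ : ∃ b : Bool, G.Adj v (p 1) ↔ b = true := pc_b _
  obtain ⟨b2, h2⟩ : ∃ b : Bool, G.Adj v (p 3) ↔ b = true := pc_b _
  obtain ⟨b3, h3⟩ : ∃ b : Bool, G.Adj v (p 5) ↔ b = true := pc_b _
  obtain ⟨b4, h4⟩ : ∃ b : Bool, G.Adj v (p 7) ↔ b = true := pc_b _
  rcases pc_o b1 b2 b3 b4 with h | h
  · exact pc_ok h h1 h2 h3 h4
  · refine (pc_use hS (fun i => if i = 0 then v else p i) ?_ _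
      (pc_path p hadj (pcN 1 b1 b2 b3 b4) ?_) _ h).elim
    · intro i hi
      by_cases h0 : i = 0
      · simp only [if_pos h0]
        exact hv
      · simp only [if_neg h0]
        exact hp i (by omega) (by omega)
    · intro i hi1 hi8
      refine pc_N (fun i => G.Adj v (p i)) 1 1 9 h1 h2 h3 h4 ?_ i hi1 (by omega)
      intro i hi hi' hQ
      have := hpar i hi (by omega) hQ
      omega

/-- neighbours of `v` on the even vertices of an induced `P₈` -/
theorem list8_even (hS : FreeS G M) (p : ℕ → V) (hp : ∀ i, 1 ≤ i → i ≤ 8 → p i ∈ M)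
    (hadj : ∀ i j, 1 ≤ i → i ≤ 8 → 1 ≤ j → j ≤ 8 → (G.Adj (p i) (p j) ↔ (i + 1 = j ∨ j + 1 = i)))
    {v : V} (hv : v ∈ M) (hpar : ∀ i, 1 ≤ i → i ≤ 8 → G.Adj v (p i) → i % 2 = 0) :
    (G.Adj v (p 2), G.Adj v (p 4), G.Adj v (p 6), G.Adj v (p 8)) ∈
      ({(True, True, True, True), (False, False, True, True), (False, False, False, True),
        (False, True, True, False), (True, True, False, False), (True, False, False, False),
        (False, False, False, False)} : Set (Prop × Prop × Prop × Prop)) := by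
  classical
  obtain ⟨b1, h1⟩ : ∃ b : Bool, G.Adj v (p 2) ↔ b = true := pc_b _
  obtain ⟨b2, h2⟩ : ∃ b : Bool, G.Adj v (p 4) ↔ b = true := pc_b _
  obtain ⟨b3, h3⟩ : ∃ b : Bool, G.Adj v (p 6) ↔ b = true := pc_b _
  obtain ⟨b4, h4⟩ : ∃ b : Bool, G.Adj v (p 8) ↔ b = true := pc_b _
  rcases pc_e b1 b2 b3 b4 with h | h
  · exact pc_ok h h1 h2 h3 h4
  · refine (pc_use hS (fun i => if i = 0 then v else p i) ?_ _
      (pc_path p hadj (pcN 2 b1 b2 b3 b4) ?_) _ h).elim
    · intro i hi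
      by_cases h0 : i = 0
      · simp only [if_pos h0]
        exact hv
      · simp only [if_neg h0]
        exact hp i (by omega) (by omega)
    · intro i hi1 hi8
      refine pc_N (fun i => G.Adj v (p i)) 2 1 9 h1 h2 h3 h4 ?_ i hi1 (by omega)
      intro i hi hi' hQ
      have := hpar i hi (by omega) hQ
      omega

/-- neighbours of `v` on an induced `C₈` with vertices `p 0, ..., p 7`; `e` is the parity -/
theorem list8_cyc (hS : FreeS G M) (p : ℕ → V) (hp : ∀ i, i < 8 → p i ∈ M)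
    (hadj : ∀ i j, i < 8 → j < 8 → (G.Adj (p i) (p j) ↔ ((i + 1) % 8 = j ∨ (j + 1) % 8 = i)))
    {v : V} (hv : v ∈ M) (e : ℕ) (he : e < 2) (hpar : ∀ i, i < 8 → G.Adj v (p i) → i % 2 = e)
    (hex : ∃ i, i < 8 ∧ i % 2 = e ∧ G.Adj v (p i)) (hne : ∃ i, i < 8 ∧ i % 2 = e ∧ ¬ G.Adj v (p i)) :
    ∃ i, i < 8 ∧ ∀ j, j < 8 → (G.Adj v (p j) ↔ ((i + 1) % 8 = j ∨ (j + 1) % 8 = i)) := by
  classical
  obtain ⟨b1, h1⟩ : ∃ b : Bool, G.Adj v (p e) ↔ b = true := pc_b _
  obtain ⟨b2, h2⟩ : ∃ b : Bool, G.Adj v (p (e + 2)) ↔ b = true := pc_b _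
  obtain ⟨b3, h3⟩ : ∃ b : Bool, G.Adj v (p (e + 4)) ↔ b = true := pc_b _
  obtain ⟨b4, h4⟩ : ∃ b : Bool, G.Adj v (p (e + 6)) ↔ b = true := pc_b _
  have hN : ∀ i, i < 8 → (G.Adj v (p i) ↔ pcN e b1 b2 b3 b4 i = true) := by
    intro i hi
    refine pc_N (fun i => G.Adj v (p i)) e 0 8 h1 h2 h3 h4 ?_ i (Nat.zero_le _) hi
    intro i _ hi' hQ
    have := hpar i hi' hQ
    omega
  have hcase : ∀ i, i < 8 → i % 2 = e → i = e ∨ i = e + 2 ∨ i = e + 4 ∨ i = e + 6 := by
    intro i hi hie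
    omega
  have hex' : (b1 || b2 || b3 || b4) = true := by
    obtain ⟨i, hi, hie, hQ⟩ := hex
    rcases hcase i hi hie with h | h | h | h <;> rw [h] at hQ
    · rw [h1.1 hQ]
      rfl
    · rw [h2.1 hQ, Bool.or_true]
      rfl
    · rw [h3.1 hQ, Bool.or_true]
      rfl
    · rw [h4.1 hQ, Bool.or_true]
  have hne' : (b1 && b2 && b3 && b4) = false := by
    obtain ⟨i, hi, hie, hQ⟩ := hne
    rcases hcase i hi hie with h | h | h | h <;> rw [h] at hQ
    · have : b1 = false := by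
        rw [h1] at hQ
        simpa using hQ
      rw [this]
      rfl
    · have : b2 = false := by
        rw [h2] at hQ
        simpa using hQ
      rw [this, Bool.and_false]
      rfl
    · have : b3 = false := by
        rw [h3] at hQ
        simpa using hQ
      rw [this, Bool.and_false]
      rfl
    · have : b4 = false := by
        rw [h4] at hQ
        simpa using hQ
      rw [this, Bool.and_false]
  have hkey : pcMid (pcN e b1 b2 b3 b4) = true ∨
      ∃ L, pcChk (pcC (pcN e b1 b2 b3 b4)) L = true := by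
    rcases (by omega : e = 0 ∨ e = 1) with h0 | h0
    · rw [h0]
      rcases pc_c0 b1 b2 b3 b4 hex' hne' with h | h
      · exact Or.inl h
      · exact Or.inr ⟨_, h⟩
    · rw [h0]
      rcases pc_c1 b1 b2 b3 b4 hex' hne' with h | h
      · exact Or.inl h
      · exact Or.inr ⟨_, h⟩
  rcases hkey with h | ⟨L, h⟩
  · obtain ⟨i, hi, hij⟩ := pc_mid h
    exact ⟨i, hi, fun j hj => (hN j hj).trans (hij j hj)⟩
  · refine (pc_use hS (fun i => if i = 8 then v else p i) ?_ _
      (pc_cyc p hadj (pcN e b1 b2 b3 b4) hN) _ h).elim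
    intro i hi
    by_cases h0 : i = 8
    · simp only [if_pos h0]
      exact hv
    · simp only [if_neg h0]
      exact hp i (by omega)

end Pool.Agent.H68.CW
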