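import Pool.Agent.H68.CW.BipDef

/-!
FINA. Finite facts on a vertex `v` and an induced path `p` with 7 vertices and a twin.

All these are finite checks: for each pattern of adjacency of `v` (and of the twin `x`) that is to be excluded one gives the
seven vertices of an induced `S_{1,2,3}` (a program finds them: write one that prints `exact hS _ _ ... ⟨...⟩` or the vertices only, and
prove the 21 adjacencies by `simp [hadj, ...]`); the adjacencies of the `p i` are decided by `hadj`, the others are the assumed pattern;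
`v` is not adjacent to the `p i` of the wrong parity (`hpar`). Hint: first derive all `G.Adj (p i) (p j)` / `¬` facts for concrete
`i, j` by `(hadj i j ..).2 (by decide)`, and by_cases on the 3 or 4 adjacencies of `v`.
`twin7`: `x` is a twin of `p j`, `v` is adjacent to `p j` and not to `x`: there is always an induced `S_{1,2,3}` (for every `j` and
every set of neighbours of `v` of the parity of `j`; `x` is not adjacent to `p j` by `hxp`).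
-/

set_option autoImplicit false

namespace Pool.Agent.H68.CW

variable {V : Type} {G : SimpleGraph V} {M : Set V}

/-- the neighbours of `v` among the `p i` -/
def pfinA_s (j : ℕ) (b1 b2 b3 b4 : Bool) (i : ℕ) : Bool :=
  if j % 2 = 1 then
    (if i = 1 then b1 else if i = 3 then b2 else if i = 5 then b3 else if i = 7 then b4 else false)
  else (if i = 2 then b1 else if i = 4 then b2 else if i = 6 then b3 else false)

/-- adjacency of the pattern; `1, …, 7` are the `p i`, `8` is `x`, `9` is `v` -/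
def pfinA_adj (j : ℕ) (t : ℕ → Bool) (x y : ℕ) : Bool :=
  if x ≤ 7 then
    (if y ≤ 7 then decide (x + 1 = y ∨ y + 1 = x)
     else if y = 8 then decide (x + 1 = j ∨ j + 1 = x) else t x)
  else if x = 8 then (if y ≤ 7 then decide (y + 1 = j ∨ j + 1 = y) else false)
  else (if y ≤ 7 then t y else false)

/-- the vertices of an induced `S_{1,2,3}` -/
def pfinA_wit (j : ℕ) (b1 b2 b3 b4 : Bool) : ℕ × ℕ × ℕ × ℕ × ℕ × ℕ × ℕ :=
  match j, b1, b2, b3, b4 with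
  | 1, true, false, false, false => (2, 8, 1, 9, 3, 4, 5)
  | 1, true, false, false, true => (2, 8, 1, 9, 3, 4, 5)
  | 1, true, false, true, false => (5, 4, 6, 7, 9, 1, 2)
  | 1, true, false, true, true => (2, 8, 3, 4, 1, 9, 7)
  | 1, true, true, false, false => (3, 9, 2, 8, 4, 5, 6)
  | 1, true, true, false, true => (3, 4, 2, 8, 9, 7, 6)
  | 1, true, true, true, false => (5, 4, 6, 7, 9, 1, 2)
  | 1, true, true, true, true => (3, 4, 2, 8, 9, 7, 6)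
  | 2, true, false, false, false => (3, 8, 2, 9, 4, 5, 6)
  | 2, true, false, false, true => (3, 8, 2, 9, 4, 5, 6)
  | 2, true, false, true, false => (2, 1, 3, 4, 9, 6, 7)
  | 2, true, false, true, true => (2, 1, 3, 4, 9, 6, 7)
  | 2, true, true, false, false => (4, 9, 3, 8, 5, 6, 7)
  | 2, true, true, false, true => (4, 9, 3, 8, 5, 6, 7)
  | 2, true, true, true, false => (9, 4, 6, 7, 2, 1, 8)
  | 2, true, true, true, true => (9, 4, 6, 7, 2, 1, 8)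
  | 3, false, true, false, false => (3, 9, 2, 1, 4, 5, 6)
  | 3, false, true, false, true => (3, 4, 2, 1, 9, 7, 6)
  | 3, false, true, true, false => (5, 9, 6, 7, 4, 8, 2)
  | 3, false, true, true, true => (3, 4, 2, 1, 9, 7, 6)
  | 3, true, true, false, false => (4, 8, 3, 9, 5, 6, 7)
  | 3, true, true, false, true => (4, 8, 5, 6, 3, 9, 1)
  | 3, true, true, true, false => (5, 4, 6, 7, 9, 1, 2)
  | 3, true, true, true, true => (9, 1, 7, 6, 3, 4, 8)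
  | 4, false, true, false, false => (4, 9, 3, 2, 5, 6, 7)
  | 4, false, true, false, true => (4, 9, 3, 2, 5, 6, 7)
  | 4, false, true, true, false => (3, 8, 2, 1, 4, 9, 6)
  | 4, false, true, true, true => (3, 8, 2, 1, 4, 9, 6)
  | 4, true, true, false, false => (5, 8, 6, 7, 4, 9, 2)
  | 4, true, true, false, true => (5, 8, 6, 7, 4, 9, 2)
  | 4, true, true, true, false => (2, 1, 3, 8, 9, 6, 7)
  | 4, true, true, true, true => (2, 1, 3, 8, 9, 6, 7)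
  | 5, false, false, true, false => (4, 8, 5, 9, 3, 2, 1)
  | 5, false, false, true, true => (4, 8, 3, 2, 5, 9, 7)
  | 5, false, true, true, false => (3, 9, 2, 1, 4, 8, 6)
  | 5, false, true, true, true => (3, 4, 2, 1, 9, 7, 6)
  | 5, true, false, true, false => (5, 4, 6, 7, 9, 1, 2)
  | 5, true, false, true, true => (4, 8, 3, 2, 5, 9, 7)
  | 5, true, true, true, false => (5, 4, 6, 7, 9, 1, 2)
  | 5, true, true, true, true => (9, 7, 1, 2, 5, 4, 8)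
  | 6, false, false, true, false => (5, 8, 6, 9, 4, 3, 2)
  | 6, false, false, true, true => (5, 8, 6, 9, 4, 3, 2)
  | 6, false, true, true, false => (4, 9, 3, 2, 5, 8, 7)
  | 6, false, true, true, true => (4, 9, 3, 2, 5, 8, 7)
  | 6, true, false, true, false => (2, 1, 3, 4, 9, 6, 7)
  | 6, true, false, true, true => (2, 1, 3, 4, 9, 6, 7)
  | 6, true, true, true, false => (9, 4, 2, 1, 6, 7, 8)
  | 6, true, true, true, true => (9, 4, 2, 1, 6, 7, 8)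
  | 7, false, false, false, true => (6, 8, 7, 9, 5, 4, 3)
  | 7, false, false, true, true => (5, 9, 6, 8, 4, 3, 2)
  | 7, false, true, false, true => (3, 4, 2, 1, 9, 7, 6)
  | 7, false, true, true, true => (3, 4, 2, 1, 9, 7, 6)
  | 7, true, false, false, true => (6, 8, 5, 4, 7, 9, 1)
  | 7, true, false, true, true => (5, 4, 6, 8, 9, 1, 2)
  | 7, true, true, false, true => (6, 8, 5, 4, 7, 9, 1)
  | 7, true, true, true, true => (5, 4, 6, 8, 9, 1, 2)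
  | _, _, _, _, _ => (0, 0, 0, 0, 0, 0, 0)

/-- the check -/
def pfinA_chk (A : ℕ → ℕ → Bool) (w : ℕ × ℕ × ℕ × ℕ × ℕ × ℕ × ℕ) : Prop :=
  ((1 ≤ w.1 ∧ w.1 ≤ 9) ∧ (1 ≤ w.2.1 ∧ w.2.1 ≤ 9) ∧ (1 ≤ w.2.2.1 ∧ w.2.2.1 ≤ 9) ∧
    (1 ≤ w.2.2.2.1 ∧ w.2.2.2.1 ≤ 9) ∧ (1 ≤ w.2.2.2.2.1 ∧ w.2.2.2.2.1 ≤ 9) ∧
    (1 ≤ w.2.2.2.2.2.1 ∧ w.2.2.2.2.2.1 ≤ 9) ∧ (1 ≤ w.2.2.2.2.2.2 ∧ w.2.2.2.2.2.2 ≤ 9)) ∧
  (A w.1 w.2.1 = true ∧ A w.1 w.2.2.1 = true ∧ A w.2.2.1 w.2.2.2.1 = true ∧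
    A w.1 w.2.2.2.2.1 = true ∧ A w.2.2.2.2.1 w.2.2.2.2.2.1 = true ∧
    A w.2.2.2.2.2.1 w.2.2.2.2.2.2 = true) ∧
  (A w.1 w.2.2.2.1 = false ∧ A w.1 w.2.2.2.2.2.1 = false ∧ A w.1 w.2.2.2.2.2.2 = false) ∧
  (A w.2.1 w.2.2.1 = false ∧ A w.2.1 w.2.2.2.1 = false ∧ A w.2.1 w.2.2.2.2.1 = false ∧
    A w.2.1 w.2.2.2.2.2.1 = false ∧ A w.2.1 w.2.2.2.2.2.2 = false) ∧
  (A w.2.2.1 w.2.2.2.2.1 = false ∧ A w.2.2.1 w.2.2.2.2.2.1 = false ∧
    A w.2.2.1 w.2.2.2.2.2.2 = false) ∧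
  (A w.2.2.2.1 w.2.2.2.2.1 = false ∧ A w.2.2.2.1 w.2.2.2.2.2.1 = false ∧
    A w.2.2.2.1 w.2.2.2.2.2.2 = false) ∧ A w.2.2.2.2.1 w.2.2.2.2.2.2 = false

instance (A : ℕ → ℕ → Bool) (w : ℕ × ℕ × ℕ × ℕ × ℕ × ℕ × ℕ) : Decidable (pfinA_chk A w) := by
  unfold pfinA_chk
  infer_instance

theorem pfinA_tab : ∀ j < 8, 1 ≤ j → ∀ b1 b2 b3 b4 : Bool, pfinA_s j b1 b2 b3 b4 j = true →
    pfinA_chk (pfinA_adj j (pfinA_s j b1 b2 b3 b4)) (pfinA_wit j b1 b2 b3 b4) := by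
  decide

theorem pfinA_adj_iff (p : ℕ → V)
    (hadj : ∀ i j, 1 ≤ i → i ≤ 7 → 1 ≤ j → j ≤ 7 → (G.Adj (p i) (p j) ↔ (i + 1 = j ∨ j + 1 = i)))
    {x v : V} (j : ℕ)
    (hxp : ∀ i, 1 ≤ i → i ≤ 7 → (G.Adj x (p i) ↔ (i + 1 = j ∨ j + 1 = i)))
    (hvx : ¬ G.Adj v x) (t : ℕ → Bool)
    (ht : ∀ i, 1 ≤ i → i ≤ 7 → (G.Adj v (p i) ↔ t i = true)) (a b : ℕ) (ha : 1 ≤ a) (ha9 : a ≤ 9)
    (hb : 1 ≤ b) (hb9 : b ≤ 9) :
    G.Adj (if a = 8 then x else if a = 9 then v else p a)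
      (if b = 8 then x else if b = 9 then v else p b) ↔ pfinA_adj j t a b = true := by
  have hvx' : ¬ G.Adj x v := fun h => hvx h.symm
  have hxx : ¬ G.Adj x x := G.loopless.irrefl x
  have hvv : ¬ G.Adj v v := G.loopless.irrefl v
  rcases (by omega : a ≤ 7 ∨ a = 8 ∨ a = 9) with h | h | h <;>
    rcases (by omega : b ≤ 7 ∨ b = 8 ∨ b = 9) with h' | h' | h'
  · rw [if_neg (by omega), if_neg (by omega), if_neg (by omega), if_neg (by omega),
      hadj a b ha h hb h']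
    simp [pfinA_adj, h, h']
  · subst h'
    rw [if_neg (by omega), if_neg (by omega), if_pos rfl, G.adj_comm, hxp a ha h]
    simp [pfinA_adj, h]
  · subst h'
    rw [if_neg (by omega), if_neg (by omega), if_neg (by omega), if_pos rfl, G.adj_comm,
      ht a ha h]
    simp [pfinA_adj, h]
  · subst h
    rw [if_pos rfl, if_neg (by omega), if_neg (by omega), hxp b hb h']
    simp [pfinA_adj, h']
  · subst h h'
    simp [pfinA_adj]
  · subst h h'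
    simp [pfinA_adj, hvx']
  · subst h
    rw [if_neg (by omega), if_pos rfl, if_neg (by omega), if_neg (by omega), ht b hb h']
    simp [pfinA_adj, h']
  · subst h h'
    simp [pfinA_adj, hvx]
  · subst h h'
    simp [pfinA_adj]

theorem twin7 (hS : FreeS G M) (p : ℕ → V) (hp : ∀ i, 1 ≤ i → i ≤ 7 → p i ∈ M)
    (hadj : ∀ i j, 1 ≤ i → i ≤ 7 → 1 ≤ j → j ≤ 7 → (G.Adj (p i) (p j) ↔ (i + 1 = j ∨ j + 1 = i)))
    {x v : V} (hx : x ∈ M) (hv : v ∈ M) (j : ℕ) (hj1 : 1 ≤ j) (hj7 : j ≤ 7)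
    (hxp : ∀ i, 1 ≤ i → i ≤ 7 → (G.Adj x (p i) ↔ (i + 1 = j ∨ j + 1 = i)))
    (hpar : ∀ i, 1 ≤ i → i ≤ 7 → G.Adj v (p i) → i % 2 = j % 2) (hvx : ¬ G.Adj v x)
    (hvj : G.Adj v (p j)) : False := by
  classical
  obtain ⟨b1, b2, b3, b4, ht⟩ : ∃ b1 b2 b3 b4 : Bool, ∀ i, 1 ≤ i → i ≤ 7 →
      (G.Adj v (p i) ↔ pfinA_s j b1 b2 b3 b4 i = true) := by
    rcases Nat.mod_two_eq_zero_or_one j with h | h
    · refine ⟨decide (G.Adj v (p 2)), decide (G.Adj v (p 4)), decide (G.Adj v (p 6)), false, ?_⟩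
      intro i hi1 hi7
      have hpi := hpar i hi1 hi7
      interval_cases i <;> simp [pfinA_s, h] at hpi ⊢ <;> exact hpi
    · refine ⟨decide (G.Adj v (p 1)), decide (G.Adj v (p 3)), decide (G.Adj v (p 5)),
        decide (G.Adj v (p 7)), ?_⟩
      intro i hi1 hi7
      have hpi := hpar i hi1 hi7
      interval_cases i <;> simp [pfinA_s, h] at hpi ⊢ <;> exact hpi
  have h1 := pfinA_tab j (by omega) hj1 b1 b2 b3 b4 ((ht j hj1 hj7).1 hvj)
  generalize pfinA_wit j b1 b2 b3 b4 = w at h1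
  have L := pfinA_adj_iff p hadj j hxp hvx _ ht
  have hf : ∀ a, 1 ≤ a → a ≤ 9 → (if a = 8 then x else if a = 9 then v else p a) ∈ M := by
    intro a ha ha9
    split_ifs
    · exact hx
    · exact hv
    · exact hp a ha (by omega)
  have L' : ∀ a b, 1 ≤ a → a ≤ 9 → 1 ≤ b → b ≤ 9 →
      pfinA_adj j (pfinA_s j b1 b2 b3 b4) a b = false →
      ¬ G.Adj (if a = 8 then x else if a = 9 then v else p a)
        (if b = 8 then x else if b = 9 then v else p b) := by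
    intro a b h1 h2 h3 h4 h5 h6
    rw [L a b h1 h2 h3 h4, h5] at h6
    exact absurd h6 (by decide)
  obtain ⟨⟨⟨c1, c2⟩, ⟨c3, c4⟩, ⟨c5, c6⟩, ⟨c7, c8⟩, ⟨c9, c10⟩, ⟨c11, c12⟩, ⟨c13, c14⟩⟩,
    ⟨e1, e2, e3, e4, e5, e6⟩, ⟨f1, f2, f3⟩, ⟨g1, g2, g3, g4, g5⟩, ⟨i1, i2, i3⟩, ⟨k1, k2, k3⟩,
    l1⟩ := h1
  exact hS _ (hf w.1 c1 c2) _ (hf w.2.1 c3 c4) _ (hf w.2.2.1 c5 c6) _ (hf w.2.2.2.1 c7 c8) _
    (hf w.2.2.2.2.1 c9 c10) _ (hf w.2.2.2.2.2.1 c11 c12) _ (hf w.2.2.2.2.2.2 c13 c14)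
    ⟨⟨(L _ _ c1 c2 c3 c4).2 e1, (L _ _ c1 c2 c5 c6).2 e2, (L _ _ c5 c6 c7 c8).2 e3,
      (L _ _ c1 c2 c9 c10).2 e4, (L _ _ c9 c10 c11 c12).2 e5, (L _ _ c11 c12 c13 c14).2 e6⟩,
      ⟨L' _ _ c1 c2 c7 c8 f1, L' _ _ c1 c2 c11 c12 f2, L' _ _ c1 c2 c13 c14 f3⟩,
      ⟨L' _ _ c3 c4 c5 c6 g1, L' _ _ c3 c4 c7 c8 g2, L' _ _ c3 c4 c9 c10 g3,
        L' _ _ c3 c4 c11 c12 g4, L' _ _ c3 c4 c13 c14 g5⟩,
      ⟨L' _ _ c5 c6 c9 c10 i1, L' _ _ c5 c6 c11 c12 i2, L' _ _ c5 c6 c13 c14 i3⟩,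
      ⟨L' _ _ c7 c8 c9 c10 k1, L' _ _ c7 c8 c11 c12 k2, L' _ _ c7 c8 c13 c14 k3⟩,
      L' _ _ c9 c10 c13 c14 l1⟩

end Pool.Agent.H68.CW
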