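import Pool.Agent.H68.CW.PTab

/-!
PUB. A group of types does not contain an `S_{1,2,3}`.

Proof. Let `c, a, b₁, b₂, d₁, d₂, d₃ ∈ Y` with `IsS G c a b₁ b₂ d₁ d₂ d₃`. `cert_sound` for `sp = specPl e.1`, `X := Y`, the relations `E k u v := (u = v)` (`Sys`: trivial, `bf` with `u' = u`), the root `p`, `rep 0 = c`, `rep 1 = a`, `rep 2 = b₁`, `rep 3 = b₂`, `rep 4 = d₁`, `rep 5 = d₂`, `rep 6 = d₃`, `m = 7`, `adj = sadj` (21 pairs), and
`placeTab_ok`. In `Ctx`: `pX`: `Y ⊆ X`; `aty`: `hty`; `cty`: all entries are `none`; `mix = []`.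
-/

set_option autoImplicit false

namespace Pool.Agent.H68.CW

variable {V : Type} {G : SimpleGraph V} {M X : Set V} {E : ℕ → V → V → Prop} {p : ℕ → V}

theorem sys_eq (G : SimpleGraph V) (Y : Set V) : Sys G Y (fun _ u v => u = v) where
  refl _ _ := rfl
  symm _ _ _ h := h.symm
  trans _ _ _ _ h h' := h.trans h'
  anti _ _ _ h := h
  bf _ _ _ u h hu := ⟨u, hu, rfl, by rw [h]⟩

theorem placeCtx (h : PSys G M X E p) {g : List ℕ} {Y : Set V}
    (hY : Y ⊆ X) (hty : ∀ u ∈ Y, ∃ τ ∈ g, TypM G p u τ) (rep : ℕ → V)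
    (hrep : ∀ c < 7, rep c ∈ Y) :
    Ctx G M Y (fun _ u v => u = v) (specPl g) p rep where
  sys := sys_eq G Y
  sub := hY.trans h.sub
  pM := h.pM
  pX i hi hp := h.pX i hi (hY hp)
  pinj := h.pinj
  root := h.root
  h0 u v huv i _ := by rw [huv]
  tri := h.tri
  freeS hp := by simp [specPl] at hp
  freeP _ := h.free
  tt hp := by simp [specPl] at hp
  aty _ := hty
  repX := hrep
  cty c τ hc := by
    exfalso
    have h7 : (specPl g).cty = [none, none, none, none, none, none, none] := rfl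
    rw [h7] at hc
    have hm := List.mem_of_getElem? hc
    simp at hm
  mix c d hcd := by
    have h7 : (specPl g).mix = [] := rfl
    rw [h7] at hcd
    simp at hcd

theorem place_use (h : PSys G M X E p) {e : List ℕ × Tree} (he : e ∈ placeTab) {Y : Set V}
    (hY : Y ⊆ X) (hty : ∀ u ∈ Y, ∃ τ ∈ e.1, TypM G p u τ) : FreeS G Y := by
  intro c hc a ha b₁ hb₁ b₂ hb₂ d₁ hd₁ d₂ hd₂ d₃ hd₃ hS
  obtain ⟨⟨h01, h02, h23, h04, h45, h56⟩, ⟨h03, h05, h06⟩, ⟨h12, h13, h14, h15, h16⟩,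
    ⟨h24, h25, h26⟩, ⟨h34, h35, h36⟩, h46⟩ := hS
  let rep : ℕ → V := fun i =>
    match i with
    | 0 => c
    | 1 => a
    | 2 => b₁
    | 3 => b₂
    | 4 => d₁
    | 5 => d₂
    | _ => d₃
  have hrep : ∀ i < 7, rep i ∈ Y := by
    intro i hi
    interval_cases i <;> assumption
  have hctx := placeCtx h hY hty rep hrep
  have hok := List.all_eq_true.1 placeTab_ok e he
  refine cert_sound hctx 7 (le_refl _) (by show 6 + 7 ≤ 32; norm_num) sadj ?_ e.2 hok
  intro x hx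
  simp only [sadj, List.mem_cons, List.not_mem_nil, or_false] at hx
  rcases hx with rfl | rfl | rfl | rfl | rfl | rfl | rfl | rfl | rfl | rfl | rfl | rfl | rfl | rfl | rfl |
    rfl | rfl | rfl | rfl | rfl | rfl <;> refine ⟨by norm_num, by norm_num, ?_⟩ <;>
    simp only [rep] <;> simp [*]

end Pool.Agent.H68.CW
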