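import Pool.Agent.H68.CW.SC5
import Pool.Agent.H68.CW.Odd

/-!
TS. Triangle-free graphs without `S_{1,2,3}` have bounded width.

Proof.
* `thmS`: strong induction on the number of elements of `M`. If `M` is not `Conn`: a proper nonempty part `A` without edges to `M \ A`; `Dec.glue` with `L = Unit`. So let `M` be `Conn`. If there is an induced `C₅`: `dec_C5` (from `p : ℕ → V` of `odd_case` to `Fin 5 → V`; `(i + 1) % 5 = j ∨ (j + 1) % 5 = i` is
  `j = i + 1 ∨ i = j + 1` in `Fin 5`). Otherwise, if `M` is bipartite, `thmB_unit`; if not, `odd_case` and `dec_PC`, `Dec.coarsen`. `12 ≤ KS`.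
-/

set_option autoImplicit false

namespace Pool.Agent.H68.CW

variable {V : Type} {G : SimpleGraph V} {M X : Set V} {p : Fin 5 → V}

theorem ThmS_KS : 12 ≤ KS := by
  unfold KS
  have h1 : 1 ≤ max 1 (Nat.card (LT ((Fin 5 ⊕ Fin 5 × Fin 3) → Prop) 12)) := le_max_left _ _
  have h2 : 1 ≤ 2 ^ 20 := Nat.one_le_two_pow
  calc 12 = 12 * 1 * 1 := by norm_num
    _ ≤ _ := Nat.mul_le_mul (Nat.mul_le_mul_left 12 h1) h2

theorem ThmS_aux (n : ℕ) : ∀ M : Set V, M.Finite → M.ncard = n → TriFree G M → FreeS G M →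
    Dec G (fun _ => ()) KS M M := by
  have hK := ThmS_KS
  induction n using Nat.strong_induction_on with
  | _ n ih =>
    intro M hM hn htri hS
    have hsub : ∀ A ⊆ M, A ≠ M → Dec G (fun _ => ()) KS A A := by
      intro A hA hne
      refine ih A.ncard ?_ A (hM.subset hA) rfl
        (fun a ha b hb c hc => htri a (hA ha) b (hA hb) c (hA hc))
        (fun c hc a ha b₁ hb₁ b₂ hb₂ d₁ hd₁ d₂ hd₂ d₃ hd₃ => hS c (hA hc) a (hA ha) b₁ (hA hb₁)
          b₂ (hA hb₂) d₁ (hA hd₁) d₂ (hA hd₂) d₃ (hA hd₃))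
      rw [← hn]
      exact Set.ncard_lt_ncard (Set.ssubset_iff_subset_ne.2 ⟨hA, hne⟩) hM
    by_cases hc : Conn G M
    · by_cases hC : ∃ p : ℕ → V, (∀ i, i < 5 → p i ∈ M) ∧
          ∀ i j, i < 5 → j < 5 → (G.Adj (p i) (p j) ↔ ((i + 1) % 5 = j ∨ (j + 1) % 5 = i))
      · obtain ⟨p, hp, hpr⟩ := hC
        refine dec_C5 (p := fun i : Fin 5 => p i.1) hM hc htri hS (fun i => hp i.1 i.2) ?_
        intro i j
        rw [hpr i.1 j.1 i.2 j.2]
        revert i j
        decide
      · by_cases hb : ∃ side : V → Bool, Bip G side M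
        · obtain ⟨side, hb⟩ := hb
          exact Dec.mono hK (Dec.coarsen (fun _ _ _ _ _ => rfl) (thmB hM hb hS))
        · obtain ⟨k, c, hk, h⟩ := odd_case hc htri hS hb hC
          exact Dec.mono hK (Dec.coarsen (fun _ _ _ _ _ => rfl)
            (dec_PC (side := fun _ => true) hM ⟨k, c, hk, Or.inr h⟩))
    · unfold Conn at hc
      push Not at hc
      obtain ⟨A, hA, hne, hAM, h2⟩ := hc
      have hB : M \ A ≠ M := by
        intro h
        obtain ⟨a, ha⟩ := hne
        have h1 := hA ha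
        rw [← h] at h1
        exact h1.2 ha
      have h1 := Dec.glue (G := G) (ℓ := fun _ : V => ()) (k := KS) (by simp; omega) (by omega)
        (A := A) (B := M \ A) Set.disjoint_sdiff_right (hsub A hA hAM) (hsub _ Set.sdiff_subset hB)
        (fun u hu u' hu' v hv _ => iff_of_false (h2 u hu v hv.1 hv.2) (h2 u' hu' v hv.1 hv.2))
        (fun u hu v hv v' hv' _ => iff_of_false (h2 u hu v hv.1 hv.2) (h2 u hu v' hv'.1 hv'.2))
      rw [Set.union_sdiff_cancel hA] at h1
      exact h1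

theorem thmS (hM : M.Finite) (htri : TriFree G M) (hS : FreeS G M) :
    Dec G (fun _ => ()) KS M M :=
  ThmS_aux M.ncard M hM rfl htri hS

end Pool.Agent.H68.CW
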