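import Pool.Agent.H68.CW.PUseA
import Pool.Agent.H68.CW.PUseB
import Pool.Agent.H68.CW.BlockN
import Pool.Agent.H68.CW.ThmS

/-!
PS. Over an induced `S_{1,1,3}`: the vertices outside the root.

Proof. Choose `ty u ∈ tyP` with `TypM G p u (ty u)` for `u ∈ X` (`ty_useP`). Let `g u : Option (Fin grpP.length)` (or `g u : Fin (grpP.length + 1)`) be `none` if there is no `w ∈ X` with `Mx u w`, and otherwise the group `pgP (ty u) (ty w)` for a chosen `w` (`< grpP.length` by `grp_pair`). By `grp_dbl` the group does not depend on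
`w`; by `pg_symm_all` `Mx u w` implies `g u = g w`. Use `glue_groups` with the width `KS * k` (`1 ≤ KS`, so `k ≤ KS * k`). For the group number `j`: the set `Y` of the `u ∈ X` with `g u = j`; `ty u` is in the list `grpP[j]` for all `u ∈ Y` (`List.findIdx_getElem` / `List.findIdx_lt_length`: the list at the index `findIdx` satisfies the
predicate), `place_use` gives `FreeS G Y`, `thmS` gives `Dec G (fun _ => ()) KS Y Y` and `Dec.relabel` gives the labels `lab G X t 12`. For `none`: `block_N` and `Dec.mono`.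
-/

set_option autoImplicit false

namespace Pool.Agent.H68.CW

variable {V : Type} {G : SimpleGraph V} {M X : Set V} {p : ℕ → V}

theorem KS_pos : 1 ≤ KS := by
  unfold KS
  have h1 : 1 ≤ max 1 (Nat.card (LT ((Fin 5 ⊕ Fin 5 × Fin 3) → Prop) 12)) := le_max_left _ _
  have h2 : 1 ≤ 2 ^ 20 := Nat.one_le_two_pow
  calc 1 = 1 * 1 * 1 := rfl
    _ ≤ 12 * (max 1 (Nat.card (LT ((Fin 5 ⊕ Fin 5 × Fin 3) → Prop) 12))) * 2 ^ 20 :=
        Nat.mul_le_mul (Nat.mul_le_mul (by omega) h1) h2

theorem pgP_symm {a b : ℕ} (ha : a ∈ tyP) (hb : b ∈ tyP) : pgP a b = pgP b a := by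
  have h := pg_symm_all
  rw [List.all_eq_true] at h
  have h2 := h a ha
  rw [List.all_eq_true] at h2
  exact Nat.eq_of_beq_eq_true (h2 b hb)

/-- the entry of a group -/
theorem pgP_entry {a b : ℕ} (h : pgP a b < grpP.length) :
    ∃ e ∈ placeTab, grpP[pgP a b]? = some e.1 ∧ a ∈ e.1 := by
  have h1 := List.findIdx_getElem (xs := grpP)
    (p := fun g : List ℕ => g.contains a && g.contains b) (w := h)
  have hmem : grpP[pgP a b] ∈ grpP := List.getElem_mem h
  obtain ⟨e, he, he2⟩ := List.mem_map.1 (show grpP[pgP a b] ∈ placeTab.map (fun e => e.1) from hmem)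
  refine ⟨e, he, ?_, ?_⟩
  · rw [List.getElem?_eq_getElem h, ← he2]
  · have h3 : (grpP[pgP a b]).contains a = true := by
      have h4 : ((grpP[pgP a b]).contains a && (grpP[pgP a b]).contains b) = true := h1
      rw [Bool.and_eq_true] at h4
      exact h4.1
    have h5 : a ∈ grpP[pgP a b] := by
      simpa using h3
    have he3 : e.1 = grpP[pgP a b] := he2
    rw [he3]
    exact h5

theorem dec_psys {B : Type} [Finite B] {t : V → B}
    (h : PSys G M X (fun k u v => lab G X t k u = lab G X t k v) p) (hX : X.Finite)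
    {k : ℕ} (hk : Nat.card (LT B 12) ≤ k) (hpos : 1 ≤ k) :
    Dec G (lab G X t 12) (KS * k) X X := by
  classical
  have hty : ∀ u : V, ∃ τ : ℕ, u ∈ X → τ ∈ tyP ∧ TypM G p u τ := by
    intro u
    by_cases hu : u ∈ X
    · obtain ⟨τ, h1, h2⟩ := ty_useP h hu
      exact ⟨τ, fun _ => ⟨h1, h2⟩⟩
    · exact ⟨0, fun h => absurd h hu⟩
  choose ty hty using hty
  have hsym : ∀ u w, Mx G X (fun k u v => lab G X t k u = lab G X t k v) 12 u w →
      Mx G X (fun k u v => lab G X t k u = lab G X t k v) 12 w u := fun u w hm => Mx.symm hm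
  have hpair : ∀ u ∈ X, ∀ w ∈ X,
      Mx G X (fun k u v => lab G X t k u = lab G X t k v) 12 u w →
      pgP (ty u) (ty w) < grpP.length := fun u hu w hw hm =>
    grp_pair h (hty u hu).1 (hty w hw).1 hu hw (hty u hu).2 (hty w hw).2 hm
  have hdbl : ∀ u ∈ X, ∀ w ∈ X, ∀ w' ∈ X,
      Mx G X (fun k u v => lab G X t k u = lab G X t k v) 12 u w →
      Mx G X (fun k u v => lab G X t k u = lab G X t k v) 12 u w' →
      pgP (ty u) (ty w) = pgP (ty u) (ty w') := fun u hu w hw w' hw' hm hm' =>
    grp_dbl h (hty u hu).1 (hty w hw).1 (hty w' hw').1 hu hw hw' (hty u hu).2 (hty w hw).2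
      (hty w' hw').2 hm hm'
  have hg : ∃ g : V → Option (Fin grpP.length), ∀ u ∈ X,
      (∀ w ∈ X, Mx G X (fun k u v => lab G X t k u = lab G X t k v) 12 u w →
        ∃ j : Fin grpP.length, g u = some j ∧ j.1 = pgP (ty u) (ty w)) ∧
      (∀ j : Fin grpP.length, g u = some j → ∃ w ∈ X, j.1 = pgP (ty u) (ty w)) := by
    have h0 : ∀ u : V, ∃ o : Option (Fin grpP.length), u ∈ X →
      (∀ w ∈ X, Mx G X (fun k u v => lab G X t k u = lab G X t k v) 12 u w →
        ∃ j : Fin grpP.length, o = some j ∧ j.1 = pgP (ty u) (ty w)) ∧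
      (∀ j : Fin grpP.length, o = some j → ∃ w ∈ X, j.1 = pgP (ty u) (ty w)) := by
      intro u
      by_cases hu : u ∈ X
      · by_cases he : ∃ w ∈ X, Mx G X (fun k u v => lab G X t k u = lab G X t k v) 12 u w
        · obtain ⟨w, hw, hm⟩ := he
          refine ⟨some ⟨pgP (ty u) (ty w), hpair u hu w hw hm⟩, fun _ => ⟨?_, ?_⟩⟩
          · intro w' hw' hm'
            exact ⟨_, rfl, hdbl u hu w hw w' hw' hm hm'⟩
          · intro j hj
            refine ⟨w, hw, ?_⟩
            have := Option.some.inj hj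
            rw [← this]
        · refine ⟨none, fun _ => ⟨?_, ?_⟩⟩
          · intro w hw hm
            exact absurd ⟨w, hw, hm⟩ he
          · intro j hj
            exact absurd hj (by simp)
      · exact ⟨none, fun h => absurd h hu⟩
    choose g hg using h0
    exact ⟨g, hg⟩
  obtain ⟨g, hg⟩ := hg
  have hkk : k ≤ KS * k := Nat.le_mul_of_pos_left k KS_pos
  refine glue_groups (hk.trans hkk) (hpos.trans hkk) g ?_ ?_
  · intro γ
    have hYX : {v ∈ X | g v = γ} ⊆ X := fun v hv => hv.1
    have hYf : ({v ∈ X | g v = γ} : Set V).Finite := hX.subset hYX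
    rcases γ with _ | j
    · refine Dec.mono hkk (block_N hYX hYf hk hpos ?_)
      intro u hu w hw hm
      obtain ⟨j, hj, -⟩ := (hg u hu.1).1 w hw.1 hm
      have h2 : g u = none := hu.2
      rw [h2] at hj
      exact absurd hj (by simp)
    · by_cases hne : ∃ u0, u0 ∈ X ∧ g u0 = some j
      · obtain ⟨u0, hu0, hg0⟩ := hne
        obtain ⟨w0, hw0, hj0⟩ := (hg u0 hu0).2 j hg0
        have hlt0 : pgP (ty u0) (ty w0) < grpP.length := by rw [← hj0]; exact j.2
        obtain ⟨e, he, he1, -⟩ := pgP_entry hlt0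
        have hfree : FreeS G {v ∈ X | g v = some j} := by
          refine place_use h he hYX ?_
          intro u hu
          obtain ⟨w, hw, hjw⟩ := (hg u hu.1).2 j hu.2
          have hlt : pgP (ty u) (ty w) < grpP.length := by rw [← hjw]; exact j.2
          obtain ⟨e', he', he1', he2'⟩ := pgP_entry hlt
          refine ⟨ty u, ?_, (hty u hu.1).2⟩
          rw [← hj0] at he1
          rw [← hjw, he1] at he1'
          rw [Option.some.inj he1']
          exact he2'
        have htri : TriFree G {v ∈ X | g v = some j} := by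
          intro a ha b hb c hc
          exact h.tri a (h.sub ha.1) b (h.sub hb.1) c (h.sub hc.1)
        exact Dec.relabel hk hpos (thmS hYf htri hfree)
      · have hemp : {v ∈ X | g v = some j} = ∅ := by
          ext v
          simp only [Set.mem_ofPred_eq, Set.mem_empty_iff_false, iff_false]
          intro hv
          exact hne ⟨v, hv.1, hv.2⟩
        rw [hemp]
        exact Dec.empty
  · intro u hu w hw hm
    obtain ⟨j, hj, hj2⟩ := (hg u hu).1 w hw hm
    obtain ⟨j', hj', hj2'⟩ := (hg w hw).1 u hu (hsym u w hm)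
    rw [hj, hj']
    have : j = j' := by
      apply Fin.ext
      rw [hj2, hj2', pgP_symm (hty u hu).1 (hty w hw).1]
    rw [this]

end Pool.Agent.H68.CW
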