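import Pool.Agent.H68.CW.PDef

/-!
Certificates for the facts over an induced `S_{1,1,3}` (generated by a program).
-/

set_option autoImplicit false
set_option linter.style.longLine false

namespace Pool.Agent.H68.CW

open Pool.Agent.H68.CW.Tree

/-- the possible types -/
def tyP : List ℕ := [1, 2, 4, 6, 8, 10, 12, 14, 16, 17, 18, 20, 22, 32, 33, 34, 36, 38, 40, 42, 44, 46]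

/-- the impossible types -/
def tyTab : List (ℕ × Tree) :=
  [(0, .pp 0 1 2 3 4 5 6 0),
    (3, .cf 0 1),
    (5, .cf 0 2),
    (7, .cf 0 1),
    (9, .cf 0 3),
    (11, .cf 0 1),
    (13, .cf 0 2),
    (15, .cf 0 1),
    (19, .cf 0 1),
    (21, .cf 0 2),
    (23, .cf 0 1),
    (24, .cf 3 4),
    (25, .cf 0 3),
    (26, .cf 3 4),
    (27, .cf 0 1),
    (28, .cf 3 4),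
    (29, .cf 0 2),
    (30, .cf 3 4),
    (31, .cf 0 1),
    (35, .cf 0 1),
    (37, .cf 0 2),
    (39, .cf 0 1),
    (41, .cf 0 3),
    (43, .cf 0 1),
    (45, .cf 0 2),
    (47, .cf 0 1),
    (48, .cf 4 5),
    (49, .cf 4 5),
    (50, .cf 4 5),
    (51, .cf 0 1),
    (52, .cf 4 5),
    (53, .cf 0 2),
    (54, .cf 4 5),
    (55, .cf 0 1),
    (56, .cf 3 4),
    (57, .cf 0 3),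
    (58, .cf 3 4),
    (59, .cf 0 1),
    (60, .cf 3 4),
    (61, .cf 0 2),
    (62, .cf 3 4),
    (63, .cf 0 1)]

/-- pairs of types which are never mixed -/
def pairTabP : List (ℕ × ℕ × Tree) :=
  [(1, 1, .mx 6 1 true (.cf 0 6)),
    (1, 2, .mx 6 1 false (.pp 0 2 6 3 4 5 7 0)),
    (1, 4, .mx 6 1 false (.pp 0 1 6 3 4 5 7 0)),
    (1, 10, .mx 6 1 true (.pp 7 1 6 3 4 5 2 0)),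
    (1, 12, .mx 6 1 true (.pp 7 2 6 3 4 5 1 0)),
    (1, 14, .mx 6 1 false (.pp 7 1 2 3 4 5 6 0)),
    (1, 17, .mx 6 1 true (.cf 0 6)),
    (1, 33, .mx 6 1 true (.cf 0 6)),
    (1, 34, .mx 6 1 true (.pp 7 1 6 5 4 3 2 0)),
    (1, 36, .mx 6 1 true (.pp 7 2 6 5 4 3 1 0)),
    (1, 38, .mx 6 1 false (.pp 7 1 2 5 4 3 6 0)),
    (2, 2, .mx 6 1 true (.cf 1 6)),
    (2, 6, .mx 6 1 true (.cf 1 6)),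
    (2, 8, .mx 6 1 false (.mx 6 1 true (.pp 3 4 7 8 6 1 2 0))),
    (2, 10, .mx 6 1 true (.cf 1 6)),
    (2, 12, .mx 6 1 false (.mx 7 0 true (.pp 7 2 8 3 4 5 6 0))),
    (2, 14, .mx 6 1 true (.cf 1 6)),
    (2, 16, .mx 6 1 false (.pp 4 5 7 3 0 2 6 0)),
    (2, 17, .mx 6 1 true (.pp 4 3 5 7 6 1 2 0)),
    (2, 18, .mx 6 1 false (.pp 4 5 7 3 0 2 6 0)),
    (2, 22, .mx 6 1 true (.cf 1 6)),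
    (2, 32, .mx 6 1 false (.mx 6 1 true (.pp 0 2 3 1 6 8 7 0))),
    (2, 33, .mx 6 1 false (.mx 6 1 true (.pp 5 4 7 8 6 1 2 0))),
    (2, 34, .mx 6 1 true (.cf 1 6)),
    (2, 36, .mx 6 1 false (.mx 7 0 true (.pp 7 5 8 2 0 3 6 0))),
    (2, 38, .mx 6 1 true (.cf 1 6)),
    (2, 40, .mx 6 1 false (.mx 6 1 true (.pp 3 4 7 8 6 1 2 0))),
    (2, 42, .mx 6 1 true (.cf 1 6)),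
    (2, 46, .mx 6 1 true (.cf 1 6)),
    (4, 4, .mx 6 1 true (.cf 2 6)),
    (4, 6, .mx 6 1 true (.cf 2 6)),
    (4, 8, .mx 6 1 false (.mx 6 1 true (.pp 3 4 7 8 6 2 1 0))),
    (4, 10, .mx 6 1 false (.mx 7 0 true (.pp 7 1 8 3 4 5 6 0))),
    (4, 12, .mx 6 1 true (.cf 2 6)),
    (4, 14, .mx 6 1 true (.cf 2 6)),
    (4, 16, .mx 6 1 false (.pp 4 5 7 3 0 1 6 0)),
    (4, 17, .mx 6 1 true (.pp 4 3 5 7 6 2 1 0)),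
    (4, 20, .mx 6 1 false (.pp 4 5 7 3 0 1 6 0)),
    (4, 22, .mx 6 1 true (.cf 2 6)),
    (4, 32, .mx 6 1 false (.mx 6 1 true (.pp 0 1 3 2 6 8 7 0))),
    (4, 33, .mx 6 1 false (.mx 6 1 true (.pp 5 4 7 8 6 2 1 0))),
    (4, 34, .mx 6 1 false (.mx 7 0 true (.pp 7 5 8 1 0 3 6 0))),
    (4, 36, .mx 6 1 true (.cf 2 6)),
    (4, 38, .mx 6 1 true (.cf 2 6)),
    (4, 40, .mx 6 1 false (.mx 6 1 true (.pp 3 4 7 8 6 2 1 0))),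
    (4, 44, .mx 6 1 true (.cf 2 6)),
    (4, 46, .mx 6 1 true (.cf 2 6)),
    (6, 6, .mx 6 1 true (.cf 1 6)),
    (6, 8, .mx 6 1 false (.mx 6 1 true (.pp 6 1 2 8 3 7 5 0))),
    (6, 10, .mx 6 1 true (.cf 1 6)),
    (6, 12, .mx 6 1 true (.cf 2 6)),
    (6, 14, .mx 6 1 true (.cf 1 6)),
    (6, 18, .mx 6 1 true (.cf 1 6)),
    (6, 20, .mx 6 1 true (.cf 2 6)),
    (6, 22, .mx 6 1 true (.cf 1 6)),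
    (6, 32, .mx 6 1 false (.mx 6 1 true (.pp 6 1 2 8 5 7 3 0))),
    (6, 33, .mx 6 1 false (.mx 6 1 true (.pp 6 1 2 8 5 7 3 0))),
    (6, 34, .mx 6 1 true (.cf 1 6)),
    (6, 36, .mx 6 1 true (.cf 2 6)),
    (6, 38, .mx 6 1 true (.cf 1 6)),
    (6, 42, .mx 6 1 true (.cf 1 6)),
    (6, 44, .mx 6 1 true (.cf 2 6)),
    (6, 46, .mx 6 1 true (.cf 1 6)),
    (8, 8, .mx 6 1 true (.cf 3 6)),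
    (8, 10, .mx 6 1 true (.cf 3 6)),
    (8, 12, .mx 6 1 true (.cf 3 6)),
    (8, 14, .mx 6 1 true (.cf 3 6)),
    (8, 16, .mx 6 1 true (.pp 0 1 2 3 6 7 5 0)),
    (8, 17, .mx 6 1 false (.pp 0 1 2 7 4 5 6 0)),
    (8, 18, .mx 6 1 false (.mx 7 0 true (.pp 7 4 8 1 0 2 6 0))),
    (8, 20, .mx 6 1 false (.mx 7 0 true (.pp 7 4 8 2 0 1 6 0))),
    (8, 22, .mx 6 1 false (.mx 7 0 true (.pp 7 1 2 8 3 6 5 0))),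
    (8, 32, .mx 6 1 false (.mx 6 1 true (.pp 0 1 2 3 6 8 7 0))),
    (8, 33, .mx 6 1 false (.pp 0 1 2 7 5 4 6 0)),
    (8, 34, .mx 6 1 false (.mx 7 0 true (.pp 3 4 6 8 7 1 2 0))),
    (8, 36, .mx 6 1 false (.mx 7 0 true (.pp 3 4 6 8 7 2 1 0))),
    (8, 40, .mx 6 1 true (.cf 3 6)),
    (8, 42, .mx 6 1 true (.cf 3 6)),
    (8, 44, .mx 6 1 true (.cf 3 6)),
    (8, 46, .mx 6 1 true (.cf 3 6)),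
    (10, 10, .mx 6 1 true (.cf 1 6)),
    (10, 12, .mx 6 1 true (.cf 3 6)),
    (10, 14, .mx 6 1 true (.cf 1 6)),
    (10, 16, .mx 6 1 false (.pp 4 5 7 3 6 1 2 0)),
    (10, 17, .mx 6 1 false (.pp 4 5 7 3 6 1 2 0)),
    (10, 18, .mx 6 1 true (.cf 1 6)),
    (10, 20, .mx 6 1 false (.mx 6 1 true (.pp 6 1 3 8 2 7 5 0))),
    (10, 22, .mx 6 1 true (.cf 1 6)),
    (10, 32, .mx 6 1 false (.mx 6 1 true (.pp 5 4 7 8 6 1 2 0))),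
    (10, 33, .mx 6 1 false (.mx 6 1 true (.pp 5 4 7 8 6 1 2 0))),
    (10, 34, .mx 6 1 true (.cf 1 6)),
    (10, 38, .mx 6 1 true (.cf 1 6)),
    (10, 40, .mx 6 1 true (.cf 3 6)),
    (10, 42, .mx 6 1 true (.cf 1 6)),
    (10, 44, .mx 6 1 true (.cf 3 6)),
    (10, 46, .mx 6 1 true (.cf 1 6)),
    (12, 12, .mx 6 1 true (.cf 2 6)),
    (12, 14, .mx 6 1 true (.cf 2 6)),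
    (12, 16, .mx 6 1 false (.pp 4 5 7 3 6 2 1 0)),
    (12, 17, .mx 6 1 false (.pp 4 5 7 3 6 2 1 0)),
    (12, 18, .mx 6 1 false (.mx 6 1 true (.pp 6 2 3 8 1 7 5 0))),
    (12, 20, .mx 6 1 true (.cf 2 6)),
    (12, 22, .mx 6 1 true (.cf 2 6)),
    (12, 32, .mx 6 1 false (.mx 6 1 true (.pp 5 4 7 8 6 2 1 0))),
    (12, 33, .mx 6 1 false (.mx 6 1 true (.pp 5 4 7 8 6 2 1 0))),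
    (12, 36, .mx 6 1 true (.cf 2 6)),
    (12, 38, .mx 6 1 true (.cf 2 6)),
    (12, 40, .mx 6 1 true (.cf 3 6)),
    (12, 42, .mx 6 1 true (.cf 3 6)),
    (12, 44, .mx 6 1 true (.cf 2 6)),
    (12, 46, .mx 6 1 true (.cf 2 6)),
    (14, 14, .mx 6 1 true (.cf 1 6)),
    (14, 18, .mx 6 1 true (.cf 1 6)),
    (14, 20, .mx 6 1 true (.cf 2 6)),
    (14, 22, .mx 6 1 true (.cf 1 6)),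
    (14, 34, .mx 6 1 true (.cf 1 6)),
    (14, 36, .mx 6 1 true (.cf 2 6)),
    (14, 38, .mx 6 1 true (.cf 1 6)),
    (14, 40, .mx 6 1 true (.cf 3 6)),
    (14, 42, .mx 6 1 true (.cf 1 6)),
    (14, 44, .mx 6 1 true (.cf 2 6)),
    (14, 46, .mx 6 1 true (.cf 1 6)),
    (16, 16, .mx 6 1 true (.cf 4 6)),
    (16, 17, .mx 6 1 true (.cf 4 6)),
    (16, 18, .mx 6 1 true (.cf 4 6)),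
    (16, 20, .mx 6 1 true (.cf 4 6)),
    (16, 22, .mx 6 1 true (.cf 4 6)),
    (16, 32, .mx 6 1 false (.pp 0 1 2 3 4 6 7 0)),
    (16, 34, .mx 6 1 false (.pp 0 2 3 1 7 5 6 0)),
    (16, 36, .mx 6 1 false (.pp 0 1 3 2 7 5 6 0)),
    (16, 38, .mx 6 1 false (.mx 7 0 true (.pp 7 5 8 1 0 3 6 0))),
    (16, 40, .mx 6 1 false (.pp 0 1 2 3 7 5 6 0)),
    (16, 42, .mx 6 1 false (.mx 7 0 true (.pp 7 5 8 1 0 2 6 0))),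
    (16, 44, .mx 6 1 false (.mx 7 0 true (.pp 7 5 8 2 0 1 6 0))),
    (17, 17, .mx 6 1 true (.cf 0 6)),
    (17, 18, .mx 6 1 true (.cf 4 6)),
    (17, 20, .mx 6 1 true (.cf 4 6)),
    (17, 22, .mx 6 1 true (.cf 4 6)),
    (17, 33, .mx 6 1 true (.cf 0 6)),
    (17, 34, .mx 6 1 false (.pp 4 3 6 5 7 1 2 0)),
    (17, 36, .mx 6 1 false (.pp 4 3 6 5 7 2 1 0)),
    (18, 18, .mx 6 1 true (.cf 1 6)),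
    (18, 20, .mx 6 1 true (.cf 4 6)),
    (18, 22, .mx 6 1 true (.cf 1 6)),
    (18, 32, .mx 6 1 false (.mx 6 1 true (.pp 0 2 3 1 6 8 7 0))),
    (18, 34, .mx 6 1 true (.cf 1 6)),
    (18, 36, .mx 6 1 false (.mx 7 0 true (.pp 7 5 8 2 0 3 6 0))),
    (18, 38, .mx 6 1 true (.cf 1 6)),
    (18, 40, .mx 6 1 false (.mx 6 1 true (.pp 6 4 8 1 0 2 7 0))),
    (18, 42, .mx 6 1 true (.cf 1 6)),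
    (18, 46, .mx 6 1 true (.cf 1 6)),
    (20, 20, .mx 6 1 true (.cf 2 6)),
    (20, 22, .mx 6 1 true (.cf 2 6)),
    (20, 32, .mx 6 1 false (.mx 6 1 true (.pp 0 1 3 2 6 8 7 0))),
    (20, 34, .mx 6 1 false (.mx 7 0 true (.pp 7 5 8 1 0 3 6 0))),
    (20, 36, .mx 6 1 true (.cf 2 6)),
    (20, 38, .mx 6 1 true (.cf 2 6)),
    (20, 40, .mx 6 1 false (.mx 6 1 true (.pp 6 4 8 2 0 1 7 0))),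
    (20, 44, .mx 6 1 true (.cf 2 6)),
    (20, 46, .mx 6 1 true (.cf 2 6)),
    (22, 22, .mx 6 1 true (.cf 1 6)),
    (22, 32, .mx 6 1 false (.mx 6 1 true (.pp 6 1 2 8 5 7 3 0))),
    (22, 33, .mx 6 1 false (.mx 6 1 true (.pp 6 1 2 8 5 7 3 0))),
    (22, 34, .mx 6 1 true (.cf 1 6)),
    (22, 36, .mx 6 1 true (.cf 2 6)),
    (22, 38, .mx 6 1 true (.cf 1 6)),
    (22, 42, .mx 6 1 true (.cf 1 6)),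
    (22, 44, .mx 6 1 true (.cf 2 6)),
    (22, 46, .mx 6 1 true (.cf 1 6)),
    (32, 32, .mx 6 1 true (.cf 5 6)),
    (32, 33, .mx 6 1 true (.cf 5 6)),
    (32, 34, .mx 6 1 true (.cf 5 6)),
    (32, 36, .mx 6 1 true (.cf 5 6)),
    (32, 38, .mx 6 1 true (.cf 5 6)),
    (32, 40, .mx 6 1 true (.cf 5 6)),
    (32, 42, .mx 6 1 true (.cf 5 6)),
    (32, 44, .mx 6 1 true (.cf 5 6)),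
    (32, 46, .mx 6 1 true (.cf 5 6)),
    (33, 33, .mx 6 1 true (.cf 0 6)),
    (33, 34, .mx 6 1 true (.cf 5 6)),
    (33, 36, .mx 6 1 true (.cf 5 6)),
    (33, 38, .mx 6 1 true (.cf 5 6)),
    (33, 40, .mx 6 1 true (.cf 5 6)),
    (33, 42, .mx 6 1 true (.cf 5 6)),
    (33, 44, .mx 6 1 true (.cf 5 6)),
    (33, 46, .mx 6 1 true (.cf 5 6)),
    (34, 34, .mx 6 1 true (.cf 1 6)),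
    (34, 36, .mx 6 1 true (.cf 5 6)),
    (34, 38, .mx 6 1 true (.cf 1 6)),
    (34, 40, .mx 6 1 true (.cf 5 6)),
    (34, 42, .mx 6 1 true (.cf 1 6)),
    (34, 44, .mx 6 1 true (.cf 5 6)),
    (34, 46, .mx 6 1 true (.cf 1 6)),
    (36, 36, .mx 6 1 true (.cf 2 6)),
    (36, 38, .mx 6 1 true (.cf 2 6)),
    (36, 40, .mx 6 1 true (.cf 5 6)),
    (36, 42, .mx 6 1 true (.cf 5 6)),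
    (36, 44, .mx 6 1 true (.cf 2 6)),
    (36, 46, .mx 6 1 true (.cf 2 6)),
    (38, 38, .mx 6 1 true (.cf 1 6)),
    (38, 40, .mx 6 1 true (.cf 5 6)),
    (38, 42, .mx 6 1 true (.cf 1 6)),
    (38, 44, .mx 6 1 true (.cf 2 6)),
    (38, 46, .mx 6 1 true (.cf 1 6)),
    (40, 40, .mx 6 1 true (.cf 3 6)),
    (40, 42, .mx 6 1 true (.cf 3 6)),
    (40, 44, .mx 6 1 true (.cf 3 6)),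
    (40, 46, .mx 6 1 true (.cf 3 6)),
    (42, 42, .mx 6 1 true (.cf 1 6)),
    (42, 44, .mx 6 1 true (.cf 3 6)),
    (42, 46, .mx 6 1 true (.cf 1 6)),
    (44, 44, .mx 6 1 true (.cf 2 6)),
    (44, 46, .mx 6 1 true (.cf 2 6)),
    (46, 46, .mx 6 1 true (.cf 1 6))]

def dblTabP : List (ℕ × ℕ × ℕ × Tree) :=
  [(1, 6, 8, .mx 6 1 false (.mx 6 1 true (.mx 6 2 true (.pp 8 1 2 6 9 3 5 0)))),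
    (1, 6, 16, .mx 6 1 false (.mx 6 2 false (.sp 7 8 (.pp 0 3 6 1 7 8 5 0) (.pp 4 5 8 3 0 6 7 0)))),
    (1, 6, 18, .mx 6 1 false (.mx 6 2 false (.pp 4 5 8 3 0 6 7 0))),
    (1, 6, 20, .mx 6 1 false (.mx 6 2 false (.pp 4 5 8 3 0 6 7 0))),
    (1, 6, 22, .mx 6 1 false (.mx 6 2 false (.pp 4 5 8 3 0 6 7 0))),
    (1, 6, 32, .mx 6 1 false (.mx 6 1 true (.mx 6 2 true (.pp 8 1 2 6 9 5 3 0)))),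
    (1, 6, 40, .mx 6 1 false (.mx 6 1 true (.mx 6 2 false (.sp 7 9 (.pp 7 1 2 9 3 4 6 0) (.sp 8 9 (.mx 8 0 false (.sp 7 10 (.sp 9 10 (.pp 7 1 2 10 9 3 6 0) (.pp 8 6 9 1 7 10 4 0)) (.pp 0 6 10 3 4 5 7 8))) (.pp 3 4 9 0 6 8 7 0)))))),
    (1, 6, 42, .mx 6 1 false (.mx 6 2 false (.pp 8 3 5 1 7 2 6 0))),
    (1, 6, 44, .mx 6 1 false (.mx 6 2 false (.pp 8 3 5 2 7 1 6 0))),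
    (1, 6, 46, .mx 6 1 false (.mx 6 1 true (.mx 6 2 false (.pp 3 4 9 0 6 8 7 0)))),
    (1, 8, 16, .mx 6 1 false (.mx 6 2 true (.sp 7 8 (.pp 0 1 2 3 7 8 5 0) (.pp 0 1 2 6 8 4 7 0)))),
    (1, 8, 18, .mx 6 1 false (.mx 6 2 false (.sp 7 8 (.pp 0 2 6 1 8 7 5 0) (.pp 0 2 6 1 8 4 7 0)))),
    (1, 8, 20, .mx 6 1 false (.mx 6 2 false (.sp 7 8 (.pp 0 1 6 2 8 7 5 0) (.pp 0 1 6 2 8 4 7 0)))),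
    (1, 8, 22, .mx 6 1 false (.mx 6 1 true (.mx 6 2 true (.pp 9 1 2 6 8 3 5 0)))),
    (1, 8, 32, .mx 6 1 false (.mx 6 2 true (.sp 7 8 (.pp 0 1 2 6 8 7 4 0) (.pp 0 1 2 6 8 5 7 0)))),
    (1, 8, 40, .mx 6 1 false (.mx 6 2 true (.pp 0 1 2 6 8 5 7 0))),
    (1, 8, 42, .mx 6 1 false (.mx 6 2 false (.pp 0 2 6 1 8 5 7 0))),
    (1, 8, 44, .mx 6 1 false (.mx 6 2 false (.pp 0 1 6 2 8 5 7 0))),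
    (1, 8, 46, .mx 6 1 false (.mx 6 1 true (.mx 6 2 true (.pp 6 0 8 9 5 4 7 0)))),
    (1, 16, 18, .mx 6 1 false (.mx 6 1 true (.mx 6 2 false (.mx 6 2 true (.mx 7 0 true (.sp 10 11 (.sp 8 11 (.sp 9 11 (.mx 11 2 false (.pp 11 7 8 0 1 12 5 6)) (.pp 8 6 11 4 9 1 2 7)) (.sp 9 11 (.pp 9 1 11 4 8 6 2 0) (.mx 9 0 true (.sp 7 12 (.sp 8 12 (.sp 10 12 (.mx 12 2 false (.pp 12 7 8 0 1 13 5 6)) (.pp 10 6 11 1 9 12 2 7)) (.pp 7 11 12 4 8 6 1 9)) (.pp 9 1 12 4 7 11 2 0))))) (.pp 10 1 6 4 7 11 2 0))))))),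
    (1, 16, 20, .mx 6 1 false (.mx 6 1 true (.mx 6 2 false (.mx 6 2 true (.mx 7 0 true (.sp 10 11 (.sp 8 11 (.sp 9 11 (.mx 11 2 false (.pp 11 7 8 0 2 12 5 6)) (.pp 8 6 11 4 9 2 1 7)) (.sp 9 11 (.pp 9 2 11 4 8 6 1 0) (.mx 9 0 true (.sp 7 12 (.sp 8 12 (.sp 10 12 (.mx 12 2 false (.pp 12 7 8 0 2 13 5 6)) (.pp 10 6 11 2 9 12 1 7)) (.pp 7 11 12 4 8 6 1 9)) (.pp 9 2 12 4 7 11 1 0))))) (.pp 10 2 6 4 7 11 1 0))))))),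
    (1, 16, 22, .mx 6 1 false (.mx 6 1 true (.mx 6 2 false (.mx 7 0 true (.sp 9 10 (.sp 8 10 (.pp 9 1 2 10 8 6 3 0) (.pp 10 7 9 0 6 8 5 1)) (.pp 9 1 2 4 7 10 6 0)))))),
    (1, 16, 32, .mx 6 1 false (.mx 6 1 true (.mx 6 2 true (.pp 0 1 2 3 4 8 9 0)))),
    (1, 16, 40, .mx 6 1 false (.mx 6 1 true (.mx 6 2 true (.pp 0 1 2 3 9 5 8 0)))),
    (1, 16, 42, .mx 6 1 false (.mx 6 1 true (.mx 6 2 true (.sp 7 9 (.pp 9 5 7 1 0 2 8 0) (.pp 4 7 8 3 9 1 2 6))))),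
    (1, 16, 44, .mx 6 1 false (.mx 6 1 true (.mx 6 2 true (.sp 7 9 (.pp 9 5 7 2 0 1 8 0) (.pp 4 7 8 3 9 2 1 6))))),
    (1, 18, 20, .mx 6 1 false (.mx 6 1 true (.mx 6 2 false (.pp 1 7 8 0 2 9 5 6)))),
    (1, 18, 22, .mx 6 1 false (.mx 6 1 true (.mx 6 2 false (.mx 6 2 true (.mx 7 0 true (.sp 10 11 (.sp 8 11 (.sp 9 11 (.mx 11 2 false (.pp 11 7 8 0 2 12 5 6)) (.pp 8 6 11 1 9 2 3 7)) (.sp 9 11 (.pp 9 2 11 1 8 6 3 0) (.mx 9 0 true (.sp 7 12 (.sp 8 12 (.sp 10 12 (.mx 12 2 false (.pp 12 7 8 0 2 13 5 6)) (.pp 10 2 6 1 7 12 3 0)) (.pp 7 11 12 1 8 6 2 9)) (.pp 9 2 12 1 7 11 3 0))))) (.pp 10 2 6 1 7 11 3 0))))))),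
    (1, 18, 32, .mx 6 1 false (.mx 6 1 true (.mx 6 2 false (.sp 7 9 (.sp 8 9 (.mx 6 2 true (.pp 0 2 3 1 8 9 10 0)) (.pp 8 1 6 4 5 9 2 0)) (.pp 0 2 6 1 7 4 9 0))))),
    (1, 18, 40, .mx 6 1 false (.mx 6 1 true (.mx 6 2 true (.pp 9 3 5 6 8 1 2 0)))),
    (1, 18, 42, .mx 6 1 false (.mx 6 2 false (.pp 0 2 6 3 8 5 7 0))),
    (1, 18, 46, .mx 6 1 false (.mx 6 1 true (.mx 6 2 false (.mx 6 2 true (.pp 6 0 10 8 4 7 9 0))))),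
    (1, 20, 22, .mx 6 1 false (.mx 6 1 true (.mx 6 2 false (.mx 6 2 true (.mx 7 0 true (.sp 10 11 (.sp 8 11 (.sp 9 11 (.mx 11 2 false (.pp 11 7 8 0 1 12 5 6)) (.pp 8 6 11 2 9 1 3 7)) (.sp 9 11 (.pp 9 1 11 2 8 6 3 0) (.mx 9 0 true (.sp 7 12 (.sp 8 12 (.sp 10 12 (.mx 12 2 false (.pp 12 7 8 0 1 13 5 6)) (.pp 10 6 11 1 9 12 3 7)) (.pp 7 11 12 2 8 6 1 9)) (.pp 9 1 12 2 7 11 3 0))))) (.pp 10 1 6 2 7 11 3 0))))))),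
    (1, 20, 32, .mx 6 1 false (.mx 6 1 true (.mx 6 2 false (.sp 7 9 (.sp 8 9 (.mx 6 2 true (.pp 0 1 3 2 8 9 10 0)) (.pp 8 2 6 4 5 9 1 0)) (.pp 0 1 6 2 7 4 9 0))))),
    (1, 20, 40, .mx 6 1 false (.mx 6 1 true (.mx 6 2 true (.pp 9 3 5 6 8 2 1 0)))),
    (1, 20, 44, .mx 6 1 false (.mx 6 2 false (.pp 0 1 6 3 8 5 7 0))),
    (1, 20, 46, .mx 6 1 false (.mx 6 1 true (.mx 6 2 false (.mx 6 2 true (.pp 6 0 10 8 4 7 9 0))))),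
    (1, 22, 32, .mx 6 1 false (.mx 6 1 true (.mx 6 2 true (.pp 8 1 2 6 9 5 3 0)))),
    (1, 22, 42, .mx 6 1 false (.mx 6 2 false (.pp 8 3 5 1 7 2 6 0))),
    (1, 22, 44, .mx 6 1 false (.mx 6 2 false (.pp 8 3 5 2 7 1 6 0))),
    (1, 22, 46, .mx 6 1 false (.mx 6 1 true (.mx 6 2 false (.mx 6 2 true (.pp 6 0 10 8 4 7 9 0))))),
    (1, 32, 40, .mx 6 1 false (.mx 6 1 true (.mx 6 2 false (.pp 3 4 9 0 6 8 7 0)))),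
    (1, 32, 42, .mx 6 1 false (.mx 6 1 true (.mx 6 2 false (.pp 3 4 9 0 6 8 7 0)))),
    (1, 32, 44, .mx 6 1 false (.mx 6 1 true (.mx 6 2 false (.pp 3 4 9 0 6 8 7 0)))),
    (1, 32, 46, .mx 6 1 false (.mx 6 1 true (.mx 6 2 false (.pp 3 4 9 0 6 8 7 0)))),
    (1, 40, 42, .mx 6 1 false (.mx 6 1 true (.mx 6 2 false (.mx 6 2 true (.mx 7 0 true (.sp 10 11 (.sp 8 11 (.sp 9 11 (.mx 11 2 false (.pp 11 7 8 0 1 12 4 6)) (.pp 8 6 11 3 9 1 2 7)) (.sp 9 11 (.pp 9 1 11 3 8 6 2 0) (.mx 9 0 true (.sp 7 12 (.sp 8 12 (.sp 10 12 (.mx 12 2 false (.pp 12 7 8 0 1 13 4 6)) (.pp 10 6 11 1 9 12 2 7)) (.pp 7 11 12 3 8 6 1 9)) (.pp 9 1 12 3 7 11 2 0))))) (.pp 10 1 6 3 7 11 2 0))))))),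
    (1, 40, 44, .mx 6 1 false (.mx 6 1 true (.mx 6 2 false (.mx 6 2 true (.mx 7 0 true (.sp 10 11 (.sp 8 11 (.sp 9 11 (.mx 11 2 false (.pp 11 7 8 0 2 12 4 6)) (.pp 8 6 11 3 9 2 1 7)) (.sp 9 11 (.pp 9 2 11 3 8 6 1 0) (.mx 9 0 true (.sp 7 12 (.sp 8 12 (.sp 10 12 (.mx 12 2 false (.pp 12 7 8 0 2 13 4 6)) (.pp 10 6 11 2 9 12 1 7)) (.pp 7 11 12 3 8 6 1 9)) (.pp 9 2 12 3 7 11 1 0))))) (.pp 10 2 6 3 7 11 1 0))))))),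
    (1, 40, 46, .mx 6 1 false (.mx 6 1 true (.mx 6 2 false (.mx 7 0 true (.sp 9 10 (.sp 8 10 (.pp 9 1 2 10 8 6 4 0) (.pp 10 7 9 0 6 8 4 1)) (.pp 9 1 2 3 7 10 6 0)))))),
    (1, 42, 44, .mx 6 1 false (.mx 6 1 true (.mx 6 2 false (.pp 1 7 8 0 2 9 4 6)))),
    (1, 42, 46, .mx 6 1 false (.mx 6 1 true (.mx 6 2 false (.mx 6 2 true (.mx 7 0 true (.sp 10 11 (.sp 8 11 (.sp 9 11 (.mx 11 2 false (.pp 11 7 8 0 2 12 4 6)) (.pp 8 6 11 1 9 2 4 7)) (.sp 9 11 (.pp 9 2 11 1 8 6 4 0) (.mx 9 0 true (.sp 7 12 (.sp 8 12 (.sp 10 12 (.mx 12 2 false (.pp 12 7 8 0 2 13 4 6)) (.pp 10 2 6 1 7 12 4 0)) (.pp 7 11 12 1 8 6 2 9)) (.pp 9 2 12 1 7 11 4 0))))) (.pp 10 2 6 1 7 11 4 0))))))),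
    (1, 44, 46, .mx 6 1 false (.mx 6 1 true (.mx 6 2 false (.mx 6 2 true (.mx 7 0 true (.sp 10 11 (.sp 8 11 (.sp 9 11 (.mx 11 2 false (.pp 11 7 8 0 1 12 4 6)) (.pp 8 6 11 2 9 1 4 7)) (.sp 9 11 (.pp 9 1 11 2 8 6 4 0) (.mx 9 0 true (.sp 7 12 (.sp 8 12 (.sp 10 12 (.mx 12 2 false (.pp 12 7 8 0 1 13 4 6)) (.pp 10 6 11 1 9 12 4 7)) (.pp 7 11 12 2 8 6 1 9)) (.pp 9 1 12 2 7 11 4 0))))) (.pp 10 1 6 2 7 11 4 0))))))),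
    (2, 4, 20, .mx 6 1 false (.mx 6 2 false (.pp 2 7 8 0 1 6 5 4))),
    (2, 4, 44, .mx 6 1 false (.mx 6 2 false (.pp 2 7 8 0 1 6 4 3))),
    (2, 20, 44, .mx 6 1 false (.mx 6 1 true (.mx 6 2 false (.mx 6 2 true (.pp 3 0 9 10 6 8 7 0))))),
    (4, 2, 18, .mx 6 1 false (.mx 6 2 false (.pp 1 7 8 0 2 6 5 4))),
    (4, 2, 42, .mx 6 1 false (.mx 6 2 false (.pp 1 7 8 0 2 6 4 3))),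
    (4, 18, 42, .mx 6 1 false (.mx 6 1 true (.mx 6 2 false (.mx 6 2 true (.pp 3 0 9 10 6 8 7 0))))),
    (6, 1, 16, .mx 6 1 false (.mx 6 1 true (.mx 6 2 false (.sp 7 9 (.sp 8 9 (.pp 6 1 2 8 9 7 3 0) (.mx 6 2 true (.sp 7 10 (.pp 6 1 2 10 7 9 3 0) (.pp 0 3 7 1 6 10 5 0)))) (.pp 4 5 9 3 0 7 6 0))))),
    (6, 1, 17, .mx 6 1 false (.mx 6 2 true (.pp 4 3 5 8 6 1 7 0))),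
    (6, 1, 40, .mx 6 1 false (.mx 6 1 true (.mx 6 2 true (.sp 7 9 (.mx 8 0 false (.sp 7 10 (.pp 9 3 5 7 10 1 8 0) (.pp 0 7 8 3 4 5 10 6))) (.pp 6 1 2 9 3 4 7 0))))),
    (6, 16, 17, .mx 6 1 false (.mx 6 1 true (.mx 6 2 false (.pp 0 3 9 1 6 8 5 0)))),
    (6, 16, 40, .mx 6 1 false (.mx 6 1 true (.mx 6 2 true (.pp 0 1 2 3 9 5 8 0)))),
    (8, 1, 38, .mx 6 1 false (.mx 6 1 true (.mx 6 2 true (.pp 9 1 2 5 4 3 8 0)))),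
    (14, 16, 17, .mx 6 1 false (.mx 6 1 true (.mx 6 2 false (.mx 6 2 true (.mx 7 0 true (.sp 8 11 (.sp 9 11 (.sp 10 11 (.mx 11 2 false (.pp 11 7 8 1 0 12 5 6)) (.pp 11 7 8 1 0 10 5 6)) (.pp 11 7 8 1 0 9 5 6)) (.sp 9 11 (.pp 11 7 9 1 6 8 5 0) (.sp 10 11 (.mx 9 0 true (.sp 7 12 (.sp 8 12 (.sp 10 12 (.mx 12 2 false (.pp 12 7 8 1 0 13 5 6)) (.pp 10 6 11 0 9 12 5 7)) (.pp 7 11 12 4 8 6 0 9)) (.pp 9 0 12 4 7 11 6 0))) (.pp 0 9 10 1 11 7 5 6))))))))),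
    (14, 16, 32, .mx 6 1 false (.mx 6 1 true (.mx 6 2 true (.pp 0 1 2 3 4 8 9 0)))),
    (14, 17, 33, .mx 6 1 false (.mx 6 2 false (.pp 6 1 2 3 4 7 8 0))),
    (14, 32, 33, .mx 6 1 false (.mx 6 1 true (.mx 6 2 false (.mx 6 2 true (.mx 7 0 true (.sp 8 11 (.sp 9 11 (.sp 10 11 (.mx 11 2 false (.pp 11 7 8 1 0 12 4 6)) (.pp 11 7 8 1 0 10 4 6)) (.pp 11 7 8 1 0 9 4 6)) (.sp 9 11 (.pp 11 7 9 1 6 8 4 0) (.sp 10 11 (.mx 9 0 true (.sp 7 12 (.sp 8 12 (.sp 10 12 (.mx 12 2 false (.pp 12 7 8 1 0 13 4 6)) (.pp 10 6 11 0 9 12 4 7)) (.pp 7 11 12 5 8 6 0 9)) (.pp 9 0 12 5 7 11 6 0))) (.pp 0 9 10 1 11 7 4 6))))))))),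
    (16, 1, 6, .mx 6 1 false (.mx 6 1 true (.mx 6 2 true (.sp 7 9 (.mx 7 0 true (.sp 8 10 (.pp 9 1 2 6 8 10 3 0) (.pp 4 5 10 3 0 8 9 0))) (.pp 0 3 7 1 9 6 5 0))))),
    (16, 1, 14, .mx 6 1 false (.mx 6 1 true (.mx 6 2 true (.pp 9 1 2 3 4 5 8 0)))),
    (16, 1, 33, .mx 6 1 false (.mx 6 1 true (.mx 6 2 false (.mx 6 2 true (.mx 7 0 true (.sp 8 11 (.sp 9 11 (.sp 10 11 (.mx 11 2 false (.pp 11 7 8 4 5 12 1 6)) (.pp 11 7 8 4 5 10 1 6)) (.pp 11 7 8 4 5 9 1 6)) (.sp 9 11 (.pp 11 7 9 4 6 8 1 5) (.sp 10 11 (.mx 9 0 true (.sp 7 12 (.sp 8 12 (.sp 10 12 (.mx 12 2 false (.pp 12 7 8 4 5 13 1 6)) (.pp 10 6 11 5 9 12 1 7)) (.pp 7 11 12 0 8 6 5 9)) (.pp 9 5 12 0 7 11 6 0))) (.pp 5 9 10 4 11 7 1 6))))))))),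
    (16, 6, 14, .mx 6 1 false (.mx 6 1 true (.mx 6 2 false (.pp 3 0 9 4 6 8 7 0)))),
    (16, 6, 33, .mx 6 1 false (.mx 6 1 true (.mx 6 2 true (.pp 8 1 2 6 9 5 3 0)))),
    (16, 6, 46, .mx 6 1 false (.mx 6 1 true (.mx 6 2 false (.pp 3 0 9 4 6 8 7 0)))),
    (16, 14, 46, .mx 6 1 false (.mx 6 1 true (.mx 6 2 false (.mx 6 2 true (.mx 7 0 true (.sp 8 11 (.sp 9 11 (.sp 10 11 (.mx 11 2 false (.pp 11 7 8 4 5 12 0 6)) (.pp 11 7 8 4 5 10 0 6)) (.pp 11 7 8 4 5 9 0 6)) (.sp 9 11 (.pp 11 7 9 4 6 8 0 5) (.sp 10 11 (.mx 9 0 true (.sp 7 12 (.sp 8 12 (.sp 10 12 (.mx 12 2 false (.pp 12 7 8 4 5 13 0 6)) (.pp 10 6 11 5 9 12 0 7)) (.pp 7 11 12 1 8 6 5 9)) (.pp 9 5 12 1 7 11 6 0))) (.pp 5 9 10 4 11 7 0 6))))))))),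
    (16, 33, 46, .mx 6 1 false (.mx 6 2 false (.pp 8 1 2 3 4 6 7 0))),
    (17, 6, 14, .mx 6 1 false (.mx 6 1 true (.mx 6 2 false (.mx 6 2 true (.mx 7 0 true (.sp 10 11 (.sp 8 11 (.sp 9 11 (.mx 11 2 false (.pp 11 7 8 0 3 12 5 6)) (.pp 8 6 11 1 9 3 5 7)) (.sp 9 11 (.pp 9 3 11 1 8 6 5 0) (.mx 9 0 true (.sp 7 12 (.sp 8 12 (.sp 10 12 (.mx 12 2 false (.pp 12 7 8 0 3 13 5 6)) (.pp 10 3 6 1 7 12 5 0)) (.pp 7 11 12 1 8 6 3 9)) (.pp 9 3 12 1 7 11 5 0))))) (.pp 10 3 6 1 7 11 5 0))))))),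
    (17, 6, 32, .mx 6 1 false (.mx 6 1 true (.mx 6 2 true (.pp 8 1 2 6 9 5 3 0)))),
    (17, 6, 38, .mx 6 1 false (.mx 6 1 true (.mx 6 2 false (.pp 6 0 8 4 5 9 7 0)))),
    (17, 6, 42, .mx 6 1 false (.mx 6 2 false (.pp 8 3 5 1 7 2 6 0))),
    (17, 6, 44, .mx 6 1 false (.mx 6 2 false (.pp 8 3 5 2 7 1 6 0))),
    (17, 6, 46, .mx 6 1 false (.mx 6 1 true (.mx 6 2 false (.pp 6 0 8 4 5 9 7 0)))),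
    (17, 14, 38, .mx 6 1 false (.mx 6 1 true (.mx 6 2 false (.pp 6 0 8 4 5 9 7 0)))),
    (17, 14, 40, .mx 6 1 false (.mx 6 2 false (.pp 7 1 2 3 8 5 6 0))),
    (17, 14, 42, .mx 6 1 false (.mx 6 1 true (.mx 6 2 false (.pp 6 0 8 4 5 9 7 0)))),
    (17, 14, 44, .mx 6 1 false (.mx 6 1 true (.mx 6 2 false (.pp 6 0 8 4 5 9 7 0)))),
    (17, 14, 46, .mx 6 1 false (.mx 6 1 true (.mx 6 2 false (.pp 6 0 8 4 5 9 7 0)))),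
    (17, 32, 38, .mx 6 1 false (.mx 6 2 true (.pp 8 1 2 6 4 3 7 0))),
    (17, 32, 40, .mx 6 1 false (.mx 6 1 true (.mx 6 2 false (.mx 6 2 true (.mx 7 0 true (.sp 10 11 (.sp 8 11 (.sp 9 11 (.mx 11 2 false (.pp 11 7 8 4 3 12 1 6)) (.pp 8 6 11 5 9 3 1 7)) (.sp 9 11 (.pp 9 3 11 5 8 6 1 0) (.mx 9 0 true (.sp 7 12 (.sp 8 12 (.sp 10 12 (.mx 12 2 false (.pp 12 7 8 4 3 13 1 6)) (.pp 10 6 11 3 9 12 1 7)) (.pp 7 11 12 5 8 6 1 9)) (.pp 9 3 12 5 7 11 1 0))))) (.pp 10 3 6 5 7 11 1 0))))))),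
    (17, 32, 42, .mx 6 1 false (.mx 6 1 true (.mx 6 2 false (.pp 6 4 8 0 1 9 7 0)))),
    (17, 32, 44, .mx 6 1 false (.mx 6 1 true (.mx 6 2 false (.pp 6 4 8 0 2 9 7 0)))),
    (17, 32, 46, .mx 6 1 false (.mx 6 2 false (.pp 8 1 2 3 4 6 7 0))),
    (17, 38, 40, .mx 6 1 false (.mx 6 2 false (.pp 7 1 2 5 8 3 6 0))),
    (17, 38, 42, .mx 6 1 false (.mx 6 1 true (.mx 6 2 false (.mx 6 2 true (.pp 6 4 10 0 2 7 9 0))))),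
    (17, 38, 44, .mx 6 1 false (.mx 6 1 true (.mx 6 2 false (.mx 6 2 true (.pp 6 4 10 0 1 7 9 0))))),
    (17, 40, 42, .mx 6 1 false (.mx 6 1 true (.mx 6 2 false (.pp 6 4 8 0 1 9 7 0)))),
    (17, 40, 44, .mx 6 1 false (.mx 6 1 true (.mx 6 2 false (.pp 6 4 8 0 2 9 7 0)))),
    (17, 40, 46, .mx 6 1 false (.mx 6 1 true (.mx 6 2 false (.pp 6 4 8 0 1 9 7 0)))),
    (17, 42, 44, .mx 6 1 false (.mx 6 1 true (.mx 6 2 false (.pp 1 7 8 0 2 9 4 6)))),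
    (17, 42, 46, .mx 6 1 false (.mx 6 1 true (.mx 6 2 false (.pp 6 4 8 0 2 9 7 0)))),
    (17, 44, 46, .mx 6 1 false (.mx 6 1 true (.mx 6 2 false (.pp 6 4 8 0 1 9 7 0)))),
    (18, 1, 4, .mx 6 1 false (.mx 6 1 true (.mx 6 2 false (.sp 7 9 (.sp 8 9 (.pp 9 2 7 8 6 1 3 0) (.pp 0 1 8 3 4 5 9 0)) (.pp 0 1 7 3 4 5 9 0))))),
    (18, 1, 33, .mx 6 1 false (.mx 6 1 true (.mx 6 2 false (.pp 6 1 8 4 5 9 2 0)))),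
    (18, 4, 33, .mx 6 1 false (.mx 6 1 true (.mx 6 2 true (.sp 7 9 (.mx 6 2 false (.sp 7 10 (.pp 7 2 10 9 6 1 3 0) (.pp 5 4 10 9 7 2 1 0))) (.pp 6 1 9 8 2 7 3 0))))),
    (18, 4, 44, .mx 6 1 false (.mx 6 1 true (.mx 6 2 false (.pp 2 7 8 9 3 4 1 6)))),
    (18, 33, 44, .mx 6 1 false (.mx 6 1 true (.mx 6 2 false (.pp 6 1 8 4 3 9 7 0)))),
    (20, 1, 2, .mx 6 1 false (.mx 6 1 true (.mx 6 2 false (.sp 7 9 (.sp 8 9 (.pp 9 1 7 8 6 2 3 0) (.pp 0 2 8 3 4 5 9 0)) (.pp 0 2 7 3 4 5 9 0))))),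
    (20, 1, 33, .mx 6 1 false (.mx 6 1 true (.mx 6 2 false (.pp 6 2 8 4 5 9 1 0)))),
    (20, 2, 33, .mx 6 1 false (.mx 6 1 true (.mx 6 2 true (.sp 7 9 (.mx 6 2 false (.sp 7 10 (.pp 7 1 10 9 6 2 3 0) (.pp 5 4 10 9 7 1 2 0))) (.pp 6 2 9 8 1 7 3 0))))),
    (20, 2, 42, .mx 6 1 false (.mx 6 1 true (.mx 6 2 false (.pp 1 7 8 9 3 4 2 6)))),
    (20, 33, 42, .mx 6 1 false (.mx 6 1 true (.mx 6 2 false (.pp 6 2 8 4 3 9 7 0)))),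
    (32, 1, 14, .mx 6 1 false (.mx 6 1 true (.mx 6 2 true (.pp 9 1 2 3 4 5 8 0)))),
    (32, 1, 17, .mx 6 1 false (.mx 6 1 true (.mx 6 2 false (.pp 4 3 9 5 6 8 1 0)))),
    (33, 14, 18, .mx 6 1 false (.mx 6 1 true (.mx 6 2 false (.pp 6 0 8 5 4 9 7 0)))),
    (33, 14, 20, .mx 6 1 false (.mx 6 1 true (.mx 6 2 false (.pp 6 0 8 5 4 9 7 0)))),
    (33, 16, 18, .mx 6 1 false (.mx 6 1 true (.mx 6 2 false (.pp 6 5 8 0 1 9 7 0)))),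
    (33, 16, 20, .mx 6 1 false (.mx 6 1 true (.mx 6 2 false (.pp 6 5 8 0 2 9 7 0)))),
    (33, 18, 20, .mx 6 1 false (.mx 6 1 true (.mx 6 2 false (.pp 1 7 8 0 2 9 5 6)))),
    (38, 8, 17, .mx 6 1 false (.mx 6 1 true (.mx 6 2 true (.pp 0 1 2 9 4 5 8 0)))),
    (40, 1, 6, .mx 6 1 false (.mx 6 1 true (.mx 6 2 true (.sp 7 9 (.mx 7 0 true (.sp 8 10 (.pp 9 1 2 6 8 10 4 0) (.pp 9 1 2 7 10 3 8 0))) (.pp 0 7 8 3 4 5 9 6))))),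
    (40, 1, 17, .mx 6 1 false (.mx 6 1 true (.mx 6 2 false (.mx 6 2 true (.mx 7 0 true (.sp 8 11 (.sp 9 11 (.sp 10 11 (.mx 11 2 false (.pp 11 7 8 3 4 12 1 6)) (.pp 11 7 8 3 4 10 1 6)) (.pp 11 7 8 3 4 9 1 6)) (.sp 9 11 (.pp 11 7 9 3 6 8 1 4) (.sp 10 11 (.mx 9 0 true (.sp 7 12 (.sp 8 12 (.sp 10 12 (.mx 12 2 false (.pp 12 7 8 3 4 13 1 6)) (.pp 10 6 11 4 9 12 1 7)) (.pp 7 11 12 0 8 6 4 9)) (.pp 9 4 12 0 7 11 6 0))) (.pp 4 9 10 3 11 7 1 6))))))))),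
    (40, 6, 22, .mx 6 1 false (.mx 6 1 true (.mx 6 2 false (.mx 6 2 true (.mx 7 0 true (.sp 8 11 (.sp 9 11 (.sp 10 11 (.mx 11 2 false (.pp 11 7 8 5 4 12 0 6)) (.pp 11 7 8 5 4 10 0 6)) (.pp 11 7 8 5 4 9 0 6)) (.sp 9 11 (.pp 11 7 9 5 6 8 0 4) (.sp 10 11 (.mx 9 0 true (.sp 7 12 (.sp 8 12 (.sp 10 12 (.mx 12 2 false (.pp 12 7 8 5 4 13 0 6)) (.pp 10 6 11 4 9 12 0 7)) (.pp 7 11 12 1 8 6 4 9)) (.pp 9 4 12 1 7 11 6 0))) (.pp 4 9 10 3 11 7 8 6))))))))),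
    (40, 17, 22, .mx 6 1 false (.mx 6 1 true (.mx 6 2 false (.mx 6 2 true (.pp 6 5 10 3 0 7 9 0))))),
    (42, 1, 4, .mx 6 1 false (.mx 6 1 true (.mx 6 2 false (.sp 7 9 (.sp 8 9 (.pp 9 2 7 8 6 1 4 0) (.pp 0 1 8 3 4 5 9 0)) (.pp 0 1 7 3 4 5 9 0))))),
    (42, 1, 17, .mx 6 1 false (.mx 6 1 true (.mx 6 2 false (.pp 6 1 8 3 4 9 2 0)))),
    (42, 4, 17, .mx 6 1 false (.mx 6 1 true (.mx 6 2 false (.sp 7 9 (.pp 4 3 5 9 7 2 1 0) (.sp 8 9 (.pp 4 3 5 9 8 2 1 0) (.pp 6 5 8 1 0 9 7 0)))))),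
    (42, 4, 20, .mx 6 1 false (.mx 6 2 false (.pp 4 5 8 3 0 1 7 0))),
    (42, 17, 20, .mx 6 1 false (.mx 6 1 true (.mx 6 2 false (.mx 6 2 true (.pp 6 5 10 1 0 7 9 0))))),
    (44, 1, 2, .mx 6 1 false (.mx 6 1 true (.mx 6 2 false (.sp 7 9 (.sp 8 9 (.pp 9 1 7 8 6 2 4 0) (.pp 0 2 8 3 4 5 9 0)) (.pp 0 2 7 3 4 5 9 0))))),
    (44, 1, 17, .mx 6 1 false (.mx 6 1 true (.mx 6 2 false (.pp 6 2 8 3 4 9 1 0)))),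
    (44, 2, 17, .mx 6 1 false (.mx 6 1 true (.mx 6 2 false (.sp 7 9 (.pp 4 3 5 9 7 1 2 0) (.sp 8 9 (.pp 4 3 5 9 8 1 2 0) (.pp 6 5 8 2 0 9 7 0)))))),
    (44, 2, 18, .mx 6 1 false (.mx 6 2 false (.pp 4 5 8 3 0 2 7 0))),
    (44, 17, 18, .mx 6 1 false (.mx 6 1 true (.mx 6 2 false (.mx 6 2 true (.pp 6 5 10 2 0 7 9 0))))),
    (46, 1, 17, .mx 6 1 false (.mx 6 2 false (.pp 6 1 2 3 4 8 7 0))),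
    (46, 16, 17, .mx 6 1 false (.mx 6 1 true (.mx 6 2 false (.pp 6 5 8 1 0 9 7 0))))]

/-- the adjacencies of `S_{1,2,3}` with centre `0` and legs `1`, `2 3`, `4 5 6` -/
abbrev sadj : List (ℕ × ℕ × Bool) :=
  [(0, 1, true), (0, 2, true), (0, 3, false), (0, 4, true), (0, 5, false), (0, 6, false), (1, 2, false), (1, 3, false), (1, 4, false), (1, 5, false), (1, 6, false), (2, 3, true), (2, 4, false), (2, 5, false), (2, 6, false), (3, 4, false), (3, 5, false), (3, 6, false), (4, 5, true), (4, 6, false), (5, 6, true)]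

/-- groups of types, and certificates that there is no `S_{1,2,3}` with types in the group -/
def placeTab : List (List ℕ × Tree) :=
  [([1, 16, 46],
      .sp 1 6 (.sp 2 6 (.sp 3 6 (.sp 5 6 (.sp 1 11 (.sp 1 9 (.pp 11 10 12 1 9 8 7 6) (.sp 2 9 (.bt 9) (.sp 2 11 (.sp 3 9 (.bt 9) (.sp 3 11 (.sp 5 9 (.bt 9) (.sp 5 11 (.sp 4 9 (.sp 0 8 (.sp 4 7 (.pp 11 1 2 3 4 7 8 0) (.pp 11 1 2 3 4 9 7 0)) (.bt 8)) (.sp 0 8 (.bt 9) (.sp 0 9 (.sp 4 7 (.pp 11 1 2 3 4 7 9 0) (.sp 0 7 (.sp 0 10 (.sp 0 12 (.sp 4 8 (.pp 11 1 2 3 4 8 7 0) (.bt 8)) (.pp 11 5 12 1 0 7 8 0)) (.pp 11 5 10 1 0 7 8 0)) (.bt 7))) (.bt 9)))) (.bt 11))) (.bt 11))) (.bt 11)))) (.sp 2 11 (.bt 11) (.sp 3 11 (.bt 11) (.sp 5 11 (.bt 11) (.sp 0 12 (.sp 0 9 (.pp 6 1 2 10 11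 12 9 0) (.sp 1 9 (.sp 2 9 (.sp 3 9 (.sp 4 10 (.bt 11) (.sp 0 10 (.sp 4 7 (.pp 9 1 2 3 4 7 10 0) (.sp 0 7 (.sp 4 11 (.pp 9 1 2 3 4 11 7 0) (.bt 11)) (.bt 7))) (.bt 10))) (.bt 9)) (.bt 9)) (.pp 6 1 7 10 11 12 9 0))) (.sp 4 12 (.sp 0 9 (.pp 6 3 7 10 11 12 9 0) (.sp 0 10 (.bt 11) (.sp 0 11 (.sp 0 7 (.sp 1 12 (.bt 12) (.sp 1 9 (.sp 2 9 (.sp 2 12 (.bt 12) (.sp 3 9 (.sp 4 7 (.bt 7) (.pp 9 1 2 3 4 12 7 0)) (.bt 9))) (.bt 9)) (.pp 6 1 7 10 11 12 9 0))) (.pp 11 0 12 10 6 7 9 0)) (.bt 11)))) (.sp 1 12 (.sp 2 12 (.sp 3 12 (.sp 5 12 (.sp 4 10 (.sp 0 10 (.bt 10) (.sp 0 11 (.sp 4 7 (.sp 0 7 (.bt 7) (.sp 0 8 (.pp 11 10 12 0 8 9 7 1) (.sp 0 9 (.pp 6 7 10 8 9 0 12 11) (.pp 11 0 12 10 6 7 9 0)))) (.pp 12 1 2 3 4 10 7 0)) (.bt 11))) (.sp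 0 10 (.sp 4 7 (.pp 12 1 2 3 4 7 10 0) (.sp 0 7 (.sp 0 8 (.sp 4 8 (.bt 8) (.sp 4 9 (.pp 0 7 10 3 12 5 9 11) (.sp 1 9 (.sp 2 9 (.sp 3 9 (.sp 4 11 (.pp 9 1 2 3 4 11 7 0) (.bt 11)) (.bt 9)) (.bt 9)) (.bt 9)))) (.pp 0 7 10 1 12 5 8 11)) (.bt 7))) (.bt 10))) (.bt 12)) (.bt 12)) (.bt 12)) (.bt 12)))))))) (.bt 6)) (.bt 6)) (.bt 6)) (.sp 2 6 (.bt 6) (.sp 3 6 (.bt 6) (.sp 5 6 (.bt 6) (.sp 1 11 (.sp 2 10 (.bt 10) (.sp 2 11 (.sp 3 10 (.bt 10) (.sp 3 11 (.sp 5 10 (.bt 10) (.sp 5 11 (.sp 3 9 (.sp 0 7 (.pp 6 7 10 8 9 3 12 11) (.sp 1 8 (.bt 8) (.sp 1 9 (.pp 9 1 3 8 6 10 12 0) (.bt 9)))) (.sp 0 7 (.pp 11 3 12 10 6 7 9 0) (.sp 1 9 (.bt 9) (.sp 1 7 (.sp 2 7 (.sp 2 9 (.bt 9) (.sp 0 8 (.pp 7 1 2 6 8 9 12 0) (.sp 3 7 (.sp 5 7 (.sp 5 9 (.bt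 9) (.sp 4 8 (.pp 7 3 5 6 8 9 12 0) (.sp 1 8 (.sp 2 8 (.sp 3 8 (.sp 5 8 (.sp 4 9 (.sp 0 9 (.bt 9) (.sp 4 6 (.pp 7 1 2 3 4 9 10 0) (.pp 11 1 2 3 4 9 6 0))) (.sp 0 9 (.sp 4 6 (.pp 11 1 2 3 4 6 9 0) (.sp 0 6 (.sp 0 12 (.pp 0 9 12 1 7 5 10 8) (.sp 4 10 (.pp 7 1 2 3 4 10 9 0) (.bt 10))) (.bt 6))) (.bt 9))) (.bt 8)) (.bt 8)) (.bt 8)) (.bt 8)))) (.bt 7)) (.bt 7)))) (.bt 7)) (.pp 11 1 12 10 6 7 9 0))))) (.bt 11))) (.bt 11))) (.bt 11))) (.sp 2 11 (.bt 11) (.sp 3 11 (.bt 11) (.sp 5 11 (.bt 11) (.sp 1 8 (.sp 2 8 (.sp 3 8 (.sp 5 8 (.sp 1 7 (.sp 2 7 (.sp 0 10 (.pp 7 1 2 6 10 11 9 0) (.sp 3 7 (.sp 5 7 (.sp 4 10 (.pp 7 3 5 6 10 11 9 0) (.sp 1 10 (.sp 2 10 (.sp 3 10 (.sp 5 10 (.sp 1 12 (.sp 2 12 (.sp 3 12 (.sp 5 12 (.sp 4 9 (.sp 0 9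 (.bt 9) (.sp 4 6 (.sp 0 6 (.bt 6) (.sp 0 11 (.pp 7 5 6 1 0 11 9 0) (.pp 6 7 8 10 11 12 0 9))) (.pp 6 7 10 8 9 4 12 11))) (.sp 0 9 (.sp 0 6 (.sp 0 11 (.pp 11 10 12 0 9 8 7 6) (.sp 4 6 (.bt 6) (.sp 4 11 (.pp 7 1 2 3 4 11 9 0) (.bt 11)))) (.pp 6 7 10 8 9 0 12 11)) (.bt 9))) (.bt 12)) (.bt 12)) (.bt 12)) (.sp 2 12 (.bt 12) (.sp 3 12 (.bt 12) (.sp 5 12 (.bt 12) (.sp 4 11 (.sp 0 11 (.bt 11) (.sp 0 12 (.sp 4 9 (.pp 1 7 10 8 9 4 12 11) (.pp 7 1 2 3 4 11 9 0)) (.bt 12))) (.sp 0 11 (.sp 0 9 (.pp 5 7 10 8 9 0 12 11) (.pp 11 0 12 10 5 7 9 0)) (.bt 11))))))) (.bt 10)) (.bt 10)) (.bt 10)) (.bt 10))) (.bt 7)) (.bt 7))) (.bt 7)) (.sp 2 7 (.bt 7) (.sp 3 7 (.bt 7) (.sp 5 7 (.bt 7) (.sp 4 7 (.sp 0 6 (.sp 4 10 (.pp 8 1 2 3 4 7 11 0) (.sp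 1 10 (.sp 2 10 (.sp 3 10 (.sp 4 9 (.sp 0 9 (.bt 9) (.sp 0 11 (.pp 8 5 9 1 0 11 7 0) (.sp 0 12 (.sp 4 11 (.pp 4 7 9 3 10 1 12 6) (.bt 11)) (.pp 6 0 7 10 11 12 9 0)))) (.pp 10 1 2 3 4 7 9 0)) (.bt 10)) (.bt 10)) (.bt 10))) (.bt 6)) (.sp 0 6 (.bt 7) (.sp 0 7 (.sp 4 6 (.sp 4 11 (.pp 8 1 2 3 4 11 7 0) (.sp 0 10 (.bt 11) (.sp 0 11 (.sp 1 10 (.sp 2 10 (.sp 3 10 (.sp 4 9 (.pp 10 1 2 3 4 9 7 0) (.sp 0 9 (.sp 3 12 (.pp 6 4 10 7 0 9 12 0) (.sp 1 12 (.bt 12) (.sp 2 12 (.bt 12) (.sp 4 12 (.pp 8 1 2 3 4 12 7 0) (.bt 12))))) (.bt 9))) (.bt 10)) (.bt 10)) (.bt 10)) (.bt 11)))) (.bt 6)) (.bt 7)))))))) (.bt 8)) (.bt 8)) (.bt 8)) (.sp 2 8 (.bt 8) (.sp 3 8 (.bt 8) (.sp 5 8 (.bt 8) (.sp 4 10 (.sp 0 6 (.sp 0 11 (.sp 0 9 (.pp 11 10 12 0 9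 8 7 6) (.sp 1 10 (.bt 10) (.sp 2 10 (.bt 10) (.sp 4 8 (.sp 1 9 (.sp 2 9 (.sp 3 9 (.sp 5 9 (.sp 4 7 (.pp 9 5 8 3 0 11 7 0) (.sp 1 7 (.sp 1 12 (.sp 2 7 (.pp 7 1 2 6 8 4 11 0) (.bt 7)) (.pp 11 10 12 0 1 7 8 6)) (.bt 7))) (.bt 9)) (.bt 9)) (.bt 9)) (.bt 9)) (.bt 8))))) (.bt 11)) (.bt 6)) (.sp 0 10 (.sp 0 9 (.pp 0 1 2 9 8 6 11 0) (.sp 4 6 (.sp 0 8 (.sp 4 11 (.sp 4 9 (.pp 11 10 12 4 9 8 7 6) (.sp 1 9 (.sp 0 12 (.pp 6 4 10 8 9 1 12 0) (.sp 0 7 (.pp 11 4 12 10 0 7 9 0) (.pp 11 4 12 10 0 8 7 0))) (.bt 9))) (.bt 11)) (.bt 8)) (.bt 6))) (.sp 1 10 (.sp 2 10 (.sp 3 10 (.sp 5 10 (.sp 1 7 (.sp 2 7 (.sp 0 9 (.pp 7 1 2 6 8 9 11 0) (.sp 3 7 (.sp 5 7 (.sp 4 9 (.pp 7 3 5 6 8 9 11 0) (.sp 1 9 (.sp 2 9 (.sp 3 9 (.sp 5 9 (.sp 1 12 (.sp 2 12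 (.sp 3 12 (.sp 5 12 (.sp 0 6 (.sp 0 11 (.sp 4 6 (.bt 6) (.sp 4 8 (.sp 4 11 (.bt 11) (.pp 7 1 2 3 4 8 11 0)) (.bt 8))) (.pp 6 0 7 10 11 12 9 0)) (.sp 0 11 (.pp 11 0 12 10 6 7 9 0) (.sp 0 8 (.sp 4 6 (.sp 4 11 (.pp 7 1 2 3 4 11 8 0) (.bt 11)) (.bt 6)) (.pp 6 7 8 10 11 12 0 1)))) (.bt 12)) (.bt 12)) (.bt 12)) (.sp 2 12 (.bt 12) (.sp 3 12 (.bt 12) (.sp 5 12 (.bt 12) (.sp 4 11 (.sp 0 11 (.bt 11) (.sp 0 12 (.sp 4 6 (.pp 7 1 2 3 4 11 8 0) (.pp 9 1 2 3 4 11 6 0)) (.bt 12))) (.sp 0 11 (.sp 0 6 (.pp 11 0 12 10 5 7 8 0) (.pp 11 0 12 10 6 7 9 0)) (.bt 11))))))) (.bt 9)) (.bt 9)) (.bt 9)) (.bt 9))) (.bt 7)) (.bt 7))) (.bt 7)) (.sp 2 7 (.bt 7) (.sp 3 7 (.bt 7) (.sp 5 7 (.bt 7) (.sp 0 7 (.sp 0 8 (.sp 4 6 (.sp 4 9 (.sp 0 11 (.sp 1 9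 (.bt 9) (.sp 2 9 (.bt 9) (.pp 10 1 2 3 4 9 7 0))) (.pp 10 5 11 3 0 7 9 0)) (.sp 1 9 (.sp 2 9 (.pp 9 1 2 8 6 7 11 0) (.bt 9)) (.bt 9))) (.bt 6)) (.pp 0 1 2 7 6 8 5 0)) (.sp 0 8 (.pp 0 1 2 8 6 7 5 0) (.sp 4 6 (.bt 7) (.sp 0 6 (.sp 4 7 (.sp 4 8 (.sp 0 9 (.pp 10 1 2 3 4 7 9 0) (.sp 1 9 (.sp 2 9 (.pp 9 1 2 8 6 7 11 0) (.bt 9)) (.bt 9))) (.bt 8)) (.bt 7)) (.bt 6))))))))) (.bt 10)) (.bt 10)) (.bt 10)) (.bt 10)))))))))))))))),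
    ([1, 18, 44],
      .sp 2 6 (.sp 1 6 (.bt 6) (.sp 3 6 (.sp 5 6 (.sp 2 11 (.sp 1 11 (.bt 11) (.sp 2 9 (.pp 11 10 12 2 9 8 7 6) (.sp 3 9 (.bt 9) (.sp 3 11 (.sp 5 9 (.bt 9) (.sp 5 11 (.sp 1 9 (.sp 0 8 (.sp 0 12 (.pp 6 2 3 8 9 1 12 0) (.sp 0 7 (.pp 11 5 12 2 0 7 9 0) (.pp 11 5 12 2 0 8 7 0))) (.bt 8)) (.sp 0 8 (.bt 9) (.sp 0 9 (.sp 1 8 (.sp 4 8 (.sp 0 7 (.sp 0 10 (.sp 0 12 (.sp 4 7 (.bt 7) (.pp 8 1 9 4 3 11 7 0)) (.pp 11 5 12 2 0 7 8 0)) (.pp 11 5 10 2 0 7 8 0)) (.sp 0 10 (.sp 0 12 (.sp 1 7 (.sp 4 7 (.pp 7 4 6 1 0 9 11 0) (.bt 7)) (.bt 7)) (.pp 6 5 7 2 0 9 12 0)) (.pp 11 5 10 2 0 9 7 0))) (.bt 8)) (.bt 8)) (.bt 9)))) (.bt 11))) (.bt 11))))) (.sp 3 11 (.bt 11) (.sp 5 11 (.bt 11) (.sp 4 12 (.sp 0 9 (.pp 6 3 7 10 11 12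 9 0) (.sp 0 10 (.bt 11) (.sp 0 11 (.sp 0 7 (.sp 1 10 (.sp 1 12 (.sp 2 12 (.bt 12) (.sp 2 9 (.sp 1 8 (.pp 1 10 12 8 9 2 7 6) (.sp 0 8 (.sp 1 9 (.bt 9) (.sp 3 9 (.sp 4 7 (.bt 7) (.pp 12 1 11 4 3 9 7 0)) (.bt 9))) (.bt 8))) (.pp 6 2 7 10 11 12 9 0))) (.bt 12)) (.bt 10)) (.pp 11 0 12 10 6 7 9 0)) (.bt 11)))) (.sp 1 12 (.bt 12) (.sp 0 12 (.sp 0 9 (.pp 6 2 3 10 11 12 9 0) (.sp 1 10 (.bt 11) (.sp 0 10 (.sp 1 11 (.sp 2 9 (.sp 1 9 (.bt 9) (.sp 0 7 (.pp 11 1 12 10 6 7 9 0) (.sp 0 8 (.sp 1 7 (.sp 3 9 (.sp 4 7 (.pp 7 4 6 1 0 12 9 0) (.bt 7)) (.bt 9)) (.bt 7)) (.pp 0 10 12 2 9 8 7 6)))) (.pp 6 2 7 10 11 12 9 0)) (.bt 11)) (.bt 10)))) (.sp 2 12 (.sp 3 12 (.sp 5 12 (.sp 1 10 (.sp 0 7 (.pp 12 2 3 11 10 1 7 0) (.sp 0 8 (.pp 12 2 3 11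 10 1 8 0) (.sp 0 9 (.pp 6 7 10 8 9 0 12 11) (.sp 0 11 (.pp 11 0 12 10 6 7 9 0) (.bt 11))))) (.sp 0 10 (.sp 1 11 (.sp 0 9 (.pp 6 2 3 10 11 1 9 0) (.sp 4 10 (.bt 10) (.sp 4 11 (.sp 1 9 (.sp 0 7 (.pp 6 7 10 8 9 1 12 11) (.sp 0 8 (.pp 0 8 10 2 12 5 7 9) (.bt 8))) (.sp 0 7 (.pp 11 1 12 10 6 7 9 0) (.sp 0 8 (.pp 0 8 10 2 12 5 7 9) (.pp 6 7 8 5 12 11 0 9)))) (.bt 11)))) (.bt 11)) (.bt 10))) (.bt 12)) (.bt 12)) (.bt 12)))))))) (.bt 6)) (.bt 6))) (.sp 3 6 (.bt 6) (.sp 5 6 (.bt 6) (.sp 1 8 (.sp 0 6 (.sp 2 8 (.bt 8) (.sp 3 8 (.bt 8) (.sp 4 6 (.bt 6) (.sp 4 8 (.sp 1 10 (.sp 2 10 (.bt 10) (.sp 3 10 (.bt 10) (.sp 4 10 (.sp 2 12 (.sp 0 11 (.sp 0 9 (.pp 11 10 12 0 9 8 7 2) (.sp 1 12 (.bt 12) (.sp 2 9 (.sp 3 9 (.sp 3 12 (.sp 3 7 (.pp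 11 0 12 10 4 8 7 0) (.sp 1 7 (.sp 2 7 (.bt 7) (.pp 9 2 3 8 1 7 11 0)) (.bt 7))) (.bt 12)) (.bt 9)) (.bt 9)))) (.bt 11)) (.sp 3 12 (.bt 12) (.sp 5 12 (.bt 12) (.sp 2 7 (.sp 0 11 (.pp 11 10 12 0 2 7 8 6) (.sp 1 7 (.bt 7) (.sp 2 11 (.sp 3 7 (.sp 0 9 (.pp 7 2 3 6 8 9 12 0) (.sp 0 12 (.pp 7 2 3 6 8 1 12 0) (.pp 6 0 7 10 11 12 9 0))) (.bt 7)) (.bt 11)))) (.sp 0 11 (.pp 6 7 8 10 11 12 2 9) (.sp 1 7 (.sp 2 9 (.pp 6 7 10 8 9 2 12 11) (.sp 0 9 (.sp 2 11 (.pp 11 2 12 10 6 7 9 0) (.bt 11)) (.bt 9))) (.bt 7))))))) (.bt 10)))) (.sp 2 10 (.sp 3 10 (.sp 0 12 (.pp 10 2 3 6 8 1 12 0) (.sp 5 10 (.sp 1 11 (.sp 0 9 (.sp 1 7 (.sp 2 7 (.bt 7) (.sp 2 12 (.pp 2 10 12 0 9 8 7 6) (.bt 12))) (.pp 11 10 12 1 0 9 7 6)) (.pp 6 0 7 10 11 12 9 0)) (.sp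 0 11 (.sp 0 9 (.pp 11 10 12 0 9 8 7 6) (.sp 2 9 (.sp 3 9 (.sp 4 11 (.bt 11) (.sp 5 9 (.sp 4 7 (.pp 9 5 8 3 0 11 7 0) (.sp 1 7 (.bt 7) (.pp 8 4 9 1 0 11 7 0))) (.bt 9))) (.bt 9)) (.bt 9))) (.bt 11))) (.bt 10))) (.bt 10)) (.bt 10))) (.bt 8))))) (.bt 6)) (.sp 4 8 (.bt 8) (.sp 0 6 (.sp 2 8 (.sp 3 8 (.sp 4 6 (.bt 6) (.sp 5 8 (.sp 5 11 (.sp 0 11 (.bt 11) (.sp 1 10 (.sp 2 10 (.bt 10) (.sp 0 12 (.pp 8 2 5 6 10 1 12 0) (.sp 0 9 (.sp 1 12 (.sp 1 7 (.sp 2 7 (.bt 7) (.sp 2 11 (.pp 11 10 12 2 0 9 7 6) (.bt 11))) (.pp 1 10 12 0 9 8 7 6)) (.bt 12)) (.pp 6 0 7 10 11 12 9 0)))) (.bt 10))) (.sp 2 11 (.bt 11) (.sp 3 11 (.bt 11) (.sp 1 10 (.sp 0 11 (.sp 0 9 (.pp 11 10 12 0 9 8 7 6) (.sp 1 9 (.sp 2 10 (.bt 10) (.sp 3 10 (.bt 10) (.sp 4 7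 (.pp 8 5 9 3 0 11 7 0) (.sp 1 7 (.bt 7) (.sp 2 7 (.sp 2 12 (.sp 1 12 (.bt 12) (.sp 3 7 (.pp 7 2 3 6 10 11 9 0) (.bt 7))) (.pp 11 10 12 0 2 7 9 6)) (.bt 7)))))) (.bt 9))) (.bt 11)) (.sp 2 10 (.sp 3 10 (.sp 5 10 (.sp 1 7 (.sp 2 7 (.bt 7) (.sp 3 7 (.bt 7) (.sp 0 9 (.pp 10 2 3 6 7 1 9 0) (.sp 0 11 (.pp 8 2 3 6 7 1 11 0) (.sp 0 12 (.pp 8 2 3 6 7 1 12 0) (.pp 6 0 7 10 11 12 9 0)))))) (.sp 2 7 (.sp 3 7 (.sp 5 7 (.sp 4 11 (.sp 0 11 (.bt 11) (.sp 1 11 (.sp 0 9 (.pp 11 1 12 10 6 7 9 0) (.sp 0 12 (.sp 1 9 (.pp 2 7 10 8 9 1 12 11) (.bt 9)) (.pp 6 0 7 10 11 12 9 0))) (.bt 11))) (.sp 0 11 (.sp 0 9 (.pp 11 10 12 0 9 8 7 6) (.sp 1 9 (.sp 1 12 (.sp 2 12 (.bt 12) (.sp 3 12 (.bt 12) (.sp 4 9 (.pp 7 2 6 3 4 9 11 0) (.bt 9)))) (.pp 6 7 10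 0 1 9 12 11)) (.bt 9))) (.bt 11))) (.bt 7)) (.bt 7)) (.bt 7))) (.bt 10)) (.bt 10)) (.bt 10)))))) (.bt 8))) (.bt 8)) (.bt 8)) (.sp 1 6 (.sp 4 6 (.sp 2 11 (.sp 0 10 (.sp 1 11 (.bt 11) (.sp 3 11 (.sp 0 9 (.pp 11 2 3 10 6 1 9 0) (.sp 5 10 (.bt 10) (.sp 5 11 (.sp 2 9 (.sp 0 7 (.pp 6 7 10 8 9 2 12 11) (.sp 0 8 (.sp 1 9 (.bt 9) (.sp 0 12 (.pp 6 1 10 8 9 2 12 0) (.sp 1 12 (.sp 2 7 (.sp 3 7 (.sp 3 9 (.pp 9 2 3 8 6 10 12 0) (.bt 9)) (.bt 7)) (.bt 7)) (.bt 12)))) (.bt 8))) (.sp 0 7 (.pp 11 2 12 10 6 7 9 0) (.sp 1 9 (.sp 2 7 (.sp 3 7 (.sp 3 9 (.bt 9) (.sp 0 8 (.pp 7 2 3 6 8 9 12 0) (.sp 0 12 (.pp 0 10 12 1 9 8 7 6) (.sp 1 12 (.sp 2 8 (.sp 3 8 (.pp 8 2 3 9 1 12 10 0) (.bt 8)) (.bt 8)) (.bt 12))))) (.bt 7)) (.bt 7)) (.bt 9)))) (.bt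 11)))) (.bt 11))) (.bt 10)) (.sp 3 11 (.bt 11) (.sp 5 11 (.bt 11) (.sp 2 9 (.sp 0 8 (.sp 1 9 (.bt 9) (.sp 3 9 (.sp 0 7 (.pp 9 2 3 8 6 7 11 0) (.sp 0 11 (.pp 9 2 3 8 6 1 11 0) (.sp 0 12 (.pp 9 2 3 8 6 1 12 0) (.sp 1 11 (.sp 0 10 (.sp 2 7 (.sp 2 12 (.pp 11 1 10 12 2 7 8 0) (.bt 12)) (.bt 7)) (.pp 11 10 12 1 0 8 7 6)) (.bt 11))))) (.bt 9))) (.bt 8)) (.sp 3 9 (.bt 9) (.sp 5 9 (.bt 9) (.sp 0 10 (.sp 1 11 (.sp 1 9 (.pp 11 10 12 1 9 8 7 6) (.sp 0 8 (.bt 9) (.sp 0 9 (.sp 2 8 (.sp 3 8 (.sp 4 9 (.bt 9) (.sp 3 12 (.pp 6 1 10 4 3 12 9 0) (.sp 0 12 (.sp 4 11 (.sp 0 7 (.pp 8 2 9 3 4 11 7 0) (.sp 2 7 (.sp 3 7 (.pp 7 2 3 6 1 11 9 0) (.bt 7)) (.bt 7))) (.bt 11)) (.bt 12)))) (.bt 8)) (.bt 8)) (.bt 9)))) (.bt 11)) (.sp 2 10 (.sp 3 10 (.sp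 5 10 (.sp 0 8 (.sp 0 12 (.pp 10 2 3 6 8 9 12 0) (.sp 1 9 (.sp 1 11 (.pp 11 10 12 1 9 8 7 6) (.sp 0 11 (.sp 0 7 (.sp 4 9 (.pp 9 1 8 4 3 10 7 0) (.bt 9)) (.pp 11 10 12 0 8 9 7 6)) (.bt 11))) (.bt 9))) (.sp 2 8 (.sp 3 8 (.sp 5 8 (.sp 1 12 (.sp 0 11 (.sp 2 12 (.bt 12) (.sp 3 12 (.bt 12) (.sp 0 7 (.pp 10 2 3 11 12 1 7 0) (.sp 0 9 (.pp 6 7 10 8 9 0 12 11) (.pp 11 0 12 10 6 7 9 0))))) (.bt 11)) (.sp 4 12 (.bt 12) (.sp 0 11 (.sp 0 9 (.pp 6 1 7 10 11 12 9 0) (.sp 0 7 (.sp 1 9 (.sp 2 12 (.pp 2 10 12 8 9 1 7 6) (.bt 12)) (.bt 9)) (.pp 11 0 12 10 6 7 9 0))) (.sp 1 11 (.sp 1 9 (.pp 11 10 12 1 9 8 7 6) (.sp 0 9 (.sp 4 9 (.bt 9) (.sp 0 12 (.sp 0 7 (.pp 11 1 12 10 2 8 7 0) (.sp 2 7 (.pp 11 1 12 10 2 7 9 0) (.bt 7))) (.pp 6 4 10 1 0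 9 12 0))) (.bt 9))) (.bt 11))))) (.bt 8)) (.bt 8)) (.bt 8))) (.bt 10)) (.bt 10)) (.bt 10))))))))) (.bt 6)) (.bt 6)))))))),
    ([1, 20, 42],
      .sp 1 6 (.sp 2 6 (.bt 6) (.sp 3 6 (.sp 5 6 (.sp 1 11 (.sp 1 9 (.pp 11 10 12 1 9 8 7 6) (.sp 2 11 (.bt 11) (.sp 3 9 (.bt 9) (.sp 3 11 (.sp 5 9 (.bt 9) (.sp 5 11 (.sp 2 9 (.sp 0 8 (.sp 0 12 (.pp 6 1 3 8 9 2 12 0) (.sp 0 7 (.pp 11 5 12 1 0 7 9 0) (.pp 11 5 12 1 0 8 7 0))) (.bt 8)) (.sp 0 8 (.bt 9) (.sp 0 9 (.sp 2 8 (.sp 4 8 (.sp 0 7 (.sp 0 10 (.sp 0 12 (.sp 4 7 (.bt 7) (.pp 8 2 9 4 3 11 7 0)) (.pp 11 5 12 1 0 7 8 0)) (.pp 11 5 10 1 0 7 8 0)) (.sp 0 10 (.sp 0 12 (.sp 2 7 (.sp 4 7 (.pp 7 4 6 2 0 9 11 0) (.bt 7)) (.bt 7)) (.pp 6 5 7 1 0 9 12 0)) (.pp 11 5 10 1 0 9 7 0))) (.bt 8))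 (.bt 8)) (.bt 9)))) (.bt 11))) (.bt 11))))) (.sp 3 11 (.bt 11) (.sp 5 11 (.bt 11) (.sp 4 12 (.sp 0 9 (.pp 6 3 7 10 11 12 9 0) (.sp 0 10 (.bt 11) (.sp 0 11 (.sp 0 7 (.sp 1 12 (.bt 12) (.sp 1 9 (.sp 2 9 (.bt 9) (.sp 2 10 (.sp 2 12 (.sp 2 8 (.pp 2 10 12 8 9 1 7 6) (.sp 0 8 (.sp 3 9 (.sp 4 7 (.bt 7) (.pp 12 2 11 4 3 9 7 0)) (.bt 9)) (.bt 8))) (.bt 12)) (.bt 10))) (.pp 6 1 7 10 11 12 9 0))) (.pp 11 0 12 10 6 7 9 0)) (.bt 11)))) (.sp 2 12 (.bt 12) (.sp 0 12 (.sp 0 9 (.pp 6 1 3 10 11 12 9 0) (.sp 1 9 (.sp 2 9 (.bt 9) (.sp 2 10 (.bt 11) (.sp 0 10 (.sp 2 11 (.sp 0 7 (.pp 11 2 12 10 6 7 9 0) (.sp 0 8 (.sp 2 7 (.sp 3 9 (.sp 4 7 (.pp 7 4 6 2 0 12 9 0) (.bt 7)) (.bt 9)) (.bt 7)) (.pp 0 10 12 1 9 8 7 6))) (.bt 11)) (.bt 10)))) (.pp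 6 1 7 10 11 12 9 0))) (.sp 1 12 (.sp 3 12 (.sp 5 12 (.sp 2 10 (.sp 0 7 (.pp 12 1 3 11 10 2 7 0) (.sp 0 8 (.pp 12 1 3 11 10 2 8 0) (.sp 0 9 (.pp 6 7 10 8 9 0 12 11) (.sp 0 11 (.pp 11 0 12 10 6 7 9 0) (.bt 11))))) (.sp 0 10 (.sp 2 11 (.sp 0 9 (.pp 6 1 3 10 11 2 9 0) (.sp 4 10 (.bt 10) (.sp 4 11 (.sp 2 9 (.sp 0 7 (.pp 6 7 10 8 9 2 12 11) (.sp 0 8 (.pp 0 8 10 1 12 5 7 9) (.bt 8))) (.sp 0 7 (.pp 11 2 12 10 6 7 9 0) (.sp 0 8 (.pp 0 8 10 1 12 5 7 9) (.pp 6 7 8 5 12 11 0 9)))) (.bt 11)))) (.bt 11)) (.bt 10))) (.bt 12)) (.bt 12)) (.bt 12)))))))) (.bt 6)) (.bt 6))) (.sp 3 6 (.bt 6) (.sp 5 6 (.bt 6) (.sp 1 11 (.sp 2 11 (.bt 11) (.sp 3 10 (.bt 10) (.sp 3 11 (.sp 5 10 (.bt 10) (.sp 5 11 (.sp 0 7 (.sp 0 9 (.pp 11 1 3 10 6 7 9 0) (.sp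 1 8 (.pp 11 10 12 1 8 9 7 6) (.sp 1 9 (.pp 6 7 10 8 9 1 12 11) (.pp 11 1 12 10 6 7 9 0)))) (.sp 4 7 (.sp 0 6 (.sp 0 9 (.pp 11 3 12 10 6 7 9 0) (.sp 0 12 (.sp 1 7 (.bt 7) (.sp 1 8 (.pp 11 10 12 1 8 9 7 0) (.sp 1 9 (.pp 6 7 10 8 9 1 12 11) (.pp 11 1 12 10 6 7 9 0)))) (.pp 6 0 7 10 11 12 9 0))) (.bt 6)) (.sp 1 7 (.sp 2 7 (.bt 7) (.sp 3 7 (.sp 5 7 (.sp 2 10 (.sp 0 6 (.sp 0 9 (.pp 7 1 3 6 10 2 9 0) (.sp 0 12 (.pp 7 1 3 6 10 2 12 0) (.pp 6 0 7 10 11 12 9 0))) (.bt 6)) (.sp 0 6 (.bt 10) (.sp 0 10 (.sp 2 6 (.sp 0 9 (.pp 11 1 3 10 6 2 9 0) (.sp 4 6 (.sp 2 9 (.sp 1 9 (.bt 9) (.sp 3 9 (.bt 9) (.sp 0 8 (.pp 7 1 3 6 8 9 12 0) (.sp 0 12 (.pp 0 10 12 2 9 8 7 6) (.sp 1 8 (.sp 2 12 (.sp 3 8 (.pp 8 1 3 9 2 12 10 0) (.bt 8)) (.bt 12))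 (.bt 8)))))) (.sp 0 12 (.pp 6 2 7 10 11 12 9 0) (.sp 1 8 (.bt 9) (.sp 0 8 (.sp 1 9 (.sp 2 12 (.sp 3 9 (.pp 9 1 3 8 6 10 12 0) (.bt 9)) (.bt 12)) (.bt 9)) (.bt 8))))) (.bt 6))) (.bt 6)) (.bt 10)))) (.bt 7)) (.bt 7))) (.bt 7)))) (.bt 11))) (.bt 11)))) (.sp 3 11 (.bt 11) (.sp 5 11 (.bt 11) (.sp 0 10 (.sp 2 6 (.sp 2 11 (.sp 2 9 (.pp 11 10 12 2 9 8 7 6) (.sp 4 6 (.sp 4 9 (.bt 9) (.sp 4 11 (.sp 5 10 (.bt 10) (.sp 3 9 (.sp 0 7 (.pp 11 2 10 4 3 9 7 0) (.sp 0 8 (.sp 0 12 (.pp 6 4 7 2 0 12 9 0) (.pp 11 4 12 2 0 8 7 0)) (.bt 8))) (.sp 0 8 (.bt 9) (.sp 0 9 (.sp 1 8 (.sp 3 7 (.pp 11 2 10 4 3 7 9 0) (.sp 0 7 (.sp 0 12 (.sp 3 8 (.pp 8 1 9 3 4 11 7 0) (.bt 8)) (.pp 11 4 12 2 0 7 8 0)) (.bt 7))) (.bt 8)) (.bt 9))))) (.bt 11))) (.bt 6)))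 (.bt 11)) (.bt 6)) (.sp 2 10 (.sp 0 6 (.sp 0 11 (.sp 0 9 (.pp 11 10 12 0 9 8 7 6) (.sp 1 10 (.bt 10) (.sp 3 10 (.bt 10) (.sp 4 6 (.bt 6) (.sp 4 10 (.sp 2 8 (.sp 1 8 (.bt 8) (.sp 1 9 (.sp 3 8 (.bt 8) (.sp 3 9 (.sp 4 8 (.sp 5 9 (.sp 4 7 (.pp 9 5 8 3 0 11 7 0) (.sp 1 7 (.sp 1 12 (.sp 2 7 (.bt 7) (.pp 8 4 9 2 0 11 7 0)) (.pp 11 10 12 0 1 7 8 6)) (.bt 7))) (.bt 9)) (.bt 8)) (.bt 9))) (.bt 9))) (.sp 1 8 (.sp 2 9 (.sp 3 8 (.sp 4 9 (.sp 5 8 (.sp 4 7 (.pp 8 5 9 3 0 11 7 0) (.sp 1 7 (.sp 1 12 (.sp 2 7 (.bt 7) (.pp 9 4 8 2 0 11 7 0)) (.pp 11 10 12 0 1 7 9 6)) (.bt 7))) (.bt 8)) (.bt 9)) (.bt 8)) (.bt 9)) (.bt 8))) (.bt 10)))))) (.bt 11)) (.bt 6)) (.sp 1 10 (.sp 3 10 (.sp 5 10 (.sp 2 8 (.sp 0 6 (.sp 1 8 (.bt 8) (.sp 3 8 (.bt 8)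 (.sp 0 12 (.pp 10 1 3 6 8 2 12 0) (.sp 4 6 (.bt 6) (.sp 4 8 (.sp 2 11 (.sp 0 9 (.sp 1 12 (.sp 1 7 (.sp 2 7 (.bt 7) (.pp 11 10 12 2 0 9 7 6)) (.pp 1 10 12 0 9 8 7 6)) (.bt 12)) (.pp 6 0 7 10 11 12 9 0)) (.sp 0 11 (.sp 0 9 (.pp 11 10 12 0 9 8 7 6) (.sp 1 9 (.sp 3 9 (.sp 4 11 (.bt 11) (.sp 5 9 (.sp 4 7 (.pp 9 5 8 3 0 11 7 0) (.sp 1 7 (.sp 2 7 (.bt 7) (.pp 8 4 9 2 0 11 7 0)) (.bt 7))) (.bt 9))) (.bt 9)) (.bt 9))) (.bt 11))) (.bt 8)))))) (.bt 6)) (.sp 4 8 (.bt 8) (.sp 0 6 (.sp 1 8 (.sp 3 8 (.sp 4 6 (.bt 6) (.sp 5 8 (.sp 1 7 (.sp 2 7 (.bt 7) (.sp 3 7 (.sp 5 7 (.sp 4 11 (.sp 0 11 (.bt 11) (.sp 2 11 (.sp 0 9 (.pp 11 2 12 10 6 7 9 0) (.sp 0 12 (.sp 2 9 (.pp 1 7 10 8 9 2 12 11) (.bt 9)) (.pp 6 0 7 10 11 12 9 0))) (.bt 11))) (.sp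 0 11 (.sp 0 9 (.pp 11 10 12 0 9 8 7 6) (.sp 2 9 (.sp 2 12 (.sp 1 12 (.bt 12) (.sp 3 12 (.bt 12) (.sp 4 9 (.pp 7 1 6 3 4 9 11 0) (.bt 9)))) (.pp 6 7 10 0 2 9 12 11)) (.bt 9))) (.bt 11))) (.bt 7)) (.bt 7))) (.sp 2 7 (.sp 3 7 (.bt 7) (.sp 0 9 (.pp 10 1 3 6 7 2 9 0) (.sp 0 11 (.pp 8 1 3 6 7 2 11 0) (.sp 0 12 (.pp 8 1 3 6 7 2 12 0) (.pp 6 0 7 10 11 12 9 0))))) (.bt 7))) (.bt 8))) (.bt 8)) (.bt 8)) (.sp 2 6 (.sp 4 6 (.sp 1 9 (.sp 0 8 (.sp 2 9 (.bt 9) (.sp 3 9 (.sp 0 7 (.pp 9 1 3 8 6 7 11 0) (.sp 0 11 (.pp 9 1 3 8 6 2 11 0) (.sp 0 12 (.pp 6 7 10 2 0 12 9 11) (.sp 1 7 (.sp 2 11 (.pp 11 10 12 2 0 8 7 6) (.bt 11)) (.bt 7))))) (.bt 9))) (.bt 8)) (.sp 3 9 (.bt 9) (.sp 5 9 (.bt 9) (.sp 0 8 (.sp 0 12 (.pp 10 1 3 6 8 9 12 0) (.sp 2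 9 (.sp 2 11 (.pp 11 10 12 2 9 8 7 6) (.sp 0 11 (.sp 0 7 (.sp 4 9 (.pp 9 2 8 4 3 10 7 0) (.bt 9)) (.pp 11 10 12 0 8 9 7 6)) (.bt 11))) (.bt 9))) (.sp 1 8 (.sp 3 8 (.sp 5 8 (.sp 2 12 (.sp 0 11 (.sp 1 12 (.bt 12) (.sp 3 12 (.bt 12) (.sp 0 7 (.pp 10 1 3 11 12 2 7 0) (.sp 0 9 (.pp 6 7 10 8 9 0 12 11) (.pp 11 0 12 10 6 7 9 0))))) (.bt 11)) (.sp 4 12 (.bt 12) (.sp 0 11 (.sp 0 9 (.pp 6 2 7 10 11 12 9 0) (.sp 0 7 (.sp 1 12 (.sp 2 9 (.pp 1 10 12 8 9 2 7 6) (.bt 9)) (.bt 12)) (.pp 11 0 12 10 6 7 9 0))) (.sp 2 11 (.sp 2 9 (.pp 11 10 12 2 9 8 7 6) (.sp 0 9 (.sp 4 9 (.bt 9) (.sp 0 12 (.sp 0 7 (.pp 11 2 12 10 1 8 7 0) (.sp 1 7 (.pp 11 2 12 10 1 7 9 0) (.bt 7))) (.pp 6 4 10 2 0 9 12 0))) (.bt 9))) (.bt 11))))) (.bt 8)) (.bt 8)) (.bt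 8)))))) (.bt 6)) (.bt 6))))) (.bt 10)) (.bt 10)) (.bt 10)))))))))),
    ([1, 22, 40],
      .sp 1 6 (.sp 2 6 (.sp 3 6 (.bt 6) (.sp 4 6 (.sp 1 11 (.sp 1 9 (.pp 11 10 12 1 9 8 7 6) (.sp 2 9 (.bt 9) (.sp 2 11 (.sp 3 11 (.bt 11) (.sp 4 9 (.bt 9) (.sp 4 11 (.sp 3 9 (.sp 0 7 (.pp 11 1 2 4 3 9 7 0) (.sp 0 8 (.sp 0 10 (.sp 0 12 (.pp 6 4 7 1 0 12 9 0) (.pp 11 4 12 1 0 8 7 0)) (.pp 11 4 10 1 0 8 7 0)) (.bt 8))) (.sp 0 8 (.bt 9) (.sp 0 9 (.sp 3 7 (.pp 11 1 2 4 3 7 9 0) (.sp 0 7 (.sp 0 10 (.sp 0 12 (.sp 3 8 (.pp 11 1 2 4 3 8 7 0) (.bt 8)) (.pp 11 4 12 1 0 7 8 0)) (.pp 11 4 10 1 0 7 8 0)) (.bt 7))) (.bt 9)))) (.bt 11)))) (.bt 11)))) (.sp 2 11 (.bt 11) (.sp 4 11 (.bt 11) (.sp 5 12 (.sp 0 10 (.bt 11) (.sp 0 11 (.sp 1 12 (.bt 12) (.sp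 0 9 (.pp 6 1 7 10 11 12 9 0) (.sp 0 7 (.sp 1 9 (.sp 2 9 (.sp 2 12 (.bt 12) (.sp 3 9 (.bt 9) (.sp 3 10 (.sp 3 8 (.pp 9 1 2 8 3 10 7 0) (.sp 0 8 (.sp 3 12 (.sp 4 9 (.pp 3 10 12 4 9 1 7 6) (.bt 9)) (.bt 12)) (.bt 8))) (.bt 10)))) (.bt 9)) (.pp 6 1 7 10 11 12 9 0)) (.pp 11 0 12 10 6 7 9 0)))) (.bt 11))) (.sp 3 12 (.bt 12) (.sp 0 12 (.sp 0 9 (.pp 6 1 2 10 11 12 9 0) (.sp 1 9 (.sp 2 9 (.sp 3 9 (.bt 9) (.sp 3 10 (.bt 11) (.sp 0 10 (.sp 3 11 (.sp 0 7 (.pp 11 3 12 10 6 7 9 0) (.sp 0 8 (.sp 3 7 (.sp 4 9 (.pp 9 1 2 4 3 7 10 0) (.bt 9)) (.bt 7)) (.pp 0 10 12 1 9 8 7 6))) (.bt 11)) (.bt 10)))) (.bt 9)) (.pp 6 1 7 10 11 12 9 0))) (.sp 1 12 (.sp 2 12 (.sp 4 12 (.sp 3 10 (.sp 0 7 (.pp 12 1 2 4 3 10 7 0) (.sp 0 8 (.pp 12 1 2 4 3 10 8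 0) (.sp 0 9 (.pp 6 7 10 8 9 0 12 11) (.sp 0 11 (.pp 11 0 12 10 6 7 9 0) (.bt 11))))) (.sp 0 10 (.sp 3 7 (.pp 12 1 2 4 3 7 10 0) (.sp 0 7 (.sp 0 8 (.sp 3 9 (.pp 6 7 10 8 9 3 12 11) (.sp 1 9 (.sp 2 9 (.sp 3 11 (.pp 11 3 12 10 6 7 9 0) (.bt 11)) (.bt 9)) (.bt 9))) (.pp 0 7 10 1 12 4 8 11)) (.bt 7))) (.bt 10))) (.bt 12)) (.bt 12)) (.bt 12)))))))) (.bt 6))) (.bt 6)) (.sp 2 6 (.bt 6) (.sp 4 6 (.bt 6) (.sp 1 11 (.sp 2 10 (.bt 10) (.sp 2 11 (.sp 3 11 (.bt 11) (.sp 4 10 (.bt 10) (.sp 4 11 (.sp 0 7 (.sp 0 9 (.pp 11 1 2 10 6 7 9 0) (.sp 1 8 (.pp 11 10 12 1 8 9 7 6) (.sp 1 9 (.pp 6 7 10 8 9 1 12 11) (.pp 11 1 12 10 6 7 9 0)))) (.sp 3 7 (.sp 0 6 (.sp 1 7 (.bt 7) (.sp 0 9 (.pp 11 1 12 10 6 7 9 0) (.sp 0 12 (.sp 1 8 (.pp 11 10 12 1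 8 9 7 0) (.sp 1 9 (.pp 6 7 10 8 9 1 12 11) (.pp 11 1 12 10 6 7 9 0))) (.pp 6 0 7 10 11 12 9 0)))) (.bt 6)) (.sp 1 7 (.sp 2 7 (.sp 4 7 (.sp 3 10 (.sp 0 6 (.sp 0 9 (.pp 7 1 2 6 10 3 9 0) (.sp 0 12 (.pp 7 1 2 4 3 10 12 0) (.pp 6 0 7 10 11 12 9 0))) (.bt 6)) (.sp 0 6 (.bt 10) (.sp 0 10 (.sp 3 6 (.sp 0 9 (.pp 11 1 2 10 6 3 9 0) (.sp 3 12 (.pp 7 1 2 4 3 12 10 0) (.sp 0 12 (.sp 3 9 (.sp 0 8 (.sp 1 9 (.bt 9) (.pp 0 10 12 1 7 4 9 6)) (.pp 0 10 12 3 9 8 7 6)) (.pp 6 3 7 10 11 12 9 0)) (.bt 12)))) (.bt 6)) (.bt 10)))) (.bt 7)) (.bt 7)) (.bt 7)))) (.bt 11)))) (.bt 11))) (.sp 2 11 (.bt 11) (.sp 4 11 (.bt 11) (.sp 0 10 (.sp 3 6 (.sp 3 11 (.sp 3 9 (.pp 11 10 12 3 9 8 7 6) (.sp 4 10 (.bt 10) (.sp 5 6 (.sp 5 9 (.bt 9) (.sp 5 11 (.sp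 1 9 (.sp 0 8 (.sp 0 12 (.pp 6 3 5 8 9 1 12 0) (.sp 0 7 (.pp 11 5 12 3 0 7 9 0) (.pp 11 5 12 3 0 8 7 0))) (.bt 8)) (.sp 0 8 (.bt 9) (.sp 0 9 (.sp 1 8 (.sp 2 8 (.sp 4 8 (.sp 0 7 (.sp 0 12 (.sp 4 7 (.bt 7) (.pp 8 1 2 4 3 11 7 0)) (.pp 11 5 12 3 0 7 8 0)) (.sp 0 12 (.sp 1 7 (.sp 2 7 (.pp 7 1 2 6 3 11 9 0) (.bt 7)) (.bt 7)) (.pp 6 5 7 3 0 9 12 0))) (.bt 8)) (.bt 8)) (.bt 8)) (.bt 9)))) (.bt 11))) (.bt 6)))) (.bt 11)) (.bt 6)) (.sp 3 10 (.sp 0 6 (.sp 0 11 (.sp 0 9 (.pp 11 10 12 0 9 8 7 6) (.sp 1 10 (.bt 10) (.sp 2 10 (.bt 10) (.sp 5 6 (.bt 6) (.sp 5 10 (.sp 4 9 (.sp 1 8 (.bt 8) (.sp 1 9 (.sp 2 8 (.bt 8) (.sp 2 9 (.sp 3 8 (.sp 3 12 (.pp 6 0 10 8 9 4 12 0) (.sp 1 12 (.sp 2 12 (.sp 4 12 (.sp 3 7 (.pp 11 0 10 12 4 9 7 0) (.sp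 1 7 (.sp 2 7 (.pp 7 1 2 6 8 3 11 0) (.bt 7)) (.bt 7))) (.bt 12)) (.bt 12)) (.bt 12))) (.bt 8)) (.bt 9))) (.bt 9))) (.sp 1 9 (.bt 9) (.sp 2 9 (.bt 9) (.sp 3 8 (.bt 9) (.sp 1 8 (.sp 2 8 (.sp 3 9 (.sp 4 8 (.sp 5 9 (.sp 4 7 (.pp 9 5 8 3 0 11 7 0) (.sp 1 7 (.bt 7) (.pp 8 4 9 1 0 11 7 0))) (.bt 9)) (.bt 8)) (.bt 9)) (.bt 8)) (.bt 8)))))) (.bt 10)))))) (.bt 11)) (.bt 6)) (.sp 1 10 (.sp 2 10 (.sp 4 10 (.sp 5 8 (.sp 0 6 (.sp 1 8 (.bt 8) (.sp 2 8 (.bt 8) (.sp 3 8 (.sp 0 12 (.pp 10 1 2 6 8 3 12 0) (.sp 3 11 (.sp 0 9 (.sp 1 12 (.sp 1 7 (.sp 2 7 (.pp 7 1 2 6 8 9 11 0) (.bt 7)) (.pp 1 10 12 0 9 8 7 6)) (.bt 12)) (.pp 6 0 7 10 11 12 9 0)) (.sp 0 11 (.sp 0 9 (.pp 11 10 12 0 9 8 7 6) (.sp 1 9 (.sp 2 9 (.sp 4 9 (.sp 5 11 (.bt 11) (.sp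 4 7 (.pp 8 5 9 3 0 11 7 0) (.sp 1 7 (.bt 7) (.pp 9 4 8 1 0 11 7 0)))) (.bt 9)) (.bt 9)) (.bt 9))) (.bt 11)))) (.bt 8)))) (.bt 6)) (.sp 3 8 (.bt 8) (.sp 0 6 (.sp 1 8 (.sp 2 8 (.sp 4 8 (.sp 5 6 (.bt 6) (.sp 1 7 (.sp 2 7 (.sp 3 7 (.bt 7) (.sp 4 7 (.sp 3 12 (.sp 0 9 (.pp 4 7 10 8 9 0 12 11) (.sp 0 11 (.pp 11 0 12 10 4 7 9 0) (.bt 11))) (.sp 0 11 (.pp 6 7 8 10 11 12 3 9) (.sp 3 9 (.pp 6 7 10 8 9 3 12 11) (.sp 0 9 (.sp 3 11 (.pp 7 1 2 4 3 11 9 0) (.bt 11)) (.bt 9))))) (.bt 7))) (.bt 7)) (.sp 2 7 (.bt 7) (.sp 3 7 (.sp 0 9 (.pp 10 1 2 4 3 7 9 0) (.sp 0 11 (.pp 8 4 9 1 0 11 7 0) (.sp 0 12 (.pp 8 1 2 6 7 3 12 0) (.pp 6 0 7 10 11 12 9 0)))) (.bt 7))))) (.bt 8)) (.bt 8)) (.bt 8)) (.sp 3 6 (.sp 5 6 (.sp 1 9 (.sp 0 8 (.sp 2 9 (.sp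 0 7 (.pp 9 1 2 8 6 7 11 0) (.sp 0 11 (.pp 11 10 12 0 8 9 7 6) (.sp 1 7 (.sp 2 7 (.sp 3 9 (.bt 9) (.sp 0 12 (.pp 6 7 10 3 0 12 9 11) (.sp 3 11 (.pp 11 10 12 3 0 8 7 6) (.bt 11)))) (.bt 7)) (.bt 7)))) (.bt 9)) (.bt 8)) (.sp 2 9 (.bt 9) (.sp 4 9 (.bt 9) (.sp 0 8 (.sp 0 12 (.pp 10 1 2 6 8 9 12 0) (.sp 3 9 (.sp 3 11 (.pp 11 10 12 3 9 8 7 6) (.sp 0 11 (.sp 0 7 (.sp 4 7 (.bt 7) (.pp 10 1 2 4 3 9 7 0)) (.pp 11 10 12 0 8 9 7 6)) (.bt 11))) (.bt 9))) (.sp 1 8 (.sp 2 8 (.sp 4 8 (.sp 5 11 (.sp 0 11 (.bt 11) (.sp 3 11 (.sp 0 7 (.pp 11 5 10 3 0 7 8 0) (.sp 0 12 (.sp 1 7 (.sp 0 9 (.pp 11 3 12 10 1 7 9 0) (.sp 2 7 (.sp 3 9 (.pp 1 7 10 8 9 3 12 11) (.bt 9)) (.bt 7))) (.bt 7)) (.pp 6 7 8 5 11 12 0 9))) (.bt 11))) (.sp 0 11 (.sp 0 9 (.sp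 0 7 (.sp 3 12 (.sp 1 12 (.bt 12) (.pp 10 4 6 1 0 9 12 0)) (.pp 6 3 7 10 11 12 9 0)) (.pp 6 7 10 8 9 0 12 11)) (.sp 0 7 (.sp 3 9 (.sp 4 7 (.bt 7) (.pp 10 1 2 4 3 9 7 0)) (.bt 9)) (.pp 11 0 12 10 6 7 9 0))) (.bt 11))) (.bt 8)) (.bt 8)) (.bt 8)))))) (.bt 6)) (.bt 6))))) (.bt 10)) (.bt 10)) (.bt 10)))))))))),
    ([6, 17, 40],
      .sp 1 6 (.sp 2 6 (.sp 3 6 (.bt 6) (.sp 4 6 (.bt 6) (.sp 5 6 (.bt 6) (.sp 5 11 (.sp 0 10 (.sp 1 11 (.bt 11) (.sp 2 11 (.bt 11) (.sp 3 11 (.sp 0 9 (.pp 6 1 2 10 11 3 9 0) (.sp 4 9 (.bt 9) (.sp 4 10 (.sp 3 9 (.sp 0 7 (.pp 6 7 10 8 9 3 12 11) (.sp 0 8 (.sp 1 9 (.bt 9) (.sp 0 12 (.pp 6 1 10 8 9 3 12 0) (.sp 1 12 (.sp 2 9 (.bt 9) (.sp 2 12 (.sp 3 7 (.pp 12 1 2 11 3 7 8 0) (.bt 7)) (.bt 12))) (.bt 12))))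 (.bt 8))) (.sp 0 7 (.pp 11 3 12 10 6 7 9 0) (.sp 1 9 (.sp 2 9 (.sp 3 7 (.pp 10 4 11 0 1 9 7 0) (.bt 7)) (.bt 9)) (.bt 9)))) (.bt 10)))) (.bt 11)))) (.bt 10)) (.sp 3 11 (.bt 11) (.sp 4 11 (.sp 0 10 (.bt 10) (.sp 0 11 (.sp 3 10 (.sp 5 10 (.sp 4 9 (.sp 0 8 (.bt 8) (.sp 0 9 (.pp 9 0 4 8 6 10 12 0) (.bt 9))) (.sp 0 9 (.bt 9) (.sp 0 7 (.sp 4 7 (.sp 3 8 (.pp 7 0 4 6 8 9 12 0) (.sp 0 8 (.sp 4 8 (.sp 1 9 (.sp 1 12 (.pp 1 9 12 0 7 4 10 8) (.sp 2 9 (.pp 9 1 2 8 4 7 10 0) (.bt 9))) (.sp 1 12 (.pp 8 4 9 0 1 12 10 0) (.pp 6 1 7 10 11 12 9 0))) (.bt 8)) (.bt 8))) (.bt 7)) (.pp 11 0 12 10 6 7 9 0)))) (.bt 10)) (.bt 10)) (.bt 11))) (.sp 0 11 (.bt 11) (.sp 1 11 (.sp 1 9 (.pp 11 10 12 1 9 8 7 6) (.sp 2 9 (.bt 9) (.sp 2 11 (.sp 3 9 (.sp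 0 8 (.sp 0 12 (.pp 6 1 2 8 9 3 12 0) (.sp 3 12 (.sp 0 7 (.pp 11 1 2 12 3 9 7 0) (.sp 0 10 (.sp 3 7 (.pp 11 1 2 12 3 7 8 0) (.bt 7)) (.pp 11 10 12 1 0 8 7 6))) (.bt 12))) (.bt 8)) (.sp 0 8 (.bt 9) (.sp 0 9 (.sp 3 8 (.sp 4 9 (.sp 3 7 (.pp 9 4 8 0 1 11 7 0) (.sp 0 7 (.sp 3 10 (.pp 11 1 2 10 3 8 7 0) (.sp 0 10 (.sp 3 12 (.pp 6 1 2 8 9 4 12 0) (.sp 0 12 (.sp 4 7 (.sp 4 10 (.pp 11 1 2 10 4 7 8 0) (.bt 10)) (.bt 7)) (.bt 12))) (.bt 10))) (.bt 7))) (.bt 9)) (.bt 8)) (.bt 9)))) (.bt 11)))) (.bt 11))))))))) (.bt 6)) (.sp 2 6 (.bt 6) (.sp 0 6 (.sp 4 6 (.sp 1 8 (.sp 2 8 (.sp 3 8 (.bt 8) (.sp 5 8 (.bt 8) (.sp 1 11 (.sp 1 7 (.sp 2 7 (.sp 2 10 (.bt 10) (.sp 2 11 (.sp 3 7 (.bt 7) (.sp 3 10 (.sp 0 9 (.pp 7 1 2 6 10 3 9 0) (.sp 0 12 (.pp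 7 1 2 6 10 3 12 0) (.pp 6 0 7 10 11 12 9 0))) (.bt 10))) (.bt 11))) (.bt 7)) (.pp 11 10 12 1 8 9 7 6)) (.sp 2 11 (.bt 11) (.sp 0 11 (.sp 0 9 (.pp 11 10 12 0 9 8 7 6) (.sp 3 9 (.sp 4 11 (.sp 5 9 (.sp 1 7 (.sp 1 10 (.sp 1 12 (.sp 2 7 (.pp 7 1 2 6 4 11 9 0) (.bt 7)) (.pp 11 4 12 0 1 7 9 0)) (.pp 11 4 10 0 1 7 9 0)) (.sp 1 10 (.sp 1 12 (.pp 6 4 7 0 1 12 9 0) (.pp 11 4 12 0 1 8 7 0)) (.pp 11 4 10 0 1 8 7 0))) (.bt 9)) (.bt 11)) (.bt 9))) (.sp 3 10 (.bt 11) (.sp 1 10 (.sp 2 10 (.sp 3 11 (.sp 5 10 (.bt 10) (.sp 5 11 (.sp 3 9 (.sp 0 12 (.sp 3 7 (.sp 1 7 (.bt 7) (.sp 2 7 (.bt 7) (.pp 8 1 2 6 7 3 12 0))) (.pp 6 7 10 8 9 3 12 11)) (.pp 6 0 7 10 11 12 9 0)) (.sp 0 9 (.sp 3 7 (.sp 1 7 (.bt 7) (.sp 0 12 (.pp 8 1 9 6 7 3 12 0) (.sp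 1 12 (.sp 2 7 (.bt 7) (.pp 10 1 2 6 7 3 9 0)) (.bt 12)))) (.pp 11 3 12 10 6 7 9 0)) (.bt 9))) (.bt 11))) (.bt 11)) (.bt 10)) (.bt 10)))))))) (.bt 8)) (.sp 2 8 (.bt 8) (.sp 3 8 (.sp 5 8 (.sp 5 11 (.sp 0 11 (.bt 11) (.sp 1 10 (.sp 2 10 (.sp 0 12 (.pp 10 1 2 6 8 5 12 0) (.sp 0 9 (.sp 1 12 (.sp 1 7 (.sp 2 7 (.pp 7 1 2 6 8 9 11 0) (.bt 7)) (.pp 1 10 12 0 9 8 7 6)) (.bt 12)) (.pp 6 0 7 10 11 12 9 0))) (.bt 10)) (.bt 10))) (.sp 3 11 (.bt 11) (.sp 4 11 (.sp 0 11 (.sp 0 9 (.pp 11 10 12 0 9 8 7 6) (.sp 1 9 (.sp 2 9 (.sp 4 9 (.bt 9) (.sp 1 7 (.sp 1 10 (.sp 1 12 (.sp 2 7 (.sp 2 10 (.sp 2 12 (.sp 3 7 (.bt 7) (.pp 7 1 2 6 8 3 11 0)) (.bt 12)) (.bt 10)) (.bt 7)) (.pp 11 4 12 0 1 7 8 0)) (.pp 11 4 10 0 1 7 8 0)) (.sp 1 10 (.sp 1 12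 (.sp 2 7 (.bt 7) (.pp 9 1 2 8 6 7 11 0)) (.pp 6 4 7 0 1 9 12 0)) (.pp 11 4 10 0 1 9 7 0)))) (.bt 9)) (.bt 9))) (.bt 11)) (.sp 0 11 (.bt 11) (.sp 1 10 (.bt 11) (.sp 1 11 (.sp 2 10 (.bt 10) (.sp 2 11 (.sp 3 10 (.sp 5 10 (.sp 1 9 (.sp 0 12 (.sp 1 7 (.sp 2 7 (.sp 2 9 (.pp 9 1 2 8 3 10 12 0) (.bt 9)) (.bt 7)) (.pp 6 7 10 8 9 1 12 11)) (.pp 6 0 7 10 11 12 9 0)) (.sp 0 9 (.sp 1 7 (.sp 2 7 (.pp 7 1 2 6 8 9 12 0) (.bt 7)) (.pp 11 1 12 10 6 7 9 0)) (.bt 9))) (.bt 10)) (.bt 10)) (.bt 11))) (.bt 11))))))) (.bt 8)) (.bt 8)))) (.bt 6)) (.sp 3 6 (.sp 5 6 (.sp 1 11 (.sp 0 10 (.sp 2 11 (.sp 3 11 (.bt 11) (.sp 0 9 (.pp 11 1 2 10 6 3 9 0) (.sp 4 9 (.bt 9) (.sp 4 10 (.sp 5 11 (.bt 11) (.sp 1 9 (.sp 0 7 (.pp 6 7 10 8 9 1 12 11) (.sp 0 8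 (.sp 1 7 (.sp 2 7 (.sp 2 9 (.pp 9 1 2 8 6 10 12 0) (.bt 9)) (.bt 7)) (.bt 7)) (.bt 8))) (.sp 0 7 (.pp 11 1 12 10 6 7 9 0) (.sp 1 7 (.sp 2 7 (.sp 2 9 (.bt 9) (.sp 0 8 (.pp 7 1 2 6 8 9 12 0) (.sp 1 8 (.sp 2 8 (.sp 3 9 (.sp 0 12 (.pp 0 10 12 3 9 8 7 6) (.sp 3 12 (.pp 8 1 2 9 3 12 10 0) (.bt 12))) (.bt 9)) (.bt 8)) (.bt 8)))) (.bt 7)) (.bt 7))))) (.bt 10))))) (.bt 11)) (.bt 10)) (.sp 2 11 (.bt 11) (.sp 0 11 (.sp 1 10 (.sp 2 10 (.sp 4 10 (.bt 10) (.sp 4 11 (.sp 0 9 (.sp 0 7 (.sp 1 8 (.sp 2 8 (.sp 3 12 (.sp 1 12 (.bt 12) (.sp 2 12 (.bt 12) (.pp 10 1 2 6 3 12 9 0))) (.pp 6 3 7 10 11 12 9 0)) (.bt 8)) (.bt 8)) (.pp 6 7 10 8 9 0 12 11)) (.sp 0 7 (.sp 4 7 (.sp 4 9 (.bt 9) (.sp 1 9 (.sp 0 8 (.sp 1 12 (.sp 2 9 (.pp 9 1 2 8 6 7 11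 0) (.bt 9)) (.pp 1 9 10 0 7 4 12 6)) (.bt 8)) (.sp 1 12 (.pp 1 10 12 0 7 4 9 6) (.sp 2 8 (.pp 10 1 2 6 7 4 9 0) (.sp 0 8 (.sp 2 9 (.bt 9) (.pp 10 1 2 6 7 4 9 0)) (.bt 8)))))) (.bt 7)) (.pp 11 0 12 10 6 7 9 0))) (.bt 11))) (.bt 10)) (.bt 10)) (.sp 3 11 (.sp 3 9 (.pp 11 10 12 3 9 8 7 6) (.sp 5 9 (.bt 9) (.sp 5 11 (.sp 1 9 (.sp 0 8 (.sp 0 12 (.pp 6 3 5 8 9 1 12 0) (.sp 0 7 (.pp 11 5 12 3 0 7 9 0) (.pp 11 5 12 3 0 8 7 0))) (.bt 8)) (.sp 0 8 (.bt 9) (.sp 0 9 (.sp 1 8 (.sp 2 8 (.sp 4 8 (.bt 8) (.sp 4 9 (.sp 0 7 (.sp 0 10 (.sp 0 12 (.sp 4 7 (.pp 8 1 2 6 7 4 11 0) (.bt 7)) (.pp 11 5 12 3 0 7 8 0)) (.pp 11 5 10 3 0 7 8 0)) (.sp 0 10 (.sp 0 12 (.sp 1 7 (.sp 2 7 (.pp 7 1 2 6 3 11 9 0) (.bt 7)) (.bt 7)) (.pp 6 5 7 3 0 9 12 0)) (.pp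 11 5 10 3 0 9 7 0))) (.bt 9))) (.bt 8)) (.bt 8)) (.bt 9)))) (.bt 11)))) (.bt 11))))) (.bt 6)) (.bt 6))))),
    ([14, 16, 33],
      .sp 1 6 (.sp 2 6 (.sp 3 6 (.sp 5 6 (.bt 6) (.sp 1 11 (.sp 1 9 (.pp 11 10 12 1 9 8 7 6) (.sp 2 9 (.bt 9) (.sp 2 11 (.sp 3 9 (.bt 9) (.sp 3 11 (.sp 5 11 (.bt 11) (.sp 4 9 (.sp 0 8 (.sp 4 7 (.pp 11 1 2 3 4 7 8 0) (.pp 11 1 2 3 4 9 7 0)) (.bt 8)) (.sp 0 8 (.bt 9) (.sp 0 9 (.sp 4 7 (.pp 11 1 2 3 4 7 9 0) (.sp 0 7 (.sp 4 8 (.pp 11 1 2 3 4 8 7 0) (.bt 8)) (.bt 7))) (.bt 9))))) (.bt 11))) (.bt 11)))) (.sp 2 11 (.bt 11) (.sp 3 11 (.bt 11) (.sp 0 12 (.sp 0 9 (.pp 6 1 2 10 11 12 9 0) (.sp 1 9 (.sp 2 9 (.sp 3 9 (.sp 4 10 (.bt 11) (.sp 0 10 (.sp 4 7 (.pp 9 1 2 3 4 7 10 0) (.sp 0 7 (.sp 4 11 (.pp 9 1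 2 3 4 11 7 0) (.bt 11)) (.bt 7))) (.bt 10))) (.bt 9)) (.bt 9)) (.pp 6 1 7 10 11 12 9 0))) (.sp 5 12 (.bt 12) (.sp 4 12 (.sp 0 9 (.pp 6 3 7 10 11 12 9 0) (.sp 0 10 (.bt 11) (.sp 0 11 (.sp 0 7 (.sp 1 12 (.bt 12) (.sp 1 9 (.sp 2 9 (.sp 2 12 (.bt 12) (.sp 3 9 (.sp 4 7 (.bt 7) (.pp 9 1 2 3 4 12 7 0)) (.bt 9))) (.bt 9)) (.pp 6 1 7 10 11 12 9 0))) (.pp 11 0 12 10 6 7 9 0)) (.bt 11)))) (.sp 1 12 (.sp 2 12 (.sp 3 12 (.sp 4 10 (.sp 0 10 (.bt 10) (.sp 0 11 (.sp 4 7 (.sp 0 7 (.bt 7) (.sp 0 8 (.pp 11 10 12 0 8 9 7 1) (.sp 0 9 (.pp 6 7 10 8 9 0 12 11) (.pp 11 0 12 10 6 7 9 0)))) (.pp 12 1 2 3 4 10 7 0)) (.bt 11))) (.sp 0 10 (.sp 4 7 (.pp 12 1 2 3 4 7 10 0) (.sp 0 7 (.sp 4 8 (.pp 12 1 2 3 4 8 7 0) (.sp 0 8 (.sp 4 9 (.pp 0 7 10 8 9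 4 12 11) (.sp 1 9 (.sp 2 9 (.sp 3 9 (.sp 4 11 (.pp 9 1 2 3 4 11 7 0) (.bt 11)) (.bt 9)) (.bt 9)) (.bt 9))) (.bt 8))) (.bt 7))) (.bt 10))) (.bt 12)) (.bt 12)) (.bt 12))))))))) (.bt 6)) (.bt 6)) (.sp 2 6 (.bt 6) (.sp 3 6 (.bt 6) (.sp 0 6 (.sp 4 6 (.bt 6) (.sp 5 6 (.sp 1 11 (.sp 2 10 (.bt 10) (.sp 2 11 (.sp 3 10 (.bt 10) (.sp 3 11 (.sp 4 10 (.sp 5 11 (.bt 11) (.sp 1 9 (.sp 0 12 (.sp 1 7 (.sp 2 7 (.sp 2 8 (.bt 8) (.sp 2 9 (.pp 9 1 2 8 6 10 12 0) (.bt 9))) (.bt 7)) (.pp 6 7 10 8 9 1 12 11)) (.pp 6 0 7 10 11 12 9 0)) (.sp 1 7 (.sp 2 7 (.sp 2 9 (.bt 9) (.sp 3 7 (.sp 3 9 (.bt 9) (.sp 4 8 (.pp 7 1 2 3 4 10 9 0) (.sp 1 8 (.sp 2 8 (.sp 3 8 (.sp 4 9 (.pp 11 1 2 3 4 9 6 0) (.pp 7 1 2 3 4 10 9 0)) (.bt 8)) (.bt 8)) (.bt 8)))) (.bt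 7))) (.bt 7)) (.pp 11 1 12 10 6 7 9 0)))) (.bt 10)) (.bt 11))) (.bt 11))) (.sp 2 11 (.bt 11) (.sp 3 11 (.bt 11) (.sp 1 8 (.sp 2 8 (.sp 3 8 (.sp 4 10 (.sp 0 11 (.sp 0 9 (.pp 11 10 12 0 9 8 7 6) (.sp 1 10 (.bt 10) (.sp 2 10 (.bt 10) (.sp 4 9 (.sp 5 11 (.sp 1 7 (.pp 11 5 10 0 1 7 9 0) (.pp 11 5 10 0 1 8 7 0)) (.bt 11)) (.bt 9))))) (.bt 11)) (.sp 1 10 (.sp 2 10 (.sp 3 10 (.sp 0 11 (.sp 0 9 (.pp 11 10 12 0 9 8 7 6) (.sp 4 9 (.sp 3 12 (.pp 6 0 10 8 9 4 12 0) (.sp 1 12 (.bt 12) (.sp 2 12 (.bt 12) (.sp 4 11 (.bt 11) (.sp 4 12 (.sp 3 7 (.pp 11 0 10 12 4 9 7 0) (.sp 1 7 (.bt 7) (.sp 2 7 (.bt 7) (.sp 4 7 (.pp 8 1 2 3 4 7 11 0) (.bt 7))))) (.bt 12)))))) (.bt 9))) (.sp 4 11 (.sp 5 12 (.sp 0 12 (.sp 1 7 (.sp 2 7 (.sp 3 7 (.sp 4 9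 (.pp 1 7 10 8 9 4 12 11) (.pp 7 1 2 3 4 11 9 0)) (.bt 7)) (.bt 7)) (.pp 1 8 10 0 12 5 7 9)) (.bt 12)) (.sp 0 12 (.bt 12) (.sp 0 9 (.sp 1 12 (.sp 2 12 (.sp 3 12 (.sp 4 9 (.bt 9) (.sp 3 7 (.pp 11 4 12 10 6 7 9 0) (.sp 1 7 (.bt 7) (.sp 2 7 (.bt 7) (.sp 4 7 (.pp 10 1 2 3 4 7 9 0) (.bt 7)))))) (.bt 12)) (.bt 12)) (.bt 12)) (.pp 6 0 7 10 11 12 9 0)))) (.bt 11))) (.bt 10)) (.bt 10)) (.bt 10))) (.bt 8)) (.bt 8)) (.sp 2 8 (.bt 8) (.sp 3 8 (.bt 8) (.sp 4 8 (.sp 4 11 (.sp 0 11 (.bt 11) (.sp 1 10 (.sp 2 10 (.sp 0 12 (.pp 10 1 2 6 8 4 12 0) (.sp 0 9 (.sp 1 12 (.sp 1 7 (.sp 2 7 (.pp 7 1 2 6 8 9 11 0) (.bt 7)) (.pp 1 10 12 0 9 8 7 6)) (.bt 12)) (.pp 6 0 7 10 11 12 9 0))) (.bt 10)) (.bt 10))) (.sp 0 11 (.sp 0 9 (.pp 11 10 12 0 9 8 7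 6) (.sp 1 9 (.sp 2 9 (.sp 3 9 (.sp 5 9 (.bt 9) (.sp 5 11 (.sp 3 7 (.sp 1 7 (.sp 1 10 (.sp 1 12 (.sp 2 7 (.pp 7 1 2 3 4 8 11 0) (.bt 7)) (.pp 11 5 12 0 1 7 8 0)) (.pp 11 5 10 0 1 7 8 0)) (.bt 7)) (.sp 1 7 (.bt 7) (.pp 9 1 3 8 6 7 11 0))) (.bt 11))) (.bt 9)) (.bt 9)) (.bt 9))) (.bt 11))) (.bt 8)))))))) (.bt 6))) (.sp 4 6 (.sp 1 11 (.sp 0 10 (.sp 2 11 (.sp 3 11 (.sp 5 10 (.sp 3 9 (.sp 0 7 (.pp 6 7 10 8 9 3 12 11) (.sp 0 8 (.sp 1 7 (.sp 1 9 (.pp 9 1 3 8 6 10 12 0) (.bt 9)) (.bt 7)) (.bt 8))) (.sp 0 7 (.pp 11 3 12 10 6 7 9 0) (.sp 1 7 (.sp 1 9 (.bt 9) (.sp 2 7 (.sp 2 9 (.bt 9) (.sp 0 8 (.pp 7 1 2 6 8 9 12 0) (.sp 1 8 (.sp 2 8 (.sp 3 7 (.sp 3 8 (.sp 4 9 (.pp 7 1 2 3 4 9 10 0) (.pp 11 1 2 3 4 6 9 0)) (.bt 8)) (.bt 7)) (.bt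 8)) (.bt 8)))) (.bt 7))) (.bt 7)))) (.bt 10)) (.bt 11)) (.bt 11)) (.bt 10)) (.sp 2 11 (.bt 11) (.sp 3 11 (.bt 11) (.sp 5 8 (.sp 0 8 (.sp 0 11 (.sp 0 7 (.sp 1 10 (.sp 2 10 (.sp 3 10 (.sp 4 11 (.bt 11) (.sp 5 7 (.sp 5 10 (.bt 10) (.sp 5 11 (.sp 3 9 (.sp 1 9 (.pp 6 4 7 8 9 1 11 0) (.bt 9)) (.sp 1 9 (.bt 9) (.pp 10 1 3 6 7 5 9 0))) (.bt 11))) (.bt 7))) (.bt 10)) (.bt 10)) (.bt 10)) (.pp 11 10 12 0 8 9 7 6)) (.sp 4 11 (.sp 4 9 (.pp 11 10 12 4 9 8 7 6) (.sp 1 9 (.sp 2 9 (.sp 0 7 (.pp 9 1 2 8 6 7 11 0) (.sp 0 12 (.pp 9 1 2 8 6 4 12 0) (.sp 0 10 (.pp 11 4 12 10 0 8 7 0) (.sp 1 7 (.sp 1 10 (.sp 1 12 (.sp 2 7 (.sp 2 10 (.sp 2 12 (.sp 3 7 (.pp 7 1 2 3 4 11 8 0) (.bt 7)) (.bt 12)) (.bt 10)) (.bt 7)) (.bt 12)) (.bt 10)) (.bt 7)))))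 (.bt 9)) (.bt 9))) (.bt 11))) (.bt 8)) (.sp 0 8 (.bt 8) (.sp 1 8 (.sp 2 8 (.sp 3 8 (.sp 5 10 (.sp 0 10 (.sp 4 11 (.sp 0 7 (.pp 8 1 2 3 4 11 7 0) (.sp 0 12 (.sp 1 7 (.sp 2 7 (.pp 7 1 2 6 10 11 9 0) (.bt 7)) (.bt 7)) (.pp 6 7 8 4 11 12 0 9))) (.bt 11)) (.bt 10)) (.sp 0 10 (.bt 10) (.sp 1 10 (.sp 2 10 (.sp 3 10 (.sp 5 7 (.sp 0 7 (.sp 4 9 (.pp 10 1 2 3 4 9 7 0) (.sp 0 9 (.sp 3 12 (.pp 6 4 10 7 0 9 12 0) (.sp 1 12 (.bt 12) (.sp 2 12 (.bt 12) (.sp 4 11 (.pp 8 1 2 3 4 11 7 0) (.sp 0 11 (.sp 4 12 (.pp 1 8 10 0 7 5 12 9) (.bt 12)) (.bt 11)))))) (.bt 9))) (.bt 7)) (.sp 0 7 (.bt 7) (.sp 1 7 (.sp 2 7 (.sp 3 7 (.sp 0 11 (.sp 0 9 (.pp 6 7 10 8 9 0 12 11) (.pp 11 0 12 10 6 7 9 0)) (.sp 0 12 (.sp 4 11 (.sp 4 9 (.pp 1 7 10 8 9 4 12 11)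 (.pp 7 1 2 3 4 11 9 0)) (.bt 11)) (.pp 6 7 8 10 11 12 0 9))) (.bt 7)) (.bt 7)) (.bt 7)))) (.bt 10)) (.bt 10)) (.bt 10)))) (.bt 8)) (.bt 8)) (.bt 8))))))) (.bt 6)))))),
    ([14, 17, 32],
      .sp 1 6 (.sp 2 6 (.sp 3 6 (.sp 5 6 (.bt 6) (.sp 1 11 (.sp 1 9 (.pp 11 10 12 1 9 8 7 6) (.sp 2 9 (.bt 9) (.sp 2 11 (.sp 3 9 (.bt 9) (.sp 3 11 (.sp 5 11 (.bt 11) (.sp 4 9 (.sp 0 8 (.bt 8) (.sp 0 9 (.sp 4 7 (.pp 11 1 2 3 4 7 8 0) (.pp 11 1 2 3 4 9 7 0)) (.bt 9))) (.sp 0 9 (.bt 9) (.sp 4 7 (.pp 11 1 2 3 4 7 9 0) (.sp 0 7 (.bt 7) (.sp 4 8 (.pp 11 1 2 3 4 8 7 0) (.sp 0 8 (.bt 8) (.pp 1 0 11 6 8 9 4 0)))))))) (.bt 11))) (.bt 11)))) (.sp 2 11 (.bt 11) (.sp 3 11 (.bt 11) (.sp 0 12 (.sp 0 9 (.pp 6 1 2 10 11 12 9 0) (.sp 1 9 (.sp 2 9 (.sp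 3 9 (.sp 4 11 (.bt 11) (.sp 4 7 (.pp 9 1 2 3 4 7 11 0) (.sp 0 7 (.bt 7) (.sp 0 10 (.sp 0 8 (.sp 4 8 (.sp 4 10 (.pp 9 1 2 3 4 10 7 0) (.bt 10)) (.bt 8)) (.pp 0 10 12 1 9 8 7 6)) (.pp 0 1 2 12 11 10 7 0))))) (.bt 9)) (.bt 9)) (.pp 6 1 7 10 11 12 9 0))) (.sp 4 12 (.bt 12) (.sp 3 12 (.sp 1 12 (.sp 2 12 (.sp 5 12 (.bt 12) (.sp 4 10 (.sp 0 10 (.sp 4 7 (.sp 0 7 (.sp 4 8 (.sp 0 8 (.sp 5 9 (.pp 0 7 10 8 9 5 12 11) (.sp 1 9 (.sp 2 9 (.pp 9 1 2 8 4 7 11 0) (.bt 9)) (.bt 9))) (.bt 8)) (.pp 4 7 10 3 12 1 8 11)) (.bt 7)) (.pp 12 1 2 3 4 10 7 0)) (.bt 10)) (.sp 0 10 (.bt 10) (.sp 4 7 (.pp 12 1 2 3 4 7 10 0) (.sp 0 7 (.bt 7) (.sp 0 9 (.pp 6 7 10 8 9 0 12 11) (.sp 0 11 (.pp 11 0 12 10 6 7 9 0) (.sp 0 8 (.sp 1 9 (.pp 1 0 9 12 11 10 7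 0) (.sp 2 9 (.bt 9) (.sp 3 9 (.bt 9) (.sp 4 8 (.pp 8 4 9 0 1 12 7 0) (.bt 8))))) (.pp 6 7 8 10 11 12 0 9))))))))) (.bt 12)) (.bt 12)) (.sp 0 9 (.pp 6 3 7 10 11 12 9 0) (.sp 1 12 (.bt 12) (.sp 1 9 (.sp 2 9 (.sp 2 12 (.bt 12) (.sp 3 9 (.sp 4 7 (.pp 9 1 2 3 4 7 12 0) (.sp 0 7 (.bt 7) (.sp 0 10 (.pp 0 1 2 10 11 12 7 0) (.sp 0 11 (.pp 11 10 12 0 1 9 7 6) (.sp 0 8 (.sp 4 8 (.sp 4 10 (.bt 10) (.sp 4 11 (.bt 11) (.pp 1 0 9 6 10 11 4 0))) (.bt 8)) (.pp 6 7 8 10 11 12 0 9)))))) (.bt 9))) (.bt 9)) (.pp 6 1 7 10 11 12 9 0))))))))))) (.bt 6)) (.bt 6)) (.sp 2 6 (.bt 6) (.sp 3 6 (.bt 6) (.sp 0 6 (.sp 4 6 (.sp 1 11 (.sp 2 10 (.bt 10) (.sp 2 11 (.sp 3 10 (.bt 10) (.sp 3 11 (.sp 5 10 (.sp 3 9 (.sp 0 12 (.sp 1 8 (.bt 8) (.sp 1 9 (.pp 9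 1 3 8 6 10 12 0) (.bt 9))) (.pp 6 0 7 10 11 12 9 0)) (.sp 1 9 (.bt 9) (.sp 1 7 (.sp 2 7 (.sp 2 9 (.bt 9) (.sp 3 7 (.sp 4 9 (.pp 7 1 2 3 4 9 10 0) (.pp 11 1 2 3 4 6 9 0)) (.bt 7))) (.bt 7)) (.pp 11 1 12 10 6 7 9 0)))) (.bt 10)) (.bt 11))) (.bt 11))) (.sp 2 11 (.bt 11) (.sp 3 11 (.bt 11) (.sp 5 10 (.sp 0 11 (.sp 0 9 (.pp 11 10 12 0 9 8 7 6) (.sp 1 10 (.bt 10) (.sp 2 10 (.bt 10) (.sp 3 10 (.bt 10) (.sp 4 9 (.bt 9) (.sp 4 11 (.sp 1 9 (.sp 1 7 (.pp 11 4 10 0 1 7 8 0) (.pp 11 4 10 0 1 9 7 0)) (.sp 1 7 (.pp 11 4 10 0 1 7 9 0) (.sp 1 8 (.pp 11 4 10 0 1 8 7 0) (.sp 1 12 (.pp 6 4 7 0 1 12 9 0) (.pp 6 7 8 4 11 12 1 9))))) (.bt 11))))))) (.bt 11)) (.sp 1 10 (.sp 2 10 (.sp 3 10 (.sp 1 8 (.sp 2 8 (.sp 3 8 (.sp 5 8 (.bt 8) (.sp 0 11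 (.sp 0 9 (.pp 11 10 12 0 9 8 7 6) (.sp 4 9 (.bt 9) (.sp 4 11 (.sp 5 7 (.pp 11 0 10 4 5 7 8 0) (.sp 1 7 (.sp 1 12 (.sp 2 7 (.pp 7 1 2 6 4 11 9 0) (.bt 7)) (.pp 11 4 12 0 1 7 9 0)) (.bt 7))) (.bt 11)))) (.sp 4 11 (.bt 11) (.sp 5 11 (.sp 3 12 (.sp 0 9 (.sp 1 12 (.sp 2 12 (.sp 4 9 (.sp 1 7 (.sp 2 7 (.pp 7 1 2 6 4 9 11 0) (.bt 7)) (.pp 1 10 12 0 9 4 7 6)) (.bt 9)) (.bt 12)) (.bt 12)) (.pp 6 0 7 10 11 12 9 0)) (.sp 0 12 (.sp 4 12 (.sp 1 7 (.sp 2 7 (.sp 3 7 (.sp 4 9 (.pp 7 1 2 3 4 9 11 0) (.pp 7 1 2 3 4 12 9 0)) (.bt 7)) (.bt 7)) (.pp 1 8 10 0 12 4 7 9)) (.bt 12)) (.bt 12))) (.bt 11))))) (.bt 8)) (.bt 8)) (.sp 2 8 (.bt 8) (.sp 3 8 (.bt 8) (.sp 5 8 (.sp 4 9 (.sp 0 9 (.sp 0 11 (.pp 11 10 12 0 9 8 7 6) (.sp 0 12 (.pp 10 1 2 6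 8 9 12 0) (.sp 1 7 (.sp 1 12 (.sp 2 7 (.pp 7 1 2 6 8 9 11 0) (.bt 7)) (.pp 1 7 10 0 9 8 12 11)) (.pp 9 4 8 0 1 10 7 0)))) (.bt 9)) (.sp 0 9 (.bt 9) (.sp 1 9 (.sp 2 9 (.sp 3 9 (.sp 4 11 (.sp 0 11 (.sp 5 7 (.pp 11 0 10 4 5 7 9 0) (.pp 11 0 10 4 5 8 7 0)) (.bt 11)) (.pp 9 1 2 3 4 6 11 0)) (.bt 9)) (.bt 9)) (.bt 9)))) (.bt 8))))) (.bt 10)) (.bt 10)) (.bt 10)))))) (.bt 6)) (.sp 4 6 (.bt 6) (.sp 5 6 (.sp 1 11 (.sp 0 10 (.sp 2 11 (.sp 3 11 (.sp 4 10 (.sp 5 11 (.bt 11) (.sp 1 9 (.sp 0 7 (.pp 6 7 10 8 9 1 12 11) (.sp 0 8 (.sp 1 7 (.sp 2 7 (.sp 2 9 (.pp 9 1 2 8 6 10 12 0) (.bt 9)) (.bt 7)) (.bt 7)) (.bt 8))) (.sp 0 7 (.pp 11 1 12 10 6 7 9 0) (.sp 1 7 (.sp 2 7 (.sp 2 9 (.bt 9) (.sp 0 8 (.pp 7 1 2 6 8 9 12 0) (.sp 1 8 (.sp 2 8 (.sp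 3 7 (.sp 3 8 (.sp 4 9 (.pp 11 1 2 3 4 9 6 0) (.pp 7 1 2 3 4 10 9 0)) (.bt 8)) (.bt 7)) (.bt 8)) (.bt 8)))) (.bt 7)) (.bt 7))))) (.bt 10)) (.bt 11)) (.bt 11)) (.bt 10)) (.sp 2 11 (.bt 11) (.sp 3 11 (.bt 11) (.sp 1 8 (.sp 2 8 (.sp 3 8 (.sp 0 11 (.sp 1 10 (.sp 2 10 (.sp 3 10 (.sp 4 11 (.sp 0 9 (.sp 0 7 (.sp 4 7 (.sp 1 12 (.sp 2 12 (.sp 3 12 (.sp 4 9 (.pp 9 0 4 8 6 10 12 0) (.bt 9)) (.bt 12)) (.bt 12)) (.pp 1 8 10 0 7 4 12 9)) (.bt 7)) (.pp 6 7 10 8 9 0 12 11)) (.sp 0 7 (.sp 4 7 (.sp 1 12 (.sp 2 12 (.sp 3 12 (.sp 4 9 (.bt 9) (.pp 1 10 12 0 7 4 9 6)) (.bt 12)) (.bt 12)) (.pp 1 8 10 0 7 4 12 9)) (.bt 7)) (.pp 11 0 12 10 6 7 9 0))) (.bt 11)) (.bt 10)) (.bt 10)) (.bt 10)) (.sp 4 11 (.bt 11) (.sp 5 11 (.sp 5 9 (.pp 11 10 12 5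 9 8 7 6) (.sp 0 9 (.sp 4 9 (.sp 3 7 (.pp 9 0 8 4 5 11 7 0) (.sp 0 7 (.sp 4 7 (.pp 8 1 2 3 4 7 11 0) (.bt 7)) (.bt 7))) (.bt 9)) (.bt 9))) (.bt 11)))) (.bt 8)) (.bt 8)) (.sp 0 8 (.sp 4 8 (.sp 0 11 (.sp 0 7 (.sp 1 10 (.sp 2 10 (.sp 3 10 (.sp 4 7 (.sp 4 11 (.sp 1 9 (.sp 1 12 (.sp 2 9 (.pp 9 1 2 8 6 7 11 0) (.bt 9)) (.pp 1 9 10 0 7 4 12 6)) (.sp 1 12 (.pp 1 10 12 0 7 4 9 6) (.pp 8 4 9 0 1 10 12 0))) (.bt 11)) (.bt 7)) (.bt 10)) (.bt 10)) (.bt 10)) (.pp 11 10 12 0 8 9 7 6)) (.sp 4 11 (.bt 11) (.sp 5 11 (.sp 5 9 (.pp 11 10 12 5 9 8 7 6) (.sp 1 9 (.sp 2 9 (.sp 0 7 (.pp 9 1 2 8 6 7 11 0) (.sp 0 12 (.pp 9 1 2 8 6 5 12 0) (.sp 0 10 (.pp 11 5 12 10 0 8 7 0) (.sp 1 7 (.sp 1 10 (.sp 1 12 (.sp 2 7 (.sp 2 10 (.sp 2 12 (.sp 3 7 (.pp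 7 1 2 3 4 8 11 0) (.bt 7)) (.bt 12)) (.bt 10)) (.bt 7)) (.bt 12)) (.bt 10)) (.bt 7))))) (.bt 9)) (.bt 9))) (.bt 11)))) (.bt 8)) (.bt 8)))))) (.bt 6))))))),
    ([17, 38, 46],
      .sp 4 6 (.sp 0 6 (.sp 1 7 (.sp 1 8 (.sp 0 9 (.sp 0 11 (.pp 11 10 12 0 9 8 7 6) (.sp 1 10 (.bt 11) (.bt 10))) (.bt 9)) (.bt 8)) (.bt 7)) (.bt 6)) (.sp 0 6 (.bt 6) (.sp 1 6 (.sp 0 7 (.sp 0 8 (.sp 0 10 (.sp 1 9 (.sp 1 11 (.pp 11 10 12 1 9 8 7 6) (.bt 11)) (.bt 9)) (.bt 10)) (.bt 8)) (.bt 7)) (.bt 6)))),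
    ([1, 6],
      .sp 3 6 (.bt 6) (.sp 3 7 (.bt 7) (.sp 3 8 (.bt 8) (.sp 3 9 (.bt 9) (.sp 3 10 (.bt 10) (.sp 3 11 (.bt 11) (.sp 0 12 (.pp 6 7 8 10 11 12 3 9) (.sp 1 11 (.bt 12) (.sp 0 10 (.bt 11) (.sp 0 11 (.sp 1 6 (.bt 10) (.sp 0 6 (.sp 0 9 (.pp 11 10 12 0 9 8 7 6) (.sp 1 7 (.sp 1 8 (.bt 9) (.bt 8)) (.bt 7))) (.bt 6))) (.bt 11))))))))))),
    ([1, 8],
      .sp 1 6 (.bt 6) (.sp 1 7 (.bt 7) (.sp 1 8 (.bt 8) (.sp 1 9 (.bt 9) (.sp 1 10 (.bt 10) (.sp 1 11 (.bt 11) (.sp 0 12 (.pp 6 7 8 10 11 12 1 9) (.sp 1 12 (.bt 12) (.pp 6 7 8 10 11 12 1 9))))))))),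
    ([1, 32],
      .sp 1 6 (.bt 6) (.sp 1 7 (.bt 7) (.sp 1 8 (.bt 8) (.sp 1 9 (.bt 9) (.sp 1 10 (.bt 10) (.sp 1 11 (.bt 11) (.sp 0 12 (.pp 6 7 8 10 11 12 1 9) (.sp 1 12 (.bt 12) (.pp 6 7 8 10 11 12 1 9))))))))),
    ([2, 4],
      .sp 0 6 (.bt 6) (.sp 0 7 (.bt 7) (.sp 0 8 (.bt 8) (.sp 0 9 (.bt 9) (.sp 0 10 (.bt 10) (.sp 0 11 (.bt 11) (.sp 0 12 (.bt 12) (.pp 6 7 8 10 11 12 0 9)))))))),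
    ([2, 20],
      .sp 0 6 (.bt 6) (.sp 0 7 (.bt 7) (.sp 0 8 (.bt 8) (.sp 0 9 (.bt 9) (.sp 0 10 (.bt 10) (.sp 0 11 (.bt 11) (.sp 0 12 (.bt 12) (.pp 6 7 8 10 11 12 0 9)))))))),
    ([2, 44],
      .sp 0 6 (.bt 6) (.sp 0 7 (.bt 7) (.sp 0 8 (.bt 8) (.sp 0 9 (.bt 9) (.sp 0 10 (.bt 10) (.sp 0 11 (.bt 11) (.sp 0 12 (.bt 12) (.pp 6 7 8 10 11 12 0 9)))))))),
    ([4, 18],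
      .sp 0 6 (.bt 6) (.sp 0 7 (.bt 7) (.sp 0 8 (.bt 8) (.sp 0 9 (.bt 9) (.sp 0 10 (.bt 10) (.sp 0 11 (.bt 11) (.sp 0 12 (.bt 12) (.pp 6 7 8 10 11 12 0 9)))))))),
    ([4, 42],
      .sp 0 6 (.bt 6) (.sp 0 7 (.bt 7) (.sp 0 8 (.bt 8) (.sp 0 9 (.bt 9) (.sp 0 10 (.bt 10) (.sp 0 11 (.bt 11) (.sp 0 12 (.bt 12) (.pp 6 7 8 10 11 12 0 9)))))))),
    ([6, 16],
      .sp 0 6 (.bt 6) (.sp 0 7 (.bt 7) (.sp 0 8 (.bt 8) (.sp 0 9 (.bt 9) (.sp 0 10 (.bt 10) (.sp 0 11 (.bt 11) (.sp 0 12 (.bt 12) (.pp 6 7 8 10 11 12 0 9)))))))),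
    ([8, 38],
      .sp 0 6 (.bt 6) (.sp 0 7 (.bt 7) (.sp 0 8 (.bt 8) (.sp 0 9 (.bt 9) (.sp 0 10 (.bt 10) (.sp 0 11 (.bt 11) (.sp 0 12 (.bt 12) (.pp 6 7 8 10 11 12 0 9)))))))),
    ([10, 36],
      .sp 0 6 (.bt 6) (.sp 0 7 (.bt 7) (.sp 0 8 (.bt 8) (.sp 0 9 (.bt 9) (.sp 0 10 (.bt 10) (.sp 0 11 (.bt 11) (.sp 0 12 (.bt 12) (.pp 6 7 8 10 11 12 0 9)))))))),
    ([12, 34],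
      .sp 0 6 (.bt 6) (.sp 0 7 (.bt 7) (.sp 0 8 (.bt 8) (.sp 0 9 (.bt 9) (.sp 0 10 (.bt 10) (.sp 0 11 (.bt 11) (.sp 0 12 (.bt 12) (.pp 6 7 8 10 11 12 0 9)))))))),
    ([17, 42],
      .sp 2 6 (.bt 6) (.sp 2 7 (.bt 7) (.sp 2 8 (.bt 8) (.sp 2 9 (.bt 9) (.sp 2 10 (.bt 10) (.sp 2 11 (.bt 11) (.sp 0 12 (.pp 6 7 8 10 11 12 2 9) (.sp 1 11 (.bt 12) (.sp 0 10 (.bt 11) (.sp 0 11 (.sp 1 6 (.bt 10) (.sp 0 6 (.sp 0 9 (.pp 11 10 12 0 9 8 7 6) (.sp 1 7 (.sp 1 8 (.bt 9) (.bt 8)) (.bt 7))) (.bt 6))) (.bt 11))))))))))),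
    ([17, 44],
      .sp 1 6 (.bt 6) (.sp 1 7 (.bt 7) (.sp 1 8 (.bt 8) (.sp 1 9 (.bt 9) (.sp 1 10 (.bt 10) (.sp 1 11 (.bt 11) (.sp 0 12 (.pp 6 7 8 10 11 12 1 9) (.sp 1 12 (.bt 12) (.pp 6 7 8 10 11 12 1 9))))))))),
    ([18, 33],
      .sp 2 6 (.bt 6) (.sp 2 7 (.bt 7) (.sp 2 8 (.bt 8) (.sp 2 9 (.bt 9) (.sp 2 10 (.bt 10) (.sp 2 11 (.bt 11) (.sp 0 12 (.pp 6 7 8 10 11 12 2 9) (.sp 1 11 (.bt 12) (.sp 0 10 (.bt 11) (.sp 0 11 (.sp 1 6 (.bt 10) (.sp 0 6 (.sp 0 9 (.pp 11 10 12 0 9 8 7 6) (.sp 1 7 (.sp 1 8 (.bt 9) (.bt 8)) (.bt 7))) (.bt 6))) (.bt 11))))))))))),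
    ([20, 33],
      .sp 1 6 (.bt 6) (.sp 1 7 (.bt 7) (.sp 1 8 (.bt 8) (.sp 1 9 (.bt 9) (.sp 1 10 (.bt 10) (.sp 1 11 (.bt 11) (.sp 0 12 (.pp 6 7 8 10 11 12 1 9) (.sp 1 12 (.bt 12) (.pp 6 7 8 10 11 12 1 9)))))))))]

def grpP : List (List ℕ) := placeTab.map (fun e => e.1)

/-- the group of a pair of types -/
def pgP (a b : ℕ) : ℕ := grpP.findIdx (fun g => g.contains a && g.contains b)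

theorem tyTab_ok : tyTab.all (fun e => check (specP [e.1] []) e.2
    (St.init (specP [e.1] []) 1 [])) = true := by decide +kernel

theorem pairTabP_ok : pairTabP.all (fun e => check (specP [e.1, e.2.1] [(0, 1), (1, 0)]) e.2.2
    (St.init (specP [e.1, e.2.1] [(0, 1), (1, 0)]) 1 [])) = true := by decide +kernel

theorem dblTabP_ok : dblTabP.all (fun e =>
    check (specP [e.1, e.2.1, e.2.2.1] [(0, 1), (1, 0), (0, 2), (2, 0)]) e.2.2.2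
    (St.init (specP [e.1, e.2.1, e.2.2.1] [(0, 1), (1, 0), (0, 2), (2, 0)]) 1 [])) = true := by
  decide +kernel

theorem placeTab_ok : placeTab.all (fun e => check (specPl e.1) e.2
    (St.init (specPl e.1) 7 sadj)) = true := by decide +kernel

theorem ty_all : (List.range 64).all (fun a => tyP.contains a || tyTab.any (fun e => Nat.beq e.1 a)) = true := by
  decide +kernel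

/-- every pair of types is never mixed or belongs to a group -/
theorem pair_all : tyP.all (fun a => tyP.all (fun b =>
    pairTabP.any (fun e => (Nat.beq e.1 a && Nat.beq e.2.1 b) || (Nat.beq e.1 b && Nat.beq e.2.1 a)) ||
    Nat.ble (pgP a b + 1) grpP.length)) = true := by decide +kernel

theorem pg_symm_all : tyP.all (fun a => tyP.all (fun b => Nat.beq (pgP a b) (pgP b a))) = true := by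
  decide +kernel

/-- two partners of the same class belong to the same group -/
theorem dbl_all : tyP.all (fun a => tyP.all (fun b => tyP.all (fun c =>
    Nat.beq (pgP a b) (pgP a c) ||
    pairTabP.any (fun e => (Nat.beq e.1 a && Nat.beq e.2.1 b) || (Nat.beq e.1 b && Nat.beq e.2.1 a)) ||
    pairTabP.any (fun e => (Nat.beq e.1 a && Nat.beq e.2.1 c) || (Nat.beq e.1 c && Nat.beq e.2.1 a)) ||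
    dblTabP.any (fun e => Nat.beq e.1 a && ((Nat.beq e.2.1 b && Nat.beq e.2.2.1 c) ||
      (Nat.beq e.2.1 c && Nat.beq e.2.2.1 b)))))) = true := by decide +kernel

end Pool.Agent.H68.CW
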