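import Pool.Agent.H68.CW.PTab

/-!
PUA. The certificates over `S_{1,1,3}` used.

Proofs.
* `ty_useP`: let `τ < 64` be the mask of the neighbours of `u` (64 cases, or `τ = ∑ i < 6, if G.Adj u (p i) then 2 ^ i else 0`, or use that a function `Fin 6 → Bool` is the `testBit` of some number `< 64`: `decide`). By `ty_all`, `τ ∈ tyP` or there is an entry `e ∈ tyTab` with `e.1 = τ`; in the second case `cert_sound`
  with `sp = specP [τ] []`, `m = 1`, `adj = []`, `rep n = u` gives a contradiction (`tyTab_ok`).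
* `pair_useP`: `cert_sound` with `sp = specP [e.1, e.2.1] [(0, 1), (1, 0)]`, `m = 1`, `rep 0 = u`, `rep n = w` for `n ≥ 1` (`pairTabP_ok`).
* `dbl_useP`: the same with `dblTabP_ok`.
* `Ctx G M X E (specP ..) p rep` from `PSys`: `freeS`, `tt`, `aty` are vacuous (`pat = false`, `tt = false`, `aty = []`).
* `grp_pair`: from `pair_all`, `pair_useP` (and `Mx.symm`). `grp_dbl`: from `dbl_all`, `pair_useP`, `dbl_useP`.
-/

set_option autoImplicit false

namespace Pool.Agent.H68.CW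

variable {V : Type} {G : SimpleGraph V} {M X : Set V} {E : ℕ → V → V → Prop} {p : ℕ → V}

theorem PUA_ctx (h : PSys G M X E p) {l : List ℕ} {mix : List (ℕ × ℕ)} {rep : ℕ → V}
    (hX : ∀ c < l.length, rep c ∈ X) (hty : ∀ c τ, l[c]? = some τ → TypM G p (rep c) τ)
    (hmix : ∀ c d, (c, d) ∈ mix → Mx G X E 12 (rep c) (rep d)) :
    Ctx G M X E (specP l mix) p rep where
  sys := h.sys
  sub := h.sub
  pM := h.pM
  pX := h.pX
  pinj := h.pinj
  root := h.root
  h0 := h.h0
  tri := h.tri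
  freeS := fun h1 => absurd h1 Bool.false_ne_true
  freeP := fun _ => h.free
  tt := fun h1 => absurd h1 Bool.false_ne_true
  aty := fun h1 => absurd rfl h1
  repX := by
    intro c hc
    have h1 : (l.map some).length = l.length := List.length_map _
    exact hX c (h1 ▸ hc)
  cty := by
    intro c τ hc
    apply hty c τ
    have h1 : (l.map some)[c]? = some (some τ) := hc
    rw [List.getElem?_map, Option.map_eq_some_iff] at h1
    obtain ⟨a, ha, h2⟩ := h1
    rw [ha, h2]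
  mix := hmix

theorem PUA_typ (G : SimpleGraph V) (p : ℕ → V) (u : V) : ∃ τ < 64, TypM G p u τ := by
  classical
  refine ⟨Nat.ofBits fun i : Fin 6 => decide (G.Adj u (p i)), Nat.ofBits_lt_two_pow _, ?_⟩
  intro i hi
  rw [Nat.testBit_ofBits_lt _ _ hi, decide_eq_true_iff]

theorem ty_useP (h : PSys G M X E p) {u : V} (hu : u ∈ X) : ∃ τ ∈ tyP, TypM G p u τ := by
  obtain ⟨τ, hτ, hT⟩ := PUA_typ G p u
  have h1 := List.all_eq_true.1 ty_all τ (List.mem_range.2 hτ)
  rw [Bool.or_eq_true, List.any_eq_true] at h1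
  rcases h1 with h1 | ⟨e, he, h1⟩
  · exact ⟨τ, List.contains_iff_mem.1 h1, hT⟩
  · exfalso
    have h2 : e.1 = τ := Nat.eq_of_beq_eq_true h1
    have h3 := List.all_eq_true.1 tyTab_ok e he
    refine cert_sound (PUA_ctx (rep := fun _ => u) h (fun _ _ => hu) ?_ ?_) 1 ?_ ?_ [] ?_ e.2 h3
    · intro c τ' hc
      cases c with
      | zero =>
        have h4 : e.1 = τ' := Option.some.inj hc
        rw [← h4, h2]
        exact hT
      | succ c => exact absurd hc (by simp)
    · intro c d hcd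
      exact absurd hcd List.not_mem_nil
    · exact le_refl 1
    · show 6 + 1 ≤ 32
      norm_num
    · intro e' he'
      exact absurd he' List.not_mem_nil

theorem pair_useP (h : PSys G M X E p) {e : ℕ × ℕ × Tree} (he : e ∈ pairTabP) {u w : V}
    (hu : u ∈ X) (hw : w ∈ X) (tu : TypM G p u e.1) (tw : TypM G p w e.2.1) :
    ¬ Mx G X E 12 u w := by
  intro hm
  have h3 := List.all_eq_true.1 pairTabP_ok e he
  obtain ⟨rep, r0, r1⟩ : ∃ rep : ℕ → V, rep 0 = u ∧ rep 1 = w :=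
    ⟨fun n => if n = 0 then u else w, rfl, rfl⟩
  refine cert_sound (PUA_ctx (rep := rep) h ?_ ?_ ?_) 1 ?_ ?_ [] ?_ e.2.2 h3
  · intro c hc
    have hc' : c = 0 ∨ c = 1 := by
      have h4 : c < 2 := hc
      omega
    rcases hc' with rfl | rfl
    · rw [r0]
      exact hu
    · rw [r1]
      exact hw
  · intro c τ' hc
    match c, hc with
    | 0, hc =>
      have h4 : e.1 = τ' := Option.some.inj hc
      rw [r0, ← h4]
      exact tu
    | 1, hc =>
      have h4 : e.2.1 = τ' := Option.some.inj hc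
      rw [r1, ← h4]
      exact tw
    | c + 2, hc => exact absurd hc (by simp)
  · intro c d hcd
    simp only [List.mem_cons, Prod.mk.injEq, List.not_mem_nil, or_false] at hcd
    rcases hcd with ⟨rfl, rfl⟩ | ⟨rfl, rfl⟩
    · rw [r0, r1]
      exact hm
    · rw [r0, r1]
      exact hm.symm
  · exact Nat.le_succ 1
  · show 6 + 1 ≤ 32
    norm_num
  · intro e' he'
    exact absurd he' List.not_mem_nil

theorem dbl_useP (h : PSys G M X E p) {e : ℕ × ℕ × ℕ × Tree} (he : e ∈ dblTabP) {u w w' : V}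
    (hu : u ∈ X) (hw : w ∈ X) (hw' : w' ∈ X) (tu : TypM G p u e.1) (tw : TypM G p w e.2.1)
    (tw' : TypM G p w' e.2.2.1) (hm : Mx G X E 12 u w) : ¬ Mx G X E 12 u w' := by
  intro hm'
  have h3 := List.all_eq_true.1 dblTabP_ok e he
  obtain ⟨rep, r0, r1, r2⟩ : ∃ rep : ℕ → V, rep 0 = u ∧ rep 1 = w ∧ rep 2 = w' :=
    ⟨fun n => if n = 0 then u else if n = 1 then w else w', rfl, rfl, rfl⟩
  refine cert_sound (PUA_ctx (rep := rep) h ?_ ?_ ?_) 1 ?_ ?_ [] ?_ e.2.2.2 h3
  · intro c hc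
    have hc' : c = 0 ∨ c = 1 ∨ c = 2 := by
      have h4 : c < 3 := hc
      omega
    rcases hc' with rfl | rfl | rfl
    · rw [r0]
      exact hu
    · rw [r1]
      exact hw
    · rw [r2]
      exact hw'
  · intro c τ' hc
    match c, hc with
    | 0, hc =>
      have h4 : e.1 = τ' := Option.some.inj hc
      rw [r0, ← h4]
      exact tu
    | 1, hc =>
      have h4 : e.2.1 = τ' := Option.some.inj hc
      rw [r1, ← h4]
      exact tw
    | 2, hc =>
      have h4 : e.2.2.1 = τ' := Option.some.inj hc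
      rw [r2, ← h4]
      exact tw'
    | c + 3, hc => exact absurd hc (by simp)
  · intro c d hcd
    simp only [List.mem_cons, Prod.mk.injEq, List.not_mem_nil, or_false] at hcd
    rcases hcd with ⟨rfl, rfl⟩ | ⟨rfl, rfl⟩ | ⟨rfl, rfl⟩ | ⟨rfl, rfl⟩
    · rw [r0, r1]
      exact hm
    · rw [r0, r1]
      exact hm.symm
    · rw [r0, r2]
      exact hm'
    · rw [r0, r2]
      exact hm'.symm
  · show 1 ≤ 3
    norm_num
  · show 6 + 1 ≤ 32
    norm_num
  · intro e' he'
    exact absurd he' List.not_mem_nil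

theorem PUA_pair (h : PSys G M X E p) {a b : ℕ} {u w : V} (hu : u ∈ X) (hw : w ∈ X)
    (tu : TypM G p u a) (tw : TypM G p w b) (hm : Mx G X E 12 u w)
    (hp : pairTabP.any (fun e => (Nat.beq e.1 a && Nat.beq e.2.1 b) ||
      (Nat.beq e.1 b && Nat.beq e.2.1 a)) = true) : False := by
  rw [List.any_eq_true] at hp
  obtain ⟨e, he, h1⟩ := hp
  rw [Bool.or_eq_true, Bool.and_eq_true, Bool.and_eq_true] at h1
  rcases h1 with ⟨h1, h2⟩ | ⟨h1, h2⟩
  · have e1 : e.1 = a := Nat.eq_of_beq_eq_true h1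
    have e2 : e.2.1 = b := Nat.eq_of_beq_eq_true h2
    exact pair_useP h he hu hw (e1 ▸ tu) (e2 ▸ tw) hm
  · have e1 : e.1 = b := Nat.eq_of_beq_eq_true h1
    have e2 : e.2.1 = a := Nat.eq_of_beq_eq_true h2
    exact pair_useP h he hw hu (e1 ▸ tw) (e2 ▸ tu) hm.symm

theorem grp_pair (h : PSys G M X E p) {a b : ℕ} (ha : a ∈ tyP) (hb : b ∈ tyP) {u w : V}
    (hu : u ∈ X) (hw : w ∈ X) (tu : TypM G p u a) (tw : TypM G p w b) (hm : Mx G X E 12 u w) :
    pgP a b < grpP.length := by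
  have h1 := List.all_eq_true.1 (List.all_eq_true.1 pair_all a ha) b hb
  rw [Bool.or_eq_true] at h1
  rcases h1 with h1 | h1
  · exact (PUA_pair h hu hw tu tw hm h1).elim
  · exact Nat.le_of_ble_eq_true h1

theorem grp_dbl (h : PSys G M X E p) {a b c : ℕ} (ha : a ∈ tyP) (hb : b ∈ tyP) (hc : c ∈ tyP)
    {u w w' : V} (hu : u ∈ X) (hw : w ∈ X) (hw' : w' ∈ X) (tu : TypM G p u a) (tw : TypM G p w b)
    (tw' : TypM G p w' c) (hm : Mx G X E 12 u w) (hm' : Mx G X E 12 u w') :
    pgP a b = pgP a c := by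
  have h1 := List.all_eq_true.1 (List.all_eq_true.1 (List.all_eq_true.1 dbl_all a ha) b hb) c hc
  rw [Bool.or_eq_true, Bool.or_eq_true, Bool.or_eq_true] at h1
  rcases h1 with ((h1 | h1) | h1) | h1
  · exact Nat.eq_of_beq_eq_true h1
  · exact (PUA_pair h hu hw tu tw hm h1).elim
  · exact (PUA_pair h hu hw' tu tw' hm' h1).elim
  · exfalso
    rw [List.any_eq_true] at h1
    obtain ⟨e, he, h2⟩ := h1
    rw [Bool.and_eq_true, Bool.or_eq_true, Bool.and_eq_true, Bool.and_eq_true] at h2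
    obtain ⟨h3, ⟨h4, h5⟩ | ⟨h4, h5⟩⟩ := h2
    · have e1 : e.1 = a := Nat.eq_of_beq_eq_true h3
      have e2 : e.2.1 = b := Nat.eq_of_beq_eq_true h4
      have e3 : e.2.2.1 = c := Nat.eq_of_beq_eq_true h5
      exact dbl_useP h he hu hw hw' (e1 ▸ tu) (e2 ▸ tw) (e3 ▸ tw') hm hm'
    · have e1 : e.1 = a := Nat.eq_of_beq_eq_true h3
      have e2 : e.2.1 = c := Nat.eq_of_beq_eq_true h4
      have e3 : e.2.2.1 = b := Nat.eq_of_beq_eq_true h5
      exact dbl_useP h he hu hw' hw (e1 ▸ tu) (e2 ▸ tw') (e3 ▸ tw) hm' hm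

end Pool.Agent.H68.CW
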