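import Pool.Agent.H68.CW.Struct
import Pool.Agent.H68.CW.DecPC

/-!
TB. Bipartite graphs without `S_{1,2,3}` have bounded width.

`dec_bc`: the relation `Ext` is the same for `G` and `bcG G side` (labels `side`, `Bip`).
`thmB`: strong induction on the number of elements of `M`. If `M` is empty or has one element: `Dec.empty`, `Dec.single`. If `LP G side M`:
`structure_LP`, `dec_PC`, `dec_bc`. Otherwise there is a partition `M = A ∪ B` in nonempty parts such that the adjacency between `A` and `B`
depends only on the sides (no edges; all pairs on different sides; or all arcs go from `B` to `A`, where `Str` fails), and `Dec.glue` applies.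

Status: complete (helper26).
-/

set_option autoImplicit false

namespace Pool.Agent.H68.CW

variable {V : Type} {G : SimpleGraph V} {side : V → Bool} {M : Set V}

theorem dec_bc (hb : Bip G side M) {k : ℕ} {A : Set V} (hA : A ⊆ M)
    (h : Dec (bcG G side) side k M A) : Dec G side k M A := by
  induction h with
  | empty => exact Dec.empty
  | single v => exact Dec.single v
  | union A B _ _ hd hext ihA ihB =>
    refine Dec.union A B (ihA (Set.subset_union_left.trans hA))
      (ihB (Set.subset_union_right.trans hA)) hd ?_
    obtain ⟨c, hc⟩ := hext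
    refine ⟨c, fun u hu v hv huv => ?_⟩
    obtain ⟨h1, h2⟩ := hc u hu v hv huv
    refine ⟨h1, fun w hw hwn => ?_⟩
    have h3 := h2 w hw hwn
    have h4 : (side u ≠ side w ∧ ¬ G.Adj u w) ↔ (side v ≠ side w ∧ ¬ G.Adj v w) := h3
    rw [h1] at h4
    by_cases hs : side v = side w
    · constructor
      · intro ha
        exact absurd (h1.trans hs) (hb u (hA hu) w hw ha)
      · intro ha
        exact absurd hs (hb v (hA hv) w hw ha)
    · have h5 : ¬ G.Adj u w ↔ ¬ G.Adj v w := by
        constructor
        · intro h6
          exact (h4.1 ⟨hs, h6⟩).2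
        · intro h6
          exact (h4.2 ⟨hs, h6⟩).2
      exact not_iff_not.1 h5

theorem thmB_glue {A : Set V} (hA : A ⊆ M) (hdA : Dec G side 12 A A)
    (hdB : Dec G side 12 (M \ A) (M \ A)) (f : Bool → Bool → Prop)
    (hf : ∀ a ∈ A, ∀ b ∈ M, b ∉ A → (G.Adj a b ↔ f (side a) (side b))) :
    Dec G side 12 M M := by
  have h1 := Dec.glue (G := G) (ℓ := side) (k := 12) (by simp) (by norm_num)
    (A := A) (B := M \ A) Set.disjoint_sdiff_right hdA hdB
    (fun u hu u' hu' v hv huu => by
      rw [hf u hu v hv.1 hv.2, hf u' hu' v hv.1 hv.2, huu])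
    (fun u hu v hv v' hv' hvv => by
      rw [hf u hu v hv.1 hv.2, hf u hu v' hv'.1 hv'.2, hvv])
  rw [Set.union_sdiff_cancel hA] at h1
  exact h1

theorem thmB_aux (n : ℕ) : ∀ M : Set V, M.Finite → M.ncard = n → Bip G side M → FreeS G M →
    Dec G side 12 M M := by
  induction n using Nat.strong_induction_on with
  | _ n ih =>
    intro M hM hn hb hS
    have hsub : ∀ A ⊆ M, A ≠ M → Dec G side 12 A A := by
      intro A hA hne
      refine ih A.ncard ?_ A (hM.subset hA) rfl (fun u hu v hv => hb u (hA hu) v (hA hv))
        (fun c hc a ha b₁ hb₁ b₂ hb₂ d₁ hd₁ d₂ hd₂ d₃ hd₃ => hS c (hA hc) a (hA ha) b₁ (hA hb₁)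
          b₂ (hA hb₂) d₁ (hA hd₁) d₂ (hA hd₂) d₃ (hA hd₃))
      rw [← hn]
      exact Set.ncard_lt_ncard (Set.ssubset_iff_subset_ne.2 ⟨hA, hne⟩) hM
    have hcut : ∀ A ⊆ M, A.Nonempty → A ≠ M → ∀ f : Bool → Bool → Prop,
        (∀ a ∈ A, ∀ b ∈ M, b ∉ A → (G.Adj a b ↔ f (side a) (side b))) →
        Dec G side 12 M M := by
      intro A hA hne hAM f hf
      refine thmB_glue hA (hsub A hA hAM) (hsub _ Set.sdiff_subset ?_) f hf
      intro h
      obtain ⟨a, ha⟩ := hne
      have h1 := hA ha
      rw [← h] at h1
      exact h1.2 ha
    rcases Set.subsingleton_or_nontrivial M with h1 | h1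
    · rcases h1.eq_empty_or_singleton with h2 | ⟨a, h2⟩
      · rw [h2]
        exact Dec.empty
      · rw [h2]
        exact Dec.single a
    · by_cases hc : Conn G M
      · by_cases hbc : Conn (bcG G side) M
        · by_cases hs : Str G side M
          · rcases structure_LP hM h1 hb hS ⟨hc, hbc, hs⟩ with h2 | h2
            · exact dec_PC hM h2
            · exact dec_bc hb Set.Subset.rfl (dec_PC hM h2)
          · unfold Str at hs
            push Not at hs
            obtain ⟨A, hA, hne, hAM, h2⟩ := hs
            refine hcut A hA hne hAM (fun s t => s ≠ t ∧ s = true) ?_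
            intro a ha b hb' hbn
            have h3 := h2 b hb' hbn a ha
            unfold Arc at h3
            have h4 := hb a (hA ha) b hb'
            rw [G.adj_comm b a] at h3
            by_cases hadj : G.Adj a b
            · have h5 := h4 hadj
              cases hsa : side a <;> cases hsb : side b <;> simp_all
            · cases hsa : side a <;> cases hsb : side b <;> simp_all
        · unfold Conn at hbc
          push Not at hbc
          obtain ⟨A, hA, hne, hAM, h2⟩ := hbc
          refine hcut A hA hne hAM (fun s t => s ≠ t) ?_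
          intro a ha b hb' hbn
          have h3 : ¬ (side a ≠ side b ∧ ¬ G.Adj a b) := h2 a ha b hb' hbn
          constructor
          · exact hb a (hA ha) b hb'
          · intro h4
            by_contra h5
            exact h3 ⟨h4, h5⟩
      · unfold Conn at hc
        push Not at hc
        obtain ⟨A, hA, hne, hAM, h2⟩ := hc
        refine hcut A hA hne hAM (fun _ _ => False) ?_
        intro a ha b hb' hbn
        exact iff_false_intro (h2 a ha b hb' hbn)

theorem thmB (hM : M.Finite) (hb : Bip G side M) (hS : FreeS G M) : Dec G side 12 M M := by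
  exact thmB_aux M.ncard M hM rfl hb hS

end Pool.Agent.H68.CW
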