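import Pool.Agent.H68.CW.Tool3
import Pool.Agent.H68.CW.OneDef

/-!
TO. Three classes `T` (label `0`), `A` (label `1`), `B` (label `2`) of type I.

`GP u v` (`u, v` with different labels): if one of the labels is `0`: `G.Adj u v`; if the labels are `1, 2`: `¬ G.Adj u v`. Let `N(x)` be the set of the neighbours of label `0` (in `M`) of a
vertex `x ∈ M` of label `1` or `2`.
(0) If `a ∈ A`, `b ∈ B`, `a ≁ b` then `N(a) = N(b)` or one of them is empty: `f1` excludes `t ∈ N(b) \ N(a)`, `t' ∈ N(a) \ N(b)` at the same time; if `N(b) ⊊ N(a)`, `N(b) ≠ ∅`: `f2`; the other: `f3`.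
(1) `f4`: `b ∈ B`, `a, a' ∈ A` not adjacent to `b`, `t ≁ b`: `t ~ a ↔ t ~ a'`. `f5`: `t ≁ b`, `t ~ a, a'`: `a ~ b ↔ a' ~ b`. `f6`, `f7` the same with `A` and `B` exchanged.

Proof of `type_one`: strong induction on the number of elements of `M` (all hypotheses are inherited by subsets). If `M` misses a label: `hB`. Suppose that there is a proper nonempty `C ⊆ M` with no
`GP`-pair between `C` and `M \ C`: `Dec.glue` (the adjacency between `C` and `M \ C` depends on the labels only: same label or one label `0`: not adjacent; labels `1, 2`: adjacent) and the induction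
hypothesis. So suppose that `M` is `GP`-connected (every proper nonempty subset `C` has a `GP`-pair `(u, v)`, `u ∈ C`, `v ∈ M \ C`) and meets all three labels.
(2) `t ∈ N(a) ∩ N(a')` implies `N(a) = N(a')` (`a, a' ∈ A`). Let `t' ∈ N(a) \ N(a')`. If some `b ∈ B` has `b ~ t`: `a, a' ≁ b` (no triangles), `N(a) = N(b) = N(a')` by (0): contradiction. So `t` has no neighbour in
`B`. For every `b ∈ B`: `a ~ b`: otherwise `a' ≁ b` (`f5`), and if `t' ≁ b` then `f4` gives `t' ~ a'`, false; if `t' ~ b` then `N(a) = N(b)` by (0), so `t ~ b`, false. So `a` is complete to `B`, and by `f5` so are all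
neighbours of `t` in `A`. Let `C` be the set of all `t'' ∈ T` without neighbours in `B` all of whose neighbours in `A` are complete to `B`, together with all `a'' ∈ A` complete to `B`. `C` contains `t`, and not `B`
(nonempty). There is no `GP`-pair between `C` and the rest: `t'' ∈ C`: its `GP`-neighbours are in `A`, complete to `B`, so in `C`; `a'' ∈ C`: its `GP`-neighbours are in `T`; if `t'' ~ a''` then `t'' ≁ b` for all `b ∈ B` (no triangles: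
`a'' ~ b`), and by `f5` all neighbours of `t''` in `A` are complete to `B`; so `t'' ∈ C`. This contradicts the connectedness.
Symmetrically for `B` (`f7`, `f6`).
(3) There is `S₀ ≠ ∅` such that for all `x ∈ A ∪ B`: `N(x) = S₀` or `N(x) = ∅`, and `N(x) = ∅` implies that all `GP`-neighbours `y` of `x` have `N(y) = S₀`. Let `t₀ ∈ T` (exists); by connectedness there is `x₀` with `t₀ ~ x₀`.
`S₀ = N(x₀)`. Let `C` be the set of the `t ∈ S₀`, of the `x ∈ A ∪ B` with `N(x) = S₀`, and of the `x ∈ A ∪ B` with `N(x) = ∅` which have a `GP`-neighbour `y` with `N(y) = S₀`. There is no `GP`-pair between `C` and the rest: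
`t ∈ S₀`, `t ~ x`: `N(x) = S₀`: since `t ∈ N(x) ∩ S₀`, if `x, x₀` have the same label use (2), otherwise they have a common neighbour `t`, so they are not adjacent, and (0). `N(x) = S₀`: its neighbours in `T` are in `S₀`; if `y` is a
`GP`-neighbour of `x` of the other label `≠ 0` then by (0) `N(y) = S₀` or `N(y) = ∅`, so `y ∈ C`. `N(x) = ∅`, with a `GP`-neighbour `y`, `N(y) = S₀`; let `y'` be another `GP`-neighbour of `x` (it is of the label of `y`): for all `t`: `t ≁ x`,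
so `t ~ y ↔ t ~ y'` (`f4` or `f6`), `N(y') = S₀`, `y' ∈ C`. By connectedness `C = M`, and the last argument shows the second claim. In particular `T = S₀` (`T ∩ M = S₀`).
(4) Let `A₁, A₀` be the vertices of `A` with `N = S₀`, `N = ∅`, similarly `B₁, B₀`. `S₀` is complete to `A₁, B₁`, and has no neighbours in `A₀`, `B₀`. `A₁, B₁` have no edges (no triangles). `A₀` is complete to `B₀` (a non-adjacent pair would be a
`GP`-pair with both `N = ∅`). `A₁`, `B₀`: by `f5` every `b ∈ B₀` has all or no vertices of `A₁` as neighbours; by connectedness `b` has a `GP`-neighbour, by (3) it is in `A₁` (`b` has no neighbours in `T`), so `b` has no neighbours in `A₁`. Similarly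
`B₁`, `A₀`. So the five classes `S₀, A₁, A₀, B₁, B₀` determine the adjacency: `Dec.few` with `K ≥ 5`.
-/

set_option autoImplicit false

namespace Pool.Agent.H68.CW

variable {V : Type} {G : SimpleGraph V} {ℓ : V → Fin 3}

/-- the neighbours of label `0` in `M` -/
def NT (G : SimpleGraph V) (ℓ : V → Fin 3) (M : Set V) (x : V) : Set V :=
  {t | t ∈ M ∧ ℓ t = 0 ∧ G.Adj t x}

/-- the `GP`-pairs -/
def GPr (G : SimpleGraph V) (ℓ : V → Fin 3) (u v : V) : Prop :=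
  ℓ u ≠ ℓ v ∧ (((ℓ u = 0 ∨ ℓ v = 0) ∧ G.Adj u v) ∨ (ℓ u ≠ 0 ∧ ℓ v ≠ 0 ∧ ¬ G.Adj u v))

theorem GPr.symm {u v : V} (h : GPr G ℓ u v) : GPr G ℓ v u := by
  obtain ⟨h1, h2 | h2⟩ := h
  · exact ⟨h1.symm, Or.inl ⟨h2.1.symm, h2.2.symm⟩⟩
  · exact ⟨h1.symm, Or.inr ⟨h2.2.1, h2.1, fun h => h2.2.2 h.symm⟩⟩

theorem to_fin3 : ∀ i j k : Fin 3, i ≠ 0 → j ≠ 0 → i ≠ j → k ≠ 0 → k ≠ i → k = j := by decide

theorem to_fin3' : ∀ i j : Fin 3, i ≠ 0 → j ≠ 0 → i ≠ j → (i = 1 ∧ j = 2) ∨ (i = 2 ∧ j = 1) := by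
  decide

/-- the code of the five classes -/
def tcode (i : Fin 3) (b : Bool) : ℕ :=
  if i = 0 then 0 else if i = 1 then (if b then 1 else 2) else (if b then 3 else 4)

theorem tcode_lt : ∀ (i : Fin 3) (b : Bool), tcode i b < 5 := by decide

theorem tcode_inj : ∀ (i j : Fin 3) (b c : Bool), tcode i b = tcode j c →
    i = j ∧ (i ≠ 0 → b = c) := by decide

theorem OneFacts.mono {M N : Set V} (h : OneFacts G ℓ M) (hs : N ⊆ M) : OneFacts G ℓ N where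
  ind := fun u hu v hv => h.ind u (hs hu) v (hs hv)
  tri := fun a ha b hb c hc => h.tri a (hs ha) b (hs hb) c (hs hc)
  f1 := fun t ht t' ht' a ha b hb => h.f1 t (hs ht) t' (hs ht') a (hs ha) b (hs hb)
  f2 := fun t ht t' ht' a ha b hb => h.f2 t (hs ht) t' (hs ht') a (hs ha) b (hs hb)
  f3 := fun t ht t' ht' a ha b hb => h.f3 t (hs ht) t' (hs ht') a (hs ha) b (hs hb)
  f4 := fun t ht t' ht' a ha b hb => h.f4 t (hs ht) t' (hs ht') a (hs ha) b (hs hb)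
  f5 := fun t ht t' ht' a ha b hb => h.f5 t (hs ht) t' (hs ht') a (hs ha) b (hs hb)
  f6 := fun t ht t' ht' a ha b hb => h.f6 t (hs ht) t' (hs ht') a (hs ha) b (hs hb)
  f7 := fun t ht t' ht' a ha b hb => h.f7 t (hs ht) t' (hs ht') a (hs ha) b (hs hb)

section facts

variable {M : Set V}

/-- the facts `f5` and `f7` together -/
theorem to_g1 (h : OneFacts G ℓ M) {t x x' y : V} (ht : t ∈ M) (hx : x ∈ M) (hx' : x' ∈ M)
    (hy : y ∈ M) (lt : ℓ t = 0) (lx : ℓ x ≠ 0) (ly : ℓ y ≠ 0) (lxy : ℓ x ≠ ℓ y)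
    (lxx : ℓ x' = ℓ x) (h1 : ¬ G.Adj t y) (h2 : G.Adj t x) (h3 : G.Adj t x') :
    G.Adj x y ↔ G.Adj x' y := by
  rcases to_fin3' _ _ lx ly lxy with ⟨e1, e2⟩ | ⟨e1, e2⟩
  · exact h.f5 t ht x hx x' hx' y hy lt e1 (lxx.trans e1) e2 h1 h2 h3
  · rw [G.adj_comm x y, G.adj_comm x' y]
    exact h.f7 t ht y hy x hx x' hx' lt e2 e1 (lxx.trans e1) h1 h2 h3

/-- the facts `f4` and `f6` together -/
theorem to_g2 (h : OneFacts G ℓ M) {t x x' y : V} (ht : t ∈ M) (hx : x ∈ M) (hx' : x' ∈ M)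
    (hy : y ∈ M) (lt : ℓ t = 0) (lx : ℓ x ≠ 0) (ly : ℓ y ≠ 0) (lxy : ℓ x ≠ ℓ y)
    (lxx : ℓ x' = ℓ x) (h1 : ¬ G.Adj t y) (h2 : ¬ G.Adj x y) (h3 : ¬ G.Adj x' y) :
    G.Adj t x ↔ G.Adj t x' := by
  rcases to_fin3' _ _ lx ly lxy with ⟨e1, e2⟩ | ⟨e1, e2⟩
  · exact h.f4 t ht x hx x' hx' y hy lt e1 (lxx.trans e1) e2 h1 h2 h3
  · exact h.f6 t ht y hy x hx x' hx' lt e2 e1 (lxx.trans e1) h1 (fun h => h2 h.symm)
      (fun h => h3 h.symm)

theorem to_g0' (h : OneFacts G ℓ M) {a b : V} (ha : a ∈ M) (hb : b ∈ M) (la : ℓ a = 1)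
    (lb : ℓ b = 2) (hab : ¬ G.Adj a b) (hna : (NT G ℓ M a).Nonempty)
    (hnb : (NT G ℓ M b).Nonempty) : NT G ℓ M a = NT G ℓ M b := by
  by_cases h1 : NT G ℓ M a ⊆ NT G ℓ M b
  · refine h1.antisymm ?_
    rintro t' ⟨ht', lt', htb'⟩
    by_contra h2
    have hta' : ¬ G.Adj t' a := fun h => h2 ⟨ht', lt', h⟩
    obtain ⟨t, ht⟩ := hna
    exact hab (h.f3 t ht.1 t' ht' a ha b hb ht.2.1 lt' la lb ht.2.2 (h1 ht).2.2 hta' htb')
  · by_cases h2 : NT G ℓ M b ⊆ NT G ℓ M a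
    · refine Set.Subset.antisymm ?_ h2
      rintro t' ⟨ht', lt', hta'⟩
      by_contra h3
      have htb' : ¬ G.Adj t' b := fun h => h3 ⟨ht', lt', h⟩
      obtain ⟨t, ht⟩ := hnb
      exact hab (h.f2 t ht.1 t' ht' a ha b hb ht.2.1 lt' la lb (h2 ht).2.2 ht.2.2 hta' htb')
    · exfalso
      obtain ⟨t', ht', hn'⟩ := Set.not_subset.1 h1
      obtain ⟨t, ht, hn⟩ := Set.not_subset.1 h2
      exact hab (h.f1 t ht.1 t' ht'.1 a ha b hb ht.2.1 ht'.2.1 la lb ht.2.2 ht'.2.2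
        (fun h => hn ⟨ht.1, ht.2.1, h⟩) (fun h => hn' ⟨ht'.1, ht'.2.1, h⟩))

theorem to_g0 (h : OneFacts G ℓ M) {x y : V} (hx : x ∈ M) (hy : y ∈ M) (lx : ℓ x ≠ 0)
    (ly : ℓ y ≠ 0) (lxy : ℓ x ≠ ℓ y) (hxy : ¬ G.Adj x y) (hnx : (NT G ℓ M x).Nonempty)
    (hny : (NT G ℓ M y).Nonempty) : NT G ℓ M x = NT G ℓ M y := by
  rcases to_fin3' _ _ lx ly lxy with ⟨e1, e2⟩ | ⟨e1, e2⟩
  · exact to_g0' h hx hy e1 e2 hxy hnx hny
  · exact (to_g0' h hy hx e2 e1 (fun h => hxy h.symm) hny hnx).symm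

/-- step (2) -/
theorem to_two (h : OneFacts G ℓ M)
    (hconn : ∀ C ⊆ M, C.Nonempty → C ≠ M → ∃ u ∈ C, ∃ v ∈ M, v ∉ C ∧ GPr G ℓ u v)
    {x x' t y : V} (hx : x ∈ M) (hx' : x' ∈ M) (lx : ℓ x ≠ 0) (lxx : ℓ x' = ℓ x)
    (hy : y ∈ M) (ly : ℓ y ≠ 0) (lxy : ℓ x ≠ ℓ y) (ht : t ∈ NT G ℓ M x)
    (ht' : t ∈ NT G ℓ M x') : NT G ℓ M x ⊆ NT G ℓ M x' := by
  rintro s ⟨hs, ls, hsx⟩
  by_contra hcon
  have hsx' : ¬ G.Adj s x' := fun h => hcon ⟨hs, ls, h⟩
  obtain ⟨htM, lt, htx⟩ := ht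
  have htx' := ht'.2.2
  -- `t` has no neighbours of the other label
  have h1 : ∀ b ∈ M, ℓ b ≠ 0 → ℓ x ≠ ℓ b → ¬ G.Adj t b := by
    intro b hb lb lxb htb
    have hxb : ¬ G.Adj x b := h.tri x hx t htM b hb htx.symm htb
    have hxb' : ¬ G.Adj x' b := h.tri x' hx' t htM b hb htx'.symm htb
    have e1 := to_g0 h hx hb lx lb lxb hxb ⟨t, htM, lt, htx⟩ ⟨t, htM, lt, htb⟩
    have e2 := to_g0 h hx' hb (by rwa [lxx]) lb (by rwa [lxx]) hxb' ⟨t, htM, lt, htx'⟩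
      ⟨t, htM, lt, htb⟩
    rw [e2, ← e1] at hcon
    exact hcon ⟨hs, ls, hsx⟩
  -- `x` is complete to the other label
  have h2 : ∀ b ∈ M, ℓ b ≠ 0 → ℓ x ≠ ℓ b → G.Adj x b := by
    intro b hb lb lxb
    by_contra hxb
    have hxb' : ¬ G.Adj x' b := fun h' =>
      hxb ((to_g1 h htM hx hx' hb lt lx lb lxb lxx (h1 b hb lb lxb) htx htx').2 h')
    by_cases hsb : G.Adj s b
    · have e1 := to_g0 h hx hb lx lb lxb hxb ⟨t, htM, lt, htx⟩ ⟨s, hs, ls, hsb⟩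
      have : t ∈ NT G ℓ M b := by
        rw [← e1]
        exact ⟨htM, lt, htx⟩
      exact h1 b hb lb lxb this.2.2
    · exact hsx' ((to_g2 h hs hx hx' hb ls lx lb lxb lxx hsb hxb hxb').1 hsx)
  -- the set `C`
  obtain ⟨u, hu, v, hv, hvC, hguv⟩ := hconn
    {z | z ∈ M ∧ ((ℓ z = 0 ∧ (∀ b ∈ M, ℓ b ≠ 0 → ℓ x ≠ ℓ b → ¬ G.Adj z b) ∧
        ∀ a ∈ M, ℓ a = ℓ x → G.Adj z a → ∀ b ∈ M, ℓ b ≠ 0 → ℓ x ≠ ℓ b → G.Adj a b) ∨
      (ℓ z = ℓ x ∧ ∀ b ∈ M, ℓ b ≠ 0 → ℓ x ≠ ℓ b → G.Adj z b))}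
    (fun z hz => hz.1)
    ⟨t, htM, Or.inl ⟨lt, h1, fun a ha la hta b hb lb lxb =>
      (to_g1 h htM hx ha hb lt lx lb lxb la (h1 b hb lb lxb) htx hta).1 (h2 b hb lb lxb)⟩⟩
    (by
      intro he
      have hyC : y ∈ M := hy
      rw [← he] at hyC
      rcases hyC.2 with h3 | h3
      · exact ly h3.1
      · exact lxy h3.1.symm)
  obtain ⟨hgl, hg⟩ := hguv
  rcases hu.2 with ⟨lu, hu1, hu2⟩ | ⟨lu, hu1⟩
  · rcases hg with ⟨_, huv⟩ | ⟨h3, _⟩
    · have lv : ℓ v ≠ 0 := fun h3 => hgl (lu.trans h3.symm)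
      by_cases h3 : ℓ v = ℓ x
      · exact hvC ⟨hv, Or.inr ⟨h3, hu2 v hv h3 huv⟩⟩
      · exact hu1 v hv lv (fun h4 => h3 h4.symm) huv
    · exact h3 lu
  · have huM := hu.1
    rcases hg with ⟨h3, huv⟩ | ⟨_, lv, huv⟩
    · have lv : ℓ v = 0 := h3.resolve_left (by rw [lu]; exact lx)
      have h4 : ∀ b ∈ M, ℓ b ≠ 0 → ℓ x ≠ ℓ b → ¬ G.Adj v b := fun b hb lb lxb =>
        h.tri v hv u huM b hb huv.symm (hu1 b hb lb lxb)
      refine hvC ⟨hv, Or.inl ⟨lv, h4, fun a ha la hva b hb lb lxb => ?_⟩⟩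
      exact (to_g1 h hv huM ha hb lv (by rwa [lu]) lb (by rwa [lu]) (by rw [la, lu])
        (h4 b hb lb lxb) huv.symm hva).1 (hu1 b hb lb lxb)
    · exact huv (hu1 v hv lv (by rw [← lu]; exact hgl))

/-- step (3) -/
theorem to_three (h : OneFacts G ℓ M)
    (hconn : ∀ C ⊆ M, C.Nonempty → C ≠ M → ∃ u ∈ C, ∃ v ∈ M, v ∉ C ∧ GPr G ℓ u v)
    (hlab : ∀ i : Fin 3, ∃ u ∈ M, ℓ u = i) :
    ∃ S : Set V, S.Nonempty ∧ (∀ t ∈ M, ℓ t = 0 → t ∈ S) ∧
      (∀ x ∈ M, ℓ x ≠ 0 → NT G ℓ M x = S ∨ NT G ℓ M x = ∅) ∧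
      ∀ x ∈ M, ∀ y ∈ M, ℓ x ≠ 0 → ℓ y ≠ 0 → NT G ℓ M x = ∅ → GPr G ℓ x y →
        NT G ℓ M y = S := by
  have h2' : ∀ x ∈ M, ∀ y ∈ M, ℓ x ≠ 0 → ℓ y ≠ 0 → ∀ t, t ∈ NT G ℓ M x → t ∈ NT G ℓ M y →
      NT G ℓ M x = NT G ℓ M y := by
    intro x hx y hy lx ly t htx hty
    by_cases hl : ℓ x = ℓ y
    · have hz : ∃ z ∈ M, ℓ z ≠ 0 ∧ ℓ x ≠ ℓ z := by
        have : ∀ i : Fin 3, i ≠ 0 → ∃ j : Fin 3, j ≠ 0 ∧ i ≠ j := by decide
        obtain ⟨j, hj1, hj2⟩ := this _ lx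
        obtain ⟨z, hz, hzj⟩ := hlab j
        exact ⟨z, hz, by rwa [hzj], by rwa [hzj]⟩
      obtain ⟨z, hz, lz, lxz⟩ := hz
      exact (to_two h hconn hx hy lx hl.symm hz lz lxz htx hty).antisymm
        (to_two h hconn hy hx ly hl hz lz (by rwa [← hl]) hty htx)
    · have hxy : ¬ G.Adj x y := h.tri x hx t htx.1 y hy htx.2.2.symm hty.2.2
      exact to_g0 h hx hy lx ly hl hxy ⟨t, htx⟩ ⟨t, hty⟩
  obtain ⟨t0, ht0, lt0⟩ := hlab 0
  have hx0 : ∃ x0 ∈ M, ℓ x0 ≠ 0 ∧ G.Adj t0 x0 := by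
    obtain ⟨z, hz, lz⟩ := hlab 1
    obtain ⟨u, hu, v, hv, hvC, hguv⟩ := hconn {t0} (by simpa using ht0)
      (Set.singleton_nonempty _) (by
        intro he
        rw [← he] at hz
        have : z = t0 := hz
        rw [this, lt0] at lz
        exact absurd lz (by decide))
    have hu' : u = t0 := hu
    subst hu'
    obtain ⟨h3, h4 | h4⟩ := hguv
    · exact ⟨v, hv, fun h5 => h3 (lt0.trans h5.symm), h4.2⟩
    · exact absurd lt0 h4.1
  obtain ⟨x0, hx0, lx0, htx0⟩ := hx0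
  have hSne : (NT G ℓ M x0).Nonempty := ⟨t0, ht0, lt0, htx0⟩
  generalize hS : NT G ℓ M x0 = S at hSne
  have step : ∀ x ∈ M, ∀ y ∈ M, ∀ y' ∈ M, ℓ x ≠ 0 → ℓ y ≠ 0 → ℓ y' ≠ 0 → NT G ℓ M x = ∅ →
      GPr G ℓ x y → GPr G ℓ x y' → NT G ℓ M y = S → NT G ℓ M y' = S := by
    intro x hx y hy y' hy' lx ly ly' hN hg hg' hy0
    have hxy : ¬ G.Adj x y := by
      rcases hg.2 with h3 | h3
      · exact (h3.1.elim (fun h4 => lx h4) (fun h4 => ly h4)).elim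
      · exact h3.2.2
    have hxy' : ¬ G.Adj x y' := by
      rcases hg'.2 with h3 | h3
      · exact (h3.1.elim (fun h4 => lx h4) (fun h4 => ly' h4)).elim
      · exact h3.2.2
    have le : ℓ y' = ℓ y := to_fin3 (ℓ x) (ℓ y) (ℓ y') lx ly hg.1 ly' (fun h3 => hg'.1 h3.symm)
    rw [← hy0]
    ext t
    constructor
    · rintro ⟨h3, h4, h5⟩
      have h6 : ¬ G.Adj t x := fun h7 => by
        have : t ∈ NT G ℓ M x := ⟨h3, h4, h7⟩
        rw [hN] at this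
        exact this
      exact ⟨h3, h4, (to_g2 h h3 hy hy' hx h4 ly lx (fun h => hg.1 h.symm) le h6
        (fun h => hxy h.symm) (fun h => hxy' h.symm)).2 h5⟩
    · rintro ⟨h3, h4, h5⟩
      have h6 : ¬ G.Adj t x := fun h7 => by
        have : t ∈ NT G ℓ M x := ⟨h3, h4, h7⟩
        rw [hN] at this
        exact this
      exact ⟨h3, h4, (to_g2 h h3 hy hy' hx h4 ly lx (fun h => hg.1 h.symm) le h6
        (fun h => hxy h.symm) (fun h => hxy' h.symm)).1 h5⟩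
  have hC : {z | z ∈ M ∧ ((ℓ z = 0 ∧ z ∈ S) ∨ (ℓ z ≠ 0 ∧ NT G ℓ M z = S) ∨
      (ℓ z ≠ 0 ∧ NT G ℓ M z = ∅ ∧ ∃ y ∈ M, ℓ y ≠ 0 ∧ GPr G ℓ z y ∧ NT G ℓ M y = S))} = M := by
    by_contra hne
    have hCne : {z | z ∈ M ∧ ((ℓ z = 0 ∧ z ∈ S) ∨ (ℓ z ≠ 0 ∧ NT G ℓ M z = S) ∨
      (ℓ z ≠ 0 ∧ NT G ℓ M z = ∅ ∧ ∃ y ∈ M, ℓ y ≠ 0 ∧ GPr G ℓ z y ∧
        NT G ℓ M y = S))}.Nonempty := ⟨x0, hx0, Or.inr (Or.inl ⟨lx0, hS⟩)⟩
    obtain ⟨u, ⟨huM, hu⟩, v, hv, hvC, hguv⟩ := hconn _ (fun z hz => hz.1) hCne hne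
    rcases hu with ⟨lu, huS⟩ | ⟨lu, huS⟩ | ⟨lu, huS, y, hy, ly, hgy, hyS⟩
    · rcases hguv.2 with h3 | h3
      · have lv : ℓ v ≠ 0 := fun h4 => hguv.1 (lu.trans h4.symm)
        rw [← hS] at huS
        have := h2' v hv x0 hx0 lv lx0 u ⟨huM, lu, h3.2⟩ huS
        exact hvC ⟨hv, Or.inr (Or.inl ⟨lv, this.trans hS⟩)⟩
      · exact h3.1 lu
    · rcases hguv.2 with h3 | h3
      · have lv : ℓ v = 0 := h3.1.resolve_left lu
        have : v ∈ NT G ℓ M u := ⟨hv, lv, h3.2.symm⟩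
        rw [huS] at this
        exact hvC ⟨hv, Or.inl ⟨lv, this⟩⟩
      · by_cases hvN : (NT G ℓ M v).Nonempty
        · have := to_g0 h huM hv lu h3.2.1 hguv.1 h3.2.2 (by rwa [huS]) hvN
          exact hvC ⟨hv, Or.inr (Or.inl ⟨h3.2.1, this.symm.trans huS⟩)⟩
        · exact hvC ⟨hv, Or.inr (Or.inr ⟨h3.2.1, Set.not_nonempty_iff_eq_empty.1 hvN, u, huM, lu,
            hguv.symm, huS⟩)⟩
    · by_cases lv : ℓ v = 0
      · rcases hguv.2 with h3 | h3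
        · have : v ∈ NT G ℓ M u := ⟨hv, lv, h3.2.symm⟩
          rw [huS] at this
          exact this
        · exact h3.2.1 lv
      · exact hvC ⟨hv, Or.inr (Or.inl ⟨lv, step u huM y hy v hv lu ly lv huS hgy hguv hyS⟩)⟩
  refine ⟨S, hSne, ?_, ?_, ?_⟩
  · intro t ht lt
    have ht' : t ∈ M := ht
    rw [← hC] at ht'
    rcases ht'.2 with h3 | h3 | h3
    · exact h3.2
    · exact absurd lt h3.1
    · exact absurd lt h3.1
  · intro x hx lx
    have hx' : x ∈ M := hx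
    rw [← hC] at hx'
    rcases hx'.2 with h3 | h3 | h3
    · exact absurd h3.1 lx
    · exact Or.inl h3.2
    · exact Or.inr h3.2.1
  · intro x hx y hy lx ly hN hg
    have hx' : x ∈ M := hx
    rw [← hC] at hx'
    rcases hx'.2 with h3 | h3 | ⟨_, _, z, hz, lz, hgz, hzS⟩
    · exact absurd h3.1 lx
    · rw [← h3.2, hN] at hSne
      exact absurd hSne Set.not_nonempty_empty
    · exact step x hx z hz y hy lx lz ly hN hgz hg hzS

/-- step (4): the adjacency is determined by the label and by the property `NT = S` -/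
theorem to_four (h : OneFacts G ℓ M)
    (hconn : ∀ C ⊆ M, C.Nonempty → C ≠ M → ∃ u ∈ C, ∃ v ∈ M, v ∉ C ∧ GPr G ℓ u v)
    (hlab : ∀ i : Fin 3, ∃ u ∈ M, ℓ u = i) {S : Set V} (hSne : S.Nonempty)
    (hT : ∀ t ∈ M, ℓ t = 0 → t ∈ S)
    (hN : ∀ x ∈ M, ℓ x ≠ 0 → NT G ℓ M x = S ∨ NT G ℓ M x = ∅)
    (hE : ∀ x ∈ M, ∀ y ∈ M, ℓ x ≠ 0 → ℓ y ≠ 0 → NT G ℓ M x = ∅ → GPr G ℓ x y →
        NT G ℓ M y = S) :
    ∀ u ∈ M, ∀ w ∈ M, G.Adj u w ↔ (ℓ u ≠ ℓ w ∧ ((ℓ u = 0 ∧ NT G ℓ M w = S) ∨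
      (ℓ w = 0 ∧ NT G ℓ M u = S) ∨
      (ℓ u ≠ 0 ∧ ℓ w ≠ 0 ∧ NT G ℓ M u ≠ S ∧ NT G ℓ M w ≠ S))) := by
  have hone : ∀ a ∈ M, ∀ b ∈ M, ℓ a ≠ 0 → ℓ b ≠ 0 → ℓ a ≠ ℓ b → NT G ℓ M a = S →
      NT G ℓ M b ≠ S → ¬ G.Adj a b := by
    intro a ha b hb la lb lab haS hbS hab
    have hb0 : NT G ℓ M b = ∅ := (hN b hb lb).resolve_left hbS
    obtain ⟨z, hz, lz⟩ := hlab 0
    obtain ⟨u, hu, y, hy, _, hg⟩ := hconn {b} (by simpa using hb) (Set.singleton_nonempty _) (by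
        intro he
        rw [← he] at hz
        have : z = b := hz
        rw [this] at lz
        exact lb lz)
    have hu' : u = b := hu
    subst hu'
    have ly : ℓ y ≠ 0 := by
      intro ly
      rcases hg.2 with h3 | h3
      · have : y ∈ NT G ℓ M u := ⟨hy, ly, h3.2.symm⟩
        rw [hb0] at this
        exact this
      · exact h3.2.1 ly
    have hyS := hE u hb y hy lb ly hb0 hg
    have huy : ¬ G.Adj u y := by
      rcases hg.2 with h3 | h3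
      · exact (h3.1.elim (fun h4 => lb h4) (fun h4 => ly h4)).elim
      · exact h3.2.2
    have le : ℓ y = ℓ a := to_fin3 (ℓ u) (ℓ a) (ℓ y) lb la (fun h3 => lab h3.symm) ly
      (fun h3 => hg.1 h3.symm)
    obtain ⟨t, ht⟩ := hSne
    have hta : t ∈ NT G ℓ M a := by rw [haS]; exact ht
    have hty : t ∈ NT G ℓ M y := by rw [hyS]; exact ht
    have htu : ¬ G.Adj t u := fun h3 => by
      have : t ∈ NT G ℓ M u := ⟨hta.1, hta.2.1, h3⟩
      rw [hb0] at this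
      exact this
    exact huy ((to_g1 h hta.1 ha hy hb hta.2.1 la lb lab le htu hta.2.2 hty.2.2).1 hab).symm
  intro u hu w hw
  by_cases hl : ℓ u = ℓ w
  · exact ⟨fun h3 => absurd h3 (h.ind u hu w hw hl), fun h3 => absurd hl h3.1⟩
  by_cases lu : ℓ u = 0
  · have lw : ℓ w ≠ 0 := fun h3 => hl (lu.trans h3.symm)
    constructor
    · intro huw
      refine ⟨hl, Or.inl ⟨lu, (hN w hw lw).resolve_right fun h3 => ?_⟩⟩
      have : u ∈ NT G ℓ M w := ⟨hu, lu, huw⟩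
      rw [h3] at this
      exact this
    · rintro ⟨_, h3 | h3 | h3⟩
      · have : u ∈ NT G ℓ M w := by rw [h3.2]; exact hT u hu lu
        exact this.2.2
      · exact absurd h3.1 lw
      · exact absurd lu h3.1
  by_cases lw : ℓ w = 0
  · constructor
    · intro huw
      refine ⟨hl, Or.inr (Or.inl ⟨lw, (hN u hu lu).resolve_right fun h3 => ?_⟩)⟩
      have : w ∈ NT G ℓ M u := ⟨hw, lw, huw.symm⟩
      rw [h3] at this
      exact this
    · rintro ⟨_, h3 | h3 | h3⟩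
      · exact absurd h3.1 lu
      · have : w ∈ NT G ℓ M u := by rw [h3.2]; exact hT w hw lw
        exact this.2.2.symm
      · exact absurd lw h3.2.1
  constructor
  · intro huw
    refine ⟨hl, Or.inr (Or.inr ⟨lu, lw, fun h3 => ?_, fun h3 => ?_⟩)⟩
    · by_cases h4 : NT G ℓ M w = S
      · obtain ⟨t, ht⟩ := hSne
        have h5 : t ∈ NT G ℓ M u := by rw [h3]; exact ht
        have h6 : t ∈ NT G ℓ M w := by rw [h4]; exact ht
        exact h.tri t h5.1 u hu w hw h5.2.2 huw h6.2.2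
      · exact hone u hu w hw lu lw hl h3 h4 huw
    · by_cases h4 : NT G ℓ M u = S
      · obtain ⟨t, ht⟩ := hSne
        have h5 : t ∈ NT G ℓ M u := by rw [h4]; exact ht
        have h6 : t ∈ NT G ℓ M w := by rw [h3]; exact ht
        exact h.tri t h5.1 u hu w hw h5.2.2 huw h6.2.2
      · exact hone w hw u hu lw lu (fun h => hl h.symm) h3 h4 huw.symm
  · rintro ⟨_, h3 | h3 | h3⟩
    · exact absurd h3.1 lu
    · exact absurd h3.1 lw
    · by_contra huw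
      have h4 : NT G ℓ M u = ∅ := (hN u hu lu).resolve_left h3.2.2.1
      exact h3.2.2.2 (hE u hu w hw lu lw h4 ⟨hl, Or.inr ⟨lu, lw, huw⟩⟩)

end facts

theorem type_one {M : Set V} (hM : M.Finite) {K : ℕ} (hK : 5 ≤ K) (h : OneFacts G ℓ M)
    (hB : ∀ Y ⊆ M, (∃ i, ∀ u ∈ Y, ℓ u ≠ i) → Dec G ℓ K Y Y) : Dec G ℓ K M M := by
  classical
  induction hn : M.ncard using Nat.strong_induction_on generalizing M with
  | _ n ih =>
    by_cases hlab : ∀ i : Fin 3, ∃ u ∈ M, ℓ u = i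
    swap
    · push Not at hlab
      exact hB M Set.Subset.rfl hlab
    by_cases hconn : ∀ C ⊆ M, C.Nonempty → C ≠ M → ∃ u ∈ C, ∃ v ∈ M, v ∉ C ∧ GPr G ℓ u v
    · obtain ⟨S, hSne, hT, hN, hE⟩ := to_three h hconn hlab
      have hadj := to_four h hconn hlab hSne hT hN hE
      have hcode : ∀ u : V, tcode (ℓ u) (decide (NT G ℓ M u = S)) < K := fun u =>
        lt_of_lt_of_le (tcode_lt _ _) hK
      refine Dec.few hM (fun u => (⟨_, hcode u⟩ : Fin K)) ?_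
      intro u hu v hv huv
      have e : ℓ u = ℓ v ∧ (ℓ u ≠ 0 → (NT G ℓ M u = S ↔ NT G ℓ M v = S)) := by
        obtain ⟨e1, e2⟩ := tcode_inj _ _ _ _ (Fin.mk.inj_iff.1 huv)
        exact ⟨e1, fun h0 => decide_eq_decide.1 (e2 h0)⟩
      refine ⟨e.1, fun w hw => ?_⟩
      rw [hadj u hu w hw, hadj v hv w hw, e.1]
      have e2 := e.2
      rw [e.1] at e2
      by_cases v0 : ℓ v = 0
      · constructor
        · rintro ⟨h1, h2⟩
          refine ⟨h1, ?_⟩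
          rcases h2 with h2 | h2 | h2
          · exact Or.inl h2
          · exact absurd (v0.trans h2.1.symm) h1
          · exact absurd v0 h2.1
        · rintro ⟨h1, h2⟩
          refine ⟨h1, ?_⟩
          rcases h2 with h2 | h2 | h2
          · exact Or.inl h2
          · exact absurd (v0.trans h2.1.symm) h1
          · exact absurd v0 h2.1
      · simp only [ne_eq, e2 v0]
    · push Not at hconn
      obtain ⟨C, hCM, hCne, hCM', hno⟩ := hconn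
      have hCf : C.Finite := hM.subset hCM
      have hDf : (M \ C).Finite := hM.subset Set.sdiff_subset
      have hlt1 : C.ncard < n := by
        rw [← hn]
        exact Set.ncard_lt_ncard (hCM.ssubset_of_ne hCM') hM
      have hlt2 : (M \ C).ncard < n := by
        rw [← hn]
        refine Set.ncard_lt_ncard ⟨Set.sdiff_subset, fun h3 => ?_⟩ hM
        obtain ⟨x, hx⟩ := hCne
        exact (h3 (hCM hx)).2 hx
      have d1 : Dec G ℓ K C C := ih _ hlt1 hCf (h.mono hCM)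
        (fun Y hY hi => hB Y (hY.trans hCM) hi) rfl
      have d2 : Dec G ℓ K (M \ C) (M \ C) := ih _ hlt2 hDf (h.mono Set.sdiff_subset)
        (fun Y hY hi => hB Y (hY.trans Set.sdiff_subset) hi) rfl
      have hadj : ∀ u ∈ C, ∀ v ∈ M \ C, G.Adj u v ↔ (ℓ u ≠ ℓ v ∧ ℓ u ≠ 0 ∧ ℓ v ≠ 0) := by
        intro u hu v hv
        have hno' := hno u hu v hv.1 hv.2
        constructor
        · intro huv
          have h1 : ℓ u ≠ ℓ v := fun h2 => h.ind u (hCM hu) v hv.1 h2 huv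
          exact ⟨h1, fun h2 => hno' ⟨h1, Or.inl ⟨Or.inl h2, huv⟩⟩,
            fun h2 => hno' ⟨h1, Or.inl ⟨Or.inr h2, huv⟩⟩⟩
        · rintro ⟨h1, h2, h3⟩
          by_contra huv
          exact hno' ⟨h1, Or.inr ⟨h2, h3, huv⟩⟩
      have hgl := Dec.glue (G := G) (ℓ := ℓ) (k := K) (A := C) (B := M \ C)
        (by rw [Nat.card_eq_fintype_card, Fintype.card_fin]; omega) (by omega)
        disjoint_sdiff_self_right d1 d2
        (fun u hu u' hu' v hv huu => by rw [hadj u hu v hv, hadj u' hu' v hv, huu])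
        (fun u hu v hv v' hv' hvv => by rw [hadj u hu v hv, hadj u hu v' hv', hvv])
      rwa [Set.union_sdiff_cancel hCM] at hgl

end Pool.Agent.H68.CW
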