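import Pool.Agent.H68.CW.SUseC
import Pool.Agent.H68.CW.TypeOne
import Pool.Agent.H68.CW.NoTri
import Pool.Agent.H68.CW.ThmB

/-!
SBB. The blocks of type I and II over a `C₅` have bounded width.
-/

set_option autoImplicit false

namespace Pool.Agent.H68.CW

variable {V : Type} {G : SimpleGraph V} {M X : Set V} {E : ℕ → V → V → Prop} {p : Fin 5 → V}

theorem SBlockB_two (a b i : Fin 3) (ha : a ≠ i) (hb : b ≠ i) (h : (a = i + 1) ↔ (b = i + 1)) :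
    a = b := by
  revert a b i
  decide

theorem SBlockB_hB {Y : Set V} (hfin : Y.Finite) (hS : FreeS G Y) (ℓ : V → Fin 3)
    (hind : ∀ u ∈ Y, ∀ v ∈ Y, ℓ u = ℓ v → ¬ G.Adj u v) :
    ∀ Y' ⊆ Y, (∃ i, ∀ u ∈ Y', ℓ u ≠ i) → Dec G ℓ 12 Y' Y' := by
  intro Y' hY' hi
  obtain ⟨i, hi⟩ := hi
  have hkey : ∀ u ∈ Y', ∀ v ∈ Y', decide (ℓ u = i + 1) = decide (ℓ v = i + 1) → ℓ u = ℓ v := by
    intro u hu v hv h
    exact SBlockB_two _ _ _ (hi u hu) (hi v hv) (decide_eq_decide.1 h)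
  have hb : Bip G (fun u => decide (ℓ u = i + 1)) Y' := by
    intro u hu v hv hadj hs
    exact hind u (hY' hu) v (hY' hv) (hkey u hu v hv hs) hadj
  have hS' : FreeS G Y' := fun c hc a ha b₁ hb₁ b₂ hb₂ d₁ hd₁ d₂ hd₂ d₃ hd₃ =>
    hS c (hY' hc) a (hY' ha) b₁ (hY' hb₁) b₂ (hY' hb₂) d₁ (hY' hd₁) d₂ (hY' hd₂) d₃ (hY' hd₃)
  exact Dec.coarsen hkey (thmB (hfin.subset hY') hb hS')

theorem SBlockB_free (h : C5Sys G M X E p) {Y : Set V} (hY : Y ⊆ X) : FreeS G Y :=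
  fun c hc a ha b₁ hb₁ b₂ hb₂ d₁ hd₁ d₂ hd₂ d₃ hd₃ =>
    h.free c (h.sub (hY hc)) a (h.sub (hY ha)) b₁ (h.sub (hY hb₁)) b₂ (h.sub (hY hb₂))
      d₁ (h.sub (hY hd₁)) d₂ (h.sub (hY hd₂)) d₃ (h.sub (hY hd₃))

theorem SBlockB_same (h : C5Sys G M X E p) {u v : V} (hu : u ∈ X) (hv : v ∈ X) {σ : Ty5}
    (tu : Typ G p u σ) (tv : Typ G p v σ) (hσ : ∃ j, σ.nb j = true) : ¬ G.Adj u v := by
  obtain ⟨j, hj⟩ := hσ
  intro hadj
  exact h.tri u (h.sub hu) v (h.sub hv) (p j) (h.pM j) hadj ((tv j).2 hj) ((tu j).2 hj)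

theorem SBlockB_nbV (i : Fin 5) : ∃ j, (Ty5.V i).nb j = true := by
  revert i; decide

theorem SBlockB_nbW (i : Fin 5) : ∃ j, (Ty5.W i).nb j = true := by
  revert i; decide

open Classical in
/-- labels for three types -/
noncomputable def SBlockB_lab (G : SimpleGraph V) (p : Fin 5 → V) (a b : Ty5) (u : V) : Fin 3 :=
  if Typ G p u a then 0 else if Typ G p u b then 1 else 2

theorem SBlockB_lab_spec {a b c : Ty5} {u : V}
    (h : Typ G p u a ∨ Typ G p u b ∨ Typ G p u c) :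
    (SBlockB_lab G p a b u = 0 → Typ G p u a) ∧ (SBlockB_lab G p a b u = 1 → Typ G p u b) ∧
      (SBlockB_lab G p a b u = 2 → Typ G p u c) := by
  unfold SBlockB_lab
  by_cases h1 : Typ G p u a
  · simp [h1]
  · by_cases h2 : Typ G p u b
    · simp [h1, h2]
    · simp [h1, h2] at h ⊢
      exact h

theorem block_I (h : C5Sys G M X E p) (i : Fin 5) {Y : Set V} (hY : Y ⊆ X) (hfin : Y.Finite)
    (hty : ∀ u ∈ Y, Typ G p u .T ∨ Typ G p u (.V i) ∨ Typ G p u (.V (i + 1))) :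
    Dec G (fun _ => ()) 12 Y Y := by
  have hf : OneFacts G (SBlockB_lab G p .T (.V i)) Y :=
    one_use h i hY _ (fun u hu => (SBlockB_lab_spec (hty u hu)).1)
      (fun u hu => (SBlockB_lab_spec (hty u hu)).2.1) (fun u hu => (SBlockB_lab_spec (hty u hu)).2.2)
  exact Dec.coarsen (fun _ _ _ _ _ => rfl) (type_one hfin (by norm_num) hf
    (SBlockB_hB hfin (SBlockB_free h hY) _ hf.ind))

theorem block_II (h : C5Sys G M X E p) (i : Fin 5) {Y : Set V} (hY : Y ⊆ X) (hfin : Y.Finite)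
    (hn : NoNull G X p i)
    (hty : ∀ u ∈ Y, Typ G p u (.W i) ∨ Typ G p u (.V (i + 2)) ∨ Typ G p u (.V (i + 3))) :
    Dec G (fun _ => ()) 12 Y Y := by
  have hind : ∀ u ∈ Y, ∀ v ∈ Y,
      SBlockB_lab G p (.W i) (.V (i + 2)) u = SBlockB_lab G p (.W i) (.V (i + 2)) v →
        ¬ G.Adj u v := by
    intro u hu v hv he
    have su := SBlockB_lab_spec (hty u hu)
    have sv := SBlockB_lab_spec (hty v hv)
    have h3 : ∀ a : Fin 3, a = 0 ∨ a = 1 ∨ a = 2 := by decide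
    rcases h3 (SBlockB_lab G p (.W i) (.V (i + 2)) u) with h0 | h0 | h0
    · exact SBlockB_same h (hY hu) (hY hv) (su.1 h0) (sv.1 (he ▸ h0)) (SBlockB_nbW i)
    · exact SBlockB_same h (hY hu) (hY hv) (su.2.1 h0) (sv.2.1 (he ▸ h0)) (SBlockB_nbV _)
    · exact SBlockB_same h (hY hu) (hY hv) (su.2.2 h0) (sv.2.2 (he ▸ h0)) (SBlockB_nbV _)
  have htri : TriFree G Y := fun a ha b hb c hc =>
    h.tri a (h.sub (hY ha)) b (h.sub (hY hb)) c (h.sub (hY hc))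
  refine Dec.coarsen (fun _ _ _ _ _ => rfl) (type_two hfin (by norm_num) hind htri ?_
    (SBlockB_hB hfin (SBlockB_free h hY) _ hind))
  intro x hx y hy z hz lx ly lz
  exact hn x (hY hx) y (hY hy) z (hY hz) ((SBlockB_lab_spec (hty x hx)).1 lx)
    ((SBlockB_lab_spec (hty y hy)).2.1 ly) ((SBlockB_lab_spec (hty z hz)).2.2 lz)

end Pool.Agent.H68.CW
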