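import Pool.Agent.H68.CW.SUseB
import Pool.Agent.H68.CW.ThmB

/-!
SBA. The bipartite blocks over a `C₅` have bounded width.

Proofs.
* `thmB_unit`: `thmB` and `Dec.coarsen`.
* two vertices of `X` of types `W i, W i`; `V i, V i`; `V i, W (i + 1)`; `V i, W (i + 4)`; have a common neighbour on the cycle and so are not adjacent (`TriFree`).
* `block_P`: `side u` = (`u` is of type `V i`): `T`, `T`: `h.tt`; `T`, `W i`: `s7_use`; `thmB_unit`.
* `block_Q`: `side u` = (`u` is of type `V i` or `W (i + 4)`); `V i` and `W (i + 4)` have the common neighbour `p (i + 4)`; `V (i + 1)` and `W (i + 2)` have the common neighbour `p (i + 2)`.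
-/

set_option autoImplicit false

namespace Pool.Agent.H68.CW

variable {V : Type} {G : SimpleGraph V} {M X : Set V} {E : ℕ → V → V → Prop} {p : Fin 5 → V}

theorem thmB_unit {side : V → Bool} {Y : Set V} (hY : Y.Finite) (hb : Bip G side Y)
    (hS : FreeS G Y) : Dec G (fun _ => ()) 12 Y Y := by
  exact Dec.coarsen (fun _ _ _ _ _ => rfl) (thmB hY hb hS)

theorem SBlockA_free (h : C5Sys G M X E p) {Y : Set V} (hY : Y ⊆ X) : FreeS G Y :=
  fun c hc a ha b₁ hb₁ b₂ hb₂ d₁ hd₁ d₂ hd₂ d₃ hd₃ =>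
    h.free c (h.sub (hY hc)) a (h.sub (hY ha)) b₁ (h.sub (hY hb₁)) b₂ (h.sub (hY hb₂))
      d₁ (h.sub (hY hd₁)) d₂ (h.sub (hY hd₂)) d₃ (h.sub (hY hd₃))

theorem SBlockA_nadj (h : C5Sys G M X E p) (j : Fin 5) {u v : V} (hu : u ∈ X) (hv : v ∈ X)
    {σ τ : Ty5} (tu : Typ G p u σ) (tv : Typ G p v τ) (hσ : σ.nb j = true) (hτ : τ.nb j = true) :
    ¬ G.Adj u v := by
  intro hadj
  exact h.tri u (h.sub hu) v (h.sub hv) (p j) (h.pM j) hadj ((tv j).2 hτ) ((tu j).2 hσ)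

theorem SBlockA_nbV1 : ∀ i : Fin 5, (Ty5.V i).nb (i + 1) = true := by decide
theorem SBlockA_nbV4 : ∀ i : Fin 5, (Ty5.V i).nb (i + 4) = true := by decide
theorem SBlockA_nbV2 : ∀ i : Fin 5, (Ty5.V (i + 1)).nb (i + 2) = true := by decide
theorem SBlockA_nbW : ∀ i : Fin 5, (Ty5.W i).nb i = true := by decide
theorem SBlockA_ne1 : ∀ i : Fin 5, i + 1 ≠ i := by decide
theorem SBlockA_ne2 : ∀ i : Fin 5, i + 2 ≠ i + 4 := by decide

theorem block_P (h : C5Sys G M X E p) (i : Fin 5) {Y : Set V} (hY : Y ⊆ X) (hfin : Y.Finite)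
    (hty : ∀ u ∈ Y, Typ G p u .T ∨ Typ G p u (.V i) ∨ Typ G p u (.W i))
    (hm : ∀ u ∈ Y, Typ G p u .T → ∃ w ∈ X, Typ G p w (.V i) ∧ Mx G X E 12 u w) :
    Dec G (fun _ => ()) 12 Y Y := by
  classical
  refine thmB_unit (side := fun u => decide (Typ G p u (.V i))) hfin ?_ (SBlockA_free h hY)
  intro u hu v hv hadj hs
  have hs' : (Typ G p u (.V i) ↔ Typ G p v (.V i)) := decide_eq_decide.1 hs
  have hu' := hY hu
  have hv' := hY hv
  have hTW : ∀ x ∈ Y, ∀ y ∈ Y, Typ G p x .T → Typ G p y (.W i) → ¬ G.Adj x y := by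
    intro x hx y hy tx ty
    obtain ⟨w, hw, tw, hmx⟩ := hm x hx tx
    exact s7_use h i (hY hx) (hY hy) hw tx ty tw hmx
  rcases hty u hu with t1 | t1 | t1 <;> rcases hty v hv with t2 | t2 | t2
  · exact h.tt u hu' v hv' t1 t2 hadj
  · exact absurd (Typ.unique t1 (hs'.2 t2)) (by simp)
  · exact hTW u hu v hv t1 t2 hadj
  · exact absurd (Typ.unique t2 (hs'.1 t1)) (by simp)
  · exact SBlockA_nadj h (i + 1) hu' hv' t1 t2 (SBlockA_nbV1 i) (SBlockA_nbV1 i) hadj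
  · exact absurd (Typ.unique t2 (hs'.1 t1)) (by simp)
  · exact hTW v hv u hu t2 t1 hadj.symm
  · exact absurd (Typ.unique t1 (hs'.2 t2)) (by simp)
  · exact SBlockA_nadj h i hu' hv' t1 t2 (SBlockA_nbW i) (SBlockA_nbW i) hadj

theorem block_Q (h : C5Sys G M X E p) (i : Fin 5) {Y : Set V} (hY : Y ⊆ X) (hfin : Y.Finite)
    (hty : ∀ u ∈ Y, Typ G p u (.V i) ∨ Typ G p u (.V (i + 1)) ∨ Typ G p u (.W (i + 2)) ∨
      Typ G p u (.W (i + 4))) : Dec G (fun _ => ()) 12 Y Y := by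
  classical
  refine thmB_unit (side := fun u => decide (Typ G p u (.V i) ∨ Typ G p u (.W (i + 4)))) hfin ?_
    (SBlockA_free h hY)
  intro u hu v hv hadj hs
  have hs' : ((Typ G p u (.V i) ∨ Typ G p u (.W (i + 4))) ↔
      (Typ G p v (.V i) ∨ Typ G p v (.W (i + 4)))) := decide_eq_decide.1 hs
  have hu' := hY hu
  have hv' := hY hv
  have key : ∀ x ∈ Y, ((Typ G p x (.V i) ∨ Typ G p x (.W (i + 4))) ∧
      G.Adj x (p (i + 4))) ∨ (¬ (Typ G p x (.V i) ∨ Typ G p x (.W (i + 4))) ∧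
      G.Adj x (p (i + 2))) := by
    intro x hx
    rcases hty x hx with t | t | t | t
    · exact Or.inl ⟨Or.inl t, (t _).2 (SBlockA_nbV4 i)⟩
    · refine Or.inr ⟨?_, (t _).2 (SBlockA_nbV2 i)⟩
      rintro (t' | t')
      · have := Typ.unique t t'
        rw [Ty5.V.injEq] at this
        exact SBlockA_ne1 i this
      · exact absurd (Typ.unique t t') (by simp)
    · refine Or.inr ⟨?_, (t _).2 (SBlockA_nbW _)⟩
      rintro (t' | t')
      · exact absurd (Typ.unique t t') (by simp)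
      · have := Typ.unique t t'
        rw [Ty5.W.injEq] at this
        exact SBlockA_ne2 i this
    · exact Or.inl ⟨Or.inr t, (t _).2 (SBlockA_nbW _)⟩
  rcases key u hu with ⟨k1, k2⟩ | ⟨k1, k2⟩ <;> rcases key v hv with ⟨k3, k4⟩ | ⟨k3, k4⟩
  · exact h.tri u (h.sub hu') v (h.sub hv') _ (h.pM _) hadj k4 k2
  · exact k3 (hs'.1 k1)
  · exact k1 (hs'.2 k3)
  · exact h.tri u (h.sub hu') v (h.sub hv') _ (h.pM _) hadj k4 k2

end Pool.Agent.H68.CW
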