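import Pool.Agent.H68.CW.SDef

/-!
STI. Vertices without neighbours on an induced `C₅` are pairwise not adjacent.

Proof. Suppose that `u, v ∈ M`, `u ~ v`, have no neighbours on the cycle. Let `D` be the set of all `x ∈ M` without neighbours on the cycle which have a neighbour `x' ∈ M` without neighbours on the cycle; `u ∈ D`, `p 0 ∉ D`. By `Conn` there are
`a ∈ D`, `b ∈ M`, `b ∉ D`, `a ~ b`; let `a' ~ a` be as in the definition of `D`. `b` has a neighbour on the cycle (otherwise it would be in `D`), so (it is not on the cycle, as `a` has no neighbours there) its type is `W i` or `V i`; `b ≁ a'` (no triangles).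
If `b` is of type `W i`: `IsS G (p i) (p (i + 4)) (p (i + 1)) (p (i + 2)) b a a'`. If `b` is of type `V i` (neighbours `p (i + 1)`, `p (i + 4)`): `IsS G (p (i + 1)) (p i) (p (i + 2)) (p (i + 3)) b a a'`.
(For the type one can use the possible sets of neighbours of `b`: no two adjacent vertices of the cycle; `Typ.exists'` in SFact has this statement; prove here what is needed or import SFact.)
-/

set_option autoImplicit false

namespace Pool.Agent.H68.CW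

variable {V : Type} {G : SimpleGraph V} {M : Set V} {p : Fin 5 → V}

theorem STInd_key (htri : TriFree G M) (hS : FreeS G M) (hp : ∀ i, p i ∈ M)
    (hroot : ∀ i j, (G.Adj (p i) (p j) ↔ (j = i + 1 ∨ i = j + 1))) {a a' b : V}
    (ha : a ∈ M) (ha' : a' ∈ M) (hb : b ∈ M) (hab : G.Adj a b) (haa : G.Adj a a')
    (h1 : ∀ j, ¬ G.Adj a (p j)) (h2 : ∀ j, ¬ G.Adj a' (p j)) (i : Fin 5) (hi : G.Adj b (p i)) :
    G.Adj b (p (i + 2)) := by
  by_contra hn
  have e1 : ∀ i : Fin 5, i = i + 4 + 1 := by decide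
  have f1 : ∀ i : Fin 5, ¬ (i + 2 = i + 1 ∨ i = i + 2 + 1) := by decide
  have f2 : ∀ i : Fin 5, ¬ (i + 1 = i + 4 + 1 ∨ i + 4 = i + 1 + 1) := by decide
  have f3 : ∀ i : Fin 5, ¬ (i + 2 = i + 4 + 1 ∨ i + 4 = i + 2 + 1) := by decide
  have f4 : ∀ i : Fin 5, i + 2 = i + 1 + 1 := by decide
  have a1 : G.Adj (p i) (p (i + 4)) := (hroot _ _).2 (Or.inr (e1 i))
  have a2 : G.Adj (p i) (p (i + 1)) := (hroot _ _).2 (Or.inl rfl)
  have a3 : G.Adj (p (i + 1)) (p (i + 2)) := (hroot _ _).2 (Or.inl (f4 i))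
  have n1 : ¬ G.Adj (p i) (p (i + 2)) := fun h => f1 i ((hroot _ _).1 h)
  have n2 : ¬ G.Adj (p (i + 4)) (p (i + 1)) := fun h => f2 i ((hroot _ _).1 h)
  have n3 : ¬ G.Adj (p (i + 4)) (p (i + 2)) := fun h => f3 i ((hroot _ _).1 h)
  have b1 : ¬ G.Adj b (p (i + 1)) := htri b hb (p i) (hp _) (p (i + 1)) (hp _) hi a2
  have b4 : ¬ G.Adj b (p (i + 4)) := htri b hb (p i) (hp _) (p (i + 4)) (hp _) hi a1
  have c1 : ¬ G.Adj b a' := htri b hb a ha a' ha' hab.symm haa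
  refine hS (p i) (hp _) (p (i + 4)) (hp _) (p (i + 1)) (hp _) (p (i + 2)) (hp _) b hb a ha a' ha'
    ⟨⟨a1, a2, a3, hi.symm, hab.symm, haa⟩, ⟨n1, ?_, ?_⟩, ⟨n2, n3, ?_, ?_, ?_⟩, ⟨?_, ?_, ?_⟩,
      ⟨?_, ?_, ?_⟩, c1⟩
  · exact fun h => h1 _ h.symm
  · exact fun h => h2 _ h.symm
  · exact fun h => b4 h.symm
  · exact fun h => h1 _ h.symm
  · exact fun h => h2 _ h.symm
  · exact fun h => b1 h.symm
  · exact fun h => h1 _ h.symm
  · exact fun h => h2 _ h.symm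
  · exact fun h => hn h.symm
  · exact fun h => h1 _ h.symm
  · exact fun h => h2 _ h.symm

theorem T_indep (hconn : Conn G M) (htri : TriFree G M) (hS : FreeS G M) (hp : ∀ i, p i ∈ M)
    (hroot : ∀ i j, (G.Adj (p i) (p j) ↔ (j = i + 1 ∨ i = j + 1))) :
    ∀ u ∈ M, ∀ v ∈ M, Typ G p u .T → Typ G p v .T → ¬ G.Adj u v := by
  intro u hu v hv hTu hTv huv
  have hT : ∀ w, Typ G p w .T → ∀ j, ¬ G.Adj w (p j) := by
    intro w hw j h
    have := (hw j).1 h
    simp [Ty5.nb] at this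
  obtain ⟨a, ⟨haM, ha1, a', ha'M, ha'1, haa⟩, b, hbM, hbD, hab⟩ :=
    hconn {x | x ∈ M ∧ (∀ j, ¬ G.Adj x (p j)) ∧ ∃ x' ∈ M, (∀ j, ¬ G.Adj x' (p j)) ∧ G.Adj x x'}
      (fun x hx => hx.1) ⟨u, hu, hT u hTu, v, hv, hT v hTv, huv⟩
      (by
        intro he
        have h0 : p 0 ∈ {x | x ∈ M ∧ (∀ j, ¬ G.Adj x (p j)) ∧
            ∃ x' ∈ M, (∀ j, ¬ G.Adj x' (p j)) ∧ G.Adj x x'} := by
          rw [he]
          exact hp 0
        exact h0.2.1 1 ((hroot _ _).2 (Or.inl rfl)))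
  have hb : ∃ i, G.Adj b (p i) := by
    by_contra hcon
    push Not at hcon
    exact hbD ⟨hbM, hcon, a, haM, ha1, hab.symm⟩
  obtain ⟨i, hi⟩ := hb
  have h2 := STInd_key htri hS hp hroot haM ha'M hbM hab haa ha1 ha'1 i hi
  have h4 := STInd_key htri hS hp hroot haM ha'M hbM hab haa ha1 ha'1 (i + 2) h2
  have e1 : ∀ i : Fin 5, i = i + 2 + 2 + 1 := by decide
  have a1 : G.Adj (p i) (p (i + 2 + 2)) := (hroot _ _).2 (Or.inr (e1 i))
  exact htri b hbM (p i) (hp _) (p (i + 2 + 2)) (hp _) hi a1 h4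

end Pool.Agent.H68.CW
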