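import Pool.Agent.H68.CW.SSys
import Pool.Agent.H68.CW.STInd

/-!
SC5. Graphs with an induced `C₅`.

Proof.
* `dec_C5`: for each `i : Fin 5` let `q i 0, q i 1, q i 2` be a triple of vertices of `M \ range p` of types `W i, V (i + 2), V (i + 3)`, pairwise not adjacent, if there is one, and `q i j = p 0` otherwise. Root `r : Fin 5 ⊕ Fin 5 × Fin 3 → V`, `R = range r`, `X = M \ R`, `t v = fun j => G.Adj v (r j)`.
  `C5Sys G M X E p` with `E k u v := lab G X t k u = lab G X t k v` (`sys_lab`; `tt` from `T_indep`; `h0` since `E 0` means `t u = t v`). `hnull i`: if the triple exists then `null_use` (`x = q i 0`, ...: in `R`, so not in `X`), otherwise `NoNull G X p i` since `X ⊆ M \ range p`. Then `dec_sys` and `Dec.addRoot` (`R` has at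
  most `20` elements, `R ⊆ M`; `M \ R = X`).
-/

set_option autoImplicit false

namespace Pool.Agent.H68.CW

variable {V : Type} {G : SimpleGraph V} {M X : Set V} {p : Fin 5 → V}

/-- the width -/
noncomputable def KS : ℕ :=
  12 * (max 1 (Nat.card (LT ((Fin 5 ⊕ Fin 5 × Fin 3) → Prop) 12))) * 2 ^ 20

theorem dec_C5 (hM : M.Finite) (hconn : Conn G M) (htri : TriFree G M) (hS : FreeS G M)
    (hp : ∀ i, p i ∈ M) (hroot : ∀ i j, (G.Adj (p i) (p j) ↔ (j = i + 1 ∨ i = j + 1))) :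
    Dec G (fun _ => ()) KS M M := by
  classical
  -- the triples
  let P : Fin 5 → V → V → V → Prop := fun i x y z =>
    (Typ G p x (.W i) ∧ Typ G p y (.V (i + 2)) ∧ Typ G p z (.V (i + 3))) ∧
      (¬ G.Adj x y ∧ ¬ G.Adj y z ∧ ¬ G.Adj x z)
  have hq : ∀ i : Fin 5, ∃ q : Fin 3 → V, (∀ j, q j ∈ M) ∧ (P i (q 0) (q 1) (q 2) ∨
      ∀ x ∈ M, ∀ y ∈ M, ∀ z ∈ M, ¬ P i x y z) := by
    intro i
    by_cases h : ∃ x ∈ M, ∃ y ∈ M, ∃ z ∈ M, P i x y z
    · obtain ⟨x, hx, y, hy, z, hz, hP⟩ := h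
      refine ⟨![x, y, z], ?_, Or.inl hP⟩
      intro j
      fin_cases j
      · exact hx
      · exact hy
      · exact hz
    · refine ⟨fun _ => p 0, fun _ => hp 0, Or.inr ?_⟩
      intro x hx y hy z hz hP
      exact h ⟨x, hx, y, hy, z, hz, hP⟩
  choose q hqM hq using hq
  let r : Fin 5 ⊕ Fin 5 × Fin 3 → V := Sum.elim p (fun a => q a.1 a.2)
  let R : Set V := Set.range r
  let Y : Set V := M \ R
  let t : V → ((Fin 5 ⊕ Fin 5 × Fin 3) → Prop) := fun v j => G.Adj v (r j)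
  have hE0 : ∀ u v, lab G Y t 0 u = lab G Y t 0 v → ∀ j, (G.Adj u (r j) ↔ G.Adj v (r j)) := by
    intro u v huv j
    have h1 : t u = t v := huv
    exact iff_of_eq (congrFun h1 j)
  have hsys : C5Sys G M Y (fun k u v => lab G Y t k u = lab G Y t k v) p :=
    { sys := sys_lab G Y t
      sub := Set.sdiff_subset
      pM := hp
      pX := fun i h => h.2 ⟨Sum.inl i, rfl⟩
      root := hroot
      h0 := fun u v huv i => hE0 u v huv (Sum.inl i)
      tri := htri
      free := hS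
      tt := fun u hu v hv h1 h2 => T_indep hconn htri hS hp hroot u hu.1 v hv.1 h1 h2 }
  have hRfin : R.Finite := Set.finite_range r
  have hRcard : R.ncard ≤ 20 := by
    have h1 : R.ncard ≤ Nat.card (Fin 5 ⊕ Fin 5 × Fin 3) := by
      have h2 : R = r '' Set.univ := Set.image_univ.symm
      rw [h2, ← Set.ncard_univ]
      exact Set.ncard_image_le Set.finite_univ
    refine h1.trans ?_
    rw [Nat.card_eq_fintype_card]
    decide
  have hdec := dec_sys hsys (hM.subset Set.sdiff_subset) (by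
    intro i
    rcases hq i with hP | hN
    · right
      intro u hu w hw tu tw
      exact null_use hsys i (hqM i 0) (hqM i 1) (hqM i 2)
        (fun h => h.2 ⟨Sum.inr (i, 0), rfl⟩) (fun h => h.2 ⟨Sum.inr (i, 1), rfl⟩)
        (fun h => h.2 ⟨Sum.inr (i, 2), rfl⟩) hP.1.1 hP.1.2.1 hP.1.2.2 hP.2.1 hP.2.2.1 hP.2.2.2
        (fun u v huv => ⟨hE0 u v huv (Sum.inr (i, 0)), hE0 u v huv (Sum.inr (i, 1)),
          hE0 u v huv (Sum.inr (i, 2))⟩) hu hw tu tw
    · left
      intro x hx y hy z hz tx ty tz hn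
      exact hN x hx.1 y hy.1 z hz.1 ⟨⟨tx, ty, tz⟩, hn⟩)
    (k := max 1 (Nat.card (LT ((Fin 5 ⊕ Fin 5 × Fin 3) → Prop) 12))) (le_max_right _ _)
    (le_max_left _ _)
  have h1 : 1 ≤ 12 * (max 1 (Nat.card (LT ((Fin 5 ⊕ Fin 5 × Fin 3) → Prop) 12))) := by
    have := le_max_left 1 (Nat.card (LT ((Fin 5 ⊕ Fin 5 × Fin 3) → Prop) 12))
    omega
  exact Dec.addRoot hM hRfin hRcard h1 hdec

end Pool.Agent.H68.CW
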