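import Pool.Agent.H68.CW.SCong

/-!
SCL. The property `K i` is closed under mixing.

Proof.
* `KK.close`: let `u` have the property, `Mx G X E 12 u w`; the types of `u` and `w` are different and in `{W i, V (i+2), V (i+3)}` (same types: never mixed, `badP`; here it follows from the fact that two vertices of the same of these types have a common neighbour
  on the cycle and no triangles). Number the types `W i, V (i+2), V (i+3)` by `0, 1, 2 ∈ Fin 3`; for `x, y` with different numbers write `x ⇒ y` iff (`G.Adj x y ↔` number of `y` = number of `x` + 1). Exactly one of `x ⇒ y`, `y ⇒ x` holds. There is no directed triangle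
  `x ⇒ y ⇒ z ⇒ x` with three different numbers: it would mean all pairs adjacent (`TriFree`) or no pair adjacent (`NoNull`). Let `c` be the third number. From `Mx` (both values of `b`), with `Sys.bf` from the member of the class of `w` to `w`: there are `x', x'' ∈ X` with `E 11 x' u`, `E 11 x'' u`,
  `w ⇒ x'`, `x'' ⇒ w`; both have the property `K i` (`KK.congr`) and the type of `u`. This gives `Indiv` of `w` for the type of `u`. `x'` has a neighbour and a non-neighbour of number `c`, so there is `z` of number `c` with `x' ⇒ z`; then `w ⇒ z`. Similarly there is `z'` with `z' ⇒ x''`, so `z' ⇒ w`.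
  One of `z, z'` is a neighbour of `w`, the other one is not: `Indiv` of `w` for the type number `c`.
-/

set_option autoImplicit false

namespace Pool.Agent.H68.CW

variable {V : Type} {G : SimpleGraph V} {M X : Set V} {E : ℕ → V → V → Prop} {p : Fin 5 → V}

/-- the key step: three types without complete and without empty triples -/
theorem indiv_close (htri : TriFree G M) (hs : X ⊆ M) {ρ σ τ : Ty5}
    (hnull : ∀ x ∈ X, ∀ y ∈ X, ∀ z ∈ X, Typ G p x ρ → Typ G p y σ → Typ G p z τ →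
      ¬ (¬ G.Adj x y ∧ ¬ G.Adj y z ∧ ¬ G.Adj x z)) {w x₁ x₀ : V} (hw : w ∈ X)
    (tw : Typ G p w ρ) (h₁ : x₁ ∈ X) (t₁ : Typ G p x₁ σ) (a₁ : G.Adj w x₁)
    (i₁ : Indiv G X p τ x₁) (h₀ : x₀ ∈ X) (t₀ : Typ G p x₀ σ) (a₀ : ¬ G.Adj w x₀)
    (i₀ : Indiv G X p τ x₀) : Indiv G X p σ w ∧ Indiv G X p τ w := by
  have _ := t₁
  refine ⟨⟨⟨x₁, h₁, t₁, a₁⟩, x₀, h₀, t₀, a₀⟩, ?_, ?_⟩
  · obtain ⟨_, z, hz, tz, h2⟩ := i₀
    refine ⟨z, hz, tz, ?_⟩
    by_contra h3
    exact hnull w hw x₀ h₀ z hz tw t₀ tz ⟨a₀, h2, h3⟩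
  · obtain ⟨⟨z, hz, tz, h2⟩, _⟩ := i₁
    exact ⟨z, hz, tz, htri w (hs hw) x₁ (hs h₁) z (hs hz) a₁ h2⟩

/-- vertices of the same type with a neighbour on the cycle are not mixed -/
theorem not_mx_same (h : C5Sys G M X E p) {u w : V} {τ : Ty5} {j : Fin 5} (hj : τ.nb j = true)
    (hm : Mx G X E 12 u w) (tu : Typ G p u τ) (tw : Typ G p w τ) : False := by
  obtain ⟨x, hx, y, hy, h1, h2, h3⟩ := hm True
  have tx := Typ.congr h (h.sys.le (Nat.zero_le 12) (h.sys.symm _ _ _ h1)) tu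
  have ty := Typ.congr h (h.sys.le (Nat.zero_le 12) (h.sys.symm _ _ _ h2)) tw
  exact h.tri x (h.sub hx) (p j) (h.pM j) y (h.sub hy) ((tx j).2 hj) ((ty j).2 hj).symm
    (h3.2 trivial)

theorem KK.close (h : C5Sys G M X E p) {i : Fin 5} {u w : V} (hu : u ∈ X) (hw : w ∈ X)
    (hm : Mx G X E 12 u w) (hK : KK G X p i u)
    (ht : Typ G p w (.W i) ∨ Typ G p w (.V (i + 2)) ∨ Typ G p w (.V (i + 3))) :
    KK G X p i w := by
  have _ := hu
  have key : ∀ b : Prop, ∃ x ∈ X, E 11 u x ∧ (G.Adj w x ↔ b) := by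
    intro b
    obtain ⟨x, hx, y, hy, h1, h2, h3⟩ := hm b
    obtain ⟨x', hx', h4, h5⟩ := h.sys.bf 11 y w x h2 hx
    refine ⟨x', hx', ?_, ?_⟩
    · exact h.sys.symm _ _ _ (h.sys.trans _ _ _ _ h4 (h.sys.anti _ _ _ h1))
    · rw [h5, G.adj_comm]
      exact h3
  obtain ⟨x₁, hx₁, e₁, a₁⟩ := key True
  obtain ⟨x₀, hx₀, e₀, a₀⟩ := key False
  have a₁' : G.Adj w x₁ := a₁.2 trivial
  have a₀' : ¬ G.Adj w x₀ := fun h => a₀.1 h
  have f₁ : E 1 u x₁ := h.sys.le (by norm_num) e₁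
  have f₀ : E 1 u x₀ := h.sys.le (by norm_num) e₀
  have g₁ : E 0 u x₁ := h.sys.le (by norm_num) e₁
  have g₀ : E 0 u x₀ := h.sys.le (by norm_num) e₀
  obtain ⟨hN, hc⟩ := hK
  have nbV : ∀ j : Fin 5, (Ty5.V j).nb (j + 1) = true := fun j => by simp [Ty5.nb]
  have nbW : ∀ j : Fin 5, (Ty5.W j).nb j = true := fun j => by simp [Ty5.nb]
  rcases hc with ⟨tu, i1, i2⟩ | ⟨tu, i1, i2⟩ | ⟨tu, i1, i2⟩
  · rcases ht with tw | tw | tw
    · exact (not_mx_same h (nbW i) hm tu tw).elim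
    · obtain ⟨k1, k2⟩ := indiv_close h.tri h.sub (ρ := .V (i + 2)) (σ := .W i)
        (τ := .V (i + 3)) (fun x hx y hy z hz tx ty tz hn => hN y hy x hx z hz ty tx tz
          ⟨fun h => hn.1 h.symm, hn.2.2, hn.2.1⟩) hw tw hx₁ (Typ.congr h g₁ tu) a₁'
        (i2.congr h f₁) hx₀ (Typ.congr h g₀ tu) a₀' (i2.congr h f₀)
      exact ⟨hN, Or.inr (Or.inl ⟨tw, k1, k2⟩)⟩
    · obtain ⟨k1, k2⟩ := indiv_close h.tri h.sub (ρ := .V (i + 3)) (σ := .W i)
        (τ := .V (i + 2)) (fun x hx y hy z hz tx ty tz hn => hN y hy z hz x hx ty tz tx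
          ⟨hn.2.1, fun h => hn.2.2 h.symm, fun h => hn.1 h.symm⟩) hw tw hx₁
        (Typ.congr h g₁ tu) a₁' (i1.congr h f₁) hx₀ (Typ.congr h g₀ tu) a₀' (i1.congr h f₀)
      exact ⟨hN, Or.inr (Or.inr ⟨tw, k1, k2⟩)⟩
  · rcases ht with tw | tw | tw
    · obtain ⟨k1, k2⟩ := indiv_close h.tri h.sub (ρ := .W i) (σ := .V (i + 2))
        (τ := .V (i + 3)) (fun x hx y hy z hz tx ty tz hn => hN x hx y hy z hz tx ty tz hn)
        hw tw hx₁ (Typ.congr h g₁ tu) a₁' (i2.congr h f₁) hx₀ (Typ.congr h g₀ tu) a₀'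
        (i2.congr h f₀)
      exact ⟨hN, Or.inl ⟨tw, k1, k2⟩⟩
    · exact (not_mx_same h (nbV _) hm tu tw).elim
    · obtain ⟨k1, k2⟩ := indiv_close h.tri h.sub (ρ := .V (i + 3)) (σ := .V (i + 2))
        (τ := .W i) (fun x hx y hy z hz tx ty tz hn => hN z hz y hy x hx tz ty tx
          ⟨fun h => hn.2.1 h.symm, fun h => hn.1 h.symm, fun h => hn.2.2 h.symm⟩) hw tw hx₁
        (Typ.congr h g₁ tu) a₁' (i1.congr h f₁) hx₀ (Typ.congr h g₀ tu) a₀' (i1.congr h f₀)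
      exact ⟨hN, Or.inr (Or.inr ⟨tw, k2, k1⟩)⟩
  · rcases ht with tw | tw | tw
    · obtain ⟨k1, k2⟩ := indiv_close h.tri h.sub (ρ := .W i) (σ := .V (i + 3))
        (τ := .V (i + 2)) (fun x hx y hy z hz tx ty tz hn => hN x hx z hz y hy tx tz ty
          ⟨hn.2.2, fun h => hn.2.1 h.symm, hn.1⟩)
        hw tw hx₁ (Typ.congr h g₁ tu) a₁' (i2.congr h f₁) hx₀ (Typ.congr h g₀ tu) a₀'
        (i2.congr h f₀)
      exact ⟨hN, Or.inl ⟨tw, k2, k1⟩⟩
    · obtain ⟨k1, k2⟩ := indiv_close h.tri h.sub (ρ := .V (i + 2)) (σ := .V (i + 3))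
        (τ := .W i) (fun x hx y hy z hz tx ty tz hn => hN z hz x hx y hy tz tx ty
          ⟨fun h => hn.2.2 h.symm, hn.1, fun h => hn.2.1 h.symm⟩) hw tw hx₁
        (Typ.congr h g₁ tu) a₁' (i1.congr h f₁) hx₀ (Typ.congr h g₀ tu) a₀' (i1.congr h f₀)
      exact ⟨hN, Or.inr (Or.inl ⟨tw, k2, k1⟩)⟩
    · exact (not_mx_same h (nbV _) hm tu tw).elim

end Pool.Agent.H68.CW
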