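import Pool.Agent.H68.CW.SDef

/-!
SC. The properties `J i`, `K i` depend on the class only.

Proofs. (`Typ` is invariant under `E 0` by `h0`; `hE.le` lowers levels.)
* `JJ.congr`: let `(t, a, b)` be the triple of `u`. `JTrip` means that two of the three relations `t ~ a`, `t ~ b`, `a ≁ b` hold: a path with three vertices in the relation `GP` (`~` between `t` and `a, b`; `≁` between `a` and `b`).
  If `u` is an end of the path `u, x, y`: `Sys.bf` (`E 2 u u'`) gives `x'`, `E 1 x' x`, related to `u'` as `x` to `u`, then `Sys.bf` for `E 1 x x'` gives `y'`, `E 0 y' y`. If `u` is in the middle: twice `Sys.bf` for `u, u'`. 9 cases.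
* `KK.congr`: `Sys.bf` four times.
-/

set_option autoImplicit false

namespace Pool.Agent.H68.CW

variable {V : Type} {G : SimpleGraph V} {M X : Set V} {E : ℕ → V → V → Prop} {p : Fin 5 → V}

theorem Typ.congr (h : C5Sys G M X E p) {u u' : V} {τ : Ty5} (he : E 0 u u') (ht : Typ G p u τ) :
    Typ G p u' τ := fun j => by rw [← h.h0 u u' he j]; exact ht j

/-- back and forth with the type -/
theorem C5Sys.step (h : C5Sys G M X E p) {k : ℕ} {u u' x : V} {τ : Ty5} (he : E (k + 1) u u')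
    (hx : x ∈ X) (ht : Typ G p x τ) :
    ∃ x' ∈ X, E k x x' ∧ Typ G p x' τ ∧ (G.Adj u' x' ↔ G.Adj u x) := by
  obtain ⟨x', hx', h1, h2⟩ := h.sys.bf k u u' x he hx
  have h3 := h.sys.symm _ _ _ h1
  exact ⟨x', hx', h3, Typ.congr h (h.sys.le (Nat.zero_le k) h3) ht, h2⟩

theorem JJ.congr (h : C5Sys G M X E p) {i : Fin 5} {u u' : V} (hu : u ∈ X) (hu' : u' ∈ X)
    (he : E 2 u u') (hJ : JJ G X p i u) : JJ G X p i u' := by
  have _ := hu
  obtain ⟨t, ht, a, ha, b, hb, tt, ta, tb, hj, hc⟩ := hJ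
  have he0 : E 0 u u' := h.sys.le (Nat.zero_le 2) he
  rcases hc with rfl | rfl | rfl
  · have tu := Typ.congr h he0 tt
    rcases hj with ⟨h1, h2⟩ | ⟨h1, h2⟩ | ⟨h1, h2⟩
    · obtain ⟨a', ha', _, ta', h3⟩ := h.step he ha ta
      obtain ⟨b', hb', _, tb', h4⟩ := h.step he hb tb
      exact ⟨u', hu', a', ha', b', hb', tu, ta', tb', Or.inl ⟨h3.2 h1, h4.2 h2⟩, Or.inl rfl⟩
    · obtain ⟨a', ha', e1, ta', h3⟩ := h.step he ha ta
      obtain ⟨b', hb', _, tb', h4⟩ := h.step e1 hb tb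
      exact ⟨u', hu', a', ha', b', hb', tu, ta', tb',
        Or.inr (Or.inl ⟨h3.2 h1, fun h5 => h2 (h4.1 h5)⟩), Or.inl rfl⟩
    · obtain ⟨b', hb', e1, tb', h3⟩ := h.step he hb tb
      obtain ⟨a', ha', _, ta', h4⟩ := h.step e1 ha ta
      exact ⟨u', hu', a', ha', b', hb', tu, ta', tb',
        Or.inr (Or.inr ⟨h3.2 h1, fun h5 => h2 (h4.1 h5.symm).symm⟩), Or.inl rfl⟩
  · have tu := Typ.congr h he0 ta
    rcases hj with ⟨h1, h2⟩ | ⟨h1, h2⟩ | ⟨h1, h2⟩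
    · obtain ⟨t', ht', e1, tt', h3⟩ := h.step he ht tt
      obtain ⟨b', hb', _, tb', h4⟩ := h.step e1 hb tb
      exact ⟨t', ht', u', hu', b', hb', tt', tu, tb',
        Or.inl ⟨(h3.2 h1.symm).symm, h4.2 h2⟩, Or.inr (Or.inl rfl)⟩
    · obtain ⟨t', ht', _, tt', h3⟩ := h.step he ht tt
      obtain ⟨b', hb', _, tb', h4⟩ := h.step he hb tb
      exact ⟨t', ht', u', hu', b', hb', tt', tu, tb',
        Or.inr (Or.inl ⟨(h3.2 h1.symm).symm, fun h5 => h2 (h4.1 h5)⟩), Or.inr (Or.inl rfl)⟩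
    · obtain ⟨b', hb', e1, tb', h3⟩ := h.step he hb tb
      obtain ⟨t', ht', _, tt', h4⟩ := h.step e1 ht tt
      exact ⟨t', ht', u', hu', b', hb', tt', tu, tb',
        Or.inr (Or.inr ⟨(h4.2 h1.symm).symm, fun h5 => h2 (h3.1 h5)⟩), Or.inr (Or.inl rfl)⟩
  · have tu := Typ.congr h he0 tb
    rcases hj with ⟨h1, h2⟩ | ⟨h1, h2⟩ | ⟨h1, h2⟩
    · obtain ⟨t', ht', e1, tt', h3⟩ := h.step he ht tt
      obtain ⟨a', ha', _, ta', h4⟩ := h.step e1 ha ta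
      exact ⟨t', ht', a', ha', u', hu', tt', ta', tu,
        Or.inl ⟨h4.2 h1, (h3.2 h2.symm).symm⟩, Or.inr (Or.inr rfl)⟩
    · obtain ⟨a', ha', e1, ta', h3⟩ := h.step he ha ta
      obtain ⟨t', ht', _, tt', h4⟩ := h.step e1 ht tt
      exact ⟨t', ht', a', ha', u', hu', tt', ta', tu,
        Or.inr (Or.inl ⟨(h4.2 h1.symm).symm, fun h5 => h2 (h3.1 h5.symm).symm⟩),
        Or.inr (Or.inr rfl)⟩
    · obtain ⟨t', ht', _, tt', h3⟩ := h.step he ht tt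
      obtain ⟨a', ha', _, ta', h4⟩ := h.step he ha ta
      exact ⟨t', ht', a', ha', u', hu', tt', ta', tu,
        Or.inr (Or.inr ⟨(h3.2 h1.symm).symm, fun h5 => h2 (h4.1 h5.symm).symm⟩),
        Or.inr (Or.inr rfl)⟩

theorem Indiv.congr (h : C5Sys G M X E p) {τ : Ty5} {u u' : V} (he : E 1 u u')
    (hI : Indiv G X p τ u) : Indiv G X p τ u' := by
  obtain ⟨⟨y, hy, ty, h1⟩, z, hz, tz, h2⟩ := hI
  obtain ⟨y', hy', _, ty', h3⟩ := h.step he hy ty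
  obtain ⟨z', hz', _, tz', h4⟩ := h.step he hz tz
  exact ⟨⟨y', hy', ty', h3.2 h1⟩, z', hz', tz', fun h5 => h2 (h4.1 h5)⟩

theorem KK.congr (h : C5Sys G M X E p) {i : Fin 5} {u u' : V} (hu : u ∈ X) (hu' : u' ∈ X)
    (he : E 1 u u') (hK : KK G X p i u) : KK G X p i u' := by
  have _ := hu
  have _ := hu'
  have he0 : E 0 u u' := h.sys.le (Nat.zero_le 1) he
  obtain ⟨h0, ⟨t, h1, h2⟩ | ⟨t, h1, h2⟩ | ⟨t, h1, h2⟩⟩ := hK
  · exact ⟨h0, Or.inl ⟨Typ.congr h he0 t, h1.congr h he, h2.congr h he⟩⟩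
  · exact ⟨h0, Or.inr (Or.inl ⟨Typ.congr h he0 t, h1.congr h he, h2.congr h he⟩)⟩
  · exact ⟨h0, Or.inr (Or.inr ⟨Typ.congr h he0 t, h1.congr h he, h2.congr h he⟩)⟩

end Pool.Agent.H68.CW
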