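import Pool.Agent.H68.CW.Cert
import Pool.Agent.H68.CW.OneDef

/-!
SD. Vertices over an induced `C₅` (definitions).
-/

set_option autoImplicit false

namespace Pool.Agent.H68.CW

/-- types: no neighbour on the cycle; one neighbour `i`; the two neighbours `i - 1`, `i + 1` -/
inductive Ty5
  | T
  | W (i : Fin 5)
  | V (i : Fin 5)
  deriving DecidableEq

/-- is `j` a neighbour of a vertex of this type -/
def Ty5.nb : Ty5 → Fin 5 → Bool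
  | .T, _ => false
  | .W i, j => decide (j = i)
  | .V i, j => decide (j = i + 1 ∨ j = i + 4)

def Ty5.rot (s : Fin 5) : Ty5 → Ty5
  | .T => .T
  | .W i => .W (i + s)
  | .V i => .V (i + s)

def Ty5.mask : Ty5 → ℕ
  | .T => 0
  | .W i => 2 ^ i.1
  | .V i => 2 ^ ((i.1 + 1) % 5) + 2 ^ ((i.1 + 4) % 5)

/-! ### The abstract data for the grouping -/

open Ty5 in
/-- types which are never mixed -/
def badP : List (Ty5 × Ty5) :=
  [(T, T), (T, W 0), (W 0, T), (W 0, W 0), (W 0, W 1), (W 0, W 4), (W 0, V 1), (W 0, V 4),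
    (V 0, W 1), (V 0, W 4), (V 0, V 0), (V 0, V 2), (V 0, V 3)]

open Ty5 in
/-- no class of the first type is mixed with classes of the second and the third one -/
def badD : List (Ty5 × Ty5 × Ty5) :=
  [(T, V 0, V 2), (T, V 0, V 3),
    (W 0, W 2, W 3), (W 0, W 3, W 2), (W 0, W 2, V 0), (W 0, V 0, W 2), (W 0, W 2, V 2),
    (W 0, V 2, W 2), (W 0, W 3, V 0), (W 0, V 0, W 3), (W 0, W 3, V 3), (W 0, V 3, W 3),
    (W 0, V 0, V 3), (W 0, V 3, V 0), (W 0, V 2, V 0), (W 0, V 0, V 2),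
    (V 0, T, W 2), (V 0, W 2, T), (V 0, T, W 3), (V 0, W 3, T), (V 0, W 0, W 2), (V 0, W 2, W 0),
    (V 0, W 0, W 3), (V 0, W 3, W 0), (V 0, W 0, V 1), (V 0, V 1, W 0), (V 0, W 0, V 4),
    (V 0, V 4, W 0), (V 0, W 2, W 3), (V 0, W 3, W 2), (V 0, V 1, V 4), (V 0, V 4, V 1)]

open Ty5 in
/-- a class of the first type with the property `J 0` is not mixed with a class of the second type -/
def badJ : List (Ty5 × Ty5) :=
  [(T, V 4), (T, V 2), (V 0, V 4), (V 0, W 0), (V 0, W 2), (V 0, W 3), (V 1, V 2), (V 1, W 1),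
    (V 1, W 3), (V 1, W 4)]

open Ty5 in
/-- a class of the first type with the property `K 0` is not mixed with a class of the second type -/
def badK : List (Ty5 × Ty5) :=
  [(W 0, W 2), (W 0, W 3), (V 2, T), (V 2, V 1), (V 2, W 2), (V 2, W 4), (V 3, T), (V 3, V 4),
    (V 3, W 3), (V 3, W 1)]

variable {V : Type}

def Typ (G : SimpleGraph V) (p : Fin 5 → V) (v : V) (τ : Ty5) : Prop :=
  ∀ j : Fin 5, G.Adj v (p j) ↔ τ.nb j = true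

structure C5Sys (G : SimpleGraph V) (M X : Set V) (E : ℕ → V → V → Prop) (p : Fin 5 → V) :
    Prop where
  sys : Sys G X E
  sub : X ⊆ M
  pM : ∀ i, p i ∈ M
  pX : ∀ i, p i ∉ X
  root : ∀ i j, (G.Adj (p i) (p j) ↔ (j = i + 1 ∨ i = j + 1))
  h0 : ∀ u v, E 0 u v → ∀ i, (G.Adj u (p i) ↔ G.Adj v (p i))
  tri : TriFree G M
  free : FreeS G M
  tt : ∀ u ∈ X, ∀ v ∈ X, Typ G p u .T → Typ G p v .T → ¬ G.Adj u v

def specS (cty : List Ty5) (mix : List (ℕ × ℕ)) : Spec where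
  K := 5
  root := [(0, 1), (1, 2), (2, 3), (3, 4), (4, 0)]
  pat := true
  tt := true
  cty := cty.map (fun τ => some τ.mask)
  aty := []
  mix := mix
  N := 12

/-- the triples of types `W i`, `V (i + 2)`, `V (i + 3)` -/
def NoNull (G : SimpleGraph V) (X : Set V) (p : Fin 5 → V) (i : Fin 5) : Prop :=
  ∀ x ∈ X, ∀ y ∈ X, ∀ z ∈ X, Typ G p x (.W i) → Typ G p y (.V (i + 2)) → Typ G p z (.V (i + 3)) →
    ¬ (¬ G.Adj x y ∧ ¬ G.Adj y z ∧ ¬ G.Adj x z)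

/-- `u` has a neighbour and a non-neighbour of type `τ` -/
def Indiv (G : SimpleGraph V) (X : Set V) (p : Fin 5 → V) (τ : Ty5) (u : V) : Prop :=
  (∃ y ∈ X, Typ G p y τ ∧ G.Adj u y) ∧ ∃ y ∈ X, Typ G p y τ ∧ ¬ G.Adj u y

def JJ (G : SimpleGraph V) (X : Set V) (p : Fin 5 → V) (i : Fin 5) (u : V) : Prop :=
  ∃ t ∈ X, ∃ a ∈ X, ∃ b ∈ X, Typ G p t .T ∧ Typ G p a (.V i) ∧ Typ G p b (.V (i + 1)) ∧
    JTrip G t a b ∧ (u = t ∨ u = a ∨ u = b)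

def KK (G : SimpleGraph V) (X : Set V) (p : Fin 5 → V) (i : Fin 5) (u : V) : Prop :=
  NoNull G X p i ∧
    ((Typ G p u (.W i) ∧ Indiv G X p (.V (i + 2)) u ∧ Indiv G X p (.V (i + 3)) u) ∨
      (Typ G p u (.V (i + 2)) ∧ Indiv G X p (.W i) u ∧ Indiv G X p (.V (i + 3)) u) ∨
      (Typ G p u (.V (i + 3)) ∧ Indiv G X p (.W i) u ∧ Indiv G X p (.V (i + 2)) u))

/-- all that is used for the grouping -/
structure GD (X : Set V) (Mx : V → V → Prop) (ty : V → Ty5) (J K : Fin 5 → V → Prop) : Prop where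
  symm : ∀ u w, Mx u w → Mx w u
  pair : ∀ s : Fin 5, ∀ q ∈ badP, ∀ u ∈ X, ∀ w ∈ X, ty u = q.1.rot s → ty w = q.2.rot s → ¬ Mx u w
  dbl : ∀ s : Fin 5, ∀ q ∈ badD, ∀ u ∈ X, ∀ w ∈ X, ∀ w' ∈ X, ty u = q.1.rot s →
    ty w = q.2.1.rot s → ty w' = q.2.2.rot s → Mx u w → ¬ Mx u w'
  jex : ∀ s : Fin 5, ∀ q ∈ badJ, ∀ u ∈ X, ∀ w ∈ X, ty u = q.1.rot s → ty w = q.2.rot s →
    J s u → ¬ Mx u w
  kex : ∀ s : Fin 5, ∀ q ∈ badK, ∀ u ∈ X, ∀ w ∈ X, ty u = q.1.rot s → ty w = q.2.rot s →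
    K s u → ¬ Mx u w
  jty : ∀ i, ∀ u ∈ X, J i u → ty u = .T ∨ ty u = .V i ∨ ty u = .V (i + 1)
  kty : ∀ i, ∀ u ∈ X, K i u → ty u = .W i ∨ ty u = .V (i + 2) ∨ ty u = .V (i + 3)
  jcl : ∀ i, ∀ u ∈ X, ∀ w ∈ X, Mx u w → J i u → (ty w = .T ∨ ty w = .V i ∨ ty w = .V (i + 1)) →
    J i w
  kcl : ∀ i, ∀ u ∈ X, ∀ w ∈ X, Mx u w → K i u →
    (ty w = .W i ∨ ty w = .V (i + 2) ∨ ty w = .V (i + 3)) → K i w
  jin : ∀ i, ∀ u ∈ X, ∀ w ∈ X, ∀ w' ∈ X, Mx u w → Mx u w' →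
    ((ty u = .T ∧ ty w = .V i ∧ ty w' = .V (i + 1)) ∨
      (ty u = .V i ∧ ty w = .T ∧ ty w' = .V (i + 1)) ∨
      (ty u = .V (i + 1) ∧ ty w = .T ∧ ty w' = .V i)) → J i u
  kin : ∀ i, ∀ u ∈ X, ∀ w ∈ X, ∀ w' ∈ X, Mx u w → Mx u w' →
    ((ty u = .W i ∧ ty w = .V (i + 2) ∧ ty w' = .V (i + 3)) ∨
      (ty u = .V (i + 2) ∧ ty w = .W i ∧ ty w' = .V (i + 3)) ∨
      (ty u = .V (i + 3) ∧ ty w = .W i ∧ ty w' = .V (i + 2))) → K i u

/-- the groups -/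
inductive Gam
  | I (i : Fin 5)
  | II (i : Fin 5)
  | P (i : Fin 5)
  | Q (i : Fin 5)
  | N
  deriving DecidableEq, Fintype

end Pool.Agent.H68.CW
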