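import Pool.Agent.H68.CW.SDef

/-!
SF. Facts over a `C₅` from certificates.

Proofs.
* `Typ.exists`: `v` has no two adjacent neighbours on the cycle (`TriFree`; `root`), so the set of its neighbours among `p 0, ..., p 4` is independent in `C₅`: empty, `{i}`, or `{i + 1, i + 4}`. Case distinction on the five
  propositions.
* `Typ.unique`: the functions `nb` are different (`decide`).
* `C5Sys.fact`: `cert_sound` for the root `p' n = p ((n : Fin 5) + s)` (`n : ℕ`, e.g. `p' n = p (⟨n % 5, _⟩ + s)`), `sp = specS cty mix`. `Ctx.root`: 25 cases. `Ctx.cty`: `(τ.rot s).nb (j + s) = τ.mask.testBit j` for `j < 5` (11 types, 5 rotations: `decide`).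
  `pinj`: from `root` (`C₅` has no two vertices with the same neighbours; or `p i = p j` implies the same adjacencies). `tt`: `Typ G p u .T` means no neighbours among the `p i`. `freeP`, `aty` are vacuous.
-/

set_option autoImplicit false

namespace Pool.Agent.H68.CW

variable {V : Type} {G : SimpleGraph V} {M X : Set V} {E : ℕ → V → V → Prop} {p : Fin 5 → V}

theorem SFact_ex (b0 b1 b2 b3 b4 : Bool) (h0 : (b0 && b1) = false) (h1 : (b1 && b2) = false)
    (h2 : (b2 && b3) = false) (h3 : (b3 && b4) = false) (h4 : (b4 && b0) = false) :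
    ∃ τ ∈ [Ty5.T, .W 0, .W 1, .W 2, .W 3, .W 4, .V 0, .V 1, .V 2, .V 3, .V 4],
      τ.nb 0 = b0 ∧ τ.nb 1 = b1 ∧ τ.nb 2 = b2 ∧ τ.nb 3 = b3 ∧ τ.nb 4 = b4 := by
  cases b0 <;> cases b1 <;> cases b2 <;> cases b3 <;> cases b4 <;>
    first
      | exact absurd h0 (by decide)
      | exact absurd h1 (by decide)
      | exact absurd h2 (by decide)
      | exact absurd h3 (by decide)
      | exact absurd h4 (by decide)
      | decide

theorem Typ.exists' (htri : TriFree G M) (hp : ∀ i, p i ∈ M)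
    (hroot : ∀ i j, (G.Adj (p i) (p j) ↔ (j = i + 1 ∨ i = j + 1))) {v : V} (hv : v ∈ M) :
    ∃ τ, Typ G p v τ := by
  classical
  have h1 : ∀ i : Fin 5, (decide (G.Adj v (p i)) && decide (G.Adj v (p (i + 1)))) = false := by
    intro i
    rw [Bool.and_eq_false_iff, decide_eq_false_iff_not, decide_eq_false_iff_not]
    by_cases h : G.Adj v (p i)
    · exact Or.inr (htri v hv (p i) (hp i) (p (i + 1)) (hp _) h ((hroot _ _).2 (Or.inl rfl)))
    · exact Or.inl h
  obtain ⟨τ, -, h0, h1, h2, h3, h4⟩ := SFact_ex (decide (G.Adj v (p 0))) (decide (G.Adj v (p 1)))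
    (decide (G.Adj v (p 2))) (decide (G.Adj v (p 3))) (decide (G.Adj v (p 4)))
    (h1 0) (h1 1) (h1 2) (h1 3) (h1 4)
  have hb : ∀ j : Fin 5, τ.nb j = decide (G.Adj v (p j)) := by
    intro j
    fin_cases j
    exacts [h0, h1, h2, h3, h4]
  refine ⟨τ, fun j => ?_⟩
  rw [hb j, decide_eq_true_iff]

theorem SFact_ne1 : ∀ i : Fin 5, ¬ ∀ j, Ty5.nb .T j = Ty5.nb (.W i) j := by decide
theorem SFact_ne2 : ∀ i : Fin 5, ¬ ∀ j, Ty5.nb .T j = Ty5.nb (.V i) j := by decide
theorem SFact_ne3 : ∀ i k : Fin 5, ¬ ∀ j, Ty5.nb (.W k) j = Ty5.nb (.V i) j := by decide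
theorem SFact_ne4 : ∀ i k : Fin 5, (∀ j, Ty5.nb (.W k) j = Ty5.nb (.W i) j) → k = i := by decide
theorem SFact_ne5 : ∀ i k : Fin 5, (∀ j, Ty5.nb (.V k) j = Ty5.nb (.V i) j) → k = i := by decide

theorem Typ.unique {v : V} {τ σ : Ty5} (h : Typ G p v τ) (h' : Typ G p v σ) : τ = σ := by
  have h1 : ∀ j, τ.nb j = σ.nb j := by
    intro j
    rw [Bool.eq_iff_iff, ← h j, ← h' j]
  cases τ with
  | T =>
    cases σ with
    | T => rfl
    | W i => exact absurd h1 (SFact_ne1 i)
    | V i => exact absurd h1 (SFact_ne2 i)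
  | W k =>
    cases σ with
    | T => exact absurd (fun j => (h1 j).symm) (SFact_ne1 k)
    | W i => rw [SFact_ne4 i k h1]
    | V i => exact absurd h1 (SFact_ne3 i k)
  | V k =>
    cases σ with
    | T => exact absurd (fun j => (h1 j).symm) (SFact_ne2 k)
    | W i => exact absurd (fun j => (h1 j).symm) (SFact_ne3 k i)
    | V i => rw [SFact_ne5 i k h1]

/-- the rotated index -/
def SFact_ix (s : Fin 5) (n : ℕ) : Fin 5 := ⟨n % 5, Nat.mod_lt n (by norm_num)⟩ + s

theorem SFact_root (s : Fin 5) (i : ℕ) (hi : i < 5) (j : ℕ) (hj : j < 5) :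
    ((SFact_ix s j = SFact_ix s i + 1 ∨ SFact_ix s i = SFact_ix s j + 1) ↔
      ((i, j) ∈ ([(0, 1), (1, 2), (2, 3), (3, 4), (4, 0)] : List (ℕ × ℕ)) ∨
        (j, i) ∈ ([(0, 1), (1, 2), (2, 3), (3, 4), (4, 0)] : List (ℕ × ℕ)))) := by
  interval_cases i <;> interval_cases j <;> revert s <;> decide

theorem SFact_inj : ∀ s : Fin 5, ∀ i < 5, ∀ j < 5, SFact_ix s i = SFact_ix s j → i = j := by
  decide

theorem SFact_surj : ∀ s j : Fin 5, ∃ i < 5, SFact_ix s i = j := by
  decide

theorem SFact_cyc : ∀ a b : Fin 5, (∀ j : Fin 5, (j = a + 1 ∨ a = j + 1) ↔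
    (j = b + 1 ∨ b = j + 1)) → a = b := by
  decide

theorem SFact_T : ∀ s : Fin 5, ∀ i < 5,
    ((Ty5.rot s .T).nb (SFact_ix s i) = Nat.testBit (Ty5.mask .T) i) := by
  decide

theorem SFact_W : ∀ k s : Fin 5, ∀ i < 5,
    ((Ty5.rot s (.W k)).nb (SFact_ix s i) = Nat.testBit (Ty5.mask (.W k)) i) := by
  decide

theorem SFact_V : ∀ k s : Fin 5, ∀ i < 5,
    ((Ty5.rot s (.V k)).nb (SFact_ix s i) = Nat.testBit (Ty5.mask (.V k)) i) := by
  decide

theorem SFact_mask (τ : Ty5) (s : Fin 5) (i : ℕ) (hi : i < 5) :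
    ((τ.rot s).nb (SFact_ix s i) = Nat.testBit τ.mask i) := by
  cases τ with
  | T => exact SFact_T s i hi
  | W k => exact SFact_W k s i hi
  | V k => exact SFact_V k s i hi

theorem C5Sys.fact (h : C5Sys G M X E p) (s : Fin 5) (cty : List Ty5) (mix : List (ℕ × ℕ)) (m : ℕ)
    (hm : m ≤ cty.length) (hm' : m ≤ 27) (adj : List (ℕ × ℕ × Bool)) (t : Tree)
    (hchk : check (specS cty mix) t (St.init (specS cty mix) m adj) = true) (rep : ℕ → V)
    (hX : ∀ c < cty.length, rep c ∈ X)
    (hty : ∀ c τ, cty[c]? = some τ → Typ G p (rep c) (τ.rot s))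
    (hmix : ∀ c d, (c, d) ∈ mix → Mx G X E 12 (rep c) (rep d))
    (hadj : ∀ e ∈ adj, e.1 < m ∧ e.2.1 < m ∧ (G.Adj (rep e.1) (rep e.2.1) ↔ e.2.2 = true)) :
    False := by
  have hlen : (specS cty mix).cty.length = cty.length := by
    show (cty.map (fun τ => some τ.mask)).length = cty.length
    rw [List.length_map]
  have hT : ∀ u, (∀ i < 5, ¬ G.Adj u (p (SFact_ix s i))) → Typ G p u .T := by
    intro u hu j
    obtain ⟨i, hi, rfl⟩ := SFact_surj s j
    exact iff_of_false (hu i hi) (by simp [Ty5.nb])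
  have hctx : Ctx G M X E (specS cty mix) (fun n => p (SFact_ix s n)) rep := by
    refine ⟨h.sys, h.sub, fun i _ => h.pM _, fun i _ => h.pX _, ?_, ?_, ?_, h.tri, fun _ => h.free,
      ?_, ?_, ?_, ?_, ?_, ?_⟩
    · intro i hi j hj he
      refine SFact_inj s i hi j hj (SFact_cyc _ _ fun k => ?_)
      have he' : p (SFact_ix s i) = p (SFact_ix s j) := he
      rw [← h.root, ← h.root, he']
    · intro i hi j hj
      show G.Adj (p (SFact_ix s i)) (p (SFact_ix s j)) ↔ _
      rw [h.root]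
      exact SFact_root s i hi j hj
    · intro u v he i _
      exact h.h0 u v he _
    · intro hp
      have hp' : true = false := hp
      exact absurd hp' (by decide)
    · intro _ u hu v hv h1 h2
      exact h.tt u hu v hv (hT u h1) (hT v h2)
    · intro ha
      exact absurd rfl ha
    · intro c hc
      rw [hlen] at hc
      exact hX c hc
    · intro c τ hc i hi
      have hc' : (cty.map (fun τ => some τ.mask))[c]? = some (some τ) := hc
      rw [List.getElem?_map, Option.map_eq_some_iff] at hc'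
      obtain ⟨σ, h1, h2⟩ := hc'
      have h3 : σ.mask = τ := Option.some.inj h2
      have h4 := hty c σ h1 (SFact_ix s i)
      rw [SFact_mask σ s i hi, h3] at h4
      exact h4
    · intro c d hcd
      exact hmix c d hcd
  refine cert_sound hctx m (by rw [hlen]; exact hm) ?_ adj hadj t hchk
  show 5 + m ≤ 32
  omega

end Pool.Agent.H68.CW
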