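import Pool.Agent.H68.CW.SDef

/-!
SG. The grouping of the vertices over a `C₅` (purely combinatorial).

Proof. For `u` with type `τ` and a mixed partner of type `σ` put (`J i`, `K i` stand for `J i u`, `K i u`)
* `pg T (V i) = pg (V i) T =` if `J i` then `I i` else if `J (i+4)` then `I (i+4)` else `P i`;
* `pg (V i) (V (i+1)) = pg (V (i+1)) (V i) =` if `J i` then `I i` else if `K (i+3)` then `II (i+3)` else `Q i`;
* `pg (V i) (W i) = pg (W i) (V i) = P i`;
* `pg (W i) (V (i+2)) = pg (V (i+2)) (W i) =` if `K i` then `II i` else `Q (i+1)`;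
* `pg (W i) (V (i+3)) = pg (V (i+3)) (W i) =` if `K i` then `II i` else `Q (i+3)`;
* `pg (W i) (W (i+2)) = pg (W (i+2)) (W i) = Q (i+3)`.
By `pair` (all other pairs of types are in `badP` up to a rotation) these are all possible cases of mixed pairs.
`g u = pg (ty u) (ty w)` with the status of `u`, for a chosen `w ∈ X` with `Mx u w` (`Classical.choose`), and `N` if there is no such `w`.

(1) Consistency: if `Mx u w`, `Mx u w'` then `pg (ty u) (ty w) = pg (ty u) (ty w')`. Clear if `ty w = ty w'`. Otherwise: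
* `u` of type `T`: `w, w'` of types `V i`, `V j`, `j ≠ i`; `j = i ± 2` is in `badD`. So let (up to exchange) `j = i + 1`: `jin` gives `J i u`, so the group of `w` is `I i`. `J (i+1) u` is impossible (`jex` with `s = i + 1`,
  `(T, V 4)`: `w` of type `V i = V (i+1+4)`), so the group of `w'` is `I i` as well.
* `u` of type `V i`: partners `T, V (i+1), V (i+4), W i, W (i+2), W (i+3)`. By `badD` the possible pairs of different partners are: `(T, W i)`: `J i u` excludes `W i` (`badJ (V 0, W 0)`), `J (i+4) u` excludes `W i` (`badJ (V 1, W 1)`, `s = i + 4`), so both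
  groups are `P i`. `(T, V (i+1))`: `jin`: `J i u`; both `I i`. `(T, V (i+4))`: `jin` with index `i + 4`: `J (i+4) u`; `J i u` excludes `V (i+4)`; so both groups are `I (i+4)` (the second pair is `V (i+4), V i`, with index `i + 4`). `(V (i+1), W (i+2))`: the groups are `I i`/`II (i+3)`/`Q i` and
  `II (i+2)`/`Q i`; `J i u` excludes `W (i+2)`; `K (i+3) u` (`u` is of type `V ((i+3)+2)`) excludes `W (i+2) = W ((i+3)+4)`; `K (i+2) u` (`u` of type `V ((i+2)+3)`) excludes `V (i+1) = V ((i+2)+4)`; so both are `Q i`. `(V (i+1), W (i+3))`: `kin` with index `i + 3`: `K (i+3) u`;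
  `J i u` excludes `W (i+3)`; both `II (i+3)`. `(V (i+4), W (i+3))`, `(V (i+4), W (i+2))`: the mirror images.
* `u` of type `W i`: partners `V i, V (i+2), V (i+3), W (i+2), W (i+3)`; possible pairs: `(V (i+2), V (i+3))`: `kin`: both `II i`. `(V (i+2), W (i+3))`: `K i u` excludes `W (i+3)`; both `Q (i+1)`. `(V (i+3), W (i+2))`: both `Q (i+3)`.
(2) Symmetry: if `Mx u w` then `pg (ty u) (ty w)` with the status of `u` is `pg (ty w) (ty u)` with the status of `w`: the relevant statuses agree by `jcl`, `kcl` and `symm`; so `g u = g w`.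
(3) The description of the blocks: from the formulas (`g u = II i` only if `K i u`; `g u = P i` and `ty u = T` only if the partner is of type `V i`; `g u = N` only if there is no partner).
Everything can be made concrete with `fin_cases i`; all conditions on types are decidable.
-/

set_option autoImplicit false

namespace Pool.Agent.H68.CW

variable {V : Type}


/-! ### Boolean versions of the lists of bad pairs -/

def badPb (τ σ : Ty5) : Bool :=
  (List.finRange 5).any fun s => badP.any fun q => decide (τ = q.1.rot s) && decide (σ = q.2.rot s)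

def badDb (τ σ σ' : Ty5) : Bool :=
  (List.finRange 5).any fun s => badD.any fun q =>
    decide (τ = q.1.rot s) && decide (σ = q.2.1.rot s) && decide (σ' = q.2.2.rot s)

def badJb (s : Fin 5) (τ σ : Ty5) : Bool :=
  badJ.any fun q => decide (τ = q.1.rot s) && decide (σ = q.2.rot s)

def badKb (s : Fin 5) (τ σ : Ty5) : Bool :=
  badK.any fun q => decide (τ = q.1.rot s) && decide (σ = q.2.rot s)

instance : Fintype Ty5 :=
  ⟨⟨Ty5.T ::ₘ ((Finset.univ : Finset (Fin 5)).val.map Ty5.W + (Finset.univ : Finset (Fin 5)).val.map Ty5.V),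
    by decide⟩, by rintro (_ | i | i) <;> simp <;> revert i <;> decide⟩

/-- shapes of mixed pairs -/
def Sh1 (τ σ : Ty5) : Prop :=
  ∃ i : Fin 5, (τ = .T ∧ σ = .V i) ∨ (τ = .V i ∧ σ = .V (i + 1)) ∨ (τ = .V i ∧ σ = .W i) ∨
    (τ = .W i ∧ σ = .V (i + 2)) ∨ (τ = .W i ∧ σ = .V (i + 3)) ∨ (τ = .W i ∧ σ = .W (i + 2))

instance : DecidableRel Sh1 := fun _ _ => inferInstanceAs (Decidable (∃ _, _))

/-- shapes of a class with two different partners -/
def Sh2 (τ σ σ' : Ty5) : Prop :=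
  ∃ i : Fin 5,
    (τ = .T ∧ σ = .V i ∧ σ' = .V (i + 1)) ∨
    (τ = .V i ∧ σ = .T ∧ σ' = .W i) ∨
    (τ = .V i ∧ σ = .T ∧ σ' = .V (i + 1)) ∨
    (τ = .V (i + 1) ∧ σ = .T ∧ σ' = .V i) ∨
    (τ = .V i ∧ σ = .V (i + 1) ∧ σ' = .W (i + 2)) ∨
    (τ = .V i ∧ σ = .V (i + 1) ∧ σ' = .W (i + 3)) ∨
    (τ = .V (i + 1) ∧ σ = .V i ∧ σ' = .W (i + 4)) ∨
    (τ = .V (i + 1) ∧ σ = .V i ∧ σ' = .W (i + 3)) ∨
    (τ = .W i ∧ σ = .V (i + 2) ∧ σ' = .V (i + 3)) ∨
    (τ = .W i ∧ σ = .V (i + 2) ∧ σ' = .W (i + 3)) ∨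
    (τ = .W i ∧ σ = .V (i + 3) ∧ σ' = .W (i + 2))

instance (τ σ σ' : Ty5) : Decidable (Sh2 τ σ σ') := inferInstanceAs (Decidable (∃ _, _))

theorem sh1_of : ∀ τ σ : Ty5, badPb τ σ = false → badPb σ τ = false → Sh1 τ σ ∨ Sh1 σ τ := by
  decide +kernel


def allowed (τ σ σ' : Ty5) : Bool :=
  !(badPb τ σ || badPb τ σ' || badPb σ τ || badPb σ' τ || badDb τ σ σ' || badDb τ σ' σ)

theorem sh2_of : ∀ τ σ σ' : Ty5, allowed τ σ σ' = true → σ = σ' ∨ Sh2 τ σ σ' ∨ Sh2 τ σ' σ := by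
  decide +kernel


/-- the group of a mixed pair of types -/
def pg (js ks : Fin 5 → Bool) : Ty5 → Ty5 → Gam
  | .T, .V i => if js i then .I i else if js (i + 4) then .I (i + 4) else .P i
  | .V i, .T => if js i then .I i else if js (i + 4) then .I (i + 4) else .P i
  | .V i, .V j =>
      if j = i + 1 then (if js i then .I i else if ks (i + 3) then .II (i + 3) else .Q i)
      else if i = j + 1 then (if js j then .I j else if ks (j + 3) then .II (j + 3) else .Q j)
      else .N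
  | .V i, .W j =>
      if i = j then .P j
      else if i = j + 2 then (if ks j then .II j else .Q (j + 1))
      else if i = j + 3 then (if ks j then .II j else .Q (j + 3))
      else .N
  | .W j, .V i =>
      if i = j then .P j
      else if i = j + 2 then (if ks j then .II j else .Q (j + 1))
      else if i = j + 3 then (if ks j then .II j else .Q (j + 3))
      else .N
  | .W i, .W j =>
      if j = i + 2 then .Q (i + 3) else if i = j + 2 then .Q (j + 3) else .N
  | _, _ => .N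

section pg

variable (js ks : Fin 5 → Bool) (i : Fin 5)

theorem pg_TV : pg js ks .T (.V i) =
    if js i then .I i else if js (i + 4) then .I (i + 4) else .P i := rfl

theorem pg_VT : pg js ks (.V i) .T =
    if js i then .I i else if js (i + 4) then .I (i + 4) else .P i := rfl

theorem pg_VV : pg js ks (.V i) (.V (i + 1)) =
    if js i then .I i else if ks (i + 3) then .II (i + 3) else .Q i := by
  simp [pg]

theorem pg_VV' : pg js ks (.V (i + 1)) (.V i) =
    if js i then .I i else if ks (i + 3) then .II (i + 3) else .Q i := by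
  have h : i ≠ i + 1 + 1 := by revert i; decide
  simp only [pg, if_neg h, if_true]

theorem pg_VW : pg js ks (.V i) (.W i) = .P i := by simp [pg]

theorem pg_WV : pg js ks (.W i) (.V i) = .P i := by simp [pg]

theorem pg_WV2 : pg js ks (.W i) (.V (i + 2)) = if ks i then .II i else .Q (i + 1) := by
  have h : i + 2 ≠ i := by revert i; decide
  simp only [pg, if_neg h, if_true]

theorem pg_VW2 : pg js ks (.V (i + 2)) (.W i) = if ks i then .II i else .Q (i + 1) := by
  have h : i + 2 ≠ i := by revert i; decide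
  simp only [pg, if_neg h, if_true]

theorem pg_WV3 : pg js ks (.W i) (.V (i + 3)) = if ks i then .II i else .Q (i + 3) := by
  have h : i + 3 ≠ i := by revert i; decide
  have h' : i + 3 ≠ i + 2 := by revert i; decide
  simp only [pg, if_neg h, if_neg h', if_true]

theorem pg_VW3 : pg js ks (.V (i + 3)) (.W i) = if ks i then .II i else .Q (i + 3) := by
  have h : i + 3 ≠ i := by revert i; decide
  have h' : i + 3 ≠ i + 2 := by revert i; decide
  simp only [pg, if_neg h, if_neg h', if_true]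

theorem pg_WW : pg js ks (.W i) (.W (i + 2)) = .Q (i + 3) := by simp [pg]

theorem pg_WW' : pg js ks (.W (i + 2)) (.W i) = .Q (i + 3) := by
  have h : i ≠ i + 2 + 2 := by revert i; decide
  simp only [pg, if_neg h, if_true]

end pg

theorem pg_ne_N (js ks : Fin 5 → Bool) {τ σ : Ty5} (h : Sh1 τ σ ∨ Sh1 σ τ) :
    pg js ks τ σ ≠ .N := by
  rcases h with ⟨i, h⟩ | ⟨i, h⟩ <;>
    rcases h with ⟨rfl, rfl⟩ | ⟨rfl, rfl⟩ | ⟨rfl, rfl⟩ | ⟨rfl, rfl⟩ | ⟨rfl, rfl⟩ | ⟨rfl, rfl⟩ <;>
    simp only [pg_TV, pg_VT, pg_VV, pg_VV', pg_VW, pg_WV, pg_WV2, pg_VW2, pg_WV3, pg_VW3, pg_WW,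
      pg_WW'] <;> (try split_ifs) <;> simp

theorem pg_I {js ks : Fin 5 → Bool} {τ σ : Ty5} {i : Fin 5} (h : pg js ks τ σ = .I i) :
    τ = .T ∨ τ = .V i ∨ τ = .V (i + 1) := by
  have e : ∀ i : Fin 5, i + 4 + 1 = i := by decide
  rcases τ with _ | a | a <;> rcases σ with _ | b | b <;> simp only [pg] at h <;>
    (try split_ifs at h) <;> simp only [Gam.I.injEq, reduceCtorEq] at h <;> subst_vars <;>
    simp only [e, reduceCtorEq, Ty5.V.injEq, true_or, or_true, false_or]

theorem pg_II {js ks : Fin 5 → Bool} {τ σ : Ty5} {i : Fin 5} (h : pg js ks τ σ = .II i) :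
    ks i = true := by
  rcases τ with _ | a | a <;> rcases σ with _ | b | b <;> simp only [pg] at h <;>
    (try split_ifs at h) <;> simp_all

theorem pg_P {js ks : Fin 5 → Bool} {τ σ : Ty5} {i : Fin 5} (h : pg js ks τ σ = .P i) :
    (τ = .T ∧ σ = .V i) ∨ τ = .V i ∨ τ = .W i := by
  rcases τ with _ | a | a <;> rcases σ with _ | b | b <;> simp only [pg] at h <;>
    (try split_ifs at h) <;> simp_all

theorem pg_Q {js ks : Fin 5 → Bool} {τ σ : Ty5} {i : Fin 5} (h : pg js ks τ σ = .Q i) :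
    τ = .V i ∨ τ = .V (i + 1) ∨ τ = .W (i + 2) ∨ τ = .W (i + 4) := by
  have e1 : ∀ i : Fin 5, i + 1 + 4 = i := by decide
  have e2 : ∀ i : Fin 5, i + 1 + 1 = i + 2 := by decide
  have e3 : ∀ i : Fin 5, i + 3 + 2 = i := by decide
  have e4 : ∀ i : Fin 5, i + 3 + 4 = i + 2 := by decide
  rcases τ with _ | a | a <;> rcases σ with _ | b | b <;> simp only [pg] at h <;>
    (try split_ifs at h) <;> simp only [Gam.Q.injEq, reduceCtorEq] at h <;> subst_vars <;>
    simp only [e1, e2, e3, e4, reduceCtorEq, Ty5.V.injEq, Ty5.W.injEq, true_or, or_true, false_or]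


section main

variable {X : Set V} {Mx : V → V → Prop} {ty : V → Ty5} {J K : Fin 5 → V → Prop}

theorem GD.pairb (h : GD X Mx ty J K) {u w : V} (hu : u ∈ X) (hw : w ∈ X) (hm : Mx u w) :
    badPb (ty u) (ty w) = false := by
  by_contra hb
  rw [Bool.not_eq_false] at hb
  unfold badPb at hb
  rw [List.any_eq_true] at hb
  obtain ⟨s, -, hb⟩ := hb
  rw [List.any_eq_true] at hb
  obtain ⟨q, hq, hb⟩ := hb
  simp only [Bool.and_eq_true, decide_eq_true_eq] at hb
  exact h.pair s q hq u hu w hw hb.1 hb.2 hm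

theorem GD.dblb (h : GD X Mx ty J K) {u w w' : V} (hu : u ∈ X) (hw : w ∈ X) (hw' : w' ∈ X)
    (hm : Mx u w) (hm' : Mx u w') : badDb (ty u) (ty w) (ty w') = false := by
  by_contra hb
  rw [Bool.not_eq_false] at hb
  unfold badDb at hb
  rw [List.any_eq_true] at hb
  obtain ⟨s, -, hb⟩ := hb
  rw [List.any_eq_true] at hb
  obtain ⟨q, hq, hb⟩ := hb
  simp only [Bool.and_eq_true, decide_eq_true_eq] at hb
  exact h.dbl s q hq u hu w hw w' hw' hb.1.1 hb.1.2 hb.2 hm hm'

theorem GD.jexb (h : GD X Mx ty J K) (s : Fin 5) {u w : V} (hu : u ∈ X) (hw : w ∈ X)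
    (hm : Mx u w) (hb : badJb s (ty u) (ty w) = true) : ¬ J s u := by
  intro hj
  unfold badJb at hb
  rw [List.any_eq_true] at hb
  obtain ⟨q, hq, hb⟩ := hb
  simp only [Bool.and_eq_true, decide_eq_true_eq] at hb
  exact h.jex s q hq u hu w hw hb.1 hb.2 hj hm

theorem GD.kexb (h : GD X Mx ty J K) (s : Fin 5) {u w : V} (hu : u ∈ X) (hw : w ∈ X)
    (hm : Mx u w) (hb : badKb s (ty u) (ty w) = true) : ¬ K s u := by
  intro hj
  unfold badKb at hb
  rw [List.any_eq_true] at hb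
  obtain ⟨q, hq, hb⟩ := hb
  simp only [Bool.and_eq_true, decide_eq_true_eq] at hb
  exact h.kex s q hq u hu w hw hb.1 hb.2 hj hm

open Classical in
/-- the group of the class of `u` seen from a partner of type `σ` -/
noncomputable def gp (ty : V → Ty5) (J K : Fin 5 → V → Prop) (u : V) (σ : Ty5) : Gam :=
  pg (fun i => decide (J i u)) (fun i => decide (K i u)) (ty u) σ

open Classical in
theorem GD.cons_aux (h : GD X Mx ty J K) {u w w' : V} (hu : u ∈ X) (hw : w ∈ X) (hw' : w' ∈ X)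
    (hm : Mx u w) (hm' : Mx u w') (hs : Sh2 (ty u) (ty w) (ty w')) :
    gp ty J K u (ty w) = gp ty J K u (ty w') := by
  obtain ⟨i, hs⟩ := hs
  have e14 : i + 1 + 4 = i := by fin_cases i <;> rfl
  unfold gp
  rcases hs with hs | hs | hs | hs | hs | hs | hs | hs | hs | hs | hs
  · -- T, V i, V (i+1)
    have h1 : J i u := h.jin i u hu w hw w' hw' hm hm' (Or.inl hs)
    have h2 : ¬ J (i + 1) u := h.jexb (i + 1) hu hw hm (by
      rw [hs.1, hs.2.1]; fin_cases i <;> rfl)
    rw [hs.1, hs.2.1, hs.2.2, pg_TV, pg_TV, e14]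
    simp [h1, h2]
  · -- V i, T, W i
    have h1 : ¬ J i u := h.jexb i hu hw' hm' (by rw [hs.1, hs.2.2]; fin_cases i <;> rfl)
    have h2 : ¬ J (i + 4) u := h.jexb (i + 4) hu hw' hm' (by rw [hs.1, hs.2.2]; fin_cases i <;> rfl)
    rw [hs.1, hs.2.1, hs.2.2, pg_VT, pg_VW]
    simp [h1, h2]
  · -- V i, T, V (i+1)
    have h1 : J i u := h.jin i u hu w hw w' hw' hm hm' (Or.inr (Or.inl hs))
    rw [hs.1, hs.2.1, hs.2.2, pg_VT, pg_VV]
    simp [h1]
  · -- V (i+1), T, V i
    have h1 : J i u := h.jin i u hu w hw w' hw' hm hm' (Or.inr (Or.inr hs))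
    have h2 : ¬ J (i + 1) u := h.jexb (i + 1) hu hw' hm' (by
      rw [hs.1, hs.2.2]; fin_cases i <;> rfl)
    rw [hs.1, hs.2.1, hs.2.2, pg_VT, pg_VV', e14]
    simp [h1, h2]
  · -- V i, V (i+1), W (i+2)
    have h1 : ¬ J i u := h.jexb i hu hw' hm' (by rw [hs.1, hs.2.2]; fin_cases i <;> rfl)
    have h2 : ¬ K (i + 3) u := h.kexb (i + 3) hu hw' hm' (by rw [hs.1, hs.2.2]; fin_cases i <;> rfl)
    have h3 : ¬ K (i + 2) u := h.kexb (i + 2) hu hw hm (by rw [hs.1, hs.2.1]; fin_cases i <;> rfl)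
    have e := pg_VW3 (fun i => decide (J i u)) (fun i => decide (K i u)) (i + 2)
    have e1 : i + 2 + 3 = i := by fin_cases i <;> rfl
    rw [e1] at e
    rw [hs.1, hs.2.1, hs.2.2, pg_VV, e]
    simp [h1, h2, h3]
  · -- V i, V (i+1), W (i+3)
    have h1 : ¬ J i u := h.jexb i hu hw' hm' (by rw [hs.1, hs.2.2]; fin_cases i <;> rfl)
    have e1 : i + 3 + 2 = i := by fin_cases i <;> rfl
    have e2 : i + 3 + 3 = i + 1 := by fin_cases i <;> rfl
    have h2 : K (i + 3) u := h.kin (i + 3) u hu w' hw' w hw hm' hm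
      (Or.inr (Or.inl ⟨by rw [hs.1, e1], hs.2.2, by rw [hs.2.1, e2]⟩))
    have e := pg_VW2 (fun i => decide (J i u)) (fun i => decide (K i u)) (i + 3)
    rw [e1] at e
    rw [hs.1, hs.2.1, hs.2.2, pg_VV, e]
    simp [h1, h2]
  · -- V (i+1), V i, W (i+4)
    have h1 : ¬ J i u := h.jexb i hu hw' hm' (by rw [hs.1, hs.2.2]; fin_cases i <;> rfl)
    have h2 : ¬ K (i + 3) u := h.kexb (i + 3) hu hw' hm' (by rw [hs.1, hs.2.2]; fin_cases i <;> rfl)
    have h3 : ¬ K (i + 4) u := h.kexb (i + 4) hu hw hm (by rw [hs.1, hs.2.1]; fin_cases i <;> rfl)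
    have e := pg_VW2 (fun i => decide (J i u)) (fun i => decide (K i u)) (i + 4)
    have e1 : i + 4 + 2 = i + 1 := by fin_cases i <;> rfl
    have e2 : i + 4 + 1 = i := by fin_cases i <;> rfl
    rw [e1, e2] at e
    rw [hs.1, hs.2.1, hs.2.2, pg_VV', e]
    simp [h1, h2, h3]
  · -- V (i+1), V i, W (i+3)
    have h1 : ¬ J i u := h.jexb i hu hw' hm' (by rw [hs.1, hs.2.2]; fin_cases i <;> rfl)
    have e1 : i + 3 + 3 = i + 1 := by fin_cases i <;> rfl
    have e2 : i + 3 + 2 = i := by fin_cases i <;> rfl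
    have h2 : K (i + 3) u := h.kin (i + 3) u hu w' hw' w hw hm' hm
      (Or.inr (Or.inr ⟨by rw [hs.1, e1], hs.2.2, by rw [hs.2.1, e2]⟩))
    have e := pg_VW3 (fun i => decide (J i u)) (fun i => decide (K i u)) (i + 3)
    rw [e1] at e
    rw [hs.1, hs.2.1, hs.2.2, pg_VV', e]
    simp [h1, h2]
  · -- W i, V (i+2), V (i+3)
    have h2 : K i u := h.kin i u hu w hw w' hw' hm hm' (Or.inl hs)
    rw [hs.1, hs.2.1, hs.2.2, pg_WV2, pg_WV3]
    simp [h2]
  · -- W i, V (i+2), W (i+3)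
    have h2 : ¬ K i u := h.kexb i hu hw' hm' (by rw [hs.1, hs.2.2]; fin_cases i <;> rfl)
    have e := pg_WW' (fun i => decide (J i u)) (fun i => decide (K i u)) (i + 3)
    have e1 : i + 3 + 2 = i := by fin_cases i <;> rfl
    have e2 : i + 3 + 3 = i + 1 := by fin_cases i <;> rfl
    rw [e1, e2] at e
    rw [hs.1, hs.2.1, hs.2.2, pg_WV2, e]
    simp [h2]
  · -- W i, V (i+3), W (i+2)
    have h2 : ¬ K i u := h.kexb i hu hw' hm' (by rw [hs.1, hs.2.2]; fin_cases i <;> rfl)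
    rw [hs.1, hs.2.1, hs.2.2, pg_WV3, pg_WW]
    simp [h2]

theorem GD.cons (h : GD X Mx ty J K) {u w w' : V} (hu : u ∈ X) (hw : w ∈ X) (hw' : w' ∈ X)
    (hm : Mx u w) (hm' : Mx u w') : gp ty J K u (ty w) = gp ty J K u (ty w') := by
  have ha : allowed (ty u) (ty w) (ty w') = true := by
    unfold allowed
    rw [h.pairb hu hw hm, h.pairb hu hw' hm', h.pairb hw hu (h.symm _ _ hm),
      h.pairb hw' hu (h.symm _ _ hm'), h.dblb hu hw hw' hm hm', h.dblb hu hw' hw hm' hm]
    rfl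
  rcases sh2_of _ _ _ ha with e | hs | hs
  · rw [e]
  · exact h.cons_aux hu hw hw' hm hm' hs
  · exact (h.cons_aux hu hw' hw hm' hm hs).symm

theorem GD.sh1 (h : GD X Mx ty J K) {u w : V} (hu : u ∈ X) (hw : w ∈ X)
    (hm : Mx u w) : Sh1 (ty u) (ty w) ∨ Sh1 (ty w) (ty u) :=
  sh1_of _ _ (h.pairb hu hw hm) (h.pairb hw hu (h.symm _ _ hm))

open Classical in
theorem GD.sym_aux (h : GD X Mx ty J K) {u w : V} (hu : u ∈ X) (hw : w ∈ X)
    (hm : Mx u w) (hs : Sh1 (ty u) (ty w)) : gp ty J K u (ty w) = gp ty J K w (ty u) := by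
  obtain ⟨i, hs⟩ := hs
  have hm' := h.symm _ _ hm
  unfold gp
  rcases hs with hs | hs | hs | hs | hs | hs
  · -- T, V i
    have e41 : i + 4 + 1 = i := by fin_cases i <;> rfl
    have h1 : J i u ↔ J i w := ⟨fun hj => h.jcl i u hu w hw hm hj (by rw [hs.2]; simp),
      fun hj => h.jcl i w hw u hu hm' hj (by rw [hs.1]; simp)⟩
    have h2 : J (i + 4) u ↔ J (i + 4) w :=
      ⟨fun hj => h.jcl _ u hu w hw hm hj (by rw [hs.2, e41]; simp),
      fun hj => h.jcl _ w hw u hu hm' hj (by rw [hs.1]; simp)⟩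
    rw [hs.1, hs.2, pg_TV, pg_VT]
    simp [h1, h2]
  · -- V i, V (i+1)
    have e1 : i + 3 + 2 = i := by fin_cases i <;> rfl
    have e2 : i + 3 + 3 = i + 1 := by fin_cases i <;> rfl
    have h1 : J i u ↔ J i w := ⟨fun hj => h.jcl i u hu w hw hm hj (by rw [hs.2]; simp),
      fun hj => h.jcl i w hw u hu hm' hj (by rw [hs.1]; simp)⟩
    have h2 : K (i + 3) u ↔ K (i + 3) w :=
      ⟨fun hj => h.kcl _ u hu w hw hm hj (by rw [hs.2, e2]; simp),
      fun hj => h.kcl _ w hw u hu hm' hj (by rw [hs.1, e1]; simp)⟩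
    rw [hs.1, hs.2, pg_VV, pg_VV']
    simp [h1, h2]
  · -- V i, W i
    rw [hs.1, hs.2, pg_VW, pg_WV]
  · -- W i, V (i+2)
    have h2 : K i u ↔ K i w :=
      ⟨fun hj => h.kcl _ u hu w hw hm hj (by rw [hs.2]; simp),
      fun hj => h.kcl _ w hw u hu hm' hj (by rw [hs.1]; simp)⟩
    rw [hs.1, hs.2, pg_WV2, pg_VW2]
    simp [h2]
  · -- W i, V (i+3)
    have h2 : K i u ↔ K i w :=
      ⟨fun hj => h.kcl _ u hu w hw hm hj (by rw [hs.2]; simp),
      fun hj => h.kcl _ w hw u hu hm' hj (by rw [hs.1]; simp)⟩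
    rw [hs.1, hs.2, pg_WV3, pg_VW3]
    simp [h2]
  · -- W i, W (i+2)
    rw [hs.1, hs.2, pg_WW, pg_WW']

theorem GD.sym (h : GD X Mx ty J K) {u w : V} (hu : u ∈ X) (hw : w ∈ X)
    (hm : Mx u w) : gp ty J K u (ty w) = gp ty J K w (ty u) := by
  rcases h.sh1 hu hw hm with hs | hs
  · exact h.sym_aux hu hw hm hs
  · exact (h.sym_aux hw hu (h.symm _ _ hm) hs).symm

open Classical in
/-- the group of a class with a given set of partners -/
noncomputable def gg (ty : V → Ty5) (τ : Ty5) (js ks : Fin 5 → Bool) (S : V → Prop) : Gam :=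
  if h : ∃ w, S w then pg js ks τ (ty (Classical.choose h)) else .N

end main


theorem GD.group {X : Set V} {Mx : V → V → Prop} {ty : V → Ty5} {J K : Fin 5 → V → Prop}
    (h : GD X Mx ty J K) : ∃ g : V → Gam,
      (∀ u ∈ X, ∀ w ∈ X, Mx u w → g u = g w) ∧
      (∀ u u', ty u = ty u' → (∀ i, J i u ↔ J i u') → (∀ i, K i u ↔ K i u') →
        (∀ w ∈ X, Mx u w ↔ Mx u' w) → g u = g u') ∧
      (∀ u ∈ X, ∀ i, g u = .I i → ty u = .T ∨ ty u = .V i ∨ ty u = .V (i + 1)) ∧
      (∀ u ∈ X, ∀ i, g u = .II i → K i u) ∧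
      (∀ u ∈ X, ∀ i, g u = .P i → (ty u = .T ∨ ty u = .V i ∨ ty u = .W i) ∧
        (ty u = .T → ∃ w ∈ X, ty w = .V i ∧ Mx u w)) ∧
      (∀ u ∈ X, ∀ i, g u = .Q i →
        ty u = .V i ∨ ty u = .V (i + 1) ∨ ty u = .W (i + 2) ∨ ty u = .W (i + 4)) ∧
      (∀ u ∈ X, g u = .N → ∀ w ∈ X, ¬ Mx u w) := by
  classical
  let g : V → Gam := fun u =>
    gg ty (ty u) (fun i => decide (J i u)) (fun i => decide (K i u)) (fun w => w ∈ X ∧ Mx u w)
  have hg : ∀ u, (∃ w ∈ X, Mx u w ∧ g u = gp ty J K u (ty w)) ∨ ((∀ w ∈ X, ¬ Mx u w) ∧ g u = .N) := by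
    intro u
    by_cases hw : ∃ w, w ∈ X ∧ Mx u w
    · refine Or.inl ⟨Classical.choose hw, (Classical.choose_spec hw).1, (Classical.choose_spec hw).2, ?_⟩
      show gg _ _ _ _ _ = _
      unfold gg gp
      rw [dif_pos hw]
    · refine Or.inr ⟨fun w hwX hm => hw ⟨w, hwX, hm⟩, ?_⟩
      show gg _ _ _ _ _ = _
      unfold gg
      rw [dif_neg hw]
  have hval : ∀ u ∈ X, ∀ w ∈ X, Mx u w → g u = gp ty J K u (ty w) := by
    intro u hu w hw hm
    rcases hg u with ⟨w', hw', hm', e⟩ | ⟨h0, -⟩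
    · rw [e]; exact h.cons hu hw' hw hm' hm
    · exact absurd hm (h0 w hw)
  refine ⟨g, ?_, ?_, ?_, ?_, ?_, ?_, ?_⟩
  · intro u hu w hw hm
    rw [hval u hu w hw hm, hval w hw u hu (h.symm _ _ hm), h.sym hu hw hm]
  · intro u u' ht hJ hK hM
    show gg _ _ _ _ _ = gg _ _ _ _ _
    have e1 : (fun i => decide (J i u)) = (fun i => decide (J i u')) := by
      funext i; exact decide_eq_decide.mpr (hJ i)
    have e2 : (fun i => decide (K i u)) = (fun i => decide (K i u')) := by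
      funext i; exact decide_eq_decide.mpr (hK i)
    have e3 : (fun w => w ∈ X ∧ Mx u w) = (fun w => w ∈ X ∧ Mx u' w) := by
      funext w; exact propext (and_congr_right (fun hw => hM w hw))
    rw [ht, e1, e2, e3]
  · intro u hu i hi
    rcases hg u with ⟨w, hw, hm, e⟩ | ⟨-, e⟩
    · rw [e] at hi; exact pg_I hi
    · rw [e] at hi; exact absurd hi (by simp)
  · intro u hu i hi
    rcases hg u with ⟨w, hw, hm, e⟩ | ⟨-, e⟩
    · rw [e] at hi; simpa using pg_II hi
    · rw [e] at hi; exact absurd hi (by simp)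
  · intro u hu i hi
    rcases hg u with ⟨w, hw, hm, e⟩ | ⟨-, e⟩
    · rw [e] at hi
      rcases pg_P hi with h1 | h1 | h1
      · exact ⟨Or.inl h1.1, fun _ => ⟨w, hw, h1.2, hm⟩⟩
      · exact ⟨Or.inr (Or.inl h1), fun h2 => absurd (h1.symm.trans h2) (by simp)⟩
      · exact ⟨Or.inr (Or.inr h1), fun h2 => absurd (h1.symm.trans h2) (by simp)⟩
    · rw [e] at hi; exact absurd hi (by simp)
  · intro u hu i hi
    rcases hg u with ⟨w, hw, hm, e⟩ | ⟨-, e⟩
    · rw [e] at hi; exact pg_Q hi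
    · rw [e] at hi; exact absurd hi (by simp)
  · intro u hu hi w hw hm
    have := hval u hu w hw hm
    rw [hi] at this
    exact pg_ne_N _ _ (h.sh1 hu hw hm) this.symm

end Pool.Agent.H68.CW
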