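import Pool.Agent.H68.CW.SDef

/-!
Certificates for the facts over a `C₅` (generated by a program).
-/

set_option autoImplicit false
set_option linter.style.longLine false

namespace Pool.Agent.H68.CW

open Ty5 Pool.Agent.H68.CW.Tree

def pairTab : List (Ty5 × Ty5 × Tree) :=
  [(T, T, .mx 5 1 true (.cf 5 6)),
    (T, W 0, .mx 5 1 false (.mx 5 1 true (.ps 0 6 7 5 1 2 3))),
    (W 0, T, .mx 5 1 false (.mx 6 0 true (.ps 0 5 7 6 1 2 3))),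
    (W 0, W 0, .mx 5 1 true (.cf 0 5)),
    (W 0, W 1, .mx 5 1 false (.mx 5 1 true (.ps 1 6 7 5 2 3 4))),
    (W 0, W 4, .mx 5 1 false (.mx 5 1 true (.ps 4 6 7 5 3 2 1))),
    (W 0, V 1, .mx 5 1 true (.cf 0 5)),
    (W 0, V 4, .mx 5 1 true (.cf 0 5)),
    (V 0, W 1, .mx 5 1 true (.cf 1 5)),
    (V 0, W 4, .mx 5 1 true (.cf 4 5)),
    (V 0, V 0, .mx 5 1 true (.cf 1 5)),
    (V 0, V 2, .mx 5 1 true (.cf 1 5)),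
    (V 0, V 3, .mx 5 1 true (.cf 4 5))]

def dblTab : List (Ty5 × Ty5 × Ty5 × Tree) :=
  [(T, V 0, V 2, .mx 5 1 false (.mx 5 1 true (.mx 5 2 false (.mx 5 2 true (.mx 6 0 true (.sp 9 10 (.sp 8 10 (.ps 10 8 9 5 6 4 0) (.sp 7 10 (.mx 8 0 true (.sp 6 11 (.sp 7 11 (.ps 11 6 7 5 8 3 2) (.ps 3 2 8 11 4 7 5)) (.ps 3 2 8 11 4 6 10))) (.mx 8 0 true (.sp 6 11 (.sp 7 11 (.ps 11 7 6 10 8 3 2) (.ps 3 2 8 11 4 7 5)) (.ps 3 2 8 11 4 6 10))))) (.ps 3 2 9 5 4 6 10))))))),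
    (T, V 0, V 3, .mx 5 1 false (.mx 5 1 true (.mx 5 2 false (.mx 5 2 true (.mx 6 0 true (.sp 9 10 (.sp 8 10 (.ps 10 8 9 5 6 1 0) (.sp 7 10 (.mx 8 0 true (.sp 6 11 (.sp 7 11 (.ps 11 6 7 5 8 2 3) (.ps 1 0 7 5 2 8 11)) (.ps 1 0 6 10 2 8 11))) (.mx 8 0 true (.sp 6 11 (.sp 7 11 (.ps 11 7 6 10 8 2 3) (.ps 1 0 7 5 2 8 11)) (.ps 1 0 6 10 2 8 11))))) (.ps 1 0 6 10 2 9 5))))))),
    (W 0, W 2, W 3, .mx 5 1 false (.mx 5 1 true (.mx 5 2 true (.sp 6 8 (.ps 2 7 6 8 1 0 4) (.ps 0 4 5 8 1 2 6))))),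
    (W 0, W 3, W 2, .mx 5 1 false (.mx 5 1 true (.mx 5 2 true (.sp 6 8 (.ps 3 7 6 8 4 0 1) (.ps 0 1 5 8 4 3 6))))),
    (W 0, W 2, V 0, .mx 5 1 false (.mx 5 1 true (.mx 5 2 false (.sp 6 8 (.sp 7 8 (.mx 6 0 true (.ps 6 8 2 3 9 0 5)) (.ps 2 3 6 8 7 5 0)) (.ps 4 8 0 5 3 2 6))))),
    (W 0, V 0, W 2, .mx 5 1 false (.mx 5 1 true (.mx 5 2 false (.sp 6 8 (.sp 7 8 (.ps 8 6 2 3 7 5 0) (.mx 7 0 false (.sp 6 9 (.ps 4 7 0 9 3 2 8) (.sp 8 9 (.ps 2 3 8 9 1 7 5) (.ps 4 7 0 9 3 2 8))))) (.ps 4 6 0 5 3 2 8))))),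
    (W 0, W 2, V 2, .mx 5 1 false (.mx 5 1 true (.mx 5 2 false (.sp 6 8 (.sp 7 8 (.mx 5 2 true (.sp 6 9 (.mx 6 0 true (.sp 7 10 (.ps 9 1 3 4 5 7 10) (.ps 3 9 2 7 4 0 10))) (.ps 5 9 0 4 7 2 6))) (.ps 0 4 5 7 1 8 6)) (.ps 3 8 2 6 4 0 5))))),
    (W 0, V 2, W 2, .mx 5 1 false (.mx 5 1 true (.mx 5 2 false (.sp 6 8 (.sp 7 8 (.mx 5 2 true (.sp 6 9 (.mx 6 0 true (.sp 7 10 (.ps 10 7 0 4 6 9 2) (.ps 3 7 2 9 4 0 10))) (.ps 0 4 5 9 1 6 8))) (.mx 5 2 true (.ps 5 7 0 4 9 2 8))) (.ps 3 6 2 8 4 0 5))))),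
    (W 0, W 3, V 0, .mx 5 1 false (.mx 5 1 true (.mx 5 2 false (.sp 6 8 (.sp 7 8 (.mx 6 0 true (.ps 6 8 3 2 9 0 5)) (.ps 1 2 8 6 0 5 7)) (.ps 1 8 0 5 2 3 6))))),
    (W 0, V 0, W 3, .mx 5 1 false (.mx 5 1 true (.mx 5 2 false (.sp 6 8 (.sp 7 8 (.ps 8 6 3 2 7 5 0) (.mx 7 0 false (.sp 6 9 (.ps 1 7 0 9 2 3 8) (.sp 8 9 (.ps 1 2 7 5 6 8 9) (.ps 1 7 0 9 2 3 8))))) (.ps 1 6 0 5 2 3 8))))),
    (W 0, W 3, V 3, .mx 5 1 false (.mx 5 1 true (.mx 5 2 false (.sp 6 8 (.sp 7 8 (.mx 5 2 true (.sp 6 9 (.mx 6 0 true (.sp 7 10 (.ps 9 4 2 1 5 7 10) (.ps 2 9 3 7 1 0 10))) (.ps 5 9 0 1 7 3 6))) (.ps 0 1 5 7 4 8 6)) (.ps 2 8 3 6 1 0 5))))),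
    (W 0, V 3, W 3, .mx 5 1 false (.mx 5 1 true (.mx 5 2 false (.sp 6 8 (.sp 7 8 (.mx 5 2 true (.sp 6 9 (.mx 6 0 true (.sp 7 10 (.ps 10 7 0 1 6 9 3) (.ps 2 7 3 9 1 0 10))) (.ps 0 1 5 9 4 6 8))) (.mx 5 2 true (.ps 5 7 0 1 9 3 8))) (.ps 2 6 3 8 1 0 5))))),
    (W 0, V 0, V 3, .mx 5 1 false (.mx 5 1 true (.mx 5 2 false (.mx 5 2 true (.mx 6 0 true (.sp 8 10 (.ps 10 6 0 5 8 2 3) (.sp 9 10 (.sp 7 10 (.mx 8 0 true (.sp 6 11 (.ps 11 6 0 5 8 2 3) (.ps 0 5 10 6 11 8 2))) (.mx 8 0 true (.sp 6 11 (.ps 11 6 0 5 8 2 3) (.ps 0 5 10 6 11 8 2)))) (.ps 2 3 9 5 1 6 10)))))))),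
    (W 0, V 3, V 0, .mx 5 1 false (.mx 5 1 true (.mx 5 2 false (.mx 5 2 true (.mx 6 0 true (.sp 8 10 (.ps 10 8 0 5 6 2 3) (.sp 9 10 (.sp 7 10 (.mx 8 0 true (.sp 6 11 (.ps 11 8 0 5 6 2 3) (.ps 0 5 11 8 10 6 2))) (.mx 8 0 true (.sp 6 11 (.ps 11 8 0 5 6 2 3) (.ps 0 5 11 8 10 6 2)))) (.ps 1 8 9 5 2 6 10)))))))),
    (W 0, V 2, V 0, .mx 5 1 false (.mx 5 1 true (.mx 5 2 false (.mx 5 2 true (.mx 6 0 true (.sp 8 10 (.ps 10 8 0 5 6 3 2) (.sp 9 10 (.sp 7 10 (.mx 8 0 true (.sp 6 11 (.ps 11 8 0 5 6 3 2) (.ps 0 5 11 8 10 6 3))) (.mx 8 0 true (.sp 6 11 (.ps 11 8 0 5 6 3 2) (.ps 0 5 11 8 10 6 3)))) (.ps 3 2 6 10 4 9 5)))))))),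
    (W 0, V 0, V 2, .mx 5 1 false (.mx 5 1 true (.mx 5 2 false (.mx 5 2 true (.mx 6 0 true (.sp 8 10 (.ps 10 6 0 5 8 3 2) (.sp 9 10 (.sp 7 10 (.mx 8 0 true (.sp 6 11 (.ps 11 6 0 5 8 3 2) (.ps 0 5 10 6 11 8 3))) (.mx 8 0 true (.sp 6 11 (.ps 11 6 0 5 8 3 2) (.ps 0 5 10 6 11 8 3)))) (.ps 3 2 9 5 4 6 10)))))))),
    (V 0, T, W 2, .mx 5 1 false (.mx 5 1 true (.mx 5 2 false (.sp 7 8 (.sp 6 8 (.ps 5 1 4 3 7 8 6) (.mx 5 2 true (.ps 2 9 8 7 1 0 4))) (.ps 4 0 5 7 3 2 8))))),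
    (V 0, W 2, T, .mx 5 1 false (.mx 5 1 true (.mx 5 2 true (.sp 6 8 (.ps 2 7 6 8 1 0 4) (.ps 4 0 5 8 3 2 6))))),
    (V 0, T, W 3, .mx 5 1 false (.mx 5 1 true (.mx 5 2 false (.sp 7 8 (.sp 6 8 (.ps 5 4 1 2 7 8 6) (.mx 5 2 true (.ps 3 9 8 7 2 1 0))) (.ps 1 0 5 7 2 3 8))))),
    (V 0, W 3, T, .mx 5 1 false (.mx 5 1 true (.mx 5 2 true (.sp 6 8 (.ps 3 7 6 8 2 1 0) (.ps 1 0 5 8 2 3 6))))),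
    (V 0, W 0, W 2, .mx 5 1 false (.mx 5 1 true (.mx 5 2 false (.sp 6 8 (.sp 7 8 (.ps 5 1 4 3 7 8 6) (.ps 2 3 8 6 1 5 7)) (.ps 4 5 0 6 3 2 8))))),
    (V 0, W 2, W 0, .mx 5 1 false (.mx 5 1 true (.mx 5 2 false (.sp 6 8 (.sp 7 8 (.ps 5 1 4 3 7 8 6) (.ps 2 3 7 5 6 8 0)) (.ps 4 5 0 8 3 2 6))))),
    (V 0, W 0, W 3, .mx 5 1 false (.mx 5 1 true (.mx 5 2 false (.sp 6 8 (.sp 7 8 (.ps 5 4 1 2 7 8 6) (.ps 3 2 8 6 4 5 7)) (.ps 1 5 0 6 2 3 8))))),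
    (V 0, W 3, W 0, .mx 5 1 false (.mx 5 1 true (.mx 5 2 false (.sp 6 8 (.sp 7 8 (.ps 5 4 1 2 7 8 6) (.ps 1 2 5 7 0 8 6)) (.ps 1 5 0 8 2 3 6))))),
    (V 0, W 0, V 1, .mx 5 1 false (.mx 5 1 true (.mx 5 2 false (.ps 0 6 7 5 8 2 3)))),
    (V 0, V 1, W 0, .mx 5 1 false (.mx 5 1 true (.mx 5 2 false (.mx 5 2 true (.ps 0 8 9 5 6 2 3))))),
    (V 0, W 0, V 4, .mx 5 1 false (.mx 5 1 true (.mx 5 2 false (.ps 0 6 7 5 8 3 2)))),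
    (V 0, V 4, W 0, .mx 5 1 false (.mx 5 1 true (.mx 5 2 false (.mx 5 2 true (.ps 0 8 9 5 6 3 2))))),
    (V 0, W 2, W 3, .mx 5 1 false (.mx 5 1 true (.mx 5 2 true (.sp 6 8 (.ps 2 7 6 8 1 0 4) (.ps 5 8 4 0 7 2 6))))),
    (V 0, W 3, W 2, .mx 5 1 false (.mx 5 1 true (.mx 5 2 true (.sp 6 8 (.ps 3 7 6 8 4 0 1) (.ps 5 8 1 0 7 3 6))))),
    (V 0, V 1, V 4, .mx 5 1 false (.mx 5 1 true (.mx 5 2 false (.mx 5 2 true (.mx 7 0 false (.sp 6 10 (.sp 8 10 (.ps 10 6 8 3 1 5 7) (.sp 9 10 (.mx 9 0 false (.sp 6 11 (.sp 7 11 (.sp 8 11 (.ps 6 2 11 8 10 9 5) (.ps 3 8 9 5 2 6 11)) (.ps 5 7 9 3 1 11 6)) (.sp 7 11 (.ps 9 3 10 6 5 7 11) (.ps 5 9 4 11 7 2 6)))) (.ps 3 8 9 5 2 6 10))) (.sp 8 10 (.ps 2 6 7 5 3 8 10) (.sp 9 10 (.mx 9 0 false (.sp 7 11 (.sp 6 11 (.sp 8 11 (.ps 7 2 11 8 5 9 10)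 (.ps 3 8 9 5 2 6 11)) (.ps 2 6 7 11 3 9 10)) (.sp 6 11 (.ps 2 7 6 11 3 9 10) (.ps 5 9 4 11 7 2 6)))) (.ps 5 9 4 10 7 2 6))))))))),
    (V 0, V 4, V 1, .mx 5 1 false (.mx 5 1 true (.mx 5 2 false (.mx 5 2 true (.mx 7 0 false (.sp 6 10 (.sp 8 10 (.ps 10 6 8 2 4 5 7) (.sp 9 10 (.mx 9 0 false (.sp 6 11 (.sp 7 11 (.sp 8 11 (.ps 6 3 11 8 10 9 5) (.ps 2 8 9 5 3 6 11)) (.ps 5 7 9 2 4 11 6)) (.sp 7 11 (.ps 9 2 10 6 5 7 11) (.ps 5 9 1 11 7 3 6)))) (.ps 2 8 9 5 3 6 10))) (.sp 8 10 (.ps 3 6 7 5 2 8 10) (.sp 9 10 (.mx 9 0 false (.sp 7 11 (.sp 6 11 (.sp 8 11 (.ps 7 3 11 8 5 9 10) (.ps 2 8 9 5 3 6 11)) (.ps 3 6 7 11 2 9 10)) (.sp 6 11 (.ps 3 7 6 11 2 9 10) (.ps 5 9 1 11 7 3 6)))) (.ps 5 9 1 10 7 3 6)))))))))]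

/-- the number is the position of the class in `T, V 0, V 1` -/
def jTab : List (Ty5 × Ty5 × ℕ × Tree × Tree × Tree) :=
  [(T, V 4, 0,
      .mx 5 3 false (.sp 6 8 (.mx 8 0 true (.sp 7 9 (.ps 6 1 4 3 5 7 9) (.ps 2 1 7 5 3 8 9))) (.ps 6 1 5 7 4 3 8)),
      .sp 5 7 (.mx 5 3 false (.sp 6 8 (.mx 8 0 true (.sp 7 9 (.ps 6 1 4 3 5 7 9) (.ps 2 1 7 5 3 8 9))) (.ps 6 1 5 7 4 3 8))) (.mx 5 3 true (.ps 6 4 5 8 1 2 7)),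
      .sp 5 6 (.mx 5 3 false (.sp 6 8 (.mx 8 0 true (.sp 7 9 (.ps 6 1 4 3 5 7 9) (.ps 2 1 7 5 3 8 9))) (.ps 6 1 5 7 4 3 8))) (.mx 5 3 false (.sp 6 8 (.mx 8 0 true (.sp 7 9 (.ps 8 3 6 1 9 7 5) (.ps 2 1 7 5 3 8 9))) (.ps 3 8 4 6 2 7 5)))),
    (T, V 2, 0,
      .mx 5 3 false (.sp 7 8 (.mx 8 0 true (.sp 6 9 (.ps 7 0 2 3 5 6 9) (.ps 3 2 8 9 4 6 5))) (.ps 7 0 5 6 2 3 8)),
      .sp 5 7 (.mx 5 3 false (.sp 7 8 (.mx 8 0 true (.sp 6 9 (.ps 7 0 2 3 5 6 9) (.ps 3 2 8 9 4 6 5))) (.ps 7 0 5 6 2 3 8))) (.mx 5 3 false (.sp 7 8 (.mx 8 0 true (.sp 6 9 (.ps 8 3 7 0 9 6 5) (.ps 3 2 8 9 4 6 5))) (.ps 3 8 2 7 4 6 5))),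
      .sp 5 6 (.mx 5 3 false (.sp 7 8 (.mx 8 0 true (.sp 6 9 (.ps 7 0 2 3 5 6 9) (.ps 3 2 8 9 4 6 5))) (.ps 7 0 5 6 2 3 8))) (.mx 5 3 true (.ps 7 2 5 8 0 4 6))),
    (V 0, V 4, 1,
      .mx 6 3 false (.sp 5 8 (.mx 6 3 true (.mx 9 1 false (.sp 5 10 (.ps 5 7 10 1 8 3 9) (.sp 7 10 (.ps 10 1 7 5 4 3 9) (.ps 3 9 4 10 2 7 5))))) (.ps 6 1 5 7 4 3 8)),
      .sp 5 7 (.mx 6 3 false (.sp 5 8 (.mx 6 3 true (.mx 9 1 false (.sp 5 10 (.ps 5 7 10 1 8 3 9) (.sp 7 10 (.ps 10 1 7 5 4 3 9) (.ps 3 9 4 10 2 7 5))))) (.ps 6 1 5 7 4 3 8))) (.mx 6 3 false (.sp 5 8 (.ps 6 4 5 8 1 2 7) (.ps 0 7 8 3 1 6 5))),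
      .sp 5 6 (.mx 6 3 false (.sp 5 8 (.mx 6 3 true (.mx 9 1 false (.sp 5 10 (.ps 5 7 10 1 8 3 9) (.sp 7 10 (.ps 10 1 7 5 4 3 9) (.ps 3 9 4 10 2 7 5))))) (.ps 6 1 5 7 4 3 8))) (.mx 6 3 false (.sp 5 8 (.mx 6 3 true (.sp 5 9 (.ps 5 8 7 2 9 6 4) (.mx 9 1 false (.sp 5 10 (.ps 1 2 6 9 10 5 8) (.sp 7 10 (.ps 10 1 7 5 4 3 9) (.ps 1 10 6 9 2 7 5)))))) (.ps 3 8 4 6 2 7 5)))),
    (V 0, W 0, 1,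
      .mx 6 3 false (.sp 5 8 (.ps 2 1 3 4 7 5 8) (.mx 6 3 true (.ps 0 8 9 6 7 2 3))),
      .sp 5 7 (.mx 6 3 false (.sp 5 8 (.ps 2 1 3 4 7 5 8) (.mx 6 3 true (.ps 0 8 9 6 7 2 3)))) (.mx 6 3 false (.sp 5 8 (.ps 6 4 5 8 1 2 7) (.ps 0 8 7 2 4 6 5))),
      .sp 5 6 (.mx 6 3 false (.sp 5 8 (.ps 2 1 3 4 7 5 8) (.mx 6 3 true (.ps 0 8 9 6 7 2 3)))) (.mx 6 3 true (.sp 5 8 (.ps 2 1 3 4 7 5 8) (.ps 2 3 7 5 1 6 8)))),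
    (V 0, W 2, 1,
      .mx 6 3 false (.sp 5 8 (.ps 0 1 4 3 7 5 8) (.ps 4 0 6 5 3 2 8)),
      .sp 5 7 (.mx 6 3 false (.sp 5 8 (.ps 0 1 4 3 7 5 8) (.ps 4 0 6 5 3 2 8))) (.mx 6 3 false (.sp 5 8 (.ps 2 3 7 0 8 5 6) (.ps 4 0 6 5 3 2 8))),
      .sp 5 6 (.mx 6 3 false (.sp 5 8 (.ps 0 1 4 3 7 5 8) (.ps 4 0 6 5 3 2 8))) (.mx 6 3 false (.sp 5 8 (.ps 0 1 4 3 7 5 8) (.ps 2 8 7 5 1 6 4)))),
    (V 0, W 3, 1,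
      .mx 6 3 false (.sp 5 8 (.mx 6 3 true (.ps 3 9 8 5 2 1 0)) (.ps 1 0 6 5 2 3 8)),
      .sp 5 7 (.mx 6 3 false (.sp 5 8 (.mx 6 3 true (.ps 3 9 8 5 2 1 0)) (.ps 1 0 6 5 2 3 8))) (.mx 6 3 false (.sp 5 8 (.sp 7 8 (.mx 6 3 true (.ps 3 9 8 5 2 1 0)) (.ps 6 4 5 8 1 2 7)) (.ps 1 0 6 5 2 3 8))),
      .sp 5 6 (.mx 6 3 false (.sp 5 8 (.mx 6 3 true (.ps 3 9 8 5 2 1 0)) (.ps 1 0 6 5 2 3 8))) (.mx 6 3 false (.sp 5 8 (.ps 7 2 5 8 0 4 6) (.sp 7 8 (.ps 7 5 8 3 0 1 6) (.ps 0 1 7 5 4 3 8))))),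
    (V 1, V 2, 2,
      .mx 7 3 false (.sp 5 8 (.mx 7 3 true (.mx 9 2 false (.sp 5 10 (.ps 5 6 10 0 8 3 9) (.sp 6 10 (.ps 10 0 6 5 2 3 9) (.ps 3 9 2 10 4 6 5))))) (.ps 7 0 5 6 2 3 8)),
      .sp 5 7 (.mx 7 3 false (.sp 5 8 (.mx 7 3 true (.mx 9 2 false (.sp 5 10 (.ps 5 6 10 0 8 3 9) (.sp 6 10 (.ps 10 0 6 5 2 3 9) (.ps 3 9 2 10 4 6 5))))) (.ps 7 0 5 6 2 3 8))) (.mx 7 3 false (.sp 5 8 (.mx 7 3 true (.sp 5 9 (.ps 5 8 6 4 9 7 2) (.mx 9 2 false (.sp 5 10 (.ps 0 4 7 9 10 5 8) (.sp 6 10 (.ps 10 0 6 5 2 3 9) (.ps 0 10 7 9 4 6 5)))))) (.ps 3 8 2 7 4 6 5))),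
      .sp 5 6 (.mx 7 3 false (.sp 5 8 (.mx 7 3 true (.mx 9 2 false (.sp 5 10 (.ps 5 6 10 0 8 3 9) (.sp 6 10 (.ps 10 0 6 5 2 3 9) (.ps 3 9 2 10 4 6 5))))) (.ps 7 0 5 6 2 3 8))) (.mx 7 3 false (.sp 5 8 (.ps 7 2 5 8 0 4 6) (.ps 1 6 8 3 0 7 5)))),
    (V 1, W 1, 2,
      .mx 7 3 false (.sp 5 8 (.ps 4 0 3 2 6 5 8) (.mx 7 3 true (.ps 1 8 9 7 6 4 3))),
      .sp 5 7 (.mx 7 3 false (.sp 5 8 (.ps 4 0 3 2 6 5 8) (.mx 7 3 true (.ps 1 8 9 7 6 4 3)))) (.mx 7 3 true (.sp 5 8 (.ps 4 0 3 2 6 5 8) (.ps 4 3 6 5 0 7 8))),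
      .sp 5 6 (.mx 7 3 false (.sp 5 8 (.ps 4 0 3 2 6 5 8) (.mx 7 3 true (.ps 1 8 9 7 6 4 3)))) (.mx 7 3 false (.sp 5 8 (.ps 7 2 5 8 0 4 6) (.ps 1 8 6 4 2 7 5)))),
    (V 1, W 3, 2,
      .mx 7 3 false (.sp 5 8 (.mx 7 3 true (.ps 3 9 8 5 2 1 0)) (.ps 0 1 7 5 4 3 8)),
      .sp 5 7 (.mx 7 3 false (.sp 5 8 (.mx 7 3 true (.ps 3 9 8 5 2 1 0)) (.ps 0 1 7 5 4 3 8))) (.mx 7 3 false (.sp 5 8 (.ps 6 4 5 8 1 2 7) (.sp 6 8 (.ps 6 5 8 3 1 0 7) (.ps 1 0 6 5 2 3 8)))),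
      .sp 5 6 (.mx 7 3 false (.sp 5 8 (.mx 7 3 true (.ps 3 9 8 5 2 1 0)) (.ps 0 1 7 5 4 3 8))) (.mx 7 3 false (.sp 5 8 (.sp 6 8 (.mx 7 3 true (.ps 3 9 8 5 2 1 0)) (.ps 7 2 5 8 0 4 6)) (.ps 0 1 7 5 4 3 8)))),
    (V 1, W 4, 2,
      .mx 7 3 false (.sp 5 8 (.ps 1 0 2 3 6 5 8) (.ps 2 1 7 5 3 4 8)),
      .sp 5 7 (.mx 7 3 false (.sp 5 8 (.ps 1 0 2 3 6 5 8) (.ps 2 1 7 5 3 4 8))) (.mx 7 3 false (.sp 5 8 (.ps 1 0 2 3 6 5 8) (.ps 4 8 6 5 0 7 2))),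
      .sp 5 6 (.mx 7 3 false (.sp 5 8 (.ps 1 0 2 3 6 5 8) (.ps 2 1 7 5 3 4 8))) (.mx 7 3 false (.sp 5 8 (.ps 2 3 1 6 7 5 8) (.ps 2 1 7 5 3 4 8))))]

/-- center, the two other types, the excluded type -/
def kTab : List (Ty5 × Ty5 × Ty5 × Ty5 × Tree) :=
  [(W 0, V 2, V 3, W 2,
      .sp 7 9 (.sp 6 9 (.sp 7 8 (.mx 5 5 false (.sp 7 10 (.sp 6 10 (.mx 5 5 true (.ps 2 11 10 6 8 4 0)) (.mx 5 5 true (.ps 5 6 0 4 11 2 10))) (.ps 3 7 2 10 4 0 5))) (.mx 5 5 true (.sp 7 10 (.ps 1 6 7 10 0 4 8) (.ps 5 10 8 4 6 1 7)))) (.sp 7 8 (.mx 5 5 true (.ps 5 10 6 1 8 4 9)) (.mx 5 5 true (.ps 5 10 6 1 8 4 9)))) (.sp 6 9 (.sp 7 8 (.mx 5 5 false (.sp 7 10 (.ps 0 5 4 9 1 7 10) (.ps 3 7 2 10 4 0 5))) (.ps 2 9 3 7 8 5 0)) (.ps 1 7 6 5 2 9 4))),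
    (W 0, V 2, V 3, W 3,
      .sp 7 9 (.sp 6 9 (.sp 7 8 (.mx 5 5 false (.sp 9 10 (.sp 8 10 (.mx 5 5 true (.ps 3 11 10 8 6 1 0)) (.mx 5 5 true (.ps 5 8 0 1 11 3 10))) (.ps 2 9 3 10 1 0 5))) (.mx 5 5 true (.ps 5 10 8 4 6 1 7))) (.sp 7 8 (.mx 5 5 true (.sp 9 10 (.ps 4 8 9 10 0 1 6) (.ps 5 10 6 1 8 4 9))) (.mx 5 5 true (.ps 5 10 8 4 6 1 7)))) (.sp 6 9 (.sp 7 8 (.mx 5 5 false (.sp 9 10 (.ps 0 5 1 7 4 9 10) (.ps 2 9 3 10 1 0 5))) (.ps 2 9 3 7 8 5 0)) (.ps 1 7 6 5 2 9 4))),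
    (V 2, W 0, V 3, T,
      .sp 6 9 (.sp 7 8 (.sp 7 9 (.mx 5 5 true (.sp 7 10 (.ps 0 6 7 10 1 2 3) (.ps 3 2 5 10 4 0 7))) (.mx 5 5 true (.sp 7 10 (.ps 0 6 7 10 1 2 3) (.ps 3 2 5 10 4 0 7)))) (.sp 7 9 (.mx 5 5 true (.sp 7 10 (.ps 0 6 7 10 1 2 3) (.ps 3 2 5 10 4 0 7))) (.mx 5 5 true (.sp 7 10 (.ps 0 6 7 10 1 2 3) (.ps 3 2 5 10 4 0 7))))) (.sp 7 9 (.sp 7 8 (.mx 5 5 true (.sp 7 10 (.ps 0 6 7 10 1 2 3) (.ps 3 2 5 10 4 0 7))) (.mx 5 5 true (.sp 7 10 (.ps 0 6 7 10 1 2 3) (.ps 3 2 5 10 4 0 7)))) (.ps 0 7 6 5 4 9 2))),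
    (V 2, W 0, V 3, V 1,
      .sp 6 9 (.sp 7 8 (.sp 7 9 (.mx 5 5 false (.ps 0 10 7 9 1 5 3)) (.mx 5 5 false (.ps 2 9 3 5 10 0 7))) (.sp 7 9 (.mx 5 5 false (.ps 0 10 7 9 1 5 3)) (.mx 5 5 false (.ps 2 9 3 5 10 0 7)))) (.sp 7 9 (.sp 7 8 (.mx 5 5 false (.ps 0 10 7 9 1 5 3)) (.mx 5 5 false (.ps 0 10 7 9 1 5 3))) (.ps 0 7 6 5 4 9 2))),
    (V 2, W 0, V 3, W 2,
      .sp 6 9 (.sp 7 8 (.sp 7 9 (.mx 5 5 false (.sp 7 10 (.sp 6 10 (.ps 5 1 3 4 6 10 7) (.ps 0 4 6 5 7 10 2)) (.ps 2 10 3 5 9 7 0))) (.mx 5 5 false (.sp 7 10 (.ps 2 9 3 5 10 7 0) (.ps 3 5 2 10 4 0 7)))) (.sp 7 9 (.mx 5 5 false (.sp 7 10 (.sp 6 10 (.ps 5 1 3 4 6 10 7) (.ps 0 4 6 5 7 10 2)) (.ps 2 10 3 5 9 7 0))) (.mx 5 5 false (.sp 7 10 (.ps 2 9 3 5 10 7 0) (.ps 3 5 2 10 4 0 7))))) (.sp 7 9 (.sp 7 8 (.mx 5 5 false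 (.sp 6 10 (.ps 5 1 6 10 3 4 9) (.ps 2 10 9 4 1 5 6))) (.mx 5 5 false (.sp 6 10 (.ps 5 1 6 10 3 4 9) (.ps 2 10 9 4 1 5 6)))) (.ps 0 7 6 5 4 9 2))),
    (V 2, W 0, V 3, W 4,
      .sp 6 9 (.sp 7 8 (.sp 7 9 (.mx 5 5 true (.sp 7 10 (.ps 0 6 7 10 1 2 3) (.ps 5 10 3 2 6 0 7))) (.mx 5 5 true (.sp 7 10 (.ps 0 6 7 10 1 2 3) (.ps 5 10 3 2 6 0 7)))) (.sp 7 9 (.mx 5 5 true (.sp 7 10 (.ps 0 6 7 10 1 2 3) (.ps 5 10 3 2 6 0 7))) (.mx 5 5 true (.sp 7 10 (.ps 0 6 7 10 1 2 3) (.ps 5 10 3 2 6 0 7))))) (.sp 7 9 (.sp 7 8 (.mx 5 5 true (.ps 5 10 6 0 3 2 9)) (.mx 5 5 true (.ps 5 10 6 0 3 2 9))) (.ps 0 7 6 5 4 9 2))),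
    (V 3, W 0, V 2, T,
      .sp 6 9 (.sp 7 8 (.sp 7 9 (.mx 5 5 true (.sp 7 10 (.ps 0 6 7 10 1 2 3) (.ps 2 3 5 10 1 0 7))) (.mx 5 5 true (.sp 7 10 (.ps 0 6 7 10 1 2 3) (.ps 2 3 5 10 1 0 7)))) (.sp 7 9 (.mx 5 5 true (.sp 7 10 (.ps 0 6 7 10 1 2 3) (.ps 2 3 5 10 1 0 7))) (.mx 5 5 true (.sp 7 10 (.ps 0 6 7 10 1 2 3) (.ps 2 3 5 10 1 0 7))))) (.sp 7 9 (.sp 7 8 (.mx 5 5 true (.sp 7 10 (.ps 0 6 7 10 1 2 3) (.ps 2 3 5 10 1 0 7))) (.mx 5 5 true (.sp 7 10 (.ps 0 6 7 10 1 2 3) (.ps 2 3 5 10 1 0 7)))) (.ps 0 7 6 5 1 9 3))),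
    (V 3, W 0, V 2, V 4,
      .sp 6 9 (.sp 7 8 (.sp 7 9 (.mx 5 5 false (.ps 0 10 7 9 4 5 2)) (.mx 5 5 false (.ps 3 9 2 5 10 0 7))) (.sp 7 9 (.mx 5 5 false (.ps 0 10 7 9 4 5 2)) (.mx 5 5 false (.ps 3 9 2 5 10 0 7)))) (.sp 7 9 (.sp 7 8 (.mx 5 5 false (.ps 0 10 7 9 4 5 2)) (.mx 5 5 false (.ps 0 10 7 9 4 5 2))) (.ps 0 7 6 5 1 9 3))),
    (V 3, W 0, V 2, W 3,
      .sp 6 9 (.sp 7 8 (.sp 7 9 (.mx 5 5 false (.sp 7 10 (.sp 6 10 (.ps 5 4 2 1 6 10 7) (.ps 0 1 6 5 7 10 3)) (.ps 2 5 3 10 1 0 7))) (.mx 5 5 false (.sp 7 10 (.ps 1 9 2 5 0 7 10) (.ps 2 5 3 10 1 0 7)))) (.sp 7 9 (.mx 5 5 false (.sp 7 10 (.sp 6 10 (.ps 5 4 2 1 6 10 7) (.ps 0 1 6 5 7 10 3)) (.ps 2 5 3 10 1 0 7))) (.mx 5 5 false (.sp 7 10 (.ps 1 9 2 5 0 7 10) (.ps 2 5 3 10 1 0 7))))) (.sp 7 9 (.sp 7 8 (.mx 5 5 false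 (.sp 6 10 (.ps 5 4 6 10 2 1 9) (.ps 3 10 9 1 4 5 6))) (.mx 5 5 false (.sp 6 10 (.ps 5 4 6 10 2 1 9) (.ps 3 10 9 1 4 5 6)))) (.ps 0 7 6 5 1 9 3))),
    (V 3, W 0, V 2, W 1,
      .sp 6 9 (.sp 7 8 (.sp 7 9 (.mx 5 5 true (.sp 7 10 (.ps 0 6 7 10 4 3 2) (.ps 5 10 2 3 6 0 7))) (.mx 5 5 true (.sp 7 10 (.ps 0 6 7 10 4 3 2) (.ps 5 10 2 3 6 0 7)))) (.sp 7 9 (.mx 5 5 true (.sp 7 10 (.ps 0 6 7 10 4 3 2) (.ps 5 10 2 3 6 0 7))) (.mx 5 5 true (.sp 7 10 (.ps 0 6 7 10 4 3 2) (.ps 5 10 2 3 6 0 7))))) (.sp 7 9 (.sp 7 8 (.mx 5 5 true (.ps 5 10 6 0 2 3 9)) (.mx 5 5 true (.ps 5 10 6 0 2 3 9))) (.ps 0 7 6 5 1 9 3)))]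

def s7Tree : Tree := .mx 5 2 false (.sp 6 7 (.mx 7 0 true (.ps 7 8 6 5 1 2 3)) (.ps 1 7 2 3 0 6 5))

/-- types, adjacencies, certificate -/
def fTab : List (List Ty5 × List (ℕ × ℕ × Bool) × Tree) :=
  [([T, T, V 0, V 1], [(0, 3, true), (1, 2, true), (0, 2, false), (1, 3, false), (2, 3, false)], .ps 2 3 8 5 1 7 6),
    ([T, T, V 0, V 1], [(0, 2, true), (0, 3, true), (1, 2, true), (1, 3, false), (2, 3, false)], .ps 8 0 2 3 5 7 6),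
    ([T, T, V 0, V 1], [(0, 2, true), (0, 3, true), (1, 2, false), (1, 3, true), (2, 3, false)], .ps 7 1 4 3 5 8 6),
    ([T, V 0, V 0, V 1], [(0, 3, false), (1, 3, false), (2, 3, false), (0, 1, true), (0, 2, false)], .ps 4 7 6 5 0 8 2),
    ([T, V 0, V 0, V 1], [(0, 3, false), (0, 1, true), (0, 2, true), (1, 3, true), (2, 3, false)], .ps 8 0 2 3 6 5 7),
    ([T, V 0, V 1, V 1], [(0, 1, false), (1, 2, false), (1, 3, false), (0, 2, true), (0, 3, false)], .ps 2 8 7 5 1 6 4),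
    ([T, V 0, V 1, V 1], [(0, 1, false), (0, 2, true), (0, 3, true), (1, 2, true), (1, 3, false)], .ps 6 1 4 3 7 5 8)]

/-- the root together with a null triple `5, 6, 7` of types `W 0`, `V 2`, `V 3` -/
def specN (a b : ℕ) : Spec where
  K := 8
  root := [(0, 1), (1, 2), (2, 3), (3, 4), (4, 0), (0, 5), (1, 6), (3, 6), (2, 7), (4, 7)]
  pat := true
  tt := true
  cty := [some a, some b]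
  aty := []
  mix := [(0, 1), (1, 0)]
  N := 12

/-- types `W 0` (mask `1`) and `V 2` (mask `10`), with all possible neighbours among `5, 6, 7` -/
def nullTab2 : List (ℕ × ℕ × Tree) :=
  [(1, 10, .mx 8 1 true (.ps 0 5 8 9 4 7 2)),
    (1, 42, .mx 8 1 false (.ps 0 8 5 9 4 7 2)),
    (1, 74, .mx 8 1 false (.cf 1 6)),
    (1, 106, .mx 8 1 false (.cf 1 6)),
    (1, 138, .mx 8 1 true (.ps 9 7 3 6 8 0 5)),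
    (1, 170, .mx 8 1 false (.ps 9 7 3 6 5 0 8)),
    (1, 202, .mx 8 1 false (.cf 1 6)),
    (1, 234, .mx 8 1 false (.cf 1 6)),
    (33, 10, .cf 0 5),
    (33, 42, .cf 0 5),
    (33, 74, .cf 0 5),
    (33, 106, .cf 0 5),
    (33, 138, .cf 0 5),
    (33, 170, .cf 0 5),
    (33, 202, .cf 0 5),
    (33, 234, .cf 0 5),
    (65, 10, .ps 0 5 8 6 4 7 2),
    (65, 42, .ps 0 5 8 6 4 7 2),
    (65, 74, .ps 0 5 8 6 4 7 2),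
    (65, 106, .ps 0 5 8 6 4 7 2),
    (65, 138, .ps 0 5 8 6 4 7 2),
    (65, 170, .ps 0 5 8 6 4 7 2),
    (65, 202, .ps 0 5 8 6 4 7 2),
    (65, 234, .ps 0 5 8 6 4 7 2),
    (97, 10, .cf 0 5),
    (97, 42, .cf 0 5),
    (97, 74, .cf 0 5),
    (97, 106, .cf 0 5),
    (97, 138, .cf 0 5),
    (97, 170, .cf 0 5),
    (97, 202, .cf 0 5),
    (97, 234, .cf 0 5),
    (129, 10, .ps 0 5 8 7 1 6 3),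
    (129, 42, .ps 0 5 8 7 1 6 3),
    (129, 74, .ps 0 5 8 7 1 6 3),
    (129, 106, .ps 0 5 8 7 1 6 3),
    (129, 138, .ps 0 5 8 7 1 6 3),
    (129, 170, .ps 0 5 8 7 1 6 3),
    (129, 202, .ps 0 5 8 7 1 6 3),
    (129, 234, .ps 0 5 8 7 1 6 3),
    (161, 10, .cf 0 5),
    (161, 42, .cf 0 5),
    (161, 74, .cf 0 5),
    (161, 106, .cf 0 5),
    (161, 138, .cf 0 5),
    (161, 170, .cf 0 5),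
    (161, 202, .cf 0 5),
    (161, 234, .cf 0 5),
    (193, 10, .mx 8 1 false (.ps 0 5 8 7 1 9 3)),
    (193, 42, .mx 8 1 false (.ps 1 6 9 5 2 7 4)),
    (193, 74, .mx 8 1 false (.cf 1 6)),
    (193, 106, .mx 8 1 false (.cf 1 6)),
    (193, 138, .mx 8 1 true (.cf 7 8)),
    (193, 170, .mx 8 1 true (.cf 7 8)),
    (193, 202, .mx 8 1 false (.cf 1 6)),
    (193, 234, .mx 8 1 false (.cf 1 6)),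
    (225, 10, .cf 0 5),
    (225, 42, .cf 0 5),
    (225, 74, .cf 0 5),
    (225, 106, .cf 0 5),
    (225, 138, .cf 0 5),
    (225, 170, .cf 0 5),
    (225, 202, .cf 0 5),
    (225, 234, .cf 0 5)]

/-- types `W 0` (mask `1`) and `V 3` (mask `20`), with all possible neighbours among `5, 6, 7` -/
def nullTab3 : List (ℕ × ℕ × Tree) :=
  [(1, 20, .mx 8 1 true (.ps 0 5 8 9 1 6 3)),
    (1, 52, .mx 8 1 false (.ps 0 8 5 9 1 6 3)),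
    (1, 84, .mx 8 1 true (.ps 9 6 2 7 8 0 5)),
    (1, 116, .mx 8 1 false (.ps 9 6 2 7 5 0 8)),
    (1, 148, .mx 8 1 false (.cf 2 7)),
    (1, 180, .mx 8 1 false (.cf 2 7)),
    (1, 212, .mx 8 1 false (.cf 2 7)),
    (1, 244, .mx 8 1 false (.cf 2 7)),
    (33, 20, .cf 0 5),
    (33, 52, .cf 0 5),
    (33, 84, .cf 0 5),
    (33, 116, .cf 0 5),
    (33, 148, .cf 0 5),
    (33, 180, .cf 0 5),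
    (33, 212, .cf 0 5),
    (33, 244, .cf 0 5),
    (65, 20, .ps 0 5 8 6 4 7 2),
    (65, 52, .ps 0 5 8 6 4 7 2),
    (65, 84, .ps 0 5 8 6 4 7 2),
    (65, 116, .ps 0 5 8 6 4 7 2),
    (65, 148, .ps 0 5 8 6 4 7 2),
    (65, 180, .ps 0 5 8 6 4 7 2),
    (65, 212, .ps 0 5 8 6 4 7 2),
    (65, 244, .ps 0 5 8 6 4 7 2),
    (97, 20, .cf 0 5),
    (97, 52, .cf 0 5),
    (97, 84, .cf 0 5),
    (97, 116, .cf 0 5),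
    (97, 148, .cf 0 5),
    (97, 180, .cf 0 5),
    (97, 212, .cf 0 5),
    (97, 244, .cf 0 5),
    (129, 20, .ps 0 5 8 7 1 6 3),
    (129, 52, .ps 0 5 8 7 1 6 3),
    (129, 84, .ps 0 5 8 7 1 6 3),
    (129, 116, .ps 0 5 8 7 1 6 3),
    (129, 148, .ps 0 5 8 7 1 6 3),
    (129, 180, .ps 0 5 8 7 1 6 3),
    (129, 212, .ps 0 5 8 7 1 6 3),
    (129, 244, .ps 0 5 8 7 1 6 3),
    (161, 20, .cf 0 5),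
    (161, 52, .cf 0 5),
    (161, 84, .cf 0 5),
    (161, 116, .cf 0 5),
    (161, 148, .cf 0 5),
    (161, 180, .cf 0 5),
    (161, 212, .cf 0 5),
    (161, 244, .cf 0 5),
    (193, 20, .mx 8 1 false (.ps 0 5 8 6 4 9 2)),
    (193, 52, .mx 8 1 false (.ps 2 7 3 6 9 5 0)),
    (193, 84, .mx 8 1 true (.cf 6 8)),
    (193, 116, .mx 8 1 true (.cf 6 8)),
    (193, 148, .mx 8 1 false (.cf 2 7)),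
    (193, 180, .mx 8 1 false (.cf 2 7)),
    (193, 212, .mx 8 1 false (.cf 2 7)),
    (193, 244, .mx 8 1 false (.cf 2 7)),
    (225, 20, .cf 0 5),
    (225, 52, .cf 0 5),
    (225, 84, .cf 0 5),
    (225, 116, .cf 0 5),
    (225, 148, .cf 0 5),
    (225, 180, .cf 0 5),
    (225, 212, .cf 0 5),
    (225, 244, .cf 0 5)]

abbrev mixP : List (ℕ × ℕ) := [(0, 1), (1, 0)]

abbrev mixD : List (ℕ × ℕ) := [(0, 1), (1, 0), (0, 2), (2, 0)]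

theorem pairTab_ok : pairTab.all (fun e => check (specS [e.1, e.2.1] mixP) e.2.2
    (St.init (specS [e.1, e.2.1] mixP) 1 [])) = true := by decide +kernel

theorem dblTab_ok : dblTab.all (fun e => check (specS [e.1, e.2.1, e.2.2.1] mixD) e.2.2.2
    (St.init (specS [e.1, e.2.1, e.2.2.1] mixD) 1 [])) = true := by decide +kernel

abbrev mixJ (q : ℕ) : List (ℕ × ℕ) := [(q, 3), (3, q)]

abbrev jadj1 : List (ℕ × ℕ × Bool) := [(0, 1, true), (0, 2, true)]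

abbrev jadj2 : List (ℕ × ℕ × Bool) := [(0, 1, true), (1, 2, false)]

abbrev jadj3 : List (ℕ × ℕ × Bool) := [(0, 2, true), (1, 2, false)]

theorem jTab_ok1 : jTab.all (fun e => check (specS [T, V 0, V 1, e.2.1] (mixJ e.2.2.1)) e.2.2.2.1
    (St.init (specS [T, V 0, V 1, e.2.1] (mixJ e.2.2.1)) 3 jadj1)) = true := by decide +kernel

theorem jTab_ok2 : jTab.all (fun e => check (specS [T, V 0, V 1, e.2.1] (mixJ e.2.2.1)) e.2.2.2.2.1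
    (St.init (specS [T, V 0, V 1, e.2.1] (mixJ e.2.2.1)) 3 jadj2)) = true := by decide +kernel

theorem jTab_ok3 : jTab.all (fun e => check (specS [T, V 0, V 1, e.2.1] (mixJ e.2.2.1)) e.2.2.2.2.2
    (St.init (specS [T, V 0, V 1, e.2.1] (mixJ e.2.2.1)) 3 jadj3)) = true := by decide +kernel

abbrev kadj : List (ℕ × ℕ × Bool) := [(0, 1, true), (0, 2, false), (0, 3, true), (0, 4, false)]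

theorem kTab_ok : kTab.all (fun e =>
    check (specS [e.1, e.2.1, e.2.1, e.2.2.1, e.2.2.1, e.2.2.2.1] [(0, 5), (5, 0)]) e.2.2.2.2
    (St.init (specS [e.1, e.2.1, e.2.1, e.2.2.1, e.2.2.1, e.2.2.2.1] [(0, 5), (5, 0)]) 5 kadj)) = true := by
  decide +kernel

theorem s7_ok : check (specS [T, W 0, V 0] [(0, 2), (2, 0)]) s7Tree
    (St.init (specS [T, W 0, V 0] [(0, 2), (2, 0)]) 2 [(0, 1, true)]) = true := by decide +kernel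

theorem fTab_ok : fTab.all (fun e => check (specS e.1 []) e.2.2
    (St.init (specS e.1 []) e.1.length e.2.1)) = true := by decide +kernel

theorem nullTab2_ok : nullTab2.all (fun e => check (specN e.1 e.2.1) e.2.2
    (St.init (specN e.1 e.2.1) 1 [])) = true := by decide +kernel

theorem nullTab3_ok : nullTab3.all (fun e => check (specN e.1 e.2.1) e.2.2
    (St.init (specN e.1 e.2.1) 1 [])) = true := by decide +kernel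

end Pool.Agent.H68.CW
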