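import Pool.Agent.H68.CW.SFact
import Pool.Agent.H68.CW.STab

/-!
SUB. The certificates `jTab`, `kTab`, `s7Tree` used.

Proofs. As in SUseA. `jex_use`: let `(t, a, b)` be the triple of `u` in `JJ`; `u` is `t`, `a` or `b`, and its type is `T`, `V s`, `V (s + 1)` accordingly (`Typ.unique`; `T.rot s`, `(V 0).rot s = V (0 + s)`, `(V 1).rot s = V (1 + s)`). The entry of `jTab` with the key `(q.1, q.2)` has the right position
(`decide` over `badJ`, `jTab`: for every `q ∈ badJ` there is `e ∈ jTab` with `e.1 = q.1`, `e.2.1 = q.2` and `(e.1, e.2.2.1) ∈ [(T, 0), (V 0, 1), (V 1, 2)]`). `JTrip` has three forms: use `jTab_ok1`, `jTab_ok2`, `jTab_ok3` with `m = 3`, `rep 0 = t`, `rep 1 = a`, `rep 2 = b`, `rep 3 = w`.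
`kex_use`: `KK` gives `u` of type `W s`, `V (s + 2)` or `V (s + 3)` and neighbours and non-neighbours `y, y'` of the first other type, `z, z'` of the second one; the entry of `kTab` with `e.1 = q.1`, `e.2.2.2.1 = q.2`, `m = 5`, `rep 0 = u`, `rep 1 = y`, `rep 2 = y'`, `rep 3 = z`, `rep 4 = z'`, `rep 5 = w`.
`s7_use`: `C5Sys.fact` with `s7_ok`, `rep 0 = t`, `rep 1 = w`, `rep 2 = v`.
-/

set_option autoImplicit false

namespace Pool.Agent.H68.CW

variable {V : Type} {G : SimpleGraph V} {M X : Set V} {E : ℕ → V → V → Prop} {p : Fin 5 → V}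

/-- the representatives -/
def SUseB_rep (t a b w : V) : ℕ → V :=
  fun n => if n = 0 then t else if n = 1 then a else if n = 2 then b else w

theorem SUseB_j (h : C5Sys G M X E p) (s : Fin 5) {e : Ty5 × Ty5 × ℕ × Tree × Tree × Tree}
    (he : e ∈ jTab) {t a b w : V} (ht : t ∈ X) (ha : a ∈ X) (hb : b ∈ X) (hw : w ∈ X)
    (tt : Typ G p t .T) (ta : Typ G p a (.V s)) (tb : Typ G p b (.V (s + 1)))
    (tw : Typ G p w (e.2.1.rot s)) (hJ : JTrip G t a b)
    (hm : Mx G X E 12 (SUseB_rep t a b w e.2.2.1) w) : False := by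
  have hX : ∀ c < [Ty5.T, Ty5.V 0, Ty5.V 1, e.2.1].length, SUseB_rep t a b w c ∈ X := by
    intro c hc
    have hc4 : c < 4 := hc
    interval_cases c
    · exact ht
    · exact ha
    · exact hb
    · exact hw
  have hty : ∀ c τ, [Ty5.T, Ty5.V 0, Ty5.V 1, e.2.1][c]? = some τ →
      Typ G p (SUseB_rep t a b w c) (τ.rot s) := by
    intro c τ hc
    have hc4 : c < 4 := by
      by_contra hc4
      rw [List.getElem?_eq_none (by simpa using hc4)] at hc
      cases hc
    interval_cases c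
    · obtain rfl : Ty5.T = τ := Option.some.inj hc
      exact tt
    · obtain rfl : Ty5.V 0 = τ := Option.some.inj hc
      show Typ G p a (.V (0 + s))
      rw [zero_add]
      exact ta
    · obtain rfl : Ty5.V 1 = τ := Option.some.inj hc
      show Typ G p b (.V (1 + s))
      rw [add_comm]
      exact tb
    · obtain rfl : e.2.1 = τ := Option.some.inj hc
      exact tw
  have hmix : ∀ c d, (c, d) ∈ mixJ e.2.2.1 →
      Mx G X E 12 (SUseB_rep t a b w c) (SUseB_rep t a b w d) := by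
    intro c d hcd
    rcases List.mem_cons.1 hcd with hcd | hcd
    · obtain ⟨rfl, rfl⟩ := Prod.mk.inj hcd
      exact hm
    · obtain ⟨rfl, rfl⟩ := Prod.mk.inj (List.mem_singleton.1 hcd)
      exact hm.symm
  rcases hJ with hJ | hJ | hJ
  · refine h.fact s _ (mixJ e.2.2.1) 3 (by simp) (by norm_num) jadj1 e.2.2.2.1
      (List.all_eq_true.1 jTab_ok1 e he) (SUseB_rep t a b w) hX hty hmix ?_
    intro f hf
    rcases List.mem_cons.1 hf with rfl | hf
    · exact ⟨by norm_num, by norm_num, iff_of_true hJ.1 rfl⟩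
    · rw [List.mem_singleton.1 hf]
      exact ⟨by norm_num, by norm_num, iff_of_true hJ.2 rfl⟩
  · refine h.fact s _ (mixJ e.2.2.1) 3 (by simp) (by norm_num) jadj2 e.2.2.2.2.1
      (List.all_eq_true.1 jTab_ok2 e he) (SUseB_rep t a b w) hX hty hmix ?_
    intro f hf
    rcases List.mem_cons.1 hf with rfl | hf
    · exact ⟨by norm_num, by norm_num, iff_of_true hJ.1 rfl⟩
    · rw [List.mem_singleton.1 hf]
      exact ⟨by norm_num, by norm_num, iff_of_false hJ.2 (by decide)⟩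
  · refine h.fact s _ (mixJ e.2.2.1) 3 (by simp) (by norm_num) jadj3 e.2.2.2.2.2
      (List.all_eq_true.1 jTab_ok3 e he) (SUseB_rep t a b w) hX hty hmix ?_
    intro f hf
    rcases List.mem_cons.1 hf with rfl | hf
    · exact ⟨by norm_num, by norm_num, iff_of_true hJ.1 rfl⟩
    · rw [List.mem_singleton.1 hf]
      exact ⟨by norm_num, by norm_num, iff_of_false hJ.2 (by decide)⟩

theorem SUseB_keyJ : ∀ q ∈ badJ, ∃ e ∈ jTab, e.1 = q.1 ∧ e.2.1 = q.2 ∧
    ((e.1 = Ty5.T ∧ e.2.2.1 = 0) ∨ (e.1 = Ty5.V 0 ∧ e.2.2.1 = 1) ∨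
      (e.1 = Ty5.V 1 ∧ e.2.2.1 = 2)) := by
  decide +kernel

theorem jex_use (h : C5Sys G M X E p) (s : Fin 5) (q : Ty5 × Ty5) (hq : q ∈ badJ) {u w : V}
    (hu : u ∈ X) (hw : w ∈ X) (tu : Typ G p u (q.1.rot s)) (tw : Typ G p w (q.2.rot s))
    (hJ : JJ G X p s u) : ¬ Mx G X E 12 u w := by
  intro hm
  obtain ⟨e, he, h1, h2, h3⟩ := SUseB_keyJ q hq
  obtain ⟨t, ht, a, ha, b, hb, tt, ta, tb, hJ, hu'⟩ := hJ
  rw [← h1] at tu
  rw [← h2] at tw
  have hpos : SUseB_rep t a b w e.2.2.1 = u := by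
    rcases h3 with ⟨h3, h4⟩ | ⟨h3, h4⟩ | ⟨h3, h4⟩ <;> rw [h3] at tu <;> rw [h4]
    · have tu' : Typ G p u .T := tu
      rcases hu' with rfl | rfl | rfl
      · rfl
      · exact absurd (Typ.unique tu' ta) (by simp)
      · exact absurd (Typ.unique tu' tb) (by simp)
    · have tu' : Typ G p u (.V (0 + s)) := tu
      rcases hu' with rfl | rfl | rfl
      · exact absurd (Typ.unique tu' tt) (by simp)
      · rfl
      · exact absurd (Typ.unique tu' tb) (by simp)
    · have tu' : Typ G p u (.V (1 + s)) := tu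
      rcases hu' with rfl | rfl | rfl
      · exact absurd (Typ.unique tu' tt) (by simp)
      · exact absurd (Typ.unique tu' ta) (by simp)
      · rfl
  exact SUseB_j h s he ht ha hb hw tt ta tb tw hJ (by rw [hpos]; exact hm)

/-- the representatives -/
def SUseB_rep5 (u y y' z z' w : V) : ℕ → V :=
  fun n => if n = 0 then u else if n = 1 then y else if n = 2 then y' else if n = 3 then z else
    if n = 4 then z' else w

theorem SUseB_k (h : C5Sys G M X E p) (s : Fin 5) {e : Ty5 × Ty5 × Ty5 × Ty5 × Tree}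
    (he : e ∈ kTab) {u w : V} (hu : u ∈ X) (hw : w ∈ X)
    (tu : Typ G p u (e.1.rot s)) (tw : Typ G p w (e.2.2.2.1.rot s))
    (i1 : Indiv G X p (e.2.1.rot s) u) (i2 : Indiv G X p (e.2.2.1.rot s) u)
    (hm : Mx G X E 12 u w) : False := by
  obtain ⟨⟨y, hy, ty, ay⟩, ⟨y', hy', ty', ay'⟩⟩ := i1
  obtain ⟨⟨z, hz, tz, az⟩, ⟨z', hz', tz', az'⟩⟩ := i2
  refine h.fact s [e.1, e.2.1, e.2.1, e.2.2.1, e.2.2.1, e.2.2.2.1] [(0, 5), (5, 0)] 5 (by simp)
    (by norm_num) kadj e.2.2.2.2 (List.all_eq_true.1 kTab_ok e he)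
    (SUseB_rep5 u y y' z z' w) ?_ ?_ ?_ ?_
  · intro c hc
    have hc6 : c < 6 := hc
    interval_cases c
    · exact hu
    · exact hy
    · exact hy'
    · exact hz
    · exact hz'
    · exact hw
  · intro c τ hc
    have hc6 : c < 6 := by
      by_contra hc6
      rw [List.getElem?_eq_none (by simpa using hc6)] at hc
      cases hc
    interval_cases c
    · obtain rfl : e.1 = τ := Option.some.inj hc
      exact tu
    · obtain rfl : e.2.1 = τ := Option.some.inj hc
      exact ty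
    · obtain rfl : e.2.1 = τ := Option.some.inj hc
      exact ty'
    · obtain rfl : e.2.2.1 = τ := Option.some.inj hc
      exact tz
    · obtain rfl : e.2.2.1 = τ := Option.some.inj hc
      exact tz'
    · obtain rfl : e.2.2.2.1 = τ := Option.some.inj hc
      exact tw
  · intro c d hcd
    rcases List.mem_cons.1 hcd with hcd | hcd
    · obtain ⟨rfl, rfl⟩ := Prod.mk.inj hcd
      exact hm
    · obtain ⟨rfl, rfl⟩ := Prod.mk.inj (List.mem_singleton.1 hcd)
      exact hm.symm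
  · intro f hf
    rcases List.mem_cons.1 hf with rfl | hf
    · exact ⟨by norm_num, by norm_num, iff_of_true ay rfl⟩
    rcases List.mem_cons.1 hf with rfl | hf
    · exact ⟨by norm_num, by norm_num, iff_of_false ay' (by decide)⟩
    rcases List.mem_cons.1 hf with rfl | hf
    · exact ⟨by norm_num, by norm_num, iff_of_true az rfl⟩
    · rw [List.mem_singleton.1 hf]
      exact ⟨by norm_num, by norm_num, iff_of_false az' (by decide)⟩

theorem SUseB_keyK : ∀ q ∈ badK, ∃ e ∈ kTab, e.1 = q.1 ∧ e.2.2.2.1 = q.2 ∧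
    ((e.1 = Ty5.W 0 ∧ e.2.1 = Ty5.V 2 ∧ e.2.2.1 = Ty5.V 3) ∨
      (e.1 = Ty5.V 2 ∧ e.2.1 = Ty5.W 0 ∧ e.2.2.1 = Ty5.V 3) ∨
      (e.1 = Ty5.V 3 ∧ e.2.1 = Ty5.W 0 ∧ e.2.2.1 = Ty5.V 2)) := by
  decide +kernel

theorem kex_use (h : C5Sys G M X E p) (s : Fin 5) (q : Ty5 × Ty5) (hq : q ∈ badK) {u w : V}
    (hu : u ∈ X) (hw : w ∈ X) (tu : Typ G p u (q.1.rot s)) (tw : Typ G p w (q.2.rot s))
    (hK : KK G X p s u) : ¬ Mx G X E 12 u w := by
  intro hm
  obtain ⟨e, he, h1, h2, h3⟩ := SUseB_keyK q hq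
  obtain ⟨-, hK⟩ := hK
  rw [← h1] at tu
  rw [← h2] at tw
  have c2 : s + 2 = 2 + s := add_comm _ _
  have c3 : s + 3 = 3 + s := add_comm _ _
  have c0 : s = 0 + s := (zero_add s).symm
  rw [c2, c3] at hK
  have key : Indiv G X p (e.2.1.rot s) u ∧ Indiv G X p (e.2.2.1.rot s) u := by
    rcases h3 with ⟨h3, h4, h5⟩ | ⟨h3, h4, h5⟩ | ⟨h3, h4, h5⟩ <;> rw [h3] at tu <;> rw [h4, h5]
    · have tu' : Typ G p u (.W (0 + s)) := tu
      rcases hK with ⟨k1, k2, k3⟩ | ⟨k1, k2, k3⟩ | ⟨k1, k2, k3⟩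
      · exact ⟨k2, k3⟩
      · exact absurd (Typ.unique tu' k1) (by simp)
      · exact absurd (Typ.unique tu' k1) (by simp)
    · have tu' : Typ G p u (.V (2 + s)) := tu
      rcases hK with ⟨k1, k2, k3⟩ | ⟨k1, k2, k3⟩ | ⟨k1, k2, k3⟩
      · exact absurd (Typ.unique tu' k1) (by simp)
      · refine ⟨?_, k3⟩
        show Indiv G X p (.W (0 + s)) u
        rw [zero_add]
        exact k2
      · exact absurd (Typ.unique tu' k1) (by simp)
    · have tu' : Typ G p u (.V (3 + s)) := tu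
      rcases hK with ⟨k1, k2, k3⟩ | ⟨k1, k2, k3⟩ | ⟨k1, k2, k3⟩
      · exact absurd (Typ.unique tu' k1) (by simp)
      · exact absurd (Typ.unique tu' k1) (by simp)
      · refine ⟨?_, k3⟩
        show Indiv G X p (.W (0 + s)) u
        rw [zero_add]
        exact k2
  exact SUseB_k h s he hu hw tu tw key.1 key.2 hm

theorem s7_use (h : C5Sys G M X E p) (i : Fin 5) {t w v : V} (ht : t ∈ X) (hw : w ∈ X)
    (hv : v ∈ X) (tt : Typ G p t .T) (tw : Typ G p w (.W i)) (tv : Typ G p v (.V i))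
    (hm : Mx G X E 12 t v) : ¬ G.Adj t w := by
  intro hadj
  refine h.fact i [Ty5.T, Ty5.W 0, Ty5.V 0] [(0, 2), (2, 0)] 2 (by simp) (by norm_num)
    [(0, 1, true)] s7Tree s7_ok (SUseB_rep t w v v) ?_ ?_ ?_ ?_
  · intro c hc
    have hc3 : c < 3 := hc
    interval_cases c
    · exact ht
    · exact hw
    · exact hv
  · intro c τ hc
    have hc3 : c < 3 := by
      by_contra hc3
      rw [List.getElem?_eq_none (by simpa using hc3)] at hc
      cases hc
    interval_cases c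
    · obtain rfl : Ty5.T = τ := Option.some.inj hc
      exact tt
    · obtain rfl : Ty5.W 0 = τ := Option.some.inj hc
      show Typ G p w (.W (0 + i))
      rw [zero_add]
      exact tw
    · obtain rfl : Ty5.V 0 = τ := Option.some.inj hc
      show Typ G p v (.V (0 + i))
      rw [zero_add]
      exact tv
  · intro c d hcd
    rcases List.mem_cons.1 hcd with hcd | hcd
    · obtain ⟨rfl, rfl⟩ := Prod.mk.inj hcd
      exact hm
    · obtain ⟨rfl, rfl⟩ := Prod.mk.inj (List.mem_singleton.1 hcd)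
      exact hm.symm
  · intro f hf
    rw [List.mem_singleton.1 hf]
    exact ⟨by norm_num, by norm_num, iff_of_true hadj rfl⟩

end Pool.Agent.H68.CW
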