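import Pool.Agent.H68.CW.SFact
import Pool.Agent.H68.CW.STab

/-!
SUC. The certificates `fTab` used.

Proofs. `ind`: label `0`: `h.tt`; labels `1, 2`: the two vertices have a common neighbour on the cycle, and there are no triangles. `tri`: `h.tri`. `f1`, ..., `f7`: by contradiction, `C5Sys.fact` with `s = i`, the corresponding entry of `fTab` (7 entries, in this order), `mix = []`, `m = 4`. For the
equivalences in `f4`, ..., `f7` both directions: the entry of `fTab` gives one direction for all pairs `a, a'` (or `b, b'`), exchange them for the other one.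
-/

set_option autoImplicit false

namespace Pool.Agent.H68.CW

variable {V : Type} {G : SimpleGraph V} {M X : Set V} {E : ℕ → V → V → Prop} {p : Fin 5 → V}

theorem SUseC_t {P : Prop} (h : P) : (P ↔ true = true) := ⟨fun _ => rfl, fun _ => h⟩

theorem SUseC_f {P : Prop} (h : ¬ P) : (P ↔ false = true) :=
  ⟨fun h' => absurd h' h, fun h' => absurd h' Bool.false_ne_true⟩

/-- four vertices as a function on the natural numbers -/
def SUseC_rep (x0 x1 x2 x3 : V) : ℕ → V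
  | 0 => x0
  | 1 => x1
  | 2 => x2
  | _ => x3

theorem SUseC_fact (h : C5Sys G M X E p) (i : Fin 5) (c0 c1 c2 c3 : Ty5)
    (adj : List (ℕ × ℕ × Bool)) (t : Tree) (hmem : ([c0, c1, c2, c3], adj, t) ∈ fTab)
    (x0 x1 x2 x3 : V) (m0 : x0 ∈ X) (m1 : x1 ∈ X) (m2 : x2 ∈ X) (m3 : x3 ∈ X)
    (t0 : Typ G p x0 (c0.rot i)) (t1 : Typ G p x1 (c1.rot i)) (t2 : Typ G p x2 (c2.rot i))
    (t3 : Typ G p x3 (c3.rot i))
    (hadj : ∀ e ∈ adj, e.1 < 4 ∧ e.2.1 < 4 ∧
      (G.Adj (SUseC_rep x0 x1 x2 x3 e.1) (SUseC_rep x0 x1 x2 x3 e.2.1) ↔ e.2.2 = true)) :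
    False := by
  have hchk := List.all_eq_true.1 fTab_ok _ hmem
  refine h.fact i [c0, c1, c2, c3] [] 4 (le_refl 4) (by norm_num) adj t hchk
    (SUseC_rep x0 x1 x2 x3) ?_ ?_ ?_ hadj
  · intro c hc
    have hc' : c < 4 := hc
    rcases c with _ | _ | _ | _ | c
    · exact m0
    · exact m1
    · exact m2
    · exact m3
    · exact absurd hc' (by omega)
  · intro c τ hτ
    rcases c with _ | _ | _ | _ | c
    · obtain rfl : c0 = τ := by simpa using hτ
      exact t0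
    · obtain rfl : c1 = τ := by simpa using hτ
      exact t1
    · obtain rfl : c2 = τ := by simpa using hτ
      exact t2
    · obtain rfl : c3 = τ := by simpa using hτ
      exact t3
    · simp at hτ
  · intro c d hcd
    exact absurd hcd (by simp)

theorem SUseC_V0 (i : Fin 5) : (Ty5.V 0).rot i = Ty5.V i := by
  show Ty5.V (0 + i) = Ty5.V i
  rw [zero_add]

theorem SUseC_V1 (i : Fin 5) : (Ty5.V 1).rot i = Ty5.V (i + 1) := by
  show Ty5.V (1 + i) = Ty5.V (i + 1)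
  rw [add_comm]

theorem SUseC_nb (i : Fin 5) : (Ty5.V i).nb (i + 1) = true := by
  simp [Ty5.nb]

theorem one_use (h : C5Sys G M X E p) (i : Fin 5) {Y : Set V} (hY : Y ⊆ X) (ℓ : V → Fin 3)
    (h0 : ∀ u ∈ Y, ℓ u = 0 → Typ G p u .T) (h1 : ∀ u ∈ Y, ℓ u = 1 → Typ G p u (.V i))
    (h2 : ∀ u ∈ Y, ℓ u = 2 → Typ G p u (.V (i + 1))) : OneFacts G ℓ Y := by
  have hT : ∀ u ∈ Y, ℓ u = 0 → Typ G p u (Ty5.T.rot i) := h0
  have hA : ∀ u ∈ Y, ℓ u = 1 → Typ G p u ((Ty5.V 0).rot i) := by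
    intro u hu hl
    rw [SUseC_V0]
    exact h1 u hu hl
  have hB : ∀ u ∈ Y, ℓ u = 2 → Typ G p u ((Ty5.V 1).rot i) := by
    intro u hu hl
    rw [SUseC_V1]
    exact h2 u hu hl
  have hYM : ∀ u ∈ Y, u ∈ M := fun u hu => h.sub (hY hu)
  have hcom : ∀ j, ∀ u ∈ Y, ∀ v ∈ Y, Typ G p u (.V j) → Typ G p v (.V j) → ¬ G.Adj u v := by
    intro j u hu v hv h3 h4 h5
    exact h.tri u (hYM u hu) v (hYM v hv) (p (j + 1)) (h.pM _) h5 ((h4 (j + 1)).2 (SUseC_nb j))
      ((h3 (j + 1)).2 (SUseC_nb j))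
  have f4 : ∀ t ∈ Y, ∀ a ∈ Y, ∀ a' ∈ Y, ∀ b ∈ Y, ℓ t = 0 → ℓ a = 1 → ℓ a' = 1 → ℓ b = 2 →
      ¬ G.Adj t b → ¬ G.Adj a b → ¬ G.Adj a' b → G.Adj t a → G.Adj t a' := by
    intro t ht a ha a' ha' b hb l0 l1 l2 l3 e1 e2 e3 e4
    by_contra e5
    refine SUseC_fact h i _ _ _ _ _ _ (List.mem_cons_of_mem _ (List.mem_cons_of_mem _
      (List.mem_cons_of_mem _ List.mem_cons_self))) t a a' b (hY ht) (hY ha) (hY ha') (hY hb)
      (hT t ht l0) (hA a ha l1) (hA a' ha' l2) (hB b hb l3) ?_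
    intro e he
    simp only [List.mem_cons, List.not_mem_nil, or_false] at he
    rcases he with rfl | rfl | rfl | rfl | rfl
    · exact ⟨by norm_num, by norm_num, SUseC_f e1⟩
    · exact ⟨by norm_num, by norm_num, SUseC_f e2⟩
    · exact ⟨by norm_num, by norm_num, SUseC_f e3⟩
    · exact ⟨by norm_num, by norm_num, SUseC_t e4⟩
    · exact ⟨by norm_num, by norm_num, SUseC_f e5⟩
  have f5 : ∀ t ∈ Y, ∀ a ∈ Y, ∀ a' ∈ Y, ∀ b ∈ Y, ℓ t = 0 → ℓ a = 1 → ℓ a' = 1 → ℓ b = 2 →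
      ¬ G.Adj t b → G.Adj t a → G.Adj t a' → G.Adj a b → G.Adj a' b := by
    intro t ht a ha a' ha' b hb l0 l1 l2 l3 e1 e2 e3 e4
    by_contra e5
    refine SUseC_fact h i _ _ _ _ _ _ (List.mem_cons_of_mem _ (List.mem_cons_of_mem _
      (List.mem_cons_of_mem _ (List.mem_cons_of_mem _ List.mem_cons_self)))) t a a' b (hY ht)
      (hY ha) (hY ha') (hY hb)
      (hT t ht l0) (hA a ha l1) (hA a' ha' l2) (hB b hb l3) ?_
    intro e he
    simp only [List.mem_cons, List.not_mem_nil, or_false] at he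
    rcases he with rfl | rfl | rfl | rfl | rfl
    · exact ⟨by norm_num, by norm_num, SUseC_f e1⟩
    · exact ⟨by norm_num, by norm_num, SUseC_t e2⟩
    · exact ⟨by norm_num, by norm_num, SUseC_t e3⟩
    · exact ⟨by norm_num, by norm_num, SUseC_t e4⟩
    · exact ⟨by norm_num, by norm_num, SUseC_f e5⟩
  have f6 : ∀ t ∈ Y, ∀ a ∈ Y, ∀ b ∈ Y, ∀ b' ∈ Y, ℓ t = 0 → ℓ a = 1 → ℓ b = 2 → ℓ b' = 2 →
      ¬ G.Adj t a → ¬ G.Adj a b → ¬ G.Adj a b' → G.Adj t b → G.Adj t b' := by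
    intro t ht a ha b hb b' hb' l0 l1 l2 l3 e1 e2 e3 e4
    by_contra e5
    refine SUseC_fact h i _ _ _ _ _ _ (List.mem_cons_of_mem _ (List.mem_cons_of_mem _
      (List.mem_cons_of_mem _ (List.mem_cons_of_mem _ (List.mem_cons_of_mem _
      List.mem_cons_self))))) t a b b' (hY ht)
      (hY ha) (hY hb) (hY hb')
      (hT t ht l0) (hA a ha l1) (hB b hb l2) (hB b' hb' l3) ?_
    intro e he
    simp only [List.mem_cons, List.not_mem_nil, or_false] at he
    rcases he with rfl | rfl | rfl | rfl | rfl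
    · exact ⟨by norm_num, by norm_num, SUseC_f e1⟩
    · exact ⟨by norm_num, by norm_num, SUseC_f e2⟩
    · exact ⟨by norm_num, by norm_num, SUseC_f e3⟩
    · exact ⟨by norm_num, by norm_num, SUseC_t e4⟩
    · exact ⟨by norm_num, by norm_num, SUseC_f e5⟩
  have f7 : ∀ t ∈ Y, ∀ a ∈ Y, ∀ b ∈ Y, ∀ b' ∈ Y, ℓ t = 0 → ℓ a = 1 → ℓ b = 2 → ℓ b' = 2 →
      ¬ G.Adj t a → G.Adj t b → G.Adj t b' → G.Adj a b → G.Adj a b' := by
    intro t ht a ha b hb b' hb' l0 l1 l2 l3 e1 e2 e3 e4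
    by_contra e5
    refine SUseC_fact h i _ _ _ _ _ _ (List.mem_cons_of_mem _ (List.mem_cons_of_mem _
      (List.mem_cons_of_mem _ (List.mem_cons_of_mem _ (List.mem_cons_of_mem _
      (List.mem_cons_of_mem _ List.mem_cons_self)))))) t a b b' (hY ht)
      (hY ha) (hY hb) (hY hb')
      (hT t ht l0) (hA a ha l1) (hB b hb l2) (hB b' hb' l3) ?_
    intro e he
    simp only [List.mem_cons, List.not_mem_nil, or_false] at he
    rcases he with rfl | rfl | rfl | rfl | rfl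
    · exact ⟨by norm_num, by norm_num, SUseC_f e1⟩
    · exact ⟨by norm_num, by norm_num, SUseC_t e2⟩
    · exact ⟨by norm_num, by norm_num, SUseC_t e3⟩
    · exact ⟨by norm_num, by norm_num, SUseC_t e4⟩
    · exact ⟨by norm_num, by norm_num, SUseC_f e5⟩
  refine ⟨?_, ?_, ?_, ?_, ?_, ?_, ?_, ?_, ?_⟩
  · intro u hu v hv huv
    have hl : ℓ u = 0 ∨ ℓ u = 1 ∨ ℓ u = 2 := by
      generalize ℓ u = x
      revert x
      decide
    rcases hl with hl | hl | hl
    · exact h.tt u (hY hu) v (hY hv) (h0 u hu hl) (h0 v hv (huv ▸ hl))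
    · exact hcom i u hu v hv (h1 u hu hl) (h1 v hv (huv ▸ hl))
    · exact hcom (i + 1) u hu v hv (h2 u hu hl) (h2 v hv (huv ▸ hl))
  · intro a ha b hb c hc
    exact h.tri a (hYM a ha) b (hYM b hb) c (hYM c hc)
  · intro t ht t' ht' a ha b hb l0 l1 l2 l3 e1 e2 e3 e4
    by_contra e5
    refine SUseC_fact h i _ _ _ _ _ _ List.mem_cons_self t t' a b (hY ht)
      (hY ht') (hY ha) (hY hb)
      (hT t ht l0) (hT t' ht' l1) (hA a ha l2) (hB b hb l3) ?_
    intro e he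
    simp only [List.mem_cons, List.not_mem_nil, or_false] at he
    rcases he with rfl | rfl | rfl | rfl | rfl
    · exact ⟨by norm_num, by norm_num, SUseC_t e1⟩
    · exact ⟨by norm_num, by norm_num, SUseC_t e2⟩
    · exact ⟨by norm_num, by norm_num, SUseC_f e3⟩
    · exact ⟨by norm_num, by norm_num, SUseC_f e4⟩
    · exact ⟨by norm_num, by norm_num, SUseC_f e5⟩
  · intro t ht t' ht' a ha b hb l0 l1 l2 l3 e1 e2 e3 e4
    by_contra e5
    refine SUseC_fact h i _ _ _ _ _ _ (List.mem_cons_of_mem _ List.mem_cons_self) t t' a b (hY ht)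
      (hY ht') (hY ha) (hY hb)
      (hT t ht l0) (hT t' ht' l1) (hA a ha l2) (hB b hb l3) ?_
    intro e he
    simp only [List.mem_cons, List.not_mem_nil, or_false] at he
    rcases he with rfl | rfl | rfl | rfl | rfl
    · exact ⟨by norm_num, by norm_num, SUseC_t e1⟩
    · exact ⟨by norm_num, by norm_num, SUseC_t e2⟩
    · exact ⟨by norm_num, by norm_num, SUseC_t e3⟩
    · exact ⟨by norm_num, by norm_num, SUseC_f e4⟩
    · exact ⟨by norm_num, by norm_num, SUseC_f e5⟩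
  · intro t ht t' ht' a ha b hb l0 l1 l2 l3 e1 e2 e3 e4
    by_contra e5
    refine SUseC_fact h i _ _ _ _ _ _ (List.mem_cons_of_mem _ (List.mem_cons_of_mem _
      List.mem_cons_self)) t t' a b (hY ht)
      (hY ht') (hY ha) (hY hb)
      (hT t ht l0) (hT t' ht' l1) (hA a ha l2) (hB b hb l3) ?_
    intro e he
    simp only [List.mem_cons, List.not_mem_nil, or_false] at he
    rcases he with rfl | rfl | rfl | rfl | rfl
    · exact ⟨by norm_num, by norm_num, SUseC_t e1⟩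
    · exact ⟨by norm_num, by norm_num, SUseC_t e2⟩
    · exact ⟨by norm_num, by norm_num, SUseC_f e3⟩
    · exact ⟨by norm_num, by norm_num, SUseC_t e4⟩
    · exact ⟨by norm_num, by norm_num, SUseC_f e5⟩
  · intro t ht a ha a' ha' b hb l0 l1 l2 l3 e1 e2 e3
    exact ⟨f4 t ht a ha a' ha' b hb l0 l1 l2 l3 e1 e2 e3,
      f4 t ht a' ha' a ha b hb l0 l2 l1 l3 e1 e3 e2⟩
  · intro t ht a ha a' ha' b hb l0 l1 l2 l3 e1 e2 e3
    exact ⟨f5 t ht a ha a' ha' b hb l0 l1 l2 l3 e1 e2 e3,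
      f5 t ht a' ha' a ha b hb l0 l2 l1 l3 e1 e3 e2⟩
  · intro t ht a ha b hb b' hb' l0 l1 l2 l3 e1 e2 e3
    exact ⟨f6 t ht a ha b hb b' hb' l0 l1 l2 l3 e1 e2 e3,
      f6 t ht a ha b' hb' b hb l0 l1 l3 l2 e1 e3 e2⟩
  · intro t ht a ha b hb b' hb' l0 l1 l2 l3 e1 e2 e3
    exact ⟨f7 t ht a ha b hb b' hb' l0 l1 l2 l3 e1 e2 e3,
      f7 t ht a ha b' hb' b hb l0 l1 l3 l2 e1 e3 e2⟩

end Pool.Agent.H68.CW
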