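import Pool.Agent.H68.CW.SFact
import Pool.Agent.H68.CW.STab

/-!
SUD. The certificates `nullTab2`, `nullTab3` used.

Proof. `cert_sound` for `specN a b` with the root `p' n = p (n + i)` for `n < 5`, `p' 5 = x`, `p' 6 = y`, `p' 7 = z`, and `rep 0 = u`, `rep 1 = w` (`rep n = w` for `n ≥ 1`). Here `a` is the mask of `u`: `1` (the neighbour `p i`, which is `p' 0`) plus `32`, `64`, `128` if `u` is adjacent to `x`, `y`, `z`; so
`a ∈ {1, 33, ..., 225}`, `a = 1 + 32 e`, `e < 8`. Similarly `b = 10 + 32 f` (`V 2`: neighbours `p' 1, p' 3`) or `b = 20 + 32 f` (`V 3`: neighbours `p' 2, p' 4`). The table contains all 64 pairs (`decide`). `Ctx.root`: `x, y, z` are of types `W i`, `V (i + 2)`, `V (i + 3)` and pairwise not adjacent (64 cases).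
`pinj`: the neighbourhoods in the root of two different root vertices are different (or: `x, y, z` are different from the `p i` since their types would be `V j` with other neighbours...; simplest: if `p' i = p' j` then the rows of adjacencies `i` and `j` agree, and they are all different: `decide`). `tt`: the
hypothesis of `Ctx.tt` for 8 root vertices implies the one for the five `p i`.
-/

set_option autoImplicit false

namespace Pool.Agent.H68.CW

variable {V : Type} {G : SimpleGraph V} {M X : Set V} {E : ℕ → V → V → Prop} {p : Fin 5 → V}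

theorem decN0 : ∀ i a b : Fin 5, ((i + b = i + a + 1 ∨ i + a = i + b + 1) ↔ (b = a + 1 ∨ a = b + 1)) := by
  decide

theorem decN1 : ∀ i a : Fin 5, ((Ty5.W i).nb (i + a) = true ↔ a = 0) := by decide

theorem decN2 : ∀ i a : Fin 5, ((Ty5.V (i + 2)).nb (i + a) = true ↔ (a = 1 ∨ a = 3)) := by decide

theorem decN3 : ∀ i a : Fin 5, ((Ty5.V (i + 3)).nb (i + a) = true ↔ (a = 2 ∨ a = 4)) := by decide

theorem decN4 : ∀ a : Fin 5, (a = 0 ↔ (1 : ℕ).testBit a.1 = true) := by decide

theorem decN5 : ∀ a : Fin 5, ((a = 1 ∨ a = 3) ↔ (10 : ℕ).testBit a.1 = true) := by decide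

theorem decN6 : ∀ a : Fin 5, ((a = 2 ∨ a = 4) ↔ (20 : ℕ).testBit a.1 = true) := by decide

/-- the root -/
def rtN (p : Fin 5 → V) (i : Fin 5) (x y z : V) : ℕ → V
  | 0 => p (i + 0)
  | 1 => p (i + 1)
  | 2 => p (i + 2)
  | 3 => p (i + 3)
  | 4 => p (i + 4)
  | 5 => x
  | 6 => y
  | _ => z

/-- adjacency of the root -/
def bN (a b : ℕ) : Prop :=
  (a, b) ∈ (specN 0 0).root ∨ (b, a) ∈ (specN 0 0).root

instance (a b : ℕ) : Decidable (bN a b) := inferInstanceAs (Decidable (_ ∨ _))

theorem bN_inj : ∀ a < 8, ∀ b < 8, (∀ c < 8, (bN a c ↔ bN b c)) → a = b := by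
  decide

theorem rtN_root (i : Fin 5) {x y z : V}
    (hroot : ∀ i j, (G.Adj (p i) (p j) ↔ (j = i + 1 ∨ i = j + 1)))
    (tx : Typ G p x (.W i))
    (ty : Typ G p y (.V (i + 2))) (tz : Typ G p z (.V (i + 3))) (hxy : ¬ G.Adj x y)
    (hyz : ¬ G.Adj y z) (hxz : ¬ G.Adj x z) :
    ∀ a < 8, ∀ b < 8, (G.Adj (rtN p i x y z a) (rtN p i x y z b) ↔ bN a b) := by
  have e1 : ∀ a b : Fin 5, (G.Adj (p (i + a)) (p (i + b)) ↔ (b = a + 1 ∨ a = b + 1)) := by
    intro a b
    rw [hroot]
    exact decN0 i a b
  have e2 : ∀ a : Fin 5, (G.Adj x (p (i + a)) ↔ a = 0) := by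
    intro a
    rw [tx]
    exact decN1 i a
  have e3 : ∀ a : Fin 5, (G.Adj y (p (i + a)) ↔ (a = 1 ∨ a = 3)) := by
    intro a
    rw [ty]
    exact decN2 i a
  have e4 : ∀ a : Fin 5, (G.Adj z (p (i + a)) ↔ (a = 2 ∨ a = 4)) := by
    intro a
    rw [tz]
    exact decN3 i a
  have e2' : ∀ a : Fin 5, (G.Adj (p (i + a)) x ↔ a = 0) := fun a => by rw [G.adj_comm]; exact e2 a
  have e3' : ∀ a : Fin 5, (G.Adj (p (i + a)) y ↔ (a = 1 ∨ a = 3)) :=
    fun a => by rw [G.adj_comm]; exact e3 a
  have e4' : ∀ a : Fin 5, (G.Adj (p (i + a)) z ↔ (a = 2 ∨ a = 4)) :=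
    fun a => by rw [G.adj_comm]; exact e4 a
  have hyx : ¬ G.Adj y x := fun h => hxy h.symm
  have hzy : ¬ G.Adj z y := fun h => hyz h.symm
  have hzx : ¬ G.Adj z x := fun h => hxz h.symm
  intro a ha b hb
  interval_cases a <;> interval_cases b <;>
    simp only [rtN, e1, e2, e3, e4, e2', e3', e4', hxy, hyz, hxz, hyx, hzy, hzx, G.irrefl] <;>
    decide

theorem null_tab (e f : Fin 8) :
    (∃ q ∈ nullTab2, q.1 = 1 + 32 * e.1 ∧ q.2.1 = 10 + 32 * f.1) ∧
    (∃ q ∈ nullTab3, q.1 = 1 + 32 * e.1 ∧ q.2.1 = 20 + 32 * f.1) := by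
  revert e f
  decide +kernel

theorem null_chk (e f : Fin 8) (b : ℕ) (hb : b = 10 ∨ b = 20) :
    ∃ t, check (specN (1 + 32 * e.1) (b + 32 * f.1)) t
      (St.init (specN (1 + 32 * e.1) (b + 32 * f.1)) 1 []) = true := by
  rcases hb with rfl | rfl
  · obtain ⟨⟨a, b, t⟩, hq, h1, h2⟩ := (null_tab e f).1
    simp only at h1 h2
    subst h1 h2
    have := List.all_eq_true.1 nullTab2_ok _ hq
    exact ⟨t, this⟩
  · obtain ⟨⟨a, b, t⟩, hq, h1, h2⟩ := (null_tab e f).2
    simp only at h1 h2
    subst h1 h2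
    have := List.all_eq_true.1 nullTab3_ok _ hq
    exact ⟨t, this⟩

open Classical in
/-- the neighbours among three vertices -/
noncomputable def eN (G : SimpleGraph V) (u x y z : V) : Fin 8 :=
  (if G.Adj u x then 1 else 0) + (if G.Adj u y then 2 else 0) + (if G.Adj u z then 4 else 0)

theorem eN_bits (u x y z : V) (a : ℕ) (ha : a < 32) :
    (∀ k < 5, (a + 32 * (eN G u x y z).1).testBit k = a.testBit k) ∧
    ((a + 32 * (eN G u x y z).1).testBit 5 = true ↔ G.Adj u x) ∧
    ((a + 32 * (eN G u x y z).1).testBit 6 = true ↔ G.Adj u y) ∧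
    ((a + 32 * (eN G u x y z).1).testBit 7 = true ↔ G.Adj u z) := by
  by_cases h1 : G.Adj u x <;> by_cases h2 : G.Adj u y <;> by_cases h3 : G.Adj u z <;>
    simp only [eN, h1, h2, h3, if_true, if_false, iff_true, iff_false] <;>
    interval_cases a <;> decide

theorem null_use (h : C5Sys G M X E p) (i : Fin 5) {x y z : V} (hx : x ∈ M) (hy : y ∈ M)
    (hz : z ∈ M) (hx' : x ∉ X) (hy' : y ∉ X) (hz' : z ∉ X) (tx : Typ G p x (.W i))
    (ty : Typ G p y (.V (i + 2))) (tz : Typ G p z (.V (i + 3))) (hxy : ¬ G.Adj x y)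
    (hyz : ¬ G.Adj y z) (hxz : ¬ G.Adj x z)
    (hE : ∀ u v, E 0 u v → (G.Adj u x ↔ G.Adj v x) ∧ (G.Adj u y ↔ G.Adj v y) ∧
      (G.Adj u z ↔ G.Adj v z)) {u w : V} (hu : u ∈ X) (hw : w ∈ X) (tu : Typ G p u (.W i))
    (tw : Typ G p w (.V (i + 2)) ∨ Typ G p w (.V (i + 3))) : ¬ Mx G X E 12 u w := by
  intro hm
  have hroot := rtN_root i h.root tx ty tz hxy hyz hxz
  obtain ⟨b, hb, hbw⟩ : ∃ b : ℕ, (b = 10 ∨ b = 20) ∧
      ∀ a : Fin 5, (G.Adj w (p (i + a)) ↔ b.testBit a.1 = true) := by
    rcases tw with tw | tw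
    · refine ⟨10, Or.inl rfl, fun a => ?_⟩
      rw [tw, decN2]
      exact decN5 a
    · refine ⟨20, Or.inr rfl, fun a => ?_⟩
      rw [tw, decN3]
      exact decN6 a
  have hau : ∀ a : Fin 5, (G.Adj u (p (i + a)) ↔ (1 : ℕ).testBit a.1 = true) := by
    intro a
    rw [tu, decN1]
    exact decN4 a
  obtain ⟨t, ht⟩ := null_chk (eN G u x y z) (eN G w x y z) b hb
  have hb32 : b < 32 := by rcases hb with rfl | rfl <;> norm_num
  obtain ⟨hu1, hu2, hu3, hu4⟩ := eN_bits (G := G) u x y z 1 (by norm_num)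
  obtain ⟨hw1, hw2, hw3, hw4⟩ := eN_bits (G := G) w x y z b hb32
  have hcu : ∀ k < 8, (G.Adj u (rtN p i x y z k) ↔
      (1 + 32 * (eN G u x y z).1).testBit k = true) := by
    intro k hk
    interval_cases k
    · rw [hu1 0 (by norm_num)]; exact hau 0
    · rw [hu1 1 (by norm_num)]; exact hau 1
    · rw [hu1 2 (by norm_num)]; exact hau 2
    · rw [hu1 3 (by norm_num)]; exact hau 3
    · rw [hu1 4 (by norm_num)]; exact hau 4
    · exact hu2.symm
    · exact hu3.symm
    · exact hu4.symm
  have hcw : ∀ k < 8, (G.Adj w (rtN p i x y z k) ↔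
      (b + 32 * (eN G w x y z).1).testBit k = true) := by
    intro k hk
    interval_cases k
    · rw [hw1 0 (by norm_num)]; exact hbw 0
    · rw [hw1 1 (by norm_num)]; exact hbw 1
    · rw [hw1 2 (by norm_num)]; exact hbw 2
    · rw [hw1 3 (by norm_num)]; exact hbw 3
    · rw [hw1 4 (by norm_num)]; exact hbw 4
    · exact hw2.symm
    · exact hw3.symm
    · exact hw4.symm
  have hT : ∀ v, (∀ k < 8, ¬ G.Adj v (rtN p i x y z k)) → Typ G p v .T := by
    intro v hv j
    have h1 : ∀ a : Fin 5, ¬ G.Adj v (p (i + a)) := by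
      intro a
      fin_cases a
      · exact hv 0 (by norm_num)
      · exact hv 1 (by norm_num)
      · exact hv 2 (by norm_num)
      · exact hv 3 (by norm_num)
      · exact hv 4 (by norm_num)
    have h2 : i + (j - i) = j := by abel
    have h3 := h1 (j - i)
    rw [h2] at h3
    simp [Ty5.nb, h3]
  have hc : Ctx G M X E (specN (1 + 32 * (eN G u x y z).1) (b + 32 * (eN G w x y z).1))
      (rtN p i x y z) (fun n => if n = 0 then u else w) := by
    refine
      { sys := h.sys
        sub := h.sub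
        pM := ?_
        pX := ?_
        pinj := ?_
        root := ?_
        h0 := ?_
        tri := h.tri
        freeS := fun _ => h.free
        freeP := fun hf => absurd hf (by simp [specN])
        tt := ?_
        aty := fun hf => absurd rfl hf
        repX := ?_
        cty := ?_
        mix := ?_ }
    · intro k hk
      change k < 8 at hk
      interval_cases k
      · exact h.pM _
      · exact h.pM _
      · exact h.pM _
      · exact h.pM _
      · exact h.pM _
      · exact hx
      · exact hy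
      · exact hz
    · intro k hk
      change k < 8 at hk
      interval_cases k
      · exact h.pX _
      · exact h.pX _
      · exact h.pX _
      · exact h.pX _
      · exact h.pX _
      · exact hx'
      · exact hy'
      · exact hz'
    · intro a ha b' hb' hab
      refine bN_inj a ha b' hb' (fun c hc => ?_)
      rw [← hroot a ha c hc, ← hroot b' hb' c hc, hab]
    · intro a ha b' hb'
      exact hroot a ha b' hb'
    · intro v v' he k hk
      change k < 8 at hk
      obtain ⟨g1, g2, g3⟩ := hE v v' he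
      interval_cases k
      · exact h.h0 v v' he _
      · exact h.h0 v v' he _
      · exact h.h0 v v' he _
      · exact h.h0 v v' he _
      · exact h.h0 v v' he _
      · exact g1
      · exact g2
      · exact g3
    · intro _ v hv v' hv' h1 h2
      exact h.tt v hv v' hv' (hT v h1) (hT v' h2)
    · intro c _
      by_cases h0 : c = 0
      · simp only [h0, if_true]; exact hu
      · simp only [h0, if_false]; exact hw
    · intro c τ hc k hk
      change k < 8 at hk
      rcases c with _ | _ | c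
      · simp only [specN, List.getElem?_cons_zero, Option.some.injEq] at hc
        subst hc
        exact hcu k hk
      · simp only [specN, List.getElem?_cons_succ, List.getElem?_cons_zero, zero_add,
          Option.some.injEq] at hc
        subst hc
        exact hcw k hk
      · simp [specN] at hc
    · intro c d hcd
      simp only [specN, List.mem_cons, Prod.mk.injEq, List.not_mem_nil, or_false] at hcd
      rcases hcd with ⟨rfl, rfl⟩ | ⟨rfl, rfl⟩
      · exact hm
      · exact hm.symm
  exact cert_sound hc 1 (by simp [specN]) (by simp [specN]) [] (by simp) t ht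

end Pool.Agent.H68.CW
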