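import Pool.Agent.H68.CW.SUseA
import Pool.Agent.H68.CW.SUseB
import Pool.Agent.H68.CW.SUseC
import Pool.Agent.H68.CW.SUseD
import Pool.Agent.H68.CW.SClose
import Pool.Agent.H68.CW.SGrp

/-!
SGD. The data for the grouping.

Proofs of the fields of `GD` (`ty u` is the type of `u`, `Typ.unique`):
* `symm`: `Mx.symm`. `pair`: `pair_use`, `dbl`: `dbl_use`, `jex`: `jex_use`, `kex`: `kex_use`. `jty`, `kty`: definitions. `kcl`: `KK.close`.
* `jcl`: let `(t, a, b)` be the triple of `u` (types `T, V i, V (i+1)`). The types of `u` and `w` are in `{T, V i, V (i+1)}`; equal types are excluded by `pair_use` (`(T, T)`, `(V 0, V 0)`). By `Mx` there are `x, y ∈ X` in the classes of `u`, `w` with `x ~ y` if one of the types is `T`, and `x ≁ y` if the types are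
  `V i`, `V (i+1)`. By `JJ.congr` (level 12 ≥ 2) `x` has the property; by `OneFacts.jclose` (`one_use` for `Y` = all vertices of `X` of the three types, `ℓ` = 0, 1, 2; the vertices `t', a', b'` of the statement are `y` and any others) `y` has it, so `w` has it by `JJ.congr`.
* `jin`: by `Mx` (and `Sys.bf`, from a member of the class of `u` to `u`) `u` has a neighbour / non-neighbour in the class of `w`, of the same type; this gives the triple: `u = t`: neighbours `a`, `b` (first form); `u = a`: neighbour `t`, non-neighbour `b` (second form); `u = b`: neighbour `t`, non-neighbour `a` (third form).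
* `kin`: in the same way `u` has a neighbour and a non-neighbour of both types. `NoNull i`: from `hnull` (the other alternative excludes a mixed pair of types `W i`, `V (i+2)` or `W i`, `V (i+3)`, in either order: `Mx.symm`).
-/

set_option autoImplicit false

namespace Pool.Agent.H68.CW

variable {V : Type} {G : SimpleGraph V} {M X : Set V} {E : ℕ → V → V → Prop} {p : Fin 5 → V}

/-- from a mixed class to a neighbour / non-neighbour -/
theorem sgd_mx (h : C5Sys G M X E p) {u w : V} (hm : Mx G X E 12 u w) {τ : Ty5}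
    (tw : Typ G p w τ) (b : Prop) : ∃ y ∈ X, Typ G p y τ ∧ (G.Adj u y ↔ b) := by
  obtain ⟨x, hx, y, hy, e1, e2, e3⟩ := hm b
  obtain ⟨y', hy', e4, e5⟩ := h.sys.bf 11 x u y e1 hy
  refine ⟨y', hy', ?_, e5.trans e3⟩
  have e6 : E 0 y' w := h.sys.trans 0 _ _ _ (h.sys.le (by norm_num) e4)
    (h.sys.le (by norm_num) e2)
  exact Typ.congr h (h.sys.symm 0 _ _ e6) tw

theorem sgd_indiv (h : C5Sys G M X E p) {u w : V} (hm : Mx G X E 12 u w) {τ : Ty5}
    (tw : Typ G p w τ) : Indiv G X p τ u := by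
  obtain ⟨y, hy, t1, a1⟩ := sgd_mx h hm tw True
  obtain ⟨y', hy', t2, a2⟩ := sgd_mx h hm tw False
  exact ⟨⟨y, hy, t1, a1.2 trivial⟩, y', hy', t2, fun hc => a2.1 hc⟩

theorem sgd_ne (i : Fin 5) : (Ty5.V (i + 1)) ≠ Ty5.V i := by
  intro e
  injection e with e
  revert e
  fin_cases i <;> decide

theorem sgd_step (h : C5Sys G M X E p) (i : Fin 5) {x y : V} (hx : x ∈ X) (hy : y ∈ X)
    (hJ : JJ G X p i x)
    (hc : (Typ G p x .T ∧ Typ G p y (.V i) ∧ G.Adj x y) ∨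
      (Typ G p x .T ∧ Typ G p y (.V (i + 1)) ∧ G.Adj x y) ∨
      (Typ G p x (.V i) ∧ Typ G p y .T ∧ G.Adj x y) ∨
      (Typ G p x (.V i) ∧ Typ G p y (.V (i + 1)) ∧ ¬ G.Adj x y) ∨
      (Typ G p x (.V (i + 1)) ∧ Typ G p y .T ∧ G.Adj x y) ∨
      (Typ G p x (.V (i + 1)) ∧ Typ G p y (.V i) ∧ ¬ G.Adj x y)) : JJ G X p i y := by
  classical
  obtain ⟨t, ht, a, ha, b, hb, tt, ta, tb, hJT, hxe⟩ := hJ
  have nTV : ∀ j, (Ty5.T : Ty5) ≠ Ty5.V j := fun j e => by cases e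
  set ℓ : V → Fin 3 := fun v => if Typ G p v .T then 0 else if Typ G p v (.V i) then 1 else 2
    with hℓ
  set Y : Set V := {v | v ∈ X ∧ (Typ G p v .T ∨ Typ G p v (.V i) ∨ Typ G p v (.V (i + 1)))}
    with hY
  have l0 : ∀ v, Typ G p v .T → ℓ v = 0 := fun v hv => by simp only [hℓ]; rw [if_pos hv]
  have l1 : ∀ v, Typ G p v (.V i) → ℓ v = 1 := fun v hv => by
    simp only [hℓ]
    rw [if_neg (fun hv' => nTV i (Typ.unique hv' hv)), if_pos hv]
  have l2 : ∀ v, Typ G p v (.V (i + 1)) → ℓ v = 2 := fun v hv => by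
    simp only [hℓ]
    rw [if_neg (fun hv' => nTV _ (Typ.unique hv' hv)),
      if_neg (fun hv' => sgd_ne i (Typ.unique hv hv'))]
  have k0 : ∀ v ∈ Y, ℓ v = 0 → Typ G p v .T := by
    intro v hv hl
    rcases hv.2 with h1 | h1 | h1
    · exact h1
    · rw [l1 v h1] at hl; exact absurd hl (by decide)
    · rw [l2 v h1] at hl; exact absurd hl (by decide)
  have k1 : ∀ v ∈ Y, ℓ v = 1 → Typ G p v (.V i) := by
    intro v hv hl
    rcases hv.2 with h1 | h1 | h1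
    · rw [l0 v h1] at hl; exact absurd hl (by decide)
    · exact h1
    · rw [l2 v h1] at hl; exact absurd hl (by decide)
  have k2 : ∀ v ∈ Y, ℓ v = 2 → Typ G p v (.V (i + 1)) := by
    intro v hv hl
    rcases hv.2 with h1 | h1 | h1
    · rw [l0 v h1] at hl; exact absurd hl (by decide)
    · rw [l1 v h1] at hl; exact absurd hl (by decide)
    · exact h1
  have hOF : OneFacts G ℓ Y := one_use h i (fun v hv => hv.1) ℓ k0 k1 k2
  have htY : t ∈ Y := ⟨ht, Or.inl tt⟩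
  have haY : a ∈ Y := ⟨ha, Or.inr (Or.inl ta)⟩
  have hbY : b ∈ Y := ⟨hb, Or.inr (Or.inr tb)⟩
  -- from labelled triples to `JJ`
  have r1 : ∀ v, Typ G p v (.V i) → v ∈ X →
      (∃ s ∈ Y, ∃ c ∈ Y, ℓ s = 0 ∧ ℓ c = 2 ∧ JTrip G s v c) → JJ G X p i v := by
    rintro v tv hv ⟨s, hs, c, hc, e1, e2, e3⟩
    exact ⟨s, hs.1, v, hv, c, hc.1, k0 s hs e1, tv, k2 c hc e2, e3, Or.inr (Or.inl rfl)⟩
  have r2 : ∀ v, Typ G p v (.V (i + 1)) → v ∈ X →
      (∃ s ∈ Y, ∃ c ∈ Y, ℓ s = 0 ∧ ℓ c = 1 ∧ JTrip G s c v) → JJ G X p i v := by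
    rintro v tv hv ⟨s, hs, c, hc, e1, e2, e3⟩
    exact ⟨s, hs.1, c, hc.1, v, hv, k0 s hs e1, k1 c hc e2, tv, e3, Or.inr (Or.inr rfl)⟩
  have r0 : ∀ v, Typ G p v .T → v ∈ X →
      (∃ s ∈ Y, ∃ c ∈ Y, ℓ s = 1 ∧ ℓ c = 2 ∧ JTrip G v s c) → JJ G X p i v := by
    rintro v tv hv ⟨s, hs, c, hc, e1, e2, e3⟩
    exact ⟨v, hv, s, hs.1, c, hc.1, tv, k1 s hs e1, k2 c hc e2, e3, Or.inl rfl⟩
  -- identification of `x`
  have xT : Typ G p x .T → x = t := by
    intro hx'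
    rcases hxe with e | e | e
    · exact e
    · exact absurd (Typ.unique hx' (e ▸ ta)) (nTV _)
    · exact absurd (Typ.unique hx' (e ▸ tb)) (nTV _)
  have xA : Typ G p x (.V i) → x = a := by
    intro hx'
    rcases hxe with e | e | e
    · exact absurd (Typ.unique (e ▸ tt : Typ G p x .T) hx') (nTV _)
    · exact e
    · exact absurd (Typ.unique (e ▸ tb : Typ G p x (.V (i + 1))) hx') (sgd_ne i)
  have xB : Typ G p x (.V (i + 1)) → x = b := by
    intro hx'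
    rcases hxe with e | e | e
    · exact absurd (Typ.unique (e ▸ tt : Typ G p x .T) hx') (nTV _)
    · exact absurd (Typ.unique hx' (e ▸ ta : Typ G p x (.V i))) (sgd_ne i)
    · exact e
  rcases hc with ⟨c1, c2, c3⟩ | ⟨c1, c2, c3⟩ | ⟨c1, c2, c3⟩ | ⟨c1, c2, c3⟩ | ⟨c1, c2, c3⟩ |
    ⟨c1, c2, c3⟩
  · have hyY : y ∈ Y := ⟨hy, Or.inr (Or.inl c2)⟩
    rw [xT c1] at c3
    exact r1 y c2 hy ((hOF.jclose htY haY hbY htY hyY hbY (l0 t tt) (l1 a ta) (l2 b tb) (l0 t tt)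
      (l1 y c2) (l2 b tb) hJT).1 c3)
  · have hyY : y ∈ Y := ⟨hy, Or.inr (Or.inr c2)⟩
    rw [xT c1] at c3
    exact r2 y c2 hy ((hOF.jclose htY haY hbY htY haY hyY (l0 t tt) (l1 a ta) (l2 b tb) (l0 t tt)
      (l1 a ta) (l2 y c2) hJT).2.1 c3)
  · have hyY : y ∈ Y := ⟨hy, Or.inl c2⟩
    rw [xA c1] at c3
    exact r0 y c2 hy ((hOF.jclose htY haY hbY hyY haY hbY (l0 t tt) (l1 a ta) (l2 b tb) (l0 y c2)
      (l1 a ta) (l2 b tb) hJT).2.2.1 c3.symm)
  · have hyY : y ∈ Y := ⟨hy, Or.inr (Or.inr c2)⟩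
    rw [xA c1] at c3
    exact r2 y c2 hy ((hOF.jclose htY haY hbY htY haY hyY (l0 t tt) (l1 a ta) (l2 b tb) (l0 t tt)
      (l1 a ta) (l2 y c2) hJT).2.2.2.2.1 c3)
  · have hyY : y ∈ Y := ⟨hy, Or.inl c2⟩
    rw [xB c1] at c3
    exact r0 y c2 hy ((hOF.jclose htY haY hbY hyY haY hbY (l0 t tt) (l1 a ta) (l2 b tb) (l0 y c2)
      (l1 a ta) (l2 b tb) hJT).2.2.2.1 c3.symm)
  · have hyY : y ∈ Y := ⟨hy, Or.inr (Or.inl c2)⟩
    rw [xB c1] at c3
    exact r1 y c2 hy ((hOF.jclose htY haY hbY htY hyY hbY (l0 t tt) (l1 a ta) (l2 b tb) (l0 t tt)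
      (l1 y c2) (l2 b tb) hJT).2.2.2.2.2 (fun e => c3 e.symm))

theorem gd_of_sys (h : C5Sys G M X E p) (ty : V → Ty5) (hty : ∀ u ∈ X, Typ G p u (ty u))
    (hnull : ∀ i, NoNull G X p i ∨ ∀ u ∈ X, ∀ w ∈ X, Typ G p u (.W i) →
      (Typ G p w (.V (i + 2)) ∨ Typ G p w (.V (i + 3))) → ¬ Mx G X E 12 u w) :
    GD X (Mx G X E 12) ty (JJ G X p) (KK G X p) := by
  have hTy : ∀ u ∈ X, ∀ τ, ty u = τ → Typ G p u τ := fun u hu τ e => e ▸ hty u hu
  have hun : ∀ u ∈ X, ∀ τ, Typ G p u τ → ty u = τ := fun u hu τ ht => Typ.unique (hty u hu) ht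
  have jty : ∀ i, ∀ u ∈ X, JJ G X p i u → ty u = .T ∨ ty u = .V i ∨ ty u = .V (i + 1) := by
    rintro i u hu ⟨t, ht, a, ha, b, hb, tt, ta, tb, -, hxe⟩
    rcases hxe with e | e | e
    · exact Or.inl (hun u hu _ (e ▸ tt))
    · exact Or.inr (Or.inl (hun u hu _ (e ▸ ta)))
    · exact Or.inr (Or.inr (hun u hu _ (e ▸ tb)))
  have samT : ∀ u ∈ X, ∀ w ∈ X, ty u = .T → ty w = .T → ¬ Mx G X E 12 u w := by
    intro u hu w hw h1 h2
    exact pair_use h 0 (.T, .T) (by decide) hu hw (hTy u hu _ h1) (hTy w hw _ h2)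
  have samV : ∀ i, ∀ u ∈ X, ∀ w ∈ X, ty u = .V i → ty w = .V i → ¬ Mx G X E 12 u w := by
    intro i u hu w hw h1 h2
    refine pair_use h i (.V 0, .V 0) (by decide) hu hw (hTy u hu _ ?_) (hTy w hw _ ?_)
    · rw [h1]
      show Ty5.V i = Ty5.V (0 + i)
      rw [zero_add]
    · rw [h2]
      show Ty5.V i = Ty5.V (0 + i)
      rw [zero_add]
  refine
    { symm := fun u w hm => hm.symm
      pair := fun s q hq u hu w hw h1 h2 =>
        pair_use h s q hq hu hw (hTy u hu _ h1) (hTy w hw _ h2)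
      dbl := fun s q hq u hu w hw w' hw' h1 h2 h3 hm =>
        dbl_use h s q hq hu hw hw' (hTy u hu _ h1) (hTy w hw _ h2) (hTy w' hw' _ h3) hm
      jex := fun s q hq u hu w hw h1 h2 hJ =>
        jex_use h s q hq hu hw (hTy u hu _ h1) (hTy w hw _ h2) hJ
      kex := fun s q hq u hu w hw h1 h2 hK =>
        kex_use h s q hq hu hw (hTy u hu _ h1) (hTy w hw _ h2) hK
      jty := jty
      kty := ?_
      jcl := ?_
      kcl := ?_
      jin := ?_
      kin := ?_ }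
  · rintro i u hu ⟨-, h1 | h1 | h1⟩
    · exact Or.inl (hun u hu _ h1.1)
    · exact Or.inr (Or.inl (hun u hu _ h1.1))
    · exact Or.inr (Or.inr (hun u hu _ h1.1))
  · intro i u hu w hw hm hJ htw
    -- the transfer from representatives
    have hkey : ∀ (b : Prop), (∀ x ∈ X, ∀ y ∈ X, E 12 x u → E 12 y w → (G.Adj x y ↔ b) →
        JJ G X p i x → JJ G X p i y) → JJ G X p i w := by
      intro b hb
      obtain ⟨x, hx, y, hy, e1, e2, e3⟩ := hm b
      have hx1 : JJ G X p i x := JJ.congr h hu hx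
        (h.sys.symm 2 _ _ (h.sys.le (by norm_num) e1)) hJ
      have hy1 := hb x hx y hy e1 e2 e3 hx1
      exact JJ.congr h hy hw (h.sys.le (by norm_num) e2) hy1
    have tx : ∀ x τ, E 12 x u → ty u = τ → Typ G p x τ := fun x τ e1 e =>
      Typ.congr h (h.sys.symm 0 _ _ (h.sys.le (by norm_num) e1)) (hTy u hu τ e)
    have tyy : ∀ y τ, E 12 y w → ty w = τ → Typ G p y τ := fun y τ e1 e =>
      Typ.congr h (h.sys.symm 0 _ _ (h.sys.le (by norm_num) e1)) (hTy w hw τ e)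
    rcases jty i u hu hJ with hu1 | hu1 | hu1 <;> rcases htw with hw1 | hw1 | hw1
    · exact absurd hm (samT u hu w hw hu1 hw1)
    · exact hkey True (fun x hx y hy e1 e2 e3 hx1 => sgd_step h i hx hy hx1
        (Or.inl ⟨tx x _ e1 hu1, tyy y _ e2 hw1, e3.2 trivial⟩))
    · exact hkey True (fun x hx y hy e1 e2 e3 hx1 => sgd_step h i hx hy hx1
        (Or.inr (Or.inl ⟨tx x _ e1 hu1, tyy y _ e2 hw1, e3.2 trivial⟩)))
    · exact hkey True (fun x hx y hy e1 e2 e3 hx1 => sgd_step h i hx hy hx1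
        (Or.inr (Or.inr (Or.inl ⟨tx x _ e1 hu1, tyy y _ e2 hw1, e3.2 trivial⟩))))
    · exact absurd hm (samV i u hu w hw hu1 hw1)
    · exact hkey False (fun x hx y hy e1 e2 e3 hx1 => sgd_step h i hx hy hx1
        (Or.inr (Or.inr (Or.inr (Or.inl ⟨tx x _ e1 hu1, tyy y _ e2 hw1, fun hc => e3.1 hc⟩)))))
    · exact hkey True (fun x hx y hy e1 e2 e3 hx1 => sgd_step h i hx hy hx1
        (Or.inr (Or.inr (Or.inr (Or.inr (Or.inl
          ⟨tx x _ e1 hu1, tyy y _ e2 hw1, e3.2 trivial⟩))))))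
    · exact hkey False (fun x hx y hy e1 e2 e3 hx1 => sgd_step h i hx hy hx1
        (Or.inr (Or.inr (Or.inr (Or.inr (Or.inr
          ⟨tx x _ e1 hu1, tyy y _ e2 hw1, fun hc => e3.1 hc⟩))))))
    · exact absurd hm (samV (i + 1) u hu w hw hu1 hw1)
  · intro i u hu w hw hm hK htw
    refine KK.close h hu hw hm hK ?_
    rcases htw with h1 | h1 | h1
    · exact Or.inl (hTy w hw _ h1)
    · exact Or.inr (Or.inl (hTy w hw _ h1))
    · exact Or.inr (Or.inr (hTy w hw _ h1))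
  · intro i u hu w hw w' hw' hm hm' hc
    rcases hc with ⟨h1, h2, h3⟩ | ⟨h1, h2, h3⟩ | ⟨h1, h2, h3⟩
    · obtain ⟨a, ha, ta, ea⟩ := sgd_mx h hm (hTy w hw _ h2) True
      obtain ⟨b, hb, tb, eb⟩ := sgd_mx h hm' (hTy w' hw' _ h3) True
      exact ⟨u, hu, a, ha, b, hb, hTy u hu _ h1, ta, tb, Or.inl ⟨ea.2 trivial, eb.2 trivial⟩,
        Or.inl rfl⟩
    · obtain ⟨t, ht, tt, et⟩ := sgd_mx h hm (hTy w hw _ h2) True
      obtain ⟨b, hb, tb, eb⟩ := sgd_mx h hm' (hTy w' hw' _ h3) False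
      exact ⟨t, ht, u, hu, b, hb, tt, hTy u hu _ h1, tb,
        Or.inr (Or.inl ⟨(et.2 trivial).symm, fun hc => eb.1 hc⟩), Or.inr (Or.inl rfl)⟩
    · obtain ⟨t, ht, tt, et⟩ := sgd_mx h hm (hTy w hw _ h2) True
      obtain ⟨a, ha, ta, ea⟩ := sgd_mx h hm' (hTy w' hw' _ h3) False
      exact ⟨t, ht, a, ha, u, hu, tt, ta, hTy u hu _ h1,
        Or.inr (Or.inr ⟨(et.2 trivial).symm, fun hc => ea.1 hc.symm⟩), Or.inr (Or.inr rfl)⟩
  · intro i u hu w hw w' hw' hm hm' hc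
    rcases hc with ⟨h1, h2, h3⟩ | ⟨h1, h2, h3⟩ | ⟨h1, h2, h3⟩
    · have hn : NoNull G X p i := by
        rcases hnull i with h4 | h4
        · exact h4
        · exact absurd hm (h4 u hu w hw (hTy u hu _ h1) (Or.inl (hTy w hw _ h2)))
      exact ⟨hn, Or.inl ⟨hTy u hu _ h1, sgd_indiv h hm (hTy w hw _ h2),
        sgd_indiv h hm' (hTy w' hw' _ h3)⟩⟩
    · have hn : NoNull G X p i := by
        rcases hnull i with h4 | h4
        · exact h4
        · exact absurd hm.symm (h4 w hw u hu (hTy w hw _ h2) (Or.inl (hTy u hu _ h1)))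
      exact ⟨hn, Or.inr (Or.inl ⟨hTy u hu _ h1, sgd_indiv h hm (hTy w hw _ h2),
        sgd_indiv h hm' (hTy w' hw' _ h3)⟩)⟩
    · have hn : NoNull G X p i := by
        rcases hnull i with h4 | h4
        · exact h4
        · exact absurd hm.symm (h4 w hw u hu (hTy w hw _ h2) (Or.inr (hTy u hu _ h1)))
      exact ⟨hn, Or.inr (Or.inr ⟨hTy u hu _ h1, sgd_indiv h hm (hTy w hw _ h2),
        sgd_indiv h hm' (hTy w' hw' _ h3)⟩)⟩

end Pool.Agent.H68.CW
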