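import Pool.Agent.H68.CW.SBlock
import Pool.Agent.H68.CW.BlockN
import Pool.Agent.H68.CW.SGD

/-!
SS. Over a `C₅`: the vertices outside the root.

Proof.
* `dec_sys`: choose `ty` (`Typ.exists'`), `gd_of_sys`, `GD.group` gives `g : V → Gam`. `glue_groups` with `12 * k` (`Nat.card (LT B 12) ≤ k ≤ 12 * k`): for each group `γ` the set `Y = {v ∈ X | g v = γ}`: `block_I`, `block_II` (if `Y` is empty: `Dec.empty`; otherwise `K i u` for some `u`, which contains
  `NoNull G X p i`), `block_P`, `block_Q` and `Dec.relabel` (from `fun _ => ()` to `lab G X t 12`, width `12 * k`); `block_N` and `Dec.mono` for `N`.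
-/

set_option autoImplicit false

namespace Pool.Agent.H68.CW

variable {V : Type} {G : SimpleGraph V} {M X : Set V} {p : Fin 5 → V}

theorem dec_sys {B : Type} [Finite B] {t : V → B}
    (h : C5Sys G M X (fun k u v => lab G X t k u = lab G X t k v) p) (hX : X.Finite)
    (hnull : ∀ i, NoNull G X p i ∨ ∀ u ∈ X, ∀ w ∈ X, Typ G p u (.W i) →
      (Typ G p w (.V (i + 2)) ∨ Typ G p w (.V (i + 3))) →
        ¬ Mx G X (fun k u v => lab G X t k u = lab G X t k v) 12 u w)
    {k : ℕ} (hk : Nat.card (LT B 12) ≤ k) (hpos : 1 ≤ k) :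
    Dec G (lab G X t 12) (12 * k) X X := by
  classical
  have hex : ∀ u, ∃ τ, u ∈ X → Typ G p u τ := by
    intro u
    by_cases hu : u ∈ X
    · obtain ⟨τ, hτ⟩ := Typ.exists' h.tri h.pM h.root (h.sub hu)
      exact ⟨τ, fun _ => hτ⟩
    · exact ⟨Ty5.T, fun hu' => absurd hu' hu⟩
  choose ty hty using hex
  have hTy : ∀ u ∈ X, ∀ τ, ty u = τ → Typ G p u τ := fun u hu τ e => e ▸ hty u hu
  have gd := gd_of_sys h ty hty hnull
  obtain ⟨g, g1, -, gI, gII, gP, gQ, gN⟩ := gd.group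
  have hk' : k ≤ 12 * k := by omega
  refine glue_groups (hk.trans hk') (hpos.trans hk') g ?_ g1
  intro γ
  have hY : {v | v ∈ X ∧ g v = γ} ⊆ X := fun v hv => hv.1
  have hfin : {v | v ∈ X ∧ g v = γ}.Finite := hX.subset hY
  cases γ with
  | I i =>
    refine Dec.relabel hk hpos (block_I h i hY hfin ?_)
    rintro u ⟨hu, hg⟩
    rcases gI u hu i hg with h1 | h1 | h1
    · exact Or.inl (hTy u hu _ h1)
    · exact Or.inr (Or.inl (hTy u hu _ h1))
    · exact Or.inr (Or.inr (hTy u hu _ h1))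
  | II i =>
    rcases Set.eq_empty_or_nonempty {v | v ∈ X ∧ g v = Gam.II i} with he | ⟨u0, hu0, hg0⟩
    · rw [he]
      exact Dec.empty
    · refine Dec.relabel hk hpos (block_II h i hY hfin (gII u0 hu0 i hg0).1 ?_)
      rintro u ⟨hu, hg⟩
      rcases (gII u hu i hg).2 with h1 | h1 | h1
      · exact Or.inl h1.1
      · exact Or.inr (Or.inl h1.1)
      · exact Or.inr (Or.inr h1.1)
  | P i =>
    refine Dec.relabel hk hpos (block_P h i hY hfin ?_ ?_)
    · rintro u ⟨hu, hg⟩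
      rcases (gP u hu i hg).1 with h1 | h1 | h1
      · exact Or.inl (hTy u hu _ h1)
      · exact Or.inr (Or.inl (hTy u hu _ h1))
      · exact Or.inr (Or.inr (hTy u hu _ h1))
    · rintro u ⟨hu, hg⟩ hT
      obtain ⟨w, hw, hw1, hw2⟩ := (gP u hu i hg).2 (Typ.unique (hty u hu) hT)
      exact ⟨w, hw, hTy w hw _ hw1, hw2⟩
  | Q i =>
    refine Dec.relabel hk hpos (block_Q h i hY hfin ?_)
    rintro u ⟨hu, hg⟩
    rcases gQ u hu i hg with h1 | h1 | h1 | h1
    · exact Or.inl (hTy u hu _ h1)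
    · exact Or.inr (Or.inl (hTy u hu _ h1))
    · exact Or.inr (Or.inr (Or.inl (hTy u hu _ h1)))
    · exact Or.inr (Or.inr (Or.inr (hTy u hu _ h1)))
  | N =>
    refine Dec.mono hk' (block_N hY hfin hk hpos ?_)
    rintro u ⟨hu, hg⟩ w ⟨hw, -⟩
    exact gN u hu hg w hw

end Pool.Agent.H68.CW
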