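import Pool.Agent.H68.CW.SFact
import Pool.Agent.H68.CW.STab

/-!
SUA. The certificates `pairTab`, `dblTab` used.
-/

set_option autoImplicit false

namespace Pool.Agent.H68.CW

variable {V : Type} {G : SimpleGraph V} {M X : Set V} {E : ℕ → V → V → Prop} {p : Fin 5 → V}

theorem SUseA_keyP : ∀ q ∈ badP, ∃ e ∈ pairTab, e.1 = q.1 ∧ e.2.1 = q.2 := by
  decide +kernel

theorem SUseA_keyD : ∀ q ∈ badD, ∃ e ∈ dblTab, e.1 = q.1 ∧ e.2.1 = q.2.1 ∧ e.2.2.1 = q.2.2 := by
  decide +kernel

theorem pair_use (h : C5Sys G M X E p) (s : Fin 5) (q : Ty5 × Ty5) (hq : q ∈ badP) {u w : V}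
    (hu : u ∈ X) (hw : w ∈ X) (tu : Typ G p u (q.1.rot s)) (tw : Typ G p w (q.2.rot s)) :
    ¬ Mx G X E 12 u w := by
  intro hm
  obtain ⟨e, he, h1, h2⟩ := SUseA_keyP q hq
  rw [← h1] at tu
  rw [← h2] at tw
  refine h.fact s [e.1, e.2.1] mixP 1 (by simp) (by norm_num) [] e.2.2
    (List.all_eq_true.1 pairTab_ok e he) (fun n => if n = 0 then u else w) ?_ ?_ ?_ ?_
  · intro c hc
    have hc2 : c < 2 := hc
    interval_cases c
    · exact hu
    · exact hw
  · intro c τ hc
    have hc2 : c < 2 := by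
      by_contra hc2
      rw [List.getElem?_eq_none (not_lt.1 hc2)] at hc
      cases hc
    interval_cases c
    · obtain rfl : e.1 = τ := Option.some.inj hc
      exact tu
    · obtain rfl : e.2.1 = τ := Option.some.inj hc
      exact tw
  · intro c d hcd
    rcases List.mem_cons.1 hcd with hcd | hcd
    · obtain ⟨rfl, rfl⟩ := Prod.mk.inj hcd
      exact hm
    · obtain ⟨rfl, rfl⟩ := Prod.mk.inj (List.mem_singleton.1 hcd)
      exact hm.symm
  · intro f hf
    cases hf

theorem dbl_use (h : C5Sys G M X E p) (s : Fin 5) (q : Ty5 × Ty5 × Ty5) (hq : q ∈ badD)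
    {u w w' : V} (hu : u ∈ X) (hw : w ∈ X) (hw' : w' ∈ X) (tu : Typ G p u (q.1.rot s))
    (tw : Typ G p w (q.2.1.rot s)) (tw' : Typ G p w' (q.2.2.rot s)) (hm : Mx G X E 12 u w) :
    ¬ Mx G X E 12 u w' := by
  intro hm'
  obtain ⟨e, he, h1, h2, h3⟩ := SUseA_keyD q hq
  rw [← h1] at tu
  rw [← h2] at tw
  rw [← h3] at tw'
  refine h.fact s [e.1, e.2.1, e.2.2.1] mixD 1 (by simp) (by norm_num) [] e.2.2.2
    (List.all_eq_true.1 dblTab_ok e he)
    (fun n => if n = 0 then u else if n = 1 then w else w') ?_ ?_ ?_ ?_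
  · intro c hc
    have hc2 : c < 3 := hc
    interval_cases c
    · exact hu
    · exact hw
    · exact hw'
  · intro c τ hc
    have hc2 : c < 3 := by
      by_contra hc2
      rw [List.getElem?_eq_none (not_lt.1 hc2)] at hc
      cases hc
    interval_cases c
    · obtain rfl : e.1 = τ := Option.some.inj hc
      exact tu
    · obtain rfl : e.2.1 = τ := Option.some.inj hc
      exact tw
    · obtain rfl : e.2.2.1 = τ := Option.some.inj hc
      exact tw'
  · intro c d hcd
    rcases List.mem_cons.1 hcd with hcd | hcd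
    · obtain ⟨rfl, rfl⟩ := Prod.mk.inj hcd
      exact hm
    rcases List.mem_cons.1 hcd with hcd | hcd
    · obtain ⟨rfl, rfl⟩ := Prod.mk.inj hcd
      exact hm.symm
    rcases List.mem_cons.1 hcd with hcd | hcd
    · obtain ⟨rfl, rfl⟩ := Prod.mk.inj hcd
      exact hm'
    · obtain ⟨rfl, rfl⟩ := Prod.mk.inj (List.mem_singleton.1 hcd)
      exact hm'.symm
  · intro f hf
    cases hf

end Pool.Agent.H68.CW
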