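import Pool.Agent.H68.CW.BipDef

/-!
STA. The bipartite complement.

Proofs. `bcG_bcG`: on `M` the graphs `bcG (bcG G side) side` and `G` agree (`Bip`). `freeS_bc`: if `IsS (bcG G side) c a b₁ b₂ d₁ d₂ d₃`
then `IsS G b₂ d₁ d₃ c a d₂ b₁` (the vertices `c, b₂, d₂` are on one side, `a, b₁, d₁, d₃` on the other).
`not_bconn_six`: in `bcG` there are no edges between the classes `2, 5` and the classes `1, 3, 4, 6` (the sides alternate along the
classes).
-/

set_option autoImplicit false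

namespace Pool.Agent.H68.CW

variable {V : Type} {G : SimpleGraph V} {side : V → Bool} {M : Set V}

theorem bip_bc : Bip (bcG G side) side M := fun _ _ _ _ h => h.1

theorem bcG_bcG (hb : Bip G side M) {u v : V} (hu : u ∈ M) (hv : v ∈ M) :
    (bcG (bcG G side) side).Adj u v ↔ G.Adj u v := by
  constructor
  · rintro ⟨h1, h2⟩
    by_contra h3
    exact h2 ⟨h1, h3⟩
  · intro h
    exact ⟨hb u hu v hv h, fun h2 => h2.2 h⟩

theorem freeS_bc (hb : Bip G side M) (hS : FreeS G M) : FreeS (bcG G side) M := by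
  intro c hc a ha b₁ hb₁ b₂ hb₂ d₁ hd₁ d₂ hd₂ d₃ hd₃ h
  obtain ⟨⟨e1, e2, e3, e4, e5, e6⟩, ⟨f1, f2, f3⟩, ⟨g1, g2, g3, g4, g5⟩, ⟨i1, i2, i3⟩,
    ⟨j1, j2, j3⟩, k1⟩ := h
  have bool3 : ∀ x y z : Bool, x ≠ y → y ≠ z → x = z := by decide
  have bool4 : ∀ x y z w : Bool, x ≠ y → y ≠ z → z ≠ w → x ≠ w := by decide
  have same : ∀ x ∈ M, ∀ y ∈ M, side x = side y → ¬ G.Adj x y := fun x hx y hy hxy h' =>
    hb x hx y hy h' hxy
  have adj : ∀ x y : V, side x ≠ side y → ¬ (bcG G side).Adj x y → G.Adj x y := by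
    intro x y hxy hn
    by_contra h3
    exact hn ⟨hxy, h3⟩
  have s1 : side a ≠ side c := e1.1.symm
  have s2 : side b₁ ≠ side c := e2.1.symm
  have s3 : side b₂ = side c := bool3 _ _ _ e3.1.symm s2
  have s4 : side d₁ ≠ side c := e4.1.symm
  have s5 : side d₂ = side c := bool3 _ _ _ e5.1.symm s4
  have s6 : side d₃ ≠ side c := by
    rw [← s5]
    exact e6.1.symm
  have t : ∀ x y : V, side x ≠ side c → side y ≠ side c → side x = side y := fun x y hx hy =>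
    bool3 _ _ _ hx hy.symm
  refine hS b₂ hb₂ d₁ hd₁ d₃ hd₃ c hc a ha d₂ hd₂ b₁ hb₁ ⟨⟨?_, ?_, ?_, ?_, ?_, ?_⟩,
    ⟨?_, ?_, ?_⟩, ⟨?_, ?_, ?_, ?_, ?_⟩, ⟨?_, ?_, ?_⟩, ⟨?_, ?_, ?_⟩, ?_⟩
  · exact adj _ _ (by rw [s3]; exact s4.symm) j1
  · exact adj _ _ (by rw [s3]; exact s6.symm) j3
  · exact (adj _ _ s6.symm f3).symm
  · exact (adj _ _ (by rw [s3]; exact s1) g2).symm
  · exact adj _ _ (by rw [s5]; exact s1) g4
  · exact (adj _ _ (by rw [s5]; exact s2) i2).symm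
  · exact same _ hb₂ _ hc s3
  · exact same _ hb₂ _ hd₂ (s3.trans s5.symm)
  · exact fun h' => e3.2 h'.symm
  · exact same _ hd₁ _ hd₃ (t _ _ s4 s6)
  · exact fun h' => e4.2 h'.symm
  · exact same _ hd₁ _ ha (t _ _ s4 s1)
  · exact e5.2
  · exact same _ hd₁ _ hb₁ (t _ _ s4 s2)
  · exact same _ hd₃ _ ha (t _ _ s6 s1)
  · exact fun h' => e6.2 h'.symm
  · exact same _ hd₃ _ hb₁ (t _ _ s6 s2)
  · exact e1.2
  · exact same _ hc _ hd₂ s5.symm
  · exact e2.2
  · exact same _ ha _ hb₁ (t _ _ s1 s2)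

theorem not_bconn_six (hb : Bip G side M) {c : V → ℕ} (hP : PathBl G M 6 c) :
    ¬ Conn (bcG G side) M := by
  intro hconn
  obtain ⟨h1, h2, h3⟩ := hP
  have hne : ∀ u ∈ M, ∀ v ∈ M, c u + 1 = c v → side v = !side u := by
    intro u hu v hv huv
    have h4 := hb u hu v hv ((h3 u hu v hv).2 (Or.inl huv))
    cases hu' : side u <;> cases hv' : side v <;> simp_all
  obtain ⟨x1, m1, c1⟩ := h2 1 (by norm_num) (by norm_num)
  obtain ⟨x2, m2, c2⟩ := h2 2 (by norm_num) (by norm_num)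
  obtain ⟨x3, m3, c3⟩ := h2 3 (by norm_num) (by norm_num)
  obtain ⟨x4, m4, c4⟩ := h2 4 (by norm_num) (by norm_num)
  obtain ⟨x5, m5, c5⟩ := h2 5 (by norm_num) (by norm_num)
  have e3 := hne x2 m2 x3 m3 (by omega)
  have e4 := hne x3 m3 x4 m4 (by omega)
  have e5 := hne x4 m4 x5 m5 (by omega)
  obtain ⟨a, ⟨ha, hca⟩, b, hb', hbn, hs, hna⟩ := hconn {u | u ∈ M ∧ (c u = 2 ∨ c u = 5)}
    (fun u hu => hu.1) ⟨x2, m2, Or.inl c2⟩ (fun h => by
      have h5 : x1 ∈ {u | u ∈ M ∧ (c u = 2 ∨ c u = 5)} := by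
        rw [h]
        exact m1
      have h6 := h5.2
      omega)
  have hcb := h1 b hb'
  have hbn' : ¬ (c b = 2 ∨ c b = 5) := fun h => hbn ⟨hb', h⟩
  rcases hca with hca | hca
  · have ea := hne a ha x3 m3 (by omega)
    have h5 : c b = 1 ∨ c b = 3 ∨ c b = 4 ∨ c b = 6 := by omega
    rcases h5 with h | h | h | h
    · exact hna ((h3 a ha b hb').2 (Or.inr (by omega)))
    · exact hna ((h3 a ha b hb').2 (Or.inl (by omega)))
    · have e := hne x3 m3 b hb' (by omega)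
      apply hs
      rw [e, ea, Bool.not_not]
    · have e := hne x5 m5 b hb' (by omega)
      apply hs
      rw [e, e5, e4, ea, Bool.not_not, Bool.not_not]
  · have ea := hne x4 m4 a ha (by omega)
    have h5 : c b = 1 ∨ c b = 3 ∨ c b = 4 ∨ c b = 6 := by omega
    rcases h5 with h | h | h | h
    · have e := hne b hb' x2 m2 (by omega)
      apply hs
      rw [ea, e4, e3, e, Bool.not_not, Bool.not_not]
    · have e := hne b hb' x4 m4 (by omega)
      apply hs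
      rw [ea, e, Bool.not_not]
    · exact hna ((h3 a ha b hb').2 (Or.inr (by omega)))
    · exact hna ((h3 a ha b hb').2 (Or.inl (by omega)))

end Pool.Agent.H68.CW
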