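import Pool.Agent.H68.CW.LemTwo
import Pool.Agent.H68.CW.LemOne
import Pool.Agent.H68.CW.BipStrong
import Pool.Agent.H68.CW.StructA

/-!
ST. The structure of prime bipartite graphs without `S_{1,2,3}`.

`structure_LP`: strong induction on the number of elements of `M`. Take `v` from `exists_strong_sub`, `S = M \ {v}`.
If `S` is prime: by induction `PC G S` or `PC (bcG G side) S` (`S` meets both sides, so it is nontrivial). In the first case use
`lemma_two_path` / `lemma_two_cyc`; in the second one use them for `bcG G side` (`hn1`, `hn2` exchanged) and `bcG_bcG`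
(a blow-up for `bcG (bcG G side) side` on `M` is one for `G` on `M`).
If `Conn G S` fails: `lemma_one` (`hiso` from `Str.no_isolated`) gives `PathBl G M k c` with `k ≥ 6`, and `k ≠ 6` by `not_bconn_six`.
If `Conn (bcG G side) S` fails: the same for `bcG G side` (its bipartite complement is `G` on `M`).
`Str` for `bcG` is not needed.
-/

set_option autoImplicit false

namespace Pool.Agent.H68.CW

variable {V : Type} {G : SimpleGraph V} {side : V → Bool} {M : Set V}

theorem PC_congr {G' : SimpleGraph V} (h : ∀ u ∈ M, ∀ v ∈ M, (G.Adj u v ↔ G'.Adj u v))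
    (hP : PC G M) : PC G' M := by
  obtain ⟨k, c, hk, hP | hP⟩ := hP
  · exact ⟨k, c, hk, Or.inl ⟨hP.1, hP.2.1, fun u hu v hv => (h u hu v hv).symm.trans
      (hP.2.2 u hu v hv)⟩⟩
  · exact ⟨k, c, hk, Or.inr ⟨hP.1, hP.2.1, fun u hu v hv => (h u hu v hv).symm.trans
      (hP.2.2 u hu v hv)⟩⟩

theorem Conn_congr {G' : SimpleGraph V} (h : ∀ u ∈ M, ∀ v ∈ M, (G.Adj u v ↔ G'.Adj u v))
    (hC : Conn G M) : Conn G' M := by
  intro A hA hne hAM
  obtain ⟨a, ha, b, hb, hbA, hab⟩ := hC A hA hne hAM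
  exact ⟨a, ha, b, hb, hbA, (h a (hA ha) b hb).1 hab⟩

theorem structure_LP (hM : M.Finite) (h2 : M.Nontrivial) (hb : Bip G side M) (hS : FreeS G M)
    (h : LP G side M) : PC G M ∨ PC (bcG G side) M := by
  induction hn : M.ncard using Nat.strong_induction_on generalizing M with
  | _ n ih =>
    obtain ⟨v, hv, hstr, hn1, hn2, ⟨x₁, hx₁, hx₁v, hx₁s⟩, ⟨x₂, hx₂, hx₂v, hx₂s⟩⟩ :=
      exists_strong_sub hM h2 hb h
    have m₁ : x₁ ∈ M \ {v} := ⟨hx₁, hx₁v⟩
    have m₂ : x₂ ∈ M \ {v} := ⟨hx₂, hx₂v⟩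
    have hbb : Bip (bcG G side) side M := bip_bc
    have hSS : FreeS (bcG G side) M := freeS_bc hb hS
    have hn1' : ∃ x ∈ M, x ≠ v ∧ side x ≠ side v ∧ (bcG G side).Adj v x := by
      obtain ⟨x, hx, h1, h2, h3⟩ := hn2
      exact ⟨x, hx, h1, h2, h2.symm, h3⟩
    have hn2' : ∃ x ∈ M, x ≠ v ∧ side x ≠ side v ∧ ¬ (bcG G side).Adj v x := by
      obtain ⟨x, hx, h1, h2, h3⟩ := hn1
      exact ⟨x, hx, h1, h2, fun h => h.2 h3⟩
    have hcc : ∀ u ∈ M, ∀ w ∈ M, ((bcG (bcG G side) side).Adj u w ↔ G.Adj u w) :=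
      fun u hu w hw => bcG_bcG hb hu hw
    obtain ⟨i1, i2⟩ := Str.no_isolated hstr ⟨x₁, m₁, hx₁s⟩ ⟨x₂, m₂, hx₂s⟩
    by_cases hC : Conn G (M \ {v})
    · by_cases hC' : Conn (bcG G side) (M \ {v})
      · have hsub : M \ {v} ⊆ M := Set.sdiff_subset
        have hnt : (M \ {v}).Nontrivial := by
          refine ⟨x₁, m₁, x₂, m₂, fun h => ?_⟩
          rw [h, hx₂s] at hx₁s
          exact absurd hx₁s (by decide)
        have hb' : Bip G side (M \ {v}) := fun u hu w hw => hb u (hsub hu) w (hsub hw)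
        have hS' : FreeS G (M \ {v}) := fun c hc a ha b₁ hb₁ b₂ hb₂ d₁ hd₁ d₂ hd₂ d₃ hd₃ =>
          hS c (hsub hc) a (hsub ha) b₁ (hsub hb₁) b₂ (hsub hb₂) d₁ (hsub hd₁) d₂ (hsub hd₂)
            d₃ (hsub hd₃)
        have hlt : (M \ {v}).ncard < n := by
          rw [← hn]
          exact Set.ncard_sdiff_singleton_lt_of_mem hv hM
        rcases ih _ hlt (hM.subset hsub) hnt hb' hS' ⟨hC, hC', hstr⟩ rfl with
          ⟨k, c, hk, hP | hP⟩ | ⟨k, c, hk, hP | hP⟩
        · exact lemma_two_path hb hS hv hk hP hn1 hn2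
        · exact Or.inl (lemma_two_cyc hb hS hv hk hP hn1 hn2)
        · rcases lemma_two_path hbb hSS hv hk hP hn1' hn2' with h | h
          · exact Or.inr h
          · exact Or.inl (PC_congr hcc h)
        · exact Or.inr (lemma_two_cyc hbb hSS hv hk hP hn1' hn2')
      · have hiso : ∀ x ∈ M \ {v}, ∃ y ∈ M \ {v}, (bcG G side).Adj x y := by
          intro x hx
          obtain ⟨y, hy, h1, h2⟩ := i2 x hx
          exact ⟨y, hy, h1.symm, h2⟩
        have hnn : ∃ x ∈ M, side x ≠ side v ∧ ¬ (bcG G side).Adj v x := by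
          obtain ⟨x, hx, _, h2, h3⟩ := hn2'
          exact ⟨x, hx, h2, h3⟩
        obtain ⟨k, c, hk, hP⟩ := lemma_one hM hbb hSS hv h.bconn hiso hC' hnn
        have hk6 : k ≠ 6 := by
          rintro rfl
          exact not_bconn_six hbb hP (Conn_congr (fun u hu w hw => (hcc u hu w hw).symm) h.conn)
        exact Or.inr ⟨k, c, by omega, Or.inl hP⟩
    · have hiso : ∀ x ∈ M \ {v}, ∃ y ∈ M \ {v}, G.Adj x y := by
        intro x hx
        obtain ⟨y, hy, _, h2⟩ := i1 x hx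
        exact ⟨y, hy, h2⟩
      have hnn : ∃ x ∈ M, side x ≠ side v ∧ ¬ G.Adj v x := by
        obtain ⟨x, hx, _, h2, h3⟩ := hn2
        exact ⟨x, hx, h2, h3⟩
      obtain ⟨k, c, hk, hP⟩ := lemma_one hM hb hS hv h.conn hiso hC hnn
      have hk6 : k ≠ 6 := by
        rintro rfl
        exact not_bconn_six hb hP h.bconn
      exact Or.inl ⟨k, c, by omega, Or.inl hP⟩

end Pool.Agent.H68.CW
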