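import Pool.Agent.H68.CW.PSysDec

/-!
TP. Triangle-free graphs without `P_1 + S_{1,1,3}` have bounded width.

Proof. If `FreeS G M`: `thmS` and `Dec.mono` (`KS ≤ KP`). Otherwise there are `c, a, b₁, b₂, d₁, d₂, d₃ ∈ M` with `IsS`. Put `p 0 = c`, `p 1 = a`, `p 2 = b₁`, `p 3 = d₁`, `p 4 = d₂`, `p 5 = d₃`: the adjacencies are those of `rootP`; the `p i` are different (e.g. `a ≠ b₁` since `b₁ ~ b₂`, `a ≁ b₂`; the others differ
in the adjacencies to the root). `X = M \ R`, `R = {p 0, ..., p 5}`, `t v : Fin 6 → Prop := fun j => G.Adj v (p j)`, `E k u v := lab G X t k u = lab G X t k v` (`sys_lab`). `PSys`, `dec_psys` with `k = max 1 (Nat.card (LT (Fin 6 → Prop) 12))`, and `Dec.addRoot` with `r = 6` (`M \ R = X`).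
-/

set_option autoImplicit false

namespace Pool.Agent.H68.CW

variable {V : Type} {G : SimpleGraph V} {M : Set V}

/-- the width -/
noncomputable def KP : ℕ := (KS * (max 1 (Nat.card (LT (Fin 6 → Prop) 12)))) * 2 ^ 6

/-- the root: `c, a, b₁, d₁, d₂, d₃` -/
private def rt (c a b₁ d₁ d₂ d₃ : V) : ℕ → V
  | 0 => c
  | 1 => a
  | 2 => b₁
  | 3 => d₁
  | 4 => d₂
  | _ => d₃

private theorem rt_root {c a b₁ b₂ d₁ d₂ d₃ : V} (h : IsS G c a b₁ b₂ d₁ d₂ d₃) :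
    ∀ i < 6, ∀ j < 6, (G.Adj (rt c a b₁ d₁ d₂ d₃ i) (rt c a b₁ d₁ d₂ d₃ j) ↔
      ((i, j) ∈ rootP ∨ (j, i) ∈ rootP)) := by
  obtain ⟨⟨h1, h2, h3, h4, h5, h6⟩, ⟨n1, n2, n3⟩, ⟨m1, m2, m3, m4, m5⟩, ⟨k1, k2, k3⟩, ⟨l1, l2, l3⟩,
    o1⟩ := h
  intro i hi j hj
  interval_cases i <;> interval_cases j <;>
    simp [rt, rootP, h1, h2, h4, h5, h6, n2, n3, m1, m3, m4, m5, k1, k2, k3, o1, h1.symm, h2.symm,
      h4.symm, h5.symm, h6.symm, G.adj_comm d₂ c, G.adj_comm d₃ c, G.adj_comm b₁ a,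
      G.adj_comm d₁ a, G.adj_comm d₂ a, G.adj_comm d₃ a, G.adj_comm d₁ b₁, G.adj_comm d₂ b₁,
      G.adj_comm d₃ b₁, G.adj_comm d₃ d₁]

private theorem rt_inj {c a b₁ b₂ d₁ d₂ d₃ : V} (h : IsS G c a b₁ b₂ d₁ d₂ d₃) :
    ∀ i < 6, ∀ j < 6, rt c a b₁ d₁ d₂ d₃ i = rt c a b₁ d₁ d₂ d₃ j → i = j := by
  obtain ⟨⟨h1, h2, h3, h4, h5, h6⟩, ⟨n1, n2, n3⟩, ⟨m1, m2, m3, m4, m5⟩, ⟨k1, k2, k3⟩, ⟨l1, l2, l3⟩,
    o1⟩ := h
  have e1 : c ≠ a := h1.ne
  have e2 : c ≠ b₁ := h2.ne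
  have e3 : c ≠ d₁ := h4.ne
  have e4 : c ≠ d₂ := fun e => m4 (e ▸ h1.symm)
  have e5 : c ≠ d₃ := fun e => m5 (e ▸ h1.symm)
  have e6 : a ≠ b₁ := fun e => m2 (e ▸ h3)
  have e7 : a ≠ d₁ := fun e => m4 (e ▸ h5)
  have e8 : a ≠ d₂ := fun e => n2 (e ▸ h1)
  have e9 : a ≠ d₃ := fun e => n3 (e ▸ h1)
  have e10 : b₁ ≠ d₁ := fun e => k2 (e ▸ h5)
  have e11 : b₁ ≠ d₂ := fun e => n2 (e ▸ h2)
  have e12 : b₁ ≠ d₃ := fun e => n3 (e ▸ h2)
  have e13 : d₁ ≠ d₂ := h5.ne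
  have e14 : d₁ ≠ d₃ := fun e => n3 (e ▸ h4)
  have e15 : d₂ ≠ d₃ := h6.ne
  intro i hi j hj
  interval_cases i <;> interval_cases j <;>
    simp [rt, e1, e2, e3, e4, e5, e6, e7, e8, e9, e10, e11, e12, e13, e14, e15, e1.symm, e2.symm,
      e3.symm, e4.symm, e5.symm, e6.symm, e7.symm, e8.symm, e9.symm, e10.symm, e11.symm,
      e12.symm, e13.symm, e14.symm, e15.symm]

theorem thmP (hM : M.Finite) (htri : TriFree G M) (hP : FreeP G M) :
    Dec G (fun _ => ()) KP M M := by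
  classical
  by_cases hS : FreeS G M
  · refine (thmS hM htri hS).mono ?_
    unfold KP
    calc KS = KS * 1 * 1 := by ring
      _ ≤ _ := Nat.mul_le_mul (Nat.mul_le_mul le_rfl (le_max_left _ _)) Nat.one_le_two_pow
  · unfold FreeS at hS
    push Not at hS
    obtain ⟨c, hc, a, ha, b₁, hb₁, b₂, hb₂, d₁, hd₁, d₂, hd₂, d₃, hd₃, h⟩ := hS
    set p : ℕ → V := rt c a b₁ d₁ d₂ d₃ with hp
    set R : Set V := ((Finset.image p (Finset.range 6) : Finset V) : Set V) with hR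
    have hRf : R.Finite := Finset.finite_toSet _
    have hRc : R.ncard ≤ 6 := by
      rw [hR, Set.ncard_coe_finset]
      exact Finset.card_image_le.trans (by simp)
    have hpR : ∀ i < 6, p i ∈ R := by
      intro i hi
      rw [hR, Finset.mem_coe]
      exact Finset.mem_image_of_mem _ (Finset.mem_range.2 hi)
    set t : V → (Fin 6 → Prop) := fun v j => G.Adj v (p j) with ht
    have hPS : PSys G M (M \ R) (fun k u v => lab G (M \ R) t k u = lab G (M \ R) t k v) p := by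
      refine ⟨sys_lab G (M \ R) t, Set.sdiff_subset, ?_, ?_, rt_inj h, rt_root h, ?_, htri, hP⟩
      · intro i hi
        interval_cases i <;> simpa [hp, rt]
      · intro i hi hx
        exact hx.2 (hpR i hi)
      · intro u v huv i hi
        have h1 : t u ⟨i, hi⟩ = t v ⟨i, hi⟩ := congrFun huv ⟨i, hi⟩
        exact iff_of_eq h1
    have h2 := dec_psys hPS (hM.subset Set.sdiff_subset)
      (k := max 1 (Nat.card (LT (Fin 6 → Prop) 12))) (le_max_right _ _) (le_max_left _ _)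
    refine Dec.addRoot hM hRf hRc ?_ h2
    have h3 : 1 ≤ KS := by
      unfold KS
      exact Nat.mul_pos (Nat.mul_pos (by norm_num) (lt_of_lt_of_le one_pos (le_max_left _ _)))
        (by positivity)
    exact Nat.mul_pos h3 (lt_of_lt_of_le one_pos (le_max_left _ _))

end Pool.Agent.H68.CW
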