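import Pool.Agent.H68.CW.Dec

/-!
TOOL1. Elementary facts on decompositions.

Proofs. All by induction on `Dec` (generalize the set).
* `Ext.mono`, `Dec.mono`: compose `c` with `Fin.castLE`.
* `Ext.of_labels`: from a labelling in any finite type with at most `k` elements (embed it in `Fin k`).
* `Dec.lift`: if the label of a vertex of `M` determines its neighbours in `N \ M`, a decomposition relative
  to `M` is one relative to `N` (`A ⊆ M` for all sets that occur).
* `Dec.refine`: use `c × ℓ'`. `Dec.coarsen`: same `c`. `Dec.relabel`: `Dec.refine`, then `Dec.coarsen`.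
(If `V` is empty there is always a function `V → Fin k`.)
-/

set_option autoImplicit false

namespace Pool.Agent.H68.CW

variable {V : Type} {L : Type} {G : SimpleGraph V} {ℓ : V → L}

private theorem Ext.of_labels_aux {C : Type} [Finite C] {k : ℕ} {M X : Set V}
    (hk : Nat.card C ≤ k) (c : V → C) (h : ∀ u ∈ X, ∀ v ∈ X, c u = c v →
      ℓ u = ℓ v ∧ ∀ w ∈ M, w ∉ X → (G.Adj u w ↔ G.Adj v w)) : Ext G ℓ k M X := by
  refine ⟨fun v => Fin.castLE hk (Finite.equivFin C (c v)), fun u hu v hv huv => ?_⟩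
  refine h u hu v hv ?_
  have h1 : Finite.equivFin C (c u) = Finite.equivFin C (c v) := Fin.castLE_injective hk huv
  exact (Finite.equivFin C).injective h1

theorem Ext.of_labels {C : Type} [Finite C] {k : ℕ} {M X : Set V} (hk : Nat.card C ≤ k)
    (hpos : 1 ≤ k) (c : V → C) (h : ∀ u ∈ X, ∀ v ∈ X, c u = c v →
      ℓ u = ℓ v ∧ ∀ w ∈ M, w ∉ X → (G.Adj u w ↔ G.Adj v w)) : Ext G ℓ k M X :=
  Ext.of_labels_aux hk c h

theorem Dec.mono {k k' : ℕ} (hk : k ≤ k') {M A : Set V} (h : Dec G ℓ k M A) :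
    Dec G ℓ k' M A := by
  induction h with
  | empty => exact .empty
  | single v => exact .single v
  | union A B _ _ hd he ihA ihB =>
    refine .union A B ihA ihB hd ?_
    obtain ⟨c, hc⟩ := he
    refine ⟨fun v => Fin.castLE hk (c v), fun u hu v hv huv => hc u hu v hv ?_⟩
    exact Fin.castLE_injective hk huv

theorem Dec.lift {k : ℕ} {M N A : Set V} (hMN : M ⊆ N)
    (hdet : ∀ u ∈ M, ∀ v ∈ M, ℓ u = ℓ v → ∀ w ∈ N, w ∉ M → (G.Adj u w ↔ G.Adj v w))
    (h : Dec G ℓ k M A) (hA : A ⊆ M) : Dec G ℓ k N A := by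
  induction h with
  | empty => exact .empty
  | single v => exact .single v
  | union A B _ _ hd he ihA ihB =>
    have hA' : A ⊆ M := fun x hx => hA (Or.inl hx)
    have hB' : B ⊆ M := fun x hx => hA (Or.inr hx)
    refine .union A B (ihA hA') (ihB hB') hd ?_
    obtain ⟨c, hc⟩ := he
    refine ⟨c, fun u hu v hv huv => ?_⟩
    obtain ⟨h1, h2⟩ := hc u hu v hv huv
    refine ⟨h1, fun w hw hwX => ?_⟩
    by_cases hwM : w ∈ M
    · exact h2 w hwM hwX
    · exact hdet u (hA hu) v (hA hv) h1 w hw hwM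

theorem Dec.refine {L' : Type} [Finite L'] {ℓ' : V → L'} {k m : ℕ} (hm : Nat.card L' ≤ m)
    (hpos : 1 ≤ m) {M A : Set V} (h : Dec G ℓ k M A) :
    Dec G (fun v => (ℓ v, ℓ' v)) (k * m) M A := by
  induction h with
  | empty => exact .empty
  | single v => exact .single v
  | union A B _ _ hd he ihA ihB =>
    refine .union A B ihA ihB hd ?_
    obtain ⟨c, hc⟩ := he
    have hcard : Nat.card (Fin k × L') ≤ k * m := by
      rw [Nat.card_prod, Nat.card_eq_fintype_card, Fintype.card_fin]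
      exact Nat.mul_le_mul_left k hm
    refine Ext.of_labels_aux hcard (fun v => (c v, ℓ' v)) (fun u hu v hv huv => ?_)
    obtain ⟨e1, e2⟩ := Prod.mk.inj huv
    obtain ⟨h1, h2⟩ := hc u hu v hv e1
    exact ⟨Prod.ext h1 e2, h2⟩

theorem Dec.coarsen {L' : Type} {ℓ' : V → L'} {k : ℕ} {M A : Set V}
    (hc : ∀ u ∈ A, ∀ v ∈ A, ℓ u = ℓ v → ℓ' u = ℓ' v) (h : Dec G ℓ k M A) :
    Dec G ℓ' k M A := by
  induction h with
  | empty => exact .empty
  | single v => exact .single v
  | union A B _ _ hd he ihA ihB =>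
    refine .union A B (ihA fun u hu v hv => hc u (Or.inl hu) v (Or.inl hv))
      (ihB fun u hu v hv => hc u (Or.inr hu) v (Or.inr hv)) hd ?_
    obtain ⟨c, h'⟩ := he
    refine ⟨c, fun u hu v hv huv => ?_⟩
    obtain ⟨h1, h2⟩ := h' u hu v hv huv
    exact ⟨hc u hu v hv h1, h2⟩

/-- from no labels to the labels `ℓ` -/
theorem Dec.relabel [Finite L] {k m : ℕ} (hm : Nat.card L ≤ m) (hpos : 1 ≤ m) {M A : Set V}
    (h : Dec G (fun _ => ()) k M A) : Dec G ℓ (k * m) M A :=
  Dec.coarsen (fun _ _ _ _ huv => (Prod.mk.inj huv).2) (Dec.refine (ℓ' := ℓ) hm hpos h)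

end Pool.Agent.H68.CW
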