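import Pool.Agent.H68.CW.Tool1

/-!
TOOL2. Elementary facts on decompositions.

Proofs.
* `Dec.few`: if `c : V → Fin k` determines label and neighbours in `X` on `X`, add the vertices one by one (`Set.Finite.induction_on_subset`
  or induction on a finset; `Dec.union Y {v}`).
* `Dec.glue`: lift both parts (`Dec.lift`) and use one union; `Ext` for the whole set with `c = ℓ` (at most `k` labels; nothing is
  outside), `Ext.of_labels`.
* `Dec.layout`: for a key `c`, if all sets `Y ⊆ X` of the form (all of key `< i`, some of key `i`) satisfy `Ext`, add the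
  vertices in the order of the keys (e.g. induction on the number of vertices of `Y`, for all `Y` of this form: remove a vertex with
  the greatest key; `Y \ {v}` is again of this form with `i` the key of `v`).

Status: complete (helper26).
-/

set_option autoImplicit false

namespace Pool.Agent.H68.CW

variable {V : Type} {L : Type} {G : SimpleGraph V} {ℓ : V → L}

theorem Dec.few {k : ℕ} {X : Set V} (hX : X.Finite) (c : V → Fin k)
    (hc : ∀ u ∈ X, ∀ v ∈ X, c u = c v → ℓ u = ℓ v ∧ ∀ w ∈ X, (G.Adj u w ↔ G.Adj v w)) :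
    Dec G ℓ k X X := by
  refine Set.Finite.induction_on_subset (motive := fun Y _ => Dec G ℓ k X Y) X hX
    Dec.empty ?_
  intro a s ha hs has ih
  have h1 : insert a s = s ∪ {a} := by
    rw [Set.union_singleton]
  rw [h1]
  refine Dec.union s {a} ih (Dec.single a) (Set.disjoint_singleton_right.2 has)
    ⟨c, fun u hu v hv huv => ?_⟩
  have h2 : ∀ w ∈ s ∪ {a}, w ∈ X := by
    intro w hw
    rcases hw with hw | hw
    · exact hs hw
    · rw [Set.mem_singleton_iff] at hw
      rw [hw]
      exact ha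
  obtain ⟨h3, h4⟩ := hc u (h2 u hu) v (h2 v hv) huv
  exact ⟨h3, fun w hw _ => h4 w hw⟩

theorem Dec.glue [Finite L] {k : ℕ} (hk : Nat.card L ≤ k) (hpos : 1 ≤ k) {A B : Set V}
    (hd : Disjoint A B) (hA : Dec G ℓ k A A) (hB : Dec G ℓ k B B)
    (h1 : ∀ u ∈ A, ∀ u' ∈ A, ∀ v ∈ B, ℓ u = ℓ u' → (G.Adj u v ↔ G.Adj u' v))
    (h2 : ∀ u ∈ A, ∀ v ∈ B, ∀ v' ∈ B, ℓ v = ℓ v' → (G.Adj u v ↔ G.Adj u v')) :
    Dec G ℓ k (A ∪ B) (A ∪ B) := by
  have hA' : Dec G ℓ k (A ∪ B) A := by
    refine Dec.lift Set.subset_union_left ?_ hA Set.Subset.rfl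
    intro u hu v hv huv w hw hwA
    rcases hw with hw | hw
    · exact absurd hw hwA
    · exact h1 u hu v hv w hw huv
  have hB' : Dec G ℓ k (A ∪ B) B := by
    refine Dec.lift Set.subset_union_right ?_ hB Set.Subset.rfl
    intro u hu v hv huv w hw hwB
    rcases hw with hw | hw
    · rw [G.adj_comm u w, G.adj_comm v w]
      exact h2 w hw u hu v hv huv
    · exact absurd hw hwB
  refine Dec.union A B hA' hB' hd (Ext.of_labels hk hpos ℓ ?_)
  intro u _ v _ huv
  exact ⟨huv, fun w hw hw' => absurd hw hw'⟩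

theorem Dec.layout {k : ℕ} {X : Set V} (hX : X.Finite) (c : V → ℕ)
    (h : ∀ Y ⊆ X, (∃ i : ℕ, ∀ u ∈ X, (c u < i → u ∈ Y) ∧ (i < c u → u ∉ Y)) → Ext G ℓ k X Y) :
    Dec G ℓ k X X := by
  have key : ∀ n : ℕ, ∀ Y ⊆ X, Y.ncard = n →
      (∃ i : ℕ, ∀ u ∈ X, (c u < i → u ∈ Y) ∧ (i < c u → u ∉ Y)) → Dec G ℓ k X Y := by
    intro n
    induction n with
    | zero =>
      intro Y hY hn _
      have hYf : Y.Finite := hX.subset hY
      rw [Set.ncard_eq_zero hYf] at hn
      rw [hn]
      exact Dec.empty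
    | succ n ih =>
      intro Y hY hn hP
      have hYf : Y.Finite := hX.subset hY
      have hne : Y.Nonempty := by
        rw [← Set.ncard_pos hYf]
        omega
      obtain ⟨v, hv, hmax⟩ := Set.exists_max_image Y c hYf hne
      have h1 : Y = (Y \ {v}) ∪ {v} := by
        rw [Set.sdiff_union_self, Set.union_eq_left.2 (Set.singleton_subset_iff.2 hv)]
      have h2 : (Y \ {v}).ncard = n := by
        have := Set.ncard_sdiff_singleton_of_mem hv
        omega
      have h3 : Dec G ℓ k X (Y \ {v}) := by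
        refine ih (Y \ {v}) (Set.sdiff_subset.trans hY) h2 ⟨c v, fun u hu => ⟨fun huv => ?_,
          fun huv hmem => ?_⟩⟩
        · obtain ⟨i, hi⟩ := hP
          have h4 : ¬ i < c v := fun h5 => (hi v (hY hv)).2 h5 hv
          refine ⟨(hi u hu).1 (by omega), ?_⟩
          intro h5
          rw [Set.mem_singleton_iff] at h5
          rw [h5] at huv
          exact lt_irrefl _ huv
        · have := hmax u hmem.1
          omega
      have h4 : Ext G ℓ k X Y := h Y hY hP
      rw [h1] at h4
      have h5 := Dec.union (Y \ {v}) {v} h3 (Dec.single v)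
        (Set.disjoint_singleton_right.2 (fun h6 => h6.2 rfl)) h4
      rw [h1]
      exact h5
  refine key X.ncard X Set.Subset.rfl rfl ?_
  obtain ⟨i, hi⟩ := (hX.image c).bddAbove
  refine ⟨i, fun u hu => ⟨fun _ => hu, fun hlt => ?_⟩⟩
  have := hi (Set.mem_image_of_mem c hu)
  omega

end Pool.Agent.H68.CW
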