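import Pool.Agent.H68.CW.Tool2

/-!
TOOL3. Elementary facts on decompositions.

Proofs.
* `Dec.addRoot`: first `X \ R`: refine the labels by the set of the neighbours in `R` (a function `R → Bool` or a set in the subtype `R`,
  `2 ^ |R| ≤ 2 ^ r` values; `Dec.refine`), lift to `X` (`Dec.lift`: the neighbours in `X \ (X \ R) ⊆ R` are determined), forget the labels
  (`Dec.coarsen`). Then add the vertices of `X ∩ R` one by one: for `(X \ R) ∪ R'` the labelling `c u` = set of neighbours of `u` in `R`
  works (`2 ^ r ≤ k * 2 ^ r`).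
* `Dec.image`: induction; the function `c : W → Fin k` is extended to `V` (if `W` is empty, all sets are empty and
  `Dec.empty` is enough). `R ∩ X` may be smaller than `R`.
-/

set_option autoImplicit false

namespace Pool.Agent.H68.CW

variable {V : Type} {L : Type} {G : SimpleGraph V} {ℓ : V → L}

theorem Dec.addRoot {k r : ℕ} {X R : Set V} (hX : X.Finite) (hR : R.Finite) (hr : R.ncard ≤ r)
    (hk : 1 ≤ k) (h : Dec G ℓ k (X \ R) (X \ R)) : Dec G (fun _ => ()) (k * 2 ^ r) X X := by
  classical
  have hfR : Finite ↥R := hR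
  let l' : V → Set ↥R := fun v => {w | G.Adj v w.1}
  have hcard : Nat.card (Set ↥R) ≤ 2 ^ r := by
    have : Fintype ↥R := hR.fintype
    rw [Nat.card_eq_fintype_card, Fintype.card_set, ← Nat.card_eq_fintype_card]
    exact Nat.pow_le_pow_right (by norm_num) hr
  have hpos : 1 ≤ 2 ^ r := Nat.one_le_two_pow
  have hadj : ∀ u v : V, l' u = l' v → ∀ w ∈ R, (G.Adj u w ↔ G.Adj v w) := by
    intro u v huv w hw
    have h1 : (⟨w, hw⟩ : ↥R) ∈ l' u ↔ (⟨w, hw⟩ : ↥R) ∈ l' v := by rw [huv]
    exact h1
  have h1 : Dec G (fun v => (ℓ v, l' v)) (k * 2 ^ r) (X \ R) (X \ R) :=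
    Dec.refine hcard hpos h
  have h2 : Dec G (fun v => (ℓ v, l' v)) (k * 2 ^ r) X (X \ R) := by
    refine Dec.lift Set.sdiff_subset ?_ h1 subset_rfl
    intro u hu v hv huv w hw hwn
    have hwR : w ∈ R := by
      by_contra h3
      exact hwn ⟨hw, h3⟩
    exact hadj u v (Prod.ext_iff.1 huv).2 w hwR
  have h3 : Dec G (fun _ => ()) (k * 2 ^ r) X (X \ R) := Dec.coarsen (fun _ _ _ _ _ => rfl) h2
  have key : ∀ R' : Set V, R'.Finite → R' ⊆ X ∩ R →
      Dec G (fun _ => ()) (k * 2 ^ r) X ((X \ R) ∪ R') := by
    intro R' hR'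
    induction R', hR' using Set.Finite.induction_on with
    | empty =>
      intro _
      rw [Set.union_empty]
      exact h3
    | @insert a R' ha hfin ih =>
      intro hsub
      have haR : a ∈ X ∩ R := hsub (Set.mem_insert _ _)
      have hD := ih (fun x hx => hsub (Set.mem_insert_of_mem _ hx))
      have e : (X \ R) ∪ insert a R' = ((X \ R) ∪ R') ∪ {a} := by
        ext x
        simp only [Set.mem_union, Set.mem_insert_iff, Set.mem_singleton_iff]
        tauto
      rw [e]
      refine Dec.union _ _ hD (Dec.single a) ?_ ?_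
      · rw [Set.disjoint_singleton_right]
        rintro (h4 | h4)
        · exact h4.2 haR.2
        · exact ha h4
      · refine Ext.of_labels (C := Set ↥R) ?_ ?_ l' ?_
        · calc Nat.card (Set ↥R) ≤ 2 ^ r := hcard
            _ = 1 * 2 ^ r := (one_mul _).symm
            _ ≤ k * 2 ^ r := Nat.mul_le_mul_right _ hk
        · exact Nat.one_le_iff_ne_zero.2 (by positivity)
        · intro u _ v _ huv
          refine ⟨rfl, fun w hw hwn => hadj u v huv w ?_⟩
          by_contra h4
          exact hwn (Or.inl (Or.inl ⟨hw, h4⟩))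
  have h4 := key (X ∩ R) (hX.inter_of_left R) subset_rfl
  rw [Set.sdiff_union_inter] at h4
  exact h4

/-- the width of an induced subgraph given as a type -/
theorem Dec.image {W : Type} {k : ℕ} (f : W → V) (hf : Function.Injective f) {M A : Set W}
    (h : Dec (G.comap f) (fun w => ℓ (f w)) k M A) (hA : A ⊆ M) :
    Dec G ℓ k (f '' M) (f '' A) := by
  clear hA
  induction h with
  | empty =>
    rw [Set.image_empty]
    exact Dec.empty
  | single v =>
    rw [Set.image_singleton]
    exact Dec.single (f v)
  | union A B _ _ hd hext ihA ihB =>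
    rw [Set.image_union]
    obtain ⟨c, hc⟩ := hext
    rcases isEmpty_or_nonempty W with hW | hW
    · have hA : A = ∅ := Set.eq_empty_of_isEmpty A
      have hB : B = ∅ := Set.eq_empty_of_isEmpty B
      rw [hA, hB, Set.image_empty, Set.union_empty]
      exact Dec.empty
    · refine Dec.union _ _ ihA ihB ((Set.disjoint_image_iff hf).2 hd) ?_
      have hinv := Function.leftInverse_invFun hf
      refine ⟨fun v => c (Function.invFun f v), ?_⟩
      rw [← Set.image_union]
      rintro _ ⟨u, hu, rfl⟩ _ ⟨v, hv, rfl⟩ huv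
      have huv' : c u = c v := by
        have h1 : c (Function.invFun f (f u)) = c (Function.invFun f (f v)) := huv
        rw [hinv u, hinv v] at h1
        exact h1
      obtain ⟨h1, h2⟩ := hc u hu v hv huv'
      refine ⟨h1, ?_⟩
      rintro _ ⟨w, hw, rfl⟩ hwn
      exact h2 w hw fun h3 => hwn ⟨w, h3, rfl⟩

end Pool.Agent.H68.CW
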